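import Pool.Agent.DL.G4.Spec
import Pool.Agent.DL.E.Spec0
import Pool.Agent.DL.R1A.Defs

/-!
# MP_3ff0f8_gt, ALGEBRA HALF: EXIST section 6, conclusion (helper97)

Module `XXX` = file `DL/G4/XXX.lean`, theorem `specXXX (hYYY : SpecYYY) … : SpecXXX`; own lemmas in the namespace `DL.XXXM`.
-/

open SimpleGraph Finset

namespace DL

/-- **G12** (from BASE: PLC, TRP; explicit planarity certificate).  The graph with 12 vertices is planar. -/
def SpecG12 : Prop := ∀ {α : Type} [Fintype α] [DecidableEq α] {G : SimpleGraph α}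
  {x x' z z' s₁ s₂ s₃ s₄ q₁ q₂ q₃ q₄ : α}, Gr12 G x x' z z' s₁ s₂ s₃ s₄ q₁ q₂ q₃ q₄ → ¬ NP G

/-- **I33** (base).  `U` and `KZ` for `K₃ □ K₃`. -/
def SpecI33 : Prop := ∀ {α : Type} [Fintype α] [DecidableEq α] {G : SimpleGraph α}, Is33 G → OK G

/-- **K33** (40 lines).  The two definitions of `K₃ □ K₃`. -/
def SpecK33 : Prop := ∀ {α : Type} [Fintype α] [DecidableEq α] {G : SimpleGraph α}, K3K3 G → Is33 G

/-- **SX6** (from NO2, N6D, K33, I33, G12, FRG, A6C, A6N, DL5, DST; 120 lines).  EXIST section 6.  NO2: No2, so (FRG.sep) all sides of nontrivial 4-separations have at least 3 vertices.  N6D: `K₃ □ K₃` (K33, I33), the graph with 12 vertices (planar, G12), or type A with a minimal fragment `{u, v, w}`.  Type A: `a = v`, `b = w`, `c = s₁`, `r = s₂`, `s = s₃`, sixth neighbour `s₄`: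
A6C and A6N (`s = s₁`) give C1 and NP for all `dst G u P`, `P ⊆ {v, w, s₁}`, `|P| ≤ 2`; `KZ (dst G u {w, s₁})` by the induction hypothesis (DST.sz4).  DL5. -/
def SpecSX6 : Prop := ∀ {α : Type} [Fintype α] [DecidableEq α] {G : SimpleGraph α}, SH G → No33 G → No34 G →
  No44 G → NoTW G → OK G

end DL
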