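import Pool.Agent.DL.G4.Spec
import Pool.Agent.DL.KC
import Pool.Agent.DL.NP.PAI

section
/-!
# MP_3ff0f8_gt, G4 block, module N62 (helper86)
-/
open SimpleGraph Finset

namespace DL

namespace N62M

set_option linter.unusedSectionVars false

variable {α : Type} [Fintype α] [DecidableEq α] {G : SimpleGraph α}

theorem mem_NB {A : Finset α} {w : α} : w ∈ NB G A ↔ w ∉ A ∧ ∃ a ∈ A, G.Adj a w := by
  classical
  simp [NB]

theorem del_le_del {S T : Finset α} (h : T ⊆ S) : del G S ≤ del G T := by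
  intro a b hab
  exact ⟨hab.1, fun h1 => hab.2.1 (h h1), fun h1 => hab.2.2 (h h1)⟩

theorem reach_mono {X Y : Finset α} (h : X ⊆ Y) {u v : α} (hr : (del G (univ \ X)).Reachable u v) :
    (del G (univ \ Y)).Reachable u v :=
  hr.mono (del_le_del (sdiff_subset_sdiff (subset_refl _) h))

theorem cset_single (v : α) : CSet G {v} := by
  refine ⟨singleton_nonempty v, ?_⟩
  intro a ha b hb
  rw [mem_singleton] at ha hb
  rw [ha, hb]

theorem cset_union {X Y : Finset α} (hX : CSet G X) (hY : CSet G Y) {u v : α} (hu : u ∈ X) (hv : v ∈ Y)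
    (huv : G.Adj u v) : CSet G (X ∪ Y) := by
  refine ⟨hX.1.mono subset_union_left, ?_⟩
  have hXY : (del G (univ \ (X ∪ Y))).Reachable u v := by
    apply Adj.reachable
    refine ⟨huv, ?_, ?_⟩
    · rw [mem_sdiff, not_and_not_right]; intro _; exact mem_union_left _ hu
    · rw [mem_sdiff, not_and_not_right]; intro _; exact mem_union_right _ hv
  have key : ∀ a ∈ X ∪ Y, (del G (univ \ (X ∪ Y))).Reachable u a := by
    intro a ha
    rcases mem_union.1 ha with ha | ha
    · exact reach_mono subset_union_left (hX.2 u hu a ha)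
    · exact hXY.trans (reach_mono subset_union_right (hY.2 v hv a ha))
  intro a ha b hb
  exact (key a ha).symm.trans (key b hb)

theorem cset_del {X S : Finset α} (hX : CSet G X) (h : ∀ x ∈ X, x ∉ S) : CSet (del G S) X := by
  refine ⟨hX.1, ?_⟩
  intro u hu v hv
  refine (hX.2 u hu v hv).mono ?_
  intro a b hab
  have ha : a ∈ X := by
    have := hab.2.1
    rw [mem_sdiff, not_and_not_right] at this
    exact this (mem_univ _)
  have hb : b ∈ X := by
    have := hab.2.2
    rw [mem_sdiff, not_and_not_right] at this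
    exact this (mem_univ _)
  exact ⟨⟨hab.1, h a ha, h b hb⟩, hab.2.1, hab.2.2⟩

open Classical in
/-- the component of `k` in `G[Y]` -/
noncomputable def comp (G : SimpleGraph α) (Y : Finset α) (k : α) : Finset α :=
  univ.filter fun v => (del G (univ \ Y)).Reachable k v

theorem mem_comp {Y : Finset α} {k v : α} : v ∈ comp G Y k ↔ (del G (univ \ Y)).Reachable k v := by
  classical
  simp [comp]

theorem self_mem_comp (Y : Finset α) (k : α) : k ∈ comp G Y k := mem_comp.2 (Reachable.refl k)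

theorem comp_subset {Y : Finset α} {k : α} (hk : k ∈ Y) : comp G Y k ⊆ Y := by
  intro v hv
  have := mem_of_reachable (X := {v | v ∈ Y}) (mem_comp.1 hv) hk (fun a b hab _ => by
    have := hab.2.2
    rw [mem_sdiff, not_and_not_right] at this
    exact this (mem_univ _))
  exact this

theorem comp_closed {Y : Finset α} {k v w : α} (hk : k ∈ Y) (hv : v ∈ comp G Y k) (hw : w ∈ Y)
    (h : G.Adj v w) : w ∈ comp G Y k := by
  rw [mem_comp]
  refine (mem_comp.1 hv).trans (Adj.reachable ⟨h, ?_, ?_⟩)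
  · rw [mem_sdiff, not_and_not_right]; intro _; exact comp_subset hk hv
  · rw [mem_sdiff, not_and_not_right]; intro _; exact hw

theorem cset_comp {Y : Finset α} {k : α} (hk : k ∈ Y) : CSet G (comp G Y k) := by
  refine ⟨⟨k, self_mem_comp Y k⟩, ?_⟩
  have key : ∀ a ∈ comp G Y k, (del G (univ \ comp G Y k)).Reachable k a := by
    intro a ha
    refine mem_of_reachable (X := {v | (del G (univ \ comp G Y k)).Reachable k v}) (mem_comp.1 ha)
      (Reachable.refl k) ?_
    intro u v huv hu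
    have hu1 : u ∈ comp G Y k := mem_comp.2 (reach_mono (comp_subset hk) hu)
    have hv1 : v ∈ comp G Y k := mem_comp.2 ((mem_comp.1 hu1).trans huv.reachable)
    refine Reachable.trans hu (Adj.reachable ⟨huv.1, ?_, ?_⟩)
    · rw [mem_sdiff, not_and_not_right]; intro _; exact hu1
    · rw [mem_sdiff, not_and_not_right]; intro _; exact hv1
  intro a ha b hb
  exact (key a ha).symm.trans (key b hb)

/-- the model of `K₃₃` -/
theorem model (hNPM : SpecNPM) {c b1 b2 p p' r : α} {M : Finset α} (nd : [c, b1, b2, p, p'].Nodup)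
    (hr : r ≠ c ∧ r ≠ b1 ∧ r ≠ b2 ∧ r ≠ p ∧ r ≠ p') (hM : CSet G M)
    (hMr : r ∉ M) (hMc : c ∉ M) (hMb1 : b1 ∉ M) (hMb2 : b2 ∉ M) (hMp : p ∉ M) (hMp' : p' ∉ M)
    (h1 : G.Adj c b1) (h2 : G.Adj c b2) (h3 : ∃ m ∈ M, G.Adj c m) (h4 : G.Adj b1 p) (h5 : G.Adj b1 p')
    (h6 : G.Adj b2 p) (h7 : G.Adj b2 p') (h8 : ∃ m ∈ M, G.Adj p m) (h9 : ∃ m ∈ M, G.Adj p' m) :
    NP (del G {r}) := by
  obtain ⟨r1, r2, r3, r4, r5⟩ := hr
  simp only [List.nodup_cons, List.mem_cons, List.not_mem_nil, or_false, not_or, not_false_eq_true,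
    List.nodup_nil, and_true] at nd
  obtain ⟨⟨n1, n2, n3, n4⟩, ⟨n5, n6, n7⟩, ⟨n8, n9⟩, n10⟩ := nd
  have adj : ∀ x y, G.Adj x y → r ≠ x → r ≠ y → (del G {r}).Adj x y := by
    intro x y h hx hy
    exact ⟨h, by simpa using hx.symm, by simpa using hy.symm⟩
  have cs : ∀ x, r ≠ x → CSet (del G {r}) {x} := by
    intro x hx
    exact cset_single x
  have cM : CSet (del G {r}) M := cset_del hM (by
    intro x hx h
    rw [mem_singleton] at h
    exact hMr (h ▸ hx))
  obtain ⟨m1, hm1, e1⟩ := h3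
  obtain ⟨m2, hm2, e2⟩ := h8
  obtain ⟨m3, hm3, e3⟩ := h9
  have rm : ∀ m ∈ M, r ≠ m := by
    rintro m hm rfl
    exact hMr hm
  refine hNPM.k33 (G := del G {r}) ![{p}, {p'}, {c}] ![{b1}, {b2}, M] ?_ ?_ ?_ ?_ ?_ ?_
  · intro i
    fin_cases i
    · exact cs p r4
    · exact cs p' r5
    · exact cs c r1
  · intro i
    fin_cases i
    · exact cs b1 r2
    · exact cs b2 r3
    · exact cM
  · intro i j hij
    fin_cases i <;> fin_cases j <;> simp_all [disjoint_singleton_left, eq_comm]
  · intro i j hij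
    fin_cases i <;> fin_cases j <;>
      simp_all [disjoint_singleton_left, disjoint_singleton_right, eq_comm]
  · intro i j
    fin_cases i <;> fin_cases j <;>
      simp_all [disjoint_singleton_left, disjoint_singleton_right, eq_comm]
  · intro i j
    fin_cases i <;> fin_cases j
    · exact ⟨p, mem_singleton_self _, b1, mem_singleton_self _, adj _ _ h4.symm r4 r2⟩
    · exact ⟨p, mem_singleton_self _, b2, mem_singleton_self _, adj _ _ h6.symm r4 r3⟩
    · exact ⟨p, mem_singleton_self _, m2, hm2, adj _ _ e2 r4 (rm _ hm2)⟩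
    · exact ⟨p', mem_singleton_self _, b1, mem_singleton_self _, adj _ _ h5.symm r5 r2⟩
    · exact ⟨p', mem_singleton_self _, b2, mem_singleton_self _, adj _ _ h7.symm r5 r3⟩
    · exact ⟨p', mem_singleton_self _, m3, hm3, adj _ _ e3 r5 (rm _ hm3)⟩
    · exact ⟨c, mem_singleton_self _, b1, mem_singleton_self _, adj _ _ h1 r1 r2⟩
    · exact ⟨c, mem_singleton_self _, b2, mem_singleton_self _, adj _ _ h2 r1 r3⟩
    · exact ⟨c, mem_singleton_self _, m1, hm1, adj _ _ e1 r1 (rm _ hm1)⟩

theorem core (hFRG : SpecFRG) (hNPM : SpecNPM) {c b1 b2 t1 t2 p p' r : α} {F : Finset α} (hG : K48 G)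
    (hNo : No2 G) (hF : Frag G F) (nd : [c, b1, b2, t1, t2, p, p'].Nodup) (hFe : F = {c, b1, b2})
    (hNB : NB G F = {t1, t2, p, p'}) (h1 : G.Adj c b1) (h2 : G.Adj c b2) (h3 : G.Adj c t1)
    (h4 : G.Adj c t2) (h5 : G.Adj b1 p) (h6 : G.Adj b1 p') (h7 : G.Adj b2 p) (h8 : G.Adj b2 p')
    (hr : r ∈ Rst G F) (hrig : Rig G r) : NP (del G {r}) := by
  classical
  obtain ⟨hY, hYN, -⟩ := hFRG.rst hG.1 hF
  have hY3 : 3 ≤ (Rst G F).card := hNo _ hY
  have nd0 := nd
  simp only [List.nodup_cons, List.mem_cons, List.not_mem_nil, or_false, not_or, not_false_eq_true,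
    List.nodup_nil, and_true] at nd
  obtain ⟨⟨n1, n2, n3, n4, n5, n6⟩, ⟨n7, n8, n9, n10, n11⟩, ⟨n12, n13, n14, n15⟩, ⟨n16, n17, n18⟩,
    ⟨n19, n20⟩, n21⟩ := nd
  have hYmem : ∀ x ∈ Rst G F, x ∈ VS G ∧ x ∉ F ∧ x ∉ NB G F := by
    intro x hx
    rw [Rst, mem_sdiff, mem_union, not_or] at hx
    exact ⟨hx.1, hx.2.1, hx.2.2⟩
  have hYne : ∀ x ∈ Rst G F, x ≠ c ∧ x ≠ b1 ∧ x ≠ b2 ∧ x ≠ t1 ∧ x ≠ t2 ∧ x ≠ p ∧ x ≠ p' := by
    intro x hx
    obtain ⟨-, hx1, hx2⟩ := hYmem x hx
    rw [hNB] at hx2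
    rw [hFe] at hx1
    simp only [mem_insert, mem_singleton, not_or] at hx1 hx2
    exact ⟨hx1.1, hx1.2.1, hx1.2.2, hx2.1, hx2.2.1, hx2.2.2.1, hx2.2.2.2⟩
  obtain ⟨r1, r2, r3, r4, r5, r6, r7⟩ := hYne r hr
  have hFV : F ⊆ VS G := hF.1
  have hcV : c ∈ VS G := hFV (by rw [hFe]; simp)
  -- components
  set Y' : Finset α := (Rst G F).erase r with hY'
  have hY'mem : ∀ x ∈ Y', x ∈ Rst G F ∧ x ≠ r := fun x hx => ⟨(mem_erase.1 hx).2, (mem_erase.1 hx).1⟩
  have hNBF : ∀ x ∈ NB G F, x ∉ Rst G F := fun x hx h => (hYmem x h).2.2 hx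
  -- any set with neighbours only in `r` and `T`
  have hKN : ∀ k ∈ Y', NB G (comp G Y' k) ⊆ insert r (NB G F) := by
    intro k hk w hw
    rw [mem_NB] at hw
    obtain ⟨hw1, a, ha, haw⟩ := hw
    have haY := (hY'mem a (comp_subset hk ha)).1
    by_cases hwr : w = r
    · rw [hwr]; exact mem_insert_self _ _
    · apply mem_insert_of_mem
      by_cases hwY : w ∈ Rst G F
      · exact (hw1 (comp_closed hk ha (mem_erase.2 ⟨hwr, hwY⟩) haw)).elim
      · rw [← hYN, mem_NB]
        exact ⟨hwY, a, haY, haw⟩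
  have hKV : ∀ k ∈ Y', comp G Y' k ⊆ VS G := fun k hk x hx =>
    (hYmem x (hY'mem x (comp_subset hk hx)).1).1
  have hcK : ∀ k ∈ Y', c ∉ comp G Y' k := fun k hk h => (hYne c (hY'mem c (comp_subset hk h)).1).1 rfl
  -- the model from a component
  by_cases hA : ∃ k ∈ Y', p ∈ NB G (comp G Y' k) ∧ p' ∈ NB G (comp G Y' k) ∧
      (t1 ∈ NB G (comp G Y' k) ∨ t2 ∈ NB G (comp G Y' k))
  · obtain ⟨k, hk, hp, hp', ht⟩ := hA
    have hKY : ∀ x ∈ comp G Y' k, x ∈ Rst G F ∧ x ≠ r := fun x hx => hY'mem x (comp_subset hk hx)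
    have fin : ∀ t, t ∈ NB G (comp G Y' k) → G.Adj c t → t ≠ r → t ≠ c → t ≠ b1 → t ≠ b2 → t ≠ p →
        t ≠ p' → NP (del G {r}) := by
      intro t ht hct e1 e2 e3 e4 e5 e6
      obtain ⟨-, a, ha, hat⟩ := mem_NB.1 ht
      obtain ⟨-, a1, ha1, hap⟩ := mem_NB.1 hp
      obtain ⟨-, a2, ha2, hap'⟩ := mem_NB.1 hp'
      refine model hNPM (c := c) (b1 := b1) (b2 := b2) (p := p) (p' := p') (r := r)
        (M := comp G Y' k ∪ {t}) ?_ ⟨r1, r2, r3, r6, r7⟩
        (cset_union (cset_comp hk) (cset_single t) ha (mem_singleton_self t) hat) ?_ ?_ ?_ ?_ ?_ ?_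
        h1 h2 ⟨t, mem_union_right _ (mem_singleton_self t), hct⟩ h5 h6 h7 h8
        ⟨a1, mem_union_left _ ha1, hap.symm⟩ ⟨a2, mem_union_left _ ha2, hap'.symm⟩
      · simp only [List.nodup_cons, List.mem_cons, List.not_mem_nil, or_false, not_or, not_false_eq_true,
          List.nodup_nil, and_true]
        exact ⟨⟨n1, n2, n5, n6⟩, ⟨n7, n10, n11⟩, ⟨n14, n15⟩, n21⟩
      all_goals
        rw [mem_union, mem_singleton, not_or]
      · exact ⟨fun h => (hKY r h).2 rfl, e1.symm⟩
      · exact ⟨fun h => (hYne c (hKY c h).1).1 rfl, e2.symm⟩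
      · exact ⟨fun h => (hYne b1 (hKY b1 h).1).2.1 rfl, e3.symm⟩
      · exact ⟨fun h => (hYne b2 (hKY b2 h).1).2.2.1 rfl, e4.symm⟩
      · exact ⟨fun h => (hYne p (hKY p h).1).2.2.2.2.2.1 rfl, e5.symm⟩
      · exact ⟨fun h => (hYne p' (hKY p' h).1).2.2.2.2.2.2 rfl, e6.symm⟩
    rcases ht with ht | ht
    · exact fin t1 ht h3 r4.symm (Ne.symm n3) (Ne.symm n8) (Ne.symm n12) n17 n18
    · exact fin t2 ht h4 r5.symm (Ne.symm n4) (Ne.symm n9) (Ne.symm n13) n19 n20
  -- all components are single vertices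
  · have hsing : ∀ k ∈ Y', ∃ q, (q = p ∨ q = p') ∧ NB G {k} = {r, t1, t2, q} := by
      intro k hk
      have hN := hKN k hk
      rw [hNB] at hN
      have hcN : ∀ W : Finset α, W ⊆ ({r, t1, t2, p, p'} : Finset α) → c ∉ W := by
        intro W hW h
        have := hW h
        simp only [mem_insert, mem_singleton] at this
        rcases this with h | h | h | h | h
        · exact r1 h.symm
        · exact n3 h
        · exact n4 h
        · exact n5 h
        · exact n6 h
      have hne : (comp G Y' k).Nonempty := ⟨k, self_mem_comp Y' k⟩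
      have hcard : 4 ≤ (NB G (comp G Y' k)).card := by
        by_contra hlt
        exact hFRG.few hG.1 (hKV k hk) hne (subset_refl _) (by omega) hcV (hcK k hk) (hcN _ hN)
      have hq : ∃ q, (q = p ∨ q = p') ∧ NB G (comp G Y' k) = {r, t1, t2, q} := by
        have c4 : ∀ q, (q = p ∨ q = p') → ({r, t1, t2, q} : Finset α).card ≤ 4 := by
          intro q _
          exact card_le_four
        have hsub : ∃ q, (q = p ∨ q = p') ∧ NB G (comp G Y' k) ⊆ {r, t1, t2, q} := by
          by_cases hp : p ∈ NB G (comp G Y' k)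
          · by_cases hp' : p' ∈ NB G (comp G Y' k)
            · exfalso
              have ht : ¬ (t1 ∈ NB G (comp G Y' k) ∨ t2 ∈ NB G (comp G Y' k)) := fun h =>
                hA ⟨k, hk, hp, hp', h⟩
              rw [not_or] at ht
              have h3 : NB G (comp G Y' k) ⊆ {r, p, p'} := by
                intro x hx
                have := hN hx
                simp only [mem_insert, mem_singleton] at this ⊢
                rcases this with h | h | h | h | h
                · exact Or.inl h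
                · rw [h] at hx; exact (ht.1 hx).elim
                · rw [h] at hx; exact (ht.2 hx).elim
                · exact Or.inr (Or.inl h)
                · exact Or.inr (Or.inr h)
              have := card_le_card h3
              have h4 : ({r, p, p'} : Finset α).card ≤ 3 := card_le_three
              omega
            · refine ⟨p, Or.inl rfl, ?_⟩
              intro x hx
              have := hN hx
              simp only [mem_insert, mem_singleton] at this ⊢
              rcases this with h | h | h | h | h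
              · exact Or.inl h
              · exact Or.inr (Or.inl h)
              · exact Or.inr (Or.inr (Or.inl h))
              · exact Or.inr (Or.inr (Or.inr h))
              · rw [h] at hx; exact (hp' hx).elim
          · refine ⟨p', Or.inr rfl, ?_⟩
            intro x hx
            have := hN hx
            simp only [mem_insert, mem_singleton] at this ⊢
            rcases this with h | h | h | h | h
            · exact Or.inl h
            · exact Or.inr (Or.inl h)
            · exact Or.inr (Or.inr (Or.inl h))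
            · rw [h] at hx; exact (hp hx).elim
            · exact Or.inr (Or.inr (Or.inr h))
        obtain ⟨q, hq, hs⟩ := hsub
        exact ⟨q, hq, eq_of_subset_of_card_le hs ((c4 q hq).trans hcard)⟩
      obtain ⟨q, hq, hqN⟩ := hq
      refine ⟨q, hq, ?_⟩
      have hc4 : (NB G (comp G Y' k)).card = 4 := by
        apply le_antisymm _ hcard
        rw [hqN]; exact card_le_four
      have hrN : r ∈ NB G (comp G Y' k) := by rw [hqN]; simp
      have hK1 : (comp G Y' k).card ≤ 1 := by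
        rcases hrig _ _ _ (hFRG.fsep (hKV k hk)) hc4 hrN with h | h
        · exact h
        · exfalso
          have hFR : F ⊆ Rst G (comp G Y' k) := by
            intro x hx
            rw [Rst, mem_sdiff, mem_union, not_or]
            refine ⟨hFV hx, ?_, ?_⟩
            · intro h'
              exact (hYmem x (hY'mem x (comp_subset hk h')).1).2.1 hx
            · intro h'
              have h2 := hKN k hk h'
              rw [mem_insert] at h2
              rcases h2 with h2 | h2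
              · rw [h2] at hx; exact (hYmem r hr).2.1 hx
              · exact (mem_NB.1 h2).1 hx
          have := card_le_card hFR
          have := hF.2.1
          omega
      have hKk : comp G Y' k = {k} := by
        apply (eq_of_subset_of_card_le (singleton_subset_iff.2 (self_mem_comp Y' k)) _).symm
        rw [card_singleton]; exact hK1
      rw [← hKk]; exact hqN
    have hY'2 : 2 ≤ Y'.card := by
      rw [hY', card_erase_of_mem hr]; omega
    obtain ⟨k1, hk1, k2, hk2, hk12⟩ := one_lt_card.1 (by omega : 1 < Y'.card)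
    obtain ⟨q1, hq1, hN1⟩ := hsing k1 hk1
    obtain ⟨q2, hq2, hN2⟩ := hsing k2 hk2
    have hadj : ∀ {k q x : α}, NB G {k} = {r, t1, t2, q} → x ∈ ({r, t1, t2, q} : Finset α) → G.Adj k x := by
      intro k q x hN hx
      rw [← hN, mem_NB] at hx
      obtain ⟨-, a, ha, hax⟩ := hx
      rw [mem_singleton] at ha
      rwa [ha] at hax
    have hq12 : q1 ≠ q2 := by
      intro hq
      have hFk : Frag G {k1, k2} := by
        have hsubN : NB G {k1, k2} ⊆ {r, t1, t2, q1} := by
          intro x hx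
          rw [mem_NB] at hx
          obtain ⟨hx1, a, ha, hax⟩ := hx
          rw [mem_insert, mem_singleton] at ha
          rw [mem_insert, mem_singleton, not_or] at hx1
          rcases ha with rfl | rfl
          · rw [← hN1, mem_NB]
            exact ⟨by simpa using hx1.1, a, mem_singleton_self a, hax⟩
          · rw [hq, ← hN2, mem_NB]
            exact ⟨by simpa using hx1.2, a, mem_singleton_self a, hax⟩
        have hV : ({k1, k2} : Finset α) ⊆ VS G := by
          intro x hx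
          rw [mem_insert, mem_singleton] at hx
          rcases hx with rfl | rfl
          · exact (hYmem x (hY'mem x hk1).1).1
          · exact (hYmem x (hY'mem x hk2).1).1
        have hcW : c ∉ ({r, t1, t2, q1} : Finset α) := by
          simp only [mem_insert, mem_singleton, not_or]
          refine ⟨r1.symm, n3, n4, ?_⟩
          rcases hq1 with h | h
          · rw [h]; exact n5
          · rw [h]; exact n6
        have hc4 : 4 ≤ (NB G {k1, k2}).card := by
          by_contra hlt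
          refine hFRG.few hG.1 hV ⟨k1, by simp⟩ (subset_refl _) (by omega) hcV ?_ fun h => hcW (hsubN h)
          rw [mem_insert, mem_singleton, not_or]
          exact ⟨fun h => (hYne k1 (hY'mem k1 hk1).1).1 h.symm, fun h => (hYne k2 (hY'mem k2 hk2).1).1 h.symm⟩
        refine ⟨hV, ?_, le_antisymm ((card_le_card hsubN).trans card_le_four) hc4, ?_⟩
        · rw [card_pair hk12]
        · have hFR : F ⊆ VS G \ ({k1, k2} ∪ NB G {k1, k2}) := by
            intro x hx
            rw [mem_sdiff, mem_union, not_or]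
            refine ⟨hFV hx, ?_, ?_⟩
            · intro h'
              rw [mem_insert, mem_singleton] at h'
              rcases h' with rfl | rfl
              · exact (hYmem x (hY'mem x hk1).1).2.1 hx
              · exact (hYmem x (hY'mem x hk2).1).2.1 hx
            · intro h'
              have h2 := hsubN h'
              have h3 : ∀ y ∈ NB G F, x ≠ y := by
                rintro y hy rfl
                exact (mem_NB.1 hy).1 hx
              rw [hNB] at h3
              simp only [mem_insert, mem_singleton] at h2 h3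
              rcases h2 with h2 | h2 | h2 | h2
              · rw [h2] at hx; exact (hYmem r hr).2.1 hx
              · exact h3 t1 (Or.inl rfl) h2
              · exact h3 t2 (Or.inr (Or.inl rfl)) h2
              · rcases hq1 with h | h
                · exact h3 p (Or.inr (Or.inr (Or.inl rfl))) (h2.trans h)
                · exact h3 p' (Or.inr (Or.inr (Or.inr rfl))) (h2.trans h)
          exact hF.2.1.trans (card_le_card hFR)
      have := hNo _ hFk
      rw [card_pair hk12] at this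
      omega
    have hk1t : G.Adj k1 t1 := hadj hN1 (by simp)
    have hk2t : G.Adj k2 t1 := hadj hN2 (by simp)
    have hk1q : G.Adj k1 q1 := hadj hN1 (by simp)
    have hk2q : G.Adj k2 q2 := hadj hN2 (by simp)
    have hM : CSet G ({k1} ∪ ({t1} ∪ {k2})) := by
      refine cset_union (cset_single k1) (cset_union (cset_single t1) (cset_single k2)
        (mem_singleton_self _) (mem_singleton_self _) hk2t.symm) (mem_singleton_self k1)
        (v := t1) (by simp) hk1t
    have hpp : (∃ m ∈ ({k1} ∪ ({t1} ∪ {k2}) : Finset α), G.Adj p m) ∧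
        ∃ m ∈ ({k1} ∪ ({t1} ∪ {k2}) : Finset α), G.Adj p' m := by
      rcases hq1 with rfl | rfl
      · rcases hq2 with rfl | rfl
        · exact absurd rfl hq12
        · exact ⟨⟨k1, by simp, hk1q.symm⟩, ⟨k2, by simp, hk2q.symm⟩⟩
      · rcases hq2 with rfl | rfl
        · exact ⟨⟨k2, by simp, hk2q.symm⟩, ⟨k1, by simp, hk1q.symm⟩⟩
        · exact absurd rfl hq12
    have mm : ∀ x, x ≠ k1 → x ≠ t1 → x ≠ k2 → x ∉ ({k1} ∪ ({t1} ∪ {k2}) : Finset α) := by
      intro x e1 e2 e3
      simp only [mem_union, mem_singleton, not_or]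
      exact ⟨e1, e2, e3⟩
    have y1 := hYne k1 (hY'mem k1 hk1).1
    have y2 := hYne k2 (hY'mem k2 hk2).1
    refine model hNPM (c := c) (b1 := b1) (b2 := b2) (p := p) (p' := p') (r := r)
      (M := {k1} ∪ ({t1} ∪ {k2})) ?_ ⟨r1, r2, r3, r6, r7⟩ hM
      (mm r (hY'mem k1 hk1).2.symm r4 (hY'mem k2 hk2).2.symm)
      (mm c y1.1.symm n3 y2.1.symm) (mm b1 y1.2.1.symm n8 y2.2.1.symm)
      (mm b2 y1.2.2.1.symm n12 y2.2.2.1.symm)
      (mm p y1.2.2.2.2.2.1.symm (Ne.symm n17) y2.2.2.2.2.2.1.symm)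
      (mm p' y1.2.2.2.2.2.2.symm (Ne.symm n18) y2.2.2.2.2.2.2.symm)
      h1 h2 ⟨t1, by simp, h3⟩ h5 h6 h7 h8 hpp.1 hpp.2
    simp only [List.nodup_cons, List.mem_cons, List.not_mem_nil, or_false, not_or, not_false_eq_true,
      List.nodup_nil, and_true]
    exact ⟨⟨n1, n2, n5, n6⟩, ⟨n7, n10, n11⟩, ⟨n14, n15⟩, n21⟩

end N62M

open N62M in
/-- **N62**. -/
theorem specN62 (hFRG : SpecFRG) (hNPM : SpecNPM) (hCLS : SpecCLS) : SpecN62 := by
  classical
  intro α _ _ G F hG hNo hap hF hF3 hx r hr hrig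
  obtain ⟨x, hxF, hxn⟩ := hx
  obtain ⟨S, P, Q, hsep, hS, hxS, hP, hQ⟩ := hFRG.nrig.1 hxn
  obtain ⟨fP, -, -, fQ, -, -⟩ := hFRG.sep hG.1 hsep hS hP hQ
  have hmin : MFrag G F := by
    refine ⟨hF, fun F' hF' hf => ?_⟩
    have h1 := card_lt_card hF'
    have h2 := hNo F' hf
    omega
  have hrV : r ∈ VS G := by
    rw [Rst, mem_sdiff] at hr; exact hr.1
  apply hap r hrV hrig
  rcases hCLS hG hmin hF3.ge hxF hsep hS hxS (hNo P fP) (hNo Q fQ) with
    ⟨y, z, sa, sc, s, s', q, h⟩ | ⟨x', w, s₁, s₂, s₃, s₄, q₁, q₂, h⟩ | ⟨x', w, s₁, s₂, s₃, s₄, q₁, q₂, h⟩ |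
    ⟨x', z, z', s₁, s₂, s₃, s₄, q₁, q₂, h⟩
  · refine core hFRG hNPM (c := x) (b1 := y) (b2 := z) (t1 := sa) (t2 := sc) (p := s) (p' := s') hG hNo hF
      ?_ h.hF h.hN ((h.ny x).2 (Or.inl rfl)).symm ((h.nz x).2 (Or.inl rfl)).symm h.xa h.xc
      ((h.ny s).2 (Or.inr (Or.inr (Or.inl rfl)))) ((h.ny s').2 (Or.inr (Or.inr (Or.inr rfl))))
      ((h.nz s).2 (Or.inr (Or.inr (Or.inl rfl)))) ((h.nz s').2 (Or.inr (Or.inr (Or.inr rfl)))) hr hrig
    have := h.nd
    simp only [List.nodup_cons, List.mem_cons, List.not_mem_nil, or_false, not_or, not_false_eq_true,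
      List.nodup_nil, and_true] at this ⊢
    tauto
  · refine core hFRG hNPM (c := w) (b1 := x) (b2 := x') (t1 := s₁) (t2 := s₂) (p := s₃) (p' := s₄) hG hNo hF
      ?_ ?_ h.hN ((h.nw x).2 (Or.inl rfl)) ((h.nw x').2 (Or.inr (Or.inl rfl)))
      ((h.nw s₁).2 (Or.inr (Or.inr (Or.inl rfl)))) ((h.nw s₂).2 (Or.inr (Or.inr (Or.inr rfl))))
      h.ad.1 h.ad.2.1 h.ad.2.2.1 h.ad.2.2.2 hr hrig
    · have := h.nd
      simp only [List.nodup_cons, List.mem_cons, List.not_mem_nil, or_false, not_or, not_false_eq_true,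
        List.nodup_nil, and_true] at this ⊢
      tauto
    · rw [h.hF]; ext v; simp only [mem_insert, mem_singleton]; tauto
  · refine core hFRG hNPM (c := w) (b1 := x) (b2 := x') (t1 := s₁) (t2 := s₂) (p := s₃) (p' := s₄) hG hNo hF
      ?_ ?_ h.hN ((h.nw x).2 (Or.inl rfl)) ((h.nw x').2 (Or.inr (Or.inl rfl)))
      ((h.nw s₁).2 (Or.inr (Or.inr (Or.inl rfl)))) ((h.nw s₂).2 (Or.inr (Or.inr (Or.inr rfl))))
      h.ad.1 h.ad.2.1 h.ad.2.2.1 h.ad.2.2.2 hr hrig
    · have := h.nd
      simp only [List.nodup_cons, List.mem_cons, List.not_mem_nil, or_false, not_or, not_false_eq_true,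
        List.nodup_nil, and_true] at this ⊢
      tauto
    · rw [h.hF]; ext v; simp only [mem_insert, mem_singleton]; tauto
  · exfalso
    have h4 : F.card = 4 := by
      have nd := h.nd
      simp only [List.nodup_cons, List.mem_cons, List.not_mem_nil, or_false, not_or, not_false_eq_true,
        List.nodup_nil, and_true] at nd
      rw [h.hF, card_insert_of_notMem, card_insert_of_notMem, card_pair]
      · tauto
      · simp only [mem_insert, mem_singleton, not_or]; tauto
      · simp only [mem_insert, mem_singleton, not_or]; tauto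
    omega

end DL
end

section
/-!
# G4 block, module F2C (helper68): classification of the 2-fragments
-/
open SimpleGraph Finset

namespace DL

namespace F2CM

variable {α : Type} [Fintype α] [DecidableEq α] {G : SimpleGraph α}

theorem mem_NB {A : Finset α} {w : α} : w ∈ NB G A ↔ w ∉ A ∧ ∃ a ∈ A, G.Adj a w := by
  simp [NB]

/-- enumeration of a set with four elements -/
theorem exists_enum {N : Finset α} (h : N.card = 4) :
    ∃ s : Fin 4 → α, Function.Injective s ∧ ∀ w, w ∈ N ↔ ∃ i, w = s i := by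
  let e := N.equivFinOfCardEq h
  refine ⟨fun i => (e.symm i : α), fun i j hij => e.symm.injective (Subtype.ext hij), fun w => ?_⟩
  constructor
  · intro hw
    exact ⟨e ⟨w, hw⟩, by simp⟩
  · rintro ⟨i, rfl⟩
    exact (e.symm i).2

/-- a subset with three of the four elements -/
theorem exists_missing {N A : Finset α} (h : N.card = 4) (hA : A ⊆ N) (hc : 3 ≤ A.card) (hne : A ≠ N) :
    ∃ s ∈ N, s ∉ A ∧ ∀ w ∈ N, w ≠ s → w ∈ A := by
  have h3 : A.card < N.card := Finset.card_lt_card (hA.ssubset_of_ne hne)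
  have h1 : (N \ A).card = 1 := by
    have := Finset.card_sdiff_add_card_eq_card hA
    omega
  obtain ⟨s, hs⟩ := Finset.card_eq_one.1 h1
  have hs' : s ∈ N \ A := by rw [hs]; exact mem_singleton_self s
  rw [mem_sdiff] at hs'
  refine ⟨s, hs'.1, hs'.2, fun w hw hws => ?_⟩
  by_contra hwA
  have : w ∈ N \ A := mem_sdiff.2 ⟨hw, hwA⟩
  rw [hs, mem_singleton] at this
  exact hws this

theorem rest_two {N : Finset α} {s t : α} (h : N.card = 4) (hs : s ∈ N) (ht : t ∈ N) (hst : s ≠ t) :
    ∃ a b, a ≠ b ∧ a ≠ s ∧ a ≠ t ∧ b ≠ s ∧ b ≠ t ∧ ∀ w, w ∈ N ↔ w = s ∨ w = t ∨ w = a ∨ w = b := by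
  have h2 : ((N.erase s).erase t).card = 2 := by
    rw [card_erase_of_mem (mem_erase.2 ⟨hst.symm, ht⟩), card_erase_of_mem hs, h]
  obtain ⟨a, b, hab, he⟩ := Finset.card_eq_two.1 h2
  have ha : a ∈ (N.erase s).erase t := by rw [he]; simp
  have hb : b ∈ (N.erase s).erase t := by rw [he]; simp
  simp only [mem_erase] at ha hb
  refine ⟨a, b, hab, ha.2.1, ha.1, hb.2.1, hb.1, fun w => ?_⟩
  constructor
  · intro hw
    by_cases h1 : w = s
    · exact Or.inl h1
    by_cases h2' : w = t
    · exact Or.inr (Or.inl h2')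
    have : w ∈ (N.erase s).erase t := mem_erase.2 ⟨h2', mem_erase.2 ⟨h1, hw⟩⟩
    rw [he] at this
    simp only [mem_insert, mem_singleton] at this
    exact Or.inr (Or.inr this)
  · rintro (rfl | rfl | rfl | rfl)
    · exact hs
    · exact ht
    · exact ha.2.2
    · exact hb.2.2

theorem rest_three {N : Finset α} {s : α} (h : N.card = 4) (hs : s ∈ N) :
    ∃ a b c, [s, a, b, c].Nodup ∧ ∀ w, w ∈ N ↔ w = s ∨ w = a ∨ w = b ∨ w = c := by
  have h1 : (N.erase s).Nonempty := by
    rw [← Finset.card_pos, card_erase_of_mem hs, h]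
    norm_num
  obtain ⟨t, ht⟩ := h1
  rw [mem_erase] at ht
  obtain ⟨a, b, hab, has, hat, hbs, hbt, hw⟩ := rest_two h hs ht.2 (Ne.symm ht.1)
  refine ⟨t, a, b, ?_, hw⟩
  simp only [List.nodup_cons, List.mem_cons, List.not_mem_nil, or_false, not_or, not_false_eq_true,
    List.nodup_nil, and_true]
  exact ⟨⟨Ne.symm ht.1, Ne.symm has, Ne.symm hbs⟩, ⟨Ne.symm hat, Ne.symm hbt⟩, hab⟩

end F2CM

open F2CM in
theorem specF2C (hFRG : SpecFRG) : SpecF2C := by
  intro α _ _ G x y hK hx hy hxy hc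
  have hG4 : KConn 4 G := hK.1
  have h8 : 8 ≤ (VS G).card := hK.2
  set N := NB G {x, y} with hNdef
  have hNmem : ∀ w, w ∈ N ↔ w ≠ x ∧ w ≠ y ∧ (G.Adj x w ∨ G.Adj y w) := by
    intro w
    rw [hNdef, mem_NB]
    simp only [mem_insert, mem_singleton, not_or, exists_eq_or_imp, exists_eq_left]
    tauto
  have hsubD : ({x, y} : Finset α) ⊆ VS G := by
    intro w hw
    simp only [mem_insert, mem_singleton] at hw
    rcases hw with rfl | rfl
    · exact hx
    · exact hy
  have hN4 : N.card = 4 := by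
    by_contra hne
    have h3 : N.card ≤ 3 := by omega
    have : ¬ VS G ⊆ ({x, y} : Finset α) ∪ N := by
      intro hs
      have := Finset.card_le_card hs
      have h2 := Finset.card_union_le ({x, y} : Finset α) N
      have h22 : ({x, y} : Finset α).card ≤ 2 := Finset.card_le_two
      omega
    obtain ⟨r, hr, hrn⟩ := Finset.not_subset.1 this
    rw [mem_union, not_or] at hrn
    exact hFRG.few hG4 hsubD ⟨x, by simp⟩ (Finset.Subset.refl N) h3 hr hrn.1 hrn.2
  have hdx : 4 ≤ (nbs G x).card := hG4.le_nbs hx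
  have hdy : 4 ≤ (nbs G y).card := hG4.le_nbs hy
  have hxN : x ∉ N := fun h => ((hNmem x).1 h).1 rfl
  have hyN : y ∉ N := fun h => ((hNmem y).1 h).2.1 rfl
  by_cases hadj : G.Adj x y
  · -- adjacent
    set A := (nbs G x).erase y with hA
    set B := (nbs G y).erase x with hB
    have hAmem : ∀ w, w ∈ A ↔ w ≠ y ∧ G.Adj x w := fun w => by rw [hA, mem_erase, mem_nbs]
    have hBmem : ∀ w, w ∈ B ↔ w ≠ x ∧ G.Adj y w := fun w => by rw [hB, mem_erase, mem_nbs]
    have hAN : A ⊆ N := fun w hw => by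
      rw [hAmem] at hw
      exact (hNmem w).2 ⟨hw.2.ne', hw.1, Or.inl hw.2⟩
    have hBN : B ⊆ N := fun w hw => by
      rw [hBmem] at hw
      exact (hNmem w).2 ⟨hw.1, hw.2.ne', Or.inr hw.2⟩
    have hAc : 3 ≤ A.card := by
      rw [hA, card_erase_of_mem (mem_nbs.2 hadj)]
      omega
    have hBc : 3 ≤ B.card := by
      rw [hB, card_erase_of_mem (mem_nbs.2 hadj.symm)]
      omega
    have hadjx : ∀ w, G.Adj x w ↔ w = y ∨ w ∈ A := by
      intro w
      rw [hAmem]
      constructor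
      · intro h
        by_cases hwy : w = y
        · exact Or.inl hwy
        · exact Or.inr ⟨hwy, h⟩
      · rintro (rfl | h)
        · exact hadj
        · exact h.2
    have hadjy : ∀ w, G.Adj y w ↔ w = x ∨ w ∈ B := by
      intro w
      rw [hBmem]
      constructor
      · intro h
        by_cases hwy : w = x
        · exact Or.inl hwy
        · exact Or.inr ⟨hwy, h⟩
      · rintro (rfl | h)
        · exact hadj.symm
        · exact h.2
    by_cases hAe : A = N
    · by_cases hBe : B = N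
      · -- (4,4)
        right; right; right; left
        obtain ⟨s, hsi, hs⟩ := exists_enum hN4
        refine ⟨s, hsi, hxy, fun i => ?_, fun w => ?_, fun w => ?_⟩
        · have hi : s i ∈ N := (hs _).2 ⟨i, rfl⟩
          exact ⟨fun h => hxN (h ▸ hi), fun h => hyN (h ▸ hi)⟩
        · rw [hadjx, hAe, hs]
        · rw [hadjy, hBe, hs]
      · -- y has three
        right; right; left
        obtain ⟨s₁, hs1, hs1B, hrest⟩ := exists_missing hN4 hBN hBc hBe
        obtain ⟨s₂, s₃, s₄, hnd, hw⟩ := rest_three hN4 hs1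
        refine ⟨s₁, s₂, s₃, s₄, ?_, fun w => ?_, fun w => ?_⟩
        · have h1 : ∀ t ∈ N, t ≠ x ∧ t ≠ y := fun t ht => ⟨fun h => hxN (h ▸ ht), fun h => hyN (h ▸ ht)⟩
          have e1 := h1 s₁ hs1
          have e2 := h1 s₂ ((hw s₂).2 (by simp))
          have e3 := h1 s₃ ((hw s₃).2 (by simp))
          have e4 := h1 s₄ ((hw s₄).2 (by simp))
          simp only [List.nodup_cons, List.mem_cons, List.not_mem_nil, or_false, not_or,
            not_false_eq_true, List.nodup_nil, and_true] at hnd ⊢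
          exact ⟨⟨Ne.symm hxy, Ne.symm e1.2, Ne.symm e2.2, Ne.symm e3.2, Ne.symm e4.2⟩,
            ⟨Ne.symm e1.1, Ne.symm e2.1, Ne.symm e3.1, Ne.symm e4.1⟩, hnd⟩
        · rw [hadjy]
          have hB' : w ∈ B ↔ w = s₂ ∨ w = s₃ ∨ w = s₄ := by
            simp only [List.nodup_cons, List.mem_cons, List.not_mem_nil, or_false, not_or,
              not_false_eq_true, List.nodup_nil, and_true] at hnd
            constructor
            · intro h
              rcases (hw w).1 (hBN h) with h1 | h1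
              · exact absurd (h1 ▸ h) hs1B
              · exact h1
            · intro h
              refine hrest w ((hw w).2 (Or.inr h)) ?_
              rcases h with rfl | rfl | rfl
              · exact Ne.symm hnd.1.1
              · exact Ne.symm hnd.1.2.1
              · exact Ne.symm hnd.1.2.2
          rw [hB']
        · rw [hadjx, hAe, hw]
    · obtain ⟨s₁, hs1, hs1A, hrestA⟩ := exists_missing hN4 hAN hAc hAe
      by_cases hBe : B = N
      · -- x has three
        right; left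
        obtain ⟨s₂, s₃, s₄, hnd, hw⟩ := rest_three hN4 hs1
        refine ⟨s₁, s₂, s₃, s₄, ?_, fun w => ?_, fun w => ?_⟩
        · have h1 : ∀ t ∈ N, t ≠ x ∧ t ≠ y := fun t ht => ⟨fun h => hxN (h ▸ ht), fun h => hyN (h ▸ ht)⟩
          have e1 := h1 s₁ hs1
          have e2 := h1 s₂ ((hw s₂).2 (by simp))
          have e3 := h1 s₃ ((hw s₃).2 (by simp))
          have e4 := h1 s₄ ((hw s₄).2 (by simp))
          simp only [List.nodup_cons, List.mem_cons, List.not_mem_nil, or_false, not_or,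
            not_false_eq_true, List.nodup_nil, and_true] at hnd ⊢
          exact ⟨⟨hxy, Ne.symm e1.1, Ne.symm e2.1, Ne.symm e3.1, Ne.symm e4.1⟩,
            ⟨Ne.symm e1.2, Ne.symm e2.2, Ne.symm e3.2, Ne.symm e4.2⟩, hnd⟩
        · rw [hadjx]
          have hA' : w ∈ A ↔ w = s₂ ∨ w = s₃ ∨ w = s₄ := by
            simp only [List.nodup_cons, List.mem_cons, List.not_mem_nil, or_false, not_or,
              not_false_eq_true, List.nodup_nil, and_true] at hnd
            constructor
            · intro h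
              rcases (hw w).1 (hAN h) with h1 | h1
              · exact absurd (h1 ▸ h) hs1A
              · exact h1
            · intro h
              refine hrestA w ((hw w).2 (Or.inr h)) ?_
              rcases h with rfl | rfl | rfl
              · exact Ne.symm hnd.1.1
              · exact Ne.symm hnd.1.2.1
              · exact Ne.symm hnd.1.2.2
          rw [hA']
        · rw [hadjy, hBe, hw]
      · -- (3,3)
        left
        obtain ⟨s₂, hs2, hs2B, hrestB⟩ := exists_missing hN4 hBN hBc hBe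
        have h12 : s₁ ≠ s₂ := by
          rintro rfl
          rcases (hNmem s₁).1 hs1 with ⟨h1, h2, h3 | h3⟩
          · exact hs1A ((hAmem s₁).2 ⟨h2, h3⟩)
          · exact hs2B ((hBmem s₁).2 ⟨h1, h3⟩)
        obtain ⟨s₃, s₄, h34, h31, h32, h41, h42, hw⟩ := rest_two hN4 hs1 hs2 h12
        have h1 : ∀ t ∈ N, t ≠ x ∧ t ≠ y := fun t ht => ⟨fun h => hxN (h ▸ ht), fun h => hyN (h ▸ ht)⟩
        have e1 := h1 s₁ hs1
        have e2 := h1 s₂ hs2
        have e3 := h1 s₃ ((hw s₃).2 (by simp))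
        have e4 := h1 s₄ ((hw s₄).2 (by simp))
        refine ⟨s₁, s₂, s₃, s₄, ?_, fun w => ?_, fun w => ?_⟩
        · simp only [List.nodup_cons, List.mem_cons, List.not_mem_nil, or_false, not_or,
            not_false_eq_true, List.nodup_nil, and_true]
          exact ⟨⟨hxy, Ne.symm e1.1, Ne.symm e2.1, Ne.symm e3.1, Ne.symm e4.1⟩,
            ⟨Ne.symm e1.2, Ne.symm e2.2, Ne.symm e3.2, Ne.symm e4.2⟩,
            ⟨h12, Ne.symm h31, Ne.symm h41⟩, ⟨Ne.symm h32, Ne.symm h42⟩, h34⟩
        · rw [hadjx]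
          have hA' : w ∈ A ↔ w = s₂ ∨ w = s₃ ∨ w = s₄ := by
            constructor
            · intro h
              rcases (hw w).1 (hAN h) with h5 | h5
              · exact absurd (h5 ▸ h) hs1A
              · exact h5
            · intro h
              refine hrestA w ((hw w).2 (Or.inr h)) ?_
              rcases h with rfl | rfl | rfl
              · exact Ne.symm h12
              · exact h31
              · exact h41
          rw [hA']
        · rw [hadjy]
          have hB' : w ∈ B ↔ w = s₁ ∨ w = s₃ ∨ w = s₄ := by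
            constructor
            · intro h
              rcases (hw w).1 (hBN h) with h5 | h5 | h5
              · exact Or.inl h5
              · exact absurd (h5 ▸ h) hs2B
              · exact Or.inr h5
            · intro h
              have hwN : w ∈ N := by
                rcases h with rfl | rfl | rfl
                · exact hs1
                · exact (hw w).2 (by simp)
                · exact (hw w).2 (by simp)
              refine hrestB w hwN ?_
              rcases h with rfl | rfl | rfl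
              · exact h12
              · exact h32
              · exact h42
          rw [hB']
  · -- twins
    right; right; right; right
    have hxN' : nbs G x ⊆ N := fun w hw => by
      rw [mem_nbs] at hw
      exact (hNmem w).2 ⟨hw.ne', fun h => hadj (h ▸ hw), Or.inl hw⟩
    have hyN' : nbs G y ⊆ N := fun w hw => by
      rw [mem_nbs] at hw
      exact (hNmem w).2 ⟨fun h => hadj (h ▸ hw).symm, hw.ne', Or.inr hw⟩
    have hxe : nbs G x = N := Finset.eq_of_subset_of_card_le hxN' (by omega)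
    have hye : nbs G y = N := Finset.eq_of_subset_of_card_le hyN' (by omega)
    obtain ⟨s, hsi, hs⟩ := exists_enum hN4
    refine ⟨s, hsi, hxy, fun i => ?_, fun w => ?_, fun w => ?_⟩
    · have hi : s i ∈ N := (hs _).2 ⟨i, rfl⟩
      exact ⟨fun h => hxN (h ▸ hi), fun h => hyN (h ▸ hi)⟩
    · rw [← mem_nbs, hxe, hs]
    · rw [← mem_nbs, hye, hs]

end DL
end

section
/-!
# G4 block, module MBE (helper68): `x ∈ T`, `y ∈ X`
-/
open SimpleGraph Finset

namespace DL

namespace MBEM

variable {α : Type} [Fintype α] [DecidableEq α] {G : SimpleGraph α}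

open Classical in
/-- the component of `c` in `G[W]` -/
noncomputable def comp (G : SimpleGraph α) (W : Finset α) (c : α) : Finset α :=
  univ.filter fun v => v ∈ W ∧ (del G (univ \ W)).Reachable c v

theorem mem_comp {W : Finset α} {c v : α} :
    v ∈ comp G W c ↔ v ∈ W ∧ (del G (univ \ W)).Reachable c v := by
  simp [comp]

theorem comp_subset {W : Finset α} {c : α} : comp G W c ⊆ W := fun _ h => (mem_comp.1 h).1

theorem self_mem_comp {W : Finset α} {c : α} (hc : c ∈ W) : c ∈ comp G W c :=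
  mem_comp.2 ⟨hc, Reachable.refl c⟩

theorem comp_adj {W : Finset α} {c a v : α} (ha : a ∈ comp G W c) (hv : v ∈ W) (h : G.Adj a v) :
    v ∈ comp G W c := by
  rw [mem_comp] at ha ⊢
  refine ⟨hv, ha.2.trans (Adj.reachable ?_)⟩
  exact ⟨h, by simp [ha.1], by simp [hv]⟩

theorem comp_reach {W : Finset α} {c a b : α} (ha : a ∈ comp G W c) (hb : b ∈ comp G W c) :
    (del G (univ \ W)).Reachable a b :=
  ((mem_comp.1 ha).2.symm).trans (mem_comp.1 hb).2

theorem NB_comp {W : Finset α} {c v : α} (h : v ∈ NB G (comp G W c)) :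
    v ∉ W ∧ ∃ a ∈ comp G W c, G.Adj a v := by
  obtain ⟨h1, a, ha, hav⟩ := F2CM.mem_NB.1 h
  exact ⟨fun hv => h1 (comp_adj ha hv hav), a, ha, hav⟩

theorem path_of_reach {H H' : SimpleGraph α} {a b : α} (h : H.Reachable a b) (hH : H ≤ H') :
    ∃ P, IsPth H' a b P ∧ vs P ⊆ VS H := by
  obtain ⟨P, hP⟩ := exists_isPth h
  exact ⟨P, hP.mono hH, hP.vs_subset⟩

theorem VS_del_univ {W : Finset α} : VS (del G (univ \ W)) ⊆ W := by
  intro v hv
  have := VS_del_subset (G := G) (univ \ W) hv
  simp only [mem_sdiff, mem_univ, true_and, not_not] at this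
  exact this.2

/-- reachability in `G[W]` gives reachability in `G[W'] - s₁s₂` -/
theorem reach_sub {W W' : Finset α} {s₁ s₂ a b : α} (h : (del G (univ \ W)).Reachable a b)
    (hW : W ⊆ W') (hs : s₁ ∉ W) : (del (delE G s₁ s₂) (univ \ W')).Reachable a b := by
  refine h.mono fun c d hcd => ?_
  have hc : c ∈ W := by simpa using hcd.2.1
  have hd : d ∈ W := by simpa using hcd.2.2
  refine ⟨(delE_adj).2 ⟨hcd.1, fun he => ?_⟩, by simp [hW hc], by simp [hW hd]⟩
  rw [Sym2.eq_iff] at he
  rcases he with ⟨h1, _⟩ | ⟨_, h2⟩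
  · exact hs (h1 ▸ hc)
  · exact hs (h2 ▸ hd)

theorem adj_reach {W' : Finset α} {s₁ s₂ a b : α} (h : G.Adj a b) (ha : a ∈ W') (hb : b ∈ W')
    (hne : s(a, b) ≠ s(s₁, s₂)) : (del (delE G s₁ s₂) (univ \ W')).Reachable a b :=
  Adj.reachable ⟨(delE_adj).2 ⟨h, hne⟩, by simp [ha], by simp [hb]⟩

theorem del_le_target {W' : Finset α} {x y s₁ s₂ : α} (hx : x ∉ W') (hy : y ∉ W') :
    del (delE G s₁ s₂) (univ \ W') ≤ delE (del G {x, y}) s₁ s₂ := by
  intro c d hcd
  have hc : c ∈ W' := by simpa using hcd.2.1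
  have hd : d ∈ W' := by simpa using hcd.2.2
  have h1 := (delE_adj).1 hcd.1
  refine (delE_adj).2 ⟨⟨h1.1, ?_, ?_⟩, h1.2⟩
  · simp only [mem_insert, mem_singleton, not_or]
    exact ⟨fun h => hx (h ▸ hc), fun h => hy (h ▸ hc)⟩
  · simp only [mem_insert, mem_singleton, not_or]
    exact ⟨fun h => hx (h ▸ hd), fun h => hy (h ▸ hd)⟩

end MBEM

open MBEM F2CM in
theorem specMBE (hFRG : SpecFRG) : SpecMBE := by
  intro α _ _ G x y s₁ s₂ s₃ s₄ T X Y hK hP hE h12 hS hT4 hxT hyX hX2 hY2
  have hG4 : KConn 4 G := hK.1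
  have hnd := hP.nd
  simp only [List.nodup_cons, List.mem_cons, List.not_mem_nil, or_false, not_or,
    not_false_eq_true, List.nodup_nil, and_true] at hnd
  obtain ⟨⟨hxy, hx1, hx2, hx3, hx4⟩, ⟨hy1, hy2, hy3, hy4⟩, ⟨h12ne, h13, h14⟩, ⟨h23, h24⟩, h34⟩ := hnd
  obtain ⟨hcov, dTX, dTY, dXY, hno⟩ := hS
  have hS : Sep G T X Y := ⟨hcov, dTX, dTY, dXY, hno⟩
  have nTX : ∀ {v}, v ∈ T → v ∈ X → False := fun h1 h2 => Finset.disjoint_left.1 dTX h1 h2
  have nTY : ∀ {v}, v ∈ T → v ∈ Y → False := fun h1 h2 => Finset.disjoint_left.1 dTY h1 h2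
  have nXY : ∀ {v}, v ∈ X → v ∈ Y → False := fun h1 h2 => Finset.disjoint_left.1 dXY h1 h2
  have adjy1 : G.Adj y s₁ := (hP.ny s₁).2 (by simp)
  have adjy3 : G.Adj y s₃ := (hP.ny s₃).2 (by simp)
  have adjy4 : G.Adj y s₄ := (hP.ny s₄).2 (by simp)
  have h3Y : s₃ ∉ Y := fun h => hno y hyX s₃ h adjy3
  have h4Y : s₄ ∉ Y := fun h => hno y hyX s₄ h adjy4
  have h1Y : s₁ ∉ Y := fun h => hno y hyX s₁ h adjy1
  have hYne : Y.Nonempty := Finset.card_pos.1 (by omega)
  have h2Y : s₂ ∈ Y := by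
    obtain ⟨v, hv, hxv⟩ := hG4.exists_adj_of_sep (S := T) (P := Y) (Q := X) hS.symm hYne (by omega) hxT
    rcases (hP.nx v).1 hxv with rfl | rfl | rfl | rfl
    · exact absurd hv (fun h => nXY hyX h)
    · exact hv
    · exact absurd hv h3Y
    · exact absurd hv h4Y
  have h1X : s₁ ∉ X := fun h => hno s₁ h s₂ h2Y h12
  have h1T : s₁ ∈ T := by
    rcases hS.mem_or (right_mem_VS adjy1) with h | h | h
    · exact h
    · exact absurd h h1X
    · exact absurd h h1Y
  obtain ⟨p, q, hpq, hpx, hp1, hqx, hq1, hTm⟩ := rest_two hT4 hxT h1T hx1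
  have hpT : p ∈ T := (hTm p).2 (by simp)
  have hqT : q ∈ T := (hTm q).2 (by simp)
  have h2X : s₂ ∉ X := fun h => nXY h h2Y
  have h2T : s₂ ∉ T := fun h => nTY h h2Y
  have hyT : y ∉ T := fun h => nTX h hyX
  have hyY : y ∉ Y := fun h => nXY hyX h
  have hyV : y ∈ VS G := hS.subP hyX
  have h2V : s₂ ∈ VS G := hS.subQ h2Y
  have memVS : ∀ {a v}, G.Adj a v → v ∈ T ∨ v ∈ X ∨ v ∈ Y := fun h => hS.mem_or (right_mem_VS h)
  -- the path Q
  have hQ : ∃ Q, IsPth (delE (del G {x, y}) s₁ s₂) s₁ s₂ Q ∧ vs Q ⊆ insert s₁ Y := by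
    have hne : (Y.erase s₂).Nonempty := by
      rw [← Finset.card_pos, card_erase_of_mem h2Y]
      omega
    obtain ⟨c, hc⟩ := hne
    set K := comp G (Y.erase s₂) c with hKdef
    have hKY : K ⊆ Y.erase s₂ := comp_subset
    have hNB : ∀ v ∈ NB G K, v = s₂ ∨ v = s₁ ∨ v = p ∨ v = q := by
      intro v hv
      obtain ⟨hvW, a, ha, hav⟩ := NB_comp hv
      have haY := mem_erase.1 (hKY ha)
      rcases memVS hav with h | h | h
      · rcases (hTm v).1 h with rfl | rfl | rfl | rfl
        · rcases (hP.nx a).1 hav.symm with rfl | rfl | rfl | rfl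
          · exact absurd haY.2 hyY
          · exact absurd rfl haY.1
          · exact absurd haY.2 h3Y
          · exact absurd haY.2 h4Y
        · simp
        · simp
        · simp
      · exact absurd hav.symm (hno v h a haY.2)
      · left
        by_contra hne
        exact hvW (mem_erase.2 ⟨hne, h⟩)
    have hKV : K ⊆ VS G := fun v hv => hS.subQ (mem_of_mem_erase (hKY hv))
    have hKne : K.Nonempty := ⟨c, self_mem_comp hc⟩
    have hyK : y ∉ K := fun h => hyY (mem_of_mem_erase (hKY h))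
    have hs1 : ∃ a ∈ K, G.Adj a s₁ := by
      by_contra hcon
      push Not at hcon
      refine hFRG.few (W := {s₂, p, q}) hG4 hKV hKne (fun v hv => ?_) Finset.card_le_three hyV hyK ?_
      · rcases hNB v hv with rfl | rfl | rfl | rfl
        · simp
        · obtain ⟨_, a, ha, hav⟩ := NB_comp hv
          exact absurd hav (hcon a ha)
        · simp
        · simp
      · simp only [mem_insert, mem_singleton, not_or]
        exact ⟨hy2, fun h => hyT (h ▸ hpT), fun h => hyT (h ▸ hqT)⟩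
    have hs2 : ∃ b ∈ K, G.Adj b s₂ := by
      by_contra hcon
      push Not at hcon
      refine hFRG.few (W := {s₁, p, q}) hG4 hKV hKne (fun v hv => ?_) Finset.card_le_three hyV hyK ?_
      · rcases hNB v hv with rfl | rfl | rfl | rfl
        · obtain ⟨_, a, ha, hav⟩ := NB_comp hv
          exact absurd hav (hcon a ha)
        · simp
        · simp
        · simp
      · simp only [mem_insert, mem_singleton, not_or]
        exact ⟨hy1, fun h => hyT (h ▸ hpT), fun h => hyT (h ▸ hqT)⟩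
    obtain ⟨a, ha, has⟩ := hs1
    obtain ⟨b, hb, hbs⟩ := hs2
    have haY := mem_erase.1 (hKY ha)
    have hbY := mem_erase.1 (hKY hb)
    have hr1 : (del (delE G s₁ s₂) (univ \ (insert s₁ Y))).Reachable s₁ a := by
      refine adj_reach has.symm (mem_insert_self _ _) (mem_insert_of_mem haY.2) fun h => ?_
      rw [Sym2.eq_iff] at h
      rcases h with ⟨_, h⟩ | ⟨h, _⟩
      · exact haY.1 h
      · exact h12ne h
    have hr2 : (del (delE G s₁ s₂) (univ \ (insert s₁ Y))).Reachable a b :=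
      reach_sub (comp_reach ha hb) (fun v hv => mem_insert_of_mem (mem_of_mem_erase hv))
        (fun h => h1Y (mem_of_mem_erase h))
    have hr3 : (del (delE G s₁ s₂) (univ \ (insert s₁ Y))).Reachable b s₂ := by
      refine adj_reach hbs (mem_insert_of_mem hbY.2) (mem_insert_of_mem h2Y) fun h => ?_
      rw [Sym2.eq_iff] at h
      rcases h with ⟨h, _⟩ | ⟨h, _⟩
      · exact h1Y (h ▸ hbY.2)
      · exact hbY.1 h
    obtain ⟨Q, hQ1, hQ2⟩ := path_of_reach ((hr1.trans hr2).trans hr3)
      (del_le_target (x := x) (y := y) (G := G) (by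
        rw [mem_insert, not_or]; exact ⟨hx1, fun h => nTY hxT h⟩) (by
        rw [mem_insert, not_or]; exact ⟨hy1, hyY⟩))
    exact ⟨Q, hQ1, hQ2.trans VS_del_univ⟩
  -- components of `G[X - y]`
  have hNBX : ∀ c, ∀ v ∈ NB G (comp G (X.erase y) c), v = s₁ ∨ v = p ∨ v = q ∨
      ((v = x ∨ v = y) ∧ ∀ a ∈ comp G (X.erase y) c, G.Adj a v → a = s₃ ∨ a = s₄) := by
    intro c v hv
    obtain ⟨hvW, a, ha, hav⟩ := NB_comp hv
    have haX := mem_erase.1 (comp_subset ha)
    rcases memVS hav with h | h | h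
    · rcases (hTm v).1 h with rfl | rfl | rfl | rfl
      · right; right; right
        refine ⟨Or.inl rfl, fun b hb hbv => ?_⟩
        have hbX := mem_erase.1 (comp_subset hb)
        rcases (hP.nx b).1 hbv.symm with rfl | rfl | rfl | rfl
        · exact absurd rfl hbX.1
        · exact absurd hbX.2 h2X
        · simp
        · simp
      · simp
      · simp
      · simp
    · right; right; right
      have hvy : v = y := by
        by_contra hne
        exact hvW (mem_erase.2 ⟨hne, h⟩)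
      subst hvy
      refine ⟨Or.inr rfl, fun b hb hbv => ?_⟩
      have hbX := mem_erase.1 (comp_subset hb)
      rcases (hP.ny b).1 hbv.symm with rfl | rfl | rfl | rfl
      · exact absurd hbX.2 (fun h => nTX hxT h)
      · exact absurd hbX.2 h1X
      · simp
      · simp
    · exact absurd hav (hno a haX.2 v h)
  have claim1 : ∀ c ∈ X.erase y, s₃ ∈ comp G (X.erase y) c ∨ s₄ ∈ comp G (X.erase y) c := by
    intro c hc
    by_contra hcon
    rw [not_or] at hcon
    refine hFRG.few (D := comp G (X.erase y) c) (W := {s₁, p, q}) (r := s₂) hG4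
      (fun v hv => hS.subP (mem_of_mem_erase (comp_subset hv))) ⟨c, self_mem_comp hc⟩ (fun v hv => ?_)
      Finset.card_le_three h2V (fun h => h2X (mem_of_mem_erase (comp_subset h))) ?_
    · rcases hNBX c v hv with rfl | rfl | rfl | ⟨_, h⟩
      · simp
      · simp
      · simp
      · obtain ⟨_, a, ha, hav⟩ := NB_comp hv
        rcases h a ha hav with rfl | rfl
        · exact absurd ha hcon.1
        · exact absurd ha hcon.2
    · simp only [mem_insert, mem_singleton, not_or]
      exact ⟨Ne.symm h12ne, fun h => h2T (h ▸ hpT), fun h => h2T (h ▸ hqT)⟩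
  have claim2 : ∀ s s' t t', (s = s₃ ∧ s' = s₄ ∨ s = s₄ ∧ s' = s₃) → (t = p ∧ t' = q ∨ t = q ∧ t' = p) →
      ∀ c ∈ X.erase y, s ∈ comp G (X.erase y) c → s' ∉ comp G (X.erase y) c →
      ∃ a ∈ comp G (X.erase y) c, G.Adj a t := by
    intro s s' t t' hs ht c hc hsK hs'K
    by_contra hcon
    push Not at hcon
    have ht' : t' = p ∨ t' = q := by
      rcases ht with ⟨_, h⟩ | ⟨_, h⟩
      · exact Or.inr h
      · exact Or.inl h
    have ht'T : t' ∈ T := by
      rcases ht' with rfl | rfl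
      · exact hpT
      · exact hqT
    have hpq' : ∀ v, v = p ∨ v = q → v = t ∨ v = t' := by
      rintro v (rfl | rfl) <;> rcases ht with ⟨rfl, rfl⟩ | ⟨rfl, rfl⟩ <;> simp
    have hsX := mem_erase.1 (comp_subset hsK)
    have h34' : ∀ v, v = s₃ ∨ v = s₄ → v = s ∨ v = s' := by
      rintro v (rfl | rfl) <;> rcases hs with ⟨rfl, rfl⟩ | ⟨rfl, rfl⟩ <;> simp
    have hs1 : ¬ G.Adj s s₁ := by
      rcases hs with ⟨rfl, _⟩ | ⟨rfl, _⟩
      · exact fun h => hE.1 h.symm
      · exact fun h => hE.2.1 h.symm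
    by_cases hne : ((comp G (X.erase y) c).erase s).Nonempty
    · refine hFRG.few (D := (comp G (X.erase y) c).erase s) (W := {s, s₁, t'}) (r := s₂) hG4
        (fun v hv => hS.subP (mem_of_mem_erase (comp_subset (mem_of_mem_erase hv)))) hne (fun v hv => ?_)
        Finset.card_le_three h2V
        (fun h => h2X (mem_of_mem_erase (comp_subset (mem_of_mem_erase h)))) ?_
      · obtain ⟨hvn, a, ha, hav⟩ := F2CM.mem_NB.1 hv
        have ha' := mem_erase.1 ha
        by_cases hvs : v = s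
        · simp [hvs]
        have hvK : v ∉ comp G (X.erase y) c := fun h => hvn (mem_erase.2 ⟨hvs, h⟩)
        have hvNB : v ∈ NB G (comp G (X.erase y) c) := F2CM.mem_NB.2 ⟨hvK, a, ha'.2, hav⟩
        rcases hNBX c v hvNB with rfl | h | h | ⟨_, h⟩
        · simp
        · rcases hpq' v (Or.inl h) with h5 | h5
          · exact absurd hav (h5 ▸ hcon a ha'.2)
          · simp [h5]
        · rcases hpq' v (Or.inr h) with h5 | h5
          · exact absurd hav (h5 ▸ hcon a ha'.2)
          · simp [h5]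
        · rcases h34' a (h a ha'.2 hav) with h5 | h5
          · exact absurd h5 ha'.1
          · exact absurd (h5 ▸ ha'.2) hs'K
      · simp only [mem_insert, mem_singleton, not_or]
        refine ⟨fun h => h2X (h ▸ hsX.2), Ne.symm h12ne, fun h => h2T (h ▸ ht'T)⟩
    · rw [Finset.not_nonempty_iff_eq_empty] at hne
      have hKs : ∀ v ∈ comp G (X.erase y) c, v = s := by
        intro v hv
        by_contra h
        have : v ∈ (comp G (X.erase y) c).erase s := mem_erase.2 ⟨h, hv⟩
        rw [hne] at this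
        simp at this
      have hsub : nbs G s ⊆ {x, y, t'} := by
        intro v hv
        rw [mem_nbs] at hv
        have hvK : v ∉ comp G (X.erase y) c := fun h => hv.ne' (hKs v h)
        have hvNB : v ∈ NB G (comp G (X.erase y) c) := F2CM.mem_NB.2 ⟨hvK, s, hsK, hv⟩
        rcases hNBX c v hvNB with rfl | h | h | ⟨h, _⟩
        · exact absurd hv hs1
        · rcases hpq' v (Or.inl h) with h5 | h5
          · exact absurd hv (h5 ▸ hcon s hsK)
          · simp [h5]
        · rcases hpq' v (Or.inr h) with h5 | h5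
          · exact absurd hv (h5 ▸ hcon s hsK)
          · simp [h5]
        · rcases h with rfl | rfl <;> simp
      have h1 := hG4.le_nbs (hS.subP hsX.2)
      have h2 := Finset.card_le_card hsub
      have h3 : ({x, y, t'} : Finset α).card ≤ 3 := Finset.card_le_three
      omega
  -- the path P
  have hs1W : s₁ ∉ X.erase y ∪ {p, q} := by
    simp only [mem_union, mem_erase, mem_insert, mem_singleton, not_or, not_and]
    exact ⟨fun _ => h1X, Ne.symm hp1, Ne.symm hq1⟩
  have edgeW : ∀ {a b}, G.Adj a b → a ∈ X.erase y ∪ {p, q} → b ∈ X.erase y ∪ {p, q} →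
      (del (delE G s₁ s₂) (univ \ (X.erase y ∪ {p, q}))).Reachable a b := by
    intro a b hab ha hb
    refine adj_reach hab ha hb fun h => ?_
    rw [Sym2.eq_iff] at h
    rcases h with ⟨h, _⟩ | ⟨_, h⟩
    · exact hs1W (h ▸ ha)
    · exact hs1W (h ▸ hb)
  have compW : ∀ {c a b}, a ∈ comp G (X.erase y) c → b ∈ comp G (X.erase y) c →
      (del (delE G s₁ s₂) (univ \ (X.erase y ∪ {p, q}))).Reachable a b := fun ha hb =>
    reach_sub (comp_reach ha hb) Finset.subset_union_left (fun h => h1X (mem_of_mem_erase h))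
  have subW : ∀ {c a}, a ∈ comp G (X.erase y) c → a ∈ X.erase y ∪ {p, q} := fun ha =>
    mem_union_left _ (comp_subset ha)
  have hin : ∀ s, G.Adj y s → s ≠ x → s ≠ s₁ → s ∉ Y → s ∈ X.erase y ∨ s = p ∨ s = q := by
    intro s hys hsx hs1 hsY
    rcases memVS hys with h | h | h
    · rcases (hTm s).1 h with h5 | h5 | h5 | h5
      · exact absurd h5 hsx
      · exact absurd h5 hs1
      · exact Or.inr (Or.inl h5)
      · exact Or.inr (Or.inr h5)
    · exact Or.inl (mem_erase.2 ⟨hys.ne', h⟩)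
    · exact absurd h hsY
  have hmix : ∀ s s', (s = s₃ ∧ s' = s₄ ∨ s = s₄ ∧ s' = s₃) → s ∈ X.erase y → (s' = p ∨ s' = q) →
      (del (delE G s₁ s₂) (univ \ (X.erase y ∪ {p, q}))).Reachable s s' := by
    intro s s' hs hsX hs'
    have hs'T : s' ∈ T := by
      rcases hs' with rfl | rfl
      · exact hpT
      · exact hqT
    have hs'K : s' ∉ comp G (X.erase y) s := fun h => nTX hs'T (mem_of_mem_erase (comp_subset h))
    obtain ⟨a, ha, has⟩ : ∃ a ∈ comp G (X.erase y) s, G.Adj a s' := by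
      rcases hs' with rfl | rfl
      · exact claim2 s s' s' q hs (Or.inl ⟨rfl, rfl⟩) s hsX (self_mem_comp hsX) hs'K
      · exact claim2 s s' s' p hs (Or.inr ⟨rfl, rfl⟩) s hsX (self_mem_comp hsX) hs'K
    refine (compW (self_mem_comp hsX) ha).trans (edgeW has (subW ha) (mem_union_right _ ?_))
    rcases hs' with rfl | rfl <;> simp
  have hreach : (del (delE G s₁ s₂) (univ \ (X.erase y ∪ {p, q}))).Reachable s₃ s₄ := by
    rcases hin s₃ adjy3 (Ne.symm hx3) (Ne.symm h13) h3Y with h3 | h3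
    · rcases hin s₄ adjy4 (Ne.symm hx4) (Ne.symm h14) h4Y with h4 | h4
      · by_cases h : s₄ ∈ comp G (X.erase y) s₃
        · exact compW (self_mem_comp h3) h
        · have h' : s₃ ∉ comp G (X.erase y) s₄ := by
            intro h5
            exact h (mem_comp.2 ⟨h4, (mem_comp.1 h5).2.symm⟩)
          obtain ⟨a, ha, hap⟩ := claim2 s₃ s₄ p q (Or.inl ⟨rfl, rfl⟩) (Or.inl ⟨rfl, rfl⟩) s₃ h3
            (self_mem_comp h3) h
          obtain ⟨b, hb, hbp⟩ := claim2 s₄ s₃ p q (Or.inr ⟨rfl, rfl⟩) (Or.inl ⟨rfl, rfl⟩) s₄ h4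
            (self_mem_comp h4) h'
          have hpW : p ∈ X.erase y ∪ {p, q} := mem_union_right _ (by simp)
          exact ((compW (self_mem_comp h3) ha).trans (edgeW hap (subW ha) hpW)).trans
            ((edgeW hbp.symm hpW (subW hb)).trans (compW hb (self_mem_comp h4)))
      · exact hmix s₃ s₄ (Or.inl ⟨rfl, rfl⟩) h3 h4
    · rcases hin s₄ adjy4 (Ne.symm hx4) (Ne.symm h14) h4Y with h4 | h4
      · exact (hmix s₄ s₃ (Or.inr ⟨rfl, rfl⟩) h4 h3).symm
      · exfalso
        have hne : (X.erase y).Nonempty := by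
          rw [← Finset.card_pos, card_erase_of_mem hyX]
          omega
        obtain ⟨c, hc⟩ := hne
        have h3T : s₃ ∈ T := by
          rcases h3 with rfl | rfl
          · exact hpT
          · exact hqT
        have h4T : s₄ ∈ T := by
          rcases h4 with rfl | rfl
          · exact hpT
          · exact hqT
        rcases claim1 c hc with h | h
        · exact nTX h3T (mem_of_mem_erase (comp_subset h))
        · exact nTX h4T (mem_of_mem_erase (comp_subset h))
  obtain ⟨P, hP1, hP2⟩ := path_of_reach hreach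
    (del_le_target (x := x) (y := y) (G := G) (by
      simp only [mem_union, mem_erase, mem_insert, mem_singleton, not_or, not_and]
      exact ⟨fun _ h => nTX hxT h, Ne.symm hpx, Ne.symm hqx⟩) (by
      simp only [mem_union, mem_erase, mem_insert, mem_singleton, not_or, not_and]
      exact ⟨fun h => absurd rfl h, fun h => hyT (h ▸ hpT), fun h => hyT (h ▸ hqT)⟩))
  obtain ⟨Q, hQ1, hQ2⟩ := hQ
  refine ⟨P, Q, hP1, hQ1, ?_⟩
  rw [Finset.disjoint_left]
  intro v hvP hvQ
  have h1 := VS_del_univ (hP2 hvP)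
  have h2 := hQ2 hvQ
  simp only [mem_union, mem_erase, mem_insert, mem_singleton] at h1 h2
  rcases h2 with rfl | h2
  · rcases h1 with ⟨_, h⟩ | h | h
    · exact h1X h
    · exact hp1 h.symm
    · exact hq1 h.symm
  · rcases h1 with ⟨_, h⟩ | rfl | rfl
    · exact nXY h h2
    · exact nTY hpT h2
    · exact nTY hqT h2

end DL
end

section
/-!
# G4 block, module N6A (helper68)
-/
open SimpleGraph Finset

namespace DL

namespace N6AM

variable {α : Type} [Fintype α] [DecidableEq α] {G : SimpleGraph α}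

open MBEM

theorem mem_Rst {F : Finset α} {w : α} : w ∈ Rst G F ↔ w ∈ VS G ∧ w ∉ F ∧ w ∉ NB G F := by
  simp [Rst]

theorem csub {K : Finset α} {r a b : α} (h : (del G (univ \ K)).Reachable a b) (hr : r ∉ K) :
    (del (del G {r}) (univ \ K)).Reachable a b := by
  refine h.mono fun c d hcd => ?_
  have hc : c ∈ K := by simpa using hcd.2.1
  have hd : d ∈ K := by simpa using hcd.2.2
  refine ⟨⟨hcd.1, ?_, ?_⟩, hcd.2.1, hcd.2.2⟩
  · rw [mem_singleton]; exact fun h => hr (h ▸ hc)
  · rw [mem_singleton]; exact fun h => hr (h ▸ hd)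

/-- a component is connected in itself -/
theorem comp_cset {W : Finset α} {c : α} (hc : c ∈ W) : CSet G (comp G W c) := by
  have key : ∀ v ∈ comp G W c, (del G (univ \ comp G W c)).Reachable c v := by
    intro v hv
    have h := (mem_comp.1 hv).2
    have := mem_of_reachable (X := {u | u ∈ comp G W c ∧ (del G (univ \ comp G W c)).Reachable c u}) h
      ⟨self_mem_comp hc, Reachable.refl c⟩ (by
        rintro a b hab ⟨ha1, ha2⟩
        have hb : b ∈ W := by simpa using hab.2.2
        have hb' : b ∈ comp G W c := comp_adj ha1 hb hab.1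
        exact ⟨hb', ha2.trans (Adj.reachable ⟨hab.1, by simp [ha1], by simp [hb']⟩)⟩)
    exact this.2
  exact ⟨⟨c, self_mem_comp hc⟩, fun u hu v hv => (key u hu).symm.trans (key v hv)⟩

theorem CSet.del {K : Finset α} {r : α} (h : CSet G K) (hr : r ∉ K) : CSet (del G {r}) K :=
  ⟨h.1, fun u hu v hv => csub (h.2 u hu v hv) hr⟩

theorem cset_singleton (a : α) : CSet G {a} := by
  refine ⟨⟨a, by simp⟩, fun u hu v hv => ?_⟩
  rw [mem_singleton] at hu hv
  rw [hu, hv]

theorem cset_triple {a b c : α} (h1 : G.Adj a b) (h2 : G.Adj b c) : CSet G {a, b, c} := by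
  have hab : (DL.del G (univ \ {a, b, c})).Reachable b a := Adj.reachable ⟨h1.symm, by simp, by simp⟩
  have hbc : (DL.del G (univ \ {a, b, c})).Reachable b c := Adj.reachable ⟨h2, by simp, by simp⟩
  have key : ∀ v ∈ ({a, b, c} : Finset α), (DL.del G (univ \ {a, b, c})).Reachable b v := by
    intro v hv
    simp only [mem_insert, mem_singleton] at hv
    rcases hv with rfl | rfl | rfl
    · exact hab
    · exact Reachable.refl _
    · exact hbc
  exact ⟨⟨a, by simp⟩, fun u hu v hv => (key u hu).symm.trans (key v hv)⟩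

/-- a model of `K₃₃` with explicit branch sets -/
theorem k33_of (hNPM : SpecNPM) {A₀ A₁ A₂ B₀ B₁ B₂ : Finset α} (cA₀ : CSet G A₀) (cA₁ : CSet G A₁)
    (cA₂ : CSet G A₂) (cB₀ : CSet G B₀) (cB₁ : CSet G B₁) (cB₂ : CSet G B₂)
    (a01 : Disjoint A₀ A₁) (a02 : Disjoint A₀ A₂) (a12 : Disjoint A₁ A₂)
    (b01 : Disjoint B₀ B₁) (b02 : Disjoint B₀ B₂) (b12 : Disjoint B₁ B₂)
    (d0 : Disjoint A₀ (B₀ ∪ B₁ ∪ B₂)) (d1 : Disjoint A₁ (B₀ ∪ B₁ ∪ B₂)) (d2 : Disjoint A₂ (B₀ ∪ B₁ ∪ B₂))
    (e0 : (∃ u ∈ A₀, ∃ v ∈ B₀, G.Adj u v) ∧ (∃ u ∈ A₀, ∃ v ∈ B₁, G.Adj u v) ∧ ∃ u ∈ A₀, ∃ v ∈ B₂, G.Adj u v)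
    (e1 : (∃ u ∈ A₁, ∃ v ∈ B₀, G.Adj u v) ∧ (∃ u ∈ A₁, ∃ v ∈ B₁, G.Adj u v) ∧ ∃ u ∈ A₁, ∃ v ∈ B₂, G.Adj u v)
    (e2 : (∃ u ∈ A₂, ∃ v ∈ B₀, G.Adj u v) ∧ (∃ u ∈ A₂, ∃ v ∈ B₁, G.Adj u v) ∧ ∃ u ∈ A₂, ∃ v ∈ B₂, G.Adj u v) :
    NP G := by
  simp only [disjoint_union_right] at d0 d1 d2
  refine hNPM.k33 ![A₀, A₁, A₂] ![B₀, B₁, B₂] ?_ ?_ ?_ ?_ ?_ ?_
  · intro i; fin_cases i
    · exact cA₀
    · exact cA₁
    · exact cA₂
  · intro i; fin_cases i
    · exact cB₀
    · exact cB₁
    · exact cB₂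
  · intro i j hij; fin_cases i <;> fin_cases j
    · exact absurd rfl hij
    · exact a01
    · exact a02
    · exact a01.symm
    · exact absurd rfl hij
    · exact a12
    · exact a02.symm
    · exact a12.symm
    · exact absurd rfl hij
  · intro i j hij; fin_cases i <;> fin_cases j
    · exact absurd rfl hij
    · exact b01
    · exact b02
    · exact b01.symm
    · exact absurd rfl hij
    · exact b12
    · exact b02.symm
    · exact b12.symm
    · exact absurd rfl hij
  · intro i j; fin_cases i <;> fin_cases j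
    · exact d0.1.1
    · exact d0.1.2
    · exact d0.2
    · exact d1.1.1
    · exact d1.1.2
    · exact d1.2
    · exact d2.1.1
    · exact d2.1.2
    · exact d2.2
  · intro i j; fin_cases i <;> fin_cases j
    · exact e0.1
    · exact e0.2.1
    · exact e0.2.2
    · exact e1.1
    · exact e1.2.1
    · exact e1.2.2
    · exact e2.1
    · exact e2.2.1
    · exact e2.2.2

end N6AM

open MBEM N6AM in
theorem specN6A (hFRG : SpecFRG) (hNPM : SpecNPM) : SpecN6A := by
  intro α _ _ G F x x' z z' s₁ s₂ s₃ s₄ hK hN2 hrig hMF hF hNF hnd hz hz' hx1 hx2 r hr hRr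
  have hr' := mem_Rst.1 hr
  refine hrig r hr'.1 hRr ?_
  have hG4 : KConn 4 G := hK.1
  have hFr := hMF.1
  simp only [List.nodup_cons, List.mem_cons, List.not_mem_nil, or_false, not_or,
    not_false_eq_true, List.nodup_nil, and_true] at hnd
  obtain ⟨⟨xx', xz, xz', x1, x2, x3, x4⟩, ⟨x'z, x'z', x'1, x'2, x'3, x'4⟩, ⟨zz', z1, z2, z3, z4⟩,
    ⟨z'1, z'2, z'3, z'4⟩, ⟨h12, h13, h14⟩, ⟨h23, h24⟩, h34⟩ := hnd
  have hxF : x ∈ F := by rw [hF]; simp
  have hx'F : x' ∈ F := by rw [hF]; simp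
  have hzF : z ∈ F := by rw [hF]; simp
  have hz'F : z' ∈ F := by rw [hF]; simp
  have hF4 : F.card = 4 := by
    rw [hF, card_insert_of_notMem (by simp [xx', xz, xz']), card_insert_of_notMem (by simp [x'z, x'z']),
      card_insert_of_notMem (by simp [zz']), card_singleton]
  have hrF : ∀ v ∈ F, r ≠ v := fun v hv h => hr'.2.1 (h ▸ hv)
  have hrN : ∀ v ∈ NB G F, r ≠ v := fun v hv h => hr'.2.2 (h ▸ hv)
  have m1 : s₁ ∈ NB G F := by rw [hNF]; simp
  have m2 : s₂ ∈ NB G F := by rw [hNF]; simp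
  have m3 : s₃ ∈ NB G F := by rw [hNF]; simp
  have m4 : s₄ ∈ NB G F := by rw [hNF]; simp
  have dadj : ∀ {a b}, G.Adj a b → a ≠ r → b ≠ r → (del G {r}).Adj a b := fun h ha hb =>
    ⟨h, by simpa using ha, by simpa using hb⟩
  -- the core
  have core : ∀ (K : Finset α) (s : α), CSet (del G {r}) K →
      (∀ v ∈ K, v ∉ F ∧ v ≠ r ∧ v ≠ s₁ ∧ v ≠ s₂ ∧ v ≠ s) → (s = s₃ ∨ s = s₄) →
      (∃ u ∈ K, G.Adj u s₁) → (∃ u ∈ K, G.Adj u s₂) → (∃ u ∈ K, G.Adj u s) → NP (del G {r}) := by
    intro K s hKc hKd hs h1 h2 h3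
    have hsN : s ∈ NB G F := by
      rcases hs with rfl | rfl
      · exact m3
      · exact m4
    have hsne : s ≠ x ∧ s ≠ x' ∧ s ≠ z ∧ s ≠ z' ∧ s ≠ s₁ ∧ s ≠ s₂ := by
      rcases hs with rfl | rfl
      · exact ⟨Ne.symm x3, Ne.symm x'3, Ne.symm z3, Ne.symm z'3, Ne.symm h13, Ne.symm h23⟩
      · exact ⟨Ne.symm x4, Ne.symm x'4, Ne.symm z4, Ne.symm z'4, Ne.symm h14, Ne.symm h24⟩
    have hz's : G.Adj z' s := (hz' s).2 (by rcases hs with rfl | rfl <;> simp)
    have kx : x ∉ K := fun h => (hKd x h).1 hxF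
    have kx' : x' ∉ K := fun h => (hKd x' h).1 hx'F
    have kz : z ∉ K := fun h => (hKd z h).1 hzF
    have kz' : z' ∉ K := fun h => (hKd z' h).1 hz'F
    have k1 : s₁ ∉ K := fun h => (hKd s₁ h).2.2.1 rfl
    have k2 : s₂ ∉ K := fun h => (hKd s₂ h).2.2.2.1 rfl
    have ks : s ∉ K := fun h => (hKd s h).2.2.2.2 rfl
    have rx := (hrF x hxF).symm
    have rx' := (hrF x' hx'F).symm
    have rz := (hrF z hzF).symm
    have rz' := (hrF z' hz'F).symm
    have r1 := (hrN s₁ m1).symm
    have r2 := (hrN s₂ m2).symm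
    have rs := (hrN s hsN).symm
    refine k33_of hNPM (A₀ := {z}) (A₁ := {x}) (A₂ := K) (B₀ := {s₁}) (B₁ := {s₂}) (B₂ := {x', z', s})
      (cset_singleton z) (cset_singleton x) hKc (cset_singleton s₁) (cset_singleton s₂)
      (cset_triple (dadj ((hz' x').2 (by simp)).symm rx' rz') (dadj hz's rz' rs))
      (by simpa using Ne.symm xz) (by simpa using kz) (by simpa using kx)
      (by simpa using h12) (by simp [Ne.symm x'1, Ne.symm z'1, Ne.symm hsne.2.2.2.2.1])
      (by simp [Ne.symm x'2, Ne.symm z'2, Ne.symm hsne.2.2.2.2.2])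
      ?_ ?_ ?_ ⟨?_, ?_, ?_⟩ ⟨?_, ?_, ?_⟩ ⟨?_, ?_, ?_⟩
    · simp only [disjoint_singleton_left, mem_union, mem_insert, mem_singleton, not_or]
      exact ⟨⟨z1, z2⟩, Ne.symm x'z, zz', Ne.symm hsne.2.2.1⟩
    · simp only [disjoint_singleton_left, mem_union, mem_insert, mem_singleton, not_or]
      exact ⟨⟨x1, x2⟩, xx', xz', Ne.symm hsne.1⟩
    · simp only [disjoint_union_right, disjoint_singleton_right, disjoint_insert_right]
      exact ⟨⟨k1, k2⟩, kx', kz', ks⟩
    · exact ⟨z, by simp, s₁, by simp, dadj ((hz s₁).2 (by simp)) rz r1⟩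
    · exact ⟨z, by simp, s₂, by simp, dadj ((hz s₂).2 (by simp)) rz r2⟩
    · exact ⟨z, by simp, x', by simp, dadj ((hz x').2 (by simp)) rz rx'⟩
    · exact ⟨x, by simp, s₁, by simp, dadj hx1 rx r1⟩
    · exact ⟨x, by simp, s₂, by simp, dadj hx2 rx r2⟩
    · exact ⟨x, by simp, z', by simp, dadj ((hz' x).2 (by simp)).symm rx rz'⟩
    · obtain ⟨u, hu, hu1⟩ := h1
      exact ⟨u, hu, s₁, by simp, dadj hu1 (hKd u hu).2.1 r1⟩
    · obtain ⟨u, hu, hu1⟩ := h2
      exact ⟨u, hu, s₂, by simp, dadj hu1 (hKd u hu).2.1 r2⟩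
    · obtain ⟨u, hu, hu1⟩ := h3
      exact ⟨u, hu, s, by simp, dadj hu1 (hKd u hu).2.1 rs⟩
  -- components of the rest
  have hY3 : 3 ≤ (Rst G F).card := hN2 _ (hFRG.rst hG4 hFr).1
  have hsep : Sep G (NB G F) F (Rst G F) := hFRG.fsep hFr.1
  have hNBK : ∀ c, ∀ v ∈ NB G (comp G ((Rst G F).erase r) c), v = r ∨ v ∈ NB G F := by
    intro c v hv
    obtain ⟨hvW, a, ha, hav⟩ := NB_comp hv
    have haY := mem_erase.1 (comp_subset ha)
    rcases hsep.mem_or (right_mem_VS hav) with h | h | h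
    · exact Or.inr h
    · exact absurd hav.symm (hsep.2.2.2.2 v h a haY.2)
    · left
      by_contra hne
      exact hvW (mem_erase.2 ⟨hne, h⟩)
  have hYprop : ∀ v ∈ (Rst G F).erase r, v ∉ F ∧ v ≠ r ∧ v ∉ NB G F := fun v hv => by
    have h := mem_erase.1 hv
    have h' := mem_Rst.1 h.2
    exact ⟨h'.2.1, h.1, h'.2.2⟩
  by_cases hA : ∃ c ∈ (Rst G F).erase r, ∀ t ∈ NB G F, ∃ u ∈ comp G ((Rst G F).erase r) c, G.Adj u t
  · obtain ⟨c, hc, hall⟩ := hA
    refine core (comp G ((Rst G F).erase r) c) s₃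
      (CSet.del (comp_cset hc) (fun h => (hYprop r (comp_subset h)).2.1 rfl)) (fun v hv => ?_) (Or.inl rfl)
      (hall s₁ m1) (hall s₂ m2) (hall s₃ m3)
    have h := hYprop v (comp_subset hv)
    exact ⟨h.1, h.2.1, fun e => h.2.2 (e ▸ m1), fun e => h.2.2 (e ▸ m2), fun e => h.2.2 (e ▸ m3)⟩
  · push Not at hA
    have hN4 : (NB G F).card = 4 := hFr.2.2.1
    have hins : ∀ t ∈ NB G F, (insert r ((NB G F).erase t)).card = 4 := by
      intro t ht
      rw [card_insert_of_notMem (fun h => hr'.2.2 (mem_of_mem_erase h)), card_erase_of_mem ht, hN4]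
    have few' : ∀ D : Finset α, D ⊆ (Rst G F).erase r → D.Nonempty → 4 ≤ (NB G D).card := by
      intro D hD hDne
      by_contra hcon
      have hxD : x ∉ D := fun h => (hYprop x (hD h)).1 hxF
      refine hFRG.few (W := NB G D) (r := x) hG4
        (fun v hv => (mem_Rst.1 (mem_of_mem_erase (hD hv))).1) hDne (Finset.Subset.refl _) (by omega)
        (hFr.1 hxF) hxD (fun h => ?_)
      obtain ⟨_, a, ha, hax⟩ := F2CM.mem_NB.1 h
      exact (hYprop a (hD ha)).2.2 (F2CM.mem_NB.2 ⟨(hYprop a (hD ha)).1, x, hxF, hax.symm⟩)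
    have hFout : ∀ D : Finset α, D ⊆ (Rst G F).erase r → F ⊆ VS G \ (D ∪ NB G D) := by
      intro D hD v hv
      rw [mem_sdiff, mem_union, not_or]
      refine ⟨hFr.1 hv, fun h => (hYprop v (hD h)).1 hv, fun h => ?_⟩
      obtain ⟨_, a, ha, hav⟩ := F2CM.mem_NB.1 h
      exact (hYprop a (hD ha)).2.2 (F2CM.mem_NB.2 ⟨(hYprop a (hD ha)).1, v, hv, hav.symm⟩)
    have single : ∀ c ∈ (Rst G F).erase r, ∃ t ∈ NB G F, ∀ v, G.Adj c v ↔ v = r ∨ (v ∈ NB G F ∧ v ≠ t) := by
      intro c hc
      obtain ⟨t, ht, hmiss⟩ := hA c hc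
      refine ⟨t, ht, ?_⟩
      set K := comp G ((Rst G F).erase r) c with hKdef
      have hKsub : K ⊆ (Rst G F).erase r := comp_subset
      have hKne : K.Nonempty := ⟨c, self_mem_comp hc⟩
      have hsub : NB G K ⊆ insert r ((NB G F).erase t) := by
        intro v hv
        rcases hNBK c v hv with h | h
        · simp [h]
        · rw [mem_insert, mem_erase]
          right
          refine ⟨fun h5 => ?_, h⟩
          obtain ⟨_, a, ha, hav⟩ := NB_comp hv
          exact hmiss a ha (h5 ▸ hav)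
      have heq : NB G K = insert r ((NB G F).erase t) :=
        Finset.eq_of_subset_of_card_le hsub (by rw [hins t ht]; exact few' K hKsub hKne)
      have hcard : (NB G K).card = 4 := by rw [heq, hins t ht]
      have hKV : K ⊆ VS G := fun v hv => (mem_Rst.1 (mem_of_mem_erase (hKsub hv))).1
      have hR : 2 ≤ (Rst G K).card := by
        have h1 : F ⊆ Rst G K := hFout K hKsub
        have := Finset.card_le_card h1
        omega
      have hK1 : K.card ≤ 1 := by
        rcases hRr (NB G K) K (Rst G K) (hFRG.fsep hKV) hcard (by rw [heq]; simp) with h | h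
        · exact h
        · omega
      have hKc : K = {c} := by
        refine Finset.eq_singleton_iff_unique_mem.2 ⟨self_mem_comp hc, fun v hv => ?_⟩
        exact Finset.card_le_one.1 hK1 v hv c (self_mem_comp hc)
      intro v
      have h1 : G.Adj c v ↔ v ∈ NB G K := by
        rw [hKc, F2CM.mem_NB]
        simp only [mem_singleton, exists_eq_left]
        exact ⟨fun h => ⟨h.ne', h⟩, fun h => h.2⟩
      rw [h1, heq, mem_insert, mem_erase]
      tauto
    have differ : ∀ c ∈ (Rst G F).erase r, ∀ c' ∈ (Rst G F).erase r, c ≠ c' → ∀ t ∈ NB G F,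
        (∀ v, G.Adj c v ↔ v = r ∨ (v ∈ NB G F ∧ v ≠ t)) →
        ¬ (∀ v, G.Adj c' v ↔ v = r ∨ (v ∈ NB G F ∧ v ≠ t)) := by
      intro c hc c' hc' hne t ht h1 h2
      have hD : ({c, c'} : Finset α) ⊆ (Rst G F).erase r := by
        intro v hv
        simp only [mem_insert, mem_singleton] at hv
        rcases hv with rfl | rfl
        · exact hc
        · exact hc'
      have hsub : NB G {c, c'} ⊆ insert r ((NB G F).erase t) := by
        intro v hv
        obtain ⟨_, a, ha, hav⟩ := F2CM.mem_NB.1 hv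
        simp only [mem_insert, mem_singleton] at ha
        have : v = r ∨ (v ∈ NB G F ∧ v ≠ t) := by
          rcases ha with rfl | rfl
          · exact (h1 v).1 hav
          · exact (h2 v).1 hav
        rw [mem_insert, mem_erase]
        tauto
      have hcard : (NB G {c, c'}).card = 4 :=
        le_antisymm (by have := Finset.card_le_card hsub; rw [hins t ht] at this; exact this)
          (few' _ hD ⟨c, by simp⟩)
      have hfrag : Frag G {c, c'} := by
        refine ⟨fun v hv => (mem_Rst.1 (mem_of_mem_erase (hD hv))).1, ?_, hcard, ?_⟩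
        · rw [card_pair hne]
        · have := Finset.card_le_card (hFout _ hD)
          omega
      have := hN2 _ hfrag
      rw [card_pair hne] at this
      omega
    have h2 : 1 < ((Rst G F).erase r).card := by
      rw [card_erase_of_mem hr]
      omega
    obtain ⟨k₁, hk1, k₂, hk2, hk12⟩ := Finset.one_lt_card.1 h2
    obtain ⟨t₁, ht1, hN1⟩ := single k₁ hk1
    obtain ⟨t₂, ht2, hN2'⟩ := single k₂ hk2
    have memN : ∀ t, t ∈ NB G F ↔ t = s₁ ∨ t = s₂ ∨ t = s₃ ∨ t = s₄ := by
      intro t; rw [hNF]; simp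
    -- one vertex is enough
    have one : ∀ k ∈ (Rst G F).erase r, ∀ t, (t = s₃ ∨ t = s₄) →
        (∀ v, G.Adj k v ↔ v = r ∨ (v ∈ NB G F ∧ v ≠ t)) → NP (del G {r}) := by
      intro k hk t ht hN
      have hkp := hYprop k hk
      have hprop : ∀ s, s ∈ NB G F → ∀ v ∈ ({k} : Finset α), v ∉ F ∧ v ≠ r ∧ v ≠ s₁ ∧ v ≠ s₂ ∧ v ≠ s := by
        intro s hs v hv
        rw [mem_singleton] at hv
        subst hv
        exact ⟨hkp.1, hkp.2.1, fun e => hkp.2.2 (e ▸ m1), fun e => hkp.2.2 (e ▸ m2),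
          fun e => hkp.2.2 (e ▸ hs)⟩
      rcases ht with rfl | rfl
      · exact core {k} s₄ (cset_singleton k) (hprop s₄ m4) (Or.inr rfl)
          ⟨k, by simp, (hN s₁).2 (Or.inr ⟨m1, h13⟩)⟩ ⟨k, by simp, (hN s₂).2 (Or.inr ⟨m2, h23⟩)⟩
          ⟨k, by simp, (hN s₄).2 (Or.inr ⟨m4, Ne.symm h34⟩)⟩
      · exact core {k} s₃ (cset_singleton k) (hprop s₃ m3) (Or.inl rfl)
          ⟨k, by simp, (hN s₁).2 (Or.inr ⟨m1, h14⟩)⟩ ⟨k, by simp, (hN s₂).2 (Or.inr ⟨m2, h24⟩)⟩
          ⟨k, by simp, (hN s₃).2 (Or.inr ⟨m3, h34⟩)⟩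
    -- two vertices
    have two : ∀ k ∈ (Rst G F).erase r, ∀ k' ∈ (Rst G F).erase r,
        (∀ v, G.Adj k v ↔ v = r ∨ (v ∈ NB G F ∧ v ≠ s₁)) →
        (∀ v, G.Adj k' v ↔ v = r ∨ (v ∈ NB G F ∧ v ≠ s₂)) → NP (del G {r}) := by
      intro k hk k' hk' hN hN'
      have hkp := hYprop k hk
      have hkp' := hYprop k' hk'
      have r3 := (hrN s₃ m3).symm
      have hks3 : G.Adj k s₃ := (hN s₃).2 (Or.inr ⟨m3, Ne.symm h13⟩)
      have hk's3 : G.Adj k' s₃ := (hN' s₃).2 (Or.inr ⟨m3, Ne.symm h23⟩)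
      refine core {k, s₃, k'} s₄ (cset_triple (dadj hks3 hkp.2.1 r3) (dadj hk's3.symm r3 hkp'.2.1))
        (fun v hv => ?_) (Or.inr rfl)
        ⟨k', by simp, (hN' s₁).2 (Or.inr ⟨m1, h12⟩)⟩ ⟨k, by simp, (hN s₂).2 (Or.inr ⟨m2, Ne.symm h12⟩)⟩
        ⟨k, by simp, (hN s₄).2 (Or.inr ⟨m4, Ne.symm h14⟩)⟩
      simp only [mem_insert, mem_singleton] at hv
      rcases hv with rfl | rfl | rfl
      · exact ⟨hkp.1, hkp.2.1, fun e => hkp.2.2 (e ▸ m1), fun e => hkp.2.2 (e ▸ m2),
          fun e => hkp.2.2 (e ▸ m4)⟩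
      · exact ⟨fun h => (F2CM.mem_NB.1 m3).1 h, r3, Ne.symm h13, Ne.symm h23, h34⟩
      · exact ⟨hkp'.1, hkp'.2.1, fun e => hkp'.2.2 (e ▸ m1), fun e => hkp'.2.2 (e ▸ m2),
          fun e => hkp'.2.2 (e ▸ m4)⟩
    rcases (memN t₁).1 ht1 with rfl | rfl | h | h
    · rcases (memN t₂).1 ht2 with rfl | rfl | h | h
      · exact absurd hN2' (differ k₁ hk1 k₂ hk2 hk12 _ m1 hN1)
      · exact two k₁ hk1 k₂ hk2 hN1 hN2'
      · exact one k₂ hk2 t₂ (Or.inl h) hN2'
      · exact one k₂ hk2 t₂ (Or.inr h) hN2'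
    · rcases (memN t₂).1 ht2 with rfl | rfl | h | h
      · exact two k₂ hk2 k₁ hk1 hN2' hN1
      · exact absurd hN2' (differ k₁ hk1 k₂ hk2 hk12 _ m2 hN1)
      · exact one k₂ hk2 t₂ (Or.inl h) hN2'
      · exact one k₂ hk2 t₂ (Or.inr h) hN2'
    · exact one k₁ hk1 t₁ (Or.inl h) hN1
    · exact one k₁ hk1 t₁ (Or.inr h) hN1

end DL
end

section
/-!
# MP_3ff0f8_gt, G4 block, module FRM (helper19): frames
-/
open SimpleGraph Finset

namespace DL.FRMM

set_option linter.unusedSectionVars false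

variable {α : Type} [Fintype α] [DecidableEq α]

/-- the space of the two-cycles -/
def Z2s (G : SimpleGraph α) : Submodule (ZMod 2) (Sym2 α → Sym2 α → ZMod 2) where
  carrier := {z | IsZ2 G z}
  zero_mem' := ⟨fun _ _ => rfl, fun _ _ h => absurd rfl h, fun _ _ _ => sum_const_zero⟩
  add_mem' := by
    rintro z z' ⟨h1, h2, h3⟩ ⟨h1', h2', h3'⟩
    refine ⟨fun e f => ?_, fun e f h => ?_, fun e v hv => ?_⟩
    · change z e f + z' e f = z f e + z' f e
      rw [h1, h1']
    · change z e f + z' e f ≠ 0 at h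
      by_cases h0 : z e f = 0
      · rw [h0, zero_add] at h
        exact h2' e f h
      · exact h2 e f h0
    · change ∑ f ∈ _, (z e f + z' e f) = 0
      rw [sum_add_distrib, h3 e v hv, h3' e v hv, add_zero]
  smul_mem' := by
    rintro c z ⟨h1, h2, h3⟩
    refine ⟨fun e f => ?_, fun e f h => ?_, fun e v hv => ?_⟩
    · change c * z e f = c * z f e
      rw [h1]
    · change c * z e f ≠ 0 at h
      exact h2 e f (right_ne_zero_of_mul h)
    · change ∑ f ∈ _, c * z e f = 0
      rw [← mul_sum, h3 e v hv, mul_zero]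

theorem mem_Z2s {G : SimpleGraph α} {z : Sym2 α → Sym2 α → ZMod 2} : z ∈ Z2s G ↔ IsZ2 G z := Iff.rfl

/-- the van Kampen number as a linear map -/
def vkl (hVKA : SpecVKA) (r : α → ℕ) : (Sym2 α → Sym2 α → ZMod 2) →ₗ[ZMod 2] ZMod 2 :=
  AddMonoidHom.toZModLinearMap 2
    { toFun := fun z => vk r z
      map_zero' := by
        have h := hVKA.add r (fun _ _ => 0) (fun _ _ => 0)
        simp only [add_zero] at h
        have h2 : vk r (fun _ _ => 0 : Sym2 α → Sym2 α → ZMod 2) = 0 := by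
          generalize vk r (fun _ _ => 0 : Sym2 α → Sym2 α → ZMod 2) = t at h
          revert t
          decide
        exact h2
      map_add' := fun z z' => hVKA.add r z z' }

theorem exists_order : ∃ r : α → ℕ, Function.Injective r :=
  ⟨fun a => (Fintype.equivFin α a : ℕ), fun _ _ h => (Fintype.equivFin α).injective (Fin.ext h)⟩

/-- a functional on `Z_2(G)` which vanishes on the kernel of a linear map `R` is a functional of `R` -/
theorem factor {W : Type} [AddCommGroup W] [Module (ZMod 2) W] {V : Type} [AddCommGroup V] [Module (ZMod 2) V]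
    (Z : Submodule (ZMod 2) V) (R : V →ₗ[ZMod 2] W) (g : V →ₗ[ZMod 2] ZMod 2)
    (h : ∀ z ∈ Z, R z = 0 → g z = 0) : ∃ k : W →ₗ[ZMod 2] ZMod 2, ∀ z ∈ Z, g z = k (R z) := by
  have h1 : (g.comp Z.subtype) ∈ LinearMap.range (R.comp Z.subtype).dualMap := by
    rw [LinearMap.range_dualMap_eq_dualAnnihilator_ker, Submodule.mem_dualAnnihilator]
    intro z hz
    exact h z.1 z.2 hz
  obtain ⟨k, hk⟩ := h1
  refine ⟨k, fun z hz => ?_⟩
  have := LinearMap.congr_fun hk ⟨z, hz⟩
  exact this.symm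

/-- functionals on chains -/
theorem functional (k : Chain α →ₗ[ZMod 2] ZMod 2) : ∃ a : Chain α, ∀ c, k c = pr a c := by
  refine ⟨fun e => k (Pi.single e 1), fun c => ?_⟩
  have h : c = ∑ e, c e • (Pi.single e 1 : Chain α) := by
    funext e
    simp [Finset.sum_apply, Pi.single_apply]
  conv_lhs => rw [h]
  rw [map_sum]
  unfold pr
  refine sum_congr rfl fun e _ => ?_
  rw [map_smul, smul_eq_mul, mul_comm]

end DL.FRMM

namespace DL

open FRMM in
theorem specFRM (hVKA : SpecVKA) : SpecFRM where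
  vtx := by
    intro α _ _ G u hu
    obtain ⟨r0, hr0⟩ := exists_order (α := α)
    set R : (Sym2 α → Sym2 α → ZMod 2) →ₗ[ZMod 2] (α → Chain α) :=
      { toFun := fun z w => z s(u, w)
        map_add' := fun _ _ => rfl
        map_smul' := fun _ _ => rfl } with hR
    obtain ⟨k, hk⟩ := factor (Z2s G) R (vkl hVKA r0) (by
      intro z hz h0
      by_contra hne
      apply hu
      refine ⟨r0, hr0, z, ?_, hne⟩
      obtain ⟨h1, h2, h3⟩ := hz
      have hrow : ∀ e f, z e f ≠ 0 → u ∉ e := by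
        intro e f hef hue
        obtain ⟨w, rfl⟩ := Sym2.mem_iff_exists.1 hue
        exact hef (congrFun (congrFun h0 w) f)
      have hdel : ∀ e ∈ G.edgeSet, u ∉ e → e ∈ (del G {u}).edgeSet := by
        intro e he hue
        induction e using Sym2.ind with
        | _ a b =>
          rw [mem_edgeSet] at he ⊢
          rw [Sym2.mem_iff, not_or] at hue
          exact ⟨he, by rw [mem_singleton]; exact Ne.symm hue.1, by rw [mem_singleton]; exact Ne.symm hue.2⟩
      refine ⟨h1, fun e f hef => ?_, h3⟩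
      obtain ⟨h4, h5, h6⟩ := h2 e f hef
      refine ⟨hdel e h4 (hrow e f hef), hdel f h5 (hrow f e ?_), h6⟩
      rw [← h1]
      exact hef)
    have hf : ∀ w : α, ∃ a : Chain α, ∀ c : Chain α, k (Pi.single w c) = pr a c := by
      intro w
      exact functional (k.comp (LinearMap.single (ZMod 2) (fun _ : α => Chain α) w))
    choose al hal using hf
    refine ⟨al, fun r hr z hz => ?_⟩
    rw [hVKA.inv hr hr0 hz]
    have h1 := hk z hz
    have h2 : R z = ∑ w, Pi.single w (z s(u, w)) := by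
      funext w
      rw [Finset.sum_apply]
      simp [Pi.single_apply, hR]
    rw [h2, map_sum] at h1
    simp only [hal] at h1
    exact h1
  edg := by
    intro α _ _ G a b hab
    obtain ⟨r0, hr0⟩ := exists_order (α := α)
    set R : (Sym2 α → Sym2 α → ZMod 2) →ₗ[ZMod 2] Chain α :=
      { toFun := fun z => z s(a, b)
        map_add' := fun _ _ => rfl
        map_smul' := fun _ _ => rfl } with hR
    obtain ⟨k, hk⟩ := factor (Z2s G) R (vkl hVKA r0) (by
      intro z hz h0
      by_contra hne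
      apply hab
      refine ⟨r0, hr0, z, ?_, hne⟩
      obtain ⟨h1, h2, h3⟩ := hz
      have hrow : ∀ e f, z e f ≠ 0 → e ≠ s(a, b) := by
        rintro e f hef rfl
        exact hef (congrFun h0 f)
      have hdel : ∀ e ∈ G.edgeSet, e ≠ s(a, b) → e ∈ (delE G a b).edgeSet := by
        intro e he hue
        rw [delE, edgeSet_deleteEdges]
        exact ⟨he, hue⟩
      refine ⟨h1, fun e f hef => ?_, h3⟩
      obtain ⟨h4, h5, h6⟩ := h2 e f hef
      refine ⟨hdel e h4 (hrow e f hef), hdel f h5 (hrow f e ?_), h6⟩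
      rw [← h1]
      exact hef)
    obtain ⟨m, hm⟩ := functional k
    refine ⟨m, fun r hr z hz => ?_⟩
    rw [hVKA.inv hr hr0 hz]
    have h1 := hk z hz
    rw [hm] at h1
    exact h1

end DL
end

section
/-!
# MP_3ff0f8_gt, G4 block: FRG (helper72): elementary facts about fragments
-/
open SimpleGraph Finset

namespace DL.FRGM

variable {α : Type} [Fintype α] [DecidableEq α] {G : SimpleGraph α}

theorem mem_NB {A : Finset α} {w : α} : w ∈ NB G A ↔ w ∉ A ∧ ∃ a ∈ A, G.Adj a w := by
  simp [NB]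

theorem NB_sub {A : Finset α} : NB G A ⊆ VS G := by
  intro w hw
  obtain ⟨_, a, _, h⟩ := mem_NB.1 hw
  exact right_mem_VS h

theorem mem_Rst {A : Finset α} {w : α} : w ∈ Rst G A ↔ w ∈ VS G ∧ w ∉ A ∧ w ∉ NB G A := by
  simp [Rst]

theorem fsep {F : Finset α} (hF : F ⊆ VS G) : Sep G (NB G F) F (Rst G F) := by
  refine ⟨?_, ?_, ?_, ?_, ?_⟩
  · ext w
    rw [mem_union, mem_union, mem_Rst]
    constructor
    · rintro ((h | h) | h)
      · exact NB_sub h
      · exact hF h
      · exact h.1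
    · intro h
      by_cases h1 : w ∈ F
      · exact Or.inl (Or.inr h1)
      · by_cases h2 : w ∈ NB G F
        · exact Or.inl (Or.inl h2)
        · exact Or.inr ⟨h, h1, h2⟩
  · rw [Finset.disjoint_left]
    intro w h
    exact (mem_NB.1 h).1
  · rw [Finset.disjoint_right]
    intro w h
    exact (mem_Rst.1 h).2.2
  · rw [Finset.disjoint_right]
    intro w h
    exact (mem_Rst.1 h).2.1
  · intro a ha b hb hab
    have h := mem_Rst.1 hb
    exact h.2.2 (mem_NB.2 ⟨h.2.1, a, ha, hab⟩)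

/-- the neighbourhood of a nonempty set with nonempty rest -/
theorem four_le {D : Finset α} (hG : KConn 4 G) (hD : D ⊆ VS G) (h0 : D.Nonempty)
    (h1 : (Rst G D).Nonempty) : 4 ≤ (NB G D).card :=
  hG.le_of_sep (fsep hD) h0 h1

theorem few {D W : Finset α} {r : α} (hG : KConn 4 G) (hD : D ⊆ VS G) (h0 : D.Nonempty)
    (hW : NB G D ⊆ W) (hc : W.card ≤ 3) (hr : r ∈ VS G) (hrD : r ∉ D) (hrW : r ∉ W) : False := by
  have h1 := four_le hG hD h0 ⟨r, mem_Rst.2 ⟨hr, hrD, fun h => hrW (hW h)⟩⟩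
  have h2 := card_le_card hW
  omega

theorem NB_of_sep {S P Q : Finset α} (hG : KConn 4 G) (h : Sep G S P Q) (hS : S.card = 4)
    (hP : P.Nonempty) : NB G P = S := by
  ext w
  rw [mem_NB]
  constructor
  · rintro ⟨hw, a, ha, haw⟩
    rcases h.mem_or (right_mem_VS haw) with h' | h' | h'
    · exact h'
    · exact absurd h' hw
    · exact absurd haw (h.2.2.2.2 a ha w h')
  · intro hw
    refine ⟨Finset.disjoint_left.1 h.2.1 hw, ?_⟩
    obtain ⟨p, hp, hsp⟩ := hG.exists_adj_of_sep h hP hS.le hw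
    exact ⟨p, hp, hsp.symm⟩

theorem Rst_of_sep {S P Q : Finset α} (hG : KConn 4 G) (h : Sep G S P Q) (hS : S.card = 4)
    (hP : P.Nonempty) : Rst G P = Q := by
  ext w
  rw [mem_Rst, NB_of_sep hG h hS hP]
  constructor
  · rintro ⟨h1, h2, h3⟩
    rcases h.mem_or h1 with h' | h' | h'
    · exact absurd h' h3
    · exact absurd h' h2
    · exact h'
  · intro hw
    exact ⟨h.subQ hw, Finset.disjoint_right.1 h.2.2.2.1 hw, Finset.disjoint_right.1 h.2.2.1 hw⟩

theorem frag_of_sep {S P Q : Finset α} (hG : KConn 4 G) (h : Sep G S P Q) (hS : S.card = 4)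
    (hP : 2 ≤ P.card) (hQ : 2 ≤ Q.card) : Frag G P := by
  have hP0 : P.Nonempty := card_pos.1 (by omega)
  refine ⟨h.subP, hP, ?_, ?_⟩
  · rw [NB_of_sep hG h hS hP0, hS]
  · have := Rst_of_sep hG h hS hP0
    unfold Rst at this
    rw [this]
    exact hQ

theorem sep {S P Q : Finset α} (hG : KConn 4 G) (h : Sep G S P Q) (hS : S.card = 4)
    (hP : 2 ≤ P.card) (hQ : 2 ≤ Q.card) :
    Frag G P ∧ NB G P = S ∧ Rst G P = Q ∧ Frag G Q ∧ NB G Q = S ∧ Rst G Q = P := by
  have hP0 : P.Nonempty := card_pos.1 (by omega)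
  have hQ0 : Q.Nonempty := card_pos.1 (by omega)
  exact ⟨frag_of_sep hG h hS hP hQ, NB_of_sep hG h hS hP0, Rst_of_sep hG h hS hP0,
    frag_of_sep hG h.symm hS hQ hP, NB_of_sep hG h.symm hS hQ0, Rst_of_sep hG h.symm hS hQ0⟩

theorem rst {F : Finset α} (hG : KConn 4 G) (hF : Frag G F) :
    Frag G (Rst G F) ∧ NB G (Rst G F) = NB G F ∧ Rst G (Rst G F) = F := by
  obtain ⟨_, _, _, h4, h5, h6⟩ := sep hG (fsep hF.1) hF.2.2.1 hF.2.1 hF.2.2.2
  exact ⟨h4, h5, h6⟩

theorem nrig {u : α} : ¬ Rig G u ↔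
    ∃ S P Q, Sep G S P Q ∧ S.card = 4 ∧ u ∈ S ∧ 2 ≤ P.card ∧ 2 ≤ Q.card := by
  constructor
  · intro h
    by_contra hc
    refine h fun S P Q h1 h2 h3 => ?_
    by_contra h4
    rw [not_or, not_le, not_le] at h4
    exact hc ⟨S, P, Q, h1, h2, h3, h4.1, h4.2⟩
  · rintro ⟨S, P, Q, h1, h2, h3, h4, h5⟩ h
    have := h S P Q h1 h2 h3
    omega

theorem min {F : Finset α} (hF : Frag G F) : ∃ F', F' ⊆ F ∧ MFrag G F' := by
  induction F using Finset.strongInduction with
  | H F ih =>
    by_cases h : ∃ F', F' ⊂ F ∧ Frag G F'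
    · obtain ⟨F', h1, h2⟩ := h
      obtain ⟨F'', h3, h4⟩ := ih F' h1 h2
      exact ⟨F'', h3.trans h1.1, h4⟩
    · push Not at h
      exact ⟨F, Subset.refl _, hF, h⟩

theorem corner {S P Q S' P' Q' : Finset α} (h : Sep G S P Q) (h' : Sep G S' P' Q') :
    NB G (P ∩ P') ⊆ (S ∩ P') ∪ (S ∩ S') ∪ (P ∩ S') := by
  intro w hw
  obtain ⟨h1, a, ha, haw⟩ := mem_NB.1 hw
  rw [mem_inter] at h1 ha
  simp only [mem_union, mem_inter]
  have hv := right_mem_VS haw
  have e1 : w ∈ S ∨ w ∈ P := by
    rcases h.mem_or hv with h2 | h2 | h2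
    · exact Or.inl h2
    · exact Or.inr h2
    · exact absurd haw (h.2.2.2.2 a ha.1 w h2)
  have e2 : w ∈ S' ∨ w ∈ P' := by
    rcases h'.mem_or hv with h2 | h2 | h2
    · exact Or.inl h2
    · exact Or.inr h2
    · exact absurd haw (h'.2.2.2.2 a ha.2 w h2)
  tauto

theorem card3 (A B C : Finset α) : (A ∪ B ∪ C).card ≤ A.card + B.card + C.card := by
  have h1 := card_union_le (A ∪ B) C
  have h2 := card_union_le A B
  omega

/-- the vertices of `Q ∪ Q'` are in the rest of the corner -/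
theorem corner_rest {S P Q S' P' Q' : Finset α} (h : Sep G S P Q) (h' : Sep G S' P' Q') :
    Q ∪ Q' ⊆ Rst G (P ∩ P') := by
  intro r hr
  rw [mem_union] at hr
  rw [mem_Rst]
  refine ⟨hr.elim (fun h1 => h.subQ h1) fun h1 => h'.subQ h1, ?_, ?_⟩
  · rw [mem_inter]
    rintro ⟨h1, h2⟩
    rcases hr with h3 | h3
    · exact Finset.disjoint_left.1 h.2.2.2.1 h1 h3
    · exact Finset.disjoint_left.1 h'.2.2.2.1 h2 h3
  · intro h1
    have h2 := corner h h' h1
    simp only [mem_union, mem_inter] at h2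
    rcases hr with h3 | h3
    · have e1 := Finset.disjoint_right.1 h.2.2.1 h3
      have e2 := Finset.disjoint_right.1 h.2.2.2.1 h3
      tauto
    · have e1 := Finset.disjoint_right.1 h'.2.2.1 h3
      have e2 := Finset.disjoint_right.1 h'.2.2.2.1 h3
      tauto

theorem four {S P Q S' P' Q' : Finset α} (hG : KConn 4 G) (h : Sep G S P Q) (h' : Sep G S' P' Q')
    (h0 : (P ∩ P').Nonempty) (h1 : (Q ∪ Q').Nonempty) :
    4 ≤ (S ∩ P').card + (S ∩ S').card + (P ∩ S').card := by
  have e1 := four_le hG (inter_subset_left.trans h.subP) h0 (h1.mono (corner_rest h h'))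
  have e2 := card_le_card (corner h h')
  have e3 := card3 (S ∩ P') (S ∩ S') (P ∩ S')
  omega

theorem cfrag {S P Q S' P' Q' : Finset α} (hG : KConn 4 G) (h : Sep G S P Q)
    (h' : Sep G S' P' Q') (h0 : (S ∩ P').card + (S ∩ S').card + (P ∩ S').card = 4)
    (h1 : 2 ≤ (P ∩ P').card) (h2 : 2 ≤ Q.card) :
    Frag G (P ∩ P') ∧ NB G (P ∩ P') = (S ∩ P') ∪ (S ∩ S') ∪ (P ∩ S') := by
  have hs : Q ⊆ Rst G (P ∩ P') := subset_union_left.trans (corner_rest h h')
  have hsub : P ∩ P' ⊆ VS G := inter_subset_left.trans h.subP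
  have e1 := four_le hG hsub (card_pos.1 (by omega)) ((card_pos.1 (by omega : 0 < Q.card)).mono hs)
  have e2 := card3 (S ∩ P') (S ∩ S') (P ∩ S')
  have e3 : NB G (P ∩ P') = (S ∩ P') ∪ (S ∩ S') ∪ (P ∩ S') :=
    eq_of_subset_of_card_le (corner h h') (by omega)
  refine ⟨⟨hsub, h1, ?_, ?_⟩, e3⟩
  · have := card_le_card (corner h h')
    omega
  · exact h2.trans (card_le_card hs)

theorem one {F : Finset α} {t x : α} (hG : KConn 4 G) (hF : Frag G F) (h3 : 3 ≤ F.card)
    (ht : t ∈ NB G F) (hx : x ∈ F) (h : ∀ w ∈ F, G.Adj t w → w = x) : ¬ Rig G x := by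
  have hsub : F.erase x ⊆ VS G := (erase_subset _ _).trans hF.1
  have hc : (F.erase x).card = F.card - 1 := card_erase_of_mem hx
  have hN : NB G (F.erase x) ⊆ insert x ((NB G F).erase t) := by
    intro w hw
    obtain ⟨h1, a, ha, haw⟩ := mem_NB.1 hw
    rw [mem_insert, mem_erase]
    by_cases hwx : w = x
    · exact Or.inl hwx
    · right
      have hwF : w ∉ F := fun h2 => h1 (mem_erase.2 ⟨hwx, h2⟩)
      rw [mem_erase] at ha
      refine ⟨?_, mem_NB.2 ⟨hwF, a, ha.2, haw⟩⟩
      rintro rfl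
      exact ha.1 (h a ha.2 haw.symm)
  have hR : Rst G F ⊆ Rst G (F.erase x) := by
    intro r hr
    rw [mem_Rst] at hr ⊢
    refine ⟨hr.1, fun h1 => hr.2.1 (mem_of_mem_erase h1), fun h1 => ?_⟩
    have h2 := hN h1
    rw [mem_insert, mem_erase] at h2
    rcases h2 with rfl | h2
    · exact hr.2.1 hx
    · exact hr.2.2 h2.2
  have hR2 : 2 ≤ (Rst G (F.erase x)).card := hF.2.2.2.trans (card_le_card hR)
  have e1 := four_le hG hsub (card_pos.1 (by omega)) (card_pos.1 (by omega))
  have e2 : (insert x ((NB G F).erase t)).card ≤ 4 := by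
    have h4 := card_insert_le x ((NB G F).erase t)
    have h5 : ((NB G F).erase t).card = (NB G F).card - 1 := card_erase_of_mem ht
    have h6 := hF.2.2.1
    omega
  have e3 : NB G (F.erase x) = insert x ((NB G F).erase t) :=
    eq_of_subset_of_card_le hN (by omega)
  rw [nrig]
  refine ⟨_, _, _, fsep hsub, ?_, ?_, by omega, hR2⟩
  · have := card_le_card hN
    omega
  · rw [e3]
    exact mem_insert_self _ _

theorem attach {F : Finset α} {t : α} (hG : KConn 4 G) (hF : Frag G F) (ht : t ∈ NB G F) :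
    (∃ w ∈ F, G.Adj t w) ∧ ∃ w ∈ Rst G F, G.Adj t w := by
  constructor
  · obtain ⟨_, a, ha, hat⟩ := mem_NB.1 ht
    exact ⟨a, ha, hat.symm⟩
  · rw [← (rst hG hF).2.1] at ht
    obtain ⟨_, a, ha, hat⟩ := mem_NB.1 ht
    exact ⟨a, ha, hat.symm⟩

end DL.FRGM

namespace DL

theorem specFRG : SpecFRG where
  few := FRGM.few
  sep := FRGM.sep
  fsep := FRGM.fsep
  rst := FRGM.rst
  nrig := FRGM.nrig
  min := FRGM.min
  corner := FRGM.corner
  four := FRGM.four
  cfrag := FRGM.cfrag
  one := FRGM.one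
  attach := FRGM.attach

end DL
end

section
/-!
# MP_3ff0f8_gt, G4 block, module C20 (helper19): cuts at a (3,3)-pair
-/
open SimpleGraph Finset

namespace DL.C20M

set_option linter.unusedSectionVars false

variable {α : Type} [Fintype α] [DecidableEq α] {G : SimpleGraph α}

/-- a nonempty vertex set with at most three neighbours leaves nothing -/
theorem few {D W : Finset α} {r : α} (hG : KConn 4 G) (hD : D ⊆ VS G) (hne : D.Nonempty)
    (hW : ∀ w, w ∉ D → (∃ a ∈ D, G.Adj a w) → w ∈ W) (hc : W.card ≤ 3) (hr : r ∈ VS G) (hrD : r ∉ D)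
    (hrW : r ∉ W) : False := by
  have hsub : NB G D ⊆ W := fun w hw => hW w (NBFM.mem_NB.1 hw).1 (NBFM.mem_NB.1 hw).2
  have := NBFM.nb hG hD hne (lt_of_le_of_lt (card_le_card hsub) (by omega)) hr
  rcases mem_union.1 this with h | h
  · exact hrD h
  · exact hrW (hsub h)

/-- `x`, `y` have in `P` at most the neighbour `c` -/
theorem only {S P Q : Finset α} {x y c : α} (hG : KConn 4 G) (h : Sep G S P Q) (hx : x ∈ S) (hy : y ∈ S)
    (hxy : x ≠ y) (hS : S.card ≤ 4) (hxP : ∀ w ∈ P, G.Adj x w → w = c) (hyP : ∀ w ∈ P, G.Adj y w → w = c)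
    (hQ : Q.Nonempty) (hc : c ∉ Q) : P ⊆ {c} := by
  intro v hv
  rw [mem_singleton]
  by_contra hvc
  obtain ⟨r, hr⟩ := hQ
  have h2 : ((S.erase x).erase y).card + 2 = S.card := by
    rw [card_erase_of_mem (mem_erase.2 ⟨Ne.symm hxy, hy⟩), card_erase_of_mem hx]
    have : 2 ≤ S.card := by
      have := card_le_card (show ({x, y} : Finset α) ⊆ S by
        intro z hz
        rw [mem_insert, mem_singleton] at hz
        rcases hz with rfl | rfl <;> assumption)
      rwa [card_pair hxy] at this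
    omega
  refine few (D := P.erase c) (W := insert c ((S.erase x).erase y)) (r := r) hG
    ((erase_subset _ _).trans h.subP) ⟨v, mem_erase.2 ⟨hvc, hv⟩⟩ ?_ ?_ (h.subQ hr) ?_ ?_
  · rintro w hw ⟨a, ha, haw⟩
    rw [mem_erase] at ha
    rw [mem_insert, mem_erase, mem_erase]
    by_cases hwc : w = c
    · exact Or.inl hwc
    · right
      rcases h.mem_or (right_mem_VS haw) with h1 | h1 | h1
      · refine ⟨?_, ?_, h1⟩
        · rintro rfl
          exact ha.1 (hyP a ha.2 haw.symm)
        · rintro rfl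
          exact ha.1 (hxP a ha.2 haw.symm)
      · exact absurd (mem_erase.2 ⟨hwc, h1⟩) hw
      · exact absurd haw (h.2.2.2.2 a ha.2 w h1)
  · refine (card_insert_le _ _).trans ?_
    omega
  · intro h1
    exact Finset.disjoint_left.1 h.2.2.2.1 (mem_of_mem_erase h1) hr
  · rw [mem_insert]
    rintro (rfl | h1)
    · exact hc hr
    · exact Finset.disjoint_left.1 h.2.2.1 (mem_of_mem_erase (mem_of_mem_erase h1)) hr

/-- `x`, `y` have no neighbours in `P`: impossible -/
theorem none' {S P Q : Finset α} {x y : α} (hG : KConn 4 G) (h : Sep G S P Q) (hx : x ∈ S) (hy : y ∈ S)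
    (hxy : x ≠ y) (hS : S.card ≤ 5) (hxP : ∀ w ∈ P, ¬ G.Adj x w) (hyP : ∀ w ∈ P, ¬ G.Adj y w)
    (hP : P.Nonempty) (hQ : Q.Nonempty) : False := by
  obtain ⟨r, hr⟩ := hQ
  have h2 : ((S.erase x).erase y).card + 2 = S.card := by
    rw [card_erase_of_mem (mem_erase.2 ⟨Ne.symm hxy, hy⟩), card_erase_of_mem hx]
    have : 2 ≤ S.card := by
      have := card_le_card (show ({x, y} : Finset α) ⊆ S by
        intro z hz
        rw [mem_insert, mem_singleton] at hz
        rcases hz with rfl | rfl <;> assumption)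
      rwa [card_pair hxy] at this
    omega
  refine few (D := P) (W := (S.erase x).erase y) (r := r) hG h.subP hP ?_ (by omega) (h.subQ hr) ?_ ?_
  · rintro w hw ⟨a, ha, haw⟩
    rw [mem_erase, mem_erase]
    rcases h.mem_or (right_mem_VS haw) with h1 | h1 | h1
    · refine ⟨?_, ?_, h1⟩
      · rintro rfl
        exact hyP a ha haw.symm
      · rintro rfl
        exact hxP a ha haw.symm
    · exact absurd h1 hw
    · exact absurd haw (h.2.2.2.2 a ha w h1)
  · intro h1
    exact Finset.disjoint_left.1 h.2.2.2.1 h1 hr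
  · intro h1
    exact Finset.disjoint_left.1 h.2.2.1 (mem_of_mem_erase (mem_of_mem_erase h1)) hr

/-- `T` separates -/
theorem sep_of {T : Finset α} (hT : T ⊆ VS G) (h : ∀ P Q, Sep G T P Q → P.Nonempty → Q.Nonempty → False) :
    ConnOff G T := by
  intro a ha b hb haT hbT
  by_contra hr
  obtain ⟨P, Q, h1, h2, h3, _⟩ := exists_sep_of_not_reachable ha hb haT hbT hr
  rw [inter_eq_left.2 hT] at h1
  exact h P Q h1 ⟨a, h2⟩ ⟨b, h3⟩

variable {x y s₁ s₂ s₃ s₄ : α}

/-- exchange of `x` and `y` -/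
theorem swap (h : P33 G x y s₁ s₂ s₃ s₄) : P33 G y x s₂ s₁ s₃ s₄ where
  nd := by
    have := h.nd
    simp only [List.nodup_cons, List.mem_cons, List.not_mem_nil, or_false, not_or] at this ⊢
    tauto
  nx := h.ny
  ny := h.nx

/-- exchange of `s₃` and `s₄` -/
theorem swap' (h : P33 G x y s₁ s₂ s₃ s₄) : P33 G x y s₁ s₂ s₄ s₃ where
  nd := by
    have := h.nd
    simp only [List.nodup_cons, List.mem_cons, List.not_mem_nil, or_false, not_or] at this ⊢
    tauto
  nx w := by rw [h.nx]; tauto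
  ny w := by rw [h.ny]; tauto

structure Ds (x y s₁ s₂ s₃ s₄ : α) : Prop where
  xy : x ≠ y
  x1 : x ≠ s₁
  x2 : x ≠ s₂
  x3 : x ≠ s₃
  x4 : x ≠ s₄
  y1 : y ≠ s₁
  y2 : y ≠ s₂
  y3 : y ≠ s₃
  y4 : y ≠ s₄
  s12 : s₁ ≠ s₂
  s13 : s₁ ≠ s₃
  s14 : s₁ ≠ s₄
  s23 : s₂ ≠ s₃
  s24 : s₂ ≠ s₄
  s34 : s₃ ≠ s₄

theorem ds (h : P33 G x y s₁ s₂ s₃ s₄) : Ds x y s₁ s₂ s₃ s₄ := by
  have := h.nd
  simp only [List.nodup_cons, List.mem_cons, List.not_mem_nil, or_false, not_or] at this
  constructor <;> tauto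

theorem axy (h : P33 G x y s₁ s₂ s₃ s₄) : G.Adj x y := (h.nx y).2 (Or.inl rfl)
theorem ax2 (h : P33 G x y s₁ s₂ s₃ s₄) : G.Adj x s₂ := (h.nx s₂).2 (Or.inr (Or.inl rfl))
theorem ax3 (h : P33 G x y s₁ s₂ s₃ s₄) : G.Adj x s₃ := (h.nx s₃).2 (Or.inr (Or.inr (Or.inl rfl)))
theorem ax4 (h : P33 G x y s₁ s₂ s₃ s₄) : G.Adj x s₄ := (h.nx s₄).2 (Or.inr (Or.inr (Or.inr rfl)))
theorem ay1 (h : P33 G x y s₁ s₂ s₃ s₄) : G.Adj y s₁ := (h.ny s₁).2 (Or.inr (Or.inl rfl))
theorem ay3 (h : P33 G x y s₁ s₂ s₃ s₄) : G.Adj y s₃ := (h.ny s₃).2 (Or.inr (Or.inr (Or.inl rfl)))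
theorem ay4 (h : P33 G x y s₁ s₂ s₃ s₄) : G.Adj y s₄ := (h.ny s₄).2 (Or.inr (Or.inr (Or.inr rfl)))

theorem vsub (h : P33 G x y s₁ s₂ s₃ s₄) {z : α}
    (hz : z = x ∨ z = y ∨ z = s₁ ∨ z = s₂ ∨ z = s₃ ∨ z = s₄) : z ∈ VS G := by
  rcases hz with rfl | rfl | rfl | rfl | rfl | rfl
  · exact left_mem_VS (axy h)
  · exact right_mem_VS (axy h)
  · exact right_mem_VS (ay1 h)
  · exact right_mem_VS (ax2 h)
  · exact right_mem_VS (ax3 h)
  · exact right_mem_VS (ax4 h)

/-- four of the six vertices -/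
theorem card4 (a b c d : α) : ({a, b, c, d} : Finset α).card ≤ 4 := by
  refine (card_insert_le _ _).trans ?_
  refine Nat.succ_le_succ ((card_insert_le _ _).trans ?_)
  exact Nat.succ_le_succ ((card_insert_le _ _).trans (by simp))

theorem card5 (a b c d e : α) : ({a, b, c, d, e} : Finset α).card ≤ 5 :=
  (card_insert_le _ _).trans (Nat.succ_le_succ (card4 b c d e))

theorem c4 {a b c d : α} (h1 : a ≠ b) (h2 : a ≠ c) (h3 : a ≠ d) (h4 : b ≠ c) (h5 : b ≠ d) (h6 : c ≠ d) :
    ({a, b, c, d} : Finset α).card = 4 := by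
  rw [card_insert_of_notMem (by simp [h1, h2, h3]), card_insert_of_notMem (by simp [h4, h5]),
    card_insert_of_notMem (by simp [h6]), card_singleton]

/-- the cut `{x, y, s₁, s₂}`: one side contains `s₃`, the other `s₄`: impossible -/
theorem two_aux (hG : K48 G) (h : P33 G x y s₁ s₂ s₃ s₄) {P Q : Finset α} (hs : Sep G {x, y, s₁, s₂} P Q)
    (h3 : s₃ ∈ P) (h4 : s₄ ∈ Q) : False := by
  have d := ds h
  have hP : P ⊆ {s₃} := by
    refine only (c := s₃) hG.1 hs (by simp) (by simp) d.xy (card4 _ _ _ _) ?_ ?_ ⟨s₄, h4⟩ ?_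
    · intro w hw hxw
      rcases (h.nx w).1 hxw with rfl | rfl | rfl | rfl
      · exact absurd hw (Finset.disjoint_left.1 hs.2.1 (by simp))
      · exact absurd hw (Finset.disjoint_left.1 hs.2.1 (by simp))
      · rfl
      · exact absurd h4 (Finset.disjoint_left.1 hs.2.2.2.1 hw)
    · intro w hw hxw
      rcases (h.ny w).1 hxw with rfl | rfl | rfl | rfl
      · exact absurd hw (Finset.disjoint_left.1 hs.2.1 (by simp))
      · exact absurd hw (Finset.disjoint_left.1 hs.2.1 (by simp))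
      · rfl
      · exact absurd h4 (Finset.disjoint_left.1 hs.2.2.2.1 hw)
    · exact Finset.disjoint_left.1 hs.2.2.2.1 h3
  have hs' := hs.symm
  have hQ : Q ⊆ {s₄} := by
    refine only (c := s₄) hG.1 hs' (by simp) (by simp) d.xy (card4 _ _ _ _) ?_ ?_ ⟨s₃, h3⟩ ?_
    · intro w hw hxw
      rcases (h.nx w).1 hxw with rfl | rfl | rfl | rfl
      · exact absurd hw (Finset.disjoint_left.1 hs'.2.1 (by simp))
      · exact absurd hw (Finset.disjoint_left.1 hs'.2.1 (by simp))
      · exact absurd h3 (Finset.disjoint_left.1 hs'.2.2.2.1 hw)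
      · rfl
    · intro w hw hxw
      rcases (h.ny w).1 hxw with rfl | rfl | rfl | rfl
      · exact absurd hw (Finset.disjoint_left.1 hs'.2.1 (by simp))
      · exact absurd hw (Finset.disjoint_left.1 hs'.2.1 (by simp))
      · exact absurd h3 (Finset.disjoint_left.1 hs'.2.2.2.1 hw)
      · rfl
    · exact Finset.disjoint_left.1 hs'.2.2.2.1 h4
  have h1 := hG.2
  rw [← hs.1] at h1
  have h2 := card_union_le ({x, y, s₁, s₂} ∪ P) Q
  have h5 := card_union_le ({x, y, s₁, s₂} : Finset α) P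
  have h6 := card_le_card hP
  have h7 := card_le_card hQ
  rw [card_singleton] at h6 h7
  have h8 := card4 x y s₁ s₂
  omega

theorem two1 (hG : K48 G) (h : P33 G x y s₁ s₂ s₃ s₄) : ConnOff G {x, y, s₁, s₂} := by
  have d := ds h
  refine sep_of (fun z hz => vsub h (by simp at hz; tauto)) fun P Q hs hP hQ => ?_
  have key : ∀ P Q, Sep G {x, y, s₁, s₂} P Q → P.Nonempty → Q.Nonempty → s₃ ∈ P ∨ s₄ ∈ P := by
    intro P Q hs hP hQ
    by_contra hc
    rw [not_or] at hc
    refine none' hG.1 hs (by simp) (by simp) d.xy ((card4 _ _ _ _).trans (by norm_num)) ?_ ?_ hP hQ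
    · intro w hw hxw
      rcases (h.nx w).1 hxw with rfl | rfl | rfl | rfl
      · exact absurd hw (Finset.disjoint_left.1 hs.2.1 (by simp))
      · exact absurd hw (Finset.disjoint_left.1 hs.2.1 (by simp))
      · exact hc.1 hw
      · exact hc.2 hw
    · intro w hw hxw
      rcases (h.ny w).1 hxw with rfl | rfl | rfl | rfl
      · exact absurd hw (Finset.disjoint_left.1 hs.2.1 (by simp))
      · exact absurd hw (Finset.disjoint_left.1 hs.2.1 (by simp))
      · exact hc.1 hw
      · exact hc.2 hw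
  rcases key P Q hs hP hQ with h1 | h1
  · rcases key Q P hs.symm hQ hP with h2 | h2
    · exact Finset.disjoint_left.1 hs.2.2.2.1 h1 h2
    · exact two_aux hG h hs h1 h2
  · rcases key Q P hs.symm hQ hP with h2 | h2
    · exact two_aux hG h hs.symm h2 h1
    · exact Finset.disjoint_left.1 hs.2.2.2.1 h1 h2

/-- `{x, y, c, d, e}` where `g` is the only other neighbour of `x` or `y` -/
theorem three_aux (hG : K48 G) (h : P33 G x y s₁ s₂ s₃ s₄) {c d e g : α}
    (hT : ({x, y, c, d, e} : Finset α) ⊆ VS G)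
    (hx : ∀ w, G.Adj x w → w ∈ ({x, y, c, d, e} : Finset α) ∨ w = g)
    (hy : ∀ w, G.Adj y w → w ∈ ({x, y, c, d, e} : Finset α) ∨ w = g) : ConnOff G {x, y, c, d, e} := by
  have dd := ds h
  refine sep_of hT fun P Q hs hP hQ => ?_
  have key : ∀ P Q, Sep G {x, y, c, d, e} P Q → P.Nonempty → Q.Nonempty → g ∈ P := by
    intro P Q hs hP hQ
    by_contra hc
    refine none' hG.1 hs (by simp) (by simp) dd.xy (card5 _ _ _ _ _) ?_ ?_ hP hQ
    · intro w hw hxw
      rcases hx w hxw with h1 | rfl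
      · exact Finset.disjoint_left.1 hs.2.1 h1 hw
      · exact hc hw
    · intro w hw hxw
      rcases hy w hxw with h1 | rfl
      · exact Finset.disjoint_left.1 hs.2.1 h1 hw
      · exact hc hw
  exact Finset.disjoint_left.1 hs.2.2.2.1 (key P Q hs hP hQ) (key Q P hs.symm hQ hP)

/-- the edge `x s₂` is in no nontrivial 4-cut -/
theorem good_aux (hG : K48 G) (h : P33 G x y s₁ s₂ s₃ s₄) {S P Q : Finset α} (hs : Sep G S P Q)
    (hS : S.card = 4) (hx : x ∈ S) (h2 : s₂ ∈ S) (hy : y ∈ S) (h3 : s₃ ∈ P) (h4 : s₄ ∈ Q) :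
    P.card ≤ 1 ∨ Q.card ≤ 1 := by
  have d := ds h
  by_cases h1 : s₁ ∈ Q
  · left
    have : P ⊆ {s₃} := by
      refine only (c := s₃) hG.1 hs hx hy d.xy hS.le ?_ ?_ ⟨s₄, h4⟩ (Finset.disjoint_left.1 hs.2.2.2.1 h3)
      · intro w hw hxw
        rcases (h.nx w).1 hxw with rfl | rfl | rfl | rfl
        · exact absurd hw (Finset.disjoint_left.1 hs.2.1 hy)
        · exact absurd hw (Finset.disjoint_left.1 hs.2.1 h2)
        · rfl
        · exact absurd h4 (Finset.disjoint_left.1 hs.2.2.2.1 hw)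
      · intro w hw hxw
        rcases (h.ny w).1 hxw with rfl | rfl | rfl | rfl
        · exact absurd hw (Finset.disjoint_left.1 hs.2.1 hx)
        · exact absurd h1 (Finset.disjoint_left.1 hs.2.2.2.1 hw)
        · rfl
        · exact absurd h4 (Finset.disjoint_left.1 hs.2.2.2.1 hw)
    exact (card_le_card this).trans (by simp)
  · right
    have hs' := hs.symm
    have : Q ⊆ {s₄} := by
      refine only (c := s₄) hG.1 hs' hx hy d.xy hS.le ?_ ?_ ⟨s₃, h3⟩ (Finset.disjoint_left.1 hs'.2.2.2.1 h4)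
      · intro w hw hxw
        rcases (h.nx w).1 hxw with rfl | rfl | rfl | rfl
        · exact absurd hw (Finset.disjoint_left.1 hs'.2.1 hy)
        · exact absurd hw (Finset.disjoint_left.1 hs'.2.1 h2)
        · exact absurd h3 (Finset.disjoint_left.1 hs'.2.2.2.1 hw)
        · rfl
      · intro w hw hxw
        rcases (h.ny w).1 hxw with rfl | rfl | rfl | rfl
        · exact absurd hw (Finset.disjoint_left.1 hs'.2.1 hx)
        · exact absurd hw h1
        · exact absurd h3 (Finset.disjoint_left.1 hs'.2.2.2.1 hw)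
        · rfl
    exact (card_le_card this).trans (by simp)

theorem good (hG : K48 G) (h : P33 G x y s₁ s₂ s₃ s₄) (S P Q : Finset α) (hs : Sep G S P Q)
    (hS : S.card = 4) (hx : x ∈ S) (h2 : s₂ ∈ S) : P.card ≤ 1 ∨ Q.card ≤ 1 := by
  have d := ds h
  by_contra hc
  rw [not_or, not_le, not_le] at hc
  have hP : P.Nonempty := card_pos.1 (by omega)
  have hQ : Q.Nonempty := card_pos.1 (by omega)
  obtain ⟨p, hp, hxp⟩ := hG.1.exists_adj_of_sep hs hP hS.le hx
  obtain ⟨q, hq, hxq⟩ := hG.1.exists_adj_of_sep hs.symm hQ hS.le hx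
  -- `y` is in the cut
  have key : ∀ P Q, Sep G S P Q → (∃ q ∈ Q, G.Adj x q) → y ∉ P := by
    rintro P Q hs ⟨q, hq, hxq⟩ hyP
    have hPQ := hs.2.2.2.1
    rcases (h.nx q).1 hxq with rfl | rfl | rfl | rfl
    · exact Finset.disjoint_left.1 hPQ hyP hq
    · exact Finset.disjoint_left.1 hs.2.2.1 h2 hq
    · exact hs.2.2.2.2 y hyP _ hq (ay3 h)
    · exact hs.2.2.2.2 y hyP _ hq (ay4 h)
  have hy : y ∈ S := by
    rcases hs.mem_or (right_mem_VS (axy h)) with h1 | h1 | h1
    · exact h1
    · exact absurd h1 (key P Q hs ⟨q, hq, hxq⟩)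
    · exact absurd h1 (key Q P hs.symm ⟨p, hp, hxp⟩)
  have hpc : p = s₃ ∨ p = s₄ := by
    rcases (h.nx p).1 hxp with rfl | rfl | rfl | rfl
    · exact absurd hp (Finset.disjoint_left.1 hs.2.1 hy)
    · exact absurd hp (Finset.disjoint_left.1 hs.2.1 h2)
    · exact Or.inl rfl
    · exact Or.inr rfl
  have hqc : q = s₃ ∨ q = s₄ := by
    rcases (h.nx q).1 hxq with rfl | rfl | rfl | rfl
    · exact absurd hq (Finset.disjoint_left.1 hs.2.2.1 hy)
    · exact absurd hq (Finset.disjoint_left.1 hs.2.2.1 h2)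
    · exact Or.inl rfl
    · exact Or.inr rfl
  rcases hpc with rfl | rfl
  · rcases hqc with rfl | rfl
    · exact Finset.disjoint_left.1 hs.2.2.2.1 hp hq
    · rcases good_aux hG h hs hS hx h2 hy hp hq with h5 | h5 <;> omega
  · rcases hqc with rfl | rfl
    · rcases good_aux hG h hs.symm hS hx h2 hy hq hp with h5 | h5 <;> omega
    · exact Finset.disjoint_left.1 hs.2.2.2.1 hp hq

end DL.C20M

namespace DL

open C20M in
theorem specC20 (hNBF : SpecNBF) (hCCL : SpecCCL) : SpecC20 where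
  two := by
    intro α _ _ G x y s₁ s₂ s₃ s₄ hG h
    have d := ds h
    have hT : ∀ c e, c ∈ ({s₁, s₂, s₃, s₄} : Finset α) → e ∈ ({s₁, s₂, s₃, s₄} : Finset α) →
        ({x, y, c, e} : Finset α) ⊆ VS G := by
      intro c e hc he z hz
      simp only [mem_insert, mem_singleton] at hc he hz
      refine vsub h ?_
      rcases hz with rfl | rfl | rfl | rfl <;> tauto
    refine ⟨two1 hG h, ?_, ?_, ?_, ?_, ?_⟩
    · exact hNBF.off (x := x) (t := s₂) hG.1 (hT _ _ (by simp) (by simp)) (c4 d.xy d.x3 d.x4 d.y3 d.y4 d.s34)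
        (by simp) fun w hw => by
          rw [h.nx] at hw
          simp only [mem_insert, mem_singleton]
          tauto
    · exact hNBF.off (x := y) (t := s₄) hG.1 (hT _ _ (by simp) (by simp)) (c4 d.xy d.x1 d.x3 d.y1 d.y3 d.s13)
        (by simp) fun w hw => by
          rw [h.ny] at hw
          simp only [mem_insert, mem_singleton]
          tauto
    · exact hNBF.off (x := y) (t := s₃) hG.1 (hT _ _ (by simp) (by simp)) (c4 d.xy d.x1 d.x4 d.y1 d.y4 d.s14)
        (by simp) fun w hw => by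
          rw [h.ny] at hw
          simp only [mem_insert, mem_singleton]
          tauto
    · exact hNBF.off (x := x) (t := s₄) hG.1 (hT _ _ (by simp) (by simp)) (c4 d.xy d.x2 d.x3 d.y2 d.y3 d.s23)
        (by simp) fun w hw => by
          rw [h.nx] at hw
          simp only [mem_insert, mem_singleton]
          tauto
    · exact hNBF.off (x := x) (t := s₃) hG.1 (hT _ _ (by simp) (by simp)) (c4 d.xy d.x2 d.x4 d.y2 d.y4 d.s24)
        (by simp) fun w hw => by
          rw [h.nx] at hw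
          simp only [mem_insert, mem_singleton]
          tauto
  three := by
    intro α _ _ G x y s₁ s₂ s₃ s₄ hG h
    refine ⟨?_, ?_, ?_, ?_⟩
    · refine three_aux hG h (g := s₄) (fun z hz => vsub h (by simp at hz; tauto)) ?_ ?_
      · intro w hw
        rw [h.nx] at hw
        simp
        tauto
      · intro w hw
        rw [h.ny] at hw
        simp
        tauto
    · refine three_aux hG h (g := s₃) (fun z hz => vsub h (by simp at hz; tauto)) ?_ ?_
      · intro w hw
        rw [h.nx] at hw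
        simp
        tauto
      · intro w hw
        rw [h.ny] at hw
        simp
        tauto
    · refine three_aux hG h (g := s₂) (fun z hz => vsub h (by simp at hz; tauto)) ?_ ?_
      · intro w hw
        rw [h.nx] at hw
        simp
        tauto
      · intro w hw
        rw [h.ny] at hw
        simp
        tauto
    · refine three_aux hG h (g := s₁) (fun z hz => vsub h (by simp at hz; tauto)) ?_ ?_
      · intro w hw
        rw [h.nx] at hw
        simp
        tauto
      · intro w hw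
        rw [h.ny] at hw
        simp
        tauto
  c1 := by
    intro α _ _ G x y s₁ s₂ s₃ s₄ hG h
    have hn : 6 ≤ (VS G).card := le_trans (by norm_num) hG.2
    refine ⟨?_, ?_, ?_, ?_⟩
    · exact hCCL hG.1 hn (ax2 h) fun S P Q hs hS hx h2 => good hG h S P Q hs hS hx h2
    · exact hCCL hG.1 hn (ay1 h) fun S P Q hs hS hx h2 => good hG (swap h) S P Q hs hS hx h2
    · exact hCCL hG.1 hn (ax2 h).symm fun S P Q hs hS hx h2 => good hG h S P Q hs hS h2 hx
    · exact hCCL hG.1 hn (ay1 h).symm fun S P Q hs hS hx h2 => good hG (swap h) S P Q hs hS h2 hx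

end DL
end
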