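import Pool.Agent.DL.E.Defs

/-!
# MP_3ff0f8_gt, ALGEBRA HALF, G4 block (helper97): fragments of 4-connected graphs, rigid apices, (3,3)-pairs

Module `XXX` = file `DL/G4/XXX.lean`, theorem `specXXX (hYYY : SpecYYY) … : SpecXXX`; the hypotheses may be any other Specs
named in the docstring (also of DL/NP, DL/K, DL/EX); `dst`, `dg`, `SH`, `No33` … are in DL/E/Defs.lean; own lemmas in the namespace `DL.XXXM`.  Base library: `DL/PC.lean`, `DL/PC2.lean`,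
`DL/MENG.lean`, `DL/KC.lean` (helper59).  The docstrings are self-contained.  `n = (VS G).card`.  FRAGMENT: side with at least two
vertices of a 4-separation whose other side also has at least two vertices.
-/

open SimpleGraph Finset

namespace DL

/-- fragment -/
def Frag {α : Type} [Fintype α] [DecidableEq α] (G : SimpleGraph α) (F : Finset α) : Prop :=
  F ⊆ VS G ∧ 2 ≤ F.card ∧ (NB G F).card = 4 ∧ 2 ≤ (VS G \ (F ∪ NB G F)).card

/-- inclusion-minimal fragment -/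
def MFrag {α : Type} [Fintype α] [DecidableEq α] (G : SimpleGraph α) (F : Finset α) : Prop :=
  Frag G F ∧ ∀ F', F' ⊂ F → ¬ Frag G F'

/-- no fragment with two vertices -/
def No2 {α : Type} [Fintype α] [DecidableEq α] (G : SimpleGraph α) : Prop := ∀ F, Frag G F → 3 ≤ F.card

/-- all sides of nontrivial 4-separations through vertices of `F` have at least three vertices -/
def SD3 {α : Type} [Fintype α] [DecidableEq α] (G : SimpleGraph α) (F : Finset α) : Prop :=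
  ∀ x ∈ F, ∀ S P Q, Sep G S P Q → S.card = 4 → x ∈ S → 2 ≤ P.card → 2 ≤ Q.card → 3 ≤ P.card ∧ 3 ≤ Q.card

/-- the rest of a fragment -/
noncomputable def Rst {α : Type} [Fintype α] [DecidableEq α] (G : SimpleGraph α) (F : Finset α) : Finset α :=
  VS G \ (F ∪ NB G F)

/-! ## A. Fragments -/

/-- **FRG** (from NBF, KC; 300 lines).  Elementary facts.  `few`: NBF.nb.  `sep`: every vertex of `S` has a neighbour in `P` (`KConn.exists_adj_of_sep`), so `NB G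
P = S`.  `corner`: a neighbour of `P ∩ P'` is in `P ∪ S` and in `P' ∪ S'`.  `four`: otherwise `few` (`Q` and `Q'` are disjoint from the corner and from the three sets: `r ∈ Q ∪ Q'`).  `cfrag`: `NB G (P ∩ P')` is contained in a set with 4
elements and has at least 4 elements by `few`; the rest contains `Q`.  `one`: `D = F - x`, `NB G D ⊆ (NB G F - t) ∪ {x}`, by `few` it has exactly 4 elements, so `x ∈ NB G D`, and `(NB G D, D, rest)` is a 4-separation, the rest contains `Rst G F`.  `attach`: otherwise `NB G F` without `t`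
would be the neighbourhood of the rest.  `min`: induction on the number of elements. -/
structure SpecFRG : Prop where
  few : ∀ {α : Type} [Fintype α] [DecidableEq α] {G : SimpleGraph α} {D W : Finset α} {r : α}, KConn 4 G →
    D ⊆ VS G → D.Nonempty → NB G D ⊆ W → W.card ≤ 3 → r ∈ VS G → r ∉ D → r ∉ W → False
  sep : ∀ {α : Type} [Fintype α] [DecidableEq α] {G : SimpleGraph α} {S P Q : Finset α}, KConn 4 G →
    Sep G S P Q → S.card = 4 → 2 ≤ P.card → 2 ≤ Q.card →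
    Frag G P ∧ NB G P = S ∧ Rst G P = Q ∧ Frag G Q ∧ NB G Q = S ∧ Rst G Q = P
  fsep : ∀ {α : Type} [Fintype α] [DecidableEq α] {G : SimpleGraph α} {F : Finset α}, F ⊆ VS G →
    Sep G (NB G F) F (Rst G F)
  rst : ∀ {α : Type} [Fintype α] [DecidableEq α] {G : SimpleGraph α} {F : Finset α}, KConn 4 G → Frag G F →
    Frag G (Rst G F) ∧ NB G (Rst G F) = NB G F ∧ Rst G (Rst G F) = F
  nrig : ∀ {α : Type} [Fintype α] [DecidableEq α] {G : SimpleGraph α} {u : α}, ¬ Rig G u ↔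
    ∃ S P Q, Sep G S P Q ∧ S.card = 4 ∧ u ∈ S ∧ 2 ≤ P.card ∧ 2 ≤ Q.card
  min : ∀ {α : Type} [Fintype α] [DecidableEq α] {G : SimpleGraph α} {F : Finset α}, Frag G F →
    ∃ F', F' ⊆ F ∧ MFrag G F'
  corner : ∀ {α : Type} [Fintype α] [DecidableEq α] {G : SimpleGraph α} {S P Q S' P' Q' : Finset α},
    Sep G S P Q → Sep G S' P' Q' → NB G (P ∩ P') ⊆ (S ∩ P') ∪ (S ∩ S') ∪ (P ∩ S')
  four : ∀ {α : Type} [Fintype α] [DecidableEq α] {G : SimpleGraph α} {S P Q S' P' Q' : Finset α}, KConn 4 G →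
    Sep G S P Q → Sep G S' P' Q' → (P ∩ P').Nonempty → (Q ∪ Q').Nonempty →
    4 ≤ (S ∩ P').card + (S ∩ S').card + (P ∩ S').card
  cfrag : ∀ {α : Type} [Fintype α] [DecidableEq α] {G : SimpleGraph α} {S P Q S' P' Q' : Finset α}, KConn 4 G →
    Sep G S P Q → Sep G S' P' Q' → (S ∩ P').card + (S ∩ S').card + (P ∩ S').card = 4 → 2 ≤ (P ∩ P').card →
    2 ≤ Q.card → Frag G (P ∩ P') ∧ NB G (P ∩ P') = (S ∩ P') ∪ (S ∩ S') ∪ (P ∩ S')
  one : ∀ {α : Type} [Fintype α] [DecidableEq α] {G : SimpleGraph α} {F : Finset α} {t x : α}, KConn 4 G →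
    Frag G F → 3 ≤ F.card → t ∈ NB G F → x ∈ F → (∀ w ∈ F, G.Adj t w → w = x) → ¬ Rig G x
  attach : ∀ {α : Type} [Fintype α] [DecidableEq α] {G : SimpleGraph α} {F : Finset α} {t : α}, KConn 4 G →
    Frag G F → t ∈ NB G F → (∃ w ∈ F, G.Adj t w) ∧ ∃ w ∈ Rst G F, G.Adj t w

/-- **F2C** (from FRG, KC; 200 lines).  Classification of the 2-fragments.  `NB G {x, y}` has at most 4 elements, by FRG.few exactly 4 (`n ≥ 8`).  `x`, `y` have at least 4 neighbours (`KConn.le_nbs`), all in `{x, y} ∪ NB G {x, y}`.  Not adjacent: twins.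
Adjacent: `x` is adjacent to 3 or 4 of the four vertices, `y` too, and each of the four vertices is adjacent to `x` or `y`. -/
def SpecF2C : Prop := ∀ {α : Type} [Fintype α] [DecidableEq α] {G : SimpleGraph α} {x y : α}, K48 G →
  x ∈ VS G → y ∈ VS G → x ≠ y → (NB G {x, y}).card ≤ 4 →
  (∃ s₁ s₂ s₃ s₄, P33 G x y s₁ s₂ s₃ s₄) ∨ (∃ s₁ s₂ s₃ s₄, P34 G x y s₁ s₂ s₃ s₄) ∨
    (∃ s₁ s₂ s₃ s₄, P34 G y x s₁ s₂ s₃ s₄) ∨ (∃ s, P44 G x y s) ∨ ∃ s, TW G x y s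

/-- **CCL** (from KC; 150 lines).  `contr G a b` is in C1 if `a`, `b` are in no common nontrivial 4-cut.  A separation `(S, P, Q)` of `contr G a b` with `|S| ≤ 3`: if `a ∉ S` then adding `b` to the side of `a` gives a separation of `G` of order `≤ 3`:
one of `P`, `Q` is empty.  If `a ∈ S` then `(insert b S, P, Q)` is a separation of `G`: of order `≤ 3` if `|S| ≤ 2` (one side is empty), otherwise of order 4. -/
def SpecCCL : Prop := ∀ {α : Type} [Fintype α] [DecidableEq α] {G : SimpleGraph α} {a b : α}, KConn 4 G →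
  6 ≤ (VS G).card → G.Adj a b →
  (∀ S P Q, Sep G S P Q → S.card = 4 → a ∈ S → b ∈ S → P.card ≤ 1 ∨ Q.card ≤ 1) → C1 (contr G a b)

/-- type (be): `F = {x, y, z}`, the cut `{x, s, s', q}` -/
structure TBe {α : Type} [Fintype α] [DecidableEq α] (G : SimpleGraph α) (F T X Y : Finset α)
    (x y z sa sc s s' q : α) : Prop where
  nd : [x, y, z, sa, sc, s, s', q].Nodup
  hF : F = {x, y, z}
  hN : NB G F = {sa, sc, s, s'}
  hT : T = {x, s, s', q}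
  hX : y ∈ X ∧ sa ∈ X
  hY : z ∈ Y ∧ sc ∈ Y
  ny : ∀ w, G.Adj y w ↔ w = x ∨ w = sa ∨ w = s ∨ w = s'
  nz : ∀ w, G.Adj z w ↔ w = x ∨ w = sc ∨ w = s ∨ w = s'
  xa : G.Adj x sa
  xc : G.Adj x sc

/-- type (ga): `F = {x, x', w}`, the cut `{x, x', q₁, q₂}` -/
structure TGa {α : Type} [Fintype α] [DecidableEq α] (G : SimpleGraph α) (F T X Y : Finset α)
    (x x' w s₁ s₂ s₃ s₄ q₁ q₂ : α) : Prop where
  nd : [x, x', w, s₁, s₂, s₃, s₄, q₁, q₂].Nodup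
  hF : F = {x, x', w}
  hN : NB G F = {s₁, s₂, s₃, s₄}
  hT : T = {x, x', q₁, q₂}
  hX : w ∈ X ∧ s₁ ∈ X ∧ s₂ ∈ X
  hY : s₃ ∈ Y ∧ s₄ ∈ Y
  nw : ∀ v, G.Adj w v ↔ v = x ∨ v = x' ∨ v = s₁ ∨ v = s₂
  ad : G.Adj x s₃ ∧ G.Adj x s₄ ∧ G.Adj x' s₃ ∧ G.Adj x' s₄

/-- type (al): `F = {x, x', z, z'}`, the cut `{x, x', q₁, q₂}` -/
structure TAl {α : Type} [Fintype α] [DecidableEq α] (G : SimpleGraph α) (F T X Y : Finset α)
    (x x' z z' s₁ s₂ s₃ s₄ q₁ q₂ : α) : Prop where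
  nd : [x, x', z, z', s₁, s₂, s₃, s₄, q₁, q₂].Nodup
  hF : F = {x, x', z, z'}
  hN : NB G F = {s₁, s₂, s₃, s₄}
  hT : T = {x, x', q₁, q₂}
  hX : z ∈ X ∧ s₁ ∈ X ∧ s₂ ∈ X
  hY : z' ∈ Y ∧ s₃ ∈ Y ∧ s₄ ∈ Y
  nz : ∀ v, G.Adj z v ↔ v = x ∨ v = x' ∨ v = s₁ ∨ v = s₂
  nz' : ∀ v, G.Adj z' v ↔ v = x ∨ v = x' ∨ v = s₃ ∨ v = s₄

/-- **CLS** (from FRG, KC; 350 lines).  Classification.  `F` a minimal fragment with at least 3 elements, `x ∈ F`, `(T, X, Y)` a 4-separation with `x ∈ T`, `|X|, |Y| ≥ 3`.  `T₂ = NB G F`, `Y₂ = Rst G F`; `a, b, c` = numbers of elements of `T₂ ∩ X, T₂ ∩ T,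
T₂ ∩ Y`; `p = |F ∩ T| ≥ 1`, `q = |Y₂ ∩ T|`, `f₁ = |F ∩ X|`, `f₂ = |F ∩ Y|`, `y₁ = |Y₂ ∩ X|`, `y₂ = |Y₂ ∩ Y|`.  `a + b + c = 4 = p + b + q`, `p + f₁ + f₂ ≥ 3`, `q + y₁ + y₂ ≥ 2`, `f₁ + a + y₁ ≥ 3`, `f₂ + c + y₂ ≥ 3`.  FRG.four for the four corners: `f₁ > 0 → a + b + p ≥ 4`, `f₂ > 0 → c + b + p ≥ 4`,
`y₁ > 0 → a + b + q ≥ 4`, `y₂ > 0 → c + b + q ≥ 4`; FRG.cfrag and minimality (the corner does not contain `x`): `f₁ ≥ 2 → a + b + p ≥ 5`, `f₂ ≥ 2 → c + b + p ≥ 5`.  `omega` (checked by program): `(p, b, q, a, c, f₁, f₂)` is `(1, 2, 1, 1, 1, 1, 1)`, `(2, 0, 2, 2, 2, 1, 0)`, `(2, 0, 2, 2, 2, 0, 1)` or `(2, 0, 2,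
2, 2, 1, 1)`.  Name the elements.  A corner with one element `y` of `F` has `NB G {y} ⊆` the three sets (4 elements), and `y` has at least 4 neighbours: equality.  (be), (ga): `{y, x}` is a proper subset of `F`, so no fragment: `NB G {y, x}` has at least 5 elements (FRG.few: at least 4; the rest has at least 2
elements), and it is contained in `{z} ∪ T₂` resp. `{x'} ∪ T₂`, so it contains `sc` resp. `s₃, s₄`, which are not adjacent to `y ∈ X`. -/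
def SpecCLS : Prop := ∀ {α : Type} [Fintype α] [DecidableEq α] {G : SimpleGraph α} {F T X Y : Finset α} {x : α},
  K48 G → MFrag G F → 3 ≤ F.card → x ∈ F → Sep G T X Y → T.card = 4 → x ∈ T → 3 ≤ X.card → 3 ≤ Y.card →
  (∃ y z sa sc s s' q, TBe G F T X Y x y z sa sc s s' q) ∨
  (∃ x' w s₁ s₂ s₃ s₄ q₁ q₂, TGa G F T X Y x x' w s₁ s₂ s₃ s₄ q₁ q₂) ∨
  (∃ x' w s₁ s₂ s₃ s₄ q₁ q₂, TGa G F T Y X x x' w s₁ s₂ s₃ s₄ q₁ q₂) ∨
  ∃ x' z z' s₁ s₂ s₃ s₄ q₁ q₂, TAl G F T X Y x x' z z' s₁ s₂ s₃ s₄ q₁ q₂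

/-! ## B. Minimal fragments all of whose vertices are nonrigid -/

/-- type A -/
structure TyA {α : Type} (G : SimpleGraph α) (u v w s₁ s₂ s₃ s₄ : α) : Prop where
  nd : [u, v, w, s₁, s₂, s₃, s₄].Nodup
  nv : ∀ r, G.Adj v r ↔ r = u ∨ r = w ∨ r = s₁ ∨ r = s₂
  nw : ∀ r, G.Adj w r ↔ r = u ∨ r = v ∨ r = s₃ ∨ r = s₄
  nu : ∀ r, G.Adj u r ↔ r = v ∨ r = w ∨ r = s₁ ∨ r = s₂ ∨ r = s₃ ∨ r = s₄

/-- type B -/
structure TyB {α : Type} (G : SimpleGraph α) (w x x' s₁ s₂ s₃ s₄ : α) : Prop where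
  nd : [w, x, x', s₁, s₂, s₃, s₄].Nodup
  nw : ∀ r, G.Adj w r ↔ r = x ∨ r = x' ∨ r = s₁ ∨ r = s₂
  nx : ∀ r, G.Adj x r ↔ r = w ∨ r = s₁ ∨ r = s₃ ∨ r = s₄
  nx' : ∀ r, G.Adj x' r ↔ r = w ∨ r = s₂ ∨ r = s₃ ∨ r = s₄

/-- the 4-cycle `z x z' x'` with its four outer neighbours -/
structure Ty4 {α : Type} (G : SimpleGraph α) (x x' z z' s₁ s₂ s₃ s₄ : α) : Prop where
  nd : [x, x', z, z', s₁, s₂, s₃, s₄].Nodup
  nz : ∀ r, G.Adj z r ↔ r = x ∨ r = x' ∨ r = s₁ ∨ r = s₂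
  nz' : ∀ r, G.Adj z' r ↔ r = x ∨ r = x' ∨ r = s₃ ∨ r = s₄
  nx : ∀ r, G.Adj x r ↔ r = z ∨ r = z' ∨ r = s₁ ∨ r = s₃
  nx' : ∀ r, G.Adj x' r ↔ r = z ∨ r = z' ∨ r = s₂ ∨ r = s₄

/-- the graph with 12 vertices -/
structure Gr12 {α : Type} [Fintype α] [DecidableEq α] (G : SimpleGraph α) (x x' z z' s₁ s₂ s₃ s₄ q₁ q₂ q₃ q₄ : α) :
    Prop where
  ty : Ty4 G x x' z z' s₁ s₂ s₃ s₄
  nd : [x, x', z, z', s₁, s₂, s₃, s₄, q₁, q₂, q₃, q₄].Nodup
  vs : VS G = {x, x', z, z', s₁, s₂, s₃, s₄, q₁, q₂, q₃, q₄}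
  n1 : ∀ r, G.Adj s₁ r ↔ r = x ∨ r = z ∨ r = q₁ ∨ r = q₃
  n2 : ∀ r, G.Adj s₂ r ↔ r = x' ∨ r = z ∨ r = q₂ ∨ r = q₃
  n3 : ∀ r, G.Adj s₃ r ↔ r = x ∨ r = z' ∨ r = q₁ ∨ r = q₄
  n4 : ∀ r, G.Adj s₄ r ↔ r = x' ∨ r = z' ∨ r = q₂ ∨ r = q₄
  m1 : ∀ r, G.Adj q₁ r ↔ r = s₁ ∨ r = s₃ ∨ r = q₃ ∨ r = q₄
  m2 : ∀ r, G.Adj q₂ r ↔ r = s₂ ∨ r = s₄ ∨ r = q₃ ∨ r = q₄
  m3 : ∀ r, G.Adj q₃ r ↔ r = s₁ ∨ r = s₂ ∨ r = q₁ ∨ r = q₂
  m4 : ∀ r, G.Adj q₄ r ↔ r = s₃ ∨ r = s₄ ∨ r = q₁ ∨ r = q₂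

/-- the graphs with 10 vertices (`q₁`, `q₂` adjacent or not) -/
structure Gr10 {α : Type} [Fintype α] [DecidableEq α] (G : SimpleGraph α) (x x' z z' s₁ s₂ s₃ s₄ q₁ q₂ : α) :
    Prop where
  ty : Ty4 G x x' z z' s₁ s₂ s₃ s₄
  nd : [x, x', z, z', s₁, s₂, s₃, s₄, q₁, q₂].Nodup
  vs : VS G = {x, x', z, z', s₁, s₂, s₃, s₄, q₁, q₂}
  n1 : ∀ r, G.Adj s₁ r ↔ r = x ∨ r = z ∨ r = q₁ ∨ r = q₂
  n2 : ∀ r, G.Adj s₂ r ↔ r = x' ∨ r = z ∨ r = q₁ ∨ r = q₂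
  n3 : ∀ r, G.Adj s₃ r ↔ r = x ∨ r = z' ∨ r = q₁ ∨ r = q₂
  n4 : ∀ r, G.Adj s₄ r ↔ r = x' ∨ r = z' ∨ r = q₁ ∨ r = q₂

/-- **N3A** (from FRG, CLS; 250 lines).  `|F| = 3`.  By CLS every nontrivial separation through a vertex of `F` is of type (be) or (ga) (SD3).  (be) with middle `x`: `y`, `z` are on different sides, so not adjacent, and `x` is adjacent to both.  So not all three vertices can be the middle of a (be);
let `(ga)` occur: `F = {x, x', w}`, `N(w) = {x, x', s₁, s₂}`, `x`, `x'` adjacent to `w, s₃, s₄`.  Take a separation through `w`.  (be) with middle `w`: `N(x) = {w, sa, s, s'}`, `N(x') = {w, sc, s, s'}`, `w ~ sa, sc`: so `{sa, sc} = {s₁, s₂}`, `{s, s'} = {s₃, s₄}`: type B (perhaps with `s₁`, `s₂` exchanged).  (ga): `F = {w, x₂, w₂}`, `N(w₂) = {w, x₂, two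
elements of NB G F}`, `w`, `x₂` adjacent to the other two.  `w₂ = x` (or `x'`, the same with `x`, `x'` exchanged): `N(x) = {w, x', s₃, s₄}` and `w`, `x'` are adjacent to `s₁, s₂`: `N(x') = {w, x, s₁, …, s₄}`: type A with `u = x'`, `{v, w} = {w, x}`. -/
def SpecN3A : Prop := ∀ {α : Type} [Fintype α] [DecidableEq α] {G : SimpleGraph α} {F : Finset α}, K48 G →
  MFrag G F → F.card = 3 → SD3 G F → (∀ x ∈ F, ¬ Rig G x) →
  (∃ u v w s₁ s₂ s₃ s₄, F = {u, v, w} ∧ TyA G u v w s₁ s₂ s₃ s₄) ∨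
    ∃ w x x' s₁ s₂ s₃ s₄, F = {w, x, x'} ∧ TyB G w x x' s₁ s₂ s₃ s₄

/-- **N3B** (from FRG, CLS; 300 lines).  Type B is impossible if all three vertices are nonrigid.  A separation through `x`: by CLS it is (ga) with corner vertex `w`: [middle of a (be): `w`, `x'` not adjacent: no; (ga) for `{x, w}` with corner vertex `x'`: `x'` would be adjacent to `x`: no]: `T'' = {x, x', q₁, q₂}`, sides `U ∋ w, s₁, s₂`, `V ∋ s₃, s₄`.
A separation through `w` is (be) with middle `w` [(ga) needs adjacent `w₂ ~ w, x₂`: `{w, x}` with corner `x'`: no]: `T''' = {w, s₃, s₄, q'}`, sides `A ∋ x, s₁`, `B ∋ x', s₂`.  Let `i, j, k` be the numbers of `q₁, q₂` in `A`, `B`, `T'''` (`k = 1` iff `q' ∈ {q₁, q₂}`), `i + j + k = 2`, `e = 1` if `q' ∈ U`, otherwise `0`.  Corners `U ∩ A ∋ s₁`,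
`U ∩ B ∋ s₂`: FRG.four: `(1 + i) + k + (1 + e) ≥ 4`, `(1 + j) + k + (1 + e) ≥ 4`.  `k = 1`: `e = 0`, so `i, j ≥ 1`: no.  `k = 0`: `i + e ≥ 2`, `j + e ≥ 2`: `e = 1`, `i = j = 1`.  Then `V ∩ A` is empty: `x` has no neighbour there (`w ∈ T'''`, `s₁ ∈ U`, `s₃, s₄ ∈ T'''`), so `NB G (V ∩ A)` is contained in `{q_i, s₃, s₄}` (FRG.few); in the same way
`V ∩ B` is empty, `V = {s₃, s₄}`: contradiction to SD3. -/
def SpecN3B : Prop := ∀ {α : Type} [Fintype α] [DecidableEq α] {G : SimpleGraph α} {w x x' s₁ s₂ s₃ s₄ : α},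
  K48 G → MFrag G {w, x, x'} → SD3 G {w, x, x'} → ¬ Rig G x → ¬ Rig G w → ¬ TyB G w x x' s₁ s₂ s₃ s₄

/-- **N4A** (from FRG, CLS; 250 lines).  `|F| = 4`.  By CLS all separations through vertices of `F` are (al).  Let `(T, X, Y)` be one through `x`: `F = {x, x', z, z'}`.  A separation through `z` has `T''' ∩ F = {z, r}`; the two other vertices of `F` are corner vertices, adjacent to `z` and `r`, so `z'` (not adjacent to `z`) is
no corner vertex: `r = z'`: `N(x) = {z, z', two of NB G F}`, `N(x') = {z, z', the two others}`.  `N(x) = {z, z', s₁, s₂}` is impossible: `NB G {z, x} = {x', z', s₁, s₂}` would make `{z, x}` a fragment; the same with `{s₃, s₄}`.  So `N(x)` contains one of `s₁, s₂` and one of `s₃, s₄`; rename: `Ty4`.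
The separation `(T''', X'', Y'')` through `z` has `x`, `s₁`, `s₃` on one side and `x'`, `s₂`, `s₄` on the other side (the sides of CLS). -/
def SpecN4A : Prop := ∀ {α : Type} [Fintype α] [DecidableEq α] {G : SimpleGraph α} {F : Finset α}, K48 G →
  MFrag G F → F.card = 4 → SD3 G F → (∀ x ∈ F, ¬ Rig G x) →
  ∃ x x' z z' s₁ s₂ s₃ s₄ q₁ q₂ q₃ q₄ T X Y T' X' Y', Ty4 G x x' z z' s₁ s₂ s₃ s₄ ∧ F = {x, x', z, z'} ∧
    NB G F = {s₁, s₂, s₃, s₄} ∧ Sep G T X Y ∧ Sep G T' X' Y' ∧ T = {x, x', q₁, q₂} ∧ T' = {z, z', q₃, q₄} ∧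
    q₁ ≠ q₂ ∧ q₃ ≠ q₄ ∧ q₁ ∈ Rst G F ∧ q₂ ∈ Rst G F ∧ q₃ ∈ Rst G F ∧ q₄ ∈ Rst G F ∧
    z ∈ X ∧ s₁ ∈ X ∧ s₂ ∈ X ∧ z' ∈ Y ∧ s₃ ∈ Y ∧ s₄ ∈ Y ∧ x ∈ X' ∧ s₁ ∈ X' ∧ s₃ ∈ X' ∧ x' ∈ Y' ∧ s₂ ∈ Y' ∧ s₄ ∈ Y'

/-- **N4B** (from FRG; 350 lines).  The two graphs.  Corners: `X ∩ X' ∋ s₁`, `X ∩ Y' ∋ s₂`, `Y ∩ X' ∋ s₃`, `Y ∩ Y' ∋ s₄`, all not empty; opposite corners have together `8` neighbours (the three sets), so by FRG.four each has exactly 4.  With `k = |{q₁, q₂} ∩ {q₃, q₄}|`, `i₁`, `i₂` the numbers of `q₁, q₂` in `X'`, `Y'`, `j₁`, `j₂` the numbers of `q₃,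
q₄` in `X`, `Y`: `i₁ + k + j₁ = i₂ + k + j₁ = i₁ + k + j₂ = 2`, `i₁ + i₂ + k = 2 = j₁ + j₂ + k`: either `k = 0` and all are `1`, or `k = 2` and all are `0`.  In a corner, say `K = X ∩ X'`, `x` and `z` have only the neighbour `s₁`, so `NB G (K - s₁) ⊆ {s₁} ∪ (NB G K - x - z)` has 3 elements: `K = {s₁}` (FRG.few).  So `VS G` is `F ∪ NB G F ∪ {q₁, …,
q₄}`.  `k = 0`: rename so that `q₁ ∈ X'`, `q₂ ∈ Y'`, `q₃ ∈ X`, `q₄ ∈ Y`: the neighbourhoods of the `s_i` (degree at least 4) follow; `q₁` is not adjacent to `F`, nor to `q₂` (`q₂ ∈ Y'`), nor to `s₂, s₄ ∈ Y'`: `N(q₁) = {s₁, s₃, q₃, q₄}`, and so on: Gr12.  `k = 2`: `{q₁, q₂} = {q₃, q₄}`: Gr10. -/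
def SpecN4B : Prop := ∀ {α : Type} [Fintype α] [DecidableEq α] {G : SimpleGraph α}
  {x x' z z' s₁ s₂ s₃ s₄ q₁ q₂ q₃ q₄ : α} {F T X Y T' X' Y' : Finset α}, K48 G → MFrag G F →
  Ty4 G x x' z z' s₁ s₂ s₃ s₄ → F = {x, x', z, z'} →
  NB G F = {s₁, s₂, s₃, s₄} → Sep G T X Y → Sep G T' X' Y' → T = {x, x', q₁, q₂} → T' = {z, z', q₃, q₄} →
  q₁ ≠ q₂ → q₃ ≠ q₄ → q₁ ∈ Rst G F → q₂ ∈ Rst G F → q₃ ∈ Rst G F → q₄ ∈ Rst G F →
  z ∈ X → s₁ ∈ X → s₂ ∈ X → z' ∈ Y → s₃ ∈ Y → s₄ ∈ Y → x ∈ X' → s₁ ∈ X' → s₃ ∈ X' → x' ∈ Y' → s₂ ∈ Y' →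
  s₄ ∈ Y' → (∃ q₁ q₂ q₃ q₄, Gr12 G x x' z z' s₁ s₂ s₃ s₄ q₁ q₂ q₃ q₄) ∨
    ∃ q₁ q₂, Gr10 G x x' z z' s₁ s₂ s₃ s₄ q₁ q₂

/-! ## C. Rigid apices -/

/-- **GFN** (from VKA, LPE, KUR, S3F, PC; 200 lines).  `Gam` as a linear functional.  `J = G - u` is 3-connected, so S3S; for `Z ∈ Z1 (G - {u, w, w'})` LPE.star gives a 2-cycle with the rows `Z, Z` at `uw`, `uw'` and `0` at the other edges at `u`; two such 2-cycles differ by an element of `Z_2(G - u)`, where `vk = 0`; so `Z ↦ vk` is well defined and linear on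
`Z1 (G - {u, w, w'})` (any order, VKA.inv); extend it to an edge function.  Torus rule: the torus of `chi P + chi {uw, uw'}` (a cycle) and `Z` has these rows, `vk = 0` (VKA.tor). -/
def SpecGFN : Prop := ∀ {α : Type} [Fintype α] [DecidableEq α] {G : SimpleGraph α} {u w w' : α}, KConn 4 G →
  ¬ NP (del G {u}) → G.Adj u w → G.Adj u w' → w ≠ w' →
  ∃ a : Chain α, (∀ Z ∈ Z1 (del G {u, w, w'}), (Gam G u w w' Z ↔ pr a Z ≠ 0)) ∧
    ∀ P, IsPth (del G {u}) w w' P → ∀ Z ∈ Z1 (del G (insert u (vs P))), pr a Z = 0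

/-- **MNZ** (from NCG, NCN, PC, PC2; 150 lines).  A cycle without chords.  NCG gives `w, w', Z`; `Z` is a sum of chains of cycles of `G - {u, w, w'}` (exists_decomp), by NCN.lin one of them is `Gam`.  Take a cycle `C` of `G - {u, w, w'}` with `Gam (chi C)` and the smallest number of edges.  A chord `ab` (`a, b ∈ vs C`, `s(a, b) ∉ C`) splits `C` into two
paths `P`, `Q` (`IsCyc.split`), each with at least two edges; `chi C = chi (P + ab) + chi (Q + ab)`, by NCN.lin one of these two shorter cycles is `Gam`. -/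
def SpecMNZ : Prop := ∀ {α : Type} [Fintype α] [DecidableEq α] {G : SimpleGraph α} {u : α}, K48 G → Rig G u →
  u ∈ VS G → NP G → ¬ NP (del G {u}) → ∃ w w' C, IsCyc G C ∧ Gam G u w w' (chi C) ∧
    ∀ a b, a ∈ vs C → b ∈ vs C → G.Adj a b → s(a, b) ∈ C

/-- setting of the two-fragment lemma: `u` is a rigid apex in the fragment `X`, `F` a fragment in the rest, all its vertices are rigid apices -/
structure TFS {α : Type} [Fintype α] [DecidableEq α] (G : SimpleGraph α) (X F : Finset α) (u w w' : α)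
    (C : Finset (Sym2 α)) : Prop where
  k48 : K48 G
  no2 : No2 G
  frX : Frag G X
  frF : Frag G F
  sub : F ⊆ Rst G X
  uX : u ∈ X
  ru : Rig G u
  pu : ¬ NP (del G {u})
  rF : ∀ v ∈ F, Rig G v ∧ ¬ NP (del G {v})
  cyc : IsCyc G C
  gam : Gam G u w w' (chi C)
  ch : ∀ a b, a ∈ vs C → b ∈ vs C → G.Adj a b → s(a, b) ∈ C

/-- **TFA** (from FRG, GAL; 200 lines).  `F` is contained in `C`.  `w`, `w'` are neighbours of `u ∈ X`, so in `X ∪ NB G X`; `X` and `Rst G X` are not adjacent, `F ⊆ Rst G X`.  (i) A neighbour `t ∈ NB G X` of `u` has a second neighbour in `X`, a vertex `t ∈ NB G F` adjacent to `v ∈ F` has a second neighbour in `F`: FRG.one (`u`, `v` rigid, `|X|, |F| ≥ 3` by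
No2).  Let `v ∈ F`, `v ∉ vs C`.  GAL: `y ∈ {w, w'}`, `N(y) = {u, v, p, q}`, `s(p, q) ∈ C` (so `p ~ q`).  `y ~ v`, so `y ∈ NB G X ∩ NB G F` (`y ∉ F` as `y ∈ X ∪ NB G X`; `y ∉ X` as `v ∈ Rst G X`).  By (i) one of `p`, `q` is in `X` and the other in `F`: not adjacent. -/
def SpecTFA : Prop := ∀ {α : Type} [Fintype α] [DecidableEq α] {G : SimpleGraph α} {X F : Finset α} {u w w' : α}
  {C : Finset (Sym2 α)}, TFS G X F u w w' C → F ⊆ vs C

/-- **TFB** (from FRG, NCN, PC, KC; 350 lines).  Contradiction.  `N = NB G F`; `X ∩ N = ∅`.  Each `v ∈ F` has exactly two neighbours on `C` (no chords); its other neighbours (at least 2) are in `N \ vs C`.  So `|N ∩ vs C| ≤ 2`.  (1) `|N ∩ vs C| = 2`: all `v ∈ F` are adjacent to the two elements `t, t'` of `N \ vs C`.  Two elements `v, v'` of `F` which are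
neighbours on `C`: `NB G {v, v'}` has `≤ 4` elements, `{v, v'}` is a fragment (FRG.few): No2.  Otherwise all `C`-neighbours of elements of `F` are in `N ∩ vs C`, each of these two vertices has only two `C`-neighbours, but `|F| ≥ 3`.  (2) `|N ∩ vs C| ≤ 1`.  Then `vs C ⊆ F ∪ N`: the edges of `C` with an end in `F` form a nonempty chain in `Z1 G` (boundary `0` at the vertices of
`F` and at all vertices except perhaps the one in `N ∩ vs C`, hence everywhere, the sum of all boundaries is `0`), so it is `chi C` (IsCyc.eq_of_subset, exists_isCyc_of_ne_zero).  By NCN.sep `w`, `w'` are not connected in `G - u - vs C`.  Let `P` be the set of the vertices connected to `w` in `G - u - vs C`, `P'` the same for `w'`.  One of `P`, `P'`, say `P` (the situation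
is symmetric: GAL, Gam are symmetric in `w`, `w'`; `Gam G u w' w`), satisfies `|P ∩ N| + |N ∩ vs C| ≤ 2` (`|N| = 4`, if `|N ∩ vs C| = 1` then `|P ∩ N| + |P' ∩ N| ≤ 3`).  The vertices of `P - N` are not in `F` and not adjacent to `F`, so `NB G (P - N) ⊆ {u} ∪ (P ∩ N) ∪ (N ∩ vs C)` has at most 3 elements: FRG.few (with `r ∈ F`): `P ⊆ N`.  So `w ∈ N`, `w ∉ X`,
`w ∈ NB G X`; by FRG.one `w` has a neighbour `x ∈ X - u`, `x ∉ vs C` (`vs C ⊆ F ∪ N`), so `x ∈ P ⊆ N`: but `X ∩ N = ∅`. -/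
def SpecTFB : Prop := ∀ {α : Type} [Fintype α] [DecidableEq α] {G : SimpleGraph α} {X F : Finset α} {u w w' : α}
  {C : Finset (Sym2 α)}, TFS G X F u w w' C → F ⊆ vs C → False

/-- **TFL** (from MNZ, TFA, TFB; 20 lines).  TWO-FRAGMENT LEMMA. -/
def SpecTFL : Prop := ∀ {α : Type} [Fintype α] [DecidableEq α] {G : SimpleGraph α} {X F : Finset α} {u : α},
  K48 G → No2 G → NP G → Frag G X → Frag G F → F ⊆ Rst G X → u ∈ X → Rig G u → ¬ NP (del G {u}) →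
  ¬ ∀ v ∈ F, Rig G v ∧ ¬ NP (del G {v})

/-- all vertices are rigid apices of degree 4 -/
structure AR4 {α : Type} [Fintype α] [DecidableEq α] (G : SimpleGraph α) : Prop where
  k48 : K48 G
  np : NP G
  rig : ∀ v ∈ VS G, Rig G v
  deg : ∀ v ∈ VS G, dg G v = 4
  apx : ∀ v ∈ VS G, ¬ NP (del G {v})

/-- configuration on the way to `K₃ □ K₃` -/
structure Cf5 {α : Type} [Fintype α] [DecidableEq α] (G : SimpleGraph α) (u w w' v v' p q q' : α)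
    (C : Finset (Sym2 α)) : Prop where
  nd : [u, w, w', v, v', p, q, q'].Nodup
  cyc : IsCyc G C
  gam : Gam G u w w' (chi C)
  ch : ∀ a b, a ∈ vs C → b ∈ vs C → G.Adj a b → s(a, b) ∈ C
  vs : VS G = DL.vs C ∪ {u, w, w', v, v'}
  off : ∀ x ∈ ({u, w, w', v, v'} : Finset α), x ∉ DL.vs C
  nw : ∀ r, G.Adj w r ↔ r = u ∨ r = v ∨ r = p ∨ r = q
  nw' : ∀ r, G.Adj w' r ↔ r = u ∨ r = v' ∨ r = q ∨ r = q'
  nq : ∀ r, G.Adj q r ↔ r = p ∨ r = q' ∨ r = w ∨ r = w'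
  pq : s(p, q) ∈ C
  qq : s(q, q') ∈ C
  pv : G.Adj p v'
  qv : G.Adj q' v
  npq : ¬ G.Adj p q'
  nup : ¬ G.Adj u p ∧ ¬ G.Adj u q ∧ ¬ G.Adj u q'
  nvp : ¬ G.Adj v p ∧ ¬ G.Adj v' q'

/-- **R5A** (from MNZ, GAL, NCN, FRG, PC; 350 lines).  (F1') Adjacent vertices have at most one common neighbour: `NB G {x, y}` has at least 5 elements (otherwise `{x, y}` would be a fragment, its neighbours are not rigid; `n ≥ 8`).  Take any `u`, MNZ; `C` has no chord, so each `z ∈ vs C` has exactly two neighbours outside `vs C`; `u, w, w' ∉ vs C` (`chi C ∈ Z1 (del G {u, w, w'})`),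
`w`, `w'` not adjacent (NCN.nadj).  Let `J` be the set of the other vertices not in `vs C`.  For `v ∈ J` GAL gives `y ∈ {w, w'}` with `N(y) = {u, v, p, q}`, `p, q ∈ vs C`: `v` is determined by `y`, so `|J| ≤ 2`.  `J = ∅`: edges between `vs C` and `{u, w, w'}`: `2 (n - 3) ≤ 2 + 3 + 3`: contradiction.  Let `v ∈ J`, `y = w` (say): `w`, `p` have the common neighbour `q`, `w`, `q`
have the common neighbour `p`, so (F1') `u`, `v` are adjacent neither to `p` nor to `q`.  `|J| = 1`: the second neighbour outside `vs C` (besides `w`) of `p` and of `q` can only be `w'`: two common neighbours of `p`, `q`.  `|J| = 2`: `v`, `v'`, `N(w) = {u, v, p, q}`, `N(w') = {u, v', p', q'}` (`y` for `v'` is `w'`).  `p` and `q` are adjacent to `w'` or `v'`, not both to the same one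
(F1'; `w` is already a common neighbour): name them so that `q ~ w'`, `p ~ v'`; in the same way one of `p'`, `q'` is adjacent to `w`, i.e. in `{p, q}`, it is `q` (`p ≁ w'`): name `p' = q`; `q'` is adjacent to `v`, not to `w`.  `q` has the neighbours `p`, `q'` on `C` and `w, w'`.  `p ≁ q'`: otherwise `p`, `q` have the common neighbours `w`, `q'`.  (F1') for `w'q'` (common neighbour `q`): `u, v' ≁ q'`. -/
def SpecR5A : Prop := ∀ {α : Type} [Fintype α] [DecidableEq α] {G : SimpleGraph α}, AR4 G →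
  ∃ u w w' v v' p q q' C, Cf5 G u w w' v v' p q q' C

/-- `K₃ □ K₃` -/
def K3K3 {α : Type} [Fintype α] [DecidableEq α] (G : SimpleGraph α) : Prop :=
  ∃ f : Fin 3 → Fin 3 → α, (∀ i j k l, f i j = f k l → i = k ∧ j = l) ∧ (∀ x ∈ VS G, ∃ i j, x = f i j) ∧
    ∀ i j k l, G.Adj (f i j) (f k l) ↔ (i = k ∧ j ≠ l) ∨ (i ≠ k ∧ j = l)

/-- **R5B** (from GAL, NCN, PC; 300 lines).  (1) `v ≁ v'`: NCN.sep (`w ~ v`, `w' ~ v'`).  (2) Every cycle `C₂` of `G - {u, w, w'}` with `Gam (chi C₂)` contains all `t ∈ vs C`: otherwise GAL gives `y ∈ {w, w'}`, `N(y) = {u, t, p₂, q₂}`, `p₂ ~ q₂`: `y = w`: `{t, p₂, q₂} = {v, p, q}`, `t ∈ {p, q}`, so `v` is adjacent to `p` or `q`: no (`nvp`, `nq`).  `y = w'`: `v' ~ q` or `v' ~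
q'`: no.  (3) If `v ~ a, b ∈ vs C`, `a ≠ b`, then `a ~ b`: the two arcs of `C` with the path `a v b` are two cycles `C₁, C₂` of `G - {u, w, w'}`, `chi C = chi C₁ + chi C₂`, NCN.lin, (2): one arc has no inner vertex.  So `N(v) ∩ vs C ⊆ {q', z₁}`, `z₁` the other `C`-neighbour of `q'` (`v ≁ q`); `v` has degree 4 and `v ≁ v', w'`: `N(v) = {w, u, q', z₁}`.
In the same way `N(v') = {w', u, p, z₂}`, `z₂` the other `C`-neighbour of `p`.  `N(u) = {w, w', v, v'}`.  (4) A vertex `z ∈ vs C`, `z ≠ p, q, q'` (exists: `p ≁ q'`; e.g. `z₁`) has two neighbours outside `vs C`, not `u`, `w`, `w'`: so `v` and `v'`: `z = z₁ = z₂`.  So `vs C = {p, q, q', z}`, `n = 9`.  Rows `(u, w, v)`, `(w', q, q')`, `(v', p, z)`. -/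
def SpecR5B : Prop := ∀ {α : Type} [Fintype α] [DecidableEq α] {G : SimpleGraph α} {u w w' v v' p q q' : α}
  {C : Finset (Sym2 α)}, AR4 G → Cf5 G u w w' v v' p q q' C → K3K3 G

/-- **N62** (from FRG, NPM, CLS, KC; 300 lines).  `F` a fragment with 3 elements containing a nonrigid vertex `x`; all rigid vertices are apices.  Then all vertices of `Rst G F` are nonrigid.  CLS: (be) or (ga) (`F` is minimal by No2).  Let `r ∈ Rst G F` be rigid, `Y = Rst G F`, `T = NB G F`.  We show that `G - r` is nonplanar.  Every component `K` of `G[Y - r]` (set of the vertices connected to a given one in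
`del G (VS G \ (Y - r))`) has `NB G K ⊆ {r} ∪ T`.  (A) Some `K` is adjacent to all of `T`: (ga): NPM.k33 for `del G {r}`: `{s₃}, {s₄}, {w}` and `{x}, {x'}, K ∪ {s₁}`.  (be): `{s}, {s'}, {x}` and `{y}, {z}, K ∪ {sa}`.  (B) Otherwise every `K` misses some `t ∈ T`: `NB G K ⊆ {r} ∪ (T - t)`, by FRG.few equality, a 4-cut through `r`, `F` on the other side: `K = {k}`,
`N(k) = {r} ∪ (T - t_k)`.  `t_k ≠ t_k'` for `k ≠ k'` (otherwise `{k, k'}` is a fragment: No2).  `|Y| ≥ 3` (No2, FRG.rst), so there are at least two `k`.  (ga): if some `t_k ∈ {s₁, s₂}` use `{k, s_j}` (`s_j` the other one of `s₁, s₂`) instead of `K ∪ {s₁}`; otherwise there are exactly two `k`, `t_{k₁} = s₃`, `t_{k₂} = s₄`: use `{k₁, s₁, k₂}`.  (be): the same with `sa, sc` for `s₁,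
s₂` and `s, s'` for `s₃, s₄` (`x ~ sa, sc`). -/
def SpecN62 : Prop := ∀ {α : Type} [Fintype α] [DecidableEq α] {G : SimpleGraph α} {F : Finset α}, K48 G → No2 G →
  (∀ u ∈ VS G, Rig G u → ¬ NP (del G {u})) → Frag G F → F.card = 3 → (∃ x ∈ F, ¬ Rig G x) →
  ∀ r ∈ Rst G F, ¬ Rig G r

/-- **N6A** (from FRG, NPM, KC; 250 lines).  `F = {x, x', z, z'}` minimal, `N(z) = {x, x', s₁, s₂}`, `N(z') = {x, x', s₃, s₄}`, `NB G F = {s₁, …, s₄}`, `x ~ s₁, s₂`; all rigid vertices are apices.  Then all vertices of `Rst G F` are nonrigid.  `r ∈ Rst G F` rigid: cases (A), (B) as in N62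
(components of `G[Rst G F - r]`).  NPM.k33 for `del G {r}`: `{s₁}, {s₂}, {x', z', s_j}` and `{z}, {x}, K`, where `K` is adjacent to `s₁, s₂, s_j`, `s_j ∈ {s₃, s₄}`: `x' ~ z', z`, `z' ~ x, s_j`.  (A): any `j`.  (B): `K = {k}`, `t_k ∈ {s₃, s₄}`, `s_j` the other one.  If all `t_k ∈ {s₁, s₂}`: they are
different and there are at least two `k` (`|Rst G F| ≥ 3`), so `N(k₁) = {r, s₂, s₃, s₄}`, `N(k₂) = {r, s₁, s₃, s₄}`: `K = {k₁, s₃, k₂}`, `j = 4`. -/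
def SpecN6A : Prop := ∀ {α : Type} [Fintype α] [DecidableEq α] {G : SimpleGraph α} {F : Finset α}
  {x x' z z' s₁ s₂ s₃ s₄ : α}, K48 G → No2 G → (∀ u ∈ VS G, Rig G u → ¬ NP (del G {u})) → MFrag G F →
  F = {x, x', z, z'} → NB G F = {s₁, s₂, s₃, s₄} → [x, x', z, z', s₁, s₂, s₃, s₄].Nodup →
  (∀ v, G.Adj z v ↔ v = x ∨ v = x' ∨ v = s₁ ∨ v = s₂) → (∀ v, G.Adj z' v ↔ v = x ∨ v = x' ∨ v = s₃ ∨ v = s₄) →
  G.Adj x s₁ → G.Adj x s₂ → ∀ r ∈ Rst G F, ¬ Rig G r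

/-- **STB** (from PC2; 100 lines).  A functional which vanishes on `Z1 (L - A)` and on `Z1 (L - B)` vanishes on `Z1 L` if there are no edges between `A` and `B` and `L - A - B` is connected.  `cut` for `del L A` gives `s` with `a (ij) = s i + s j` on its edges; add `cob s` (cob_orth): `a = 0` on the edges of `del L A`.  `cut` for `del L B`: `t`; on the edges of `L - A - B` `t i + t j
= 0`, so `t` is constant on its vertices (`ConnOff`; isolated vertices do not matter); add the constant: `t = 0` there, put `t = 0` on `B`.  Then `a = cob t` on all edges of `L`. -/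
def SpecSTB : Prop := ∀ {α : Type} [Fintype α] [DecidableEq α] (L : SimpleGraph α) (A B : Finset α),
  (∀ a ∈ A, ∀ b ∈ B, ¬ L.Adj a b) → Disjoint A B → ConnOff L (A ∪ B) → ∀ a : Chain α,
  (∀ Z ∈ Z1 (del L A), pr a Z = 0) → (∀ Z ∈ Z1 (del L B), pr a Z = 0) → ∀ Z ∈ Z1 L, pr a Z = 0

/-- **N6B** (from NCG, GFN, NCN, STA, STB, FRG, KC; 400 lines).  `F = {x, x', z, z'}`, `N(z) = {x, x', s₁, s₂}`, `N(z') = {x, x', s₃, s₄}`, `N(x) = {z, z', s₁, s₃}` and perhaps `x'`, `N(x') = {z, z', s₂, s₄}` and perhaps `x`; a separation `({x, x', q₁, q₂}, X, Y)`, `z, s₁, s₂ ∈ X`, `z', s₃, s₄ ∈ Y`.  If `z` is rigid then `G - z` is nonplanar.  Otherwise NCG gives a pair `k, l` of neighbours of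
`z` and `Z` with `Gam G z k l Z`.  Let `a` be the functional of GFN for `k, l` (on `Z1 (G - {z, k, l})`), it vanishes on `Z1` of the
complement of a `k`-`l` path of `G - z`; we show that it is `0`.  `D₁ = X - z`, `D₂ = Y - z'`.  FACTS: a component `K` of `G[D₁]` without `s₂` has `NB G K ⊆ {z, x, q₁, q₂}` and `NB G (K - s₁) ⊆ {s₁, q₁, q₂}`: `K = {s₁}`; so `G[D₁]` is connected or `D₁ = {s₁, s₂}`, `N(s₁) = {z, x, q₁, q₂}`, `N(s₂) = {z, x', q₁, q₂}`; the same for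
`D₂`; not both are disconnected (`{q₁, q₂}` would be a fragment: No2).  `q₁`, `q₂` have neighbours in `D₁` and in `D₂` (`NB G D₁ = {z, x, x', q₁, q₂}`; if `q₁` has no neighbour in `D₂`: `NB G (D₂ ∪ {z'}) ⊆ {x, x', q₂}`), so `G[D₂ ∪ {q₁, q₂}]` and `G[D₁ ∪ {q₁, q₂}]` are connected.  Adjacent pairs `{k, l}` (as `xs₁`, `x's₂`): NCN.nadj.
PAIR `s₁s₂`: `L = G - {z, s₁, s₂}`.  Path `s₁ x z' x' s₂`: `a = 0` on `Z1 (L - {x, x', z'})`.  `G[D₁]` connected: path `s₁ … s₂` in `D₁`: `a = 0` on `Z1 (L - (D₁ - s₁ - s₂))`; `x, x', z'` are not adjacent to `D₁ - s₁ - s₂`, `L` without both sets is `G[D₂ ∪ {q₁, q₂}]`: STB.  `D₁ = {s₁, s₂}`: paths `s₁ q₁ s₂`, `s₁ q₂ s₂`: `a = 0` on `Z1 (L - q₁)`, `Z1 (L - q₂)`; STA (`L - q₁ - q₂ = G[Y ∪ {x, x'}]` is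
connected): `a = c Z (q₁q₂)`; if `q₁ ~ q₂` a cycle through `q₁q₂` in `G[D₂ ∪ {q₁, q₂}]` (connected without this edge) avoids `x, x', z'`: `c = 0`.
PAIR `xx'`: path `x z' x'`; `L = G - {z, x, x'}`: `a = 0` on `Z1 (L - z')`.  In `L` `z'` has the neighbours `s₃, s₄`; for `Z` through `z'` it is enough to have one cycle `Z₀` through `z'` with `a (Z₀) = 0`.  If `G[D₁]`, `G[D₂]` are connected: `Z₀ = z' s₃ … s₄` in `Y`, path `x s₁ … s₂ x'` in `D₁`.  If `D₁ = {s₁, s₂}`: `Z₀` in `Y`, path `x s₁ q₁ s₂ x'`.  If `D₂ = {s₃, s₄}`: `Z₀ = z' s₃ q₂ s₄`, path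
`x s₁ … s₂ x'` in `D₁`.
PAIR `xs₂`: `L = G - {z, x, s₂}`; path `x z' x' s₂`: `a = 0` on `Z1 (L - {z', x'})`.  `G[D₁]` connected: path `x s₁ … s₂`: `a = 0` on `Z1 (L - (D₁ - s₂))`; `x'`, `z'` are not adjacent to `D₁ - s₂`; STB (`G[D₂ ∪ {q₁, q₂}]` connected).  `D₁ = {s₁, s₂}`: paths `x s₁ q₁ s₂`, `x s₁ q₂ s₂`: STA for `L - s₁` (`L - {s₁, q₁, q₂} = G[Y ∪ {x'}]` connected): `a = c Z (q₁q₂)` on `Z1 (L - s₁)`, `c = 0` as before;
STB with `{z', x'}` and `{s₁}`.  PAIR `x's₁`: exchange the names (`x, s₁, s₃` with `x', s₂, s₄`). -/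
def SpecN6B : Prop := ∀ {α : Type} [Fintype α] [DecidableEq α] {G : SimpleGraph α}
  {x x' z z' s₁ s₂ s₃ s₄ q₁ q₂ : α} {T X Y : Finset α}, K48 G → No2 G → NP G → Sep G T X Y →
  T = {x, x', q₁, q₂} → [x, x', z, z', s₁, s₂, s₃, s₄, q₁, q₂].Nodup →
  z ∈ X → s₁ ∈ X → s₂ ∈ X → z' ∈ Y → s₃ ∈ Y → s₄ ∈ Y →
  (∀ v, G.Adj z v ↔ v = x ∨ v = x' ∨ v = s₁ ∨ v = s₂) → (∀ v, G.Adj z' v ↔ v = x ∨ v = x' ∨ v = s₃ ∨ v = s₄) →
  (∀ v, v ≠ x' → (G.Adj x v ↔ v = z ∨ v = z' ∨ v = s₁ ∨ v = s₃)) →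
  (∀ v, v ≠ x → (G.Adj x' v ↔ v = z ∨ v = z' ∨ v = s₂ ∨ v = s₄)) →
  Rig G z → NP (del G {z})

/-- **N6C** (from FRG, CLS, N4A, N4B, N6A, N6B; 200 lines).  `F` minimal of type (al) (for a nonrigid `x ∈ F`), all rigid vertices are apices.  Then `Gr12 G` for some labels, or all vertices of `Rst G F` are nonrigid.  If `z`, `z'` are both nonrigid: `x'` is nonrigid too (it is in the cut), N4A, N4B: Gr12, or Gr10: `NB G {q₁, q₂} ⊆ {s₁, …, s₄}`: No2.  So `z` or `z'` is rigid (exchange the names: `z`).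
By minimality of `F` `{z, x}`, `{z', x}`, `{z, x'}`, `{z', x'}` and `{z, x, x'}`, `{z', x, x'}` are no fragments: `N(x)` contains elements of `{s₁, s₂}` and of `{s₃, s₄}`, the same for `x'`, and `N(x) ∪ N(x')` contains all `s_i`.  If `x ~ s₁, s₂` or `x ~ s₃, s₄` or the same for `x'`: N6A (with names exchanged).  Otherwise `x` is adjacent to exactly one of `s₁, s₂` (call it `s₁`) and
one of `s₃, s₄` (`s₃`), `x'` to `s₂`, `s₄`: N6B: `z` is no apex. -/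
def SpecN6C : Prop := ∀ {α : Type} [Fintype α] [DecidableEq α] {G : SimpleGraph α} {F T X Y : Finset α}
  {x x' z z' s₁ s₂ s₃ s₄ q₁ q₂ : α}, K48 G → No2 G → NP G → (∀ u ∈ VS G, Rig G u → ¬ NP (del G {u})) → MFrag G F →
  Sep G T X Y → TAl G F T X Y x x' z z' s₁ s₂ s₃ s₄ q₁ q₂ →
  (∃ x x' z z' s₁ s₂ s₃ s₄ q₁ q₂ q₃ q₄, Gr12 G x x' z z' s₁ s₂ s₃ s₄ q₁ q₂ q₃ q₄) ∨ ∀ r ∈ Rst G F, ¬ Rig G r

/-- **N6D** (from FRG, CLS, N3A, N3B, N4A, N4B, TFL, N62, N6C, R5A, R5B; 200 lines).  THE E-THEOREM.  If there is no fragment then all vertices are rigid: AR4: K3K3.  By No2 all sides of nontrivial 4-separations have at least 3 vertices.  (1) If there is a minimal fragment `F` with a nonrigid vertex: by CLS `|F| = 3` or (al).  `|F| = 3`: N62; (al): N6C.  So Gr12 or all vertices of `Rst G F` are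
nonrigid; take a minimal fragment `F₂ ⊆ Rst G F` (FRG.rst, FRG.min): all vertices are nonrigid, `|F₂| = 3` or `4` (CLS): N3A, N3B (type A), or N4A, N4B: Gr12, or Gr10 (impossible: No2).  (2) Otherwise all vertices of all minimal fragments are rigid apices: take a minimal fragment `X` and a minimal fragment in `Rst G X`: TFL. -/
def SpecN6D : Prop := ∀ {α : Type} [Fintype α] [DecidableEq α] {G : SimpleGraph α}, K48 G → No2 G → NP G →
  (∀ u ∈ VS G, Rig G u → dg G u = 4 ∧ ¬ NP (del G {u})) →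
  K3K3 G ∨ (∃ x x' z z' s₁ s₂ s₃ s₄ q₁ q₂ q₃ q₄, Gr12 G x x' z z' s₁ s₂ s₃ s₄ q₁ q₂ q₃ q₄) ∨
    ∃ u v w s₁ s₂ s₃ s₄, TyA G u v w s₁ s₂ s₃ s₄ ∧ MFrag G {u, v, w}

/-! ## D. Type A -/

/-- **A6C** (from FRG, CLS, KC; 300 lines).  Type A: all `dst G u P`, `P ⊆ {v, w, s_i}`, `|P| ≤ 2`, are in C1, and `dst G u {v, w, s_i}` is 3-connected.  `J = G - u` is 3-connected and `u` keeps at least 3 neighbours: `dst G u P` is 3-connected.  A separation `(S, A, B)` of `dst G u P` with `|S| = 3`, `|A|, |B| ≥ 2`: `u ∉ S` (otherwise a 2-separation of `J`), say `u ∈ B`: `(insert u S, A, B - u)` is a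
4-separation of `G`, `|A| ≥ 2`, `B - u ≠ ∅`, all neighbours of `u` in `A` are in `P`.  (1) `|B - u| ≥ 2`: nontrivial, by SD3, CLS for `F = {u, v, w}`, `x = u`: (be) with middle `u` is impossible (`v ~ w`); (ga): corner vertex `v` or `w`, the sides contain `{v, s₁, s₂}` and `{s₃, s₄}`, or `{w, s₃, s₄}` and `{s₁, s₂}`: so `A` contains `s₁, s₂` or `s₃, s₄`, which are neighbours of `u` not both in `P`
(`P ⊆ {v, w, s_i}`).  (2) `B - u = {b}`: `N(b) = insert u S`, `b ~ u`; all neighbours of `u` except those in `{b} ∪ S` are in `P`.  `b = v`: `s₃, s₄ ∈ P`: no; `b = w`: `s₁, s₂ ∈ P`: no.  `b = s_j`: at least four of the six neighbours of `u` are in `{b} ∪ S`, so `N(b) ⊆ {u, v, w, s₁, …, s₄}`; but `s_j` has a neighbour in `Rst G {u, v, w}` (FRG.attach). -/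
structure SpecA6C : Prop where
  c1 : ∀ {α : Type} [Fintype α] [DecidableEq α] {G : SimpleGraph α} {u v w s₁ s₂ s₃ s₄ s : α}, K48 G →
    TyA G u v w s₁ s₂ s₃ s₄ → MFrag G {u, v, w} → SD3 G {u, v, w} → (s = s₁ ∨ s = s₂ ∨ s = s₃ ∨ s = s₄) →
    ∀ P ⊆ ({v, w, s} : Finset α), P.card ≤ 2 → C1 (dst G u P)
  k3 : ∀ {α : Type} [Fintype α] [DecidableEq α] {G : SimpleGraph α} {u v w s₁ s₂ s₃ s₄ s : α}, K48 G →
    TyA G u v w s₁ s₂ s₃ s₄ → (s = s₁ ∨ s = s₂ ∨ s = s₃ ∨ s = s₄) → ∀ P ⊆ ({v, w, s} : Finset α), KConn 3 (dst G u P)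

/-- **A6N** (from NPM, FRG, KC; 150 lines).  Type A: all `dst G u P`, `P ⊆ {v, w, s_i}`, are nonplanar.  Let `K` be a component of `Rst G {u, v, w}`: `NB G K ⊆ {s₁, …, s₄}`, so (FRG.few) it is adjacent to all `s_j`.  NPM.k33: `{u}, {v, w}, K` and `{s_j}`, `j ≠ i`. -/
def SpecA6N : Prop := ∀ {α : Type} [Fintype α] [DecidableEq α] {G : SimpleGraph α} {u v w s₁ s₂ s₃ s₄ s : α}, K48 G →
  TyA G u v w s₁ s₂ s₃ s₄ → Frag G {u, v, w} → (s = s₁ ∨ s = s₂ ∨ s = s₃ ∨ s = s₄) →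
  ∀ P ⊆ ({v, w, s} : Finset α), NP (dst G u P)

/-- **NO2** (from F2C, FRG; 20 lines).  No (3,3)-, (3,4)-, (4,4)-pairs and no twins: no fragment with two vertices. -/
def SpecNO2 : Prop := ∀ {α : Type} [Fintype α] [DecidableEq α] {G : SimpleGraph α}, K48 G → No33 G → No34 G →
  No44 G → NoTW G → No2 G

/-! ## E. (3,3)-pairs: the graph `M = contr (contr G x s₂) y s₁`.  `H = del G {x, y}` -/

/-- no edge from `s₁`, `s₂` to `s₃`, `s₄` -/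
def E4 {α : Type} (G : SimpleGraph α) (s₁ s₂ s₃ s₄ : α) : Prop :=
  ¬ G.Adj s₁ s₃ ∧ ¬ G.Adj s₁ s₄ ∧ ¬ G.Adj s₂ s₃ ∧ ¬ G.Adj s₂ s₄

/-- **C20** (from NBF, CCL, F1N, KC; 250 lines).  `two`: NBF.off (`x` resp. `y` has only one neighbour left), except for `{x, y, s₁, s₂}`: a component `K` of the rest has `NB G K ⊆ {s₁, s₂} ∪` (`{x, y}` if `s₃` or `s₄ ∈ K`), so it contains `s₃` or `s₄`; two components `K ∋ s₃`, `K' ∋ s₄`: `NB G (K - s₃) ⊆ {s₃, s₁, s₂}`: `K = {s₃}`, `K' = {s₄}`, `n = 6`.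
`three`: `{x, y, s₁, s₂, s_i}`: every component contains `s_j`; `{x, y, s₁, s₃, s₄}`: every component contains `s₂` (`y` has no neighbour left); `{x, y, s₂, s₃, s₄}`: every component contains `s₁`.  `c1`: CCL.  Let `(S, P, Q)` be a 4-separation, `x, s₂ ∈ S`, `|P|, |Q| ≥ 2`.  `x` has neighbours in `P` and in `Q`, among `y, s₃, s₄`; `y ~ s₃, s₄`, so `y ∈ S`, `S = {x, y, s₂, q}`, `s₃ ∈ P`,
`s₄ ∈ Q` (say); `s₁ ∉ P` or `s₁ ∉ Q`, say `Q`: `NB G (Q - s₄) ⊆ {s₄, s₂, q}`: `Q = {s₄}`. -/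
structure SpecC20 : Prop where
  two : ∀ {α : Type} [Fintype α] [DecidableEq α] {G : SimpleGraph α} {x y s₁ s₂ s₃ s₄ : α}, K48 G →
    P33 G x y s₁ s₂ s₃ s₄ → ConnOff G {x, y, s₁, s₂} ∧ ConnOff G {x, y, s₃, s₄} ∧ ConnOff G {x, y, s₁, s₃} ∧
      ConnOff G {x, y, s₁, s₄} ∧ ConnOff G {x, y, s₂, s₃} ∧ ConnOff G {x, y, s₂, s₄}
  three : ∀ {α : Type} [Fintype α] [DecidableEq α] {G : SimpleGraph α} {x y s₁ s₂ s₃ s₄ : α}, K48 G →
    P33 G x y s₁ s₂ s₃ s₄ → ConnOff G {x, y, s₁, s₂, s₃} ∧ ConnOff G {x, y, s₁, s₂, s₄} ∧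
      ConnOff G {x, y, s₁, s₃, s₄} ∧ ConnOff G {x, y, s₂, s₃, s₄}
  c1 : ∀ {α : Type} [Fintype α] [DecidableEq α] {G : SimpleGraph α} {x y s₁ s₂ s₃ s₄ : α}, K48 G →
    P33 G x y s₁ s₂ s₃ s₄ → C1 (contr G x s₂) ∧ C1 (contr G y s₁) ∧ C1 (contr G s₂ x) ∧ C1 (contr G s₁ y)

/-- **MCT** (from C20, FRG, KC; 200 lines).  `M` is in C1 or there is a bad cut.  `contr (contr G x s₂) y s₁ = contr (contr G y s₁) x s₂`.  A separation `(S, P, Q)` of `M`, `|S| ≤ 3`: if `y ∉ S` it lifts to a separation of `contr G x s₂` of the same order, if `x ∉ S` to one of `contr G y s₁` (both in C1).  If `x, y ∈ S`: `(S ∪ {s₁, s₂}, P, Q)` is a separation of `G`;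
`|S| = 2`: C20.two; `|S| = 3`, `|P|, |Q| ≥ 2`: a component `K` of `G - {x, y, s₁, s₂, t}` contains `s₃` or `s₄` (otherwise `NB G K ⊆ {s₁, s₂, t}`), so there are exactly two, `A ∋ s₃` and `B ∋ s₄`. -/
def SpecMCT : Prop := ∀ {α : Type} [Fintype α] [DecidableEq α] {G : SimpleGraph α} {x y s₁ s₂ s₃ s₄ : α}, K48 G →
  P33 G x y s₁ s₂ s₃ s₄ → C1 (contr (contr G x s₂) y s₁) ∨
    ∃ t A B, t ∉ ({x, y, s₁, s₂} : Finset α) ∧ Sep G {x, y, s₁, s₂, t} A B ∧ 2 ≤ A.card ∧ 2 ≤ B.card ∧ s₃ ∈ A ∧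
      s₄ ∈ B ∧ CSet G A ∧ CSet G B

/-- **FRM** (from VKA, KUR; 150 lines).  Frames.  `vtx`: `vk` vanishes on the kernel `Z_2(G - u)` of `z ↦ (z (uw) ·)_w`, so it is a linear functional of these rows (extend from the image to all of `α → Chain α`).  `edg`: the same with the kernel `Z_2(G - ab)` of `z ↦ z (ab) ·`.  VKA.inv: all orders give the same. -/
structure SpecFRM : Prop where
  vtx : ∀ {α : Type} [Fintype α] [DecidableEq α] {G : SimpleGraph α} {u : α}, ¬ NP (del G {u}) →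
    ∃ al : α → Chain α, ∀ r : α → ℕ, Function.Injective r → ∀ z, IsZ2 G z → vk r z = ∑ w, pr (al w) (z s(u, w))
  edg : ∀ {α : Type} [Fintype α] [DecidableEq α] {G : SimpleGraph α} {a b : α}, ¬ NP (delE G a b) →
    ∃ m : Chain α, ∀ r : α → ℕ, Function.Injective r → ∀ z, IsZ2 G z → vk r z = pr m (z s(a, b))

/-- the edge `cd` if `N(s) = {x, y, c, d}` and `c ~ d` -/
def exc {α : Type} (G : SimpleGraph α) (x y s : α) : Set (Sym2 α) :=
  {e | ∃ c d, e = s(c, d) ∧ G.Adj c d ∧ c ≠ x ∧ c ≠ y ∧ d ≠ x ∧ d ≠ y ∧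
    ∀ w, G.Adj s w ↔ w = x ∨ w = y ∨ w = c ∨ w = d}

/-- `H` without the exceptional edges -/
def Hm {α : Type} [Fintype α] [DecidableEq α] (G : SimpleGraph α) (x y s₃ s₄ : α) : SimpleGraph α :=
  (del G {x, y}).deleteEdges (exc G x y s₃ ∪ exc G x y s₄)

/-- **HMS** (from NBF, C20, FRG, KC; 350 lines).  `x` rigid, `E4`, `s₃ ≁ s₄`: `Hm` is S3S and `Hm - s₃ - s₄` is connected.  Let `e_i = c_i d_i` (`i = 3, 4`) be the exceptional edges (if they exist); `c_i, d_i ∉ {s₁, …, s₄, x, y}`, so they are adjacent neither to `x` nor to `y`; `e₃ ≠ e₄` (otherwise `{s₃, s₄}` is a fragment, `x ∈ NB`).  The edges at `s₁, …, s₄` are not deleted.  BYPASS: if `s_i` is there, `e_i`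
can be replaced by `c_i s_i d_i`.  (a) `e₃` is no bridge of `H - s₃ - q` (`q` arbitrary, also of `H - s₃`): sides `P ∋ c₃`, `Q ∋ d₃`; `NB G (P - c₃) ⊆ {c₃, q, x, y}`: `P = {c₃}` (then `N(c₃) ⊆ {d₃, s₃, q}`: no) or it is a 4-cut through `x`, so `P - c₃ = {b}`, `b ~ x, y`: `b = s₄`; the same for `Q`: not both.  [For `q = s₄`: `NB G (P - c₃) ⊆ {c₃, s₄, x, y}` with `x` only if `s₂ ∈ P - c₃`, `y` only if
`s₁ ∈ P - c₃`; so `P = {c₃}`, `N(c₃) ⊆ {d₃, s₃, s₄}`: no, or `s₁, s₂ ∈ P`; the same for `Q`: not both.]  Symmetric for `e₄`.  (b) `H - s₃ - s₄ - e₃ - e₄` is connected: otherwise by (a) both edges cross, `P ∋ c₃, c₄`, `Q ∋ d₃, d₄` (names); `NB G (P - c₃ - c₄) ⊆ {c₃, c₄, x, y}`: `P = {c₃, c₄}` or `s₁, s₂ ∈ P - c₃ - c₄`; the same for `Q`; say `P = {c₃, c₄}`.  `c₃ ≠ c₄`: `N(c₃) ⊆ {d₃, s₃, c₄}`: no.  `c₃ = c₄ = c`: `d₃ ≠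
d₄`, `s₁, s₂ ∈ Q - d₃ - d₄`, `{x, y, d₃, d₄}` separates `{c, s₃, s₄}` from `Q - d₃ - d₄`: `x` is not rigid.  S3S: `s₁` has at least 3 neighbours in `Hm` (`s₁ ≁ x`).  2-connected: (a), bypass.  Pairs `p, q`: if `{p, q}` separates `H`: NBF.one: it isolates `b` with `N(b) = {x, y, p, q}`, `b ∈ {s₃, s₄}`, the rest is connected; `pq` is deleted; the other exceptional edge is bypassed (`s₃ ≁ s₄`).
Otherwise `Hm - p - q` is connected by bypass, (a), (b). -/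
def SpecHMS : Prop := ∀ {α : Type} [Fintype α] [DecidableEq α] {G : SimpleGraph α} {x y s₁ s₂ s₃ s₄ : α}, K48 G →
  P33 G x y s₁ s₂ s₃ s₄ → E4 G s₁ s₂ s₃ s₄ → Rig G x → ¬ G.Adj s₃ s₄ → S3S (Hm G x y s₃ s₄) ∧
    ConnOff (Hm G x y s₃ s₄) {s₃, s₄} ∧ VS (Hm G x y s₃ s₄) = VS (del G {x, y})

/-- **MC0** (from FRM, VKA, LPE, KUR, HMS, STA, NBF, C20, KC; 400 lines).  `x` rigid, `G - x`, `G - y` planar.  FRM.vtx for `x`: `al`.  (1) Tori `tor (tri x y s_i) Z`, `Z ∈ Z1 (H - s_i)`, `i = 3, 4`: `pr (al y + al s_i) Z = 0`.  (2) LPE.star for the graph `Hm ∪` {edges `xs₂, xs₃, xs₄`} `≤ G - y` and `u = x`: for `la_i ∈ Z1 (Hm - s_i)` (`i = 2, 3, 4`) with sum `0` there is `z ∈ Z_2(G - y)` with these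
rows, `vk z = 0`: `Σ pr (al s_i) la_i = 0`.  So (duality: a functional on the triples which vanishes on the kernel of the sum) there is `β` with `al s_i = β` on `Z1 (Hm - s_i)`, and on `Z1 (H - s_i)` `al s_i = β + a_i Z(e₃) + b_i Z(e₄)` (`e_i` the exceptional edges, if they exist).  (3) If `e₃ = c₃d₃` exists: the triangle `t₃ = s₃c₃d₃` and a path from `s₂` to `s₄` in the connected graph `H - {s₃, c₃, d₃}`
(NBF.one) give a torus (`x s₂ … s₄ x`) × `t₃` with rows `t₃` at `xs₂`, `xs₄`: `a₂ = a₄`.  In the same way `b₂ = b₃`.  (4) Replace all `al w`, `w ~ x`, by `al w + β + a₂ [e₃] + b₂ [e₄]` (the sum of the rows at `x` is `0`, so `vk` is the same): now `al s₂ = 0` on `Z1 (H - s₂)`, `al s₃ = ε₃ Z(e₃)` on `Z1 (H - s₃)`, `al s₄ = ε₄ Z(e₄)` on `Z1 (H - s₄)`, and by (1) `al y = ε₃ Z(e₃)` on `Z1 (H - s₃)`,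
`= ε₄ Z(e₄)` on `Z1 (H - s₄)`.  `Hm - s₃ - s₄` is connected (HMS), so there is a cycle of `H - s₃ - s₄` through `e₃` and not `e₄`: `ε₃ = 0`; in the same way `ε₄ = 0`.  (5) STA for `H`, `s₃`, `s₄`: `al y = 0` on `Z1 H` (`s₃ ≁ s₄`). -/
def SpecMC0 : Prop := ∀ {α : Type} [Fintype α] [DecidableEq α] {G : SimpleGraph α} {x y s₁ s₂ s₃ s₄ : α}, K48 G →
  P33 G x y s₁ s₂ s₃ s₄ → E4 G s₁ s₂ s₃ s₄ → Rig G x → ¬ G.Adj s₃ s₄ → ¬ NP (del G {x}) → ¬ NP (del G {y}) →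
  ∃ al : α → Chain α, (∀ r : α → ℕ, Function.Injective r → ∀ z, IsZ2 G z → vk r z = ∑ w, pr (al w) (z s(x, w))) ∧
    (∀ Z ∈ Z1 (del G {x, y}), pr (al y) Z = 0) ∧ (∀ Z ∈ Z1 (del G {x, y, s₂}), pr (al s₂) Z = 0) ∧
    (∀ Z ∈ Z1 (del G {x, y, s₃}), pr (al s₃) Z = 0) ∧ ∀ Z ∈ Z1 (del G {x, y, s₄}), pr (al s₄) Z = 0

/-- **MC1** (from MC0, MCT, VKA, KUR, FRG, KC; 300 lines).  If `M` is not in C1 take `t, A, B` of MCT (`s₃ ≁ s₄`), and `al` of MC0.  For `z ∈ Z_2(G)` the row `xy` contributes `0`; the row `xs_i` is in `Z1 (G - x - s_i)`, `al s_i` vanishes on its elements without edges at `y`, so its value is a function of the (even) trace at `y`: `pr (al s₃) = b₃ z(xs₃, ys₄)` (edges `ys₁, ys₄`), `pr (al s₄) = b₄ z(xs₄, ys₃)`, `pr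
(al s₂) = p z(xs₂, ys₃) + p' z(xs₂, ys₄)`.  Boundary at `x` of the rows `ys₃`, `ys₄`: `z(xs₂, ys₃) = z(xs₄, ys₃)`, `z(xs₂, ys₄) = z(xs₃, ys₄)`.  So `vk z = c z(xs₃, ys₄) + c' z(xs₄, ys₃)`.  `s₁`, `s₂` have neighbours in `A` and in `B` (otherwise `NB G A ⊆ {x, y, s₁, t}` or …: a nontrivial 4-cut through `x`).  Torus (`x s₃ ..A.. s₂`) × (`y s₄ ..B.. s₁`): `c = 0`; torus (`x s₄ ..B.. s₂`) × (`y s₃
..A.. s₁`): `c' = 0`.  Contradiction to `NP G`. -/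
def SpecMC1 : Prop := ∀ {α : Type} [Fintype α] [DecidableEq α] {G : SimpleGraph α} {x y s₁ s₂ s₃ s₄ : α}, K48 G →
  P33 G x y s₁ s₂ s₃ s₄ → E4 G s₁ s₂ s₃ s₄ → Rig G x → ¬ NP (del G {x}) → ¬ NP (del G {y}) → NP G →
  C1 (contr (contr G x s₂) y s₁)

/-- **MP1** (from F1N, NPC, VKA, KUR, TRC, FRM, C20, NBF, KC; 350 lines).  `M` planar.  `G₁ = contr G x s₂` is nonplanar (F1N); in `G₁` `y ~ x, s₁, s₃, s₄`, `x ~ y, s₃, s₄` and `x ~ s₁` iff `s₁ ~ s₂`.  (1) Let `z ∈ Z_2(G₁)`, `vk z = 1`.  The rows `ys₃`, `ys₄` have even traces at `s₁`.  If these traces have no edge `s₁x`, TRC (`G₁ - {x, y, s₃, s₁}` connected: C20.three) gives `Z'` with the trace of the row `ys_j` in `Z1 (G₁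
- {x, y, s_j})`; add `tor (tri x y s_j) Z'`, `j = 3, 4`: now `Zab y s₁` (row `yx` by the boundary at `y`), NPC.down: `M` nonplanar.  So (boundary at `y` of the row `s₁x`: `z(ys₃, s₁x) = z(ys₄, s₁x)`) `z(ys₃, s₁x) = 1`, in particular `s₁ ~ s₂`.  So `delE G₁ x s₁` is planar.  (2) `L = delE G s₁ s₂` is planar: otherwise, as in F1N, for `z ∈ Z_2(L)` with `vk z = 1` the traces at `s₂` of the rows `xs₃`, `xs₄` can be
killed by tori `tor (tri x y s_j) Z'`, `Z' ∈ Z1 (L - {x, y, s_j})` (`G - {x, y, s_j, s₂}` is connected, C20.two), NPC.down: `contr L x s₂ ≤ delE G₁ x s₁` is nonplanar.  (3) FRM.edg: `m`.  (4) Torus of the 4-cycle `s₁ s₂ x y` and `Z ∈ Z1 (H - s₁ - s₂)`: row `Z` at `s₁s₂`: `pr m Z = 0`.  Torus of `tri x y s_j` and a cycle through `s₁s₂` in `G - {x, y, s_j}` (`s₁s₂` is no bridge of `H - s_j`: sides `P ∋ s₁`, `Q ∋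
s₂`; `{i, j} = {3, 4}`; the side without `s_i`, minus `s₁` resp. `s₂`, has at most 2 neighbours: it is `{s₁}`, `N(s₁) ⊆ {y, s₂, s_j}`, or `{s₂}`, `N(s₂) ⊆ {x, s₁, s_j}`): `pr m (tri x y s_j) = 0`. -/
def SpecMP1 : Prop := ∀ {α : Type} [Fintype α] [DecidableEq α] {G : SimpleGraph α} {x y s₁ s₂ s₃ s₄ : α}, K48 G →
  P33 G x y s₁ s₂ s₃ s₄ → NP G → ¬ NP (contr (contr G x s₂) y s₁) → G.Adj s₁ s₂ ∧
  ∃ m : Chain α, (∀ r : α → ℕ, Function.Injective r → ∀ z, IsZ2 G z → vk r z = pr m (z s(s₁, s₂))) ∧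
    (∀ Z ∈ Z1 (del G {x, y, s₁, s₂}), pr m Z = 0) ∧ pr m (tri x y s₃) = 0 ∧ pr m (tri x y s₄) = 0

/-- **MP2** (from VKA, KUR, LPE, C20, NBF, KC; 350 lines).  Every `Z ∈ Z1 (G - s₁ - s₂)` is a sum of an element of `Z1 (H - s₁ - s₂)`, multiples of `tri x y s₃`, `tri x y s₄` and a multiple of the cycle `x s₃ P s₄ x`, `P` any path from `s₃` to `s₄` in `H - s₁ - s₂` (connected: C20.two) [traces at `x`, `y`].  `chi (x s₃ P s₄) + chi (y s₃ P s₄) = tri x y s₃ + tri x y s₄`.  So, as `NP G`, `pr m (x s₃ P s₄ x) = pr m (y s₃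
P s₄ y) = 1` for all such `P`.  `dis`: `P`, `Q` disjoint: torus of `x s₃ P s₄ x` and `Q + s₁s₂`: row `x s₃ P s₄ x` at `s₁s₂`, `vk = 0`.  `apx`: `x` rigid, `G - x` planar.  Let `R = (G - x) - s₁s₂`.  Case 1: `R` is S3S.  LPE.edge for `G - x` and `s₁s₂`: `z ∈ Z_2(G - x)` with row `y s₃ P s₄ y`, `vk z = 0`: contradiction.  Case 2: `R` not S3S (`G - x` is 3-connected).  A 2-cut `{p, q}` of `R` has two sides `P' ∋ s₁`, `Q' ∋ s₂`.
`|P'| ≥ 2` (`s₁ ≁ x` has degree `≥ 4`); if `|Q'| ≥ 2`: `{x, p, q, s₁}` and `{x, p, q, s₂}` are 4-cuts through the rigid `x`: `|P'| = |Q'| = 2`, `n = 7`.  So `Q' = {s₂}`, `N(s₂) = {x, s₁, p, q}`, `R - {p, q, s₂}` is connected (NBF.one for `{x, p, q, s₂}`).  So (case 2) there are `c ~ d` with `N(s₂) = {x, s₁, c, d}`, `c, d ≠ s₃, s₄` (`E4`).  `G - x - s₂` is 3-connected: a 2-cut `{p, q}` of it gives the 4-cut `{x, s₂, p, q}`,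
NBF.one: it isolates `b`, `N(b) = {x, s₂, p, q}`, `b ∈ {s₁, c, d}` is a neighbour of `x`: no.  So `R⁻ = R - cd` is S3S (`G - x - s₂` with the edge `cd` subdivided by `s₂`).  If some path `P` from `s₃` to `s₄` in `H - s₁ - s₂` does not use `cd`: LPE.edge for `(G - x) - cd` and `s₁s₂`: as in case 1.  Otherwise `cd` is a bridge of `H - s₁ - s₂`, sides `A ∋ c, s₃`, `B ∋ d, s₄`: `NB G (A - c - s₃) ⊆ {c, s₃, s₁}`: `A = {c, s₃}`,
`N(s₃) ⊆ {x, y, c}` (`E4`): contradiction. -/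
structure SpecMP2 : Prop where
  dis : ∀ {α : Type} [Fintype α] [DecidableEq α] {G : SimpleGraph α} {x y s₁ s₂ s₃ s₄ : α} {m : Chain α}
    {P Q : Finset (Sym2 α)}, K48 G → P33 G x y s₁ s₂ s₃ s₄ → NP G → G.Adj s₁ s₂ →
    (∀ r : α → ℕ, Function.Injective r → ∀ z, IsZ2 G z → vk r z = pr m (z s(s₁, s₂))) →
    (∀ Z ∈ Z1 (del G {x, y, s₁, s₂}), pr m Z = 0) → pr m (tri x y s₃) = 0 → pr m (tri x y s₄) = 0 →
    IsPth (delE (del G {x, y}) s₁ s₂) s₃ s₄ P → IsPth (delE (del G {x, y}) s₁ s₂) s₁ s₂ Q → ¬ Disjoint (vs P) (vs Q)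
  apx : ∀ {α : Type} [Fintype α] [DecidableEq α] {G : SimpleGraph α} {x y s₁ s₂ s₃ s₄ : α} {m : Chain α},
    K48 G → P33 G x y s₁ s₂ s₃ s₄ → E4 G s₁ s₂ s₃ s₄ → NP G → G.Adj s₁ s₂ →
    (∀ r : α → ℕ, Function.Injective r → ∀ z, IsZ2 G z → vk r z = pr m (z s(s₁, s₂))) →
    (∀ Z ∈ Z1 (del G {x, y, s₁, s₂}), pr m Z = 0) → pr m (tri x y s₃) = 0 → pr m (tri x y s₄) = 0 → Rig G x →
    NP (del G {x})

/-- **MAL** (from FRG, KC; 200 lines).  `x, y ∈ T`.  `T = {x, y, c, d}`.  A side `D` (`|D| ≥ 2`) contains at least two of the `s_i`: otherwise `NB G (D - s) ⊆ {s, c, d}`.  So `c, d ∉ {s₁, …, s₄}`, and as `s₁ ~ s₂` one side `D₁` contains `s₁, s₂` and the other one, `D₂`, `s₃, s₄`.  (1) `s₁`, `s₂` are connected in `G[D₁ ∪ {d}] - s₁s₂`: otherwise let `P₁`, `Q₁` be their components there; the one without `d`, say `P₁`: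
`NB G (P₁ - s₁) ⊆ {s₁, c}`: `P₁ = {s₁}`, `N(s₁) ⊆ {y, s₂, c}`: no; the same for `s₂` with `N(s₂) ⊆ {x, s₁, c}`.  (2) `s₃`, `s₄` are connected in `G[D₂ ∪ {c}]`: if the component `K ∋ s₃` of `G[D₂]` does not contain `s₄`: `NB G (K - s₃) ⊆ {s₃, c, d}`: `K = {s₃}`, `N(s₃) = {x, y, c, d}`; the same for `s₄`: path `s₃ c s₄`. -/
def SpecMAL : Prop := ∀ {α : Type} [Fintype α] [DecidableEq α] {G : SimpleGraph α} {x y s₁ s₂ s₃ s₄ : α}
  {T X Y : Finset α}, K48 G → P33 G x y s₁ s₂ s₃ s₄ → G.Adj s₁ s₂ → Sep G T X Y → T.card = 4 → x ∈ T → y ∈ T →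
  2 ≤ X.card → 2 ≤ Y.card → ∃ P Q, IsPth (delE (del G {x, y}) s₁ s₂) s₃ s₄ P ∧
    IsPth (delE (del G {x, y}) s₁ s₂) s₁ s₂ Q ∧ Disjoint (vs P) (vs Q)

/-- **MBE** (from FRG, KC; 200 lines).  `x ∈ T`, `y ∈ X`.  `s₃, s₄ ∉ Y` (`~ y`), `x` has a neighbour in `Y`: `s₂ ∈ Y`.  `s₁ ~ y, s₂`: `s₁ ∈ T`, `T = {x, s₁, p, q}`.  `Q`: a component `K` of `G[Y - s₂]` (`|Y| ≥ 2`) has `NB G K ⊆ {s₂, s₁, p, q}`, so (FRG.few) it is adjacent to `s₁` and `s₂`: path `s₁ ..K.. s₂`.  `P`: every component `K'` of `G[X - y]` contains `s₃` or `s₄` (otherwise `NB G K' ⊆ {s₁, p, q}`); if it contains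
`s_i` and not `s_j` then it is adjacent to `p` and `q`: otherwise `NB G (K' - s_i) ⊆ {s_i, s₁, p}` (or `q`), `K' = {s_i}`, `N(s_i) ⊆ {x, y, s₁, p}`: `s_i ~ s₁`: no (`E4`).  So `s₃`, `s₄` are connected in `G[(X - y) ∪ {p, q}]`: both in `X`: the same component or two components adjacent to `p`; `s₃ ∈ {p, q}` and `s₄ ∈ X`: the component of `s₄` is adjacent to `p` and `q`; `{s₃, s₄} = {p, q}`: `X - y` would be empty. -/
def SpecMBE : Prop := ∀ {α : Type} [Fintype α] [DecidableEq α] {G : SimpleGraph α} {x y s₁ s₂ s₃ s₄ : α}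
  {T X Y : Finset α}, K48 G → P33 G x y s₁ s₂ s₃ s₄ → E4 G s₁ s₂ s₃ s₄ → G.Adj s₁ s₂ → Sep G T X Y → T.card = 4 →
  x ∈ T → y ∈ X → 2 ≤ X.card → 2 ≤ Y.card → ∃ P Q, IsPth (delE (del G {x, y}) s₁ s₂) s₃ s₄ P ∧
    IsPth (delE (del G {x, y}) s₁ s₂) s₁ s₂ Q ∧ Disjoint (vs P) (vs Q)

/-- **MNP** (from MP1, MP2, MAL, MBE, FRG; 40 lines).  `M` is nonplanar. -/
def SpecMNP : Prop := ∀ {α : Type} [Fintype α] [DecidableEq α] {G : SimpleGraph α} {x y s₁ s₂ s₃ s₄ : α}, K48 G →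
  P33 G x y s₁ s₂ s₃ s₄ → E4 G s₁ s₂ s₃ s₄ → NP G → (Rig G x → ¬ NP (del G {x})) →
  NP (contr (contr G x s₂) y s₁)

end DL
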