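import Pool.Agent.DL.G4.Spec
import Pool.Agent.DL.G4.C20
import Pool.Agent.DL.KC
import Pool.Agent.DL.PC2

section
/-!
# MP_3ff0f8_gt, G4 block: MCT (helper57)
-/
open SimpleGraph Finset

namespace DL.MCTM

open DL.FRGM

variable {α : Type} [Fintype α] [DecidableEq α] {G : SimpleGraph α}

theorem contr_comm {x y a b : α} (hxy : x ≠ y) (hxa : x ≠ a) (hxb : x ≠ b) (hya : y ≠ a) (hyb : y ≠ b)
    (hab : a ≠ b) : contr (contr G x b) y a = contr (contr G y a) x b := by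
  ext u w
  simp only [contr_adj]
  constructor
  · rintro ⟨h1, h2, h3, h4⟩
    grind
  · rintro ⟨h1, h2, h3, h4⟩
    grind

/-- lift of a separation -/
theorem lift {L : SimpleGraph α} {a b : α} {S P Q : Finset α} (hVS : VS (contr L a b) = (VS L).erase b)
    (hb : b ∈ VS L) (hab : a ≠ b) (h : Sep (contr L a b) S P Q) (ha : a ∈ P) : Sep L S (insert b P) Q := by
  obtain ⟨h1, h2, h3, h4, h5⟩ := h
  have hbn : ∀ v, v ∈ S ∪ P ∪ Q → v ≠ b := by
    intro v hv
    rw [h1, hVS, mem_erase] at hv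
    exact hv.1
  refine ⟨?_, ?_, h3, ?_, ?_⟩
  · have : S ∪ insert b P ∪ Q = insert b (S ∪ P ∪ Q) := by ext; simp only [mem_union, mem_insert]; tauto
    rw [this, h1, hVS, insert_erase hb]
  · rw [disjoint_insert_right]
    exact ⟨fun h => hbn b (by simp [h]) rfl, h2⟩
  · rw [disjoint_insert_left]
    exact ⟨fun h => hbn b (by simp [h]) rfl, h4⟩
  · intro u hu v hv huv
    have hvb : v ≠ b := hbn v (by simp [hv])
    rw [mem_insert] at hu
    rcases hu with rfl | hu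
    · refine h5 a ha v hv ⟨hab, hvb, ?_, Or.inr (Or.inl ⟨rfl, huv⟩)⟩
      rintro rfl
      exact Finset.disjoint_left.1 h4 ha hv
    · exact h5 u hu v hv (contr_adj_of_adj huv (hbn u (by simp [hu])) hvb)

theorem one {L : SimpleGraph α} {a b : α} {S P Q : Finset α} (hVS : VS (contr L a b) = (VS L).erase b)
    (hb : b ∈ VS L) (hab : a ≠ b) (hC : C1 L) (h : Sep (contr L a b) S P Q) (ha : a ∉ S) (hav : a ∈ VS L)
    (hP : P.Nonempty) (hQ : Q.Nonempty) (hS : S.card ≤ 3) : S.card = 3 ∧ (P.card ≤ 1 ∨ Q.card ≤ 1) := by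
  have hav' : a ∈ VS (contr L a b) := by rw [hVS]; exact mem_erase.2 ⟨hab, hav⟩
  have key : ∀ P' Q', Sep (contr L a b) S P' Q' → P'.Nonempty → Q'.Nonempty → a ∈ P' →
      S.card = 3 ∧ Q'.card ≤ 1 := by
    intro P' Q' h' hP' hQ' ha'
    have h1 := lift hVS hb hab h' ha'
    have h2 := hC.1.le_of_sep h1 (insert_nonempty _ _) hQ'
    have h3 : S.card = 3 := by omega
    refine ⟨h3, ?_⟩
    rcases hC.2 S _ Q' h1 h3 with h4 | h4
    · exfalso
      have hbP : b ∉ P' := fun h => by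
        have := h'.subP h
        rw [hVS] at this
        exact (notMem_erase _ _) this
      rw [card_insert_of_notMem hbP] at h4
      have := card_pos.2 hP'
      omega
    · exact h4
  rcases h.mem_or hav' with h' | h' | h'
  · exact absurd h' ha
  · exact ⟨(key P Q h hP hQ h').1, Or.inr (key P Q h hP hQ h').2⟩
  · exact ⟨(key Q P h.symm hQ hP h').1, Or.inl (key Q P h.symm hQ hP h').2⟩

/-- components contain `s₃` or `s₄` -/
theorem cmp {x y s₁ s₂ s₃ s₄ t : α} {P Q : Finset α} (hG : KConn 4 G) (hP : P33 G x y s₁ s₂ s₃ s₄)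
    (h : Sep G {x, y, s₁, s₂, t} P Q) (hxt : x ≠ t) {p : α} (hp : p ∈ P) :
    (del G (univ \ P)).Reachable p s₃ ∨ (del G (univ \ P)).Reachable p s₄ := by
  classical
  by_contra hc
  rw [not_or] at hc
  obtain ⟨hc3, hc4⟩ := hc
  obtain ⟨hnd, hnx, hny⟩ := hP
  simp only [List.nodup_cons, List.mem_cons, List.not_mem_nil, or_false, not_or] at hnd
  have hTP : ∀ v, v ∈ P → v ∉ ({x, y, s₁, s₂, t} : Finset α) :=
    fun v hv hv' => Finset.disjoint_left.1 h.2.1 hv' hv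
  have hxV : x ∈ VS G := h.subS (by simp)
  set H := del G (univ \ P) with hH
  have hA : ∀ a b, H.Adj a b ↔ (G.Adj a b ∧ a ∈ P ∧ b ∈ P) := by
    intro a b
    simp only [hH, del, mem_sdiff, mem_univ, true_and, not_not]
  set K : Finset α := univ.filter fun v => H.Reachable p v with hKd
  have hKm : ∀ v, v ∈ K ↔ H.Reachable p v := fun v => by simp [hKd]
  have hKP : ∀ v ∈ K, v ∈ P := by
    intro v hv
    refine mem_of_reachable (X := {v | v ∈ P}) ((hKm v).1 hv) hp fun a b hab _ => ((hA a b).1 hab).2.2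
  refine few (D := K) (W := {s₁, s₂, t}) (r := x) hG (fun v hv => h.subP (hKP v hv))
    ⟨p, (hKm p).2 (Reachable.refl p)⟩ ?_ ?_ hxV ?_ ?_
  · intro w hw
    obtain ⟨hw1, a, ha, haw⟩ := mem_NB.1 hw
    have haP := hKP a ha
    rcases h.mem_or (right_mem_VS haw) with hw' | hw' | hw'
    · simp only [mem_insert, mem_singleton] at hw' ⊢
      rcases hw' with hw' | hw' | hw' | hw' | hw'
      · subst hw'
        exfalso
        rcases (hnx a).1 haw.symm with e | e | e | e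
        · exact hTP a haP (by simp [e])
        · exact hTP a haP (by simp [e])
        · exact hc3 (e ▸ (hKm a).1 ha)
        · exact hc4 (e ▸ (hKm a).1 ha)
      · subst hw'
        exfalso
        rcases (hny a).1 haw.symm with e | e | e | e
        · exact hTP a haP (by simp [e])
        · exact hTP a haP (by simp [e])
        · exact hc3 (e ▸ (hKm a).1 ha)
        · exact hc4 (e ▸ (hKm a).1 ha)
      · exact Or.inl hw'
      · exact Or.inr (Or.inl hw')
      · exact Or.inr (Or.inr hw')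
    · exact absurd ((hKm w).2 (((hKm a).1 ha).trans (Adj.reachable ((hA a w).2 ⟨haw, haP, hw'⟩)))) hw1
    · exact absurd haw (h.2.2.2.2 a haP w hw')
  · exact (card_insert_le _ _).trans (by
      have := card_insert_le s₂ ({t} : Finset α)
      simp at this
      omega)
  · intro h
    exact hTP x (hKP x h) (by simp)
  · simp only [mem_insert, mem_singleton, not_or]
    exact ⟨hnd.1.2.1, hnd.1.2.2.1, hxt⟩

theorem cset {P : Finset α} {s : α} (hs : s ∈ P) (h : ∀ p ∈ P, (del G (univ \ P)).Reachable p s) :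
    CSet G P := ⟨⟨s, hs⟩, fun u hu v hv => (h u hu).trans (h v hv).symm⟩

theorem reach_mem {P : Finset α} {p s : α} (hp : p ∈ P) (h : (del G (univ \ P)).Reachable p s) : s ∈ P := by
  refine mem_of_reachable (X := {v | v ∈ P}) h hp fun a b hab _ => ?_
  by_contra hc
  exact hab.2.2 (by simpa using hc)

/-- the bad cut -/
theorem bad {x y s₁ s₂ s₃ s₄ t : α} {P Q : Finset α} (hG : KConn 4 G) (hP : P33 G x y s₁ s₂ s₃ s₄)
    (h : Sep G {x, y, s₁, s₂, t} P Q) (ht : t ∉ ({x, y, s₁, s₂} : Finset α))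
    (hP2 : 2 ≤ P.card) (hQ2 : 2 ≤ Q.card) :
    ∃ t A B, t ∉ ({x, y, s₁, s₂} : Finset α) ∧ Sep G {x, y, s₁, s₂, t} A B ∧ 2 ≤ A.card ∧ 2 ≤ B.card ∧ s₃ ∈ A ∧
      s₄ ∈ B ∧ CSet G A ∧ CSet G B := by
  have hxt : x ≠ t := fun e => ht (by simp [e])
  obtain ⟨p, hp⟩ : P.Nonempty := card_pos.1 (by omega)
  obtain ⟨q, hq⟩ : Q.Nonempty := card_pos.1 (by omega)
  have hPQ : ∀ v, v ∈ P → v ∉ Q := fun v hv => Finset.disjoint_left.1 h.2.2.2.1 hv
  have cP : ∀ v ∈ P, (del G (univ \ P)).Reachable v s₃ ∨ (del G (univ \ P)).Reachable v s₄ :=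
    fun v hv => cmp hG hP h hxt hv
  have cQ : ∀ v ∈ Q, (del G (univ \ Q)).Reachable v s₃ ∨ (del G (univ \ Q)).Reachable v s₄ :=
    fun v hv => cmp hG hP h.symm hxt hv
  have nPQ3 : ∀ p ∈ P, ∀ q ∈ Q, (del G (univ \ P)).Reachable p s₃ → ¬ (del G (univ \ Q)).Reachable q s₃ :=
    fun p hp q hq h1 h2 => hPQ _ (reach_mem hp h1) (reach_mem hq h2)
  have nPQ4 : ∀ p ∈ P, ∀ q ∈ Q, (del G (univ \ P)).Reachable p s₄ → ¬ (del G (univ \ Q)).Reachable q s₄ :=
    fun p hp q hq h1 h2 => hPQ _ (reach_mem hp h1) (reach_mem hq h2)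
  rcases cP p hp with h1 | h1
  · have hs3 := reach_mem hp h1
    have hQ4 : ∀ q ∈ Q, (del G (univ \ Q)).Reachable q s₄ :=
      fun q hq => (cQ q hq).resolve_left (nPQ3 p hp q hq h1)
    have hs4 := reach_mem hq (hQ4 q hq)
    have hP3 : ∀ p ∈ P, (del G (univ \ P)).Reachable p s₃ :=
      fun p hp => (cP p hp).resolve_right (fun h' => nPQ4 p hp q hq h' (hQ4 q hq))
    exact ⟨t, P, Q, ht, h, hP2, hQ2, hs3, hs4, cset hs3 hP3, cset hs4 hQ4⟩
  · have hs4 := reach_mem hp h1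
    have hQ3 : ∀ q ∈ Q, (del G (univ \ Q)).Reachable q s₃ :=
      fun q hq => (cQ q hq).resolve_right (nPQ4 p hp q hq h1)
    have hs3 := reach_mem hq (hQ3 q hq)
    have hP4 : ∀ p ∈ P, (del G (univ \ P)).Reachable p s₄ :=
      fun p hp => (cP p hp).resolve_left (fun h' => nPQ3 p hp q hq h' (hQ3 q hq))
    exact ⟨t, Q, P, ht, h.symm, hQ2, hP2, hs3, hs4, cset hs3 hQ3, cset hs4 hP4⟩

/-- separations of `M` through `x`, `y` -/
theorem down {x y s₁ s₂ : α} {S P Q : Finset α} (hVS : VS (contr (contr G x s₂) y s₁) = ((VS G).erase s₂).erase s₁)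
    (h1 : s₁ ∈ VS G) (h2 : s₂ ∈ VS G) (h12 : s₁ ≠ s₂)
    (h : Sep (contr (contr G x s₂) y s₁) S P Q) : Sep G (insert s₁ (insert s₂ S)) P Q := by
  obtain ⟨g1, g2, g3, g4, g5⟩ := h
  have hn : ∀ v, v ∈ S ∪ P ∪ Q → v ≠ s₁ ∧ v ≠ s₂ := by
    intro v hv
    rw [g1, hVS, mem_erase, mem_erase] at hv
    exact ⟨hv.1, hv.2.1⟩
  refine ⟨?_, ?_, ?_, g4, ?_⟩
  · have : insert s₁ (insert s₂ S) ∪ P ∪ Q = insert s₁ (insert s₂ (S ∪ P ∪ Q)) := by
      ext; simp only [mem_union, mem_insert]; tauto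
    rw [this, g1, hVS]
    ext v
    simp only [mem_insert, mem_erase]
    constructor
    · rintro (rfl | rfl | h)
      · exact h1
      · exact h2
      · exact h.2.2
    · intro hv
      by_cases e1 : v = s₁
      · exact Or.inl e1
      · by_cases e2 : v = s₂
        · exact Or.inr (Or.inl e2)
        · exact Or.inr (Or.inr ⟨e1, e2, hv⟩)
  · rw [disjoint_insert_left, disjoint_insert_left]
    exact ⟨fun h => (hn s₁ (by simp [h])).1 rfl, fun h => (hn s₂ (by simp [h])).2 rfl, g2⟩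
  · rw [disjoint_insert_left, disjoint_insert_left]
    exact ⟨fun h => (hn s₁ (by simp [h])).1 rfl, fun h => (hn s₂ (by simp [h])).2 rfl, g3⟩
  · intro u hu v hv huv
    have hu' := hn u (by simp [hu])
    have hv' := hn v (by simp [hv])
    exact g5 u hu v hv (contr_adj_of_adj (contr_adj_of_adj huv hu'.2 hv'.2) hu'.1 hv'.1)

end DL.MCTM

namespace DL

open DL.MCTM DL.FRGM

theorem specMCT (hC20 : SpecC20) : SpecMCT := by
  intro α _ _ G x y s₁ s₂ s₃ s₄ hK hP
  obtain ⟨hG, hn⟩ := id hK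
  have hnd := hP.nd
  simp only [List.nodup_cons, List.mem_cons, List.not_mem_nil, or_false, not_or] at hnd
  obtain ⟨⟨nxy, nx1, nx2, nx3, nx4⟩, ⟨ny1, ny2, ny3, ny4⟩, ⟨n12, n13, n14⟩, ⟨n23, n24⟩, n34, -⟩ := hnd
  obtain ⟨c1x, c1y, -, -⟩ := hC20.c1 hK hP
  have axs₂ : G.Adj x s₂ := (hP.nx s₂).2 (by simp)
  have ays₁ : G.Adj y s₁ := (hP.ny s₁).2 (by simp)
  have hdeg : ∀ v ∈ VS G, 2 ≤ (nbs G v).card := fun v hv => by have := hG.le_nbs hv; omega
  have vx : VS (contr G x s₂) = (VS G).erase s₂ := VS_contr axs₂ hdeg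
  have vy : VS (contr G y s₁) = (VS G).erase s₁ := VS_contr ays₁ hdeg
  have e1 : (contr G x s₂).Adj y s₁ := contr_adj_of_adj ays₁ ny2 n12
  have e2 : (contr G y s₁).Adj x s₂ := contr_adj_of_adj axs₂ nx1 (Ne.symm n12)
  have vM : VS (contr (contr G x s₂) y s₁) = (VS (contr G x s₂)).erase s₁ :=
    VS_contr e1 (fun v hv => by have := c1x.1.le_nbs hv; omega)
  have vM' : VS (contr (contr G y s₁) x s₂) = (VS (contr G y s₁)).erase s₂ :=
    VS_contr e2 (fun v hv => by have := c1y.1.le_nbs hv; omega)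
  have hcomm : contr (contr G x s₂) y s₁ = contr (contr G y s₁) x s₂ :=
    contr_comm nxy nx1 nx2 ny1 ny2 n12
  have vM2 : VS (contr (contr G x s₂) y s₁) = ((VS G).erase s₂).erase s₁ := by rw [vM, vx]
  have hxV : x ∈ VS G := left_mem_VS axs₂
  have hyV : y ∈ VS G := left_mem_VS ays₁
  have h1V : s₁ ∈ VS G := right_mem_VS ays₁
  have h2V : s₂ ∈ VS G := right_mem_VS axs₂
  by_contra hc
  rw [not_or] at hc
  obtain ⟨hc1, hc2⟩ := hc
  -- all separations of `M`
  have key : ∀ S P Q, Sep (contr (contr G x s₂) y s₁) S P Q → S.card ≤ 3 → P.Nonempty → Q.Nonempty →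
      S.card = 3 ∧ (P.card ≤ 1 ∨ Q.card ≤ 1) := by
    intro S P Q h hS hP' hQ'
    by_cases hy : y ∈ S
    · by_cases hx : x ∈ S
      · have hd := down vM2 h1V h2V n12 h
        by_cases hS2 : S.card ≤ 2
        · exfalso
          have hSe : S = {x, y} := by
            symm
            apply eq_of_subset_of_card_le
            · intro v hv
              rw [mem_insert, mem_singleton] at hv
              rcases hv with rfl | rfl <;> assumption
            · rw [card_pair nxy]; exact hS2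
          obtain ⟨p, hp⟩ := hP'
          obtain ⟨q, hq⟩ := hQ'
          have hco := (hC20.two hK hP).1
          have hTe : insert s₁ (insert s₂ S) = ({x, y, s₁, s₂} : Finset α) := by
            rw [hSe]; ext; simp only [mem_insert, mem_singleton]; tauto
          rw [hTe] at hd
          exact hd.not_reachable hp hq (hco p (hd.subP hp) q (hd.subQ hq)
            (Finset.disjoint_right.1 hd.2.1 hp) (Finset.disjoint_right.1 hd.2.2.1 hq))
        · have hS3 : S.card = 3 := by omega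
          refine ⟨hS3, ?_⟩
          by_contra hcc
          rw [not_or] at hcc
          obtain ⟨t, ht⟩ : ∃ t, (S.erase x).erase y = {t} := by
            rw [← card_eq_one, card_erase_of_mem (mem_erase.2 ⟨(Ne.symm nxy), hy⟩), card_erase_of_mem hx, hS3]
          have htS : t ∈ (S.erase x).erase y := by rw [ht]; simp
          simp only [mem_erase] at htS
          have hn := fun v hv => (mem_erase.1 (vM2 ▸ h.subS hv : v ∈ ((VS G).erase s₂).erase s₁))
          have hTe : insert s₁ (insert s₂ S) = ({x, y, s₁, s₂, t} : Finset α) := by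
            ext v
            have := congrArg (fun S => v ∈ S) ht
            simp only [mem_erase, mem_singleton, eq_iff_iff] at this
            simp only [mem_insert, mem_singleton]
            by_cases h1 : v = x
            · simp [h1, hx]
            · by_cases h2 : v = y
              · simp [h2, hy]
              · simp only [h1, h2, false_or]
                rw [← this]
                simp [h1, h2]
          rw [hTe] at hd
          refine hc2 (bad hG hP hd ?_ (by omega) (by omega))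
          have h1 := hn t htS.2.2
          have h2 := mem_erase.1 h1.2
          simp only [mem_insert, mem_singleton, not_or]
          exact ⟨htS.2.1, htS.1, h1.1, h2.1⟩
      · rw [hcomm] at h
        exact one vM' (by rw [vy]; exact mem_erase.2 ⟨(Ne.symm n12), h2V⟩) nx2 c1y h hx
          (by rw [vy]; exact mem_erase.2 ⟨nx1, hxV⟩) hP' hQ' hS
    · exact one vM (by rw [vx]; exact mem_erase.2 ⟨n12, h1V⟩) ny1 c1x h hy
        (by rw [vx]; exact mem_erase.2 ⟨ny2, hyV⟩) hP' hQ' hS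
  refine hc1 ⟨kconn_iff_sep.2 ⟨?_, ?_⟩, ?_⟩
  · rw [vM2, card_erase_of_mem (mem_erase.2 ⟨n12, h1V⟩), card_erase_of_mem h2V]
    omega
  · intro S P Q h hS
    by_contra hcc
    rw [not_or, ← ne_eq, ← ne_eq, ← nonempty_iff_ne_empty, ← nonempty_iff_ne_empty] at hcc
    have := (key S P Q h (by omega) hcc.1 hcc.2).1
    omega
  · intro S P Q h hS
    by_cases hPe : P.Nonempty
    · by_cases hQe : Q.Nonempty
      · exact (key S P Q h hS.le hPe hQe).2
      · rw [not_nonempty_iff_eq_empty] at hQe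
        right; simp [hQe]
    · rw [not_nonempty_iff_eq_empty] at hPe
      left; simp [hPe]

end DL
end

section
set_option autoImplicit false
set_option linter.unusedSectionVars false

/-!
# CCL: contraction of an edge in no nontrivial 4-cut
-/

open SimpleGraph Finset

namespace DL

namespace CCLM

variable {α : Type} [Fintype α] [DecidableEq α]

/-- a separation of `contr G a b` with `a ∈ P` -/
lemma lift {G : SimpleGraph α} {a b : α} (hV : VS (contr G a b) = (VS G).erase b)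
    (hab : G.Adj a b) {S P Q : Finset α} (h : Sep (contr G a b) S P Q) (ha : a ∈ P) :
    Sep G S (insert b P) Q := by
  obtain ⟨h1, h2, h3, h4, h5⟩ := h
  rw [hV] at h1
  have hbV : b ∈ VS G := right_mem_VS hab
  have hb : b ∉ S ∪ P ∪ Q := by rw [h1]; exact notMem_erase _ _
  simp only [mem_union, not_or] at hb
  refine ⟨?_, ?_, h3, ?_, ?_⟩
  · rw [union_insert, insert_union, h1, insert_erase hbV]
  · rw [disjoint_insert_right]
    exact ⟨hb.1.1, h2⟩
  · rw [disjoint_insert_left]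
    exact ⟨hb.2, h4⟩
  · intro p hp q hq hpq
    have hqb : q ≠ b := by rintro rfl; exact hb.2 hq
    rcases mem_insert.1 hp with rfl | hp'
    · refine h5 a ha q hq ⟨hab.ne, hqb, ?_, Or.inr (Or.inl ⟨rfl, hpq⟩)⟩
      rintro rfl
      exact disjoint_left.1 h4 ha hq
    · exact h5 p hp' q hq (contr_adj_of_adj hpq (fun e => hb.1.2 (e ▸ hp')) hqb)

/-- a separation of `contr G a b` with `a ∈ S` -/
lemma liftS {G : SimpleGraph α} {a b : α} (hV : VS (contr G a b) = (VS G).erase b)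
    (hab : G.Adj a b) {S P Q : Finset α} (h : Sep (contr G a b) S P Q) :
    Sep G (insert b S) P Q := by
  obtain ⟨h1, h2, h3, h4, h5⟩ := h
  rw [hV] at h1
  have hbV : b ∈ VS G := right_mem_VS hab
  have hb : b ∉ S ∪ P ∪ Q := by rw [h1]; exact notMem_erase _ _
  simp only [mem_union, not_or] at hb
  refine ⟨?_, ?_, ?_, h4, ?_⟩
  · rw [insert_union, insert_union, h1, insert_erase hbV]
  · rw [disjoint_insert_left]
    exact ⟨hb.1.2, h2⟩
  · rw [disjoint_insert_left]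
    exact ⟨hb.2, h3⟩
  · intro p hp q hq hpq
    exact h5 p hp q hq (contr_adj_of_adj hpq (by rintro rfl; exact hb.1.2 hp)
      (by rintro rfl; exact hb.2 hq))

lemma vsc {G : SimpleGraph α} {a b : α} (hG : KConn 4 G) (hab : G.Adj a b) :
    VS (contr G a b) = (VS G).erase b :=
  VS_contr hab fun v hv => le_trans (by norm_num) (hG.le_nbs hv)

end CCLM

open CCLM in
theorem specCCL : SpecCCL := by
  intro α _ _ G a b hG _ hab hcut
  have hV := vsc hG hab
  refine ⟨hG.contr_of_succ (by norm_num) hab, fun S P Q h hS => ?_⟩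
  have haV : a ∈ VS (contr G a b) := by
    rw [hV, mem_erase]
    exact ⟨hab.ne, left_mem_VS hab⟩
  have hbS : b ∉ S := by
    intro hb
    have := h.subS hb
    rw [hV] at this
    exact notMem_erase _ _ this
  rcases h.mem_or haV with ha | ha | ha
  · exact hcut (insert b S) P Q (liftS hV hab h) (by rw [card_insert_of_notMem hbS, hS])
      (mem_insert_of_mem ha) (mem_insert_self _ _)
  · right
    have h1 := lift hV hab h ha
    by_contra hQ
    have hQ' : Q.Nonempty := by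
      rw [← card_pos]; omega
    have := hG.le_of_sep h1 (insert_nonempty _ _) hQ'
    omega
  · left
    have h1 := lift hV hab h.symm ha
    by_contra hP
    have hP' : P.Nonempty := by
      rw [← card_pos]; omega
    have := hG.le_of_sep h1 (insert_nonempty _ _) hP'
    omega

end DL
end

section
/-!
# MP_3ff0f8_gt, ALGEBRA HALF, G4 block: CLS (helper93)
-/
open SimpleGraph Finset

namespace DL.CLSM

set_option linter.unusedSectionVars false
set_option linter.unusedVariables false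
set_option linter.unusedFintypeInType false
set_option linter.unusedDecidableInType false

variable {α : Type} [Fintype α] [DecidableEq α] {G : SimpleGraph α}

theorem mem_NB {A : Finset α} {w : α} : w ∈ NB G A ↔ w ∉ A ∧ ∃ a ∈ A, G.Adj a w := by
  classical
  simp [NB]

theorem NB_sub (A : Finset α) : NB G A ⊆ VS G := by
  intro w hw
  obtain ⟨-, a, -, h⟩ := mem_NB.1 hw
  exact right_mem_VS h

theorem notfrag (hFRG : SpecFRG) (hG : K48 G) {F D W : Finset α} (hF : MFrag G F) (hD : D ⊂ F) (h2 : D.card = 2)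
    (hW : NB G D ⊆ W) (hc : W.card ≤ 4) : False := by
  have hDV : D ⊆ VS G := hD.subset.trans hF.1.1
  have hle : (NB G D).card ≤ 4 := (card_le_card hW).trans hc
  have hr : 2 ≤ (VS G \ (D ∪ NB G D)).card := by
    have := le_card_sdiff (D ∪ NB G D) (VS G)
    have := card_union_le D (NB G D)
    have := hG.2
    omega
  have h4 : (NB G D).card = 4 := by
    by_contra hne
    have : (NB G D).card ≤ 3 := by omega
    obtain ⟨r, hr⟩ : (VS G \ (D ∪ NB G D)).Nonempty := card_pos.1 (by omega)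
    rw [mem_sdiff, mem_union, not_or] at hr
    exact hFRG.few hG.1 hDV (card_pos.1 (by omega)) (Subset.refl _) this hr.1 hr.2.1 hr.2.2
  exact hF.2 D hD ⟨hDV, by omega, h4, hr⟩

theorem corner1 (hFRG : SpecFRG) (hG : K48 G) {S P Q S' P' Q' : Finset α} (h : Sep G S P Q) (h' : Sep G S' P' Q')
    {y : α} (hy : P ∩ P' = {y}) (hc : (S ∩ P').card + (S ∩ S').card + (P ∩ S').card = 4) (w : α) :
    G.Adj y w ↔ w ∈ (S ∩ P') ∪ (S ∩ S') ∪ (P ∩ S') := by
  have hsub : nbs G y ⊆ (S ∩ P') ∪ (S ∩ S') ∪ (P ∩ S') := by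
    have := hFRG.corner h h'
    rw [hy] at this
    refine Subset.trans ?_ this
    intro v hv
    rw [mem_nbs] at hv
    exact mem_NB.2 ⟨by simpa using hv.ne', y, by simp, hv⟩
  have hyV : y ∈ VS G := by
    have : y ∈ P ∩ P' := by rw [hy]; simp
    exact h.subP (mem_inter.1 this).1
  have h4 := hG.1.le_nbs hyV
  have hcard : ((S ∩ P') ∪ (S ∩ S') ∪ (P ∩ S')).card ≤ 4 := by
    have := card_union_le ((S ∩ P') ∪ (S ∩ S')) (P ∩ S')
    have := card_union_le (S ∩ P') (S ∩ S')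
    omega
  have heq := eq_of_subset_of_card_le hsub (by omega)
  rw [← heq, mem_nbs]

theorem part {S P Q A : Finset α} (h : Sep G S P Q) (hA : A ⊆ VS G) :
    A.card = (A ∩ S).card + (A ∩ P).card + (A ∩ Q).card := by
  obtain ⟨hu, h1, h2, h3, -⟩ := h
  have hAe : A = (A ∩ S ∪ A ∩ P) ∪ A ∩ Q := by
    rw [← inter_union_distrib_left, ← inter_union_distrib_left, hu]
    exact (inter_eq_left.2 hA).symm
  conv_lhs => rw [hAe]
  rw [card_union_of_disjoint, card_union_of_disjoint]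
  · exact (h1.mono inter_subset_right inter_subset_right)
  · rw [disjoint_union_left]
    exact ⟨h2.mono inter_subset_right inter_subset_right, h3.mono inter_subset_right inter_subset_right⟩

/-- half of the bound -/
theorem arith0 {a b c p q f1 f2 y1 y2 : ℕ} (h1 : a + b + c = 4) (h2 : p + b + q = 4) 
    (h4 : 2 ≤ q + y1 + y2) (h6 : 3 ≤ f2 + c + y2) 
    (k3 : 0 < y1 → 4 ≤ a + b + q)
    (k4 : 0 < y2 → 4 ≤ c + b + q) (m1 : 2 ≤ f1 → 5 ≤ a + b + p) (m2 : 2 ≤ f2 → 5 ≤ c + b + p) : f1 ≤ 1 := by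
  by_contra hcon
  have k := m1 (by omega)
  clear m1
  have hy2 : y2 = 0 := by
    by_contra h
    have := k4 (by omega)
    clear k3 k4 m2
    omega
  subst hy2
  clear k4
  rcases Nat.lt_or_ge f2 2 with h | h
  · have hy1 : 0 < y1 := by clear k3 m2; omega
    have := k3 hy1
    clear k3 m2
    omega
  · have k' := m2 h
    clear m2
    have hy1 : y1 = 0 := by
      by_contra h
      have := k3 (by omega)
      clear k3
      omega
    clear k3
    omega

/-- the nine numbers -/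
theorem arith {a b c p q f1 f2 y1 y2 : ℕ} (h1 : a + b + c = 4) (h2 : p + b + q = 4) (h3 : 3 ≤ p + f1 + f2)
    (h4 : 2 ≤ q + y1 + y2) (h5 : 3 ≤ f1 + a + y1) (h6 : 3 ≤ f2 + c + y2)
    (k1 : 0 < f1 → 4 ≤ a + b + p) (k2 : 0 < f2 → 4 ≤ c + b + p) (k3 : 0 < y1 → 4 ≤ a + b + q)
    (k4 : 0 < y2 → 4 ≤ c + b + q) (m1 : 2 ≤ f1 → 5 ≤ a + b + p) (m2 : 2 ≤ f2 → 5 ≤ c + b + p) :
    (p = 1 ∧ b = 2 ∧ q = 1 ∧ a = 1 ∧ c = 1 ∧ f1 = 1 ∧ f2 = 1) ∨
    (p = 2 ∧ b = 0 ∧ q = 2 ∧ a = 2 ∧ c = 2 ∧ f1 = 1 ∧ f2 = 0) ∨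
    (p = 2 ∧ b = 0 ∧ q = 2 ∧ a = 2 ∧ c = 2 ∧ f1 = 0 ∧ f2 = 1) ∨
    (p = 2 ∧ b = 0 ∧ q = 2 ∧ a = 2 ∧ c = 2 ∧ f1 = 1 ∧ f2 = 1) := by
  have hf1 : f1 ≤ 1 := arith0 h1 h2 h4 h6 k3 k4 m1 m2
  have hf2 : f2 ≤ 1 := arith0 (a := c) (c := a) (f1 := f2) (f2 := f1) (y1 := y2) (y2 := y1)
    (by clear k1 k2 k3 k4 m1 m2; omega) h2 (by clear k1 k2 k3 k4 m1 m2; omega)
    (by clear k1 k2 k3 k4 m1 m2; omega) k4 k3 m2 m1
  clear m1 m2
  have k3' : y1 = 0 ∨ 4 ≤ a + b + q := by
    rcases Nat.eq_zero_or_pos y1 with h | h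
    · exact Or.inl h
    · exact Or.inr (k3 h)
  have k4' : y2 = 0 ∨ 4 ≤ c + b + q := by
    rcases Nat.eq_zero_or_pos y2 with h | h
    · exact Or.inl h
    · exact Or.inr (k4 h)
  clear k3 k4
  obtain rfl | rfl : f1 = 0 ∨ f1 = 1 := by clear k1 k2 k3' k4'; omega
  · clear k1
    obtain rfl | rfl : f2 = 0 ∨ f2 = 1 := by clear k2 k3' k4'; omega
    · exfalso
      clear k2
      rcases k3' with rfl | h
      · rcases k4' with rfl | h' <;> omega
      · rcases k4' with rfl | h' <;> omega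
    · have := k2 (by norm_num)
      clear k2
      refine Or.inr (Or.inr (Or.inl ?_))
      rcases k3' with rfl | h
      · rcases k4' with rfl | h' <;> (refine ⟨?_, ?_, ?_, ?_, ?_, rfl, rfl⟩ <;> omega)
      · rcases k4' with rfl | h' <;> (refine ⟨?_, ?_, ?_, ?_, ?_, rfl, rfl⟩ <;> omega)
  · have := k1 (by norm_num)
    clear k1
    obtain rfl | rfl : f2 = 0 ∨ f2 = 1 := by clear k2 k3' k4'; omega
    · clear k2
      refine Or.inr (Or.inl ?_)
      rcases k3' with rfl | h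
      · rcases k4' with rfl | h' <;> (refine ⟨?_, ?_, ?_, ?_, ?_, rfl, rfl⟩ <;> omega)
      · rcases k4' with rfl | h' <;> (refine ⟨?_, ?_, ?_, ?_, ?_, rfl, rfl⟩ <;> omega)
    · have := k2 (by norm_num)
      clear k2
      have hp' : p = 1 ∨ p = 2 := by
        rcases k3' with rfl | h
        · rcases k4' with rfl | h' <;> omega
        · rcases k4' with rfl | h' <;> omega
      rcases hp' with rfl | rfl
      · left
        rcases k3' with rfl | h
        · rcases k4' with rfl | h' <;> (refine ⟨rfl, ?_, ?_, ?_, ?_, rfl, rfl⟩ <;> omega)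
        · rcases k4' with rfl | h' <;> (refine ⟨rfl, ?_, ?_, ?_, ?_, rfl, rfl⟩ <;> omega)
      · refine Or.inr (Or.inr (Or.inr ?_))
        rcases k3' with rfl | h
        · rcases k4' with rfl | h' <;> (refine ⟨rfl, ?_, ?_, ?_, ?_, rfl, rfl⟩ <;> omega)
        · rcases k4' with rfl | h' <;> (refine ⟨rfl, ?_, ?_, ?_, ?_, rfl, rfl⟩ <;> omega)

theorem nd8 {F N R T X Y : Finset α} (d1 : ∀ v ∈ N, v ∉ F) (d2 : ∀ v ∈ N, v ∉ R) (d3 : ∀ v ∈ F, v ∉ R)
    (d4 : ∀ v ∈ T, v ∉ X) (d5 : ∀ v ∈ T, v ∉ Y) (d6 : ∀ v ∈ X, v ∉ Y) {x y z sa sc s s' q : α} (hss : s ≠ s')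
    (hx : x ∈ F ∧ x ∈ T) (hy : y ∈ F ∧ y ∈ X) (hz : z ∈ F ∧ z ∈ Y) (ha : sa ∈ N ∧ sa ∈ X) (hc : sc ∈ N ∧ sc ∈ Y)
    (hs : s ∈ N ∧ s ∈ T) (hs' : s' ∈ N ∧ s' ∈ T) (hq : q ∈ R ∧ q ∈ T) : [x, y, z, sa, sc, s, s', q].Nodup := by
  simp only [List.nodup_cons, List.mem_cons, List.not_mem_nil, or_false, not_or, List.nodup_nil, and_true,
    not_false_eq_true]
  refine ⟨⟨?_, ?_, ?_, ?_, ?_, ?_, ?_⟩, ⟨?_, ?_, ?_, ?_, ?_, ?_⟩, ⟨?_, ?_, ?_, ?_, ?_⟩, ⟨?_, ?_, ?_, ?_⟩, ⟨?_, ?_, ?_⟩,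
    ⟨?_, ?_⟩, ?_⟩
  all_goals (rintro rfl; simp_all)

theorem nd9 {F N R T X Y : Finset α} (d1 : ∀ v ∈ N, v ∉ F) (d2 : ∀ v ∈ N, v ∉ R) (d3 : ∀ v ∈ F, v ∉ R)
    (d4 : ∀ v ∈ T, v ∉ X) (d5 : ∀ v ∈ T, v ∉ Y) (d6 : ∀ v ∈ X, v ∉ Y) {x x' w s₁ s₂ s₃ s₄ q₁ q₂ : α}
    (hxx : x ≠ x') (h12 : s₁ ≠ s₂) (h34 : s₃ ≠ s₄) (hqq : q₁ ≠ q₂)
    (hx : x ∈ F ∧ x ∈ T) (hx' : x' ∈ F ∧ x' ∈ T) (hw : w ∈ F ∧ w ∈ X) (h1 : s₁ ∈ N ∧ s₁ ∈ X) (h2 : s₂ ∈ N ∧ s₂ ∈ X)
    (h3 : s₃ ∈ N ∧ s₃ ∈ Y) (h4 : s₄ ∈ N ∧ s₄ ∈ Y) (hq : q₁ ∈ R ∧ q₁ ∈ T) (hq' : q₂ ∈ R ∧ q₂ ∈ T) :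
    [x, x', w, s₁, s₂, s₃, s₄, q₁, q₂].Nodup := by
  simp only [List.nodup_cons, List.mem_cons, List.not_mem_nil, or_false, not_or, List.nodup_nil, and_true,
    not_false_eq_true]
  refine ⟨⟨?_, ?_, ?_, ?_, ?_, ?_, ?_, ?_⟩, ⟨?_, ?_, ?_, ?_, ?_, ?_, ?_⟩, ⟨?_, ?_, ?_, ?_, ?_, ?_⟩,
    ⟨?_, ?_, ?_, ?_, ?_⟩, ⟨?_, ?_, ?_, ?_⟩, ⟨?_, ?_, ?_⟩, ⟨?_, ?_⟩, ?_⟩
  all_goals (rintro rfl; simp_all)

theorem nd10 {F N R T X Y : Finset α} (d1 : ∀ v ∈ N, v ∉ F) (d2 : ∀ v ∈ N, v ∉ R) (d3 : ∀ v ∈ F, v ∉ R)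
    (d4 : ∀ v ∈ T, v ∉ X) (d5 : ∀ v ∈ T, v ∉ Y) (d6 : ∀ v ∈ X, v ∉ Y) {x x' z z' s₁ s₂ s₃ s₄ q₁ q₂ : α}
    (hxx : x ≠ x') (h12 : s₁ ≠ s₂) (h34 : s₃ ≠ s₄) (hqq : q₁ ≠ q₂)
    (hx : x ∈ F ∧ x ∈ T) (hx' : x' ∈ F ∧ x' ∈ T) (hz : z ∈ F ∧ z ∈ X) (hz' : z' ∈ F ∧ z' ∈ Y)
    (h1 : s₁ ∈ N ∧ s₁ ∈ X) (h2 : s₂ ∈ N ∧ s₂ ∈ X)
    (h3 : s₃ ∈ N ∧ s₃ ∈ Y) (h4 : s₄ ∈ N ∧ s₄ ∈ Y) (hq : q₁ ∈ R ∧ q₁ ∈ T) (hq' : q₂ ∈ R ∧ q₂ ∈ T) :
    [x, x', z, z', s₁, s₂, s₃, s₄, q₁, q₂].Nodup := by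
  simp only [List.nodup_cons, List.mem_cons, List.not_mem_nil, or_false, not_or, List.nodup_nil, and_true,
    not_false_eq_true]
  refine ⟨⟨?_, ?_, ?_, ?_, ?_, ?_, ?_, ?_, ?_⟩, ⟨?_, ?_, ?_, ?_, ?_, ?_, ?_, ?_⟩, ⟨?_, ?_, ?_, ?_, ?_, ?_, ?_⟩,
    ⟨?_, ?_, ?_, ?_, ?_, ?_⟩, ⟨?_, ?_, ?_, ?_, ?_⟩, ⟨?_, ?_, ?_, ?_⟩, ⟨?_, ?_, ?_⟩, ⟨?_, ?_⟩, ?_⟩
  all_goals (rintro rfl; simp_all)

/-- a vertex `t ∈ NB G F` on the other side is adjacent to `x` if `{y, x}` is no fragment -/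
theorem adj_of_notfrag (hFRG : SpecFRG) (hG : K48 G) {F : Finset α} (hF : MFrag G F) (h3 : F.card ≤ 3) {y x t : α}
    (hy : y ∈ F) (hx : x ∈ F) (hyx : y ≠ x) (hF3 : 3 ≤ F.card) (ht : t ∈ NB G F) (hyt : ¬ G.Adj y t) :
    G.Adj x t := by
  by_contra hxt
  have hD : ({y, x} : Finset α) ⊂ F := by
    rw [ssubset_iff_subset_ne]
    refine ⟨?_, fun h => ?_⟩
    · intro v hv
      rw [mem_insert, mem_singleton] at hv
      rcases hv with rfl | rfl <;> assumption
    · rw [← h, card_pair hyx] at hF3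
      omega
  refine notfrag hFRG hG hF (D := {y, x}) (W := (F \ {y, x}) ∪ (NB G F).erase t) hD (card_pair hyx) ?_ ?_
  · intro v hv
    obtain ⟨h1, a, ha, hav⟩ := mem_NB.1 hv
    rw [mem_union, mem_sdiff]
    by_cases hvF : v ∈ F
    · exact Or.inl ⟨hvF, h1⟩
    · right
      rw [mem_erase]
      refine ⟨?_, mem_NB.2 ⟨hvF, a, hD.subset ha, hav⟩⟩
      rintro rfl
      rw [mem_insert, mem_singleton] at ha
      rcases ha with rfl | rfl
      · exact hyt hav
      · exact hxt hav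
  · have e1 := card_union_le (F \ {y, x}) ((NB G F).erase t)
    have e2 := card_erase_of_mem ht
    have e3 := card_sdiff_of_subset hD.subset
    rw [card_pair hyx] at e3
    have e4 := hF.1.2.2.1
    omega

theorem caseBe (hFRG : SpecFRG) (hG : K48 G) {F T X Y : Finset α} {x : α} (hF : MFrag G F) (hF3 : 3 ≤ F.card) (hx : x ∈ F)
    (hT : Sep G T X Y) (hxT : x ∈ T) (hp : (F ∩ T).card = 1) (hb : (NB G F ∩ T).card = 2)
    (hq : (Rst G F ∩ T).card = 1) (ha : (NB G F ∩ X).card = 1) (hc : (NB G F ∩ Y).card = 1)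
    (hf1 : (F ∩ X).card = 1) (hf2 : (F ∩ Y).card = 1) : ∃ y z sa sc s s' q, TBe G F T X Y x y z sa sc s s' q := by
  have hS : Sep G (NB G F) F (Rst G F) := hFRG.fsep hF.1.1
  have hFc := part hT hS.subP
  obtain ⟨x', hFT⟩ := card_eq_one.1 hp
  obtain ⟨s, s', hss, hNT⟩ := card_eq_two.1 hb
  obtain ⟨q, hRT⟩ := card_eq_one.1 hq
  obtain ⟨sa, hNX⟩ := card_eq_one.1 ha
  obtain ⟨sc, hNY⟩ := card_eq_one.1 hc
  obtain ⟨y, hFX⟩ := card_eq_one.1 hf1
  obtain ⟨z, hFY⟩ := card_eq_one.1 hf2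
  have hxx : x = x' := by
    have : x ∈ F ∩ T := mem_inter.2 ⟨hx, hxT⟩
    rw [hFT] at this
    simpa using this
  subst hxx
  have ny := corner1 hFRG hG hS hT hFX (by omega)
  have nz := corner1 hFRG hG hS hT.symm hFY (by omega)
  rw [hNX, hNT, hFT] at ny
  rw [hNY, hNT, hFT] at nz
  have eFT : ∀ v, (v ∈ F ∧ v ∈ T) ↔ v = x := fun v => by rw [← mem_inter, hFT, mem_singleton]
  have eNT : ∀ v, (v ∈ NB G F ∧ v ∈ T) ↔ (v = s ∨ v = s') := fun v => by
    rw [← mem_inter, hNT, mem_insert, mem_singleton]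
  have eRT : ∀ v, (v ∈ Rst G F ∧ v ∈ T) ↔ v = q := fun v => by rw [← mem_inter, hRT, mem_singleton]
  have eNX : ∀ v, (v ∈ NB G F ∧ v ∈ X) ↔ v = sa := fun v => by rw [← mem_inter, hNX, mem_singleton]
  have eNY : ∀ v, (v ∈ NB G F ∧ v ∈ Y) ↔ v = sc := fun v => by rw [← mem_inter, hNY, mem_singleton]
  have eFX : ∀ v, (v ∈ F ∧ v ∈ X) ↔ v = y := fun v => by rw [← mem_inter, hFX, mem_singleton]
  have eFY : ∀ v, (v ∈ F ∧ v ∈ Y) ↔ v = z := fun v => by rw [← mem_inter, hFY, mem_singleton]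
  have d1 : ∀ v ∈ NB G F, v ∉ F := fun v h h' => (disjoint_left.1 hS.2.1) h h'
  have d2 : ∀ v ∈ NB G F, v ∉ Rst G F := fun v h h' => (disjoint_left.1 hS.2.2.1) h h'
  have d3 : ∀ v ∈ F, v ∉ Rst G F := fun v h h' => (disjoint_left.1 hS.2.2.2.1) h h'
  have d4 : ∀ v ∈ T, v ∉ X := fun v h h' => (disjoint_left.1 hT.2.1) h h'
  have d5 : ∀ v ∈ T, v ∉ Y := fun v h h' => (disjoint_left.1 hT.2.2.1) h h'
  have d6 : ∀ v ∈ X, v ∉ Y := fun v h h' => (disjoint_left.1 hT.2.2.2.1) h h'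
  have oF : ∀ v ∈ F, v ∈ T ∨ v ∈ X ∨ v ∈ Y := fun v h => hT.mem_or (hS.subP h)
  have oN : ∀ v ∈ NB G F, v ∈ T ∨ v ∈ X ∨ v ∈ Y := fun v h => hT.mem_or (hS.subS h)
  have oT : ∀ v ∈ T, v ∈ NB G F ∨ v ∈ F ∨ v ∈ Rst G F := fun v h => hS.mem_or (hT.subS h)
  have mx := (eFT x).2 rfl
  have my := (eFX y).2 rfl
  have mz := (eFY z).2 rfl
  have ma := (eNX sa).2 rfl
  have mc := (eNY sc).2 rfl
  have ms := (eNT s).2 (Or.inl rfl)
  have ms' := (eNT s').2 (Or.inr rfl)
  have mq := (eRT q).2 rfl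
  have hyx : y ≠ x := fun e => d4 x hxT (e ▸ my.2)
  have hzx : z ≠ x := fun e => d5 x hxT (e ▸ mz.2)
  refine ⟨y, z, sa, sc, s, s', q, nd8 d1 d2 d3 d4 d5 d6 hss mx my mz ma mc ms ms' mq, ?_, ?_, ?_, ⟨my.2, ma.2⟩,
    ⟨mz.2, mc.2⟩, ?_, ?_, ?_, ?_⟩
  · ext v
    simp only [mem_insert, mem_singleton]
    constructor
    · intro h
      rcases oF v h with h' | h' | h'
      · exact Or.inl ((eFT v).1 ⟨h, h'⟩)
      · exact Or.inr (Or.inl ((eFX v).1 ⟨h, h'⟩))
      · exact Or.inr (Or.inr ((eFY v).1 ⟨h, h'⟩))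
    · rintro (rfl | rfl | rfl)
      exacts [mx.1, my.1, mz.1]
  · ext v
    simp only [mem_insert, mem_singleton]
    constructor
    · intro h
      rcases oN v h with h' | h' | h'
      · rcases (eNT v).1 ⟨h, h'⟩ with e | e
        · exact Or.inr (Or.inr (Or.inl e))
        · exact Or.inr (Or.inr (Or.inr e))
      · exact Or.inl ((eNX v).1 ⟨h, h'⟩)
      · exact Or.inr (Or.inl ((eNY v).1 ⟨h, h'⟩))
    · rintro (rfl | rfl | rfl | rfl)
      exacts [ma.1, mc.1, ms.1, ms'.1]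
  · ext v
    simp only [mem_insert, mem_singleton]
    constructor
    · intro h
      rcases oT v h with h' | h' | h'
      · rcases (eNT v).1 ⟨h', h⟩ with e | e
        · exact Or.inr (Or.inl e)
        · exact Or.inr (Or.inr (Or.inl e))
      · exact Or.inl ((eFT v).1 ⟨h', h⟩)
      · exact Or.inr (Or.inr (Or.inr ((eRT v).1 ⟨h', h⟩)))
    · rintro (rfl | rfl | rfl | rfl)
      exacts [mx.2, ms.2, ms'.2, mq.2]
  · intro w
    rw [ny w]
    simp only [mem_union, mem_insert, mem_singleton]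
    tauto
  · intro w
    rw [nz w]
    simp only [mem_union, mem_insert, mem_singleton]
    tauto
  · exact adj_of_notfrag hFRG hG hF (by omega) mz.1 mx.1 hzx hF3 ma.1
      (fun h => hT.2.2.2.2 sa ma.2 z mz.2 h.symm)
  · exact adj_of_notfrag hFRG hG hF (by omega) my.1 mx.1 hyx hF3 mc.1
      (fun h => hT.2.2.2.2 y my.2 sc mc.2 h)

theorem caseGa (hFRG : SpecFRG) (hG : K48 G) {F T X Y : Finset α} {x : α} (hF : MFrag G F) (hF3 : 3 ≤ F.card) (hx : x ∈ F)
    (hT : Sep G T X Y) (hxT : x ∈ T) (hp : (F ∩ T).card = 2) (hb : (NB G F ∩ T).card = 0)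
    (hq : (Rst G F ∩ T).card = 2) (ha : (NB G F ∩ X).card = 2) (hc : (NB G F ∩ Y).card = 2)
    (hf1 : (F ∩ X).card = 1) (hf2 : (F ∩ Y).card = 0) :
    ∃ x' w s₁ s₂ s₃ s₄ q₁ q₂, TGa G F T X Y x x' w s₁ s₂ s₃ s₄ q₁ q₂ := by
  have hS : Sep G (NB G F) F (Rst G F) := hFRG.fsep hF.1.1
  have hFc := part hT hS.subP
  obtain ⟨x₀, x₁, hxx₀, hFT₀⟩ := card_eq_two.1 hp
  obtain ⟨x', hxx, hFT⟩ : ∃ x', x ≠ x' ∧ F ∩ T = {x, x'} := by
    have : x ∈ F ∩ T := mem_inter.2 ⟨hx, hxT⟩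
    rw [hFT₀, mem_insert, mem_singleton] at this
    rcases this with rfl | rfl
    · exact ⟨x₁, hxx₀, hFT₀⟩
    · exact ⟨x₀, hxx₀.symm, by rw [hFT₀, pair_comm]⟩
  have hNT := card_eq_zero.1 hb
  obtain ⟨q₁, q₂, hqq, hRT⟩ := card_eq_two.1 hq
  obtain ⟨s₁, s₂, h12, hNX⟩ := card_eq_two.1 ha
  obtain ⟨s₃, s₄, h34, hNY⟩ := card_eq_two.1 hc
  obtain ⟨w, hFX⟩ := card_eq_one.1 hf1
  have hFY := card_eq_zero.1 hf2
  have nw := corner1 hFRG hG hS hT hFX (by omega)
  rw [hNX, hNT, hFT] at nw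
  have eFT : ∀ v, (v ∈ F ∧ v ∈ T) ↔ (v = x ∨ v = x') := fun v => by
    rw [← mem_inter, hFT, mem_insert, mem_singleton]
  have eNT : ∀ v, ¬ (v ∈ NB G F ∧ v ∈ T) := fun v => by
    rw [← mem_inter, hNT]; exact notMem_empty v
  have eRT : ∀ v, (v ∈ Rst G F ∧ v ∈ T) ↔ (v = q₁ ∨ v = q₂) := fun v => by
    rw [← mem_inter, hRT, mem_insert, mem_singleton]
  have eNX : ∀ v, (v ∈ NB G F ∧ v ∈ X) ↔ (v = s₁ ∨ v = s₂) := fun v => by
    rw [← mem_inter, hNX, mem_insert, mem_singleton]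
  have eNY : ∀ v, (v ∈ NB G F ∧ v ∈ Y) ↔ (v = s₃ ∨ v = s₄) := fun v => by
    rw [← mem_inter, hNY, mem_insert, mem_singleton]
  have eFX : ∀ v, (v ∈ F ∧ v ∈ X) ↔ v = w := fun v => by rw [← mem_inter, hFX, mem_singleton]
  have eFY : ∀ v, ¬ (v ∈ F ∧ v ∈ Y) := fun v => by rw [← mem_inter, hFY]; exact notMem_empty v
  have d1 : ∀ v ∈ NB G F, v ∉ F := fun v h h' => (disjoint_left.1 hS.2.1) h h'
  have d2 : ∀ v ∈ NB G F, v ∉ Rst G F := fun v h h' => (disjoint_left.1 hS.2.2.1) h h'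
  have d3 : ∀ v ∈ F, v ∉ Rst G F := fun v h h' => (disjoint_left.1 hS.2.2.2.1) h h'
  have d4 : ∀ v ∈ T, v ∉ X := fun v h h' => (disjoint_left.1 hT.2.1) h h'
  have d5 : ∀ v ∈ T, v ∉ Y := fun v h h' => (disjoint_left.1 hT.2.2.1) h h'
  have d6 : ∀ v ∈ X, v ∉ Y := fun v h h' => (disjoint_left.1 hT.2.2.2.1) h h'
  have oF : ∀ v ∈ F, v ∈ T ∨ v ∈ X ∨ v ∈ Y := fun v h => hT.mem_or (hS.subP h)
  have oN : ∀ v ∈ NB G F, v ∈ T ∨ v ∈ X ∨ v ∈ Y := fun v h => hT.mem_or (hS.subS h)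
  have oT : ∀ v ∈ T, v ∈ NB G F ∨ v ∈ F ∨ v ∈ Rst G F := fun v h => hS.mem_or (hT.subS h)
  have mx := (eFT x).2 (Or.inl rfl)
  have mx' := (eFT x').2 (Or.inr rfl)
  have mw := (eFX w).2 rfl
  have m1 := (eNX s₁).2 (Or.inl rfl)
  have m2 := (eNX s₂).2 (Or.inr rfl)
  have m3 := (eNY s₃).2 (Or.inl rfl)
  have m4 := (eNY s₄).2 (Or.inr rfl)
  have mq₁ := (eRT q₁).2 (Or.inl rfl)
  have mq₂ := (eRT q₂).2 (Or.inr rfl)
  have hwx : w ≠ x := fun e => d4 x hxT (e ▸ mw.2)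
  have hwx' : w ≠ x' := fun e => d4 x' mx'.2 (e ▸ mw.2)
  have n3 : ¬ G.Adj w s₃ := fun h => hT.2.2.2.2 w mw.2 s₃ m3.2 h
  have n4 : ¬ G.Adj w s₄ := fun h => hT.2.2.2.2 w mw.2 s₄ m4.2 h
  refine ⟨x', w, s₁, s₂, s₃, s₄, q₁, q₂, nd9 d1 d2 d3 d4 d5 d6 hxx h12 h34 hqq mx mx' mw m1 m2 m3 m4 mq₁ mq₂,
    ?_, ?_, ?_, ⟨mw.2, m1.2, m2.2⟩, ⟨m3.2, m4.2⟩, ?_, ?_⟩
  · ext v
    simp only [mem_insert, mem_singleton]
    constructor
    · intro h
      rcases oF v h with h' | h' | h'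
      · rcases (eFT v).1 ⟨h, h'⟩ with e | e
        · exact Or.inl e
        · exact Or.inr (Or.inl e)
      · exact Or.inr (Or.inr ((eFX v).1 ⟨h, h'⟩))
      · exact absurd ⟨h, h'⟩ (eFY v)
    · rintro (rfl | rfl | rfl)
      exacts [mx.1, mx'.1, mw.1]
  · ext v
    simp only [mem_insert, mem_singleton]
    constructor
    · intro h
      rcases oN v h with h' | h' | h'
      · exact absurd ⟨h, h'⟩ (eNT v)
      · rcases (eNX v).1 ⟨h, h'⟩ with e | e
        · exact Or.inl e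
        · exact Or.inr (Or.inl e)
      · rcases (eNY v).1 ⟨h, h'⟩ with e | e
        · exact Or.inr (Or.inr (Or.inl e))
        · exact Or.inr (Or.inr (Or.inr e))
    · rintro (rfl | rfl | rfl | rfl)
      exacts [m1.1, m2.1, m3.1, m4.1]
  · ext v
    simp only [mem_insert, mem_singleton]
    constructor
    · intro h
      rcases oT v h with h' | h' | h'
      · exact absurd ⟨h', h⟩ (eNT v)
      · rcases (eFT v).1 ⟨h', h⟩ with e | e
        · exact Or.inl e
        · exact Or.inr (Or.inl e)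
      · rcases (eRT v).1 ⟨h', h⟩ with e | e
        · exact Or.inr (Or.inr (Or.inl e))
        · exact Or.inr (Or.inr (Or.inr e))
    · rintro (rfl | rfl | rfl | rfl)
      exacts [mx.2, mx'.2, mq₁.2, mq₂.2]
  · intro v
    rw [nw v]
    simp only [mem_union, mem_insert, mem_singleton, notMem_empty, or_false]
    tauto
  · exact ⟨adj_of_notfrag hFRG hG hF (by omega) mw.1 mx.1 hwx hF3 m3.1 n3,
      adj_of_notfrag hFRG hG hF (by omega) mw.1 mx.1 hwx hF3 m4.1 n4,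
      adj_of_notfrag hFRG hG hF (by omega) mw.1 mx'.1 hwx' hF3 m3.1 n3,
      adj_of_notfrag hFRG hG hF (by omega) mw.1 mx'.1 hwx' hF3 m4.1 n4⟩

theorem caseAl (hFRG : SpecFRG) (hG : K48 G) {F T X Y : Finset α} {x : α} (hF : MFrag G F) (hx : x ∈ F)
    (hT : Sep G T X Y) (hxT : x ∈ T) (hp : (F ∩ T).card = 2) (hb : (NB G F ∩ T).card = 0)
    (hq : (Rst G F ∩ T).card = 2) (ha : (NB G F ∩ X).card = 2) (hc : (NB G F ∩ Y).card = 2)
    (hf1 : (F ∩ X).card = 1) (hf2 : (F ∩ Y).card = 1) :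
    ∃ x' z z' s₁ s₂ s₃ s₄ q₁ q₂, TAl G F T X Y x x' z z' s₁ s₂ s₃ s₄ q₁ q₂ := by
  have hS : Sep G (NB G F) F (Rst G F) := hFRG.fsep hF.1.1
  obtain ⟨x₀, x₁, hxx₀, hFT₀⟩ := card_eq_two.1 hp
  obtain ⟨x', hxx, hFT⟩ : ∃ x', x ≠ x' ∧ F ∩ T = {x, x'} := by
    have : x ∈ F ∩ T := mem_inter.2 ⟨hx, hxT⟩
    rw [hFT₀, mem_insert, mem_singleton] at this
    rcases this with rfl | rfl
    · exact ⟨x₁, hxx₀, hFT₀⟩
    · exact ⟨x₀, hxx₀.symm, by rw [hFT₀, pair_comm]⟩
  have hNT := card_eq_zero.1 hb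
  obtain ⟨q₁, q₂, hqq, hRT⟩ := card_eq_two.1 hq
  obtain ⟨s₁, s₂, h12, hNX⟩ := card_eq_two.1 ha
  obtain ⟨s₃, s₄, h34, hNY⟩ := card_eq_two.1 hc
  obtain ⟨z, hFX⟩ := card_eq_one.1 hf1
  obtain ⟨z', hFY⟩ := card_eq_one.1 hf2
  have nz := corner1 hFRG hG hS hT hFX (by omega)
  have nz' := corner1 hFRG hG hS hT.symm hFY (by omega)
  rw [hNX, hNT, hFT] at nz
  rw [hNY, hNT, hFT] at nz'
  have eFT : ∀ v, (v ∈ F ∧ v ∈ T) ↔ (v = x ∨ v = x') := fun v => by
    rw [← mem_inter, hFT, mem_insert, mem_singleton]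
  have eNT : ∀ v, ¬ (v ∈ NB G F ∧ v ∈ T) := fun v => by
    rw [← mem_inter, hNT]; exact notMem_empty v
  have eRT : ∀ v, (v ∈ Rst G F ∧ v ∈ T) ↔ (v = q₁ ∨ v = q₂) := fun v => by
    rw [← mem_inter, hRT, mem_insert, mem_singleton]
  have eNX : ∀ v, (v ∈ NB G F ∧ v ∈ X) ↔ (v = s₁ ∨ v = s₂) := fun v => by
    rw [← mem_inter, hNX, mem_insert, mem_singleton]
  have eNY : ∀ v, (v ∈ NB G F ∧ v ∈ Y) ↔ (v = s₃ ∨ v = s₄) := fun v => by
    rw [← mem_inter, hNY, mem_insert, mem_singleton]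
  have eFX : ∀ v, (v ∈ F ∧ v ∈ X) ↔ v = z := fun v => by rw [← mem_inter, hFX, mem_singleton]
  have eFY : ∀ v, (v ∈ F ∧ v ∈ Y) ↔ v = z' := fun v => by rw [← mem_inter, hFY, mem_singleton]
  have d1 : ∀ v ∈ NB G F, v ∉ F := fun v h h' => (disjoint_left.1 hS.2.1) h h'
  have d2 : ∀ v ∈ NB G F, v ∉ Rst G F := fun v h h' => (disjoint_left.1 hS.2.2.1) h h'
  have d3 : ∀ v ∈ F, v ∉ Rst G F := fun v h h' => (disjoint_left.1 hS.2.2.2.1) h h'
  have d4 : ∀ v ∈ T, v ∉ X := fun v h h' => (disjoint_left.1 hT.2.1) h h'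
  have d5 : ∀ v ∈ T, v ∉ Y := fun v h h' => (disjoint_left.1 hT.2.2.1) h h'
  have d6 : ∀ v ∈ X, v ∉ Y := fun v h h' => (disjoint_left.1 hT.2.2.2.1) h h'
  have oF : ∀ v ∈ F, v ∈ T ∨ v ∈ X ∨ v ∈ Y := fun v h => hT.mem_or (hS.subP h)
  have oN : ∀ v ∈ NB G F, v ∈ T ∨ v ∈ X ∨ v ∈ Y := fun v h => hT.mem_or (hS.subS h)
  have oT : ∀ v ∈ T, v ∈ NB G F ∨ v ∈ F ∨ v ∈ Rst G F := fun v h => hS.mem_or (hT.subS h)
  have mx := (eFT x).2 (Or.inl rfl)
  have mx' := (eFT x').2 (Or.inr rfl)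
  have mz := (eFX z).2 rfl
  have mz' := (eFY z').2 rfl
  have m1 := (eNX s₁).2 (Or.inl rfl)
  have m2 := (eNX s₂).2 (Or.inr rfl)
  have m3 := (eNY s₃).2 (Or.inl rfl)
  have m4 := (eNY s₄).2 (Or.inr rfl)
  have mq₁ := (eRT q₁).2 (Or.inl rfl)
  have mq₂ := (eRT q₂).2 (Or.inr rfl)
  refine ⟨x', z, z', s₁, s₂, s₃, s₄, q₁, q₂,
    nd10 d1 d2 d3 d4 d5 d6 hxx h12 h34 hqq mx mx' mz mz' m1 m2 m3 m4 mq₁ mq₂,
    ?_, ?_, ?_, ⟨mz.2, m1.2, m2.2⟩, ⟨mz'.2, m3.2, m4.2⟩, ?_, ?_⟩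
  · ext v
    simp only [mem_insert, mem_singleton]
    constructor
    · intro h
      rcases oF v h with h' | h' | h'
      · rcases (eFT v).1 ⟨h, h'⟩ with e | e
        · exact Or.inl e
        · exact Or.inr (Or.inl e)
      · exact Or.inr (Or.inr (Or.inl ((eFX v).1 ⟨h, h'⟩)))
      · exact Or.inr (Or.inr (Or.inr ((eFY v).1 ⟨h, h'⟩)))
    · rintro (rfl | rfl | rfl | rfl)
      exacts [mx.1, mx'.1, mz.1, mz'.1]
  · ext v
    simp only [mem_insert, mem_singleton]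
    constructor
    · intro h
      rcases oN v h with h' | h' | h'
      · exact absurd ⟨h, h'⟩ (eNT v)
      · rcases (eNX v).1 ⟨h, h'⟩ with e | e
        · exact Or.inl e
        · exact Or.inr (Or.inl e)
      · rcases (eNY v).1 ⟨h, h'⟩ with e | e
        · exact Or.inr (Or.inr (Or.inl e))
        · exact Or.inr (Or.inr (Or.inr e))
    · rintro (rfl | rfl | rfl | rfl)
      exacts [m1.1, m2.1, m3.1, m4.1]
  · ext v
    simp only [mem_insert, mem_singleton]
    constructor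
    · intro h
      rcases oT v h with h' | h' | h'
      · exact absurd ⟨h', h⟩ (eNT v)
      · rcases (eFT v).1 ⟨h', h⟩ with e | e
        · exact Or.inl e
        · exact Or.inr (Or.inl e)
      · rcases (eRT v).1 ⟨h', h⟩ with e | e
        · exact Or.inr (Or.inr (Or.inl e))
        · exact Or.inr (Or.inr (Or.inr e))
    · rintro (rfl | rfl | rfl | rfl)
      exacts [mx.2, mx'.2, mq₁.2, mq₂.2]
  · intro v
    rw [nz v]
    simp only [mem_union, mem_insert, mem_singleton, notMem_empty, or_false]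
    tauto
  · intro v
    rw [nz' v]
    simp only [mem_union, mem_insert, mem_singleton, notMem_empty, or_false]
    tauto

end DL.CLSM

open DL.CLSM in
/-- CLS -/
theorem DL.specCLS (hFRG : DL.SpecFRG) : DL.SpecCLS := by
  intro α _ _ G F T X Y x hG hF h3 hx hT hT4 hxT hX hY
  have hS : Sep G (NB G F) F (Rst G F) := hFRG.fsep hF.1.1
  have hN4 := hF.1.2.2.1
  have hR2 : 2 ≤ (Rst G F).card := hF.1.2.2.2
  have e1 := part hT hS.subS
  have e2 := part hS hT.subS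
  have e3 := part hT hS.subP
  have e4 := part hT hS.subQ
  have e5 := part hS hT.subP
  have e6 := part hS hT.subQ
  rw [inter_comm T, inter_comm T, inter_comm T] at e2
  rw [inter_comm X, inter_comm X, inter_comm X] at e5
  rw [inter_comm Y, inter_comm Y, inter_comm Y] at e6
  have hp : 1 ≤ (F ∩ T).card := card_pos.2 ⟨x, mem_inter.2 ⟨hx, hxT⟩⟩
  have neR : (Rst G F).Nonempty := card_pos.1 (by omega)
  have neF : F.Nonempty := ⟨x, hx⟩
  have k1 : 0 < (F ∩ X).card → 4 ≤ (NB G F ∩ X).card + (NB G F ∩ T).card + (F ∩ T).card := fun h =>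
    hFRG.four hG.1 hS hT (card_pos.1 h) (neR.mono subset_union_left)
  have k2 : 0 < (F ∩ Y).card → 4 ≤ (NB G F ∩ Y).card + (NB G F ∩ T).card + (F ∩ T).card := fun h =>
    hFRG.four hG.1 hS hT.symm (card_pos.1 h) (neR.mono subset_union_left)
  have k3 : 0 < (Rst G F ∩ X).card → 4 ≤ (NB G F ∩ X).card + (NB G F ∩ T).card + (Rst G F ∩ T).card := fun h =>
    hFRG.four hG.1 hS.symm hT (card_pos.1 h) (neF.mono subset_union_left)
  have k4 : 0 < (Rst G F ∩ Y).card → 4 ≤ (NB G F ∩ Y).card + (NB G F ∩ T).card + (Rst G F ∩ T).card := fun h =>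
    hFRG.four hG.1 hS.symm hT.symm (card_pos.1 h) (neF.mono subset_union_left)
  have m1 : 2 ≤ (F ∩ X).card → 5 ≤ (NB G F ∩ X).card + (NB G F ∩ T).card + (F ∩ T).card := fun h => by
    by_contra hcon
    have h4 : (NB G F ∩ X).card + (NB G F ∩ T).card + (F ∩ T).card = 4 := by
      have := k1 (by omega)
      omega
    refine hF.2 (F ∩ X) ?_ (hFRG.cfrag hG.1 hS hT h4 h hR2).1
    rw [ssubset_iff_of_subset inter_subset_left]
    exact ⟨x, hx, fun hc => disjoint_left.1 hT.2.1 hxT (mem_inter.1 hc).2⟩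
  have m2 : 2 ≤ (F ∩ Y).card → 5 ≤ (NB G F ∩ Y).card + (NB G F ∩ T).card + (F ∩ T).card := fun h => by
    by_contra hcon
    have h4 : (NB G F ∩ Y).card + (NB G F ∩ T).card + (F ∩ T).card = 4 := by
      have := k2 (by omega)
      omega
    refine hF.2 (F ∩ Y) ?_ (hFRG.cfrag hG.1 hS hT.symm h4 h hR2).1
    rw [ssubset_iff_of_subset inter_subset_left]
    exact ⟨x, hx, fun hc => disjoint_left.1 hT.2.2.1 hxT (mem_inter.1 hc).2⟩
  rcases arith (a := (NB G F ∩ X).card) (b := (NB G F ∩ T).card) (c := (NB G F ∩ Y).card) (p := (F ∩ T).card)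
    (q := (Rst G F ∩ T).card) (f1 := (F ∩ X).card) (f2 := (F ∩ Y).card) (y1 := (Rst G F ∩ X).card)
    (y2 := (Rst G F ∩ Y).card) (by omega) (by omega) (by omega) (by omega) (by omega) (by omega) k1 k2 k3 k4 m1 m2
    with ⟨h1, h2, h3', h4, h5, h6, h7⟩ | ⟨h1, h2, h3', h4, h5, h6, h7⟩ | ⟨h1, h2, h3', h4, h5, h6, h7⟩ |
      ⟨h1, h2, h3', h4, h5, h6, h7⟩
  · exact Or.inl (caseBe hFRG hG hF h3 hx hT hxT h1 h2 h3' h4 h5 h6 h7)
  · exact Or.inr (Or.inl (caseGa hFRG hG hF h3 hx hT hxT h1 h2 h3' h4 h5 h6 h7))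
  · exact Or.inr (Or.inr (Or.inl (caseGa hFRG hG hF h3 hx hT.symm hxT h1 h2 h3' h5 h4 h7 h6)))
  · exact Or.inr (Or.inr (Or.inr (caseAl hFRG hG hF hx hT hxT h1 h2 h3' h4 h5 h6 h7)))
end

section
/-!
# MP_3ff0f8_gt, G4 block: MAL (helper57)
-/
open SimpleGraph Finset

namespace DL.MALM

open DL.FRGM

variable {α : Type} [Fintype α] [DecidableEq α] {G : SimpleGraph α}

/-- a small component is impossible -/
theorem comp {H : SimpleGraph α} {D W₃ : Finset α} {s c r : α} (hG : KConn 4 G) (hD : D ⊆ VS G)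
    (hK : ∀ v, H.Reachable s v → v ∈ D)
    (h1 : ∀ p, H.Reachable s p → p ≠ s → ∀ w, G.Adj p w → H.Reachable s w ∨ w = c)
    (h2 : ∀ w, G.Adj s w → H.Reachable s w ∨ w ∈ W₃) (hW : W₃.card ≤ 3)
    (hr : r ∈ VS G) (hrD : r ∉ D) (hrc : r ≠ c) : False := by
  classical
  set K : Finset α := univ.filter fun v => H.Reachable s v with hKd
  have hKm : ∀ v, v ∈ K ↔ H.Reachable s v := fun v => by simp [hKd]
  have hsD : s ∈ D := hK s (Reachable.refl s)
  by_cases hne : (K.erase s).Nonempty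
  · refine few (D := K.erase s) (W := {s, c}) (r := r) hG ?_ hne ?_ ?_ hr ?_ ?_
    · intro v hv
      exact hD (hK v ((hKm v).1 (mem_of_mem_erase hv)))
    · intro w hw
      obtain ⟨hw1, a, ha, haw⟩ := mem_NB.1 hw
      rw [mem_erase] at ha hw1
      rcases h1 a ((hKm a).1 ha.2) ha.1 w haw with h | h
      · by_cases hws : w = s
        · simp [hws]
        · exact absurd ⟨hws, (hKm w).2 h⟩ hw1
      · simp [h]
    · exact (card_insert_le _ _).trans (by simp)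
    · intro h
      exact hrD (hK r ((hKm r).1 (mem_of_mem_erase h)))
    · intro h
      rw [mem_insert, mem_singleton] at h
      rcases h with h | h
      · exact hrD (h ▸ hsD)
      · exact hrc h
  · have h3 : nbs G s ⊆ W₃ := by
      intro w hw
      rw [mem_nbs] at hw
      rcases h2 w hw with h | h
      · exfalso
        exact hne ⟨w, mem_erase.2 ⟨hw.ne', (hKm w).2 h⟩⟩
      · exact h
    have h4 := card_le_card h3
    have h5 := hG.le_nbs (hD hsD)
    omega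

theorem p33_swap {x y s₁ s₂ s₃ s₄ : α} (h : P33 G x y s₁ s₂ s₃ s₄) : P33 G y x s₂ s₁ s₃ s₄ := by
  obtain ⟨h1, h2, h3⟩ := h
  refine ⟨?_, h3, h2⟩
  simp only [List.nodup_cons, List.mem_cons, List.not_mem_nil, or_false, not_or] at h1 ⊢
  grind

theorem p33_swap' {x y s₁ s₂ s₃ s₄ : α} (h : P33 G x y s₁ s₂ s₃ s₄) : P33 G x y s₁ s₂ s₄ s₃ := by
  obtain ⟨h1, h2, h3⟩ := h
  refine ⟨?_, ?_, ?_⟩
  · simp only [List.nodup_cons, List.mem_cons, List.not_mem_nil, or_false, not_or] at h1 ⊢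
    grind
  · intro w
    rw [h2]
    tauto
  · intro w
    rw [h3]
    tauto

/-- one half of (1) -/
theorem one {x y s₁ s₂ s₃ s₄ c d : α} {D E : Finset α} (hG : KConn 4 G)
    (h : P33 G x y s₁ s₂ s₃ s₄) (hsep : Sep G {x, y, c, d} D E) (hs₁ : s₁ ∈ D)
    (hs₂ : s₂ ∈ D) (hs₃ : s₃ ∈ E) (hs₄ : s₄ ∈ E) (hxc : x ≠ c)
    (hn : ¬ (delE (del G (univ \ insert d D)) s₁ s₂).Reachable s₁ s₂)
    (hd : ¬ (delE (del G (univ \ insert d D)) s₁ s₂).Reachable s₁ d) : False := by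
  set H := delE (del G (univ \ insert d D)) s₁ s₂ with hH
  have hA : ∀ a b, H.Adj a b ↔ (G.Adj a b ∧ (a = d ∨ a ∈ D) ∧ (b = d ∨ b ∈ D)) ∧ s(a, b) ≠ s(s₁, s₂) := by
    intro a b
    simp only [hH, delE, del, deleteEdges_adj, Set.mem_singleton_iff, mem_sdiff, mem_univ, true_and, not_not, mem_insert]
  obtain ⟨hnd, hnx, hny⟩ := h
  simp only [List.nodup_cons, List.mem_cons, List.not_mem_nil, or_false, not_or] at hnd
  have hDE : ∀ v, v ∈ D → v ∉ E := fun v hv => Finset.disjoint_left.1 hsep.2.2.2.1 hv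
  have hTD : ∀ v, v ∈ D → v ∉ ({x, y, c, d} : Finset α) := fun v hv hv' => Finset.disjoint_left.1 hsep.2.1 hv' hv
  have hs₁d : s₁ ≠ d := fun e => hTD s₁ hs₁ (by simp [e])
  have hs₂d : s₂ ≠ d := fun e => hTD s₂ hs₂ (by simp [e])
  have hxV : x ∈ VS G := hsep.subS (by simp)
  have hK : ∀ v, H.Reachable s₁ v → v ∈ D := by
    intro v hv
    by_cases hvs : v = s₁
    · exact hvs ▸ hs₁
    · obtain ⟨u, hu⟩ := exists_adj_of_reachable hv.symm hvs
      rcases ((hA v u).1 hu).1.2.1 with h | h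
      · exact absurd (h ▸ hv) hd
      · exact h
  have key : ∀ p, H.Reachable s₁ p → ∀ w, G.Adj p w → s(p, w) ≠ s(s₁, s₂) → (w ∈ D ∨ w = d) → H.Reachable s₁ w := by
    intro p hp w hpw hne hw
    refine hp.trans (Adj.reachable ((hA _ _).2 ⟨⟨hpw, Or.inr (hK p hp), hw.symm⟩, hne⟩))
  refine comp (H := H) (D := D) (W₃ := {y, s₂, c}) (s := s₁) (c := c) (r := x) hG hsep.subP hK ?_ ?_ ?_ hxV ?_ hxc
  · intro p hp hps w hpw
    have hpD := hK p hp
    have hpn : p ≠ s₂ := fun e => hn (e ▸ hp)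
    have hne : s(p, w) ≠ s(s₁, s₂) := by
      intro e
      rw [Sym2.eq_iff] at e
      rcases e with e | e
      · exact hps e.1
      · exact hpn e.1
    rcases hsep.mem_or (right_mem_VS hpw) with hw | hw | hw
    · simp only [mem_insert, mem_singleton] at hw
      rcases hw with hw | hw | hw | hw
      · subst hw
        rcases (hnx p).1 hpw.symm with e | e | e | e
        · exact absurd (by simp [e]) (hTD p hpD)
        · exact absurd e hpn
        · exact absurd (e ▸ hs₃) (hDE p hpD)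
        · exact absurd (e ▸ hs₄) (hDE p hpD)
      · subst hw
        rcases (hny p).1 hpw.symm with e | e | e | e
        · exact absurd (by simp [e]) (hTD p hpD)
        · exact absurd e hps
        · exact absurd (e ▸ hs₃) (hDE p hpD)
        · exact absurd (e ▸ hs₄) (hDE p hpD)
      · exact Or.inr hw
      · exact Or.inl (key p hp w hpw hne (Or.inr hw))
    · exact Or.inl (key p hp w hpw hne (Or.inl hw))
    · exact absurd hpw (hsep.2.2.2.2 p hpD w hw)
  · intro w hw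
    by_cases hne : s(s₁, w) = s(s₁, s₂)
    · right
      rw [Sym2.eq_iff] at hne
      rcases hne with e | e
      · simp [e.2]
      · exact absurd (e.1 ▸ rfl) hnd.2.2.1.1
    · rcases hsep.mem_or (right_mem_VS hw) with hw' | hw' | hw'
      · simp only [mem_insert, mem_singleton] at hw'
        rcases hw' with hw' | hw' | hw' | hw'
        · subst hw'
          exfalso
          rcases (hnx s₁).1 hw.symm with e | e | e | e <;> grind
        · right; simp [hw']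
        · right; simp [hw']
        · exact Or.inl (key s₁ (Reachable.refl _) w hw hne (Or.inr hw'))
      · exact Or.inl (key s₁ (Reachable.refl _) w hw hne (Or.inl hw'))
      · exact absurd hw (hsep.2.2.2.2 s₁ hs₁ w hw')
  · exact (card_insert_le _ _).trans (by
      have := card_insert_le s₂ ({c} : Finset α)
      simp at this
      omega)
  · intro h
    exact hTD x h (by simp)

/-- one half of (2) -/
theorem two {x y s₁ s₂ s₃ s₄ c d : α} {D E : Finset α} (hG : KConn 4 G)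
    (h : P33 G x y s₁ s₂ s₃ s₄) (hsep : Sep G {x, y, c, d} D E) (hs₁ : s₁ ∈ E)
    (hs₂ : s₂ ∈ E) (hs₃ : s₃ ∈ D) (hxd : x ≠ d)
    (hn : ¬ (del G (univ \ insert c D)).Reachable s₃ s₄)
    (hd : ¬ (del G (univ \ insert c D)).Reachable s₃ c) : False := by
  set H := del G (univ \ insert c D) with hH
  have hA : ∀ a b, H.Adj a b ↔ (G.Adj a b ∧ (a = c ∨ a ∈ D) ∧ (b = c ∨ b ∈ D)) := by
    intro a b
    simp only [hH, del, mem_sdiff, mem_univ, true_and, not_not, mem_insert]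
  obtain ⟨hnd, hnx, hny⟩ := h
  simp only [List.nodup_cons, List.mem_cons, List.not_mem_nil, or_false, not_or] at hnd
  have hDE : ∀ v, v ∈ D → v ∉ E := fun v hv => Finset.disjoint_left.1 hsep.2.2.2.1 hv
  have hTD : ∀ v, v ∈ D → v ∉ ({x, y, c, d} : Finset α) := fun v hv hv' => Finset.disjoint_left.1 hsep.2.1 hv' hv
  have hxV : x ∈ VS G := hsep.subS (by simp)
  have hK : ∀ v, H.Reachable s₃ v → v ∈ D := by
    intro v hv
    by_cases hvs : v = s₃
    · exact hvs ▸ hs₃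
    · obtain ⟨u, hu⟩ := exists_adj_of_reachable hv.symm hvs
      rcases ((hA v u).1 hu).2.1 with h | h
      · exact absurd (h ▸ hv) hd
      · exact h
  have key : ∀ p, H.Reachable s₃ p → ∀ w, G.Adj p w → (w ∈ D ∨ w = c) → H.Reachable s₃ w := by
    intro p hp w hpw hw
    exact hp.trans (Adj.reachable ((hA _ _).2 ⟨hpw, Or.inr (hK p hp), hw.symm⟩))
  refine comp (H := H) (D := D) (W₃ := {x, y, d}) (s := s₃) (c := d) (r := x) hG hsep.subP hK ?_ ?_ ?_ hxV ?_ hxd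
  · intro p hp hps w hpw
    have hpD := hK p hp
    have hpn : p ≠ s₄ := fun e => hn (e ▸ hp)
    rcases hsep.mem_or (right_mem_VS hpw) with hw | hw | hw
    · simp only [mem_insert, mem_singleton] at hw
      rcases hw with hw | hw | hw | hw
      · subst hw
        rcases (hnx p).1 hpw.symm with e | e | e | e
        · exact absurd (by simp [e]) (hTD p hpD)
        · exact absurd (e ▸ hs₂) (hDE p hpD)
        · exact absurd e hps
        · exact absurd e hpn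
      · subst hw
        rcases (hny p).1 hpw.symm with e | e | e | e
        · exact absurd (by simp [e]) (hTD p hpD)
        · exact absurd (e ▸ hs₁) (hDE p hpD)
        · exact absurd e hps
        · exact absurd e hpn
      · exact Or.inl (key p hp w hpw (Or.inr hw))
      · exact Or.inr hw
    · exact Or.inl (key p hp w hpw (Or.inl hw))
    · exact absurd hpw (hsep.2.2.2.2 p hpD w hw)
  · intro w hw
    rcases hsep.mem_or (right_mem_VS hw) with hw' | hw' | hw'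
    · simp only [mem_insert, mem_singleton] at hw'
      rcases hw' with hw' | hw' | hw' | hw'
      · right; simp [hw']
      · right; simp [hw']
      · exact Or.inl (key s₃ (Reachable.refl _) w hw (Or.inr hw'))
      · right; simp [hw']
    · exact Or.inl (key s₃ (Reachable.refl _) w hw (Or.inl hw'))
    · exact absurd hw (hsep.2.2.2.2 s₃ hs₃ w hw')
  · exact (card_insert_le _ _).trans (by
      have := card_insert_le y ({d} : Finset α)
      simp at this
      omega)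
  · intro h
    exact hTD x h (by simp)

/-- a side contains two of the `s_i` -/
theorem side {x y s₁ s₂ s₃ s₄ c d : α} {D E : Finset α} (hG : KConn 4 G)
    (h : P33 G x y s₁ s₂ s₃ s₄) (hsep : Sep G {x, y, c, d} D E) (hT : ({x, y, c, d} : Finset α).card = 4)
    (hD : 2 ≤ D.card) {s : α} (hs : ∀ v, v ∈ D → (v = s₁ ∨ v = s₂ ∨ v = s₃ ∨ v = s₄) → v = s) : False := by
  classical
  obtain ⟨hnd, hnx, hny⟩ := h
  simp only [List.nodup_cons, List.mem_cons, List.not_mem_nil, or_false, not_or] at hnd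
  have hTD : ∀ v, v ∈ D → v ∉ ({x, y, c, d} : Finset α) := fun v hv hv' => Finset.disjoint_left.1 hsep.2.1 hv' hv
  have hxV : x ∈ VS G := hsep.subS (by simp)
  have hD0 : D.Nonempty := card_pos.1 (by omega)
  have hxD := hTD
  have hne : (D.erase s).Nonempty := by
    rw [← card_pos]
    have := pred_card_le_card_erase (s := D) (a := s)
    omega
  have hxy : x ≠ y := hnd.1.1
  obtain ⟨p, hp, hxp⟩ := hG.exists_adj_of_sep hsep hD0 hT.le (s := x) (by simp)
  have hsD : s ∈ D := by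
    have : p = s := by
      apply hs p hp
      rcases (hnx p).1 hxp with e | e | e | e
      · exact absurd (by simp [e]) (hTD p hp)
      · exact Or.inr (Or.inl e)
      · exact Or.inr (Or.inr (Or.inl e))
      · exact Or.inr (Or.inr (Or.inr e))
    exact this ▸ hp
  have hxc : x ≠ c := by
    rintro rfl
    have : ({x, y, x, d} : Finset α) = {x, y, d} := by ext; simp; tauto
    rw [this] at hT
    have := card_insert_le x ({y, d} : Finset α)
    have := card_insert_le y ({d} : Finset α)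
    simp at this
    omega
  have hxd : x ≠ d := by
    rintro rfl
    have : ({x, y, c, x} : Finset α) = {x, y, c} := by ext; simp; tauto
    rw [this] at hT
    have := card_insert_le x ({y, c} : Finset α)
    have := card_insert_le y ({c} : Finset α)
    simp at this
    omega
  refine few (D := D.erase s) (W := {s, c, d}) (r := x) hG ((erase_subset _ _).trans hsep.subP) hne ?_ ?_ hxV ?_ ?_
  · intro w hw
    obtain ⟨hw1, a, ha, haw⟩ := mem_NB.1 hw
    rw [mem_erase] at ha hw1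
    rcases hsep.mem_or (right_mem_VS haw) with hw' | hw' | hw'
    · simp only [mem_insert, mem_singleton] at hw' ⊢
      rcases hw' with hw' | hw' | hw' | hw'
      · subst hw'
        exfalso
        rcases (hnx a).1 haw.symm with e | e | e | e
        · exact absurd (by simp [e]) (hTD a ha.2)
        · exact ha.1 (hs a ha.2 (by simp [e]))
        · exact ha.1 (hs a ha.2 (by simp [e]))
        · exact ha.1 (hs a ha.2 (by simp [e]))
      · subst hw'
        exfalso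
        rcases (hny a).1 haw.symm with e | e | e | e
        · exact absurd (by simp [e]) (hTD a ha.2)
        · exact ha.1 (hs a ha.2 (by simp [e]))
        · exact ha.1 (hs a ha.2 (by simp [e]))
        · exact ha.1 (hs a ha.2 (by simp [e]))
      · exact Or.inr (Or.inl hw')
      · exact Or.inr (Or.inr hw')
    · simp only [mem_insert, mem_singleton]
      left
      by_contra hws
      exact hw1 ⟨hws, hw'⟩
    · exact absurd haw (hsep.2.2.2.2 a ha.2 w hw')
  · exact (card_insert_le _ _).trans (by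
      have := card_insert_le c ({d} : Finset α)
      simp at this
      omega)
  · intro h
    exact hTD x (mem_of_mem_erase h) (by simp)
  · simp only [mem_insert, mem_singleton, not_or]
    exact ⟨fun e => hTD s hsD (by simp [← e]), hxc, hxd⟩

theorem two_le {s₁ s₂ s₃ s₄ : α} {D : Finset α}
    (h : ∀ s, ¬ ∀ v, v ∈ D → (v = s₁ ∨ v = s₂ ∨ v = s₃ ∨ v = s₄) → v = s) :
    2 ≤ (D ∩ {s₁, s₂, s₃, s₄}).card := by
  by_contra hc
  have hc' : (D ∩ {s₁, s₂, s₃, s₄}).card ≤ 1 := by omega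
  rw [card_le_one] at hc'
  by_cases hne : (D ∩ {s₁, s₂, s₃, s₄}).Nonempty
  · obtain ⟨s, hs⟩ := hne
    apply h s
    intro v hv hv'
    exact hc' v (mem_inter.2 ⟨hv, by simpa using hv'⟩) s hs
  · apply h s₁
    intro v hv hv'
    exact absurd ⟨v, mem_inter.2 ⟨hv, by simpa using hv'⟩⟩ hne

theorem path_vs {H : SimpleGraph α} {D : Finset α} {a b : α} (h : H.Reachable a b)
    (hH : ∀ u v, H.Adj u v → u ∈ D) : ∃ P, IsPth H a b P ∧ vs P ⊆ D := by
  obtain ⟨P, hP⟩ : ∃ P, IsPth H a b P := by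
    obtain ⟨w, hw⟩ := h.exists_isPath
    exact ⟨_, w, hw, rfl⟩
  refine ⟨P, hP, fun v hv => ?_⟩
  obtain ⟨u, hu⟩ := mem_VS.1 (hP.vs_subset hv)
  exact hH v u hu

/-- the main step -/
theorem main {x y s₁ s₂ s₃ s₄ c d : α} {X Y : Finset α} (hG : KConn 4 G)
    (h : P33 G x y s₁ s₂ s₃ s₄) (hsep : Sep G {x, y, c, d} X Y) (hcd : c ≠ d)
    (hxc : x ≠ c) (hxd : x ≠ d) (hyc : y ≠ c) (hyd : y ≠ d)
    (hs₁ : s₁ ∈ X) (hs₂ : s₂ ∈ X) (hs₃ : s₃ ∈ Y) (hs₄ : s₄ ∈ Y) :
    ∃ P Q, IsPth (delE (del G {x, y}) s₁ s₂) s₃ s₄ P ∧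
      IsPth (delE (del G {x, y}) s₁ s₂) s₁ s₂ Q ∧ Disjoint (vs P) (vs Q) := by
  have hXY : Disjoint X Y := hsep.2.2.2.1
  have hTX : ∀ v, v ∈ X → v ∉ ({x, y, c, d} : Finset α) := fun v hv hv' => Finset.disjoint_left.1 hsep.2.1 hv' hv
  have hTY : ∀ v, v ∈ Y → v ∉ ({x, y, c, d} : Finset α) := fun v hv hv' => Finset.disjoint_left.1 hsep.2.2.1 hv' hv
  have hsep' : Sep G {y, x, c, d} X Y := by
    have : ({y, x, c, d} : Finset α) = {x, y, c, d} := by ext; simp; tauto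
    rw [this]; exact hsep
  have hsY : Sep G {x, y, c, d} Y X := hsep.symm
  -- (1)
  have hr1 : (delE (del G (univ \ insert d X)) s₁ s₂).Reachable s₁ s₂ := by
    by_contra hn
    by_cases hd : (delE (del G (univ \ insert d X)) s₁ s₂).Reachable s₁ d
    · have hn' : ¬ (delE (del G (univ \ insert d X)) s₂ s₁).Reachable s₂ s₁ := by
        have : delE (del G (univ \ insert d X)) s₂ s₁ = delE (del G (univ \ insert d X)) s₁ s₂ := by
          unfold delE; rw [Sym2.eq_swap]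
        rw [this]
        exact fun h => hn h.symm
      have hd' : ¬ (delE (del G (univ \ insert d X)) s₂ s₁).Reachable s₂ d := by
        have : delE (del G (univ \ insert d X)) s₂ s₁ = delE (del G (univ \ insert d X)) s₁ s₂ := by
          unfold delE; rw [Sym2.eq_swap]
        rw [this]
        exact fun h => hn (hd.trans h.symm)
      exact one hG (p33_swap h) hsep' hs₂ hs₁ hs₃ hs₄ hyc hn' hd'
    · exact one hG h hsep hs₁ hs₂ hs₃ hs₄ hxc hn hd
  -- (2)
  have hr2 : (del G (univ \ insert c Y)).Reachable s₃ s₄ := by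
    by_contra hn
    by_cases hd : (del G (univ \ insert c Y)).Reachable s₃ c
    · exact two hG (p33_swap' h) hsY hs₁ hs₂ hs₄ hxd (fun h => hn h.symm) (fun h => hn (hd.trans h.symm))
    · exact two hG h hsY hs₁ hs₂ hs₃ hxd hn hd
  obtain ⟨Q, hQ, hQv⟩ := path_vs (D := insert d X) hr1 (by
    intro u v huv
    have := (deleteEdges_adj.1 huv).1
    have h2 := this.2.1
    by_contra hc
    exact h2 (by simpa using hc))
  obtain ⟨P, hP, hPv⟩ := path_vs (D := insert c Y) hr2 (by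
    intro u v huv
    have h2 := huv.2.1
    by_contra hc
    exact h2 (by simpa using hc))
  refine ⟨P, Q, hP.mono ?_, hQ.mono ?_, ?_⟩
  · intro u v huv
    obtain ⟨h1, h2, h3⟩ := huv
    have h2' : u ∈ insert c Y := by by_contra hc; exact h2 (by simpa using hc)
    have h3' : v ∈ insert c Y := by by_contra hc; exact h3 (by simpa using hc)
    have hu : u ∉ ({x, y} : Finset α) := by
      intro hu
      rw [mem_insert, mem_singleton] at hu
      rcases mem_insert.1 h2' with e | e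
      · rcases hu with e' | e'
        · exact hxc (e'.symm.trans e)
        · exact hyc (e'.symm.trans e)
      · exact hTY u e (by rcases hu with e' | e' <;> simp [e'])
    have hv : v ∉ ({x, y} : Finset α) := by
      intro hu
      rw [mem_insert, mem_singleton] at hu
      rcases mem_insert.1 h3' with e | e
      · rcases hu with e' | e'
        · exact hxc (e'.symm.trans e)
        · exact hyc (e'.symm.trans e)
      · exact hTY v e (by rcases hu with e' | e' <;> simp [e'])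
    refine deleteEdges_adj.2 ⟨⟨h1, hu, hv⟩, ?_⟩
    rw [Set.mem_singleton_iff]
    intro e
    have hs : s₁ = u ∨ s₁ = v := by
      rw [Sym2.eq_iff] at e
      rcases e with e | e
      · exact Or.inl e.1.symm
      · exact Or.inr e.2.symm
    have hs' : s₁ ∈ insert c Y := by rcases hs with e | e <;> rw [e] <;> assumption
    rcases mem_insert.1 hs' with e | e
    · exact hTX s₁ hs₁ (by simp [e])
    · exact Finset.disjoint_left.1 hXY hs₁ e
  · intro u v huv
    obtain ⟨⟨h1, h2, h3⟩, h4⟩ := deleteEdges_adj.1 huv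
    have h2' : u ∈ insert d X := by by_contra hc; exact h2 (by simpa using hc)
    have h3' : v ∈ insert d X := by by_contra hc; exact h3 (by simpa using hc)
    have hu : u ∉ ({x, y} : Finset α) := by
      intro hu
      rw [mem_insert, mem_singleton] at hu
      rcases mem_insert.1 h2' with e | e
      · rcases hu with e' | e'
        · exact hxd (e'.symm.trans e)
        · exact hyd (e'.symm.trans e)
      · exact hTX u e (by rcases hu with e' | e' <;> simp [e'])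
    have hv : v ∉ ({x, y} : Finset α) := by
      intro hu
      rw [mem_insert, mem_singleton] at hu
      rcases mem_insert.1 h3' with e | e
      · rcases hu with e' | e'
        · exact hxd (e'.symm.trans e)
        · exact hyd (e'.symm.trans e)
      · exact hTX v e (by rcases hu with e' | e' <;> simp [e'])
    exact deleteEdges_adj.2 ⟨⟨h1, hu, hv⟩, h4⟩
  · refine Finset.disjoint_of_subset_left hPv (Finset.disjoint_of_subset_right hQv ?_)
    rw [Finset.disjoint_left]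
    intro v h1 h2
    rcases mem_insert.1 h1 with e | e <;> rcases mem_insert.1 h2 with e' | e'
    · exact hcd (e.symm.trans e')
    · exact hTX v e' (by simp [e])
    · exact hTY v e (by simp [e'])
    · exact Finset.disjoint_left.1 hXY e' e

end DL.MALM

namespace DL

open DL.MALM DL.FRGM

theorem specMAL : SpecMAL := by
  intro α _ _ G x y s₁ s₂ s₃ s₄ T X Y hK h h12 hsep hT hxT hyT hX hY
  obtain ⟨hG, -⟩ := hK
  have hnd := h.nd
  simp only [List.nodup_cons, List.mem_cons, List.not_mem_nil, or_false, not_or] at hnd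
  have hxy : x ≠ y := hnd.1.1
  obtain ⟨c, d, hcd, hTe⟩ : ∃ c d, c ≠ d ∧ (T.erase x).erase y = {c, d} := by
    rw [← card_eq_two, card_erase_of_mem (mem_erase.2 ⟨hxy.symm, hyT⟩), card_erase_of_mem hxT, hT]
  have hcT : c ∈ (T.erase x).erase y := by rw [hTe]; simp
  have hdT : d ∈ (T.erase x).erase y := by rw [hTe]; simp
  simp only [mem_erase] at hcT hdT
  have hTT : T = {x, y, c, d} := by
    ext v
    have := congrArg (fun S => v ∈ S) hTe
    simp only [mem_erase, mem_insert, mem_singleton, eq_iff_iff] at this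
    simp only [mem_insert, mem_singleton]
    by_cases h1 : v = x
    · simp [h1, hxT]
    · by_cases h2 : v = y
      · simp [h2, hyT]
      · simp only [h1, h2, false_or]
        rw [← this]
        simp [h1, h2]
  rw [hTT] at hsep hT
  have a1 := two_le (fun s hs => side hG h hsep hT hX hs)
  have a2 := two_le (fun s hs => side hG h hsep.symm hT hY hs)
  set S : Finset α := {s₁, s₂, s₃, s₄} with hS
  have hdis : Disjoint (X ∩ S) (Y ∩ S) :=
    Finset.disjoint_of_subset_left inter_subset_left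
      (Finset.disjoint_of_subset_right inter_subset_left hsep.2.2.2.1)
  have hScard : S.card ≤ 4 := card_le_four
  have hU : (X ∩ S) ∪ (Y ∩ S) = S := by
    apply eq_of_subset_of_card_le
    · exact union_subset inter_subset_right inter_subset_right
    · rw [card_union_of_disjoint hdis]; omega
  have hcX : (X ∩ S).card = 2 := by
    have h1 : ((X ∩ S) ∪ (Y ∩ S)).card = S.card := by rw [hU]
    rw [card_union_of_disjoint hdis] at h1
    omega
  have hcY : (Y ∩ S).card = 2 := by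
    have h1 : ((X ∩ S) ∪ (Y ∩ S)).card = S.card := by rw [hU]
    rw [card_union_of_disjoint hdis] at h1
    omega
  have hmem : ∀ s ∈ S, s ∈ X ∨ s ∈ Y := by
    intro s hs
    rw [← hU, mem_union, mem_inter, mem_inter] at hs
    rcases hs with h | h
    · exact Or.inl h.1
    · exact Or.inr h.1
  have hXY : ∀ v, v ∈ X → v ∉ Y := fun v hv => Finset.disjoint_left.1 hsep.2.2.2.1 hv
  have m1 := hmem s₁ (by simp [hS])
  have m2 := hmem s₂ (by simp [hS])
  have m3 := hmem s₃ (by simp [hS])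
  have m4 := hmem s₄ (by simp [hS])
  have three : ∀ D : Finset α, ∀ a b e : α, a ≠ b → a ≠ e → b ≠ e → a ∈ D → b ∈ D → e ∈ D → a ∈ S → b ∈ S → e ∈ S →
      (D ∩ S).card ≠ 2 := by
    intro D a b e h1 h2 h3 h4 h5 h6 h7 h8 h9 h10
    have : ({a, b, e} : Finset α) ⊆ D ∩ S := by
      intro v hv
      simp only [mem_insert, mem_singleton] at hv
      rcases hv with rfl | rfl | rfl <;> exact mem_inter.2 ⟨by assumption, by assumption⟩
    have := card_le_card this
    rw [card_eq_three.2 ⟨a, b, e, h1, h2, h3, rfl⟩] at this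
    omega
  have k1 : s₁ ∈ S := by simp [hS]
  have k2 : s₂ ∈ S := by simp [hS]
  have k3 : s₃ ∈ S := by simp [hS]
  have k4 : s₄ ∈ S := by simp [hS]
  rcases m1 with m1 | m1
  · have m2' : s₂ ∈ X := by
      rcases m2 with m2 | m2
      · exact m2
      · exact absurd h12 (hsep.2.2.2.2 s₁ m1 s₂ m2)
    have m3' : s₃ ∈ Y := by
      rcases m3 with m3 | m3
      · exact absurd hcX (three X s₁ s₂ s₃ hnd.2.2.1.1 hnd.2.2.1.2.1 hnd.2.2.2.1.1 m1 m2' m3 k1 k2 k3)
      · exact m3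
    have m4' : s₄ ∈ Y := by
      rcases m4 with m4 | m4
      · exact absurd hcX (three X s₁ s₂ s₄ hnd.2.2.1.1 hnd.2.2.1.2.2 hnd.2.2.2.1.2 m1 m2' m4 k1 k2 k4)
      · exact m4
    exact main hG h hsep hcd hcT.2.1.symm hdT.2.1.symm hcT.1.symm hdT.1.symm m1 m2' m3' m4'
  · have m2' : s₂ ∈ Y := by
      rcases m2 with m2 | m2
      · exact absurd h12.symm (hsep.2.2.2.2 s₂ m2 s₁ m1)
      · exact m2
    have m3' : s₃ ∈ X := by
      rcases m3 with m3 | m3
      · exact m3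
      · exact absurd hcY (three Y s₁ s₂ s₃ hnd.2.2.1.1 hnd.2.2.1.2.1 hnd.2.2.2.1.1 m1 m2' m3 k1 k2 k3)
    have m4' : s₄ ∈ X := by
      rcases m4 with m4 | m4
      · exact m4
      · exact absurd hcY (three Y s₁ s₂ s₄ hnd.2.2.1.1 hnd.2.2.1.2.2 hnd.2.2.2.1.2 m1 m2' m4 k1 k2 k4)
    exact main hG h hsep.symm hcd hcT.2.1.symm hdT.2.1.symm hcT.1.symm hdT.1.symm m1 m2' m3' m4'

end DL
end

section
/-! # MC1: the double contraction of a (3,3)-pair is in C1 -/
open SimpleGraph Finset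

namespace DL

namespace MC1M

variable {α : Type} [Fintype α] [DecidableEq α] {G : SimpleGraph α}

/-- a closed chain `v p .. X .. a q v` -/
theorem arc {X : Finset α} {p q v a : α} (hX : CSet G X) (hp : p ∈ X) (ha : a ∈ X) (hq : q ∉ X)
    (hv : v ∉ X) (hvq : v ≠ q) (hvp : G.Adj v p) (hvq' : G.Adj v q) (hqa : G.Adj q a) :
    ∃ t ∈ Z1 G, t s(v, p) ≠ 0 ∧ ∀ e w, t e ≠ 0 → w ∈ e → w ∈ insert v (insert q X) := by
  obtain ⟨P, hP⟩ := exists_isPth (hX.2 p hp a ha)
  rw [isPth_del] at hP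
  obtain ⟨hP, hd⟩ := hP
  have hPX : vs P ⊆ X := by
    intro w hw
    by_contra h
    exact disjoint_left.1 hd hw (by simp [h])
  have hqP : q ∉ vs P := fun h => hq (hPX h)
  have h1 := hP.concat hqa.symm hqP
  have hv1 : v ∉ vs (insert s(a, q) P) := by
    rw [vs_insert, mem_union, mem_insert, mem_singleton]
    rintro ((h | h) | h)
    · exact hv (h ▸ ha)
    · exact hvq h
    · exact hv (hPX h)
  have h2 := h1.cons hvp hv1
  have h3 : IsPth G v q {s(v, q)} := IsPth.edge hvq'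
  refine ⟨_, h2.chi_add_mem h3, ?_, ?_⟩
  · have hpq : p ≠ q := fun h => hq (h ▸ hp)
    have h4 : s(v, p) ∉ ({s(v, q)} : Finset (Sym2 α)) := by
      rw [mem_singleton, Sym2.eq_iff]
      rintro (⟨_, h⟩ | ⟨h, _⟩)
      · exact hpq h
      · exact hvq h
    rw [Pi.add_apply, chi_of_mem (mem_insert_self _ _), chi_of_notMem h4]
    simp
  · intro e w he hw
    have h5 := csupp_add _ _ (mem_csupp.2 he)
    rw [csupp_chi, csupp_chi, mem_union] at h5
    have h6 : w ∈ vs (insert s(v, p) (insert s(a, q) P)) ∨ w ∈ vs ({s(v, q)} : Finset (Sym2 α)) :=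
      h5.imp (fun h => mem_vs.2 ⟨e, h, hw⟩) (fun h => mem_vs.2 ⟨e, h, hw⟩)
    simp only [vs_insert, vs_singleton, mem_union, mem_insert, mem_singleton] at h6 ⊢
    rcases h6 with ((h | h) | (h | h) | h) | h | h
    · exact Or.inl h
    · exact Or.inr (Or.inr (h ▸ hp))
    · exact Or.inr (Or.inr (h ▸ ha))
    · exact Or.inr (Or.inl h)
    · exact Or.inr (Or.inr (hPX h))
    · exact Or.inl h
    · exact Or.inr (Or.inl h)

/-- boundary: the last coordinate vanishes -/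
theorem last {z : Sym2 α → Sym2 α → ZMod 2} (hz : IsZ2 G z) {e : Sym2 α} {v w : α} (hv : v ∉ e)
    (h : ∀ w', G.Adj v w' → w' ≠ w → z e s(v, w') = 0) : z e s(v, w) = 0 := by
  classical
  have h1 := hz.2.2 e v hv
  rw [Finset.sum_eq_single s(v, w)] at h1
  · exact h1
  · intro f hf hne
    rw [mem_filter] at hf
    obtain ⟨w', rfl⟩ := hf.2
    by_contra hc
    have h2 := (hz.2.1 _ _ hc).2.1
    exact hc (h w' h2 (fun hw => hne (by rw [hw])))
  · intro hn
    refine absurd ?_ hn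
    simp

theorem disj {z : Sym2 α → Sym2 α → ZMod 2} (hz : IsZ2 G z) {e f : Sym2 α} {v : α} (h1 : v ∈ e)
    (h2 : v ∈ f) : z e f = 0 := by
  by_contra h
  exact (hz.2.1 e f h).2.2 v ⟨h1, h2⟩

/-- a row without edges at `y` -/
theorem mem (hKUR : SpecKUR) {z : Sym2 α → Sym2 α → ZMod 2} (hz : IsZ2 G z) {x p y : α}
    (h : ∀ w, G.Adj y w → z s(x, p) s(y, w) = 0) : z s(x, p) ∈ Z1 (del G {x, y, p}) := by
  have h1 := hKUR.row x p hz
  refine ⟨fun e he => ?_, h1.2⟩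
  obtain ⟨_, h3, h4⟩ := hz.2.1 _ _ he
  have hx : x ∉ e := fun hx => h4 x ⟨Sym2.mem_mk_left _ _, hx⟩
  have hp : p ∉ e := fun hp => h4 p ⟨Sym2.mem_mk_right _ _, hp⟩
  have hy : y ∉ e := by
    rintro ⟨w, rfl⟩
    exact he (h w h3)
  induction e using Sym2.ind with
  | _ a b =>
    simp only [Sym2.mem_iff, not_or] at hx hp hy
    refine ⟨h3, ?_, ?_⟩
    · simp only [mem_insert, mem_singleton, not_or]
      exact ⟨Ne.symm hx.1, Ne.symm hy.1, Ne.symm hp.1⟩
    · simp only [mem_insert, mem_singleton, not_or]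
      exact ⟨Ne.symm hx.2, Ne.symm hy.2, Ne.symm hp.2⟩

/-- kill the value at `(e, f)` by a 2-cycle without van Kampen number -/
theorem kill (hVKA : SpecVKA) (hKUR : SpecKUR) {r : α → ℕ} {z T : Sym2 α → Sym2 α → ZMod 2}
    {e f e' f' : Sym2 α} (hz : IsZ2 G z) (hT : IsZ2 G T) (hv : vk r z ≠ 0) (hvT : vk r T = 0)
    (h1 : T e f ≠ 0) (h2 : T e' f' = 0) :
    ∃ z', IsZ2 G z' ∧ vk r z' ≠ 0 ∧ z' e f = 0 ∧ z' e' f' = z e' f' := by
  by_cases h : z e f = 0
  · exact ⟨z, hz, hv, h, rfl⟩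
  · refine ⟨fun a b => z a b + T a b, hKUR.zadd hz hT, ?_, ?_, ?_⟩
    · rw [hVKA.add, hvT, add_zero]
      exact hv
    · show z e f + T e f = 0
      rw [zmod2_ne_zero.1 h, zmod2_ne_zero.1 h1]
      rfl
    · show z e' f' + T e' f' = z e' f'
      rw [h2, add_zero]

/-- the torus of two arcs -/
theorem torus (hVKA : SpecVKA) (hKUR : SpecKUR) {r : α → ℕ} (hr : Function.Injective r)
    {X Y : Finset α} {p q v a p' q' v' a' : α} (hX : CSet G X) (hp : p ∈ X) (ha : a ∈ X)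
    (hq : q ∉ X) (hv : v ∉ X) (hvq : v ≠ q) (hvp : G.Adj v p) (hvq' : G.Adj v q)
    (hqa : G.Adj q a) (hY : CSet G Y) (hp' : p' ∈ Y) (ha' : a' ∈ Y)
    (kq : q' ∉ Y) (kv : v' ∉ Y) (kvq : v' ≠ q') (kvp : G.Adj v' p') (kvq' : G.Adj v' q')
    (kqa : G.Adj q' a') (hd : Disjoint (insert v (insert q X)) (insert v' (insert q' Y))) :
    ∃ T, IsZ2 G T ∧ vk r T = 0 ∧ T s(v, p) s(v', p') ≠ 0 ∧ T s(v, p') s(v', p) = 0 := by
  obtain ⟨t, ht, ht1, ht2⟩ := arc hX hp ha hq hv hvq hvp hvq' hqa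
  obtain ⟨Z, hZ, hZ1, hZ2⟩ := arc hY hp' ha' kq kv kvq kvp kvq' kqa
  have hvI : v ∈ insert v (insert q X) := mem_insert_self _ _
  have hvI' : v' ∈ insert v' (insert q' Y) := mem_insert_self _ _
  have hp2 : p' ∈ insert v' (insert q' Y) := mem_insert_of_mem (mem_insert_of_mem hp')
  have hZv : ∀ e, v ∈ e → Z e = 0 := by
    intro e he
    by_contra hc
    exact disjoint_left.1 hd hvI (hZ2 e v hc he)
  have htv : t s(v, p') = 0 := by
    by_contra hc
    exact disjoint_left.1 hd (ht2 _ p' hc (Sym2.mem_mk_right _ _)) hp2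
  refine ⟨fun e f => t e * Z f + Z e * t f, hKUR.tor _ _ ht hZ ht2 hZ2 hd,
    hVKA.tor _ _ hr ht hZ ht2 hZ2 hd, ?_, ?_⟩
  · show t s(v, p) * Z s(v', p') + Z s(v, p) * t s(v', p') ≠ 0
    rw [hZv _ (Sym2.mem_mk_left _ _), zero_mul, add_zero]
    exact mul_ne_zero ht1 hZ1
  · show t s(v, p') * Z s(v', p) + Z s(v, p') * t s(v', p) = 0
    rw [hZv _ (Sym2.mem_mk_left _ _), htv]
    ring

theorem pr_zero (a : Chain α) : pr a 0 = 0 := by simp [pr]

/-- a vertex `s` of the separator has a neighbour in `A` -/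
theorem nbr {x y s s' t : α} {A B : Finset α} (hR : Rig G x)
    (hs : Sep G {x, y, s, s', t} A B) (hn : [x, y, s, s', t].Nodup) (hA : 2 ≤ A.card)
    (hB : 2 ≤ B.card) : ∃ a ∈ A, G.Adj s a := by
  by_contra hc
  push Not at hc
  obtain ⟨h1, h2, h3, h4, h5⟩ := hs
  simp only [List.nodup_cons, List.mem_cons, List.not_mem_nil, or_false, not_or,
    List.nodup_nil, and_true, not_false_eq_true] at hn
  obtain ⟨⟨n1, n2, n3, n4⟩, ⟨n5, n6, n7⟩, ⟨n8, n9⟩, n10⟩ := hn
  have hsB : s ∉ B := fun h => disjoint_left.1 h3 (by simp) h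
  have hsA : s ∉ A := fun h => disjoint_left.1 h2 (by simp) h
  have h6 := hR {x, y, s', t} A (insert s B) ⟨?_, ?_, ?_, ?_, ?_⟩ ?_ (by simp)
  · rw [card_insert_of_notMem hsB] at h6
    omega
  · rw [← h1]
    ext w
    simp only [mem_union, mem_insert, mem_singleton]
    constructor
    · rintro (((h | h | h | h) | h) | h | h) <;> simp [h]
    · rintro (((h | h | h | h | h) | h) | h) <;> simp [h]
  · rw [Finset.disjoint_left] at h2 ⊢
    intro w hw
    refine h2 ?_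
    simp only [mem_insert, mem_singleton] at hw ⊢
    rcases hw with h | h | h | h <;> simp [h]
  · rw [Finset.disjoint_left] at h3 ⊢
    intro w hw
    rw [mem_insert, not_or]
    refine ⟨?_, h3 ?_⟩
    · simp only [mem_insert, mem_singleton] at hw
      rintro rfl
      rcases hw with h | h | h | h
      · exact n2 h.symm
      · exact n5 h.symm
      · exact n8 h
      · exact n9 h
    · simp only [mem_insert, mem_singleton] at hw ⊢
      rcases hw with h | h | h | h <;> simp [h]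
  · rw [Finset.disjoint_left] at h4 ⊢
    intro w hw
    rw [mem_insert, not_or]
    exact ⟨fun h => hsA (h ▸ hw), h4 hw⟩
  · intro a ha b hb
    rw [mem_insert] at hb
    rcases hb with rfl | hb
    · exact fun h => hc a ha h.symm
    · exact h5 a ha b hb
  · rw [card_insert_of_notMem, card_insert_of_notMem, card_insert_of_notMem, card_singleton]
    · simpa using n10
    · simp only [mem_insert, mem_singleton, not_or]
      exact ⟨n6, n7⟩
    · simp only [mem_insert, mem_singleton, not_or]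
      exact ⟨n1, n3, n4⟩

theorem sep_swap {S A B : Finset α} (h : Sep G S A B) : Sep G S B A := by
  obtain ⟨h1, h2, h3, h4, h5⟩ := h
  refine ⟨?_, h3, h2, h4.symm, fun a ha b hb hab => h5 b hb a ha hab.symm⟩
  rw [← h1, union_assoc, union_assoc, union_comm B A]

end MC1M

open MC1M in
theorem specMC1 (hMC0 : SpecMC0) (hMCT : SpecMCT) (hVKA : SpecVKA) (hKUR : SpecKUR) : SpecMC1 := by
  intro α _ _ G x y s₁ s₂ s₃ s₄ hk h33 h4 hR hpx hpy hnp
  rcases hMCT hk h33 with h | ⟨t, A, B, ht, hsep, hA, hB, h3A, h4B, cA, cB⟩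
  · exact h
  exfalso
  have hn34 : ¬ G.Adj s₃ s₄ := hsep.2.2.2.2 s₃ h3A s₄ h4B
  obtain ⟨al, hvk, hy, h2, h3, h4'⟩ := hMC0 hk h33 h4 hR hn34 hpx hpy
  have nd := h33.nd
  simp only [List.nodup_cons, List.mem_cons, List.not_mem_nil, or_false, not_or,
    List.nodup_nil, and_true, not_false_eq_true] at nd
  obtain ⟨⟨xy, x1, x2, x3, x4⟩, ⟨y1, y2, y3, y4⟩, ⟨e12, e13, e14⟩, ⟨e23, e24⟩, e34⟩ := nd
  simp only [mem_insert, mem_singleton, not_or] at ht
  obtain ⟨tx, ty, t1, t2⟩ := ht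
  have nA : ∀ w ∈ ({x, y, s₁, s₂, t} : Finset α), w ∉ A := fun w hw => disjoint_left.1 hsep.2.1 hw
  have nB : ∀ w ∈ ({x, y, s₁, s₂, t} : Finset α), w ∉ B := fun w hw => disjoint_left.1 hsep.2.2.1 hw
  have hAB : Disjoint A B := hsep.2.2.2.1
  have nd1 : [x, y, s₁, s₂, t].Nodup := by
    simp only [List.nodup_cons, List.mem_cons, List.not_mem_nil, or_false, not_or,
      List.nodup_nil, and_true, not_false_eq_true]
    exact ⟨⟨xy, x1, x2, Ne.symm tx⟩, ⟨y1, y2, Ne.symm ty⟩, ⟨e12, Ne.symm t1⟩, Ne.symm t2⟩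
  have nd2 : [x, y, s₂, s₁, t].Nodup := by
    simp only [List.nodup_cons, List.mem_cons, List.not_mem_nil, or_false, not_or,
      List.nodup_nil, and_true, not_false_eq_true]
    exact ⟨⟨xy, x2, x1, Ne.symm tx⟩, ⟨y2, y1, Ne.symm ty⟩, ⟨Ne.symm e12, Ne.symm t2⟩, Ne.symm t1⟩
  have hS : ({x, y, s₁, s₂, t} : Finset α) = {x, y, s₂, s₁, t} := by
    rw [insert_comm s₁ s₂]
  have hsep2 : Sep G {x, y, s₂, s₁, t} A B := hS ▸ hsep
  obtain ⟨a1, ha1, ga1⟩ := nbr hR hsep nd1 hA hB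
  obtain ⟨a2, ha2, ga2⟩ := nbr hR hsep2 nd2 hA hB
  obtain ⟨b1, hb1, gb1⟩ := nbr hR (sep_swap hsep) nd1 hB hA
  obtain ⟨b2, hb2, gb2⟩ := nbr hR (sep_swap hsep2) nd2 hB hA
  have gx2 : G.Adj x s₂ := (h33.nx _).2 (by simp)
  have gx3 : G.Adj x s₃ := (h33.nx _).2 (by simp)
  have gx4 : G.Adj x s₄ := (h33.nx _).2 (by simp)
  have gy1 : G.Adj y s₁ := (h33.ny _).2 (by simp)
  have gy3 : G.Adj y s₃ := (h33.ny _).2 (by simp)
  have gy4 : G.Adj y s₄ := (h33.ny _).2 (by simp)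
  have xA := nA x (by simp)
  have yA := nA y (by simp)
  have s1A := nA s₁ (by simp)
  have s2A := nA s₂ (by simp)
  have xB := nB x (by simp)
  have yB := nB y (by simp)
  have s1B := nB s₁ (by simp)
  have s2B := nB s₂ (by simp)
  have hd1 : Disjoint (insert x (insert s₂ A)) (insert y (insert s₁ B)) := by
    rw [Finset.disjoint_left]
    intro w hw hw'
    rw [mem_insert, mem_insert] at hw hw'
    rcases hw with rfl | rfl | hw
    · rcases hw' with h | h | h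
      exacts [xy h, x1 h, xB h]
    · rcases hw' with h | h | h
      exacts [y2 h.symm, e12 h.symm, s2B h]
    · rcases hw' with rfl | rfl | h
      exacts [yA hw, s1A hw, Finset.disjoint_left.1 hAB hw h]
  have hd2 : Disjoint (insert x (insert s₂ B)) (insert y (insert s₁ A)) := by
    rw [Finset.disjoint_left]
    intro w hw hw'
    rw [mem_insert, mem_insert] at hw hw'
    rcases hw with rfl | rfl | hw
    · rcases hw' with h | h | h
      exacts [xy h, x1 h, xA h]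
    · rcases hw' with h | h | h
      exacts [y2 h.symm, e12 h.symm, s2A h]
    · rcases hw' with rfl | rfl | h
      exacts [yB hw, s1B hw, Finset.disjoint_left.1 hAB h hw]
  obtain ⟨r, hr, z, hz, hv⟩ := hnp
  obtain ⟨T, hT, hvT, hT1, hT2⟩ := torus hVKA hKUR hr cA h3A ha2 s2A xA x2 gx3 gx2 ga2
    cB h4B hb1 s1B yB y1 gy4 gy1 gb1 hd1
  obtain ⟨T', hT', hvT', hT1', hT2'⟩ := torus hVKA hKUR hr cB h4B hb2 s2B xB x2 gx4 gx2 gb2
    cA h3A ha1 s1A yA y1 gy3 gy1 ga1 hd2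
  obtain ⟨z1, hz1, hv1, hk1, _⟩ := kill hVKA hKUR hz hT hv hvT hT1 hT2
  obtain ⟨z2, hz2, hv2, hk2, hk2'⟩ := kill hVKA hKUR hz1 hT' hv1 hvT' hT1' hT2'
  rw [hk1] at hk2'
  -- now `z2 (x s₃) (y s₄) = 0` and `z2 (x s₄) (y s₃) = 0`
  have sym := hz2.1
  have k3 : ∀ w, G.Adj y w → z2 s(x, s₃) s(y, w) = 0 := by
    have h0 : ∀ w, G.Adj y w → w ≠ s₁ → z2 s(x, s₃) s(y, w) = 0 := by
      intro w hw hne
      rcases (h33.ny w).1 hw with rfl | rfl | rfl | rfl
      · exact disj hz2 (Sym2.mem_mk_left _ _) (Sym2.mem_mk_right _ _)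
      · exact absurd rfl hne
      · exact disj hz2 (Sym2.mem_mk_right _ _) (Sym2.mem_mk_right _ _)
      · exact hk2'
    intro w hw
    by_cases hne : w = s₁
    · subst hne
      refine last hz2 ?_ h0
      rw [Sym2.mem_iff, not_or]
      exact ⟨Ne.symm xy, y3⟩
    · exact h0 w hw hne
  have k4 : ∀ w, G.Adj y w → z2 s(x, s₄) s(y, w) = 0 := by
    have h0 : ∀ w, G.Adj y w → w ≠ s₁ → z2 s(x, s₄) s(y, w) = 0 := by
      intro w hw hne
      rcases (h33.ny w).1 hw with rfl | rfl | rfl | rfl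
      · exact disj hz2 (Sym2.mem_mk_left _ _) (Sym2.mem_mk_right _ _)
      · exact absurd rfl hne
      · exact hk2
      · exact disj hz2 (Sym2.mem_mk_right _ _) (Sym2.mem_mk_right _ _)
    intro w hw
    by_cases hne : w = s₁
    · subst hne
      refine last hz2 ?_ h0
      rw [Sym2.mem_iff, not_or]
      exact ⟨Ne.symm xy, y4⟩
    · exact h0 w hw hne
  have r3 : z2 s(y, s₃) s(x, s₂) = 0 := by
    refine last hz2 ?_ ?_
    · rw [Sym2.mem_iff, not_or]
      exact ⟨xy, x3⟩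
    · intro w hw hne
      rcases (h33.nx w).1 hw with rfl | rfl | rfl | rfl
      · exact disj hz2 (Sym2.mem_mk_left _ _) (Sym2.mem_mk_right _ _)
      · exact absurd rfl hne
      · exact disj hz2 (Sym2.mem_mk_right _ _) (Sym2.mem_mk_right _ _)
      · rw [sym]
        exact hk2
  have r4 : z2 s(y, s₄) s(x, s₂) = 0 := by
    refine last hz2 ?_ ?_
    · rw [Sym2.mem_iff, not_or]
      exact ⟨xy, x4⟩
    · intro w hw hne
      rcases (h33.nx w).1 hw with rfl | rfl | rfl | rfl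
      · exact disj hz2 (Sym2.mem_mk_left _ _) (Sym2.mem_mk_right _ _)
      · exact absurd rfl hne
      · rw [sym]
        exact hk2'
      · exact disj hz2 (Sym2.mem_mk_right _ _) (Sym2.mem_mk_right _ _)
  have k2 : ∀ w, G.Adj y w → z2 s(x, s₂) s(y, w) = 0 := by
    have h0 : ∀ w, G.Adj y w → w ≠ s₁ → z2 s(x, s₂) s(y, w) = 0 := by
      intro w hw hne
      rcases (h33.ny w).1 hw with rfl | rfl | rfl | rfl
      · exact disj hz2 (Sym2.mem_mk_left _ _) (Sym2.mem_mk_right _ _)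
      · exact absurd rfl hne
      · rw [sym]
        exact r3
      · rw [sym]
        exact r4
    intro w hw
    by_cases hne : w = s₁
    · subst hne
      refine last hz2 ?_ h0
      rw [Sym2.mem_iff, not_or]
      exact ⟨Ne.symm xy, y2⟩
    · exact h0 w hw hne
  refine hv2 ?_
  rw [hvk r hr z2 hz2]
  refine Finset.sum_eq_zero fun w _ => ?_
  by_cases hw : G.Adj x w
  · rcases (h33.nx w).1 hw with rfl | rfl | rfl | rfl
    · exact hy _ (hKUR.row _ _ hz2)
    · exact h2 _ (mem hKUR hz2 k2)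
    · exact h3 _ (mem hKUR hz2 k3)
    · exact h4' _ (mem hKUR hz2 k4)
  · have h0 : z2 s(x, w) = 0 := by
      funext f
      by_contra hc
      exact hw (hz2.2.1 _ _ hc).1
    rw [h0, pr_zero]

end DL
end

section
/-!
# G4 block, module MNP (helper68): the graph `M` is nonplanar
-/
open SimpleGraph Finset

namespace DL

theorem specMNP (hMP1 : SpecMP1) (hMP2 : SpecMP2) (hMAL : SpecMAL) (hMBE : SpecMBE) (hFRG : SpecFRG) :
    SpecMNP := by
  intro α _ _ G x y s₁ s₂ s₃ s₄ hK hP hE hN hx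
  by_contra hM
  obtain ⟨h12, m, hm, hm0, hm3, hm4⟩ := hMP1 hK hP hN hM
  have hnr : ¬ Rig G x := fun hr => hx hr (hMP2.apx hK hP hE hN h12 hm hm0 hm3 hm4 hr)
  obtain ⟨S, A, B, hS, hS4, hxS, hA, hB⟩ := hFRG.nrig.1 hnr
  have hyV : y ∈ VS G := right_mem_VS ((hP.nx y).2 (Or.inl rfl))
  have key : ∃ P Q, IsPth (delE (del G {x, y}) s₁ s₂) s₃ s₄ P ∧
      IsPth (delE (del G {x, y}) s₁ s₂) s₁ s₂ Q ∧ Disjoint (vs P) (vs Q) := by
    rcases hS.mem_or hyV with h1 | h1 | h1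
    · exact hMAL hK hP h12 hS hS4 hxS h1 hA hB
    · exact hMBE hK hP hE h12 hS hS4 hxS h1 hA hB
    · exact hMBE hK hP hE h12 hS.symm hS4 hxS h1 hB hA
  obtain ⟨P, Q, hPP, hQQ, hd⟩ := key
  exact hMP2.dis hK hP hN h12 hm hm0 hm3 hm4 hPP hQQ hd

end DL
end

section
/-! # MNZ: a `Gam`-cycle without chords -/
open SimpleGraph Finset

namespace DL

namespace MNZM

variable {α : Type} [Fintype α] [DecidableEq α] {G : SimpleGraph α}

theorem gam_ne_zero {u w w' : α} {Z : Chain α} (hp : ¬ NP (del G {u})) (h : Gam G u w w' Z) :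
    Z ≠ 0 := by
  rintro rfl
  obtain ⟨_, _, _, _, r, z, hr, hz, hv, h1, h2, h3⟩ := h
  have h0 : ∀ v, z s(u, v) = 0 := by
    intro v
    by_cases hw : v = w
    · rw [hw, h1]
    · by_cases hw' : v = w'
      · rw [hw', h2]
      · exact h3 v hw hw'
  have hu : ∀ e f, z e f ≠ 0 → u ∉ e := by
    intro e f hef hue
    obtain ⟨v, rfl⟩ := hue
    exact hef (by rw [h0 v]; rfl)
  have hE : ∀ e : Sym2 α, e ∈ G.edgeSet → u ∉ e → e ∈ (del G {u}).edgeSet := by
    intro e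
    induction e using Sym2.ind with
    | _ a b =>
      intro he hu
      rw [Sym2.mem_iff, not_or] at hu
      exact ⟨he, by simpa using Ne.symm hu.1, by simpa using Ne.symm hu.2⟩
  refine hp ⟨r, hr, z, ⟨hz.1, fun e f hef => ?_, hz.2.2⟩, hv⟩
  obtain ⟨h4, h5, h6⟩ := hz.2.1 e f hef
  refine ⟨hE e h4 (hu e f hef), hE f h5 (hu f e ?_), h6⟩
  rw [hz.1 f e]
  exact hef

theorem two_le {s t : α} {Q C : Finset (Sym2 α)} (h : IsPth G s t Q) (hst : s ≠ t)
    (hQ : Q ⊆ C) (hC : s(s, t) ∉ C) : 2 ≤ Q.card := by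
  by_contra hc
  have h1 := h.nonempty hst
  have h2 : Q.card = 1 := by
    have := h1.card_pos
    omega
  obtain ⟨e, rfl⟩ := card_eq_one.1 h2
  obtain ⟨e1, he1, hs⟩ := mem_vs.1 (h.left_mem hst)
  obtain ⟨e2, he2, ht⟩ := mem_vs.1 (h.right_mem hst)
  rw [mem_singleton] at he1 he2
  subst he1
  subst he2
  have : e2 = s(s, t) := (Sym2.mem_and_mem_iff hst).1 ⟨hs, ht⟩
  exact hC (this ▸ hQ (mem_singleton_self _))

theorem step (hNCN : SpecNCN) {u w w' : α} (hk : KConn 4 G) (hp : ¬ NP (del G {u})) :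
    ∀ (n : ℕ) (Z : Chain α), (csupp Z).card = n → Gam G u w w' Z →
    ∃ C, IsCyc G C ∧ Gam G u w w' (chi C) ∧ ∀ a b, a ∈ vs C → b ∈ vs C → G.Adj a b → s(a, b) ∈ C := by
  intro n
  induction n using Nat.strong_induction_on with
  | _ n ih =>
    intro Z hn hZ
    have hmem : Z ∈ Z1 (del G {u, w, w'}) := hZ.2.2.2.1
    obtain ⟨C, hC, hCs⟩ := exists_isCyc_of_ne_zero hmem (gam_ne_zero hp hZ)
    rcases hNCN.lin hk hp hZ hC.chi_mem with h | h
    · by_cases hch : ∀ a b, a ∈ vs C → b ∈ vs C → G.Adj a b → s(a, b) ∈ C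
      · exact ⟨C, (isCyc_del.1 hC).1, h, hch⟩
      · push Not at hch
        obtain ⟨a, b, ha, hb, hab, hn'⟩ := hch
        have hd := (isCyc_del.1 hC).2
        have hadj : (del G {u, w, w'}).Adj a b :=
          ⟨hab, disjoint_left.1 hd ha, disjoint_left.1 hd hb⟩
        obtain ⟨P, Q, hP, hQ, hPQ, hdis, _⟩ := hC.split ha hb hab.ne
        have hle : C.card ≤ n := by
          rw [← hn]
          exact card_le_card hCs
        have hcard : P.card + Q.card = C.card := by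
          rw [← hPQ, card_union_of_disjoint hdis]
        have hPC : P ⊆ C := hPQ ▸ subset_union_left
        have hQC : Q ⊆ C := hPQ ▸ subset_union_right
        have h2P := two_le hP hab.ne hPC hn'
        have h2Q := two_le hQ hab.ne hQC hn'
        have heP : s(a, b) ∉ P := fun h => hn' (hPC h)
        have heQ : s(a, b) ∉ Q := fun h => hn' (hQC h)
        have hins : ∀ R : Finset (Sym2 α), s(a, b) ∉ R →
            (csupp (chi {s(a, b)} + chi R)).card = R.card + 1 := by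
          intro R hR
          rw [← chi_insert hR, csupp_chi, card_insert_of_notMem hR]
        have hmP : chi {s(a, b)} + chi P ∈ Z1 (del G {u, w, w'}) :=
          (IsPth.edge hadj).chi_add_mem hP
        rcases hNCN.lin hk hp h hmP with h' | h'
        · exact ih _ (by rw [hins P heP]; omega) _ rfl h'
        · have e1 : chi C + (chi {s(a, b)} + chi P) = chi {s(a, b)} + chi Q := by
            rw [← hPQ, chi_union hdis]
            calc chi P + chi Q + (chi {s(a, b)} + chi P)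
                = (chi P + chi P) + (chi {s(a, b)} + chi Q) := by abel
              _ = _ := by rw [chain_add_self, zero_add]
          rw [e1] at h'
          exact ih _ (by rw [hins Q heQ]; omega) _ rfl h'
    · refine ih _ ?_ _ rfl h
      rw [csupp_add_chi hCs, ← hn]
      refine card_lt_card ?_
      refine ⟨sdiff_subset, fun hh => ?_⟩
      obtain ⟨e, he⟩ := hC.nonempty
      have := hh (hCs he)
      rw [mem_sdiff] at this
      exact this.2 he

end MNZM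

theorem specMNZ (hNCG : SpecNCG) (hNCN : SpecNCN) : SpecMNZ := by
  intro α _ _ G u hk hr hu hnp hp
  obtain ⟨w, w', Z, hZ⟩ := hNCG hk hr hu hnp hp
  obtain ⟨C, h⟩ := MNZM.step hNCN hk.1 hp _ Z rfl hZ
  exact ⟨w, w', C, h⟩

end DL
end

section
/-!
# N3A: minimal fragments with three vertices
-/
open SimpleGraph Finset

namespace DL

namespace N3AM

set_option linter.unusedSectionVars false

variable {α : Type} [Fintype α] [DecidableEq α] {G : SimpleGraph α}

/-- combinatorial content of type (be) -/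
structure BEC (G : SimpleGraph α) (F : Finset α) (x y z sa sc s s' : α) : Prop where
  nd : [x, y, z, sa, sc, s, s'].Nodup
  hF : ∀ v, v ∈ F ↔ v = x ∨ v = y ∨ v = z
  hN : ∀ v, v ∈ NB G F ↔ v = sa ∨ v = sc ∨ v = s ∨ v = s'
  ny : ∀ w, G.Adj y w ↔ w = x ∨ w = sa ∨ w = s ∨ w = s'
  nz : ∀ w, G.Adj z w ↔ w = x ∨ w = sc ∨ w = s ∨ w = s'
  xa : G.Adj x sa
  xc : G.Adj x sc

/-- combinatorial content of type (ga) -/
structure GAC (G : SimpleGraph α) (F : Finset α) (x x' w s₁ s₂ s₃ s₄ : α) : Prop where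
  nd : [x, x', w, s₁, s₂, s₃, s₄].Nodup
  hF : ∀ v, v ∈ F ↔ v = x ∨ v = x' ∨ v = w
  hN : ∀ v, v ∈ NB G F ↔ v = s₁ ∨ v = s₂ ∨ v = s₃ ∨ v = s₄
  nw : ∀ v, G.Adj w v ↔ v = x ∨ v = x' ∨ v = s₁ ∨ v = s₂
  ad : G.Adj x s₃ ∧ G.Adj x s₄ ∧ G.Adj x' s₃ ∧ G.Adj x' s₄

theorem be_of {F T X Y : Finset α} {x y z sa sc s s' q : α} (h : TBe G F T X Y x y z sa sc s s' q) :
    BEC G F x y z sa sc s s' := by
  refine ⟨?_, fun v => ?_, fun v => ?_, h.ny, h.nz, h.xa, h.xc⟩
  · have := h.nd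
    simp only [List.nodup_cons, List.mem_cons, List.not_mem_nil, or_false, not_or,
      not_false_eq_true, List.nodup_nil, and_true] at this ⊢
    tauto
  · rw [h.hF]; simp only [mem_insert, mem_singleton]
  · rw [h.hN]; simp only [mem_insert, mem_singleton]

theorem ga_of {F T X Y : Finset α} {x x' w s₁ s₂ s₃ s₄ q₁ q₂ : α}
    (h : TGa G F T X Y x x' w s₁ s₂ s₃ s₄ q₁ q₂) : GAC G F x x' w s₁ s₂ s₃ s₄ := by
  refine ⟨?_, fun v => ?_, fun v => ?_, h.nw, h.ad⟩
  · have := h.nd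
    simp only [List.nodup_cons, List.mem_cons, List.not_mem_nil, or_false, not_or,
      not_false_eq_true, List.nodup_nil, and_true] at this ⊢
    tauto
  · rw [h.hF]; simp only [mem_insert, mem_singleton]
  · rw [h.hN]; simp only [mem_insert, mem_singleton]

theorem al_card {F T X Y : Finset α} {x x' z z' s₁ s₂ s₃ s₄ q₁ q₂ : α}
    (h : TAl G F T X Y x x' z z' s₁ s₂ s₃ s₄ q₁ q₂) : F.card = 4 := by
  have := h.nd
  rw [h.hF]
  simp only [List.nodup_cons, List.mem_cons, List.not_mem_nil, or_false, not_or,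
    not_false_eq_true, List.nodup_nil, and_true] at this
  rw [card_insert_of_notMem, card_insert_of_notMem, card_insert_of_notMem, card_singleton] <;>
    simp only [mem_insert, mem_singleton, not_or] <;> tauto

/-- every nonrigid vertex is of type (be) or (ga) -/
theorem types (hFRG : SpecFRG) (hCLS : SpecCLS) {F : Finset α} (hK : K48 G) (hM : MFrag G F)
    (h3 : F.card = 3) (hSD : SD3 G F) {x : α} (hx : x ∈ F) (hr : ¬ Rig G x) :
    (∃ y z sa sc s s', BEC G F x y z sa sc s s') ∨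
      ∃ x' w s₁ s₂ s₃ s₄, GAC G F x x' w s₁ s₂ s₃ s₄ := by
  obtain ⟨S, P, Q, hS, h4, hxS, hP, hQ⟩ := hFRG.nrig.1 hr
  obtain ⟨hP3, hQ3⟩ := hSD x hx S P Q hS h4 hxS hP hQ
  rcases hCLS hK hM (le_of_eq h3.symm) hx hS h4 hxS hP3 hQ3 with
    ⟨y, z, sa, sc, s, s', q, h⟩ | ⟨x', w, s₁, s₂, s₃, s₄, q₁, q₂, h⟩ |
    ⟨x', w, s₁, s₂, s₃, s₄, q₁, q₂, h⟩ | ⟨x', z, z', s₁, s₂, s₃, s₄, q₁, q₂, h⟩
  · exact Or.inl ⟨y, z, sa, sc, s, s', be_of h⟩
  · exact Or.inr ⟨x', w, s₁, s₂, s₃, s₄, ga_of h⟩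
  · exact Or.inr ⟨x', w, s₁, s₂, s₃, s₄, ga_of h⟩
  · exact absurd (al_card h) (by omega)

theorem mem_NB {A : Finset α} {w : α} : w ∈ NB G A ↔ w ∉ A ∧ ∃ a ∈ A, G.Adj a w := by
  classical
  simp [NB]

theorem mem_F_or {F : Finset α} {v r : α} (hv : v ∈ F) (h : G.Adj v r) : r ∈ F ∨ r ∈ NB G F := by
  by_cases hr : r ∈ F
  · exact Or.inl hr
  · exact Or.inr (mem_NB.2 ⟨hr, v, hv, h⟩)

theorem pair_eq {β : Type} {a b p q : β} (h1 : a = p ∨ a = q) (h2 : b = p ∨ b = q) (h : a ≠ b) :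
    (a = p ∧ b = q) ∨ (a = q ∧ b = p) := by
  rcases h1 with h1 | h1
  · rcases h2 with h2 | h2
    · exact absurd (h1.trans h2.symm) h
    · exact Or.inl ⟨h1, h2⟩
  · rcases h2 with h2 | h2
    · exact Or.inr ⟨h1, h2⟩
    · exact absurd (h1.trans h2.symm) h

/-- (ga), the corner vertex being the middle of a (be): type B -/
theorem ga_be {F : Finset α} {x x' w s₁ s₂ s₃ s₄ y z sa sc s s' : α}
    (h : GAC G F x x' w s₁ s₂ s₃ s₄) (h' : BEC G F w y z sa sc s s') :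
    TyB G w y z sa sc s s' := by
  obtain ⟨nd, hF, hN, nw, ad⟩ := h
  obtain ⟨nd', hF', hN', ny, nz, xa, xc⟩ := h'
  refine ⟨nd', fun r => ?_, fun r => ?_, fun r => ?_⟩
  · simp only [List.nodup_cons, List.mem_cons, List.not_mem_nil, or_false, not_or,
      not_false_eq_true, List.nodup_nil, and_true] at nd nd'
    obtain ⟨⟨n12, n13, n14, n15, n16, n17⟩, ⟨n23, n24, n25, n26, n27⟩, ⟨n34, n35, n36, n37⟩,
      ⟨n45, n46, n47⟩, ⟨n56, n57⟩, n67⟩ := nd
    obtain ⟨⟨m12, m13, m14, m15, m16, m17⟩, ⟨m23, m24, m25, m26, m27⟩, ⟨m34, m35, m36, m37⟩,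
      ⟨m45, m46, m47⟩, ⟨m56, m57⟩, m67⟩ := nd'
    have e1 := (hF _).1 ((hF' y).2 (Or.inr (Or.inl rfl)))
    have e2 := (hF _).1 ((hF' z).2 (Or.inr (Or.inr rfl)))
    have hA : (y = x ∧ z = x') ∨ (y = x' ∧ z = x) := by
      refine pair_eq ?_ ?_ m23
      · rcases e1 with h | h | h
        · exact Or.inl h
        · exact Or.inr h
        · exact absurd h.symm m12
      · rcases e2 with h | h | h
        · exact Or.inl h
        · exact Or.inr h
        · exact absurd h.symm m13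
    have hxF : ∀ v, v ∈ NB G F → v ≠ x ∧ v ≠ x' := by
      intro v hv
      rw [hN] at hv
      rcases hv with rfl | rfl | rfl | rfl
      · exact ⟨Ne.symm n14, Ne.symm n24⟩
      · exact ⟨Ne.symm n15, Ne.symm n25⟩
      · exact ⟨Ne.symm n16, Ne.symm n26⟩
      · exact ⟨Ne.symm n17, Ne.symm n27⟩
    have key : ∀ v, v ∈ NB G F → G.Adj w v → v = s₁ ∨ v = s₂ := by
      intro v hv hwv
      rcases (nw v).1 hwv with h | h | h | h
      · exact absurd h (hxF v hv).1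
      · exact absurd h (hxF v hv).2
      · exact Or.inl h
      · exact Or.inr h
    have hB : (sa = s₁ ∧ sc = s₂) ∨ (sa = s₂ ∧ sc = s₁) :=
      pair_eq (key _ ((hN' _).2 (Or.inl rfl)) xa) (key _ ((hN' _).2 (Or.inr (Or.inl rfl))) xc) m45
    have hA' : (r = x ∨ r = x') ↔ (r = y ∨ r = z) := by
      rcases hA with ⟨h1, h2⟩ | ⟨h1, h2⟩
      · rw [h1, h2]
      · rw [h1, h2, or_comm]
    have hB' : (r = s₁ ∨ r = s₂) ↔ (r = sa ∨ r = sc) := by
      rcases hB with ⟨h1, h2⟩ | ⟨h1, h2⟩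
      · rw [h1, h2]
      · rw [h1, h2, or_comm]
    rw [nw, ← or_assoc, hA', hB', or_assoc]
  · rw [ny]
  · rw [nz]

/-- (ga) twice: type A -/
theorem ga_ga {F : Finset α} {x x' w s₁ s₂ s₃ s₄ x₂ w₂ t₁ t₂ t₃ t₄ : α}
    (h : GAC G F x x' w s₁ s₂ s₃ s₄) (h' : GAC G F w x₂ w₂ t₁ t₂ t₃ t₄) :
    TyA G x₂ w₂ w t₁ t₂ t₃ t₄ := by
  have hmem := @mem_F_or α _ _ G F
  obtain ⟨nd, hF, hN, nw, ad⟩ := h
  obtain ⟨nd', hF', hN', nw', ad'⟩ := h'
  have nd'' := nd'
  simp only [List.nodup_cons, List.mem_cons, List.not_mem_nil, or_false, not_or,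
      not_false_eq_true, List.nodup_nil, and_true] at nd nd'
  obtain ⟨⟨n12, n13, n14, n15, n16, n17⟩, ⟨n23, n24, n25, n26, n27⟩, ⟨n34, n35, n36, n37⟩,
    ⟨n45, n46, n47⟩, ⟨n56, n57⟩, n67⟩ := nd
  obtain ⟨⟨m12, m13, m14, m15, m16, m17⟩, ⟨m23, m24, m25, m26, m27⟩, ⟨m34, m35, m36, m37⟩,
    ⟨m45, m46, m47⟩, ⟨m56, m57⟩, m67⟩ := nd'
  have e1 := (hF _).1 ((hF' x₂).2 (Or.inr (Or.inl rfl)))
  have e2 := (hF _).1 ((hF' w₂).2 (Or.inr (Or.inr rfl)))
  have hA : (x₂ = x ∧ w₂ = x') ∨ (x₂ = x' ∧ w₂ = x) := by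
    refine pair_eq ?_ ?_ m23
    · rcases e1 with h | h | h
      · exact Or.inl h
      · exact Or.inr h
      · exact absurd h.symm m12
    · rcases e2 with h | h | h
      · exact Or.inl h
      · exact Or.inr h
      · exact absurd h.symm m13
  have hxF : ∀ v, v ∈ NB G F → v ≠ x ∧ v ≠ x' := by
    intro v hv
    rw [hN] at hv
    rcases hv with rfl | rfl | rfl | rfl
    · exact ⟨Ne.symm n14, Ne.symm n24⟩
    · exact ⟨Ne.symm n15, Ne.symm n25⟩
    · exact ⟨Ne.symm n16, Ne.symm n26⟩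
    · exact ⟨Ne.symm n17, Ne.symm n27⟩
  have key : ∀ v, v ∈ NB G F → G.Adj w v → v = s₁ ∨ v = s₂ := by
    intro v hv hwv
    rcases (nw v).1 hwv with h | h | h | h
    · exact absurd h (hxF v hv).1
    · exact absurd h (hxF v hv).2
    · exact Or.inl h
    · exact Or.inr h
  have f1 : t₁ ∈ NB G F := (hN' t₁).2 (Or.inl rfl)
  have f2 : t₂ ∈ NB G F := (hN' t₂).2 (Or.inr (Or.inl rfl))
  have f3 : t₃ ∈ NB G F := (hN' t₃).2 (Or.inr (Or.inr (Or.inl rfl)))
  have f4 : t₄ ∈ NB G F := (hN' t₄).2 (Or.inr (Or.inr (Or.inr rfl)))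
  have hB : (t₃ = s₁ ∧ t₄ = s₂) ∨ (t₃ = s₂ ∧ t₄ = s₁) :=
    pair_eq (key _ f3 ad'.1) (key _ f4 ad'.2.1) m67
  have key2 : ∀ v, v ∈ NB G F → v ≠ t₃ → v ≠ t₄ → v = s₃ ∨ v = s₄ := by
    intro v hv h3 h4
    rcases (hN v).1 hv with h | h | h | h
    · rcases hB with ⟨h5, -⟩ | ⟨-, h5⟩
      · exact absurd (h.trans h5.symm) h3
      · exact absurd (h.trans h5.symm) h4
    · rcases hB with ⟨-, h5⟩ | ⟨h5, -⟩
      · exact absurd (h.trans h5.symm) h4
      · exact absurd (h.trans h5.symm) h3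
    · exact Or.inl h
    · exact Or.inr h
  have hC : (t₁ = s₃ ∧ t₂ = s₄) ∨ (t₁ = s₄ ∧ t₂ = s₃) :=
    pair_eq (key2 _ f1 m46 m47) (key2 _ f2 m56 m57) m45
  refine ⟨?_, fun r => ?_, fun r => ?_, fun r => ?_⟩
  · simp only [List.nodup_cons, List.mem_cons, List.not_mem_nil, or_false, not_or,
      not_false_eq_true, List.nodup_nil, and_true]
    exact ⟨⟨m23, Ne.symm m12, m24, m25, m26, m27⟩, ⟨Ne.symm m13, m34, m35, m36, m37⟩,
      ⟨m14, m15, m16, m17⟩, ⟨m45, m46, m47⟩, ⟨m56, m57⟩, m67⟩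
  · rw [nw']
    constructor
    · rintro (h | h | h | h)
      · exact Or.inr (Or.inl h)
      · exact Or.inl h
      · exact Or.inr (Or.inr (Or.inl h))
      · exact Or.inr (Or.inr (Or.inr h))
    · rintro (h | h | h | h)
      · exact Or.inr (Or.inl h)
      · exact Or.inl h
      · exact Or.inr (Or.inr (Or.inl h))
      · exact Or.inr (Or.inr (Or.inr h))
  · rw [nw]
    have hA' : (r = x ∨ r = x') ↔ (r = x₂ ∨ r = w₂) := by
      rcases hA with ⟨h1, h2⟩ | ⟨h1, h2⟩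
      · rw [h1, h2]
      · rw [h1, h2, or_comm]
    have hB' : (r = s₁ ∨ r = s₂) ↔ (r = t₃ ∨ r = t₄) := by
      rcases hB with ⟨h1, h2⟩ | ⟨h1, h2⟩
      · rw [h1, h2]
      · rw [h1, h2, or_comm]
    rw [← or_assoc, hA', hB', or_assoc]
  · constructor
    · intro hr
      have hne := hr.ne
      have := hmem ((hF' x₂).2 (Or.inr (Or.inl rfl))) hr
      rw [hF', hN'] at this
      rcases this with (h | h | h) | h
      · exact Or.inr (Or.inl h)
      · exact absurd h.symm hne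
      · exact Or.inl h
      · exact Or.inr (Or.inr h)
    · have g1 : G.Adj x₂ w₂ := ((nw' x₂).2 (Or.inr (Or.inl rfl))).symm
      have g2 : G.Adj x₂ w := by
        rcases hA with ⟨h, -⟩ | ⟨h, -⟩
        · rw [h]; exact ((nw x).2 (Or.inl rfl)).symm
        · rw [h]; exact ((nw x').2 (Or.inr (Or.inl rfl))).symm
      have g3 : G.Adj x₂ t₃ := ad'.2.2.1
      have g4 : G.Adj x₂ t₄ := ad'.2.2.2
      have g5 : G.Adj x₂ s₃ ∧ G.Adj x₂ s₄ := by
        rcases hA with ⟨h, -⟩ | ⟨h, -⟩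
        · rw [h]; exact ⟨ad.1, ad.2.1⟩
        · rw [h]; exact ⟨ad.2.2.1, ad.2.2.2⟩
      have g7 : G.Adj x₂ t₁ ∧ G.Adj x₂ t₂ := by
        rcases hC with ⟨h, h'⟩ | ⟨h, h'⟩
        · rw [h, h']; exact g5
        · rw [h, h']; exact g5.symm
      rintro (h | h | h | h | h | h) <;> rw [h]
      · exact g1
      · exact g2
      · exact g7.1
      · exact g7.2
      · exact g3
      · exact g4

/-- two different vertices are not both middles -/
theorem be_be {F : Finset α} {x y z sa sc s s' x₁ y₁ z₁ ta tc t t' : α}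
    (h : BEC G F x y z sa sc s s') (h' : BEC G F x₁ y₁ z₁ ta tc t t') : x = x₁ := by
  obtain ⟨nd, hF, hN, ny, nz, xa, xc⟩ := h
  obtain ⟨nd', hF', hN', ny', nz', xa', xc'⟩ := h'
  simp only [List.nodup_cons, List.mem_cons, List.not_mem_nil, or_false, not_or,
      not_false_eq_true, List.nodup_nil, and_true] at nd nd'
  obtain ⟨⟨n12, n13, n14, n15, n16, n17⟩, ⟨n23, n24, n25, n26, n27⟩, ⟨n34, n35, n36, n37⟩,
    ⟨n45, n46, n47⟩, ⟨n56, n57⟩, n67⟩ := nd
  by_contra hne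
  have e1 := (hF x₁).1 ((hF' x₁).2 (Or.inl rfl))
  have e2 := (hF' y).1 ((hF y).2 (Or.inr (Or.inl rfl)))
  have e3 := (hF' z).1 ((hF z).2 (Or.inr (Or.inr rfl)))
  have g1 : G.Adj x₁ y₁ := ((ny' x₁).2 (Or.inl rfl)).symm
  have g2 : G.Adj x₁ z₁ := ((nz' x₁).2 (Or.inl rfl)).symm
  have g3 : ¬ G.Adj y z := by
    rw [ny]
    rintro (h | h | h | h)
    · exact n13 h.symm
    · exact n34 h
    · exact n36 h
    · exact n37 h
  have g4 : ¬ G.Adj z y := fun h => g3 h.symm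
  rcases e1 with h | h | h
  · exact hne h.symm
  · rw [h] at g1 g2
    rcases e3 with h' | h' | h'
    · exact n23 (h.symm.trans h'.symm)
    · exact g3 (h' ▸ g1)
    · exact g3 (h' ▸ g2)
  · rw [h] at g1 g2
    rcases e2 with h' | h' | h'
    · exact n23 (h'.trans h)
    · exact g4 (h' ▸ g1)
    · exact g4 (h' ▸ g2)

end N3AM

open N3AM in
/-- **N3A** -/
theorem specN3A (hFRG : SpecFRG) (hCLS : SpecCLS) : SpecN3A := by
  intro α _ _ G F hK hM h3 hSD hr
  have main : ∀ x x' w s₁ s₂ s₃ s₄, GAC G F x x' w s₁ s₂ s₃ s₄ →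
      (∃ u v w s₁ s₂ s₃ s₄, F = {u, v, w} ∧ TyA G u v w s₁ s₂ s₃ s₄) ∨
        ∃ w x x' s₁ s₂ s₃ s₄, F = {w, x, x'} ∧ TyB G w x x' s₁ s₂ s₃ s₄ := by
    intro x x' w s₁ s₂ s₃ s₄ h
    have hw : w ∈ F := (h.hF w).2 (Or.inr (Or.inr rfl))
    rcases types hFRG hCLS hK hM h3 hSD hw (hr w hw) with ⟨y, z, sa, sc, s, s', h'⟩ |
      ⟨x₂, w₂, t₁, t₂, t₃, t₄, h'⟩
    · refine Or.inr ⟨w, y, z, sa, sc, s, s', ?_, ga_be h h'⟩
      ext v
      rw [h'.hF]
      simp only [mem_insert, mem_singleton]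
    · refine Or.inl ⟨x₂, w₂, w, t₁, t₂, t₃, t₄, ?_, ga_ga h h'⟩
      ext v
      rw [h'.hF]
      simp only [mem_insert, mem_singleton]
      tauto
  obtain ⟨a, b, c, hab, hac, hbc, hF⟩ := card_eq_three.1 h3
  have ha : a ∈ F := by rw [hF]; simp
  have hb : b ∈ F := by rw [hF]; simp
  rcases types hFRG hCLS hK hM h3 hSD ha (hr a ha) with ⟨y, z, sa, sc, s, s', h⟩ |
    ⟨x', w, s₁, s₂, s₃, s₄, h⟩
  · rcases types hFRG hCLS hK hM h3 hSD hb (hr b hb) with ⟨y', z', ta, tc, t, t', h'⟩ |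
      ⟨x', w, s₁, s₂, s₃, s₄, h'⟩
    · exact absurd (be_be h h') hab
    · exact main _ _ _ _ _ _ _ h'
  · exact main _ _ _ _ _ _ _ h

end DL
end
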