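import Pool.Agent.DL.G4.Spec
import Pool.Agent.DL.G4.C20

section
/-! MP_3ff0f8_gt, algebra half, module A6N (helper14). -/
open SimpleGraph Finset

namespace DL

namespace A6NM

set_option linter.unusedSectionVars false

variable {α : Type} [Fintype α] [DecidableEq α] {G : SimpleGraph α}

theorem dst_adj {u a b : α} {P : Finset α} :
    (dst G u P).Adj a b ↔ G.Adj a b ∧ ¬ ∃ p ∈ P, s(a, b) = s(u, p) := by
  unfold dst
  rw [deleteEdges_adj]
  exact Iff.rfl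

theorem dst_le (G : SimpleGraph α) (u : α) (P : Finset α) : dst G u P ≤ G := deleteEdges_le _

theorem dst_adj_of {u a b : α} {P : Finset α} (h : G.Adj a b) (ha : a ≠ u) (hb : b ≠ u) :
    (dst G u P).Adj a b := by
  rw [dst_adj]
  refine ⟨h, ?_⟩
  rintro ⟨p, _, he⟩
  rw [Sym2.eq_iff] at he
  rcases he with ⟨h1, _⟩ | ⟨_, h1⟩
  · exact ha h1
  · exact hb h1

theorem dst_adj_u {u b : α} {P : Finset α} (h : G.Adj u b) (hb : b ∉ P) : (dst G u P).Adj u b := by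
  rw [dst_adj]
  refine ⟨h, ?_⟩
  rintro ⟨p, hp, he⟩
  rw [Sym2.eq_iff] at he
  rcases he with ⟨_, h1⟩ | ⟨h1, h2⟩
  · rw [h1] at hb; exact hb hp
  · exact h.ne h2.symm

theorem cset_dst {u : α} {P X : Finset α} (hX : CSet G X) (hu : u ∉ X) : CSet (dst G u P) X := by
  refine ⟨hX.1, fun a ha b hb => (hX.2 a ha b hb).mono fun c d hcd => ?_⟩
  have hc : c ∈ X := by
    have := hcd.2.1
    rw [mem_sdiff, not_and_not_right] at this
    exact this (mem_univ _)
  have hd : d ∈ X := by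
    have := hcd.2.2
    rw [mem_sdiff, not_and_not_right] at this
    exact this (mem_univ _)
  exact ⟨dst_adj_of hcd.1 (fun h => hu (h ▸ hc)) (fun h => hu (h ▸ hd)), hcd.2.1, hcd.2.2⟩

theorem core (hNPM : SpecNPM) {u v w t₁ t₂ t₃ : α} {P K : Finset α} (hvu : v ≠ u) (hwu : w ≠ u)
    (hvw : G.Adj v w) (hK : CSet G K) (uK : u ∉ K) (vK : v ∉ K) (wK : w ∉ K)
    (t1K : t₁ ∉ K) (t2K : t₂ ∉ K) (t3K : t₃ ∉ K) (t12 : t₁ ≠ t₂) (t13 : t₁ ≠ t₃) (t23 : t₂ ≠ t₃)
    (t1 : t₁ ≠ u ∧ t₁ ≠ v ∧ t₁ ≠ w) (t2 : t₂ ≠ u ∧ t₂ ≠ v ∧ t₂ ≠ w) (t3 : t₃ ≠ u ∧ t₃ ≠ v ∧ t₃ ≠ w)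
    (u1 : G.Adj u t₁) (u2 : G.Adj u t₂) (u3 : G.Adj u t₃) (p1 : t₁ ∉ P) (p2 : t₂ ∉ P) (p3 : t₃ ∉ P)
    (h1 : G.Adj v t₁ ∨ G.Adj w t₁) (h2 : G.Adj v t₂ ∨ G.Adj w t₂) (h3 : G.Adj v t₃ ∨ G.Adj w t₃)
    (k1 : ∃ k ∈ K, G.Adj k t₁) (k2 : ∃ k ∈ K, G.Adj k t₂) (k3 : ∃ k ∈ K, G.Adj k t₃) : NP (dst G u P) := by
  have hne : ∀ k ∈ K, k ≠ u := fun k hk h => uK (h ▸ hk)
  have cvw : CSet (dst G u P) {v, w} := by
    have := N62M.cset_union (N62M.cset_single (G := dst G u P) v) (N62M.cset_single (G := dst G u P) w)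
      (mem_singleton_self v) (mem_singleton_self w) (dst_adj_of hvw hvu hwu)
    exact this
  have evw : ∀ t, t ≠ u → (G.Adj v t ∨ G.Adj w t) → ∃ a ∈ ({v, w} : Finset α), ∃ b ∈ ({t} : Finset α),
      (dst G u P).Adj a b := by
    intro t ht h
    rcases h with h | h
    · exact ⟨v, by simp, t, by simp, dst_adj_of h hvu ht⟩
    · exact ⟨w, by simp, t, by simp, dst_adj_of h hwu ht⟩
  have eK : ∀ t, t ≠ u → (∃ k ∈ K, G.Adj k t) → ∃ a ∈ K, ∃ b ∈ ({t} : Finset α), (dst G u P).Adj a b := by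
    rintro t ht ⟨k, hk, h⟩
    exact ⟨k, hk, t, by simp, dst_adj_of h (hne k hk) ht⟩
  refine N6AM.k33_of hNPM (A₀ := {u}) (A₁ := {v, w}) (A₂ := K) (B₀ := {t₁}) (B₁ := {t₂}) (B₂ := {t₃})
    (N62M.cset_single u) cvw (cset_dst hK uK) (N62M.cset_single _) (N62M.cset_single _) (N62M.cset_single _)
    ?_ ?_ ?_ ?_ ?_ ?_ ?_ ?_ ?_ ?_ ?_ ?_
  · rw [disjoint_singleton_left]; simp [hvu.symm, hwu.symm]
  · rw [disjoint_singleton_left]; exact uK
  · rw [Finset.disjoint_left]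
    intro a ha
    simp only [mem_insert, mem_singleton] at ha
    rcases ha with rfl | rfl
    · exact vK
    · exact wK
  · simpa using t12
  · simpa using t13
  · simpa using t23
  · rw [disjoint_singleton_left]; simp [t1.1.symm, t2.1.symm, t3.1.symm]
  · rw [Finset.disjoint_left]
    intro a ha
    simp only [mem_insert, mem_singleton] at ha
    rcases ha with rfl | rfl
    · simp [t1.2.1.symm, t2.2.1.symm, t3.2.1.symm]
    · simp [t1.2.2.symm, t2.2.2.symm, t3.2.2.symm]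
  · rw [Finset.disjoint_right]
    intro a ha
    simp only [mem_union, mem_singleton] at ha
    rcases ha with (rfl | rfl) | rfl
    · exact t1K
    · exact t2K
    · exact t3K
  · exact ⟨⟨u, by simp, t₁, by simp, dst_adj_u u1 p1⟩, ⟨u, by simp, t₂, by simp, dst_adj_u u2 p2⟩,
      ⟨u, by simp, t₃, by simp, dst_adj_u u3 p3⟩⟩
  · exact ⟨evw t₁ t1.1 h1, evw t₂ t2.1 h2, evw t₃ t3.1 h3⟩
  · exact ⟨eK t₁ t1.1 k1, eK t₂ t2.1 k2, eK t₃ t3.1 k3⟩

end A6NM

open A6NM in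
theorem specA6N (hFRG : SpecFRG) (hNPM : SpecNPM) : SpecA6N := by
  intro α _ _ G u v w s₁ s₂ s₃ s₄ s hG hA hF hs P hP
  have hn := hA.nd
  simp only [List.nodup_cons, List.mem_cons, List.not_mem_nil, or_false, not_or, List.nodup_nil, and_true,
    not_false_eq_true] at hn
  obtain ⟨⟨uv, uw, us1, us2, us3, us4⟩, ⟨vw, vs1, vs2, vs3, vs4⟩, ⟨ws1, ws2, ws3, ws4⟩, ⟨s12, s13, s14⟩,
    ⟨s23, s24⟩, s34⟩ := hn
  obtain ⟨r, hr⟩ : (Rst G {u, v, w}).Nonempty := by
    rw [← card_pos]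
    have := hF.2.2.2
    unfold Rst
    omega
  have hmR : ∀ {x : α}, x ∈ Rst G {u, v, w} ↔ x ∈ VS G ∧ x ∉ ({u, v, w} : Finset α) ∧ x ∉ NB G {u, v, w} :=
    fun {x} => N6AM.mem_Rst
  set K := N62M.comp G (Rst G {u, v, w}) r with hKdef
  have hKR : K ⊆ Rst G {u, v, w} := N62M.comp_subset hr
  have hKc : CSet G K := N62M.cset_comp hr
  have uadj : ∀ t, (t = s₁ ∨ t = s₂ ∨ t = s₃ ∨ t = s₄) → G.Adj u t := by
    intro t ht
    rw [hA.nu]
    exact Or.inr (Or.inr ht)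
  have hNBs : ∀ t, (t = s₁ ∨ t = s₂ ∨ t = s₃ ∨ t = s₄) → t ∈ NB G {u, v, w} := by
    intro t ht
    rw [N62M.mem_NB]
    refine ⟨?_, u, by simp, uadj t ht⟩
    simp only [mem_insert, mem_singleton, not_or]
    rcases ht with e | e | e | e
    · rw [e]; exact ⟨Ne.symm us1, Ne.symm vs1, Ne.symm ws1⟩
    · rw [e]; exact ⟨Ne.symm us2, Ne.symm vs2, Ne.symm ws2⟩
    · rw [e]; exact ⟨Ne.symm us3, Ne.symm vs3, Ne.symm ws3⟩
    · rw [e]; exact ⟨Ne.symm us4, Ne.symm vs4, Ne.symm ws4⟩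
  have hNBi : ∀ t ∈ NB G {u, v, w}, t = s₁ ∨ t = s₂ ∨ t = s₃ ∨ t = s₄ := by
    intro t ht
    obtain ⟨h1, a, ha, hat⟩ := N62M.mem_NB.1 ht
    simp only [mem_insert, mem_singleton, not_or] at h1 ha
    rcases ha with e | e | e
    · rw [e, hA.nu] at hat
      rcases hat with e' | e' | e'
      · exact (h1.2.1 e').elim
      · exact (h1.2.2 e').elim
      · exact e'
    · rw [e, hA.nv] at hat
      rcases hat with e' | e' | e' | e'
      · exact (h1.1 e').elim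
      · exact (h1.2.2 e').elim
      · exact Or.inl e'
      · exact Or.inr (Or.inl e')
    · rw [e, hA.nw] at hat
      rcases hat with e' | e' | e' | e'
      · exact (h1.1 e').elim
      · exact (h1.2.1 e').elim
      · exact Or.inr (Or.inr (Or.inl e'))
      · exact Or.inr (Or.inr (Or.inr e'))
  have hsK : ∀ t, (t = s₁ ∨ t = s₂ ∨ t = s₃ ∨ t = s₄) → t ∉ K := fun t ht hK => (hmR.1 (hKR hK)).2.2 (hNBs t ht)
  have hNK : NB G K ⊆ NB G {u, v, w} := by
    intro t ht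
    obtain ⟨h1, a, ha, hat⟩ := N62M.mem_NB.1 ht
    by_contra hcon
    have haR := hmR.1 (hKR ha)
    by_cases htF : t ∈ ({u, v, w} : Finset α)
    · exact haR.2.2 (N62M.mem_NB.2 ⟨haR.2.1, t, htF, hat.symm⟩)
    · exact h1 (N62M.comp_closed hr ha (hmR.2 ⟨right_mem_VS hat, htF, hcon⟩) hat)
  have huK : u ∉ K := fun h => (hmR.1 (hKR h)).2.1 (by simp)
  have hvK : v ∉ K := fun h => (hmR.1 (hKR h)).2.1 (by simp)
  have hwK : w ∉ K := fun h => (hmR.1 (hKR h)).2.1 (by simp)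
  have hadj : ∀ t, (t = s₁ ∨ t = s₂ ∨ t = s₃ ∨ t = s₄) → ∃ k ∈ K, G.Adj k t := by
    intro t ht
    by_contra hcon
    have hsub : NB G K ⊆ ({s₁, s₂, s₃, s₄} : Finset α).erase t := by
      intro y hy
      rw [mem_erase]
      constructor
      · rintro rfl
        obtain ⟨-, a, ha, hat⟩ := N62M.mem_NB.1 hy
        exact hcon ⟨a, ha, hat⟩
      · have := hNBi y (hNK hy)
        simpa only [mem_insert, mem_singleton] using this
    have hc : (({s₁, s₂, s₃, s₄} : Finset α).erase t).card ≤ 3 := by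
      rw [card_erase_of_mem (by simpa only [mem_insert, mem_singleton] using ht)]
      have := card_le_four (a := s₁) (b := s₂) (c := s₃) (d := s₄)
      omega
    refine hFRG.few (D := K) hG.1 (fun x hx => (hmR.1 (hKR hx)).1) ⟨r, N62M.self_mem_comp _ _⟩ hsub hc
      (r := u) (hF.1 (by simp)) huK ?_
    intro h
    have := mem_of_mem_erase h
    simp only [mem_insert, mem_singleton] at this
    rcases this with e | e | e | e
    · exact us1 e
    · exact us2 e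
    · exact us3 e
    · exact us4 e
  have hvw : G.Adj v w := (hA.nv w).2 (Or.inr (Or.inl rfl))
  have a1 : G.Adj v s₁ ∨ G.Adj w s₁ := Or.inl ((hA.nv s₁).2 (Or.inr (Or.inr (Or.inl rfl))))
  have a2 : G.Adj v s₂ ∨ G.Adj w s₂ := Or.inl ((hA.nv s₂).2 (Or.inr (Or.inr (Or.inr rfl))))
  have a3 : G.Adj v s₃ ∨ G.Adj w s₃ := Or.inr ((hA.nw s₃).2 (Or.inr (Or.inr (Or.inl rfl))))
  have a4 : G.Adj v s₄ ∨ G.Adj w s₄ := Or.inr ((hA.nw s₄).2 (Or.inr (Or.inr (Or.inr rfl))))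
  have m1 : s₁ = s₁ ∨ s₁ = s₂ ∨ s₁ = s₃ ∨ s₁ = s₄ := Or.inl rfl
  have m2 : s₂ = s₁ ∨ s₂ = s₂ ∨ s₂ = s₃ ∨ s₂ = s₄ := Or.inr (Or.inl rfl)
  have m3 : s₃ = s₁ ∨ s₃ = s₂ ∨ s₃ = s₃ ∨ s₃ = s₄ := Or.inr (Or.inr (Or.inl rfl))
  have m4 : s₄ = s₁ ∨ s₄ = s₂ ∨ s₄ = s₃ ∨ s₄ = s₄ := Or.inr (Or.inr (Or.inr rfl))
  have f1 : s₁ ≠ u ∧ s₁ ≠ v ∧ s₁ ≠ w := ⟨Ne.symm us1, Ne.symm vs1, Ne.symm ws1⟩
  have f2 : s₂ ≠ u ∧ s₂ ≠ v ∧ s₂ ≠ w := ⟨Ne.symm us2, Ne.symm vs2, Ne.symm ws2⟩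
  have f3 : s₃ ≠ u ∧ s₃ ≠ v ∧ s₃ ≠ w := ⟨Ne.symm us3, Ne.symm vs3, Ne.symm ws3⟩
  have f4 : s₄ ≠ u ∧ s₄ ≠ v ∧ s₄ ≠ w := ⟨Ne.symm us4, Ne.symm vs4, Ne.symm ws4⟩
  have hp : ∀ t, t ≠ v → t ≠ w → t ≠ s → t ∉ P := by
    intro t h1 h2 h3 h
    have := hP h
    simp only [mem_insert, mem_singleton] at this
    rcases this with e | e | e
    · exact h1 e
    · exact h2 e
    · exact h3 e
  rcases hs with rfl | rfl | rfl | rfl
  · exact core hNPM (Ne.symm uv) (Ne.symm uw) hvw hKc huK hvK hwK (hsK _ m2) (hsK _ m3) (hsK _ m4) s23 s24 s34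
      f2 f3 f4 (uadj _ m2) (uadj _ m3) (uadj _ m4) (hp _ f2.2.1 f2.2.2 (Ne.symm s12))
      (hp _ f3.2.1 f3.2.2 (Ne.symm s13)) (hp _ f4.2.1 f4.2.2 (Ne.symm s14)) a2 a3 a4
      (hadj _ m2) (hadj _ m3) (hadj _ m4)
  · exact core hNPM (Ne.symm uv) (Ne.symm uw) hvw hKc huK hvK hwK (hsK _ m1) (hsK _ m3) (hsK _ m4) s13 s14 s34
      f1 f3 f4 (uadj _ m1) (uadj _ m3) (uadj _ m4) (hp _ f1.2.1 f1.2.2 s12)
      (hp _ f3.2.1 f3.2.2 (Ne.symm s23)) (hp _ f4.2.1 f4.2.2 (Ne.symm s24)) a1 a3 a4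
      (hadj _ m1) (hadj _ m3) (hadj _ m4)
  · exact core hNPM (Ne.symm uv) (Ne.symm uw) hvw hKc huK hvK hwK (hsK _ m1) (hsK _ m2) (hsK _ m4) s12 s14 s24
      f1 f2 f4 (uadj _ m1) (uadj _ m2) (uadj _ m4) (hp _ f1.2.1 f1.2.2 s13)
      (hp _ f2.2.1 f2.2.2 s23) (hp _ f4.2.1 f4.2.2 (Ne.symm s34)) a1 a2 a4
      (hadj _ m1) (hadj _ m2) (hadj _ m4)
  · exact core hNPM (Ne.symm uv) (Ne.symm uw) hvw hKc huK hvK hwK (hsK _ m1) (hsK _ m2) (hsK _ m3) s12 s13 s23
      f1 f2 f3 (uadj _ m1) (uadj _ m2) (uadj _ m3) (hp _ f1.2.1 f1.2.2 s14)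
      (hp _ f2.2.1 f2.2.2 s24) (hp _ f3.2.1 f3.2.2 s34) a1 a2 a3
      (hadj _ m1) (hadj _ m2) (hadj _ m3)

end DL
end

section
/-! MP_3ff0f8_gt, algebra half, module A6C (helper14). -/
open SimpleGraph Finset

namespace DL

namespace A6CM

set_option linter.unusedSectionVars false

variable {α : Type} [Fintype α] [DecidableEq α] {G : SimpleGraph α}

open A6NM

/-- the facts about type A which are used -/
structure St (G : SimpleGraph α) (u v w s₁ s₂ s₃ s₄ s : α) (P : Finset α) : Prop where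
  k : K48 G
  ty : TyA G u v w s₁ s₂ s₃ s₄
  hs : s = s₁ ∨ s = s₂ ∨ s = s₃ ∨ s = s₄
  hP : P ⊆ ({v, w, s} : Finset α)

theorem neF {u v w s₁ s₂ s₃ s₄ : α} (h : TyA G u v w s₁ s₂ s₃ s₄) :
    u ≠ v ∧ u ≠ w ∧ v ≠ w ∧ s₁ ≠ s₂ ∧ s₁ ≠ s₃ ∧ s₁ ≠ s₄ ∧ s₂ ≠ s₃ ∧ s₂ ≠ s₄ ∧ s₃ ≠ s₄ := by
  have hn := h.nd
  simp only [List.nodup_cons, List.mem_cons, List.not_mem_nil, or_false, not_or, List.nodup_nil, and_true,
    not_false_eq_true] at hn
  obtain ⟨⟨uv, uw, us1, us2, us3, us4⟩, ⟨vw, vs1, vs2, vs3, vs4⟩, ⟨ws1, ws2, ws3, ws4⟩, ⟨s12, s13, s14⟩,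
    ⟨s23, s24⟩, s34⟩ := hn
  exact ⟨uv, uw, vw, s12, s13, s14, s23, s24, s34⟩

theorem neS {u v w s₁ s₂ s₃ s₄ t : α} (h : TyA G u v w s₁ s₂ s₃ s₄) (ht : t = s₁ ∨ t = s₂ ∨ t = s₃ ∨ t = s₄) :
    t ≠ u ∧ t ≠ v ∧ t ≠ w := by
  have hn := h.nd
  simp only [List.nodup_cons, List.mem_cons, List.not_mem_nil, or_false, not_or, List.nodup_nil, and_true,
    not_false_eq_true] at hn
  obtain ⟨⟨uv, uw, us1, us2, us3, us4⟩, ⟨vw, vs1, vs2, vs3, vs4⟩, ⟨ws1, ws2, ws3, ws4⟩, ⟨s12, s13, s14⟩,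
    ⟨s23, s24⟩, s34⟩ := hn
  rcases ht with e | e | e | e
  · rw [e]; exact ⟨Ne.symm us1, Ne.symm vs1, Ne.symm ws1⟩
  · rw [e]; exact ⟨Ne.symm us2, Ne.symm vs2, Ne.symm ws2⟩
  · rw [e]; exact ⟨Ne.symm us3, Ne.symm vs3, Ne.symm ws3⟩
  · rw [e]; exact ⟨Ne.symm us4, Ne.symm vs4, Ne.symm ws4⟩

theorem uadj {u v w s₁ s₂ s₃ s₄ t : α} (h : TyA G u v w s₁ s₂ s₃ s₄) (ht : t = s₁ ∨ t = s₂ ∨ t = s₃ ∨ t = s₄) :
    G.Adj u t := (h.nu t).2 (Or.inr (Or.inr ht))

theorem notP {u v w s₁ s₂ s₃ s₄ s : α} {P : Finset α} (h : St G u v w s₁ s₂ s₃ s₄ s P) {t : α} (h1 : t ≠ v)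
    (h2 : t ≠ w) (h3 : t ≠ s) : t ∉ P := by
  intro ht
  have := h.hP ht
  simp only [mem_insert, mem_singleton] at this
  rcases this with e | e | e
  · exact h1 e
  · exact h2 e
  · exact h3 e

/-- at least three of the `s_j` are neighbours of `u` in `dst G u P` -/
theorem three {u v w s₁ s₂ s₃ s₄ s : α} {P : Finset α} (h : St G u v w s₁ s₂ s₃ s₄ s P) {S : Finset α}
    (hS : S.card < 3) : ∃ t, t ∉ S ∧ (dst G u P).Adj u t := by
  obtain ⟨-, -, -, s12, s13, s14, s23, s24, s34⟩ := neF h.ty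
  have hc : (({s₁, s₂, s₃, s₄} : Finset α).erase s).card = 3 := by
    rw [card_erase_of_mem (by simpa only [mem_insert, mem_singleton] using h.hs)]
    have : ({s₁, s₂, s₃, s₄} : Finset α).card = 4 := by
      rw [card_insert_of_notMem (by simp [s12, s13, s14]), card_insert_of_notMem (by simp [s23, s24]),
        card_pair s34]
    rw [this]
  have hne : ((({s₁, s₂, s₃, s₄} : Finset α).erase s) \ S).Nonempty := by
    rw [← card_pos]
    have := le_card_sdiff S (({s₁, s₂, s₃, s₄} : Finset α).erase s)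
    omega
  obtain ⟨t, ht⟩ := hne
  rw [mem_sdiff, mem_erase] at ht
  obtain ⟨⟨h1, h2⟩, h3⟩ := ht
  simp only [mem_insert, mem_singleton] at h2
  exact ⟨t, h3, dst_adj_u (uadj h.ty h2) (notP h (neS h.ty h2).2.1 (neS h.ty h2).2.2 h1)⟩

theorem VS_dst {u v w s₁ s₂ s₃ s₄ s : α} {P : Finset α} (h : St G u v w s₁ s₂ s₃ s₄ s P) :
    VS (dst G u P) = VS G := by
  apply Subset.antisymm (VS_mono (dst_le G u P))
  intro x hx
  rw [mem_VS]
  by_cases hxu : x = u
  · obtain ⟨t, -, ht⟩ := three h (S := ∅) (by simp)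
    exact ⟨t, hxu ▸ ht⟩
  · have h4 := h.k.1.le_nbs hx
    have hne : ((nbs G x).erase u).Nonempty := by
      rw [← card_pos]
      have := pred_card_le_card_erase (s := nbs G x) (a := u)
      omega
    obtain ⟨t, ht⟩ := hne
    rw [mem_erase, mem_nbs] at ht
    exact ⟨t, dst_adj_of ht.2 hxu ht.1⟩

theorem k3 {u v w s₁ s₂ s₃ s₄ s : α} {P : Finset α} (h : St G u v w s₁ s₂ s₃ s₄ s P) : KConn 3 (dst G u P) := by
  have hJ : KConn 3 (del G {u}) := h.k.1.del_vertex (by norm_num) u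
  have hVJ : VS (del G {u}) = VS G \ {u} := h.k.1.VS_del (by simp)
  refine ⟨by rw [VS_dst h]; have := h.k.2; omega, fun S hS => ?_⟩
  have key : ∀ a ∈ VS G, ∀ b ∈ VS G, a ∉ S → b ∉ S → a ≠ u → b ≠ u → (del (dst G u P) S).Reachable a b := by
    intro a ha b hb haS hbS hau hbu
    have h1 : (del (del G {u}) S).Reachable a b :=
      hJ.reach hS (by rw [hVJ, mem_sdiff, mem_singleton]; exact ⟨ha, hau⟩)
        (by rw [hVJ, mem_sdiff, mem_singleton]; exact ⟨hb, hbu⟩) haS hbS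
    refine h1.mono fun c d hcd => ?_
    obtain ⟨⟨h2, h3, h4⟩, h5, h6⟩ := hcd
    rw [mem_singleton] at h3 h4
    exact ⟨dst_adj_of h2 h3 h4, h5, h6⟩
  have key2 : ∀ b ∈ VS G, b ∉ S → b ≠ u → u ∉ S → (del (dst G u P) S).Reachable u b := by
    intro b hb hbS hbu huS
    obtain ⟨t, htS, ht⟩ := three h hS
    have h1 : (del (dst G u P) S).Adj u t := ⟨ht, huS, htS⟩
    refine h1.reachable.trans (key t (right_mem_VS (dst_le G u P ht)) b hb htS hbS ht.ne.symm hbu)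
  intro a ha b hb haS hbS
  rw [VS_dst h] at ha hb
  by_cases hau : a = u
  · by_cases hbu : b = u
    · rw [hau, hbu]
    · rw [hau]; exact key2 b hb hbS hbu (hau ▸ haS)
  · by_cases hbu : b = u
    · rw [hbu]; exact (key2 a ha haS hau (hbu ▸ hbS)).symm
    · exact key a ha b hb haS hbS hau hbu

/-- two neighbours of `u` among the `s_j` cannot both be in `A` -/
theorem two {u v w s₁ s₂ s₃ s₄ s : α} {P S A B : Finset α} (h : St G u v w s₁ s₂ s₃ s₄ s P)
    (hsep : Sep (dst G u P) S A B) (hu : u ∈ B) {t t' : α} (htt : t ≠ t') (ht : t ∈ A) (ht' : t' ∈ A)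
    (h1 : G.Adj u t) (h2 : G.Adj u t') (h3 : t ≠ v ∧ t ≠ w) (h4 : t' ≠ v ∧ t' ≠ w) : False := by
  have hP : ∀ t ∈ A, G.Adj u t → t ∈ P := by
    intro t ht h1
    by_contra hc
    exact hsep.2.2.2.2 t ht u hu (dst_adj_u h1 hc).symm
  have e1 : t = s := by
    by_contra hc
    exact notP h h3.1 h3.2 hc (hP t ht h1)
  have e2 : t' = s := by
    by_contra hc
    exact notP h h4.1 h4.2 hc (hP t' ht' h2)
  exact htt (e1.trans e2.symm)

theorem sep_up {u : α} {P S A B : Finset α} (hV : VS (dst G u P) = VS G) (hsep : Sep (dst G u P) S A B)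
    (hu : u ∈ B) : Sep G (insert u S) A (B.erase u) := by
  obtain ⟨h1, h2, h3, h4, h5⟩ := hsep
  have huA : u ∉ A := Finset.disjoint_right.1 h4 hu
  refine ⟨?_, ?_, ?_, ?_, ?_⟩
  · rw [← hV, ← h1]
    ext x
    simp only [mem_union, mem_insert, mem_erase]
    by_cases hx : x = u
    · subst hx; simp [hu]
    · simp only [hx, false_or, ne_eq, not_false_eq_true, true_and]
  · rw [disjoint_insert_left]; exact ⟨huA, h2⟩
  · rw [disjoint_insert_left]
    exact ⟨notMem_erase _ _, disjoint_of_subset_right (erase_subset _ _) h3⟩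
  · exact disjoint_of_subset_right (erase_subset _ _) h4
  · intro a ha b hb hab
    rw [mem_erase] at hb
    exact h5 a ha b hb.2 (dst_adj_of hab (fun e => huA (e ▸ ha)) hb.1)

/-- if `{u, v, w} = {u, a, b}` then `{a, b} = {v, w}` -/
theorem pair {u v w a b : α} (h : ({u, v, w} : Finset α) = {u, a, b}) (hua : u ≠ a) (hub : u ≠ b) (hab : a ≠ b) :
    (a = v ∧ b = w) ∨ (a = w ∧ b = v) := by
  have h1 : a ∈ ({u, v, w} : Finset α) := by rw [h]; simp
  have h2 : b ∈ ({u, v, w} : Finset α) := by rw [h]; simp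
  simp only [mem_insert, mem_singleton] at h1 h2
  rcases h1 with e | e | e
  · exact (hua e.symm).elim
  · rcases h2 with e' | e' | e'
    · exact (hub e'.symm).elim
    · exact (hab (e.trans e'.symm)).elim
    · exact Or.inl ⟨e, e'⟩
  · rcases h2 with e' | e' | e'
    · exact (hub e'.symm).elim
    · exact Or.inr ⟨e, e'⟩
    · exact (hab (e.trans e'.symm)).elim

/-- a neighbour of `v` or `w` different from `u`, `v`, `w` is a neighbour of `u` -/
theorem nbr {u v w s₁ s₂ s₃ s₄ c t : α} (h : TyA G u v w s₁ s₂ s₃ s₄) (hc : c = v ∨ c = w) (hct : G.Adj c t)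
    (h1 : t ≠ u) (h2 : t ≠ v) (h3 : t ≠ w) : G.Adj u t := by
  rcases hc with e | e
  · rw [e, h.nv] at hct
    rcases hct with e' | e' | e' | e'
    · exact (h1 e').elim
    · exact (h3 e').elim
    · exact uadj h (Or.inl e')
    · exact uadj h (Or.inr (Or.inl e'))
  · rw [e, h.nw] at hct
    rcases hct with e' | e' | e' | e'
    · exact (h1 e').elim
    · exact (h2 e').elim
    · exact uadj h (Or.inr (Or.inr (Or.inl e')))
    · exact uadj h (Or.inr (Or.inr (Or.inr e')))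

theorem ga {u v w s₁ s₂ s₃ s₄ s x' c t₁ t₂ t₃ t₄ q₁ q₂ : α} {P S A B T X Y : Finset α}
    (h : St G u v w s₁ s₂ s₃ s₄ s P) (hsep : Sep (dst G u P) S A B) (hu : u ∈ B)
    (hga : TGa G {u, v, w} T X Y u x' c t₁ t₂ t₃ t₄ q₁ q₂) (hXY : X = A ∨ Y = A) : False := by
  have hn := hga.nd
  simp only [List.nodup_cons, List.mem_cons, List.not_mem_nil, or_false, not_or, List.nodup_nil, and_true,
    not_false_eq_true] at hn
  obtain ⟨⟨ux, uc, u1, u2, u3, u4, -, -⟩, ⟨xc, x1, x2, x3, x4, -, -⟩, ⟨c1, c2, c3, c4, -, -⟩, ⟨t12, -, -, -, -⟩,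
    ⟨-, -, -, -⟩, ⟨t34, -, -⟩, -⟩ := hn
  have hpr := pair hga.hF ux uc xc
  have hcv : c = v ∨ c = w := by
    rcases hpr with ⟨-, e⟩ | ⟨-, e⟩
    · exact Or.inr e
    · exact Or.inl e
  have hne : ∀ t, x' ≠ t → c ≠ t → t ≠ v ∧ t ≠ w := by
    intro t h1 h2
    rcases hpr with ⟨e1, e2⟩ | ⟨e1, e2⟩
    · rw [← e1, ← e2]; exact ⟨Ne.symm h1, Ne.symm h2⟩
    · rw [← e1, ← e2]; exact ⟨Ne.symm h2, Ne.symm h1⟩
  rcases hXY with e | e
  · have h1 := e ▸ hga.hX.2.1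
    have h2 := e ▸ hga.hX.2.2
    have f1 := hne t₁ x1 c1
    have f2 := hne t₂ x2 c2
    exact two h hsep hu t12 h1 h2
      (nbr h.ty hcv ((hga.nw t₁).2 (Or.inr (Or.inr (Or.inl rfl)))) (Ne.symm u1) f1.1 f1.2)
      (nbr h.ty hcv ((hga.nw t₂).2 (Or.inr (Or.inr (Or.inr rfl)))) (Ne.symm u2) f2.1 f2.2) f1 f2
  · have h1 := e ▸ hga.hY.1
    have h2 := e ▸ hga.hY.2
    exact two h hsep hu t34 h1 h2 hga.ad.1 hga.ad.2.1 (hne t₃ x3 c3) (hne t₄ x4 c4)

theorem side (hFRG : SpecFRG) (hCLS : SpecCLS) {u v w s₁ s₂ s₃ s₄ s : α} {P S A B : Finset α}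
    (h : St G u v w s₁ s₂ s₃ s₄ s P) (hM : MFrag G {u, v, w}) (hSD : SD3 G {u, v, w}) (hPc : P.card ≤ 2)
    (hsep : Sep (dst G u P) S A B) (hS : S.card = 3) (hA : 2 ≤ A.card) (hB : 2 ≤ B.card) (hu : u ∈ B) : False := by
  obtain ⟨uv, uw, vw, s12, s13, s14, s23, s24, s34⟩ := neF h.ty
  have hV := VS_dst h
  have hup := sep_up hV hsep hu
  have huS : u ∉ S := Finset.disjoint_right.1 hsep.2.2.1 hu
  have hc4 : (insert u S).card = 4 := by rw [card_insert_of_notMem huS, hS]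
  have hBe : (B.erase u).card = B.card - 1 := card_erase_of_mem hu
  by_cases hB3 : 3 ≤ B.card
  · have hB2 : 2 ≤ (B.erase u).card := by omega
    obtain ⟨hA3, hB3'⟩ := hSD u (by simp) _ _ _ hup hc4 (mem_insert_self _ _) hA hB2
    have h3 : ({u, v, w} : Finset α).card = 3 := card_eq_three.2 ⟨u, v, w, uv, uw, vw, rfl⟩
    rcases hCLS h.k hM (le_of_eq h3.symm) (x := u) (by simp) hup hc4 (mem_insert_self _ _) hA3 hB3' with
      ⟨y, z, sa, sc, t, t', q, hb⟩ | ⟨x', c, t₁, t₂, t₃, t₄, q₁, q₂, hg⟩ | ⟨x', c, t₁, t₂, t₃, t₄, q₁, q₂, hg⟩ |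
      ⟨x', z, z', t₁, t₂, t₃, t₄, q₁, q₂, hl⟩
    · have hn := hb.nd
      simp only [List.nodup_cons, List.mem_cons, List.not_mem_nil, or_false, not_or, List.nodup_nil, and_true,
        not_false_eq_true] at hn
      have hvw : G.Adj v w := (h.ty.nv w).2 (Or.inr (Or.inl rfl))
      have hyz : G.Adj y z := by
        rcases pair hb.hF hn.1.1 hn.1.2.1 hn.2.1.1 with ⟨e1, e2⟩ | ⟨e1, e2⟩
        · rw [e1, e2]; exact hvw
        · rw [e1, e2]; exact hvw.symm
      exact hup.2.2.2.2 y hb.hX.1 z hb.hY.1 hyz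
    · exact ga h hsep hu hg (Or.inl rfl)
    · exact ga h hsep hu hg (Or.inr rfl)
    · have hn := hl.nd
      simp only [List.nodup_cons, List.mem_cons, List.not_mem_nil, or_false, not_or, List.nodup_nil, and_true,
        not_false_eq_true] at hn
      have h4 : ({u, x', z, z'} : Finset α).card = 4 := by
        rw [card_insert_of_notMem (by
            simp only [mem_insert, mem_singleton, not_or]; exact ⟨hn.1.1, hn.1.2.1, hn.1.2.2.1⟩),
          card_eq_three.2 ⟨x', z, z', hn.2.1.1, hn.2.1.2.1, hn.2.2.1.1, rfl⟩]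
      have h5 := hl.hF
      rw [h5] at h3
      omega
  · have hB1 : (B.erase u).card = 1 := by omega
    obtain ⟨b, hb⟩ := card_eq_one.1 hB1
    have hbB : b ∈ B.erase u := by rw [hb]; simp
    rw [mem_erase] at hbB
    have hbS : b ∉ S := Finset.disjoint_right.1 hsep.2.2.1 hbB.2
    have hbV : b ∈ VS G := hV ▸ hsep.subQ hbB.2
    -- neighbours of `b`
    have hNb : nbs G b ⊆ insert u S := by
      intro t ht
      rw [mem_nbs] at ht
      rcases hup.mem_or (right_mem_VS ht) with h1 | h1 | h1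
      · exact h1
      · exact (hup.2.2.2.2 t h1 b (by rw [hb]; simp) ht.symm).elim
      · rw [hb, mem_singleton] at h1
        exact (ht.ne h1.symm).elim
    have hNb' : nbs G b = insert u S :=
      eq_of_subset_of_card_le hNb (by rw [hc4]; exact h.k.1.le_nbs hbV)
    have hbu : G.Adj u b := by
      have : u ∈ nbs G b := by rw [hNb']; simp
      exact (mem_nbs.1 this).symm
    -- the neighbours of `u` not in `{b} ∪ S` are in `A`
    have hNu : ∀ t, G.Adj u t → t ≠ b → t ∉ S → t ∈ A := by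
      intro t ht h1 h2
      rcases hup.mem_or (right_mem_VS ht) with h3 | h3 | h3
      · rw [mem_insert] at h3
        rcases h3 with h3 | h3
        · exact (ht.ne h3.symm).elim
        · exact (h2 h3).elim
      · exact h3
      · rw [hb, mem_singleton] at h3
        exact (h1 h3).elim
    have hSb : ∀ t ∈ S, G.Adj b t := by
      intro t ht
      have : t ∈ nbs G b := by rw [hNb']; exact mem_insert_of_mem ht
      exact mem_nbs.1 this
    have m1 : s₁ = s₁ ∨ s₁ = s₂ ∨ s₁ = s₃ ∨ s₁ = s₄ := Or.inl rfl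
    have m2 : s₂ = s₁ ∨ s₂ = s₂ ∨ s₂ = s₃ ∨ s₂ = s₄ := Or.inr (Or.inl rfl)
    have m3 : s₃ = s₁ ∨ s₃ = s₂ ∨ s₃ = s₃ ∨ s₃ = s₄ := Or.inr (Or.inr (Or.inl rfl))
    have m4 : s₄ = s₁ ∨ s₄ = s₂ ∨ s₄ = s₃ ∨ s₄ = s₄ := Or.inr (Or.inr (Or.inr rfl))
    have f1 := neS h.ty m1
    have f2 := neS h.ty m2
    have f3 := neS h.ty m3
    have f4 := neS h.ty m4
    rcases (h.ty.nu b).1 hbu with e | e | e
    · -- `b = v`: `s₃, s₄ ∈ A`
      have g3 : s₃ ∈ A := hNu s₃ (uadj h.ty m3) (e ▸ f3.2.1) fun hc => by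
        have := hSb _ hc
        rw [e, h.ty.nv] at this
        rcases this with e' | e' | e' | e'
        · exact f3.1 e'
        · exact f3.2.2 e'
        · exact s13 e'.symm
        · exact s23 e'.symm
      have g4 : s₄ ∈ A := hNu s₄ (uadj h.ty m4) (e ▸ f4.2.1) fun hc => by
        have := hSb _ hc
        rw [e, h.ty.nv] at this
        rcases this with e' | e' | e' | e'
        · exact f4.1 e'
        · exact f4.2.2 e'
        · exact s14 e'.symm
        · exact s24 e'.symm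
      exact two h hsep hu s34 g3 g4 (uadj h.ty m3) (uadj h.ty m4) f3.2 f4.2
    · have g1 : s₁ ∈ A := hNu s₁ (uadj h.ty m1) (e ▸ f1.2.2) fun hc => by
        have := hSb _ hc
        rw [e, h.ty.nw] at this
        rcases this with e' | e' | e' | e'
        · exact f1.1 e'
        · exact f1.2.1 e'
        · exact s13 e'
        · exact s14 e'
      have g2 : s₂ ∈ A := hNu s₂ (uadj h.ty m2) (e ▸ f2.2.2) fun hc => by
        have := hSb _ hc
        rw [e, h.ty.nw] at this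
        rcases this with e' | e' | e' | e'
        · exact f2.1 e'
        · exact f2.2.1 e'
        · exact s23 e'
        · exact s24 e'
      exact two h hsep hu s12 g1 g2 (uadj h.ty m1) (uadj h.ty m2) f1.2 f2.2
    · -- `b = s_j`
      set N : Finset α := {v, w, s₁, s₂, s₃, s₄} with hN
      have hNc : N.card = 6 := by
        rw [hN, card_insert_of_notMem (by
            simp only [mem_insert, mem_singleton, not_or]
            exact ⟨vw, Ne.symm f1.2.1, Ne.symm f2.2.1, Ne.symm f3.2.1, Ne.symm f4.2.1⟩),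
          card_insert_of_notMem (by
            simp only [mem_insert, mem_singleton, not_or]
            exact ⟨Ne.symm f1.2.2, Ne.symm f2.2.2, Ne.symm f3.2.2, Ne.symm f4.2.2⟩),
          card_insert_of_notMem (by
            simp only [mem_insert, mem_singleton, not_or]
            exact ⟨s12, s13, s14⟩),
          card_insert_of_notMem (by
            simp only [mem_insert, mem_singleton, not_or]
            exact ⟨s23, s24⟩), card_pair s34]
      have hNadj : ∀ t ∈ N, G.Adj u t := by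
        intro t ht
        rw [hN] at ht
        simp only [mem_insert, mem_singleton] at ht
        exact (h.ty.nu t).2 ht
      have hsub : N ⊆ (N ∩ insert b S) ∪ P := by
        intro t ht
        rw [mem_union, mem_inter]
        by_cases h1 : t ∈ insert b S
        · exact Or.inl ⟨ht, h1⟩
        · right
          rw [mem_insert, not_or] at h1
          have h2 := hNu t (hNadj t ht) h1.1 h1.2
          by_contra hc
          exact hsep.2.2.2.2 t h2 u hu (dst_adj_u (hNadj t ht) hc).symm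
      have hle := (card_le_card hsub).trans (card_union_le _ _)
      have hbSc : (insert b S).card = 4 := by rw [card_insert_of_notMem hbS, hS]
      have h4 : N ∩ insert b S = insert b S := by
        refine eq_of_subset_of_card_le inter_subset_right ?_
        omega
      have hSN : insert b S ⊆ N := by rw [← h4]; exact inter_subset_left
      have hbN : b ∈ NB G {u, v, w} := by
        rw [N62M.mem_NB]
        refine ⟨?_, u, by simp, hbu⟩
        have := neS h.ty e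
        simp only [mem_insert, mem_singleton, not_or]
        exact ⟨this.1, this.2.1, this.2.2⟩
      obtain ⟨-, t, ht, hbt⟩ := hFRG.attach h.k.1 hM.1 hbN
      have htR := N6AM.mem_Rst.1 ht
      have htn : t ∈ nbs G b := mem_nbs.2 hbt
      rw [hNb', mem_insert] at htn
      rcases htn with e1 | e1
      · exact htR.2.1 (by rw [e1]; simp)
      · have h6 := hSN (mem_insert_of_mem e1)
        have h7 := hNadj t h6
        by_cases h8 : t ∈ ({u, v, w} : Finset α)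
        · exact htR.2.1 h8
        · exact htR.2.2 (N62M.mem_NB.2 ⟨h8, u, by simp, h7⟩)

theorem c1 (hFRG : SpecFRG) (hCLS : SpecCLS) {u v w s₁ s₂ s₃ s₄ s : α} {P : Finset α}
    (h : St G u v w s₁ s₂ s₃ s₄ s P) (hM : MFrag G {u, v, w}) (hSD : SD3 G {u, v, w}) (hPc : P.card ≤ 2) :
    C1 (dst G u P) := by
  refine ⟨k3 h, fun S A B hsep hS => ?_⟩
  by_contra hcon
  rw [not_or, not_le, not_le] at hcon
  obtain ⟨hA, hB⟩ := hcon
  have hV := VS_dst h
  have huV : u ∈ VS (dst G u P) := by rw [hV]; exact hM.1.1 (by simp)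
  rcases hsep.mem_or huV with h1 | h1 | h1
  · have hJ : KConn 3 (del G {u}) := h.k.1.del_vertex (by norm_num) u
    have hVJ : VS (del G {u}) = VS G \ {u} := h.k.1.VS_del (by simp)
    have huA : u ∉ A := Finset.disjoint_left.1 hsep.2.1 h1
    have huB : u ∉ B := Finset.disjoint_left.1 hsep.2.2.1 h1
    have hs : Sep (del G {u}) (S.erase u) A B := by
      obtain ⟨h2, h3, h4, h5, h6⟩ := hsep
      refine ⟨?_, disjoint_of_subset_left (erase_subset _ _) h3, disjoint_of_subset_left (erase_subset _ _) h4, h5,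
        fun a ha b hb hab => h6 a ha b hb (dst_adj_of hab.1 (fun e => huA (e ▸ ha)) (fun e => huB (e ▸ hb)))⟩
      rw [hVJ, ← hV, ← h2]
      ext x
      simp only [mem_union, mem_erase, mem_sdiff, mem_singleton]
      by_cases hx : x = u
      · subst hx; simp [huA, huB]
      · simp only [hx, ne_eq, not_false_eq_true, true_and, and_true]
    have h7 := hJ.le_of_sep hs (card_pos.1 (by omega)) (card_pos.1 (by omega))
    rw [card_erase_of_mem h1] at h7
    omega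
  · exact side hFRG hCLS h hM hSD hPc hsep.symm hS hB hA h1
  · exact side hFRG hCLS h hM hSD hPc hsep hS hA hB h1

end A6CM

theorem specA6C (hFRG : SpecFRG) (hCLS : SpecCLS) : SpecA6C where
  c1 := fun hG hA hM hSD hs _ hP hPc => A6CM.c1 hFRG hCLS ⟨hG, hA, hs, hP⟩ hM hSD hPc
  k3 := fun hG hA hs _ hP => A6CM.k3 ⟨hG, hA, hs, hP⟩

end DL
end
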