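import Pool.Agent.DL.G4.Spec2
import Pool.Agent.DL.BASE.U6
import Pool.Agent.DL.BASE.K33
import Pool.Agent.DL.BASE.TRP

/-!
# MP_3ff0f8_gt, ALGEBRA HALF, G4, module I33 (helper19): `U` and `KZ` for `K₃ □ K₃`

The certificates are in `BASE/UK3.lean` (helper59) and `BASE/K33.lean`; transport by `BASE/TRP.lean`.
-/

open SimpleGraph Finset

namespace DL

namespace I33M

open BASE

instance : DecidableRel cK3.E.G.Adj := fun _ _ => inferInstanceAs (Decidable (_ = true))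

/-- adjacency of the standard model -/
theorem adj_std : ∀ i j : Fin 9, cK3.E.G.Adj i j ↔
    ((i.1 / 3 = j.1 / 3 ∧ i.1 % 3 ≠ j.1 % 3) ∨ (i.1 / 3 ≠ j.1 / 3 ∧ i.1 % 3 = j.1 % 3)) := by
  decide +kernel

/-- `KZ` of the standard model -/
theorem kz_std : KZ cK3.E.G := by
  refine K33M.kz (l := ([0, 1, 2, 3, 4, 5, 6, 7, 8] : List (Fin 9))) (by decide) rfl (0 : Fin 9) ?_
  decide +kernel

/-- a `K₃ □ K₃` is an image of the standard model -/
theorem tr {α : Type} [Fintype α] [DecidableEq α] {G : SimpleGraph α} (h : Is33 G) :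
    ∃ f : Fin cK3.E.n → α, Tr G cK3.E.G f := by
  obtain ⟨v, hv, hG⟩ := h
  have hd : ∀ i : Fin 9, i.1 / 3 < 3 := fun i => by omega
  have hm : ∀ i : Fin 9, i.1 % 3 < 3 := fun i => by omega
  refine ⟨fun i : Fin 9 => v ⟨i.1 / 3, hd i⟩ ⟨i.1 % 3, hm i⟩, ?_, ?_, ?_⟩
  · intro i j hij
    obtain ⟨h1, h2⟩ := hv _ _ _ _ hij
    rw [Fin.mk.injEq] at h1 h2
    apply Fin.ext
    have := Nat.div_add_mod i.1 3
    have := Nat.div_add_mod j.1 3
    omega
  · intro i j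
    rw [adj_std i j, hG]
    constructor
    · rintro ⟨a, b, c, d, h1, h2, h3⟩
      obtain ⟨rfl, rfl⟩ := hv _ _ _ _ h1
      obtain ⟨rfl, rfl⟩ := hv _ _ _ _ h2
      rcases h3 with ⟨h3, h4⟩ | ⟨h3, h4⟩
      · left
        rw [Fin.mk.injEq] at h3
        exact ⟨h3, fun h => h4 (Fin.ext h)⟩
      · right
        rw [Fin.mk.injEq] at h4
        exact ⟨fun h => h3 (Fin.ext h), h4⟩
    · intro h3
      refine ⟨_, _, _, _, rfl, rfl, ?_⟩
      rcases h3 with ⟨h3, h4⟩ | ⟨h3, h4⟩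
      · left
        exact ⟨Fin.ext h3, fun h => h4 (Fin.mk.inj_iff.1 h)⟩
      · right
        exact ⟨fun h => h3 (Fin.mk.inj_iff.1 h), Fin.ext h4⟩
  · intro a b hab
    obtain ⟨i, j, k, l, rfl, -, -⟩ := (hG a b).1 hab
    refine ⟨(⟨3 * i.1 + j.1, by omega⟩ : Fin 9), ?_⟩
    have h1 : (3 * i.1 + j.1) / 3 = i.1 := by omega
    have h2 : (3 * i.1 + j.1) % 3 = j.1 := by omega
    show v ⟨(3 * i.1 + j.1) / 3, _⟩ ⟨(3 * i.1 + j.1) % 3, _⟩ = v i j
    congr 1 <;> exact Fin.ext (by assumption)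

end I33M

theorem specI33 (hPOL : SpecPOL) (hDCB : SpecDCB) (hFEV : SpecFEV) : SpecI33 := by
  intro α _ _ G h
  obtain ⟨f, hf⟩ := I33M.tr h
  exact ⟨hf.u (BASE.uK3 hPOL hDCB hFEV), hf.kz I33M.kz_std⟩

end DL
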