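import Pool.Agent.DL.G4.Spec
import Pool.Agent.DL.NP.PAI
import Pool.Agent.DL.NP.TRC
import Pool.Agent.DL.KC

section
/-!
MP_3ff0f8_gt, ALGEBRA HALF, G4 block, module GFN (helper68): `Gam` as a linear functional
-/
open SimpleGraph Finset

namespace DL

namespace GFNM

open NCSM

variable {α : Type} [Fintype α] [DecidableEq α] {G : SimpleGraph α}

theorem mono2 {u w w' : α} {Z : Chain α} (h : Z ∈ Z1 (del G {u, w, w'})) :
    Z ∈ Z1 (del G {u, w}) ∧ Z ∈ Z1 (del G {u, w'}) := by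
  constructor
  · refine Z1_mono (del_anti ?_) h
    intro x hx
    simp only [mem_insert, mem_singleton] at hx ⊢
    tauto
  · refine Z1_mono (del_anti ?_) h
    intro x hx
    simp only [mem_insert, mem_singleton] at hx ⊢
    tauto

/-- the functional on a 2-cycle with rows `Z`, `Z` -/
theorem val {al : α → Chain α} {u w w' : α} (hww' : w ≠ w') {Z : Chain α}
    {z : Sym2 α → Sym2 α → ZMod 2} (r1 : z s(u, w) = Z) (r2 : z s(u, w') = Z)
    (r3 : ∀ v, v ≠ w → v ≠ w' → z s(u, v) = 0) :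
    ∑ v, pr (al v) (z s(u, v)) = pr (al w + al w') Z := by
  rw [← add_sum_erase univ _ (mem_univ w),
    ← add_sum_erase (univ.erase w) _ (mem_erase.2 ⟨hww'.symm, mem_univ w'⟩), r1, r2]
  have hrest : ∑ x ∈ (univ.erase w).erase w', pr (al x) (z s(u, x)) = 0 := by
    refine sum_eq_zero fun v hv => ?_
    rw [mem_erase, mem_erase] at hv
    rw [r3 v hv.2.1 hv.1, pr_zero]
  rw [hrest, add_zero, pr_add]

/-- a 2-cycle with the rows `Z`, `Z` -/
theorem exists_z (hLPE : SpecLPE) (hS3F : SpecS3F) {u w w' : α} (hG : KConn 4 G)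
    (huw : G.Adj u w) (huw' : G.Adj u w') (hww' : w ≠ w') {Z : Chain α}
    (hZ : Z ∈ Z1 (del G {u, w, w'})) :
    ∃ z, IsZ2 G z ∧ z s(u, w) = Z ∧ z s(u, w') = Z ∧ ∀ v, v ≠ w → v ≠ w' → z s(u, v) = 0 := by
  obtain ⟨hc, hvs⟩ := hS3F.del (k := 3) u (by norm_num) hG
  have hs3 : S3S (del G {u}) := hS3F.k3 hc
  obtain ⟨m1, m2⟩ := mono2 hZ
  obtain ⟨z, hz, hrow⟩ := hLPE.star hs3 (fun v => if v = w then Z else if v = w' then Z else 0)
    (fun v => by
      by_cases h1 : v = w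
      · subst h1; simp only [if_true]; exact m1
      · by_cases h2 : v = w'
        · subst h2; simp only [h1, if_true, if_false]; exact m2
        · simp only [h1, h2, if_false]; exact zero_mem _)
    (fun v hv => by
      by_cases h1 : v = w
      · subst h1
        refine ⟨huw, ?_⟩
        rw [hvs, mem_erase]
        exact ⟨huw.ne.symm, right_mem_VS huw⟩
      · by_cases h2 : v = w'
        · subst h2
          refine ⟨huw', ?_⟩
          rw [hvs, mem_erase]
          exact ⟨huw'.ne.symm, right_mem_VS huw'⟩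
        · exact absurd (by simp only [h1, h2, if_false]) hv)
    (by
      have hsum : ∑ v, (if v = w then Z else if v = w' then Z else 0) = Z + Z := by
        rw [← add_sum_erase univ _ (mem_univ w), if_pos rfl]
        congr 1
        rw [sum_eq_single w']
        · rw [if_neg hww'.symm, if_pos rfl]
        · intro v hv hv'
          rw [if_neg (mem_erase.1 hv).1, if_neg hv']
        · intro h
          exact absurd (mem_erase.2 ⟨hww'.symm, mem_univ _⟩) h
      rw [hsum, chain_add_self])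
  refine ⟨z, hz, ?_, ?_, ?_⟩
  · funext f
    rw [hrow w f huw, if_pos rfl]
  · funext f
    rw [hrow w' f huw', if_neg hww'.symm, if_pos rfl]
  · intro v h1 h2
    by_cases huv : G.Adj u v
    · funext f
      rw [hrow v f huv, if_neg h1, if_neg h2]
    · exact row_zero hz huv

end GFNM

open GFNM NCSM in
/-- **GFN** -/
theorem specGFN (hVKA : SpecVKA) (hLPE : SpecLPE) (hKUR : SpecKUR) (hS3F : SpecS3F) : SpecGFN := by
  intro α _ _ G u w w' hG hp huw huw' hww'
  obtain ⟨r, hr⟩ : ∃ r : α → ℕ, Function.Injective r :=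
    ⟨fun x => ((Fintype.equivFin α) x).val, fun x y h =>
      (Fintype.equivFin α).injective (Fin.ext h)⟩
  obtain ⟨al, hal⟩ := exists_al hVKA hKUR hp hr
  have key : ∀ Z ∈ Z1 (del G {u, w, w'}), (Gam G u w w' Z ↔ pr (al w + al w') Z ≠ 0) := by
    intro Z hZ
    constructor
    · rintro ⟨_, _, _, _, r', z, hr', hz, hvk, r1, r2, r3⟩
      rw [hVKA.inv hr' hr hz, hal z hz, val hww' r1 r2 r3] at hvk
      exact hvk
    · intro h0
      obtain ⟨z, hz, r1, r2, r3⟩ := exists_z hLPE hS3F hG huw huw' hww' hZ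
      refine ⟨huw, huw', hww', hZ, r, z, hr, hz, ?_, r1, r2, r3⟩
      rw [hal z hz, val hww' r1 r2 r3]
      exact h0
  refine ⟨al w + al w', key, ?_⟩
  intro P hP Z hZ
  by_contra h0
  have hPw : w ∈ vs P := hP.left_mem hww'
  have hPw' : w' ∈ vs P := hP.right_mem hww'
  have hZ' : Z ∈ Z1 (del G {u, w, w'}) := by
    refine Z1_mono (del_anti ?_) hZ
    intro x hx
    simp only [mem_insert, mem_singleton] at hx ⊢
    rcases hx with rfl | rfl | rfl
    · exact Or.inl rfl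
    · exact Or.inr hPw
    · exact Or.inr hPw'
  have hgam := (key Z hZ').2 h0
  have hPv := vs_of_isPth_del hP
  have huP : u ∉ vs P := fun h => Finset.disjoint_left.1 hPv h (by simp)
  have hc := isCyc_of_isPth_del huw huw' hww' hP
  refine NCNM.torus hVKA hKUR hp (t := chi (insert s(u, w) (insert s(u, w') P))) (Z := Z)
    (insert u (vs P)) (univ \ insert u (vs P)) hc.chi_mem (Z1_mono (del_le _ _) hZ) ?_ ?_
    disjoint_sdiff (mem_insert_self _ _) (chi_of_mem (by simp)) (chi_of_mem (by simp)) ?_ hgam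
  · intro e v he hv
    rw [chi_ne_zero] at he
    simp only [mem_insert] at he
    rw [mem_insert]
    rcases he with rfl | rfl | he
    · rw [Sym2.mem_iff] at hv
      rcases hv with rfl | rfl
      · exact Or.inl rfl
      · exact Or.inr hPw
    · rw [Sym2.mem_iff] at hv
      rcases hv with rfl | rfl
      · exact Or.inl rfl
      · exact Or.inr hPw'
    · exact Or.inr (mem_vs.2 ⟨e, he, hv⟩)
  · intro e v he hv
    rw [mem_sdiff]
    exact ⟨mem_univ _, NCNM.notMem_of_del hZ he hv⟩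
  · intro v hv1 hv2
    apply chi_of_notMem
    simp only [mem_insert, Sym2.eq_iff, not_or, not_and]
    exact ⟨⟨fun _ => hv1, fun h => absurd h huw.ne⟩, ⟨fun _ => hv2, fun h => absurd h huw'.ne⟩,
      fun h => huP (left_mem_vs h)⟩

end DL
end

section
/-!
# HMS: `H` without the exceptional edges
-/
open SimpleGraph Finset

namespace DL

namespace HMSM

variable {α : Type} [Fintype α] [DecidableEq α] {G : SimpleGraph α}

omit [DecidableEq α] in
theorem mem_NB {A : Finset α} {w : α} : w ∈ NB G A ↔ w ∉ A ∧ ∃ a ∈ A, G.Adj a w := by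
  unfold NB
  simp only [mem_filter, mem_univ, true_and]

/-- `cd` is the exceptional edge of `s` -/
def Ex (G : SimpleGraph α) (x y s c d : α) : Prop :=
  G.Adj c d ∧ c ≠ x ∧ c ≠ y ∧ d ≠ x ∧ d ≠ y ∧ ∀ w, G.Adj s w ↔ w = x ∨ w = y ∨ w = c ∨ w = d

omit [Fintype α] [DecidableEq α] in
theorem Ex.symm {x y s c d : α} (h : Ex G x y s c d) : Ex G x y s d c := by
  refine ⟨h.1.symm, h.2.2.2.1, h.2.2.2.2.1, h.2.1, h.2.2.1, fun w => ?_⟩
  rw [h.2.2.2.2.2 w]
  tauto

omit [Fintype α] [DecidableEq α] in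
theorem mem_exc {x y s u v : α} : s(u, v) ∈ exc G x y s ↔ Ex G x y s u v := by
  constructor
  · rintro ⟨c, d, he, h⟩
    have h' : Ex G x y s c d := h
    rw [Sym2.eq_iff] at he
    rcases he with ⟨rfl, rfl⟩ | ⟨rfl, rfl⟩
    · exact h'
    · exact h'.symm
  · intro h
    exact ⟨u, v, rfl, h⟩

omit [Fintype α] [DecidableEq α] in
theorem Ex.uniq {x y s c d u v : α} (h : Ex G x y s c d) (h' : Ex G x y s u v) :
    (u = c ∧ v = d) ∨ (u = d ∧ v = c) := by
  have hu := (h.2.2.2.2.2 u).1 ((h'.2.2.2.2.2 u).2 (by tauto))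
  have hv := (h.2.2.2.2.2 v).1 ((h'.2.2.2.2.2 v).2 (by tauto))
  have hu' : u = c ∨ u = d := by
    rcases hu with hu | hu | hu
    · exact absurd hu h'.2.1
    · exact absurd hu h'.2.2.1
    · exact hu
  have hv' : v = c ∨ v = d := by
    rcases hv with hv | hv | hv
    · exact absurd hv h'.2.2.2.1
    · exact absurd hv h'.2.2.2.2.1
    · exact hv
  have hne := h'.1.ne
  rcases hu' with rfl | rfl <;> rcases hv' with rfl | rfl
  · exact absurd rfl hne
  · exact Or.inl ⟨rfl, rfl⟩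
  · exact Or.inr ⟨rfl, rfl⟩
  · exact absurd rfl hne

theorem Hm_adj {x y s t u v : α} : (Hm G x y s t).Adj u v ↔
    (del G {x, y}).Adj u v ∧ ¬ Ex G x y s u v ∧ ¬ Ex G x y t u v := by
  unfold Hm
  rw [deleteEdges_adj, Set.mem_union, mem_exc, mem_exc, not_or]

theorem Hm_comm (x y s t : α) : Hm G x y s t = Hm G x y t s := by
  unfold Hm
  rw [Set.union_comm]

/-- the situation of HMS -/
structure Cfg (G : SimpleGraph α) (x y s₁ s₂ s t : α) : Prop where
  g : K48 G
  p : P33 G x y s₁ s₂ s t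
  e : E4 G s₁ s₂ s t
  r : Rig G x
  n : ¬ G.Adj s t

theorem Cfg.swap {x y s₁ s₂ s t : α} (h : Cfg G x y s₁ s₂ s t) : Cfg G x y s₁ s₂ t s := by
  refine ⟨h.g, ⟨?_, ?_, ?_⟩, ?_, h.r, fun h' => h.n h'.symm⟩
  · have := h.p.nd
    simp only [List.nodup_cons, List.mem_cons, List.not_mem_nil, or_false, not_or,
      List.nodup_nil, not_false_eq_true, and_true] at this ⊢
    obtain ⟨⟨a1, a2, a3, a4, a5⟩, ⟨b1, b2, b3, b4⟩, ⟨c1, c2, c3⟩, ⟨d1, d2⟩, e1⟩ := this
    exact ⟨⟨a1, a2, a3, a5, a4⟩, ⟨b1, b2, b4, b3⟩, ⟨c1, c3, c2⟩, ⟨d2, d1⟩, Ne.symm e1⟩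
  · intro w
    rw [h.p.nx]
    tauto
  · intro w
    rw [h.p.ny]
    tauto
  · exact ⟨h.e.2.1, h.e.1, h.e.2.2.2, h.e.2.2.1⟩

theorem Cfg.nd {x y s₁ s₂ s t : α} (h : Cfg G x y s₁ s₂ s t) :
    (x ≠ y ∧ x ≠ s₁ ∧ x ≠ s₂ ∧ x ≠ s ∧ x ≠ t) ∧ (y ≠ s₁ ∧ y ≠ s₂ ∧ y ≠ s ∧ y ≠ t) ∧
      (s₁ ≠ s₂ ∧ s₁ ≠ s ∧ s₁ ≠ t) ∧ (s₂ ≠ s ∧ s₂ ≠ t) ∧ s ≠ t := by
  have := h.p.nd
  simp only [List.nodup_cons, List.mem_cons, List.not_mem_nil, or_false, not_or,
      List.nodup_nil, not_false_eq_true, and_true] at this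
  exact this

/-- the ends of the exceptional edges are none of the `s_i` -/
theorem Cfg.out {x y s₁ s₂ s t c d : α} (h : Cfg G x y s₁ s₂ s t) (E : Ex G x y s c d) :
    c ≠ s₁ ∧ c ≠ s₂ ∧ c ≠ s ∧ c ≠ t := by
  have hc : G.Adj s c := (E.2.2.2.2.2 c).2 (by tauto)
  refine ⟨?_, ?_, ?_, ?_⟩
  · rintro rfl
    exact h.e.1 hc.symm
  · rintro rfl
    exact h.e.2.2.1 hc.symm
  · exact hc.ne.symm
  · rintro rfl
    exact h.n hc

theorem Cfg.out' {x y s₁ s₂ s t c d : α} (h : Cfg G x y s₁ s₂ s t) (E : Ex G x y t c d) :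
    c ≠ s₁ ∧ c ≠ s₂ ∧ c ≠ s ∧ c ≠ t := by
  have := h.swap.out E
  exact ⟨this.1, this.2.1, this.2.2.2, this.2.2.1⟩

/-- the ends of the exceptional edges are not adjacent to `x`, `y` -/
theorem Cfg.nadj {x y s₁ s₂ s t c : α} (h : Cfg G x y s₁ s₂ s t)
    (hc : c ≠ s₁ ∧ c ≠ s₂ ∧ c ≠ s ∧ c ≠ t) (hcx : c ≠ x) (hcy : c ≠ y) :
    ¬ G.Adj c x ∧ ¬ G.Adj c y := by
  constructor
  · intro h'
    rcases (h.p.nx c).1 h'.symm with h1 | h1 | h1 | h1
    · exact hcy h1
    · exact hc.2.1 h1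
    · exact hc.2.2.1 h1
    · exact hc.2.2.2 h1
  · intro h'
    rcases (h.p.ny c).1 h'.symm with h1 | h1 | h1 | h1
    · exact hcx h1
    · exact hc.1 h1
    · exact hc.2.2.1 h1
    · exact hc.2.2.2 h1

/-- the edges at the `s_i` are not deleted -/
theorem Cfg.keep {x y s₁ s₂ s t v w : α} (h : Cfg G x y s₁ s₂ s t)
    (hv : v = s₁ ∨ v = s₂ ∨ v = s ∨ v = t) (hvw : G.Adj v w) (hwx : w ≠ x) (hwy : w ≠ y) :
    (Hm G x y s t).Adj v w := by
  have hnd := h.nd
  have hvxy : v ≠ x ∧ v ≠ y := by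
    rcases hv with rfl | rfl | rfl | rfl
    · exact ⟨hnd.1.2.1.symm, hnd.2.1.1.symm⟩
    · exact ⟨hnd.1.2.2.1.symm, hnd.2.1.2.1.symm⟩
    · exact ⟨hnd.1.2.2.2.1.symm, hnd.2.1.2.2.1.symm⟩
    · exact ⟨hnd.1.2.2.2.2.symm, hnd.2.1.2.2.2.symm⟩
  have key : ∀ {c : α}, (c ≠ s₁ ∧ c ≠ s₂ ∧ c ≠ s ∧ c ≠ t) → v ≠ c := by
    rintro c ⟨h1, h2, h3, h4⟩ rfl
    tauto
  rw [Hm_adj]
  refine ⟨⟨hvw, ?_, ?_⟩, fun E => key (h.out E) rfl, fun E => key (h.out' E) rfl⟩
  · rw [mem_insert, mem_singleton, not_or]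
    exact hvxy
  · rw [mem_insert, mem_singleton, not_or]
    exact ⟨hwx, hwy⟩

theorem reach_lift {R T : SimpleGraph α} (h : ∀ u v, T.Adj u v → R.Reachable u v) {a b : α}
    (hr : T.Reachable a b) : R.Reachable a b :=
  DL.mem_of_reachable (X := {v | R.Reachable a v}) hr (Reachable.refl _)
    fun u v huv hu => Reachable.trans hu (h u v huv)

/-- BYPASS -/
theorem Cfg.byp {x y s₁ s₂ s t c d : α} {S : Finset α} (h : Cfg G x y s₁ s₂ s t)
    (E : Ex G x y s c d) (hc : c ∉ S) (hd : d ∉ S) (hs : s ∉ S) :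
    (del (Hm G x y s t) S).Reachable c d := by
  have h1 : G.Adj s c := (E.2.2.2.2.2 c).2 (by tauto)
  have h2 : G.Adj s d := (E.2.2.2.2.2 d).2 (by tauto)
  have h3 := h.keep (by tauto) h1 E.2.1 E.2.2.1
  have h4 := h.keep (by tauto) h2 E.2.2.2.1 E.2.2.2.2.1
  exact (Adj.reachable (G := del (Hm G x y s t) S) ⟨h3.symm, hc, hs⟩).trans
    (Adj.reachable ⟨h4, hs, hd⟩)

theorem lift {x y s t : α} {S : Finset α}
    (h1 : ∀ c d, Ex G x y s c d → c ∉ S → d ∉ S → (del (Hm G x y s t) S).Reachable c d)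
    (h2 : ∀ c d, Ex G x y t c d → c ∉ S → d ∉ S → (del (Hm G x y s t) S).Reachable c d)
    {a b : α} (hr : (del (del G {x, y}) S).Reachable a b) :
    (del (Hm G x y s t) S).Reachable a b := by
  refine reach_lift (fun u v huv => ?_) hr
  by_cases e1 : Ex G x y s u v
  · exact h1 u v e1 huv.2.1 huv.2.2
  by_cases e2 : Ex G x y t u v
  · exact h2 u v e2 huv.2.1 huv.2.2
  exact Adj.reachable ⟨Hm_adj.2 ⟨huv.1, e1, e2⟩, huv.2.1, huv.2.2⟩

omit [Fintype α] in
theorem notMem4 {a b c d v : α} (h : v ∉ ({a, b, c, d} : Finset α)) :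
    v ≠ a ∧ v ≠ b ∧ v ≠ c ∧ v ≠ d := by
  simp only [mem_insert, mem_singleton, not_or] at h
  exact h

/-- (a), one side -/
theorem Cfg.side (hB : SpecNBF) {x y s₁ s₂ s t c d q : α} (h : Cfg G x y s₁ s₂ s t)
    (E : Ex G x y s c d) (hcq : c ≠ q) (hdq : d ≠ q)
    (hr : ¬ (del (delE G c d) {x, y, s, q}).Reachable c d) :
    (del (delE G c d) {x, y, s, q}).Reachable c t := by
  classical
  have hnd := h.nd
  have hoc := h.out E
  have hod := h.out E.symm
  obtain ⟨nx, ny⟩ := h.nadj hoc E.2.1 E.2.2.1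
  set R := del (delE G c d) {x, y, s, q} with hR
  let P : Finset α := univ.filter fun v => v ≠ c ∧ R.Reachable c v
  have mP : ∀ {v}, v ∈ P ↔ v ≠ c ∧ R.Reachable c v := by
    intro v
    simp only [P, mem_filter, mem_univ, true_and]
  have hPe : ∀ {v}, v ∈ P → ∃ w, R.Adj v w := by
    intro v hv
    exact exists_adj_of_reachable (mP.1 hv).2.symm (mP.1 hv).1
  have hPS : ∀ {v}, v ∈ P → v ≠ x ∧ v ≠ y ∧ v ≠ s ∧ v ≠ q := by
    intro v hv
    obtain ⟨w, hw⟩ := hPe hv
    exact notMem4 hw.2.1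
  have hPV : P ⊆ VS G := by
    intro v hv
    obtain ⟨w, hw⟩ := hPe hv
    exact left_mem_VS (delE_adj.1 hw.1).1
  have hPd : d ∉ P := fun hd => hr (mP.1 hd).2
  -- neighbours of `P`
  have hNs : s ∉ NB G P := by
    intro hs
    obtain ⟨_, a, ha, haS⟩ := mem_NB.1 hs
    have ha' := hPS ha
    rcases (E.2.2.2.2.2 a).1 haS.symm with h1 | h1 | h1 | h1
    · exact ha'.1 h1
    · exact ha'.2.1 h1
    · exact (mP.1 ha).1 h1
    · exact hPd (h1 ▸ ha)
  have hN : NB G P ⊆ {c, q, x, y} := by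
    intro w hw
    by_contra hc
    have hc' := notMem4 hc
    obtain ⟨hwP, a, ha, haw⟩ := mem_NB.1 hw
    have ha' := hPS ha
    have hws : w ≠ s := fun e => hNs (e ▸ hw)
    apply hwP
    refine mP.2 ⟨hc'.1, (mP.1 ha).2.trans (Adj.reachable ⟨delE_adj.2 ⟨haw, ?_⟩, ?_, ?_⟩)⟩
    · intro e
      rw [Sym2.eq_iff] at e
      rcases e with ⟨e, _⟩ | ⟨e, _⟩
      · exact (mP.1 ha).1 e
      · exact hPd (e ▸ ha)
    · simp only [mem_insert, mem_singleton, not_or]
      exact ha'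
    · simp only [mem_insert, mem_singleton, not_or]
      exact ⟨hc'.2.2.1, hc'.2.2.2, hws, hc'.2.1⟩
  have hcard : (NB G P).card ≤ 4 := (card_le_card hN).trans card_le_four
  have hdN : d ∉ NB G P := by
    intro hd
    have := hN hd
    simp only [mem_insert, mem_singleton] at this
    rcases this with h1 | h1 | h1 | h1
    · exact E.1.ne h1.symm
    · exact hdq h1
    · exact E.2.2.2.1 h1
    · exact E.2.2.2.2.1 h1
  -- nonempty
  have hne : P.Nonempty := by
    rw [nonempty_iff_ne_empty]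
    intro he
    have h1 := h.g.1.le_nbs (left_mem_VS E.1)
    have h2 : nbs G c ⊆ {d, s, q} := by
      intro w hw
      rw [mem_nbs] at hw
      by_contra hcon
      simp only [mem_insert, mem_singleton, not_or] at hcon
      have hwx : w ≠ x := fun e => nx (e ▸ hw)
      have hwy : w ≠ y := fun e => ny (e ▸ hw)
      have : w ∈ P := by
        refine mP.2 ⟨hw.ne.symm, Adj.reachable ⟨delE_adj.2 ⟨hw, ?_⟩, ?_, ?_⟩⟩
        · intro e
          rw [Sym2.eq_iff] at e
          rcases e with ⟨_, e⟩ | ⟨e, _⟩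
          · exact hcon.1 e
          · exact E.1.ne e
        · simp only [mem_insert, mem_singleton, not_or]
          exact ⟨E.2.1, E.2.2.1, hoc.2.2.1, hcq⟩
        · simp only [mem_insert, mem_singleton, not_or]
          exact ⟨hwx, hwy, hcon.2.1, hcon.2.2⟩
      rw [he] at this
      simp at this
    have h3 := (card_le_card h2).trans card_le_three
    omega
  have h4 : (NB G P).card = 4 := by
    by_contra hlt
    have h5 := hB.nb h.g.1 hPV hne (by omega)
    have h6 := h5 (right_mem_VS E.1)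
    rw [mem_union] at h6
    rcases h6 with h6 | h6
    · exact hPd h6
    · exact hdN h6
  have hNeq : NB G P = {c, q, x, y} :=
    eq_of_subset_of_card_le hN (by rw [h4]; exact card_le_four)
  have hxN : x ∈ NB G P := by rw [hNeq]; simp
  have hyN : y ∈ NB G P := by rw [hNeq]; simp
  have hP1 : P.card ≤ 1 := by
    by_contra h2
    have h5 := hB.rig h.r hPV hxN h4 (by omega)
    have hsV : s ∈ VS G := left_mem_VS ((E.2.2.2.2.2 x).2 (Or.inl rfl))
    have h6 : ({d, s} : Finset α) ⊆ VS G \ (P ∪ NB G P) := by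
      intro w hw
      rw [mem_insert, mem_singleton] at hw
      rw [mem_sdiff, mem_union, not_or]
      rcases hw with rfl | rfl
      · exact ⟨right_mem_VS E.1, hPd, hdN⟩
      · exact ⟨hsV, fun hs => (hPS hs).2.2.1 rfl, hNs⟩
    have h7 := card_le_card h6
    rw [card_pair hod.2.2.1] at h7
    omega
  obtain ⟨_, b, hb, hbx⟩ := mem_NB.1 hxN
  obtain ⟨_, b', hb', hby⟩ := mem_NB.1 hyN
  have hbb : b' = b := Finset.card_le_one.1 hP1 b' hb' b hb
  subst hbb
  have hb1 := hPS hb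
  have hbt : b' = t := by
    rcases (h.p.nx b').1 hbx.symm with h1 | h1 | h1 | h1
    · exact absurd h1 hb1.2.1
    · rcases (h.p.ny b').1 hby.symm with h2 | h2 | h2 | h2
      · exact absurd h2 hb1.1
      · exact absurd (h2.symm.trans h1) hnd.2.2.1.1
      · exact absurd h2 hb1.2.2.1
      · exact h2
    · exact absurd h1 hb1.2.2.1
    · exact h1
  rw [← hbt]
  exact (mP.1 hb).2

/-- (a): the exceptional edge is no bridge -/
theorem Cfg.aa (hB : SpecNBF) {x y s₁ s₂ s t c d q : α} (h : Cfg G x y s₁ s₂ s t)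
    (E : Ex G x y s c d) (hcq : c ≠ q) (hdq : d ≠ q) :
    (del (delE G c d) {x, y, s, q}).Reachable c d := by
  by_contra hr
  have h1 := h.side hB E hcq hdq hr
  have hsw : delE G d c = delE G c d := by
    unfold delE
    rw [Sym2.eq_swap]
  have h2 := h.side hB E.symm hdq hcq (by rw [hsw]; exact fun h' => hr h'.symm)
  rw [hsw] at h2
  exact hr (h1.trans h2.symm)

/-- (a) for `Hm` -/
theorem Cfg.aH (hB : SpecNBF) {x y s₁ s₂ s t c d q : α} (h : Cfg G x y s₁ s₂ s t)
    (E : Ex G x y s c d) (hcq : c ≠ q) (hdq : d ≠ q) (hqt : q ≠ t) :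
    (del (Hm G x y s t) {s, q}).Reachable c d := by
  have hnd := h.nd
  refine reach_lift (fun u v huv => ?_) (h.aa hB E hcq hdq)
  have hu := notMem4 huv.2.1
  have hv := notMem4 huv.2.2
  have huS : u ∉ ({s, q} : Finset α) := by
    simp only [mem_insert, mem_singleton, not_or]
    exact hu.2.2
  have hvS : v ∉ ({s, q} : Finset α) := by
    simp only [mem_insert, mem_singleton, not_or]
    exact hv.2.2
  have h1 := delE_adj.1 huv.1
  by_cases e2 : Ex G x y t u v
  · have := h.swap.byp (S := {s, q}) e2 huS hvS (by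
      simp only [mem_insert, mem_singleton, not_or]
      exact ⟨hnd.2.2.2.2.symm, hqt.symm⟩)
    rwa [Hm_comm] at this
  have e1 : ¬ Ex G x y s u v := by
    intro e
    apply h1.2
    rcases E.uniq e with ⟨rfl, rfl⟩ | ⟨rfl, rfl⟩
    · rfl
    · exact Sym2.eq_swap
  refine Adj.reachable ⟨Hm_adj.2 ⟨⟨h1.1, ?_, ?_⟩, e1, e2⟩, huS, hvS⟩
  · simp only [mem_insert, mem_singleton, not_or]
    exact ⟨hu.1, hu.2.1⟩
  · simp only [mem_insert, mem_singleton, not_or]
    exact ⟨hv.1, hv.2.1⟩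

/-! ## (b) -/

/-- a component of `Hm - s - t` with the ends `c`, `c'` of the exceptional edges and other vertices -/
theorem Cfg.side2 (hB : SpecNBF) {x y s₁ s₂ s t c d c' d' : α} (h : Cfg G x y s₁ s₂ s t)
    (E : Ex G x y s c d) (E' : Ex G x y t c' d')
    (hd : ¬ (del (Hm G x y s t) {s, t}).Reachable c d)
    (hd' : ¬ (del (Hm G x y s t) {s, t}).Reachable c d')
    (hcc : (del (Hm G x y s t) {s, t}).Reachable c c')
    (hne : ∃ v, v ≠ c ∧ v ≠ c' ∧ (del (Hm G x y s t) {s, t}).Reachable c v) :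
    (del (Hm G x y s t) {s, t}).Reachable c s₂ := by
  classical
  have hnd := h.nd
  have hoc := h.out E
  have hoc' := h.out' E'
  set R := del (Hm G x y s t) {s, t} with hR
  let P : Finset α := univ.filter fun v => v ≠ c ∧ v ≠ c' ∧ R.Reachable c v
  have mP : ∀ {v}, v ∈ P ↔ v ≠ c ∧ v ≠ c' ∧ R.Reachable c v := by
    intro v
    simp only [P, mem_filter, mem_univ, true_and]
  have hPe : ∀ {v}, v ∈ P → ∃ w, R.Adj v w := by
    intro v hv
    exact exists_adj_of_reachable (mP.1 hv).2.2.symm (mP.1 hv).1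
  have hPS : ∀ {v}, v ∈ P → v ≠ x ∧ v ≠ y ∧ v ≠ s ∧ v ≠ t := by
    intro v hv
    obtain ⟨w, hw⟩ := hPe hv
    have h1 := (Hm_adj.1 hw.1).1.2.1
    have h2 := hw.2.1
    simp only [mem_insert, mem_singleton, not_or] at h1 h2
    exact ⟨h1.1, h1.2, h2.1, h2.2⟩
  have hPV : P ⊆ VS G := by
    intro v hv
    obtain ⟨w, hw⟩ := hPe hv
    exact left_mem_VS (Hm_adj.1 hw.1).1.1
  have hPd : d ∉ P := fun h' => hd (mP.1 h').2.2
  have hPd' : d' ∉ P := fun h' => hd' (mP.1 h').2.2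
  have hN : NB G P ⊆ {c, c', x, y} := by
    intro w hw
    by_contra hc
    have hc' := notMem4 hc
    obtain ⟨hwP, a, ha, haw⟩ := mem_NB.1 hw
    have ha' := hPS ha
    have ha2 := mP.1 ha
    have hws : w ≠ s := by
      rintro rfl
      rcases (E.2.2.2.2.2 a).1 haw.symm with h1 | h1 | h1 | h1
      · exact ha'.1 h1
      · exact ha'.2.1 h1
      · exact ha2.1 h1
      · exact hPd (h1 ▸ ha)
    have hwt : w ≠ t := by
      rintro rfl
      rcases (E'.2.2.2.2.2 a).1 haw.symm with h1 | h1 | h1 | h1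
      · exact ha'.1 h1
      · exact ha'.2.1 h1
      · exact ha2.2.1 h1
      · exact hPd' (h1 ▸ ha)
    apply hwP
    refine mP.2 ⟨hc'.1, hc'.2.1, ha2.2.2.trans (Adj.reachable
      ⟨Hm_adj.2 ⟨⟨haw, ?_, ?_⟩, ?_, ?_⟩, ?_, ?_⟩)⟩
    · simp only [mem_insert, mem_singleton, not_or]
      exact ⟨ha'.1, ha'.2.1⟩
    · simp only [mem_insert, mem_singleton, not_or]
      exact ⟨hc'.2.2.1, hc'.2.2.2⟩
    · intro e
      rcases E.uniq e with ⟨e, _⟩ | ⟨e, _⟩
      · exact ha2.1 e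
      · exact hPd (e ▸ ha)
    · intro e
      rcases E'.uniq e with ⟨e, _⟩ | ⟨e, _⟩
      · exact ha2.2.1 e
      · exact hPd' (e ▸ ha)
    · simp only [mem_insert, mem_singleton, not_or]
      exact ha'.2.2
    · simp only [mem_insert, mem_singleton, not_or]
      exact ⟨hws, hwt⟩
  have hdN : d ∉ NB G P := by
    intro h'
    have := hN h'
    simp only [mem_insert, mem_singleton] at this
    rcases this with h1 | h1 | h1 | h1
    · exact E.1.ne h1.symm
    · exact hd (h1 ▸ hcc)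
    · exact E.2.2.2.1 h1
    · exact E.2.2.2.2.1 h1
  have hPne : P.Nonempty := by
    obtain ⟨v, hv⟩ := hne
    exact ⟨v, mP.2 hv⟩
  have h4 : (NB G P).card = 4 := by
    have hcard : (NB G P).card ≤ 4 := (card_le_card hN).trans card_le_four
    by_contra hlt
    have h5 := hB.nb h.g.1 hPV hPne (by omega)
    have h6 := h5 (right_mem_VS E.1)
    rw [mem_union] at h6
    rcases h6 with h6 | h6
    · exact hPd h6
    · exact hdN h6
  have hNeq : NB G P = {c, c', x, y} :=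
    eq_of_subset_of_card_le hN (by rw [h4]; exact card_le_four)
  have hxN : x ∈ NB G P := by rw [hNeq]; simp
  obtain ⟨_, b, hb, hbx⟩ := mem_NB.1 hxN
  have hb1 := hPS hb
  have hb2 : b = s₂ := by
    rcases (h.p.nx b).1 hbx.symm with h1 | h1 | h1 | h1
    · exact absurd h1 hb1.2.1
    · exact h1
    · exact absurd h1 hb1.2.2.1
    · exact absurd h1 hb1.2.2.2
  rw [← hb2]
  exact (mP.1 hb).2.2

/-- there are other vertices in the component of `c` -/
theorem Cfg.emp (hB : SpecNBF) {x y s₁ s₂ s t c d c' d' : α} (h : Cfg G x y s₁ s₂ s t)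
    (E : Ex G x y s c d) (E' : Ex G x y t c' d')
    (hd : ¬ (del (Hm G x y s t) {s, t}).Reachable c d)
    (hd' : ¬ (del (Hm G x y s t) {s, t}).Reachable c d') :
    ∃ v, v ≠ c ∧ v ≠ c' ∧ (del (Hm G x y s t) {s, t}).Reachable c v := by
  classical
  by_contra hcon
  push Not at hcon
  have hnd := h.nd
  have hoc := h.out E
  have hoc' := h.out' E'
  have hod := h.out E.symm
  have hod' := h.out' E'.symm
  obtain ⟨nx, ny⟩ := h.nadj hoc E.2.1 E.2.2.1
  have hcd' : c ≠ d' := by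
    rintro rfl
    exact hd' (Reachable.refl _)
  -- the neighbours of `c`
  have key : ∀ w, G.Adj c w → w = s ∨ w = t ∨ w = d ∨ w = d' ∨ w = c' := by
    intro w hw
    by_contra hc
    simp only [not_or] at hc
    have hwx : w ≠ x := fun e => nx (e ▸ hw)
    have hwy : w ≠ y := fun e => ny (e ▸ hw)
    refine hcon w hw.ne.symm hc.2.2.2.2 (Adj.reachable ⟨Hm_adj.2 ⟨⟨hw, ?_, ?_⟩, ?_, ?_⟩, ?_, ?_⟩)
    · simp only [mem_insert, mem_singleton, not_or]
      exact ⟨E.2.1, E.2.2.1⟩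
    · simp only [mem_insert, mem_singleton, not_or]
      exact ⟨hwx, hwy⟩
    · intro e
      rcases E.uniq e with ⟨_, e⟩ | ⟨e, _⟩
      · exact hc.2.2.1 e
      · exact E.1.ne e
    · intro e
      rcases E'.uniq e with ⟨_, e⟩ | ⟨e, _⟩
      · exact hc.2.2.2.1 e
      · exact hcd' e
    · simp only [mem_insert, mem_singleton, not_or]
      exact hoc.2.2
    · simp only [mem_insert, mem_singleton, not_or]
      exact ⟨hc.1, hc.2.1⟩
  by_cases hcc : c = c'
  · subst hcc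
    have hA : ∀ {v}, v ∈ ({c, s, t} : Finset α) ↔ v = c ∨ v = s ∨ v = t := by
      intro v
      simp only [mem_insert, mem_singleton]
    have hN : NB G {c, s, t} ⊆ {x, y, d, d'} := by
      intro w hw
      obtain ⟨hwA, a, ha, haw⟩ := mem_NB.1 hw
      rw [hA, not_or, not_or] at hwA
      simp only [mem_insert, mem_singleton]
      rcases hA.1 ha with rfl | rfl | rfl
      · rcases key w haw with h1 | h1 | h1 | h1 | h1
        · exact absurd h1 hwA.2.1
        · exact absurd h1 hwA.2.2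
        · exact Or.inr (Or.inr (Or.inl h1))
        · exact Or.inr (Or.inr (Or.inr h1))
        · exact absurd h1 hwA.1
      · rcases (E.2.2.2.2.2 w).1 haw with h1 | h1 | h1 | h1
        · exact Or.inl h1
        · exact Or.inr (Or.inl h1)
        · exact absurd h1 hwA.1
        · exact Or.inr (Or.inr (Or.inl h1))
      · rcases (E'.2.2.2.2.2 w).1 haw with h1 | h1 | h1 | h1
        · exact Or.inl h1
        · exact Or.inr (Or.inl h1)
        · exact absurd h1 hwA.1
        · exact Or.inr (Or.inr (Or.inr h1))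
    have hsx : G.Adj s x := (E.2.2.2.2.2 x).2 (Or.inl rfl)
    have htx : G.Adj t x := (E'.2.2.2.2.2 x).2 (Or.inl rfl)
    have hAV : ({c, s, t} : Finset α) ⊆ VS G := by
      intro v hv
      rcases hA.1 hv with rfl | rfl | rfl
      · exact left_mem_VS E.1
      · exact left_mem_VS hsx
      · exact left_mem_VS htx
    have hA3 : ({c, s, t} : Finset α).card = 3 :=
      card_eq_three.2 ⟨c, s, t, hoc.2.2.1, hoc.2.2.2, hnd.2.2.2.2, rfl⟩
    have hxN : x ∈ NB G {c, s, t} := by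
      rw [mem_NB]
      refine ⟨?_, s, by simp, hsx⟩
      rw [hA]
      rintro (h1 | h1 | h1)
      · exact E.2.1 h1.symm
      · exact hnd.1.2.2.2.1 h1
      · exact hnd.1.2.2.2.2 h1
    have hcard : (NB G {c, s, t}).card ≤ 4 := (card_le_card hN).trans card_le_four
    have h8 := h.g.2
    have h12 : ({s₁, s₂} : Finset α) ⊆ VS G \ ({c, s, t} ∪ NB G {c, s, t}) := by
      intro v hv
      have hv' : v = s₁ ∨ v = s₂ := by simpa only [mem_insert, mem_singleton] using hv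
      rw [mem_sdiff, mem_union, not_or, hA]
      refine ⟨?_, ?_, ?_⟩
      · rcases hv' with rfl | rfl
        · exact right_mem_VS ((h.p.ny v).2 (by tauto))
        · exact right_mem_VS ((h.p.nx v).2 (by tauto))
      · rcases hv' with rfl | rfl
        · rintro (h1 | h1 | h1)
          · exact hoc.1 h1.symm
          · exact hnd.2.2.1.2.1 h1
          · exact hnd.2.2.1.2.2 h1
        · rintro (h1 | h1 | h1)
          · exact hoc.2.1 h1.symm
          · exact hnd.2.2.2.1.1 h1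
          · exact hnd.2.2.2.1.2 h1
      · intro hvN
        have := hN hvN
        simp only [mem_insert, mem_singleton] at this
        rcases hv' with rfl | rfl
        · rcases this with h1 | h1 | h1 | h1
          · exact hnd.1.2.1 h1.symm
          · exact hnd.2.1.1 h1.symm
          · exact hod.1 h1.symm
          · exact hod'.1 h1.symm
        · rcases this with h1 | h1 | h1 | h1
          · exact hnd.1.2.2.1 h1.symm
          · exact hnd.2.1.2.1 h1.symm
          · exact hod.2.1 h1.symm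
          · exact hod'.2.1 h1.symm
    have h9 := card_le_card h12
    rw [card_pair hnd.2.2.1.1] at h9
    have h4 : (NB G {c, s, t}).card = 4 := by
      by_contra hlt
      have h5 := hB.nb h.g.1 hAV ⟨c, by simp⟩ (by omega)
      have h6 := card_le_card h5
      have h7 := card_union_le {c, s, t} (NB G {c, s, t})
      omega
    have h5 := hB.rig h.r hAV hxN h4 (by omega)
    omega
  · have h1 := h.g.1.le_nbs (left_mem_VS E.1)
    have h2 : nbs G c ⊆ {d, s, c'} := by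
      intro w hw
      rw [mem_nbs] at hw
      simp only [mem_insert, mem_singleton]
      have hct : ¬ G.Adj c t := by
        intro hct
        rcases (E'.2.2.2.2.2 c).1 hct.symm with h3 | h3 | h3 | h3
        · exact E.2.1 h3
        · exact E.2.2.1 h3
        · exact hcc h3
        · exact hcd' h3
      rcases key w hw with h3 | h3 | h3 | h3 | h3
      · exact Or.inr (Or.inl h3)
      · exact absurd (h3 ▸ hw) hct
      · exact Or.inl h3
      · subst h3
        by_contra hcon2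
        simp only [not_or] at hcon2
        refine hd' (Adj.reachable ⟨Hm_adj.2 ⟨⟨hw, ?_, ?_⟩, ?_, ?_⟩, ?_, ?_⟩)
        · simp only [mem_insert, mem_singleton, not_or]
          exact ⟨E.2.1, E.2.2.1⟩
        · simp only [mem_insert, mem_singleton, not_or]
          exact ⟨E'.2.2.2.1, E'.2.2.2.2.1⟩
        · intro e
          rcases E.uniq e with ⟨_, e⟩ | ⟨e, _⟩
          · exact hcon2.1 e
          · exact E.1.ne e
        · intro e
          rcases E'.uniq e with ⟨e, _⟩ | ⟨e, _⟩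
          · exact hcc e
          · exact hcd' e
        · simp only [mem_insert, mem_singleton, not_or]
          exact hoc.2.2
        · simp only [mem_insert, mem_singleton, not_or]
          exact ⟨hod'.2.2.1, hod'.2.2.2⟩
      · exact Or.inr (Or.inr h3)
    have h3 := (card_le_card h2).trans card_le_three
    omega

/-- the next exceptional edge -/
theorem Cfg.next (hB : SpecNBF) {x y s₁ s₂ s t c d : α} (h : Cfg G x y s₁ s₂ s t)
    (E : Ex G x y s c d) (hd : ¬ (del (Hm G x y s t) {s, t}).Reachable c d) :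
    ∃ c' d', Ex G x y t c' d' ∧ (del (Hm G x y s t) {s, t}).Reachable c c' ∧
      ¬ (del (Hm G x y s t) {s, t}).Reachable c d' := by
  by_contra hcon
  push Not at hcon
  apply hd
  have hoc := h.out E
  have hod := h.out E.symm
  have h1 := h.aa hB E (q := t) hoc.2.2.2 hod.2.2.2
  refine DL.mem_of_reachable (X := {v | (del (Hm G x y s t) {s, t}).Reachable c v}) h1
    (Reachable.refl _) fun u v huv hu => ?_
  have hu' := notMem4 huv.2.1
  have hv' := notMem4 huv.2.2
  have h2 := delE_adj.1 huv.1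
  by_cases e2 : Ex G x y t u v
  · exact hcon u v e2 hu
  have e1 : ¬ Ex G x y s u v := by
    intro e
    apply h2.2
    rcases E.uniq e with ⟨rfl, rfl⟩ | ⟨rfl, rfl⟩
    · rfl
    · exact Sym2.eq_swap
  refine Reachable.trans hu (Adj.reachable ⟨Hm_adj.2 ⟨⟨h2.1, ?_, ?_⟩, e1, e2⟩, ?_, ?_⟩)
  · simp only [mem_insert, mem_singleton, not_or]
    exact ⟨hu'.1, hu'.2.1⟩
  · simp only [mem_insert, mem_singleton, not_or]
    exact ⟨hv'.1, hv'.2.1⟩
  · simp only [mem_insert, mem_singleton, not_or]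
    exact hu'.2.2
  · simp only [mem_insert, mem_singleton, not_or]
    exact hv'.2.2

/-- (b) for one exceptional edge -/
theorem Cfg.bb1 (hB : SpecNBF) {x y s₁ s₂ s t c d : α} (h : Cfg G x y s₁ s₂ s t)
    (E : Ex G x y s c d) : (del (Hm G x y s t) {s, t}).Reachable c d := by
  by_contra hd
  have hd2 : ¬ (del (Hm G x y s t) {s, t}).Reachable d c := fun h' => hd h'.symm
  obtain ⟨c', d', E', h1, h2⟩ := h.next hB E hd
  obtain ⟨c'', d'', E'', h3, h4⟩ := h.next hB E.symm hd2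
  rcases E'.uniq E'' with ⟨rfl, rfl⟩ | ⟨rfl, rfl⟩
  · exact hd (h1.trans h3.symm)
  · have h5 := h.side2 hB E E' hd h2 h1 (h.emp hB E E' hd h2)
    have h6 := h.side2 hB E.symm E'.symm hd2 h4 h3 (h.emp hB E.symm E'.symm hd2 h4)
    exact hd (h5.trans h6.symm)

/-- (b) -/
theorem Cfg.bb (hB : SpecNBF) {x y s₁ s₂ s t : α} (h : Cfg G x y s₁ s₂ s t) :
    ConnOff (Hm G x y s t) {s, t} := by
  have hnd := h.nd
  intro a ha b hb haS hbS
  have hle : Hm G x y s t ≤ del G {x, y} := fun u v huv => (Hm_adj.1 huv).1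
  have ha' := mem_sdiff.1 (VS_del_subset _ (VS_mono hle ha))
  have hb' := mem_sdiff.1 (VS_del_subset _ (VS_mono hle hb))
  refine lift (fun c d E _ _ => h.bb1 hB E) (fun c d E _ _ => ?_) (a := a) (b := b) ?_
  · have := h.swap.bb1 hB E
    rwa [Hm_comm, pair_comm] at this
  · rw [del_del]
    have hxy : G.Adj x y := (h.p.nx y).2 (Or.inl rfl)
    have hxs : G.Adj x s := (h.p.nx s).2 (by tauto)
    have hxt : G.Adj x t := (h.p.nx t).2 (by tauto)
    have hT : ({x, y} ∪ {s, t} : Finset α) = {x, y, s, t} := by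
      ext v
      simp only [mem_union, mem_insert, mem_singleton]
      tauto
    rw [hT]
    have h4 : ({x, y, s, t} : Finset α).card = 4 := by
      have : [x, y, s, t].Nodup := by
        simp [hnd.1.1, hnd.1.2.2.2.1, hnd.1.2.2.2.2, hnd.2.1.2.2.1, hnd.2.1.2.2.2, hnd.2.2.2.2]
      have := List.toFinset_card_of_nodup this
      simpa using this
    refine hB.off (x := x) (t := s₂) h.g.1 ?_ h4 (by simp) ?_ a ha'.1 b hb'.1 ?_ ?_
    · intro v hv
      simp only [mem_insert, mem_singleton] at hv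
      rcases hv with rfl | rfl | rfl | rfl
      · exact left_mem_VS hxy
      · exact right_mem_VS hxy
      · exact right_mem_VS hxs
      · exact right_mem_VS hxt
    · intro w hw
      simp only [mem_insert, mem_singleton]
      rcases (h.p.nx w).1 hw with h1 | h1 | h1 | h1
      · exact Or.inl (Or.inr (Or.inl h1))
      · exact Or.inr h1
      · exact Or.inl (Or.inr (Or.inr (Or.inl h1)))
      · exact Or.inl (Or.inr (Or.inr (Or.inr h1)))
    · rw [← hT, mem_union, not_or]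
      exact ⟨ha'.2, haS⟩
    · rw [← hT, mem_union, not_or]
      exact ⟨hb'.2, hbS⟩

/-! ## the assembly -/

theorem Hm_le {x y s t : α} : Hm G x y s t ≤ del G {x, y} := fun _ _ huv => (Hm_adj.1 huv).1

theorem Cfg.VS_eq {x y s₁ s₂ s t : α} (h : Cfg G x y s₁ s₂ s t) :
    VS (Hm G x y s t) = VS (del G {x, y}) := by
  apply Subset.antisymm (VS_mono Hm_le)
  intro v hv
  obtain ⟨w, hw⟩ := mem_VS.1 hv
  have hvx := hw.2.1
  simp only [mem_insert, mem_singleton, not_or] at hvx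
  rw [mem_VS]
  by_cases e1 : Ex G x y s v w
  · exact ⟨s, (h.keep (by tauto) ((e1.2.2.2.2.2 v).2 (by tauto)) hvx.1 hvx.2).symm⟩
  by_cases e2 : Ex G x y t v w
  · exact ⟨t, (h.keep (by tauto) ((e2.2.2.2.2.2 v).2 (by tauto)) hvx.1 hvx.2).symm⟩
  exact ⟨w, Hm_adj.2 ⟨hw, e1, e2⟩⟩

theorem Cfg.kH {x y s₁ s₂ s t : α} (h : Cfg G x y s₁ s₂ s t) : KConn 2 (del G {x, y}) :=
  KConn.del_pair (by omega) h.g.1 x y

/-- connectedness passes to `Hm` unless `s, t` are deleted -/
theorem Cfg.pass (hB : SpecNBF) {x y s₁ s₂ s t : α} (h : Cfg G x y s₁ s₂ s t) {p q : α}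
    (hst : ¬ ({p, q} : Finset α) = {s, t}) (hc : ConnOff (del G {x, y}) {p, q}) :
    ConnOff (Hm G x y s t) {p, q} := by
  have key : ∀ {s t : α}, Cfg G x y s₁ s₂ s t → ¬ ({p, q} : Finset α) = {s, t} → ∀ c d,
      Ex G x y s c d → c ∉ ({p, q} : Finset α) → d ∉ ({p, q} : Finset α) →
      (del (Hm G x y s t) {p, q}).Reachable c d := by
    intro s t h hst c d E hc hd
    by_cases hs : s ∈ ({p, q} : Finset α)
    · rw [mem_insert, mem_singleton] at hs
      rcases hs with rfl | rfl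
      · rw [mem_insert, mem_singleton, not_or] at hc hd
        exact h.aH hB E hc.2 hd.2 fun e => hst (by rw [e])
      · rw [mem_insert, mem_singleton, not_or] at hc hd
        rw [pair_comm]
        exact h.aH hB E hc.1 hd.1 fun e => hst (by rw [e, pair_comm])
    · exact h.byp E hc hd hs
  intro a ha b hb haS hbS
  rw [h.VS_eq] at ha hb
  refine lift (key h hst) (fun c d E h1 h2 => ?_) (hc a ha b hb haS hbS)
  have := key h.swap (fun e => hst (by rw [e, pair_comm])) c d E h1 h2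
  rwa [Hm_comm] at this

omit [Fintype α] in
theorem pair_self' (p : α) : ({p, p} : Finset α) = {p} := by
  ext v
  simp

theorem Cfg.k2 (hB : SpecNBF) {x y s₁ s₂ s t : α} (h : Cfg G x y s₁ s₂ s t) :
    KConn 2 (Hm G x y s t) := by
  have hnd := h.nd
  constructor
  · rw [h.VS_eq]
    exact h.kH.1
  · intro S hS
    rcases Nat.lt_or_ge S.card 1 with h0 | h1
    · have h2 : S = ∅ := by
        rw [← card_eq_zero]
        omega
      subst h2
      intro a ha b hb haS hbS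
      rw [h.VS_eq] at ha hb
      refine lift (fun c d E h1 h2 => h.byp E h1 h2 (by simp)) (fun c d E h1 h2 => ?_)
        (h.kH.2 ∅ hS a ha b hb haS hbS)
      have := h.swap.byp E h1 h2 (by simp)
      rwa [Hm_comm] at this
    · obtain ⟨p, rfl⟩ := card_eq_one.1 (by omega : S.card = 1)
      rw [← pair_self' p]
      apply h.pass hB
      · intro e
        have h2 : s ∈ ({p, p} : Finset α) := by rw [e]; simp
        have h3 : t ∈ ({p, p} : Finset α) := by rw [e]; simp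
        rw [pair_self', mem_singleton] at h2 h3
        exact hnd.2.2.2.2 (h2.trans h3.symm)
      · rw [pair_self']
        exact h.kH.2 _ hS

theorem Cfg.br {x y s₁ s₂ s t : α} (h : Cfg G x y s₁ s₂ s t) :
    ∃ c u v w, u ≠ v ∧ u ≠ w ∧ v ≠ w ∧ (Hm G x y s t).Adj c u ∧ (Hm G x y s t).Adj c v ∧
      (Hm G x y s t).Adj c w := by
  have hnd := h.nd
  have hys : G.Adj y s₁ := (h.p.ny s₁).2 (by tauto)
  have hsx : ¬ G.Adj s₁ x := by
    intro h'
    rcases (h.p.nx s₁).1 h'.symm with h1 | h1 | h1 | h1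
    · exact hnd.2.1.1 h1.symm
    · exact hnd.2.2.1.1 h1
    · exact hnd.2.2.1.2.1 h1
    · exact hnd.2.2.1.2.2 h1
  have h1 := h.g.1.le_nbs (right_mem_VS hys)
  have h2 : 2 < ((nbs G s₁).erase y).card := by
    rw [card_erase_of_mem (mem_nbs.2 hys.symm)]
    omega
  obtain ⟨u, v, w, hu, hv, hw, huv, huw, hvw⟩ := two_lt_card_iff.1 h2
  have key : ∀ {v}, v ∈ (nbs G s₁).erase y → (Hm G x y s t).Adj s₁ v := by
    intro v hv
    rw [mem_erase, mem_nbs] at hv
    exact h.keep (Or.inl rfl) hv.2 (fun e => hsx (e ▸ hv.2)) hv.1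
  exact ⟨s₁, u, v, w, huv, huw, hvw, key hu, key hv, key hw⟩

theorem Cfg.iso {x y s₁ s₂ s t p q : α} (h : Cfg G x y s₁ s₂ s t)
    (hn : ∀ w, G.Adj s w ↔ w = x ∨ w = y ∨ w = p ∨ w = q) (hpx : p ≠ x) (hpy : p ≠ y)
    (hqx : q ≠ x) (hqy : q ≠ y) (hc : ConnOff G {x, y, p, q, s}) :
    ∃ v, (∀ w, (Hm G x y s t).Adj v w ↔ w = p ∨ w = q) ∧ ¬ (Hm G x y s t).Adj p q ∧
      ConnOff (Hm G x y s t) {p, q, v} := by
  have hnd := h.nd
  have hsp : G.Adj s p := (hn p).2 (by tauto)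
  have hsq : G.Adj s q := (hn q).2 (by tauto)
  refine ⟨s, ?_, ?_, ?_⟩
  · intro w
    constructor
    · intro hw
      have h1 := (Hm_adj.1 hw).1
      have h2 := h1.2.2
      simp only [mem_insert, mem_singleton, not_or] at h2
      rcases (hn w).1 h1.1 with h3 | h3 | h3 | h3
      · exact absurd h3 h2.1
      · exact absurd h3 h2.2
      · exact Or.inl h3
      · exact Or.inr h3
    · rintro (rfl | rfl)
      · exact h.keep (by tauto) hsp hpx hpy
      · exact h.keep (by tauto) hsq hqx hqy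
  · intro hpq
    have h1 := Hm_adj.1 hpq
    exact h1.2.1 ⟨h1.1.1, hpx, hpy, hqx, hqy, hn⟩
  · intro a ha b hb haS hbS
    rw [h.VS_eq] at ha hb
    have ha' := mem_sdiff.1 (VS_del_subset _ ha)
    have hb' := mem_sdiff.1 (VS_del_subset _ hb)
    have htp : t ≠ p := by
      rintro rfl
      exact h.n hsp
    have htq : t ≠ q := by
      rintro rfl
      exact h.n hsq
    have hT : ({x, y} ∪ {p, q, s} : Finset α) = {x, y, p, q, s} := by
      ext v
      simp only [mem_union, mem_insert, mem_singleton]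
      tauto
    refine lift (fun c d E h1 h2 => ?_) (fun c d E h1 h2 => ?_) (a := a) (b := b) ?_
    · exfalso
      have h3 := (hn c).1 ((E.2.2.2.2.2 c).2 (by tauto))
      simp only [mem_insert, mem_singleton, not_or] at h1
      rcases h3 with h3 | h3 | h3 | h3
      · exact E.2.1 h3
      · exact E.2.2.1 h3
      · exact h1.1 h3
      · exact h1.2.1 h3
    · have := h.swap.byp E h1 h2 (by
        simp only [mem_insert, mem_singleton, not_or]
        exact ⟨htp, htq, hnd.2.2.2.2.symm⟩)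
      rwa [Hm_comm] at this
    · rw [del_del, hT]
      refine hc a ha'.1 b hb'.1 ?_ ?_
      · rw [← hT, mem_union, not_or]
        exact ⟨ha'.2, haS⟩
      · rw [← hT, mem_union, not_or]
        exact ⟨hb'.2, hbS⟩

theorem Cfg.s3s (hB : SpecNBF) {x y s₁ s₂ s t : α} (h : Cfg G x y s₁ s₂ s t) :
    S3S (Hm G x y s t) := by
  have hnd := h.nd
  refine ⟨h.k2 hB, h.br, ?_⟩
  intro p q hpq
  by_cases hst : ({p, q} : Finset α) = {s, t}
  · left
    have := h.bb hB
    rwa [← hst] at this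
  by_cases hc : ConnOff (del G {x, y}) {p, q}
  · exact Or.inl (h.pass hB hst hc)
  right
  have hVS := h.g.1.VS_del (S := {x, y}) (by
    have : ({x, y} : Finset α).card ≤ 2 := card_le_two
    omega)
  -- `p`, `q` are vertices of `H`
  have hp : p ∈ VS (del G {x, y}) := by
    by_contra hp
    apply hc
    intro a ha b hb haS hbS
    rw [mem_insert, mem_singleton, not_or] at haS hbS
    refine (h.kH.2 {q} (by simp) a ha b hb (by simpa using haS.2) (by simpa using hbS.2)).mono ?_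
    intro u v huv
    refine ⟨huv.1, ?_, ?_⟩
    · rw [mem_insert, not_or]
      exact ⟨fun e => hp (e ▸ left_mem_VS huv.1), huv.2.1⟩
    · rw [mem_insert, not_or]
      exact ⟨fun e => hp (e ▸ right_mem_VS huv.1), huv.2.2⟩
  have hq : q ∈ VS (del G {x, y}) := by
    by_contra hq
    apply hc
    intro a ha b hb haS hbS
    rw [mem_insert, mem_singleton, not_or] at haS hbS
    refine (h.kH.2 {p} (by simp) a ha b hb (by simpa using haS.1) (by simpa using hbS.1)).mono ?_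
    intro u v huv
    refine ⟨huv.1, ?_, ?_⟩
    · rw [mem_insert, mem_singleton, not_or]
      exact ⟨fun e => huv.2.1 (mem_singleton.2 e), fun e => hq (e ▸ left_mem_VS huv.1)⟩
    · rw [mem_insert, mem_singleton, not_or]
      exact ⟨fun e => huv.2.2 (mem_singleton.2 e), fun e => hq (e ▸ right_mem_VS huv.1)⟩
  rw [hVS, mem_sdiff] at hp hq
  obtain ⟨hpV, hpS⟩ := hp
  obtain ⟨hqV, hqS⟩ := hq
  rw [mem_insert, mem_singleton, not_or] at hpS hqS
  have hT : ({x, y} ∪ {p, q} : Finset α) = {x, y, p, q} := by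
    ext v
    simp only [mem_union, mem_insert, mem_singleton]
    tauto
  have hc' : ¬ ConnOff G {x, y, p, q} := by
    intro h'
    apply hc
    intro a ha b hb haS hbS
    rw [del_del, hT]
    have ha' := mem_sdiff.1 (VS_del_subset _ ha)
    have hb' := mem_sdiff.1 (VS_del_subset _ hb)
    refine h' a ha'.1 b hb'.1 ?_ ?_
    · rw [← hT, mem_union, not_or]
      exact ⟨ha'.2, haS⟩
    · rw [← hT, mem_union, not_or]
      exact ⟨hb'.2, hbS⟩
  have hxy : G.Adj x y := (h.p.nx y).2 (Or.inl rfl)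
  obtain ⟨z, hzV, hz, hzc⟩ := hB.one h.g h.r (left_mem_VS hxy) (right_mem_VS hxy) hpV hqV
    (by simp [hxy.ne, hpq, Ne.symm hpS.1, Ne.symm hpS.2, Ne.symm hqS.1, Ne.symm hqS.2]) hc'
  have hzx : G.Adj z x := (hz x).2 (Or.inl rfl)
  have hzy : G.Adj z y := (hz y).2 (Or.inr (Or.inl rfl))
  have hz' : z = s ∨ z = t := by
    rcases (h.p.nx z).1 hzx.symm with h1 | h1 | h1 | h1
    · exact absurd h1 hzy.ne
    · rcases (h.p.ny z).1 hzy.symm with h2 | h2 | h2 | h2
      · exact absurd h2 hzx.ne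
      · exact absurd (h2.symm.trans h1) hnd.2.2.1.1
      · exact Or.inl h2
      · exact Or.inr h2
    · exact Or.inl h1
    · exact Or.inr h1
  rcases hz' with rfl | rfl
  · exact h.iso hz hpS.1 hpS.2 hqS.1 hqS.2 hzc
  · have := h.swap.iso hz hpS.1 hpS.2 hqS.1 hqS.2 hzc
    rwa [Hm_comm] at this

end HMSM

theorem specHMS (hNBF : SpecNBF) : SpecHMS := by
  intro α _ _ G x y s₁ s₂ s₃ s₄ hG hP hE hR hn
  have h : HMSM.Cfg G x y s₁ s₂ s₃ s₄ := ⟨hG, hP, hE, hR, hn⟩
  exact ⟨h.s3s hNBF, h.bb hNBF, h.VS_eq⟩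

end DL
end

section
/-!
# MP_3ff0f8_gt, algebra half, G4 block, module MC0 (helper98)
-/
set_option autoImplicit false
set_option linter.unusedSectionVars false
set_option linter.unusedFintypeInType false
set_option linter.unusedDecidableInType false

open SimpleGraph Finset

namespace DL

namespace MC0M

open NCSM GALM

variable {α : Type} [Fintype α] [DecidableEq α] {G : SimpleGraph α}

/-! ### Linear algebra -/

theorem pr_addr (a c d : Chain α) : pr a (c + d) = pr a c + pr a d := (prL a).map_add c d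

theorem pr_smull (m : ZMod 2) (a c : Chain α) : pr (m • a) c = m * pr a c := by
  unfold pr
  rw [mul_sum]
  exact sum_congr rfl fun e _ => by rw [Pi.smul_apply, smul_eq_mul]; ring

theorem pr_zerol (c : Chain α) : pr 0 c = 0 := by
  unfold pr
  exact sum_eq_zero fun e _ => by rw [Pi.zero_apply, zero_mul]

/-- a functional which vanishes where two others vanish -/
theorem coord2 (S : Submodule (ZMod 2) (Chain α)) (f g₁ g₂ : Chain α)
    (h : ∀ Z ∈ S, pr g₁ Z = 0 → pr g₂ Z = 0 → pr f Z = 0) :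
    ∃ a b : ZMod 2, ∀ Z ∈ S, pr f Z = a * pr g₁ Z + b * pr g₂ Z := by
  have h1 := mem_span_of_iInf_ker_le_ker (𝕜 := ZMod 2) (E := S)
    (L := fun i : Fin 2 => (prL (if i = 0 then g₁ else g₂)).comp S.subtype)
    (K := (prL f).comp S.subtype) (by
      intro Z hZ
      rw [Submodule.mem_iInf] at hZ
      rw [LinearMap.mem_ker]
      exact h Z.1 Z.2 (hZ 0) (hZ 1))
  rw [Submodule.mem_span_range_iff_exists_fun] at h1
  obtain ⟨c, hc⟩ := h1
  refine ⟨c 0, c 1, fun Z hZ => ?_⟩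
  have h2 := LinearMap.congr_fun hc ⟨Z, hZ⟩
  rw [Fin.sum_univ_two] at h2
  exact h2.symm

theorem z2a : ∀ a b r r' : ZMod 2, a + b = r + r' → a + r = b + r' := by decide

/-- duality for triples with sum zero -/
theorem dual3 (S₂ S₃ S₄ : Submodule (ZMod 2) (Chain α)) (a₂ a₃ a₄ : Chain α)
    (h : ∀ A₂ ∈ S₂, ∀ A₃ ∈ S₃, ∀ A₄ ∈ S₄, A₂ + A₃ + A₄ = 0 →
      pr a₂ A₂ + pr a₃ A₃ + pr a₄ A₄ = 0) :
    ∃ β : Chain α, (∀ Z ∈ S₂, pr (a₂ + β) Z = 0) ∧ (∀ Z ∈ S₃, pr (a₃ + β) Z = 0) ∧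
      ∀ Z ∈ S₄, pr (a₄ + β) Z = 0 := by
  obtain ⟨ρ, ρ', hρ, hρ', e1⟩ := split_inf S₂ S₃ (a₂ + a₃) (by
    intro Z hZ
    have h1 := h Z hZ.1 Z hZ.2 0 (zero_mem _) (by rw [chain_add_self, add_zero])
    rw [pr_zero, add_zero] at h1
    rw [pr_add]
    exact h1)
  have e1' : ∀ Z, pr a₂ Z + pr a₃ Z = pr ρ Z + pr ρ' Z := by
    intro Z
    rw [← pr_add, ← pr_add, e1]
  obtain ⟨σ, σ', hσ, hσ', e2⟩ := split_inf (S₂ ⊔ S₃) S₄ (a₂ + ρ + a₄) (by
    rintro Z ⟨hZ, hZ4⟩
    obtain ⟨A, hA, B, hB, rfl⟩ := Submodule.mem_sup.1 hZ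
    have h1 := h A hA B hB (A + B) hZ4 (chain_add_self _)
    have h2 := z2a _ _ _ _ (e1' B)
    rw [hρ' B hB, add_zero] at h2
    rw [pr_add, pr_add, pr_addr, pr_addr ρ, hρ A hA, zero_add]
    rw [← h2] at h1
    linear_combination h1)
  have e2' : ∀ Z, pr a₂ Z + pr ρ Z + pr a₄ Z = pr σ Z + pr σ' Z := by
    intro Z
    rw [← pr_add, ← pr_add, ← pr_add, e2]
  refine ⟨a₂ + ρ + σ, fun Z hZ => ?_, fun Z hZ => ?_, fun Z hZ => ?_⟩
  · rw [pr_add, pr_add, pr_add, hρ Z hZ, hσ Z (Submodule.mem_sup_left hZ), add_zero, add_zero]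
    exact zmod2_add_self _
  · have h2 := z2a _ _ _ _ (e1' Z)
    rw [hρ' Z hZ, add_zero] at h2
    rw [pr_add, pr_add, pr_add, h2, hσ Z (Submodule.mem_sup_right hZ), add_zero]
    exact zmod2_add_self _
  · have h2 := e2' Z
    rw [hσ' Z hZ, add_zero] at h2
    rw [pr_add, pr_add, pr_add, ← h2]
    have h3 : pr a₄ Z + (pr a₂ Z + pr ρ Z + (pr a₂ Z + pr ρ Z + pr a₄ Z)) =
        (pr a₄ Z + pr a₄ Z) + ((pr a₂ Z + pr ρ Z) + (pr a₂ Z + pr ρ Z)) := by ring
    rw [h3, zmod2_add_self, zmod2_add_self, add_zero]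

/-! ### Tori -/

theorem exists_inj (α : Type) [Fintype α] : ∃ r : α → ℕ, Function.Injective r :=
  ⟨fun a => (Fintype.equivFin α a : ℕ), fun _ _ h => (Fintype.equivFin α).injective (Fin.ext h)⟩

theorem sum_single (al : α → Chain α) (a : α) (Z : Chain α) :
    ∑ w, pr (al w) (if w = a then Z else 0) = pr (al a) Z := by
  rw [sum_eq_single a]
  · rw [if_pos rfl]
  · intro b _ hb
    rw [if_neg hb, pr_zero]
  · intro h
    exact absurd (mem_univ a) h

/-- `al` describes the van Kampen number by the rows at `x` -/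
def Fr (G : SimpleGraph α) (x : α) (al : α → Chain α) : Prop :=
  ∀ r : α → ℕ, Function.Injective r → ∀ z, IsZ2 G z → vk r z = ∑ w, pr (al w) (z s(x, w))

theorem tor_row (hVKA : SpecVKA) (hKUR : SpecKUR) {x a b : α} {al : α → Chain α} (hal : Fr G x al)
    (ha : G.Adj x a) (hb : G.Adj x b) (hab : a ≠ b) {P : Finset (Sym2 α)}
    (hP : IsPth (del G {x}) a b P) {Z : Chain α} (hZ : Z ∈ Z1 (del G (insert x (vs P)))) :
    pr (al a) Z = pr (al b) Z := by
  have hC := isCyc_of_isPth_del ha hb hab hP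
  obtain ⟨C, hCdef⟩ : ∃ C, C = insert s(x, a) (insert s(x, b) P) := ⟨_, rfl⟩
  rw [← hCdef] at hC
  have hZG : Z ∈ Z1 G := Z1_mono (del_le _ _) hZ
  have hvs : vs C ⊆ insert x (vs P) := by
    rw [hCdef, vs_insert, vs_insert]
    intro v hv
    simp only [mem_union, mem_insert, mem_singleton] at hv ⊢
    rcases hv with (rfl | rfl) | (rfl | rfl) | hv
    · exact Or.inl rfl
    · exact Or.inr (hP.left_mem hab)
    · exact Or.inl rfl
    · exact Or.inr (hP.right_mem hab)
    · exact Or.inr hv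
  have h1 : ∀ e v, chi C e ≠ 0 → v ∈ e → v ∈ vs C := by
    intro e v he hv
    exact mem_vs.2 ⟨e, chi_ne_zero.1 he, hv⟩
  have h2 : ∀ e v, Z e ≠ 0 → v ∈ e → v ∈ univ \ vs C := by
    intro e v he hv
    rw [mem_sdiff]
    exact ⟨mem_univ _, fun h => avoid hZ he hv (hvs h)⟩
  obtain ⟨r, hr⟩ := exists_inj α
  have hz := hKUR.tor (vs C) (univ \ vs C) hC.chi_mem hZG h1 h2 disjoint_sdiff
  have hv := hVKA.tor (vs C) (univ \ vs C) hr hC.chi_mem hZG h1 h2 disjoint_sdiff
  have hx : ∀ w, Z s(x, w) = 0 := by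
    intro w
    by_contra h
    exact avoid hZ h (Sym2.mem_mk_left x w) (mem_insert_self _ _)
  have hxP : ∀ w, s(x, w) ∉ P := by
    intro w hw
    exact (hP.adj_of_mem hw).2.1 (mem_singleton_self x)
  have hrow : ∀ w, DL.tor (chi C) Z s(x, w) = (if w = a then Z else 0) + if w = b then Z else 0 := by
    intro w
    funext f
    show chi C s(x, w) * Z f + Z s(x, w) * chi C f = _
    rw [hx w, zero_mul, add_zero, Pi.add_apply]
    by_cases hwa : w = a
    · have h3 : s(x, w) ∈ C := by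
        rw [hCdef, hwa]
        exact mem_insert_self _ _
      rw [chi_of_mem h3, if_pos hwa, if_neg (fun h => hab (hwa.symm.trans h)), one_mul,
        Pi.zero_apply, add_zero]
    · by_cases hwb : w = b
      · have h3 : s(x, w) ∈ C := by
          rw [hCdef, hwb]
          exact mem_insert_of_mem (mem_insert_self _ _)
        rw [chi_of_mem h3, if_neg hwa, if_pos hwb, one_mul, Pi.zero_apply, zero_add]
      · have h3 : s(x, w) ∉ C := by
          rw [hCdef]
          simp only [mem_insert, not_or]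
          refine ⟨?_, ?_, hxP w⟩
          · intro h
            exact hwa (Sym2.congr_right.1 h)
          · intro h
            exact hwb (Sym2.congr_right.1 h)
        rw [chi_of_notMem h3, if_neg hwa, if_neg hwb, zero_mul, Pi.zero_apply, add_zero]
  have h3 : vk r (DL.tor (chi C) Z) = ∑ w, pr (al w) (DL.tor (chi C) Z s(x, w)) := hal r hr _ hz
  rw [hv] at h3
  have h4 : ∑ w, pr (al w) (DL.tor (chi C) Z s(x, w)) = pr (al a) Z + pr (al b) Z := by
    rw [← sum_single al a Z, ← sum_single al b Z, ← sum_add_distrib]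
    exact sum_congr rfl fun w _ => by rw [hrow w, pr_addr]
  rw [h4] at h3
  exact CharTwo.add_eq_zero.1 h3.symm

/-! ### Exceptional edges -/

open Classical in
/-- the exceptional edge of `s`, as a functional -/
noncomputable def kk (G : SimpleGraph α) (x y s : α) : Chain α :=
  fun e => if e ∈ exc G x y s then 1 else 0

theorem exc_iff {x y s : α} (X : Ctx G x y) {e : Sym2 α} :
    e ∈ exc G x y s ↔ ∃ c d, e = s(c, d) ∧ G.Adj c d ∧ Sp G x y s c d := by
  constructor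
  · rintro ⟨c, d, h1, h2, _, _, _, _, h3⟩
    exact ⟨c, d, h1, h2, h2.ne, h3⟩
  · rintro ⟨c, d, h1, h2, h3⟩
    obtain ⟨h4, h5, h6, h7⟩ := h3.dist X
    exact ⟨c, d, h1, h2, h4, h5, h6, h7, h3.2⟩

theorem exc_eq {x y s c d : α} (X : Ctx G x y) (h : Sp G x y s c d) (hcd : G.Adj c d)
    {e : Sym2 α} : e ∈ exc G x y s ↔ e = s(c, d) := by
  rw [exc_iff X]
  constructor
  · rintro ⟨c', d', rfl, hcd', h'⟩
    obtain ⟨h1, h2, h3, h4⟩ := h'.dist X
    have hc : c' = c ∨ c' = d := by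
      rcases (h.2 c').1 h'.adj.2.2.1 with e | e | e | e
      · exact absurd e h1
      · exact absurd e h2
      · exact Or.inl e
      · exact Or.inr e
    have hd : d' = c ∨ d' = d := by
      rcases (h.2 d').1 h'.adj.2.2.2 with e | e | e | e
      · exact absurd e h3
      · exact absurd e h4
      · exact Or.inl e
      · exact Or.inr e
    rcases hc with rfl | rfl <;> rcases hd with rfl | rfl
    · exact absurd rfl hcd'.ne
    · rfl
    · exact Sym2.eq_swap
    · exact absurd rfl hcd'.ne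
  · rintro rfl
    exact ⟨c, d, rfl, hcd, h⟩

theorem pr_kk {x y s c d : α} (X : Ctx G x y) (h : Sp G x y s c d) (hcd : G.Adj c d)
    (Z : Chain α) : pr (kk G x y s) Z = Z s(c, d) := by
  unfold pr kk
  rw [sum_eq_single s(c, d)]
  · rw [if_pos ((exc_eq X h hcd).2 rfl), one_mul]
  · intro e _ he
    rw [if_neg (fun h' => he ((exc_eq X h hcd).1 h')), zero_mul]
  · intro h
    exact absurd (mem_univ _) h

theorem kk_zero {x y s : α} (X : Ctx G x y) (h : ¬ ∃ c d, Sp G x y s c d ∧ G.Adj c d) :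
    kk G x y s = 0 := by
  funext e
  unfold kk
  rw [if_neg]
  · rfl
  · rw [exc_iff X]
    rintro ⟨c, d, _, h1, h2⟩
    exact h ⟨c, d, h2, h1⟩

theorem Hm_adj {x y s₃ s₄ a b : α} : (Hm G x y s₃ s₄).Adj a b ↔
    (del G {x, y}).Adj a b ∧ s(a, b) ∉ exc G x y s₃ ∧ s(a, b) ∉ exc G x y s₄ := by
  unfold Hm
  rw [deleteEdges_adj, Set.mem_union, not_or]

theorem Hm_symm {x y s₃ s₄ : α} : Hm G x y s₃ s₄ = Hm G x y s₄ s₃ := by
  unfold Hm
  rw [Set.union_comm]

theorem Hm_le {x y s₃ s₄ : α} : Hm G x y s₃ s₄ ≤ del G {x, y} := deleteEdges_le _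

/-- chains without the exceptional edges -/
theorem mem_Hm {x y s₃ s₄ s : α} (X : Ctx G x y) {Z : Chain α} (hZ : Z ∈ Z1 (del G {x, y, s}))
    (h3 : pr (kk G x y s₃) Z = 0) (h4 : pr (kk G x y s₄) Z = 0) :
    Z ∈ Z1 (del (Hm G x y s₃ s₄) {s}) := by
  have key : ∀ t, pr (kk G x y t) Z = 0 → ∀ e, Z e ≠ 0 → e ∉ exc G x y t := by
    intro t ht e he hex
    obtain ⟨c, d, rfl, hcd, hsp⟩ := (exc_iff X).1 hex
    rw [pr_kk X hsp hcd] at ht
    exact he ht
  refine ⟨fun e he => ?_, hZ.2⟩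
  have h1 := hZ.1 e he
  have h5 := key s₃ h3 e he
  have h6 := key s₄ h4 e he
  induction e using Sym2.ind with
  | _ a b =>
    obtain ⟨g1, g2, g3⟩ := h1
    simp only [mem_insert, mem_singleton, not_or] at g2 g3
    refine ⟨Hm_adj.2 ⟨⟨g1, ?_, ?_⟩, h5, h6⟩, ?_, ?_⟩
    · simp only [mem_insert, mem_singleton, not_or]
      exact ⟨g2.1, g2.2.1⟩
    · simp only [mem_insert, mem_singleton, not_or]
      exact ⟨g3.1, g3.2.1⟩
    · rw [mem_singleton]
      exact g2.2.2
    · rw [mem_singleton]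
      exact g3.2.2

/-- the situation, symmetric in `s`, `t` -/
structure Cm (G : SimpleGraph α) (x y s₂ s t : α) : Prop where
  X : Ctx G x y
  x2 : G.Adj x s₂
  xs : G.Adj x s
  xt : G.Adj x t
  ys : G.Adj y s
  yt : G.Adj y t
  n1 : ¬ G.Adj s₂ s
  n2 : ¬ G.Adj s₂ t
  n3 : ¬ G.Adj s t
  d1 : s₂ ≠ s
  d2 : s₂ ≠ t
  d3 : s ≠ t
  y2 : s₂ ≠ y

theorem Cm.symm {x y s₂ s t : α} (M : Cm G x y s₂ s t) : Cm G x y s₂ t s :=
  ⟨M.X, M.x2, M.xt, M.xs, M.yt, M.ys, M.n2, M.n1, fun h => M.n3 h.symm, M.d2, M.d1, M.d3.symm, M.y2⟩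

variable {x y s₂ s t : α}

/-- the vertices of the triangle -/
theorem Cm.tri_ne (M : Cm G x y s₂ s t) {c d : α} (h : Sp G x y s c d) {v : α}
    (hv : v = s ∨ v = c ∨ v = d) : v ≠ x ∧ v ≠ y ∧ v ≠ s₂ ∧ v ≠ t := by
  obtain ⟨h1, h2, h3, h4⟩ := h.dist M.X
  have hadj := h.adj
  rcases hv with rfl | rfl | rfl
  · exact ⟨h.ne.1, h.ne.2.1, M.d1.symm, M.d3⟩
  · refine ⟨h1, h2, ?_, ?_⟩
    · rintro rfl
      exact M.n1 hadj.2.2.1.symm
    · rintro rfl
      exact M.n3 hadj.2.2.1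
  · refine ⟨h3, h4, ?_, ?_⟩
    · rintro rfl
      exact M.n1 hadj.2.2.2.symm
    · rintro rfl
      exact M.n3 hadj.2.2.2

theorem Cm.tri_mem_Z1 (M : Cm G x y s₂ s t) {c d : α} (h : Sp G x y s c d) (hcd : G.Adj c d)
    {S : Finset α} (hS : ∀ v ∈ S, v = x ∨ v = y ∨ v = s₂ ∨ v = t) : tri s c d ∈ Z1 (del G S) := by
  refine mem_Z1_del (tri_cyc h.adj.2.2.1 h.adj.2.2.2 hcd).chi_mem fun e he v hv hvS => ?_
  have h1 := M.tri_ne h (tri_mem he hv)
  rcases hS v hvS with e | e | e | e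
  · exact h1.1 e
  · exact h1.2.1 e
  · exact h1.2.2.1 e
  · exact h1.2.2.2 e

/-- the values of `al` at the triangle -/
theorem Cm.tri_row (hVKA : SpecVKA) (hKUR : SpecKUR) (hNBF : SpecNBF) (M : Cm G x y s₂ s t)
    {al : α → Chain α} (hal : Fr G x al) {c d : α} (h : Sp G x y s c d) (hcd : G.Adj c d) :
    pr (al s₂) (tri s c d) = pr (al t) (tri s c d) := by
  have hconn := h.conn hNBF M.X
  have hc := M.tri_ne h (Or.inr (Or.inl rfl))
  have hd := M.tri_ne h (Or.inr (Or.inr rfl))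
  have hs := M.tri_ne h (Or.inl rfl)
  have hr := hconn s₂ (right_mem_VS M.x2) t (right_mem_VS M.xt) (by
    simp only [mem_insert, mem_singleton, not_or]
    exact ⟨M.x2.ne', M.y2, hc.2.2.1.symm, hd.2.2.1.symm, hs.2.2.1.symm⟩) (by
    simp only [mem_insert, mem_singleton, not_or]
    exact ⟨M.xt.ne', M.yt.ne', hc.2.2.2.symm, hd.2.2.2.symm, hs.2.2.2.symm⟩)
  obtain ⟨P, hP⟩ := exists_isPth hr
  have hP' : IsPth (del G {x}) s₂ t P := hP.mono (del_anti (by simp))
  refine tor_row hVKA hKUR hal M.x2 M.xt M.d2 hP' ?_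
  refine mem_Z1_del (tri_cyc h.adj.2.2.1 h.adj.2.2.2 hcd).chi_mem fun e he v hv hvS => ?_
  have h1 := tri_mem he hv
  rcases mem_insert.1 hvS with h2 | h2
  · exact (M.tri_ne h h1).1 h2
  · obtain ⟨f, hf, hvf⟩ := mem_vs.1 h2
    obtain ⟨u, rfl⟩ := Sym2.mem_iff_exists.1 hvf
    have h3 := (hP.adj_of_mem hf).2.1
    simp only [mem_insert, mem_singleton, not_or] at h3
    rcases h1 with e | e | e
    · exact h3.2.2.2.2 e
    · exact h3.2.2.1 e
    · exact h3.2.2.2.1 e

/-- the exceptional edges are different -/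
theorem Cm.exc_ne (hNBF : SpecNBF) (M : Cm G x y s₂ s t) {c d c' d' : α} (h : Sp G x y s c d)
    (h' : Sp G x y t c' d') : s(c', d') ≠ s(c, d) := by
  intro e
  rcases Sym2.eq_iff.1 e with ⟨e1, e2⟩ | ⟨e1, e2⟩
  · rw [e1, e2] at h'
    exact M.d3 (Sp.unique hNBF M.X h h')
  · rw [e1, e2] at h'
    exact M.d3 (Sp.unique hNBF M.X h h'.swap)

theorem Cm.kk_tri (hNBF : SpecNBF) (M : Cm G x y s₂ s t) {c d : α} (h : Sp G x y s c d)
    (hcd : G.Adj c d) : pr (kk G x y s) (tri s c d) = 1 ∧ pr (kk G x y t) (tri s c d) = 0 := by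
  constructor
  · rw [pr_kk M.X h hcd]
    unfold tri
    exact chi_of_mem (by simp)
  · by_cases hex : ∃ c d, Sp G x y t c d ∧ G.Adj c d
    · obtain ⟨c', d', h', hcd'⟩ := hex
      rw [pr_kk M.X h' hcd']
      by_contra h0
      have h1 : s(c', d') ∈ ({s(s, c), s(c, d), s(s, d)} : Finset (Sym2 α)) := chi_ne_zero.1 h0
      have hns : ∀ v, v ∈ s(c', d') → v ≠ s := by
        intro v hv e
        rw [e] at hv
        rcases Sym2.mem_iff.1 hv with e | e
        · exact M.n3 (e ▸ h'.adj.2.2.1.symm)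
        · exact M.n3 (e ▸ h'.adj.2.2.2.symm)
      simp only [mem_insert, mem_singleton] at h1
      rcases h1 with e | e | e
      · exact hns s (e ▸ Sym2.mem_mk_left _ _) rfl
      · exact M.exc_ne hNBF h h' e
      · exact hns s (e ▸ Sym2.mem_mk_left _ _) rfl
    · rw [kk_zero M.X hex, pr_zerol]

/-- a cycle through the exceptional edge of `s` and not through the one of `t` -/
theorem Cm.exists_cyc (hNBF : SpecNBF) (M : Cm G x y s₂ s t)
    (hconn : ConnOff (Hm G x y s t) {s, t}) (hVS : VS (Hm G x y s t) = VS (del G {x, y})) {c d : α}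
    (h : Sp G x y s c d) (hcd : G.Adj c d) :
    ∃ Z, Z ∈ Z1 (del G {x, y, s}) ∧ Z ∈ Z1 (del G {x, y, t}) ∧ pr (kk G x y s) Z = 1 ∧
      pr (kk G x y t) Z = 0 := by
  have hc := M.tri_ne h (Or.inr (Or.inl rfl))
  have hd := M.tri_ne h (Or.inr (Or.inr rfl))
  have hcd1 : (del G {x, y}).Adj c d := by
    refine ⟨hcd, ?_, ?_⟩
    · simp only [mem_insert, mem_singleton, not_or]
      exact ⟨hc.1, hc.2.1⟩
    · simp only [mem_insert, mem_singleton, not_or]
      exact ⟨hd.1, hd.2.1⟩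
  have hr := hconn c (hVS ▸ left_mem_VS hcd1) d (hVS ▸ right_mem_VS hcd1) (by
    simp only [mem_insert, mem_singleton, not_or]
    exact ⟨h.adj.2.2.1.ne', hc.2.2.2⟩) (by
    simp only [mem_insert, mem_singleton, not_or]
    exact ⟨h.adj.2.2.2.ne', hd.2.2.2⟩)
  obtain ⟨P, hP⟩ := exists_isPth hr
  have hle : del (Hm G x y s t) {s, t} ≤ del G {x, y, s, t} := by
    intro a b hab
    obtain ⟨h1, h2, h3⟩ := hab
    obtain ⟨⟨g1, g2, g3⟩, _⟩ := Hm_adj.1 h1
    simp only [mem_insert, mem_singleton, not_or] at h2 h3 g2 g3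
    refine ⟨g1, ?_, ?_⟩
    · simp only [mem_insert, mem_singleton, not_or]
      exact ⟨g2.1, g2.2, h2.1, h2.2⟩
    · simp only [mem_insert, mem_singleton, not_or]
      exact ⟨g3.1, g3.2, h3.1, h3.2⟩
  have hnP : ∀ e ∈ P, e ∉ exc G x y s ∧ e ∉ exc G x y t := by
    intro e he
    induction e using Sym2.ind with
    | _ a b => exact (Hm_adj.1 (hP.adj_of_mem he).1).2
  have hcyc : IsCyc (del G {x, y, s, t}) (insert s(c, d) P) := by
    refine (hP.mono hle).isCyc ?_ ?_
    · refine ⟨hcd, ?_, ?_⟩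
      · simp only [mem_insert, mem_singleton, not_or]
        exact ⟨hc.1, hc.2.1, h.adj.2.2.1.ne', hc.2.2.2⟩
      · simp only [mem_insert, mem_singleton, not_or]
        exact ⟨hd.1, hd.2.1, h.adj.2.2.2.ne', hd.2.2.2⟩
    · intro he
      exact (hnP _ he).1 ((exc_eq M.X h hcd).2 rfl)
  refine ⟨chi (insert s(c, d) P), Z1_mono (del_anti ?_) hcyc.chi_mem,
    Z1_mono (del_anti ?_) hcyc.chi_mem, ?_, ?_⟩
  · intro v hv
    simp only [mem_insert, mem_singleton] at hv ⊢
    tauto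
  · intro v hv
    simp only [mem_insert, mem_singleton] at hv ⊢
    tauto
  · rw [pr_kk M.X h hcd]
    exact chi_of_mem (mem_insert_self _ _)
  · by_cases hex : ∃ c d, Sp G x y t c d ∧ G.Adj c d
    · obtain ⟨c', d', h', hcd'⟩ := hex
      rw [pr_kk M.X h' hcd']
      refine chi_of_notMem fun he => ?_
      rcases mem_insert.1 he with e | e
      · exact M.exc_ne hNBF h h' e
      · exact (hnP _ e).2 ((exc_eq M.X h' hcd').2 rfl)
    · rw [kk_zero M.X hex, pr_zerol]

/-! ### The star -/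

/-- `Hm` with the edges from `x` to `s₂`, `s`, `t` -/
def KK (G : SimpleGraph α) (x y s₂ s t : α) : SimpleGraph α :=
  Hm G x y s t ⊔ fromEdgeSet {s(x, s₂), s(x, s), s(x, t)}

theorem KK_adj {a b : α} : (KK G x y s₂ s t).Adj a b ↔ (Hm G x y s t).Adj a b ∨
    ((s(a, b) = s(x, s₂) ∨ s(a, b) = s(x, s) ∨ s(a, b) = s(x, t)) ∧ a ≠ b) := by
  unfold KK
  rw [sup_adj, fromEdgeSet_adj]
  simp only [Set.mem_insert_iff, Set.mem_singleton_iff]

theorem KK_del : del (KK G x y s₂ s t) {x} = Hm G x y s t := by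
  ext a b
  rw [del_adj, KK_adj]
  simp only [mem_singleton]
  constructor
  · rintro ⟨h | ⟨h, _⟩, h2, h3⟩
    · exact h
    · exfalso
      rcases h with h | h | h <;> rcases Sym2.eq_iff.1 h with ⟨e, _⟩ | ⟨_, e⟩
      · exact h2 e
      · exact h3 e
      · exact h2 e
      · exact h3 e
      · exact h2 e
      · exact h3 e
  · intro h
    have h1 := Hm_le h
    have h2 := h1.2.1
    have h3 := h1.2.2
    simp only [mem_insert, mem_singleton, not_or] at h2 h3
    exact ⟨Or.inl h, h2.1, h3.1⟩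

theorem Cm.KK_le (M : Cm G x y s₂ s t) : KK G x y s₂ s t ≤ del G {y} := by
  intro a b h
  rw [KK_adj] at h
  have key : ∀ v, G.Adj x v → v ≠ y → s(a, b) = s(x, v) → (del G {y}).Adj a b := by
    intro v h1 h2 h3
    have h4 : (del G {y}).Adj x v := ⟨h1, by rw [mem_singleton]; exact M.X.ne, by
      rw [mem_singleton]; exact h2⟩
    rcases Sym2.eq_iff.1 h3 with ⟨rfl, rfl⟩ | ⟨rfl, rfl⟩
    · exact h4
    · exact h4.symm
  rcases h with h | ⟨h | h | h, _⟩
  · exact (Hm_le.trans (del_anti (by simp))) h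
  · exact key s₂ M.x2 M.y2 h
  · exact key s M.xs M.ys.ne' h
  · exact key t M.xt M.yt.ne' h

theorem Cm.star (hLPE : SpecLPE) (hKUR : SpecKUR) (M : Cm G x y s₂ s t) {al : α → Chain α}
    (hal : Fr G x al) (hny : ¬ NP (del G {y})) (hS : S3S (Hm G x y s t))
    (hVS : VS (Hm G x y s t) = VS (del G {x, y})) {A₂ A₃ A₄ : Chain α}
    (h2 : A₂ ∈ Z1 (del (Hm G x y s t) {s₂})) (h3 : A₃ ∈ Z1 (del (Hm G x y s t) {s}))
    (h4 : A₄ ∈ Z1 (del (Hm G x y s t) {t})) (h0 : A₂ + A₃ + A₄ = 0) :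
    pr (al s₂) A₂ + pr (al s) A₃ + pr (al t) A₄ = 0 := by
  have hL : KConn 2 (del G {x, y}) := M.X.k.1.del_pair (k := 2) (by norm_num) x y
  have hVL : VS (del G {x, y}) = VS G \ {x, y} :=
    M.X.k.1.VS_del (lt_of_le_of_lt card_le_two (by norm_num))
  have hmemV : ∀ v, G.Adj x v → v ≠ y → v ∈ VS (del (KK G x y s₂ s t) {x}) := by
    intro v h1 h2
    rw [KK_del, hVS, hVL]
    simp only [mem_sdiff, mem_insert, mem_singleton, not_or]
    exact ⟨right_mem_VS h1, h1.ne', h2⟩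
  obtain ⟨la, hla⟩ : ∃ la : α → Chain α, la = fun w => (if w = s₂ then A₂ else 0) +
      (if w = s then A₃ else 0) + if w = t then A₄ else 0 := ⟨_, rfl⟩
  have hdel : ∀ w, del (KK G x y s₂ s t) {x, w} = del (Hm G x y s t) {w} := by
    intro w
    rw [← KK_del (G := G) (x := x) (y := y) (s₂ := s₂) (s := s) (t := t), del_del]
    rfl
  obtain ⟨z, hz, hrow⟩ := hLPE.star (G := KK G x y s₂ s t) (u := x) (by rw [KK_del]; exact hS) la
    (by
      intro w
      rw [hdel w, hla]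
      refine Submodule.add_mem _ (Submodule.add_mem _ ?_ ?_) ?_
      · split_ifs with h
        · rw [h]; exact h2
        · exact Submodule.zero_mem _
      · split_ifs with h
        · rw [h]; exact h3
        · exact Submodule.zero_mem _
      · split_ifs with h
        · rw [h]; exact h4
        · exact Submodule.zero_mem _) (by
      intro w hw
      by_cases e2 : w = s₂
      · rw [e2]
        exact ⟨KK_adj.2 (Or.inr ⟨Or.inl rfl, M.x2.ne⟩), hmemV _ M.x2 M.y2⟩
      by_cases e3 : w = s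
      · rw [e3]
        exact ⟨KK_adj.2 (Or.inr ⟨Or.inr (Or.inl rfl), M.xs.ne⟩), hmemV _ M.xs M.ys.ne'⟩
      by_cases e4 : w = t
      · rw [e4]
        exact ⟨KK_adj.2 (Or.inr ⟨Or.inr (Or.inr rfl), M.xt.ne⟩), hmemV _ M.xt M.yt.ne'⟩
      exfalso
      apply hw
      rw [hla]
      show (if w = s₂ then A₂ else 0) + (if w = s then A₃ else 0) + (if w = t then A₄ else 0) = 0
      rw [if_neg e2, if_neg e3, if_neg e4]
      simp) (by
      rw [hla, sum_add_distrib, sum_add_distrib, sum_ite_eq', sum_ite_eq', sum_ite_eq',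
        if_pos (mem_univ _), if_pos (mem_univ _), if_pos (mem_univ _)]
      exact h0)
  have hzy : IsZ2 (del G {y}) z := hKUR.zmono M.KK_le hz
  have hzG : IsZ2 G z := hKUR.zmono (del_le _ _) hzy
  obtain ⟨r, hr⟩ := exists_inj α
  have hv : vk r z = 0 := by
    by_contra h
    exact hny ⟨r, hr, z, hzy, h⟩
  rw [hal r hr z hzG] at hv
  rw [← hv, ← sum_single al s₂ A₂, ← sum_single al s A₃, ← sum_single al t A₄,
    ← sum_add_distrib, ← sum_add_distrib]
  refine sum_congr rfl fun w _ => ?_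
  rw [← pr_addr, ← pr_addr]
  have hw : z s(x, w) = la w := by
    by_cases hxw : (KK G x y s₂ s t).Adj x w
    · funext f
      exact hrow w f hxw
    · rw [row_zero hz hxw]
      by_contra h
      have h' : la w ≠ 0 := fun e => h e.symm
      by_cases e2 : w = s₂
      · rw [e2] at hxw
        exact hxw (KK_adj.2 (Or.inr ⟨Or.inl rfl, M.x2.ne⟩))
      by_cases e3 : w = s
      · rw [e3] at hxw
        exact hxw (KK_adj.2 (Or.inr ⟨Or.inr (Or.inl rfl), M.xs.ne⟩))
      by_cases e4 : w = t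
      · rw [e4] at hxw
        exact hxw (KK_adj.2 (Or.inr ⟨Or.inr (Or.inr rfl), M.xt.ne⟩))
      apply h'
      rw [hla]
      show (if w = s₂ then A₂ else 0) + (if w = s then A₃ else 0) + (if w = t then A₄ else 0) = 0
      rw [if_neg e2, if_neg e3, if_neg e4]
      simp
  rw [hw, hla]

theorem z2b : ∀ a b c : ZMod 2, a + b = c → a = c + b := by decide

end MC0M

open MC0M NCSM GALM in
/-- **MC0** -/
theorem specMC0 (hFRM : SpecFRM) (hVKA : SpecVKA) (hKUR : SpecKUR) (hLPE : SpecLPE)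
    (hHMS : SpecHMS) (hSTA : SpecSTA) (hNBF : SpecNBF) : SpecMC0 := by
  intro α _ _ G x y s₁ s₂ s₃ s₄ hK hP hE hR h34 hnx hny
  obtain ⟨al, hal⟩ := hFRM.vtx hnx
  obtain ⟨hS, hconn, hVS⟩ := hHMS hK hP hE hR h34
  have hxy : G.Adj x y := (hP.nx y).2 (Or.inl rfl)
  have hx2 : G.Adj x s₂ := (hP.nx s₂).2 (Or.inr (Or.inl rfl))
  have hx3 : G.Adj x s₃ := (hP.nx s₃).2 (Or.inr (Or.inr (Or.inl rfl)))
  have hx4 : G.Adj x s₄ := (hP.nx s₄).2 (Or.inr (Or.inr (Or.inr rfl)))
  have hy3 : G.Adj y s₃ := (hP.ny s₃).2 (Or.inr (Or.inr (Or.inl rfl)))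
  have hy4 : G.Adj y s₄ := (hP.ny s₄).2 (Or.inr (Or.inr (Or.inr rfl)))
  have hnd := hP.nd
  simp only [List.nodup_cons, List.mem_cons, List.not_mem_nil, or_false, not_or,
    List.nodup_nil, and_true, not_false_eq_true] at hnd
  have M : Cm G x y s₂ s₃ s₄ :=
    { X := ⟨hK, hR, left_mem_VS hxy, right_mem_VS hxy, hxy.ne⟩
      x2 := hx2
      xs := hx3
      xt := hx4
      ys := hy3
      yt := hy4
      n1 := hE.2.2.1
      n2 := hE.2.2.2
      n3 := h34
      d1 := hnd.2.2.2.1.1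
      d2 := hnd.2.2.2.1.2
      d3 := hnd.2.2.2.2
      y2 := Ne.symm hnd.2.1.2.1 }
  have M' := M.symm
  have hconn' : ConnOff (Hm G x y s₄ s₃) {s₄, s₃} := by
    rw [Hm_symm, pair_comm s₄ s₃]
    exact hconn
  have hVS' : VS (Hm G x y s₄ s₃) = VS (del G {x, y}) := by
    rw [Hm_symm]
    exact hVS
  obtain ⟨β, hβ2, hβ3, hβ4⟩ := dual3 (Z1 (del (Hm G x y s₃ s₄) {s₂}))
    (Z1 (del (Hm G x y s₃ s₄) {s₃})) (Z1 (del (Hm G x y s₃ s₄) {s₄})) (al s₂) (al s₃) (al s₄)
    (fun A₂ h2 A₃ h3 A₄ h4 h0 => M.star hLPE hKUR hal hny hS hVS h2 h3 h4 h0)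
  obtain ⟨a₂, b₂, c2⟩ := coord2 (Z1 (del G {x, y, s₂})) (al s₂ + β) (kk G x y s₃) (kk G x y s₄)
    (fun Z hZ g3 g4 => hβ2 Z (mem_Hm M.X hZ g3 g4))
  obtain ⟨a₃, b₃, c3⟩ := coord2 (Z1 (del G {x, y, s₃})) (al s₃ + β) (kk G x y s₃) (kk G x y s₄)
    (fun Z hZ g3 g4 => hβ3 Z (mem_Hm M.X hZ g3 g4))
  obtain ⟨a₄, b₄, c4⟩ := coord2 (Z1 (del G {x, y, s₄})) (al s₄ + β) (kk G x y s₃) (kk G x y s₄)
    (fun Z hZ g3 g4 => hβ4 Z (mem_Hm M.X hZ g3 g4))
  -- the coefficients
  have h24 : ∀ Z : Chain α, a₂ * pr (kk G x y s₃) Z = a₄ * pr (kk G x y s₃) Z := by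
    intro Z
    by_cases hex : ∃ c d, Sp G x y s₃ c d ∧ G.Adj c d
    · obtain ⟨c, d, h, hcd⟩ := hex
      have h1 := M.tri_row hVKA hKUR hNBF hal h hcd
      obtain ⟨k1, k2⟩ := M.kk_tri hNBF h hcd
      have h2 := c2 _ (M.tri_mem_Z1 h hcd (S := {x, y, s₂}) (by
        intro v hv
        simp only [mem_insert, mem_singleton] at hv
        tauto))
      have h3 := c4 _ (M.tri_mem_Z1 h hcd (S := {x, y, s₄}) (by
        intro v hv
        simp only [mem_insert, mem_singleton] at hv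
        tauto))
      rw [k1, k2, mul_one, mul_zero, add_zero, pr_add] at h2 h3
      have h5 : a₂ = a₄ := by rw [← h2, ← h3, h1]
      rw [h5]
    · rw [kk_zero M.X hex, pr_zerol, mul_zero, mul_zero]
  have h23 : ∀ Z : Chain α, b₂ * pr (kk G x y s₄) Z = b₃ * pr (kk G x y s₄) Z := by
    intro Z
    by_cases hex : ∃ c d, Sp G x y s₄ c d ∧ G.Adj c d
    · obtain ⟨c, d, h, hcd⟩ := hex
      have h1 := M'.tri_row hVKA hKUR hNBF hal h hcd
      obtain ⟨k1, k2⟩ := M'.kk_tri hNBF h hcd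
      have h2 := c2 _ (M'.tri_mem_Z1 h hcd (S := {x, y, s₂}) (by
        intro v hv
        simp only [mem_insert, mem_singleton] at hv
        tauto))
      have h3 := c3 _ (M'.tri_mem_Z1 h hcd (S := {x, y, s₃}) (by
        intro v hv
        simp only [mem_insert, mem_singleton] at hv
        tauto))
      rw [k1, k2, mul_one, mul_zero, zero_add, pr_add] at h2 h3
      have h5 : b₂ = b₃ := by rw [← h2, ← h3, h1]
      rw [h5]
    · rw [kk_zero M.X hex, pr_zerol, mul_zero, mul_zero]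
  obtain ⟨γ, hγ⟩ : ∃ γ : Chain α, γ = β + a₂ • kk G x y s₃ + b₂ • kk G x y s₄ := ⟨_, rfl⟩
  have hval : ∀ w Z, pr (al w + γ) Z = pr (al w + β) Z + a₂ * pr (kk G x y s₃) Z +
      b₂ * pr (kk G x y s₄) Z := by
    intro w Z
    rw [hγ, pr_add, pr_add, pr_add, pr_add, pr_smull, pr_smull]
    ring
  have v2 : ∀ Z ∈ Z1 (del G {x, y, s₂}), pr (al s₂ + γ) Z = 0 := by
    intro Z hZ
    rw [hval, c2 Z hZ]
    have e : a₂ * pr (kk G x y s₃) Z + b₂ * pr (kk G x y s₄) Z + a₂ * pr (kk G x y s₃) Z +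
        b₂ * pr (kk G x y s₄) Z = (a₂ * pr (kk G x y s₃) Z + b₂ * pr (kk G x y s₄) Z) +
        (a₂ * pr (kk G x y s₃) Z + b₂ * pr (kk G x y s₄) Z) := by ring
    rw [e]
    exact zmod2_add_self _
  have v3 : ∀ Z ∈ Z1 (del G {x, y, s₃}), pr (al s₃ + γ) Z = (a₃ + a₂) * pr (kk G x y s₃) Z := by
    intro Z hZ
    rw [hval, c3 Z hZ, h23 Z]
    have e : a₃ * pr (kk G x y s₃) Z + b₃ * pr (kk G x y s₄) Z + a₂ * pr (kk G x y s₃) Z +
        b₃ * pr (kk G x y s₄) Z = (a₃ + a₂) * pr (kk G x y s₃) Z +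
        (b₃ * pr (kk G x y s₄) Z + b₃ * pr (kk G x y s₄) Z) := by ring
    rw [e, zmod2_add_self, add_zero]
  have v4 : ∀ Z ∈ Z1 (del G {x, y, s₄}), pr (al s₄ + γ) Z = (b₄ + b₂) * pr (kk G x y s₄) Z := by
    intro Z hZ
    rw [hval, c4 Z hZ, h24 Z]
    have e : a₄ * pr (kk G x y s₃) Z + b₄ * pr (kk G x y s₄) Z + a₄ * pr (kk G x y s₃) Z +
        b₂ * pr (kk G x y s₄) Z = (b₄ + b₂) * pr (kk G x y s₄) Z +
        (a₄ * pr (kk G x y s₃) Z + a₄ * pr (kk G x y s₃) Z) := by ring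
    rw [e, zmod2_add_self, add_zero]
  -- the functional at `y`
  have hy : ∀ s, G.Adj x s → G.Adj y s → ∀ Z ∈ Z1 (del G {x, y, s}),
      pr (al y + γ) Z = pr (al s + γ) Z := by
    intro s h1 h2 Z hZ
    have hP : IsPth (del G {x}) y s {s(y, s)} :=
      IsPth.edge ⟨h2, by rw [mem_singleton]; exact hxy.ne', by rw [mem_singleton]; exact h1.ne'⟩
    have h3 := tor_row hVKA hKUR hal hxy h1 h2.ne hP (Z := Z) (by
      rw [vs_singleton]
      exact hZ)
    rw [pr_add, pr_add, h3]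
  have e3 : ∀ Z : Chain α, (a₃ + a₂) * pr (kk G x y s₃) Z = 0 := by
    intro Z
    by_cases hex : ∃ c d, Sp G x y s₃ c d ∧ G.Adj c d
    · obtain ⟨c, d, h, hcd⟩ := hex
      obtain ⟨Z₀, g1, g2, g3, g4⟩ := M.exists_cyc hNBF hconn hVS h hcd
      have h1 := v3 Z₀ g1
      have h2 := v4 Z₀ g2
      rw [← hy s₃ hx3 hy3 Z₀ g1, g3, mul_one] at h1
      rw [← hy s₄ hx4 hy4 Z₀ g2, g4, mul_zero] at h2
      rw [← h1, h2, zero_mul]
    · rw [kk_zero M.X hex, pr_zerol, mul_zero]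
  have e4 : ∀ Z : Chain α, (b₄ + b₂) * pr (kk G x y s₄) Z = 0 := by
    intro Z
    by_cases hex : ∃ c d, Sp G x y s₄ c d ∧ G.Adj c d
    · obtain ⟨c, d, h, hcd⟩ := hex
      obtain ⟨Z₀, g1, g2, g3, g4⟩ := M'.exists_cyc hNBF hconn' hVS' h hcd
      have h1 := v4 Z₀ g1
      have h2 := v3 Z₀ g2
      rw [← hy s₄ hx4 hy4 Z₀ g1, g3, mul_one] at h1
      rw [← hy s₃ hx3 hy3 Z₀ g2, g4, mul_zero] at h2
      rw [← h1, h2, zero_mul]
    · rw [kk_zero M.X hex, pr_zerol, mul_zero]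
  refine ⟨fun w => al w + γ, fun r hr z hz => ?_, ?_, v2, fun Z hZ => ?_, fun Z hZ => ?_⟩
  · rw [hal r hr z hz]
    have h1 : ∀ w, pr (al w + γ) (z s(x, w)) = pr (al w) (z s(x, w)) + pr γ (z s(x, w)) :=
      fun w => pr_add _ _ _
    simp only [h1]
    rw [sum_add_distrib, sum_pr_rows hz x γ, add_zero]
  · -- STA
    obtain ⟨κ, hκ, hκZ⟩ := hSTA (del G {x, y}) s₃ s₄ M.d3 (by
      intro a ha b hb ha' hb'
      have h1 := hconn a (hVS ▸ ha) b (hVS ▸ hb) ha' hb'
      exact h1.mono (del_mono_graph Hm_le _)) (al y + γ) (by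
      intro Z hZ
      rw [del_del] at hZ
      have hZ' : Z ∈ Z1 (del G {x, y, s₃}) := by
        rw [show ({x, y, s₃} : Finset α) = {x, y} ∪ {s₃} from by
          ext v
          simp only [mem_union, mem_insert, mem_singleton, or_assoc]]
        exact hZ
      show pr (al y + γ) Z = 0
      rw [hy s₃ hx3 hy3 Z hZ', v3 Z hZ', e3 Z]) (by
      intro Z hZ
      rw [del_del] at hZ
      have hZ' : Z ∈ Z1 (del G {x, y, s₄}) := by
        rw [show ({x, y, s₄} : Finset α) = {x, y} ∪ {s₄} from by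
          ext v
          simp only [mem_union, mem_insert, mem_singleton, or_assoc]]
        exact hZ
      show pr (al y + γ) Z = 0
      rw [hy s₄ hx4 hy4 Z hZ', v4 Z hZ', e4 Z])
    have hκ0 : κ = 0 := by
      by_contra h
      exact h34 (hκ h).1
    intro Z hZ
    have h1 := hκZ Z hZ
    rw [hκ0, zero_mul] at h1
    exact h1
  · show pr (al s₃ + γ) Z = 0
    rw [v3 Z hZ, e3 Z]
  · show pr (al s₄ + γ) Z = 0
    rw [v4 Z hZ, e4 Z]

end DL
end
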