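import Pool.Agent.DL.G4.Spec
import Pool.Agent.DL.G4.C20
import Pool.Agent.DL.NP.TRC
import Pool.Agent.DL.K.KY3

section
/-!
# MP_3ff0f8_gt, G4 block, module MP1 (helper23): the graph `M` is planar: the frame at `s₁s₂`
-/
open SimpleGraph Finset

namespace DL.MP1M

open C20M F1NM

set_option linter.unusedSectionVars false

variable {α : Type} [Fintype α] [DecidableEq α]

/-- a chain with the trace of the row `a c` at `b` -/
theorem trace (hTRC : SpecTRC) {J : SimpleGraph α} {z : Sym2 α → Sym2 α → ZMod 2} (hz : IsZ2 J z)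
    {a o b c : α} (hba : b ≠ a) (hbo : b ≠ o) (hbc : b ≠ c) (h0 : z s(a, c) s(b, o) = 0)
    (hconn : ConnOff J {b, a, o, c}) :
    ∃ Z ∈ Z1 (del J {a, o, c}), ∀ e, b ∈ e → Z e = z s(a, c) e := by
  classical
  have hb : b ∉ ({a, o, c} : Finset α) := by
    simp only [mem_insert, mem_singleton, not_or]
    exact ⟨hba, hbo, hbc⟩
  have hT1 : ∀ e, (if b ∈ e then z s(a, c) e else 0) ≠ 0 →
      e ∈ (del J {a, o, c}).edgeSet ∧ b ∈ e := by
    intro e he
    have hbe : b ∈ e := by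
      by_contra h
      exact he (if_neg h)
    rw [if_pos hbe] at he
    obtain ⟨-, h2, h3⟩ := hz.2.1 _ _ he
    refine ⟨?_, hbe⟩
    have hxe : a ∉ e := fun h => h3 a ⟨by simp, h⟩
    have hce : c ∉ e := fun h => h3 c ⟨by simp, h⟩
    obtain ⟨w, rfl⟩ := Sym2.mem_iff_exists.1 hbe
    rw [mem_edgeSet] at h2
    rw [mem_edgeSet, del_adj]
    simp only [Sym2.mem_iff, not_or] at hxe hce
    refine ⟨h2, hb, ?_⟩
    simp only [mem_insert, mem_singleton, not_or]
    refine ⟨fun h => hxe.2 h.symm, ?_, fun h => hce.2 h.symm⟩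
    rintro rfl
    exact he h0
  have hT2 : ∑ e, (if b ∈ e then z s(a, c) e else 0) = 0 := by
    rw [← sum_filter]
    have := hz.2.2 s(a, c) b (by
      rw [Sym2.mem_iff]
      rintro (h | h)
      · exact hba h
      · exact hbc h)
    convert this using 2
  obtain ⟨Z, hZ, hZe⟩ := hTRC J {a, o, c} b hb hconn
    (fun e => if b ∈ e then z s(a, c) e else 0) hT1 hT2
  refine ⟨Z, hZ, fun e he => ?_⟩
  rw [hZe e he, if_pos he]

/-- killing two rows -/
theorem kill (hVKA : SpecVKA) (hKUR : SpecKUR) (hNPC : SpecNPC) (hTRC : SpecTRC)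
    {J : SimpleGraph α} {r : α → ℕ} (hr : Function.Injective r)
    {z : Sym2 α → Sym2 α → ZMod 2} (hz : IsZ2 J z) (hv : vk r z ≠ 0)
    {a o b c d : α} (hN : ∀ w, J.Adj a w → w = o ∨ w = b ∨ w = c ∨ w = d)
    (aao : J.Adj a o) (aab : J.Adj a b) (aac : J.Adj a c) (aad : J.Adj a d)
    (aoc : J.Adj o c) (aod : J.Adj o d) (hbo : b ≠ o) (hbc : b ≠ c) (hbd : b ≠ d) (hcd : c ≠ d)
    (h0c : z s(a, c) s(b, o) = 0) (h0d : z s(a, d) s(b, o) = 0)
    (hcc : ConnOff J {b, a, o, c}) (hcd' : ConnOff J {b, a, o, d}) : NP (contr J a b) := by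
  classical
  have hao : a ≠ o := aao.ne
  have hab : a ≠ b := aab.ne
  have hac : a ≠ c := aac.ne
  have had : a ≠ d := aad.ne
  have hoc : o ≠ c := aoc.ne
  have hod : o ≠ d := aod.ne
  obtain ⟨Z3, hZ3, hZ3e⟩ := trace hTRC hz hab.symm hbo hbc h0c hcc
  obtain ⟨Z4, hZ4, hZ4e⟩ := trace hTRC hz hab.symm hbo hbd h0d hcd'
  obtain ⟨hz1, hv1⟩ := addtor hVKA hKUR hr hz {a, o, c} (tri_mem aao aoc aac)
    (fun e v he hv => tri_supp e v he hv) hZ3
  obtain ⟨hz2, hv2⟩ := addtor hVKA hKUR hr hz1 {a, o, d} (tri_mem aao aod aad)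
    (fun e v he hv => tri_supp e v he hv) hZ4
  set z2 : Sym2 α → Sym2 α → ZMod 2 := fun e f => z e f + tor (tri a o c) Z3 e f +
    tor (tri a o d) Z4 e f with hz2def
  have hxZ3 : ∀ w, Z3 s(a, w) = 0 := by
    intro w
    by_contra h
    exact notMem_of_mem_del ((mem_Z1.1 hZ3).1 _ h) (Sym2.mem_mk_left a w) (by simp)
  have hxZ4 : ∀ w, Z4 s(a, w) = 0 := by
    intro w
    by_contra h
    exact notMem_of_mem_del ((mem_Z1.1 hZ4).1 _ h) (Sym2.mem_mk_left a w) (by simp)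
  have t33 : tri a o c s(a, c) = 1 := by
    unfold tri; rw [chi_of_mem]; simp
  have t44 : tri a o d s(a, d) = 1 := by
    unfold tri; rw [chi_of_mem]; simp
  have t34 : tri a o c s(a, d) = 0 := by
    unfold tri; rw [chi_of_notMem]
    simp only [mem_insert, mem_singleton, Sym2.eq_iff, not_or, not_and]
    exact ⟨⟨fun _ h => hod h.symm, fun h _ => hao h⟩, ⟨fun h _ => hao h, fun h _ => hac h⟩,
      fun _ h => hcd h.symm, fun h _ => hac h⟩
  have t43 : tri a o d s(a, c) = 0 := by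
    unfold tri; rw [chi_of_notMem]
    simp only [mem_insert, mem_singleton, Sym2.eq_iff, not_or, not_and]
    exact ⟨⟨fun _ h => hoc h.symm, fun h _ => hao h⟩, ⟨fun h _ => hao h, fun h _ => had h⟩,
      fun _ h => hcd h, fun h _ => had h⟩
  have k3 : ∀ f, b ∈ f → z2 s(a, c) f = 0 := by
    intro f hf
    simp only [hz2def, tor, t33, t43, hxZ3, hxZ4, hZ3e f hf]
    ring_nf
    rw [show (2 : ZMod 2) = 0 from rfl, mul_zero]
  have k4 : ∀ f, b ∈ f → z2 s(a, d) f = 0 := by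
    intro f hf
    simp only [hz2def, tor, t34, t44, hxZ3, hxZ4, hZ4e f hf]
    ring_nf
    rw [show (2 : ZMod 2) = 0 from rfl, mul_zero]
  have hzab : Zab a b z2 := by
    intro e f hxe h2f hne hnf
    by_contra h0
    obtain ⟨he, hf, hdj⟩ := hz2.2.1 e f h0
    obtain ⟨w, rfl, hw⟩ := vs_adj he hxe
    rcases hN w hw with rfl | rfl | rfl | rfl
    · have hxf : a ∉ f := fun h => hdj a ⟨hxe, h⟩
      have hb := hz2.2.2 f a hxf
      rw [sum_eq_single s(a, w)] at hb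
      · exact h0 (by rw [hz2.1]; exact hb)
      · intro g hg hgne
        rw [mem_filter] at hg
        by_contra hg0
        obtain ⟨-, hgG, hfg⟩ := hz2.2.1 f g hg0
        obtain ⟨w', rfl, hw'⟩ := vs_adj hgG hg.2
        rcases hN w' hw' with rfl | rfl | rfl | rfl
        · exact hgne rfl
        · exact hfg w' ⟨h2f, by simp⟩
        · exact hg0 (by rw [hz2.1]; exact k3 f h2f)
        · exact hg0 (by rw [hz2.1]; exact k4 f h2f)
      · intro h
        exact absurd (mem_filter.2 ⟨mem_univ _, by simp⟩) h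
    · exact hne rfl
    · exact h0 (k3 f h2f)
    · exact h0 (k4 f h2f)
  refine (hNPC.down (r := r) hr hz2 ?_ aab hzab).1
  rw [hv2, hv1]; exact hv

/-- the rows of a torus -/
theorem tor_vk (hVKA : SpecVKA) (hKUR : SpecKUR) {G : SimpleGraph α} {m t Z : Chain α} {a b : α}
    (hm : ∀ r : α → ℕ, Function.Injective r → ∀ z, IsZ2 G z → vk r z = pr m (z s(a, b)))
    (P : Finset α) (ht : t ∈ Z1 G) (htP : ∀ e v, t e ≠ 0 → v ∈ e → v ∈ P) (hZ : Z ∈ Z1 (del G P)) :
    pr m (fun f => t s(a, b) * Z f + Z s(a, b) * t f) = 0 := by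
  have hZG : Z ∈ Z1 G := Z1_mono (del_le G P) hZ
  have hZQ : ∀ e v, Z e ≠ 0 → v ∈ e → v ∈ (univ \ P : Finset α) := by
    intro e v he hv
    rw [mem_sdiff]
    exact ⟨mem_univ _, notMem_of_mem_del ((mem_Z1.1 hZ).1 e he) hv⟩
  have hd : Disjoint P (univ \ P) := disjoint_sdiff
  obtain ⟨r, hr⟩ : ∃ r : α → ℕ, Function.Injective r :=
    ⟨fun a => (Fintype.equivFin α a : ℕ), fun _ _ h => (Fintype.equivFin α).injective (Fin.ext h)⟩
  have h1 := hm r hr _ (hKUR.tor P (univ \ P) ht hZG htP hZQ hd)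
  have h2 := hVKA.tor (r := r) P (univ \ P) hr ht hZG htP hZQ hd
  unfold tor at h2
  rw [h2] at h1
  exact h1.symm

variable {G : SimpleGraph α} {x y s₁ s₂ s₃ s₄ : α}

theorem degree (hG : K48 G) {v p q t : α} (hv : v ∈ VS G)
    (h : ∀ w, G.Adj v w → w = p ∨ w = q ∨ w = t) : False := by
  have h1 := hG.1.le_nbs hv
  have h2 : nbs G v ⊆ {p, q, t} := by
    intro w hw
    simp only [mem_insert, mem_singleton]
    exact h w (mem_nbs.1 hw)
  have h3 := card_le_card h2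
  have h4 : ({p, q, t} : Finset α).card ≤ 3 := card_le_three
  omega

/-- `s₁s₂` is no bridge of `H - s_j` -/
theorem no_bridge (hG : K48 G) (h : P33 G x y s₁ s₂ s₃ s₄) :
    (delE (del G {x, y, s₃}) s₁ s₂).Reachable s₁ s₂ := by
  classical
  by_contra hn
  have d := ds h
  obtain ⟨K, hK⟩ : ∃ K, K = delE (del G {x, y, s₃}) s₁ s₂ := ⟨_, rfl⟩
  rw [← hK] at hn
  obtain ⟨P, hP⟩ : ∃ P : Finset α, P = univ.filter fun v => K.Reachable s₁ v := ⟨_, rfl⟩
  have mP : ∀ v, v ∈ P ↔ K.Reachable s₁ v := by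
    intro v
    rw [hP, mem_filter]
    exact ⟨fun h => h.2, fun h => ⟨mem_univ _, h⟩⟩
  have h1P : s₁ ∈ P := (mP s₁).2 (Reachable.refl _)
  have h2P : s₂ ∉ P := fun h => hn ((mP s₂).1 h)
  have step : ∀ u w, u ∈ P → G.Adj u w → w ≠ x → w ≠ y → w ≠ s₃ → u ≠ x → u ≠ y → u ≠ s₃ →
      s(u, w) ≠ s(s₁, s₂) → w ∈ P := by
    intro u w hu huw hwx hwy hw3 hux huy hu3 hne
    rw [mP] at hu ⊢
    refine hu.trans (Adj.reachable ?_)
    rw [hK, delE_adj, del_adj]
    refine ⟨⟨huw, ?_, ?_⟩, hne⟩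
    · simp only [mem_insert, mem_singleton, not_or]
      exact ⟨hux, huy, hu3⟩
    · simp only [mem_insert, mem_singleton, not_or]
      exact ⟨hwx, hwy, hw3⟩
  have hPn : ∀ v ∈ P, v ∉ ({x, y, s₃} : Finset α) := by
    intro v hv
    rw [mP] at hv
    have hv' : (del G {x, y, s₃}).Reachable s₁ v := hv.mono (by rw [hK]; exact delE_le _ _ _)
    refine reachable_del_notMem_right hv' ?_
    simp only [mem_insert, mem_singleton, not_or]
    exact ⟨d.x1.symm, d.y1.symm, d.s13⟩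
  have hPx : x ∉ P := fun hv => hPn x hv (by simp)
  have hPy : y ∉ P := fun hv => hPn y hv (by simp)
  have hP3 : s₃ ∉ P := fun hv => hPn s₃ hv (by simp)
  have hPV : P ⊆ VS G := by
    intro v hv
    by_cases h1 : v = s₁
    · rw [h1]
      exact vsub h (by simp)
    · rw [mP] at hv
      obtain ⟨w, hw⟩ := exists_adj_of_reachable hv.symm h1
      have : G.Adj v w := by
        rw [hK, delE_adj, del_adj] at hw
        exact hw.1.1
      exact left_mem_VS this
  by_cases h4 : s₄ ∈ P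
  · -- the side of `s₂`
    obtain ⟨Q, hQ⟩ : ∃ Q : Finset α, Q = (VS G \ {x, y, s₃, s₂}) \ P := ⟨_, rfl⟩
    have mQ : ∀ v, v ∈ Q ↔ (v ∈ VS G ∧ ¬ (v = x ∨ v = y ∨ v = s₃ ∨ v = s₂)) ∧ v ∉ P := by
      intro v
      rw [hQ]
      simp only [mem_sdiff, mem_insert, mem_singleton]
    have hQe : Q = ∅ := by
      by_contra hne
      refine few (D := Q) (W := {s₂, s₃}) (r := s₁) hG.1 (fun v hv => ((mQ v).1 hv).1.1)
        (nonempty_iff_ne_empty.2 hne) ?_ ?_ (vsub h (by simp)) ?_ ?_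
      · rintro w hw ⟨a, ha, haw⟩
        rw [mQ] at ha
        obtain ⟨⟨haV, ha4⟩, haP⟩ := ha
        simp only [not_or] at ha4
        obtain ⟨hax, hay, ha3, ha2⟩ := ha4
        have ha1 : a ≠ s₁ := by rintro rfl; exact haP h1P
        have ha4' : a ≠ s₄ := by rintro rfl; exact haP h4
        simp only [mem_insert, mem_singleton]
        by_contra hw'
        rw [not_or] at hw'
        have hwx : w ≠ x := by
          rintro rfl
          rcases (h.nx a).1 haw.symm with h5 | h5 | h5 | h5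
          · exact hay h5
          · exact ha2 h5
          · exact ha3 h5
          · exact ha4' h5
        have hwy : w ≠ y := by
          rintro rfl
          rcases (h.ny a).1 haw.symm with h5 | h5 | h5 | h5
          · exact hax h5
          · exact ha1 h5
          · exact ha3 h5
          · exact ha4' h5
        have hwP : w ∈ P := by
          by_contra hwP
          refine hw ((mQ w).2 ⟨⟨right_mem_VS haw, ?_⟩, hwP⟩)
          simp only [not_or]
          exact ⟨hwx, hwy, hw'.2, hw'.1⟩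
        refine haP (step w a hwP haw.symm hax hay ha3 hwx hwy hw'.2 ?_)
        rw [Ne, Sym2.eq_iff, not_or]
        exact ⟨fun h6 => ha2 h6.2, fun h6 => ha1 h6.2⟩
      · exact (card_le_two).trans (by norm_num)
      · intro h5
        exact ((mQ s₁).1 h5).2 h1P
      · simp only [mem_insert, mem_singleton, not_or]
        exact ⟨d.s12, d.s13⟩
    refine degree hG (v := s₂) (p := x) (q := s₁) (t := s₃) (vsub h (by simp)) ?_
    intro w hw
    by_contra hw'
    simp only [not_or] at hw'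
    have hwy : w ≠ y := by
      rintro rfl
      rcases (h.ny s₂).1 hw.symm with h5 | h5 | h5 | h5
      · exact d.x2 h5.symm
      · exact d.s12 h5.symm
      · exact d.s23 h5
      · exact d.s24 h5
    have hwP : w ∈ P := by
      by_contra hwP
      have : w ∈ Q := by
        rw [mQ]
        refine ⟨⟨right_mem_VS hw, ?_⟩, hwP⟩
        simp only [not_or]
        exact ⟨hw'.1, hwy, hw'.2.2, hw.ne'⟩
      rw [hQe] at this
      exact notMem_empty _ this
    refine h2P (step w s₂ hwP hw.symm d.x2.symm d.y2.symm d.s23 hw'.1 hwy hw'.2.2 ?_)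
    rw [Ne, Sym2.eq_iff, not_or]
    exact ⟨fun h6 => hw'.2.1 h6.1, fun h6 => d.s12 h6.2.symm⟩
  · -- the side of `s₁`
    have hPe : P.erase s₁ = ∅ := by
      by_contra hne
      refine few (D := P.erase s₁) (W := {s₁, s₃}) (r := s₂) hG.1
        ((erase_subset _ _).trans hPV) (nonempty_iff_ne_empty.2 hne) ?_ ?_ (vsub h (by simp)) ?_ ?_
      · rintro w hw ⟨a, ha, haw⟩
        rw [mem_erase] at ha
        obtain ⟨ha1, haP⟩ := ha
        have hax : a ≠ x := by rintro rfl; exact hPx haP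
        have hay : a ≠ y := by rintro rfl; exact hPy haP
        have ha3 : a ≠ s₃ := by rintro rfl; exact hP3 haP
        have ha4 : a ≠ s₄ := by rintro rfl; exact h4 haP
        have ha2 : a ≠ s₂ := by rintro rfl; exact h2P haP
        simp only [mem_insert, mem_singleton]
        by_contra hw'
        rw [not_or] at hw'
        have hwx : w ≠ x := by
          rintro rfl
          rcases (h.nx a).1 haw.symm with h5 | h5 | h5 | h5
          · exact hay h5
          · exact ha2 h5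
          · exact ha3 h5
          · exact ha4 h5
        have hwy : w ≠ y := by
          rintro rfl
          rcases (h.ny a).1 haw.symm with h5 | h5 | h5 | h5
          · exact hax h5
          · exact ha1 h5
          · exact ha3 h5
          · exact ha4 h5
        refine hw (mem_erase.2 ⟨hw'.1, step a w haP haw hwx hwy hw'.2 hax hay ha3 ?_⟩)
        rw [Ne, Sym2.eq_iff, not_or]
        exact ⟨fun h6 => ha1 h6.1, fun h6 => hw'.1 h6.2⟩
      · exact (card_le_two).trans (by norm_num)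
      · intro h5
        exact h2P (mem_of_mem_erase h5)
      · simp only [mem_insert, mem_singleton, not_or]
        exact ⟨d.s12.symm, d.s23⟩
    refine degree hG (v := s₁) (p := y) (q := s₂) (t := s₃) (vsub h (by simp)) ?_
    intro w hw
    by_contra hw'
    simp only [not_or] at hw'
    have hwx : w ≠ x := by
      rintro rfl
      rcases (h.nx s₁).1 hw.symm with h5 | h5 | h5 | h5
      · exact d.y1 h5.symm
      · exact d.s12 h5
      · exact d.s13 h5
      · exact d.s14 h5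
    have hwP : w ∈ P := by
      refine step s₁ w h1P hw hwx hw'.1 hw'.2.2 d.x1.symm d.y1.symm d.s13 ?_
      rw [Ne, Sym2.eq_iff, not_or]
      exact ⟨fun h6 => hw'.2.1 h6.2, fun h6 => d.s12 h6.1⟩
    have : w ∈ P.erase s₁ := mem_erase.2 ⟨hw.ne', hwP⟩
    rw [hPe] at this
    exact notMem_empty _ this

/-- a cycle through `s₁s₂` which avoids `x, y, s₃` -/
theorem cycle (hG : K48 G) (h : P33 G x y s₁ s₂ s₃ s₄) (h12 : G.Adj s₁ s₂) :
    ∃ Z ∈ Z1 (del G {x, y, s₃}), Z s(s₁, s₂) = 1 := by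
  have d := ds h
  obtain ⟨P, hP⟩ := exists_isPth (no_bridge hG h)
  have hne : s(s₁, s₂) ∉ P := by
    intro h1
    have := hP.adj_of_mem h1
    rw [delE_adj] at this
    exact this.2 rfl
  have hP' : IsPth (del G {x, y, s₃}) s₁ s₂ P := hP.mono (delE_le _ _ _)
  have hadj : (del G {x, y, s₃}).Adj s₁ s₂ := by
    rw [del_adj]
    refine ⟨h12, ?_, ?_⟩
    · simp only [mem_insert, mem_singleton, not_or]
      exact ⟨d.x1.symm, d.y1.symm, d.s13⟩
    · simp only [mem_insert, mem_singleton, not_or]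
      exact ⟨d.x2.symm, d.y2.symm, d.s23⟩
  have hC := hP'.isCyc hadj hne
  exact ⟨_, hC.chi_mem, chi_of_mem (mem_insert_self _ _)⟩

theorem pr_tri (hVKA : SpecVKA) (hKUR : SpecKUR) {m : Chain α} (hG : K48 G)
    (h : P33 G x y s₁ s₂ s₃ s₄) (h12 : G.Adj s₁ s₂)
    (hm : ∀ r : α → ℕ, Function.Injective r → ∀ z, IsZ2 G z → vk r z = pr m (z s(s₁, s₂))) :
    pr m (tri x y s₃) = 0 := by
  have d := ds h
  obtain ⟨Z, hZ, hZ1⟩ := cycle hG h h12
  have h1 := tor_vk hVKA hKUR hm {x, y, s₃} (tri_mem (axy h) (ay3 h) (ax3 h))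
    (fun e v he hv => tri_supp e v he hv) hZ
  have h2 : tri x y s₃ s(s₁, s₂) = 0 := by
    unfold tri; rw [chi_of_notMem]
    simp only [mem_insert, mem_singleton, Sym2.eq_iff, not_or, not_and]
    exact ⟨⟨fun h _ => d.x1 h.symm, fun h _ => d.y1 h.symm⟩,
      ⟨fun h _ => d.y1 h.symm, fun h _ => d.s13 h⟩,
      fun h _ => d.x1 h.symm, fun h _ => d.s13 h⟩
  rw [h2, hZ1] at h1
  have h3 : (fun f => 0 * Z f + 1 * tri x y s₃ f) = tri x y s₃ := by
    funext f
    rw [zero_mul, zero_add, one_mul]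
  rw [h3] at h1
  exact h1

/-- the 4-cycle -/
theorem four (h : P33 G x y s₁ s₂ s₃ s₄) (h12 : G.Adj s₁ s₂) :
    ∃ t ∈ Z1 G, t s(s₁, s₂) = 1 ∧ ∀ e v, t e ≠ 0 → v ∈ e → v ∈ ({x, y, s₁, s₂} : Finset α) := by
  have d := ds h
  have p1 : IsPth G x s₂ (insert s(x, y) (insert s(y, s₁) {s(s₁, s₂)})) := by
    have q1 : IsPth G y s₂ (insert s(y, s₁) {s(s₁, s₂)}) := by
      refine (IsPth.edge h12).cons (ay1 h) ?_
      rw [vs_singleton]
      simp [d.y1, d.y2]
    refine q1.cons (axy h) ?_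
    rw [vs_insert, vs_singleton]
    simp [d.xy, d.x1, d.x2]
  have hne : s(x, s₂) ∉ (insert s(x, y) (insert s(y, s₁) {s(s₁, s₂)}) : Finset (Sym2 α)) := by
    simp only [mem_insert, mem_singleton, Sym2.eq_iff, not_or, not_and]
    exact ⟨⟨fun _ h => d.y2 h.symm, fun h _ => d.xy h⟩, ⟨fun h _ => d.xy h, fun h _ => d.x1 h⟩,
      fun h _ => d.x1 h, fun h _ => d.x2 h⟩
  have hC := p1.isCyc (ax2 h) hne
  refine ⟨_, hC.chi_mem, chi_of_mem (by simp), ?_⟩
  intro e v he hv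
  rw [chi_ne_zero] at he
  simp only [mem_insert, mem_singleton] at he ⊢
  rcases he with rfl | rfl | rfl | rfl <;> rw [Sym2.mem_iff] at hv <;> tauto

end DL.MP1M

namespace DL

open C20M MP1M in
theorem specMP1 (hVKA : SpecVKA) (hKUR : SpecKUR) (hNPC : SpecNPC) (hTRC : SpecTRC)
    (hF1N : SpecF1N) (hFRM : SpecFRM) (hC20 : SpecC20) : SpecMP1 := by
  intro α _ _ G x y s₁ s₂ s₃ s₄ hK h hNP hM
  have d := ds h
  obtain ⟨G₁, hG₁⟩ : ∃ G₁, G₁ = contr G x s₂ := ⟨_, rfl⟩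
  have hG₁NP : NP G₁ := by rw [hG₁]; exact (hF1N hK h hNP).1
  have adj1 : ∀ u w, G₁.Adj u w ↔ u ≠ s₂ ∧ w ≠ s₂ ∧ u ≠ w ∧
      (G.Adj u w ∨ (u = x ∧ G.Adj s₂ w) ∨ (w = x ∧ G.Adj u s₂)) := by
    intro u w
    rw [hG₁, contr_adj]
  have nay2 : ¬ G.Adj y s₂ := by
    rw [h.ny]
    rintro (h' | h' | h' | h')
    · exact d.x2 h'.symm
    · exact d.s12 h'.symm
    · exact d.s23 h'
    · exact d.s24 h'
  have nax1 : ¬ G.Adj x s₁ := by
    rw [h.nx]
    rintro (h' | h' | h' | h')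
    · exact d.y1 h'.symm
    · exact d.s12 h'
    · exact d.s13 h'
    · exact d.s14 h'
  have up1 : ∀ u w, u ≠ s₂ → w ≠ s₂ → G.Adj u w → G₁.Adj u w := by
    intro u w hu hw huw
    rw [adj1]
    exact ⟨hu, hw, huw.ne, Or.inl huw⟩
  -- connectivity of `G₁` without `{s₁, y, x, s_j}`
  have conn1 : ∀ s, ConnOff G {x, y, s₁, s₂, s} → ConnOff G₁ {s₁, y, x, s} := by
    intro s hs a ha b hb haS hbS
    have sub : VS G₁ ⊆ (VS G).erase s₂ := by
      rw [hG₁]
      exact VS_contr_subset _ _ (vsub h (by simp))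
    have ha' := mem_erase.1 (sub ha)
    have hb' := mem_erase.1 (sub hb)
    simp only [mem_insert, mem_singleton, not_or] at haS hbS
    have := hs a ha'.2 b hb'.2 (by
      simp only [mem_insert, mem_singleton, not_or]
      exact ⟨haS.2.2.1, haS.2.1, haS.1, ha'.1, haS.2.2.2⟩) (by
      simp only [mem_insert, mem_singleton, not_or]
      exact ⟨hbS.2.2.1, hbS.2.1, hbS.1, hb'.1, hbS.2.2.2⟩)
    refine this.mono ?_
    intro u w huw
    rw [del_adj] at huw
    simp only [mem_insert, mem_singleton, not_or] at huw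
    rw [del_adj]
    simp only [mem_insert, mem_singleton, not_or]
    exact ⟨up1 u w huw.2.1.2.2.2.1 huw.2.2.2.2.2.1 huw.1,
      ⟨huw.2.1.2.2.1, huw.2.1.2.1, huw.2.1.1, huw.2.1.2.2.2.2⟩,
      ⟨huw.2.2.2.2.1, huw.2.2.2.1, huw.2.2.1, huw.2.2.2.2.2.2⟩⟩
  have step1 : ∀ r : α → ℕ, Function.Injective r → ∀ z, IsZ2 G₁ z → vk r z ≠ 0 →
      z s(y, s₃) s(s₁, x) ≠ 0 := by
    intro r hr z hz hv h0
    have h04 : z s(y, s₄) s(s₁, x) = 0 := by
      by_contra h04
      have hb := hz.2.2 s(s₁, x) y (by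
        rw [Sym2.mem_iff]
        rintro (h' | h')
        · exact d.y1 h'
        · exact d.xy h'.symm)
      rw [sum_eq_single s(y, s₄)] at hb
      · exact h04 (by rw [hz.1]; exact hb)
      · intro g hg hgne
        rw [mem_filter] at hg
        by_contra hg0
        obtain ⟨-, hgG, hfg⟩ := hz.2.1 _ g hg0
        obtain ⟨w', rfl, hw'⟩ := F1NM.vs_adj hgG hg.2
        rw [adj1] at hw'
        rcases hw'.2.2.2 with h' | h' | h'
        · rcases (h.ny w').1 h' with rfl | rfl | rfl | rfl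
          · exact hfg w' ⟨by simp, by simp⟩
          · exact hfg w' ⟨by simp, by simp⟩
          · exact hg0 (by rw [hz.1]; exact h0)
          · exact hgne rfl
        · exact d.xy h'.1.symm
        · exact nay2 h'.2
      · intro h'
        exact absurd (mem_filter.2 ⟨mem_univ _, by simp⟩) h'
    apply hM
    rw [← hG₁]
    refine kill hVKA hKUR hNPC hTRC hr hz hv (a := y) (o := x) (b := s₁) (c := s₃) (d := s₄)
      ?_ (up1 _ _ d.y2 d.x2 (axy h).symm) (up1 _ _ d.y2 d.s12 (ay1 h))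
      (up1 _ _ d.y2 d.s23.symm (ay3 h)) (up1 _ _ d.y2 d.s24.symm (ay4 h))
      (up1 _ _ d.x2 d.s23.symm (ax3 h)) (up1 _ _ d.x2 d.s24.symm (ax4 h))
      d.x1.symm d.s13 d.s14 d.s34 h0 h04
      (conn1 s₃ (hC20.three hK h).1) (conn1 s₄ (hC20.three hK h).2.1)
    intro w hw
    rw [adj1] at hw
    rcases hw.2.2.2 with h' | h' | h'
    · exact (h.ny w).1 h'
    · exact absurd h'.1.symm d.xy
    · exact absurd h'.2 nay2
  have h12 : G.Adj s₁ s₂ := by
    obtain ⟨r, hr, z, hz, hv⟩ := hG₁NP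
    have h1 := step1 r hr z hz hv
    obtain ⟨-, h2, -⟩ := hz.2.1 _ _ h1
    rw [mem_edgeSet, adj1] at h2
    rcases h2.2.2.2 with h' | h' | h'
    · exact absurd h'.symm nax1
    · exact absurd h'.1.symm d.x1
    · exact h'.2
  have hE1 : ¬ NP (delE G₁ x s₁) := by
    rintro ⟨r, hr, z, hz, hv⟩
    have h1 := step1 r hr z (hKUR.zmono (delE_le _ _ _) hz) hv
    obtain ⟨-, h2, -⟩ := hz.2.1 _ _ h1
    rw [mem_edgeSet, delE_adj] at h2
    exact h2.2 Sym2.eq_swap
  -- `G - s₁s₂` is planar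
  have hL : ¬ NP (delE G s₁ s₂) := by
    rintro ⟨r, hr, z, hz, hv⟩
    obtain ⟨L, hLdef⟩ : ∃ L, L = delE G s₁ s₂ := ⟨_, rfl⟩
    rw [← hLdef] at hz
    have adjL : ∀ u w, L.Adj u w ↔ G.Adj u w ∧ s(u, w) ≠ s(s₁, s₂) := by
      intro u w
      rw [hLdef, delE_adj]
    have hLG : L ≤ G := by rw [hLdef]; exact delE_le _ _ _
    have connL : ∀ s, ConnOff G {x, y, s₂, s} → ConnOff L {s₂, x, y, s} := by
      intro s hs a ha b hb haS hbS
      simp only [mem_insert, mem_singleton, not_or] at haS hbS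
      have := hs a (VS_mono hLG ha) b (VS_mono hLG hb) (by
        simp only [mem_insert, mem_singleton, not_or]
        exact ⟨haS.2.1, haS.2.2.1, haS.1, haS.2.2.2⟩) (by
        simp only [mem_insert, mem_singleton, not_or]
        exact ⟨hbS.2.1, hbS.2.2.1, hbS.1, hbS.2.2.2⟩)
      refine this.mono ?_
      intro u w huw
      rw [del_adj] at huw
      simp only [mem_insert, mem_singleton, not_or] at huw
      rw [del_adj]
      simp only [mem_insert, mem_singleton, not_or]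
      refine ⟨(adjL u w).2 ⟨huw.1, ?_⟩,
        ⟨huw.2.1.2.2.1, huw.2.1.1, huw.2.1.2.1, huw.2.1.2.2.2⟩,
        ⟨huw.2.2.2.2.1, huw.2.2.1, huw.2.2.2.1, huw.2.2.2.2.2⟩⟩
      rw [Ne, Sym2.eq_iff, not_or]
      exact ⟨fun h6 => huw.2.2.2.2.1 h6.2, fun h6 => huw.2.1.2.2.1 h6.1⟩
    have upL : ∀ u w, G.Adj u w → (u = x ∨ u = y) → L.Adj u w := by
      intro u w huw hu
      rw [adjL]
      refine ⟨huw, ?_⟩
      rw [Ne, Sym2.eq_iff, not_or]
      rcases hu with rfl | rfl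
      · exact ⟨fun h6 => d.x1 h6.1, fun h6 => d.x2 h6.1⟩
      · exact ⟨fun h6 => d.y1 h6.1, fun h6 => d.y2 h6.1⟩
    have hz0 : ∀ e, z e s(s₂, y) = 0 := by
      intro e
      by_contra h0
      obtain ⟨-, h2, -⟩ := hz.2.1 _ _ h0
      rw [mem_edgeSet] at h2
      exact nay2 (hLG h2).symm
    have hk : NP (contr L x s₂) := by
      refine kill hVKA hKUR hNPC hTRC hr hz hv (a := x) (o := y) (b := s₂) (c := s₃) (d := s₄)
        (fun w hw => (h.nx w).1 (hLG hw)) (upL _ _ (axy h) (Or.inl rfl))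
        (upL _ _ (ax2 h) (Or.inl rfl)) (upL _ _ (ax3 h) (Or.inl rfl)) (upL _ _ (ax4 h) (Or.inl rfl))
        (upL _ _ (ay3 h) (Or.inr rfl)) (upL _ _ (ay4 h) (Or.inr rfl)) d.y2.symm d.s23 d.s24 d.s34
        (hz0 _) (hz0 _) (connL s₃ (hC20.two hK h).2.2.2.2.1) (connL s₄ (hC20.two hK h).2.2.2.2.2)
    refine hE1 (hNPC.mono ?_ hk)
    intro u w huw
    rw [contr_adj] at huw
    rw [delE_adj, adj1]
    refine ⟨⟨huw.1, huw.2.1, huw.2.2.1, ?_⟩, ?_⟩
    · rcases huw.2.2.2 with h' | h' | h'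
      · exact Or.inl (hLG h')
      · exact Or.inr (Or.inl ⟨h'.1, hLG h'.2⟩)
      · exact Or.inr (Or.inr ⟨h'.1, hLG h'.2⟩)
    · rw [Ne, Sym2.eq_iff, not_or]
      constructor
      · rintro ⟨rfl, rfl⟩
        rcases huw.2.2.2 with h' | h' | h'
        · exact nax1 (hLG h')
        · rw [adjL] at h'
          exact h'.2.2 Sym2.eq_swap
        · exact d.x1 h'.1.symm
      · rintro ⟨rfl, rfl⟩
        rcases huw.2.2.2 with h' | h' | h'
        · exact nax1 (hLG h').symm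
        · exact d.x1 h'.1.symm
        · rw [adjL] at h'
          exact h'.2.2 rfl
  obtain ⟨m, hm⟩ := hFRM.edg hL
  refine ⟨h12, m, hm, ?_, pr_tri hVKA hKUR hK h h12 hm, pr_tri hVKA hKUR hK (swap' h) h12 hm⟩
  intro Z hZ
  obtain ⟨t, ht, ht1, htP⟩ := four h h12
  have h1 := tor_vk hVKA hKUR hm {x, y, s₁, s₂} ht htP hZ
  have h2 : Z s(s₁, s₂) = 0 := by
    by_contra h0
    exact F1NM.notMem_of_mem_del ((mem_Z1.1 hZ).1 _ h0) (Sym2.mem_mk_left s₁ s₂) (by simp)
  rw [ht1, h2] at h1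
  have h3 : (fun f => 1 * Z f + 0 * t f) = Z := by
    funext f
    rw [zero_mul, add_zero, one_mul]
  rw [h3] at h1
  exact h1

end DL
end

section
set_option autoImplicit false
set_option linter.unusedSectionVars false
set_option linter.unusedSimpArgs false

/-!
# MP2: (3,3)-pair, `M` planar
-/

open SimpleGraph Finset

namespace DL

namespace MP2M

open C20M

variable {α : Type} [Fintype α] [DecidableEq α] {G : SimpleGraph α} {x y s₁ s₂ s₃ s₄ : α}

lemma pr_add (m c d : Chain α) : pr m (c + d) = pr m c + pr m d := by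
  simp only [pr, Pi.add_apply, mul_add, sum_add_distrib]

lemma pr_smul (m c : Chain α) (r : ZMod 2) : pr m (r • c) = r * pr m c := by
  simp only [pr, Pi.smul_apply, smul_eq_mul, mul_sum]
  exact sum_congr rfl fun e _ => by ring

/-- the cycle `v s₃ P s₄ v` -/
def cy (s₃ s₄ v : α) (P : Finset (Sym2 α)) : Finset (Sym2 α) := insert s(v, s₃) (insert s(v, s₄) P)

lemma n4 {v : α} {a b c d : α} : v ∉ ({a, b, c, d} : Finset α) ↔ v ≠ a ∧ v ≠ b ∧ v ≠ c ∧ v ≠ d := by
  simp only [mem_insert, mem_singleton, not_or]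

lemma n2 {v : α} {a b : α} : v ∉ ({a, b} : Finset α) ↔ v ≠ a ∧ v ≠ b := by
  simp only [mem_insert, mem_singleton, not_or]

/-- no edge of `P` at a deleted vertex -/
lemma not_at {S : Finset α} {s t v : α} {P : Finset (Sym2 α)} (hP : IsPth (del G S) s t P)
    (hv : v ∈ S) {e : Sym2 α} (he : v ∈ e) : e ∉ P := fun h =>
  Finset.disjoint_left.1 (isPth_del.1 hP).2 (mem_vs.2 ⟨e, h, he⟩) hv

lemma cyCyc {v : α} (hv3 : G.Adj v s₃) (hv4 : G.Adj v s₄) (h34 : s₃ ≠ s₄) (hvS : v = x ∨ v = y)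
    {P : Finset (Sym2 α)} (hP : IsPth (del G {x, y, s₁, s₂}) s₃ s₄ P) : IsCyc G (cy s₃ s₄ v P) := by
  refine isCyc_of_isPth_del hv3 hv4 h34 (hP.mono ?_)
  intro a b hab
  refine ⟨hab.1, ?_, ?_⟩
  · have := n4.1 hab.2.1
    rw [mem_singleton]
    rcases hvS with rfl | rfl <;> tauto
  · have := n4.1 hab.2.2
    rw [mem_singleton]
    rcases hvS with rfl | rfl <;> tauto

/-- a cycle avoiding `s₁`, `s₂` -/
lemma cyc12 {C : Finset (Sym2 α)} (hC : IsCyc G C) (h : ∀ v ∈ vs C, v ≠ s₁ ∧ v ≠ s₂) :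
    chi C ∈ Z1 (del G {s₁, s₂}) := by
  refine IsCyc.chi_mem ?_
  rw [isCyc_del]
  refine ⟨hC, ?_⟩
  rw [Finset.disjoint_left]
  intro v hv hv'
  have := h v hv
  simp only [mem_insert, mem_singleton] at hv'
  rcases hv' with h1 | h1
  · exact this.1 h1
  · exact this.2 h1

lemma vs_cy {v : α} {P : Finset (Sym2 α)} : vs (cy s₃ s₄ v P) = {v, s₃} ∪ ({v, s₄} ∪ vs P) := by
  unfold cy
  rw [vs_insert, vs_insert]

lemma cy_mem {v : α} (hp : P33 G x y s₁ s₂ s₃ s₄) (hvS : v = x ∨ v = y) {P : Finset (Sym2 α)}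
    (hP : IsPth (del G {x, y, s₁, s₂}) s₃ s₄ P) : chi (cy s₃ s₄ v P) ∈ Z1 (del G {s₁, s₂}) := by
  have d := ds hp
  have hC : IsCyc G (cy s₃ s₄ v P) := by
    rcases hvS with h | h
    · subst h
      exact cyCyc (x := v) (y := y) (ax3 hp) (ax4 hp) d.s34 (Or.inl rfl) hP
    · subst h
      exact cyCyc (x := x) (y := v) (ay3 hp) (ay4 hp) d.s34 (Or.inr rfl) hP
  refine cyc12 hC fun w hw => ?_
  rw [vs_cy, mem_union, mem_union] at hw
  simp only [mem_insert, mem_singleton] at hw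
  have hv : v ≠ s₁ ∧ v ≠ s₂ := by
    rcases hvS with rfl | rfl
    · exact ⟨d.x1, d.x2⟩
    · exact ⟨d.y1, d.y2⟩
  rcases hw with (rfl | rfl) | (rfl | rfl) | hw
  · exact hv
  · exact ⟨d.s13.symm, d.s23.symm⟩
  · exact hv
  · exact ⟨d.s14.symm, d.s24.symm⟩
  · have := Finset.disjoint_left.1 (isPth_del.1 hP).2 hw
    have := n4.1 this
    exact ⟨this.2.2.1, this.2.2.2⟩

lemma triMem (hp : P33 G x y s₁ s₂ s₃ s₄) {s : α} (hs : s = s₃ ∨ s = s₄) :
    tri x y s ∈ Z1 (del G {s₁, s₂}) := by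
  have d := ds hp
  have hx : G.Adj x s := by
    rcases hs with rfl | rfl
    · exact ax3 hp
    · exact ax4 hp
  have hy : G.Adj y s := by
    rcases hs with rfl | rfl
    · exact ay3 hp
    · exact ay4 hp
  have hn : s ≠ s₁ ∧ s ≠ s₂ := by
    rcases hs with rfl | rfl
    · exact ⟨d.s13.symm, d.s23.symm⟩
    · exact ⟨d.s14.symm, d.s24.symm⟩
  refine F1NM.tri_mem ?_ ?_ ?_
  · exact ⟨axy hp, n2.2 ⟨d.x1, d.x2⟩, n2.2 ⟨d.y1, d.y2⟩⟩
  · exact ⟨hy, n2.2 ⟨d.y1, d.y2⟩, n2.2 hn⟩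
  · exact ⟨hx, n2.2 ⟨d.x1, d.x2⟩, n2.2 hn⟩

/-- boundary at a vertex with at most three neighbours -/
lemma bdy3 {c : Chain α} {v p q r : α} (hpq : p ≠ q) (hpr : p ≠ r) (hqr : q ≠ r)
    (h : ∀ w, c s(v, w) ≠ 0 → w = p ∨ w = q ∨ w = r) :
    bdy c v = c s(v, p) + c s(v, q) + c s(v, r) := by
  rw [K2GM.bdy_sum]
  rw [← Finset.sum_subset (Finset.subset_univ ({p, q, r} : Finset α))]
  · rw [sum_insert (by simp [hpq, hpr]), sum_insert (by simp [hqr]), sum_singleton]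
    ring
  · intro w _ hw
    by_contra h0
    apply hw
    simpa using h w h0

/-- **decomposition**: the functional on `Z1 (G - s₁ - s₂)` -/
lemma decomp (hp : P33 G x y s₁ s₂ s₃ s₄) {P : Finset (Sym2 α)}
    (hP : IsPth (del G {x, y, s₁, s₂}) s₃ s₄ P) {m : Chain α}
    (hm0 : ∀ Z ∈ Z1 (del G {x, y, s₁, s₂}), pr m Z = 0) (h3 : pr m (tri x y s₃) = 0)
    (h4 : pr m (tri x y s₄) = 0) {Z : Chain α} (hZ : Z ∈ Z1 (del G {s₁, s₂})) :
    pr m Z = (Z s(x, s₃) + Z s(y, s₃)) * pr m (chi (cy s₃ s₄ x P)) := by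
  have d := ds hp
  set W : Chain α := Z + (Z s(y, s₃) • tri x y s₃ + (Z s(y, s₄) • tri x y s₄ +
    (Z s(x, s₃) + Z s(y, s₃)) • chi (cy s₃ s₄ x P))) with hW
  have hWm : W ∈ Z1 (del G {s₁, s₂}) :=
    (Z1 _).add_mem hZ ((Z1 _).add_mem ((Z1 _).smul_mem _ (triMem hp (Or.inl rfl)))
      ((Z1 _).add_mem ((Z1 _).smul_mem _ (triMem hp (Or.inr rfl)))
        ((Z1 _).smul_mem _ (cy_mem hp (Or.inl rfl) hP))))
  have hPx : ∀ w, s(x, w) ∉ P := fun w => not_at hP (by simp) (Sym2.mem_mk_left x w)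
  have hPy : ∀ w, s(y, w) ∉ P := fun w => not_at hP (by simp) (Sym2.mem_mk_left y w)
  -- values
  have two : ∀ a : ZMod 2, a + a = 0 := zmod2_add_self
  have t3y3 : tri x y s₃ s(y, s₃) = 1 := chi_of_mem (by simp)
  have t3y4 : tri x y s₃ s(y, s₄) = 0 := chi_of_notMem (by
    simp [d.xy, d.xy.symm, d.y3, d.y4, d.s34, d.s34.symm, d.x4, d.x3,
      d.x3.symm, d.x4.symm])
  have t3x3 : tri x y s₃ s(x, s₃) = 1 := chi_of_mem (by simp)
  have t4y3 : tri x y s₄ s(y, s₃) = 0 := chi_of_notMem (by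
    simp [d.xy, d.xy.symm, d.y3, d.y4, d.s34, d.s34.symm, d.x4, d.x3,
      d.x3.symm, d.x4.symm])
  have t4y4 : tri x y s₄ s(y, s₄) = 1 := chi_of_mem (by simp)
  have t4x3 : tri x y s₄ s(x, s₃) = 0 := chi_of_notMem (by
    simp [d.xy, d.xy.symm, d.y3, d.y3.symm, d.y4, d.s34, d.s34.symm, d.x4, d.x3,
      d.x3.symm, d.x4.symm])
  have cy3 : chi (cy s₃ s₄ x P) s(y, s₃) = 0 := chi_of_notMem (by
    unfold cy
    simp [hPy, d.xy, d.xy.symm, d.y3, d.y4, d.s34, d.s34.symm, d.x4, d.x3,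
      d.x3.symm, d.x4.symm])
  have cy4 : chi (cy s₃ s₄ x P) s(y, s₄) = 0 := chi_of_notMem (by
    unfold cy
    simp [hPy, d.xy, d.xy.symm, d.y3, d.y4, d.s34, d.s34.symm, d.x4, d.x3,
      d.x3.symm, d.x4.symm])
  have cx3 : chi (cy s₃ s₄ x P) s(x, s₃) = 1 := chi_of_mem (by unfold cy; simp)
  have Wy3 : W s(y, s₃) = 0 := by
    simp only [hW, Pi.add_apply, Pi.smul_apply, smul_eq_mul, t3y3, t4y3, cy3, mul_one, mul_zero,
      add_zero]
    exact two _
  have Wy4 : W s(y, s₄) = 0 := by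
    simp only [hW, Pi.add_apply, Pi.smul_apply, smul_eq_mul, t3y4, t4y4, cy4, mul_one, mul_zero,
      add_zero, zero_add]
    exact two _
  have Wx3 : W s(x, s₃) = 0 := by
    simp only [hW, Pi.add_apply, Pi.smul_apply, smul_eq_mul, t3x3, t4x3, cx3, mul_one, mul_zero,
      zero_add]
    linear_combination two (Z s(x, s₃)) + two (Z s(y, s₃))
  have hWe : ∀ a b, W s(a, b) ≠ 0 → G.Adj a b ∧ b ≠ s₁ ∧ b ≠ s₂ := fun a b h => by
    have h1 : (del G {s₁, s₂}).Adj a b := hWm.1 _ h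
    exact ⟨h1.1, n2.1 h1.2.2⟩
  have Wyx : W s(y, x) = 0 := by
    have h1 := bdy3 (c := W) (v := y) (p := x) (q := s₃) (r := s₄) d.x3 d.x4 d.s34 (fun w hw => by
      obtain ⟨h1, h2, h3⟩ := hWe y w hw
      rcases (hp.ny w).1 h1 with h | h | h | h
      · exact Or.inl h
      · exact absurd h h2
      · exact Or.inr (Or.inl h)
      · exact Or.inr (Or.inr h))
    rw [hWm.2, Wy3, Wy4, add_zero, add_zero] at h1
    exact h1.symm
  have Wx4 : W s(x, s₄) = 0 := by
    have h1 := bdy3 (c := W) (v := x) (p := y) (q := s₃) (r := s₄) d.y3 d.y4 d.s34 (fun w hw => by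
      obtain ⟨h1, h2, h3⟩ := hWe x w hw
      rcases (hp.nx w).1 h1 with h | h | h | h
      · exact Or.inl h
      · exact absurd h h3
      · exact Or.inr (Or.inl h)
      · exact Or.inr (Or.inr h))
    rw [hWm.2, Wx3, Sym2.eq_swap (a := x) (b := y), Wyx, zero_add, zero_add] at h1
    exact h1.symm
  have Wy : ∀ w, W s(y, w) = 0 := by
    intro w
    by_contra hw
    obtain ⟨h1, h2, h3⟩ := hWe y w hw
    rcases (hp.ny w).1 h1 with h | h | h | h
    · exact hw (by rw [h]; exact Wyx)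
    · exact absurd h h2
    · exact hw (by rw [h]; exact Wy3)
    · exact hw (by rw [h]; exact Wy4)
  have Wx : ∀ w, W s(x, w) = 0 := by
    intro w
    by_contra hw
    obtain ⟨h1, h2, h3⟩ := hWe x w hw
    rcases (hp.nx w).1 h1 with h | h | h | h
    · exact hw (by rw [h, Sym2.eq_swap]; exact Wyx)
    · exact absurd h h3
    · exact hw (by rw [h]; exact Wx3)
    · exact hw (by rw [h]; exact Wx4)
  have hWm' : W ∈ Z1 (del G {x, y, s₁, s₂}) := by
    refine ⟨fun e he => ?_, hWm.2⟩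
    have h1 := hWm.1 e he
    induction e using Sym2.ind with
    | _ a b =>
      have h2 : (del G {s₁, s₂}).Adj a b := h1
      have h3 := n2.1 h2.2.1
      have h4 := n2.1 h2.2.2
      refine ⟨h2.1, n4.2 ⟨?_, ?_, h3⟩, n4.2 ⟨?_, ?_, h4⟩⟩
      · rintro rfl; exact he (Wx _)
      · rintro rfl; exact he (Wy _)
      · rintro rfl; exact he (by rw [Sym2.eq_swap]; exact Wx _)
      · rintro rfl; exact he (by rw [Sym2.eq_swap]; exact Wy _)
  have h5 := hm0 W hWm'
  rw [hW, pr_add, pr_add, pr_add, pr_smul, pr_smul, pr_smul, h3, h4, mul_zero, mul_zero, zero_add,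
    zero_add] at h5
  linear_combination h5 - two ((Z s(x, s₃) + Z s(y, s₃)) * pr m (chi (cy s₃ s₄ x P)))

/-- hypotheses on `m` -/
structure HM (G : SimpleGraph α) (x y s₁ s₂ s₃ s₄ : α) (m : Chain α) : Prop where
  vk : ∀ r : α → ℕ, Function.Injective r → ∀ z, IsZ2 G z → vk r z = pr m (z s(s₁, s₂))
  z : ∀ Z ∈ Z1 (del G {x, y, s₁, s₂}), pr m Z = 0
  t3 : pr m (tri x y s₃) = 0
  t4 : pr m (tri x y s₄) = 0

/-- the value on `x s₃ P s₄ x` -/
lemma val (hKUR : SpecKUR) (hp : P33 G x y s₁ s₂ s₃ s₄) (hN : NP G) {m : Chain α}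
    (hm : HM G x y s₁ s₂ s₃ s₄ m) {P : Finset (Sym2 α)}
    (hP : IsPth (del G {x, y, s₁, s₂}) s₃ s₄ P) : pr m (chi (cy s₃ s₄ x P)) = 1 := by
  obtain ⟨r, hr, z, hz, hv⟩ := hN
  rw [hm.vk r hr z hz, decomp hp hP hm.z hm.t3 hm.t4 (hKUR.row s₁ s₂ hz)] at hv
  rw [← zmod2_ne_zero]
  exact right_ne_zero_of_mul hv

lemma valy (hKUR : SpecKUR) (hp : P33 G x y s₁ s₂ s₃ s₄) (hN : NP G) {m : Chain α}
    (hm : HM G x y s₁ s₂ s₃ s₄ m) {P : Finset (Sym2 α)}
    (hP : IsPth (del G {x, y, s₁, s₂}) s₃ s₄ P) : pr m (chi (cy s₃ s₄ y P)) = 1 := by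
  have d := ds hp
  rw [decomp hp hP hm.z hm.t3 hm.t4 (cy_mem hp (Or.inr rfl) hP), val hKUR hp hN hm hP, mul_one]
  have hPx : ∀ w, s(x, w) ∉ P := fun w => not_at hP (by simp) (Sym2.mem_mk_left x w)
  rw [chi_of_notMem (by
    unfold cy
    simp [hPx, d.xy, d.xy.symm, d.y3, d.y4, d.s34, d.s34.symm, d.x4, d.x3,
      d.x3.symm, d.x4.symm]),
    chi_of_mem (by unfold cy; simp), zero_add]

/-- `dis` -/
lemma dis (hVKA : SpecVKA) (hKUR : SpecKUR) (hp : P33 G x y s₁ s₂ s₃ s₄) (hN : NP G)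
    (h12 : G.Adj s₁ s₂) {m : Chain α} (hm : HM G x y s₁ s₂ s₃ s₄ m) {P Q : Finset (Sym2 α)}
    (hP : IsPth (delE (del G {x, y}) s₁ s₂) s₃ s₄ P)
    (hQ : IsPth (delE (del G {x, y}) s₁ s₂) s₁ s₂ Q) : ¬ Disjoint (vs P) (vs Q) := by
  intro hd
  have d := ds hp
  rw [isPth_delE, isPth_del] at hP hQ
  have hQne : s₁ ∈ vs Q ∧ s₂ ∈ vs Q := ⟨hQ.1.1.left_mem d.s12, hQ.1.1.right_mem d.s12⟩
  have hP' : IsPth (del G {x, y, s₁, s₂}) s₃ s₄ P := by
    rw [isPth_del]
    refine ⟨hP.1.1, ?_⟩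
    rw [Finset.disjoint_left]
    intro v hv hv'
    simp only [mem_insert, mem_singleton] at hv'
    have h1 := n2.1 (Finset.disjoint_left.1 hP.1.2 hv)
    rcases hv' with h | h | h | h
    · exact h1.1 h
    · exact h1.2 h
    · exact Finset.disjoint_left.1 hd hv (h ▸ hQne.1)
    · exact Finset.disjoint_left.1 hd hv (h ▸ hQne.2)
  have hC1 : IsCyc G (cy s₃ s₄ x P) := cyCyc (x := x) (y := y) (ax3 hp) (ax4 hp) d.s34 (Or.inl rfl) hP'
  have hC2 : IsCyc G (insert s(s₁, s₂) Q) := hQ.1.1.isCyc h12 hQ.2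
  have hdis : Disjoint (vs (cy s₃ s₄ x P)) (vs (insert s(s₁, s₂) Q)) := by
    rw [Finset.disjoint_left]
    intro v hv hv'
    rw [vs_insert, mem_union] at hv'
    have hvQ : v ∈ vs Q := by
      rcases hv' with h | h
      · simp only [mem_insert, mem_singleton] at h
        rcases h with rfl | rfl
        · exact hQne.1
        · exact hQne.2
      · exact h
    have hvP : v ∉ vs P := fun h => Finset.disjoint_left.1 hd h hvQ
    have h1 := n2.1 (Finset.disjoint_left.1 hQ.1.2 hvQ)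
    have h3 : s₃ ∈ vs P := hP.1.1.left_mem d.s34
    have h4 : s₄ ∈ vs P := hP.1.1.right_mem d.s34
    rw [vs_cy, mem_union, mem_union] at hv
    simp only [mem_insert, mem_singleton] at hv
    rcases hv with (h | h) | (h | h) | h
    · exact h1.1 h
    · exact hvP (h ▸ h3)
    · exact h1.1 h
    · exact hvP (h ▸ h4)
    · exact hvP h
  have supp : ∀ (C : Finset (Sym2 α)) (e : Sym2 α) (v : α), chi C e ≠ 0 → v ∈ e → v ∈ vs C :=
    fun C e v he hv => mem_vs.2 ⟨e, chi_ne_zero.1 he, hv⟩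
  have hN' := hN
  obtain ⟨r, hr, -, -, -⟩ := hN'
  have hz := hKUR.tor (G := G) (vs (cy s₃ s₄ x P)) (vs (insert s(s₁, s₂) Q)) hC1.chi_mem hC2.chi_mem
    (supp _) (supp _) hdis
  have hv := hVKA.tor (G := G) (r := r) (vs (cy s₃ s₄ x P)) (vs (insert s(s₁, s₂) Q)) hr
    hC1.chi_mem hC2.chi_mem (supp _) (supp _) hdis
  have h1 := hm.vk r hr _ hz
  unfold tor at hv
  rw [hv] at h1
  have e1 : (fun f => chi (cy s₃ s₄ x P) s(s₁, s₂) * chi (insert s(s₁, s₂) Q) f +
      chi (insert s(s₁, s₂) Q) s(s₁, s₂) * chi (cy s₃ s₄ x P) f) = chi (cy s₃ s₄ x P) := by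
    funext f
    rw [chi_of_mem (C := insert s(s₁, s₂) Q) (mem_insert_self _ _), chi_of_notMem, zero_mul,
      one_mul, zero_add]
    intro h
    exact Finset.disjoint_left.1 hdis (left_mem_vs h) (by rw [vs_insert]; simp)
  rw [e1, val hKUR hp hN hm hP'] at h1
  exact zero_ne_one h1

/-! ### `apx` -/

lemma dadj {S : Finset α} {u v : α} : (del G S).Adj u v ↔ G.Adj u v ∧ u ∉ S ∧ v ∉ S := Iff.rfl

lemma eadj {a b u v : α} : (delE G a b).Adj u v ↔ G.Adj u v ∧ s(u, v) ≠ s(a, b) := by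
  rw [delE, deleteEdges_adj, Set.mem_singleton_iff]

/-- a set containing the rigid vertex which isolates no vertex -/
lemma rigc (hG : KConn 4 G) (hrig : Rig G x) {S : Finset α} (hS : S.card ≤ 4) (hxS : x ∈ S)
    (h : ∀ b, b ∉ S → ¬ ∀ w ∈ S, G.Adj b w) : ConnOff G S := by
  intro a ha b hb haS hbS
  by_contra hr
  obtain ⟨P, Q, hs, haP, hbQ, -⟩ := exists_sep_of_not_reachable ha hb haS hbS hr
  have h4 := hG.le_of_sep hs ⟨a, haP⟩ ⟨b, hbQ⟩
  have hSV : S ∩ VS G = S := eq_of_subset_of_card_le inter_subset_left (by omega)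
  rw [hSV] at hs h4
  have hS4 : S.card = 4 := le_antisymm hS h4
  rcases hrig S P Q hs hS4 hxS with h1 | h1
  · refine h a haS fun w hw => ?_
    obtain ⟨p, hp, hwp⟩ := hG.exists_adj_of_sep hs ⟨a, haP⟩ hS hw
    rw [card_le_one.1 h1 p hp a haP] at hwp
    exact hwp.symm
  · refine h b hbS fun w hw => ?_
    obtain ⟨p, hp, hwp⟩ := hG.exists_adj_of_sep hs.symm ⟨b, hbQ⟩ hS hw
    rw [card_le_one.1 h1 p hp b hbQ] at hwp
    exact hwp.symm

/-- moving one end of the deleted edge into the separator -/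
lemma sepE {S P Q : Finset α} (h : Sep (delE G s₁ s₂) S P Q) (hV : VS (delE G s₁ s₂) = VS G)
    (h1 : s₁ ∈ P) : Sep G (insert s₁ S) (P.erase s₁) Q := by
  obtain ⟨e1, e2, e3, e4, e5⟩ := h
  have hS1 : s₁ ∉ S := fun h => Finset.disjoint_left.1 e2 h h1
  have hQ1 : s₁ ∉ Q := fun h => Finset.disjoint_left.1 e4 h1 h
  refine ⟨?_, ?_, ?_, ?_, ?_⟩
  · rw [← hV, ← e1]
    ext v
    simp only [mem_union, mem_insert, mem_erase]
    by_cases hv : v = s₁
    · simp [hv, h1]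
    · simp [hv]
  · rw [disjoint_insert_left]
    exact ⟨by simp, e2.mono_right (erase_subset _ _)⟩
  · rw [disjoint_insert_left]
    exact ⟨hQ1, e3⟩
  · exact e4.mono_left (erase_subset _ _)
  · intro a ha b hb hab
    have ha' := mem_erase.1 ha
    refine e5 a ha'.2 b hb (eadj.2 ⟨hab, fun e => ?_⟩)
    rcases Sym2.eq_iff.1 e with ⟨e, _⟩ | ⟨_, e⟩
    · exact ha'.1 e
    · exact hQ1 (e ▸ hb)

/-- both ends of the deleted edge on one side (or in the separator) -/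
lemma sepN {S P Q : Finset α} (h : Sep (delE G s₁ s₂) S P Q) (hV : VS (delE G s₁ s₂) = VS G)
    (h1 : ¬ (s₁ ∈ P ∧ s₂ ∈ Q)) (h2 : ¬ (s₂ ∈ P ∧ s₁ ∈ Q)) : Sep G S P Q := by
  obtain ⟨e1, e2, e3, e4, e5⟩ := h
  refine ⟨by rw [e1, hV], e2, e3, e4, fun a ha b hb hab => e5 a ha b hb (eadj.2 ⟨hab, fun e => ?_⟩)⟩
  rcases Sym2.eq_iff.1 e with ⟨rfl, rfl⟩ | ⟨rfl, rfl⟩
  · exact h1 ⟨ha, hb⟩
  · exact h2 ⟨ha, hb⟩

lemma delE_swap (a b : α) : delE G a b = delE G b a := by
  unfold delE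
  rw [Sym2.eq_swap]

/-- analysis of a 2-cut of `R`, the side of `s₂` -/
lemma cutR (hG : K48 G) (hrig : Rig G x) (hxV : x ∈ VS G) (hx1 : ¬ G.Adj x s₁)
    (h12 : G.Adj s₁ s₂) {S P Q : Finset α} (h : Sep (delE G s₁ s₂) S P Q) (hxS : x ∈ S)
    (hS : S.card ≤ 3) (h1 : s₁ ∈ P) (h2 : s₂ ∈ Q) : Q = {s₂} := by
  have hV : VS (delE G s₁ s₂) = VS G := VS_delE fun v hv => le_trans (by norm_num) (hG.1.le_nbs hv)
  have hs1 := sepE h hV h1
  have hs2 := sepE (s₁ := s₂) (s₂ := s₁) (by rw [delE_swap]; exact h.symm) (by rw [delE_swap]; exact hV) h2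
  have hS1 : s₁ ∉ S := fun h' => Finset.disjoint_left.1 h.2.1 h' h1
  have hS2 : s₂ ∉ S := fun h' => Finset.disjoint_left.1 h.2.2.1 h' h2
  have hP : (P.erase s₁).Nonempty := by
    by_contra hP
    rw [not_nonempty_iff_eq_empty] at hP
    have h3 : nbs G s₁ ⊆ insert s₂ (S.erase x) := by
      intro w hw
      rw [mem_nbs] at hw
      rw [mem_insert, mem_erase]
      by_cases hw2 : w = s₂
      · exact Or.inl hw2
      · right
        refine ⟨?_, ?_⟩
        · rintro rfl; exact hx1 hw.symm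
        · have hwV : w ∈ VS (delE G s₁ s₂) := by rw [hV]; exact right_mem_VS hw
          rcases h.mem_or hwV with h4 | h4 | h4
          · exact h4
          · exfalso
            have : w ∈ P.erase s₁ := mem_erase.2 ⟨hw.ne.symm, h4⟩
            rw [hP] at this
            simp at this
          · exfalso
            refine h.2.2.2.2 s₁ h1 w h4 (eadj.2 ⟨hw, fun e => ?_⟩)
            rcases Sym2.eq_iff.1 e with ⟨_, e⟩ | ⟨_, e⟩
            · exact hw2 e
            · exact hw.ne e.symm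
    have h4 := card_le_card h3
    have h5 := hG.1.le_nbs (left_mem_VS h12)
    have h6 := card_insert_le s₂ (S.erase x)
    have h7 := card_erase_of_mem hxS
    have h8 : 0 < S.card := card_pos.2 ⟨x, hxS⟩
    omega
  have hc1 := hG.1.le_of_sep hs1 hP ⟨s₂, h2⟩
  rw [card_insert_of_notMem hS1] at hc1
  have hS3 : S.card = 3 := by omega
  have hr1 := hrig _ _ _ hs1 (by rw [card_insert_of_notMem hS1, hS3]) (mem_insert_of_mem hxS)
  have hr2 := hrig _ _ _ hs2 (by rw [card_insert_of_notMem hS2, hS3]) (mem_insert_of_mem hxS)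
  have hcP := card_erase_add_one h1
  have hcQ := card_erase_add_one h2
  have hcP' := card_pos.2 hP
  have hn := hG.2
  have hU : (VS G).card ≤ S.card + P.card + Q.card := by
    rw [← hV, ← h.1]
    exact (card_union_le _ _).trans (Nat.add_le_add_right (card_union_le _ _) _)
  have hQ1 : Q.card ≤ 1 := by omega
  ext v
  rw [mem_singleton]
  constructor
  · intro hv
    exact card_le_one.1 hQ1 v hv s₂ h2
  · rintro rfl
    exact h2

/-- `R` is S3S or `s₂` has degree 4 with two adjacent neighbours besides `x`, `s₁` -/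
lemma nots (hG : K48 G) (hp : P33 G x y s₁ s₂ s₃ s₄) (h12 : G.Adj s₁ s₂) (hrig : Rig G x)
    (hR : ¬ S3S (delE (del G {x}) s₁ s₂)) :
    ∃ c d, G.Adj c d ∧ (∀ w, G.Adj s₂ w ↔ w = x ∨ w = s₁ ∨ w = c ∨ w = d) := by
  have d := ds hp
  have hJ : KConn 3 (del G {x}) := hG.1.del_vertex (by norm_num) x
  have hR2 : KConn 2 (delE (del G {x}) s₁ s₂) := hJ.delE (by norm_num) s₁ s₂
  have hxV : x ∈ VS G := vsub hp (by simp)
  have hx1 : ¬ G.Adj x s₁ := by
    intro h
    rcases (hp.nx s₁).1 h with h | h | h | h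
    · exact d.y1 h.symm
    · exact d.s12 h
    · exact d.s13 h
    · exact d.s14 h
  have hyadj : ∀ w, G.Adj y w → w ≠ x → (delE (del G {x}) s₁ s₂).Adj y w := by
    intro w hw hwx
    refine eadj.2 ⟨dadj.2 ⟨hw, by simpa using d.xy.symm, by simpa using hwx⟩, fun e => ?_⟩
    rcases Sym2.eq_iff.1 e with ⟨e, _⟩ | ⟨e, _⟩
    · exact d.y1 e
    · exact d.y2 e
  unfold S3S at hR
  have h3 : ∃ c x' y' z, x' ≠ y' ∧ x' ≠ z ∧ y' ≠ z ∧ (delE (del G {x}) s₁ s₂).Adj c x' ∧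
      (delE (del G {x}) s₁ s₂).Adj c y' ∧ (delE (del G {x}) s₁ s₂).Adj c z :=
    ⟨y, s₁, s₃, s₄, d.s13, d.s14, d.s34, hyadj _ (ay1 hp) d.x1.symm, hyadj _ (ay3 hp) d.x3.symm,
      hyadj _ (ay4 hp) d.x4.symm⟩
  have h4 : ¬ ∀ p q, p ≠ q → ConnOff (delE (del G {x}) s₁ s₂) {p, q} ∨
      ∃ v, (∀ w, (delE (del G {x}) s₁ s₂).Adj v w ↔ w = p ∨ w = q) ∧
        ¬ (delE (del G {x}) s₁ s₂).Adj p q ∧ ConnOff (delE (del G {x}) s₁ s₂) {p, q, v} :=
    fun h => hR ⟨hR2, h3, h⟩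
  push Not at h4
  obtain ⟨p, q, hpq, hc, hv⟩ := h4
  have hV : VS (delE G s₁ s₂) = VS G := VS_delE fun v hv => le_trans (by norm_num) (hG.1.le_nbs hv)
  unfold ConnOff at hc
  push Not at hc
  obtain ⟨a, ha, b, hb, haS, hbS, hr⟩ := hc
  have hsub : ∀ v ∈ VS (delE (del G {x}) s₁ s₂), v ∈ VS G ∧ v ≠ x := by
    intro v hv
    obtain ⟨w, hw⟩ := mem_VS.1 hv
    have := dadj.1 (eadj.1 hw).1
    exact ⟨left_mem_VS this.1, by simpa using this.2.1⟩
  have hgr : del (delE (del G {x}) s₁ s₂) {p, q} = del (delE G s₁ s₂) {x, p, q} := by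
    ext u v
    simp only [dadj, eadj, mem_insert, mem_singleton, not_or]
    tauto
  rw [hgr] at hr
  obtain ⟨P, Q, hs, haP, hbQ, -⟩ := exists_sep_of_not_reachable (G := delE G s₁ s₂)
    (S := {x, p, q}) (by rw [hV]; exact (hsub a ha).1) (by rw [hV]; exact (hsub b hb).1)
    (by
      rw [mem_insert, not_or]
      exact ⟨(hsub a ha).2, haS⟩)
    (by
      rw [mem_insert, not_or]
      exact ⟨(hsub b hb).2, hbS⟩) hr
  have hS3 : (({x, p, q} : Finset α) ∩ VS (delE G s₁ s₂)).card ≤ 3 :=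
    (card_le_card inter_subset_left).trans card_le_three
  have hxS : x ∈ ({x, p, q} : Finset α) ∩ VS (delE G s₁ s₂) := by
    rw [mem_inter, hV]
    exact ⟨by simp, hxV⟩
  -- the side of `s₂` is a single vertex
  obtain ⟨P', hs', hP'⟩ : ∃ P', Sep (delE G s₁ s₂) (({x, p, q} : Finset α) ∩ VS (delE G s₁ s₂)) P' {s₂} ∧
      s₁ ∈ P' := by
    by_cases h5 : s₁ ∈ P ∧ s₂ ∈ Q
    · have := cutR hG hrig hxV hx1 h12 hs hxS hS3 h5.1 h5.2
      rw [this] at hs
      exact ⟨P, hs, h5.1⟩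
    · by_cases h6 : s₂ ∈ P ∧ s₁ ∈ Q
      · have := cutR hG hrig hxV hx1 h12 hs.symm hxS hS3 h6.2 h6.1
        rw [this] at hs
        exact ⟨Q, hs.symm, h6.2⟩
      · exfalso
        have := hG.1.le_of_sep (sepN hs hV h5 h6) ⟨a, haP⟩ ⟨b, hbQ⟩
        omega
  have hn2 : nbs G s₂ = {x, s₁, p, q} := by
    refine eq_of_subset_of_card_le ?_ ?_
    · intro w hw
      rw [mem_nbs] at hw
      by_cases hw1 : w = s₁
      · simp [hw1]
      · have hwV : w ∈ VS (delE G s₁ s₂) := by rw [hV]; exact right_mem_VS hw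
        rcases hs'.mem_or hwV with h4 | h4 | h4
        · have := (mem_inter.1 h4).1
          simp only [mem_insert, mem_singleton] at this ⊢
          tauto
        · exfalso
          refine hs'.2.2.2.2 w h4 s₂ (mem_singleton_self _) (eadj.2 ⟨hw.symm, fun e => ?_⟩)
          rcases Sym2.eq_iff.1 e with ⟨e, _⟩ | ⟨e, _⟩
          · exact hw1 e
          · exact hw.ne e.symm
        · exact absurd (mem_singleton.1 h4).symm hw.ne
    · exact (card4 _ _ _ _).trans (hG.1.le_nbs (right_mem_VS h12))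
  have hn : ∀ w, G.Adj s₂ w ↔ w = x ∨ w = s₁ ∨ w = p ∨ w = q := by
    intro w
    rw [← mem_nbs, hn2]
    simp
  have hcard : ({x, s₁, p, q} : Finset α).card = 4 := by
    have := hG.1.le_nbs (right_mem_VS h12)
    rw [hn2] at this
    exact le_antisymm (card4 _ _ _ _) this
  have hps1 : p ≠ s₁ ∧ q ≠ s₁ ∧ p ≠ x ∧ q ≠ x := by
    refine ⟨?_, ?_, ?_, ?_⟩ <;> rintro rfl
    · have : ({x, p, p, q} : Finset α).card ≤ 3 := by
        rw [insert_comm p p, insert_idem]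
        exact card_le_three
      omega
    · have : ({x, q, p, q} : Finset α).card ≤ 3 := by
        rw [insert_comm q p, pair_eq_singleton]
        exact (card_insert_le _ _).trans (Nat.succ_le_succ card_le_two)
      omega
    · have : ({p, s₁, p, q} : Finset α).card ≤ 3 := by
        rw [insert_comm s₁ p, insert_idem]
        exact card_le_three
      omega
    · have : ({q, s₁, p, q} : Finset α).card ≤ 3 := by
        rw [insert_comm s₁ p, insert_comm q p, insert_comm q s₁, pair_eq_singleton]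
        exact card_le_three
      omega
  refine ⟨p, q, ?_, hn⟩
  by_contra hnadj
  refine hv s₂ ?_ ?_ ?_
  · intro w
    rw [eadj, dadj, hn]
    constructor
    · rintro ⟨⟨h5, h6, h7⟩, h8⟩
      rcases h5 with h | h | h | h
      · exact absurd h (by simpa using h7)
      · exact absurd (by rw [h, Sym2.eq_swap]) h8
      · exact Or.inl h
      · exact Or.inr h
    · intro h5
      have hwx : w ≠ x ∧ w ≠ s₁ := by
        rcases h5 with rfl | rfl
        · exact ⟨hps1.2.2.1, hps1.1⟩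
        · exact ⟨hps1.2.2.2, hps1.2.1⟩
      refine ⟨⟨Or.inr (Or.inr h5), by simpa using d.x2.symm, by simpa using hwx.1⟩, fun e => ?_⟩
      rcases Sym2.eq_iff.1 e with ⟨e, _⟩ | ⟨_, e⟩
      · exact d.s12 e.symm
      · exact hwx.2 e
  · intro h5
    exact hnadj (dadj.1 (eadj.1 h5).1).1
  · have hC : ConnOff G {x, p, q, s₂} := by
      refine rigc hG.1 hrig (card4 _ _ _ _) (by simp) fun b hb hbw => ?_
      have h5 := (hn b).1 (hbw s₂ (by simp)).symm
      have h6 := n4.1 hb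
      have h7 : b = s₁ := by tauto
      exact hx1 (h7 ▸ (hbw x (by simp)).symm)
    intro a' ha' b' hb' haS' hbS'
    have e1 := hsub a' ha'
    have e2 := hsub b' hb'
    refine (hC a' e1.1 b' e2.1 ?_ ?_).mono ?_
    · simp only [mem_insert, mem_singleton, not_or] at haS' ⊢
      tauto
    · simp only [mem_insert, mem_singleton, not_or] at hbS' ⊢
      tauto
    · intro u v huv
      have h5 := n4.1 huv.2.1
      have h6 := n4.1 huv.2.2
      refine ⟨eadj.2 ⟨dadj.2 ⟨huv.1, by simpa using h5.1, by simpa using h6.1⟩, fun e => ?_⟩, ?_, ?_⟩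
      · rcases Sym2.eq_iff.1 e with ⟨_, e⟩ | ⟨e, _⟩
        · exact h6.2.2.2 e
        · exact h5.2.2.2 e
      · simp only [mem_insert, mem_singleton, not_or]
        tauto
      · simp only [mem_insert, mem_singleton, not_or]
        tauto

/-- the exceptional configuration at `s₂` -/
structure Xc (G : SimpleGraph α) (x y s₁ s₂ s₃ s₄ c d : α) : Prop where
  g : K48 G
  p : P33 G x y s₁ s₂ s₃ s₄
  e : E4 G s₁ s₂ s₃ s₄
  r : Rig G x
  h12 : G.Adj s₁ s₂
  cd : G.Adj c d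
  n2 : ∀ w, G.Adj s₂ w ↔ w = x ∨ w = s₁ ∨ w = c ∨ w = d

lemma Xc.symm {c d : α} (h : Xc G x y s₁ s₂ s₃ s₄ c d) : Xc G x y s₁ s₂ s₃ s₄ d c :=
  ⟨h.g, h.p, h.e, h.r, h.h12, h.cd.symm, fun w => by rw [h.n2 w]; tauto⟩

/-- `c` is not one of the named vertices -/
lemma Xc.out {c d : α} (h : Xc G x y s₁ s₂ s₃ s₄ c d) :
    c ≠ x ∧ c ≠ y ∧ c ≠ s₁ ∧ c ≠ s₂ ∧ c ≠ s₃ ∧ c ≠ s₄ := by
  have ds := ds h.p
  have hc : G.Adj s₂ c := (h.n2 c).2 (by tauto)
  have hcard : (nbs G s₂).card ≥ 4 := h.g.1.le_nbs (left_mem_VS hc)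
  have hsub : nbs G s₂ ⊆ {x, s₁, c, d} := by
    intro w hw
    rw [mem_nbs, h.n2] at hw
    simpa using hw
  have hcx : c ≠ x := by
    rintro rfl
    have h1 : ({c, s₁, c, d} : Finset α).card ≤ 3 := by
      rw [insert_comm s₁ c, insert_idem]
      exact card_le_three
    have := card_le_card hsub
    omega
  have hc1 : c ≠ s₁ := by
    rintro rfl
    have h1 : ({x, c, c, d} : Finset α).card ≤ 3 := by
      rw [insert_comm c c, insert_idem]
      exact card_le_three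
    have := card_le_card hsub
    omega
  refine ⟨hcx, ?_, hc1, hc.ne.symm, ?_, ?_⟩
  · rintro rfl
    rcases (h.p.ny s₂).1 hc.symm with h1 | h1 | h1 | h1
    · exact ds.x2 h1.symm
    · exact ds.s12 h1.symm
    · exact ds.s23 h1
    · exact ds.s24 h1
  · rintro rfl; exact h.e.2.2.1 hc
  · rintro rfl; exact h.e.2.2.2 hc

lemma Xc.nx {c d : α} (h : Xc G x y s₁ s₂ s₃ s₄ c d) : ¬ G.Adj x c := by
  have h1 := h.out
  intro h2
  rcases (h.p.nx c).1 h2 with h3 | h3 | h3 | h3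
  · exact h1.2.1 h3
  · exact h1.2.2.2.1 h3
  · exact h1.2.2.2.2.1 h3
  · exact h1.2.2.2.2.2 h3

lemma Xc.nx1 {c d : α} (h : Xc G x y s₁ s₂ s₃ s₄ c d) : ¬ G.Adj x s₁ := by
  have d := ds h.p
  intro h2
  rcases (h.p.nx s₁).1 h2 with h | h | h | h
  · exact d.y1 h.symm
  · exact d.s12 h
  · exact d.s13 h
  · exact d.s14 h

/-- `G - x - s₂` is 3-connected -/
lemma Xc.off {c d : α} (h : Xc G x y s₁ s₂ s₃ s₄ c d) {S : Finset α} (hS : S.card ≤ 2) :
    ConnOff G ({x, s₂} ∪ S) := by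
  refine rigc h.g.1 h.r ?_ (by simp) fun b hb hbw => ?_
  · have := card_union_le ({x, s₂} : Finset α) S
    have := card_le_two (a := x) (b := s₂)
    omega
  · have h1 := (h.n2 b).1 (hbw s₂ (by simp)).symm
    have h2 := (hbw x (by simp)).symm
    rcases h1 with rfl | rfl | rfl | rfl
    · exact h2.ne rfl
    · exact h.nx1 h2
    · exact h.nx h2
    · exact h.symm.nx h2

lemma Xc.k3 {c d : α} (h : Xc G x y s₁ s₂ s₃ s₄ c d) : KConn 3 (del G {x, s₂}) := by
  have hVS : VS (del G {x, s₂}) = VS G \ {x, s₂} :=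
    h.g.1.VS_del (lt_of_le_of_lt card_le_two (by norm_num))
  refine ⟨?_, fun S hS a ha b hb haS hbS => ?_⟩
  · rw [hVS]
    have h1 := le_card_sdiff ({x, s₂} : Finset α) (VS G)
    have h2 := card_le_two (a := x) (b := s₂)
    have h3 := h.g.2
    omega
  · rw [hVS, mem_sdiff] at ha hb
    rw [del_del]
    exact h.off (by omega) a ha.1 b hb.1 (by rw [mem_union, not_or]; exact ⟨ha.2, haS⟩)
      (by rw [mem_union, not_or]; exact ⟨hb.2, hbS⟩)

/-- `R⁻` -/
abbrev Rm (G : SimpleGraph α) (x s₁ s₂ c d : α) : SimpleGraph α :=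
  delE (delE (del G {x}) c d) s₁ s₂

lemma rm_adj {c d u v : α} : (Rm G x s₁ s₂ c d).Adj u v ↔
    G.Adj u v ∧ u ≠ x ∧ v ≠ x ∧ s(u, v) ≠ s(c, d) ∧ s(u, v) ≠ s(s₁, s₂) := by
  rw [Rm, eadj, eadj, dadj, mem_singleton, mem_singleton]
  tauto

lemma rm_of {c d u v : α} (h : G.Adj u v) (hu : u ≠ x) (hv : v ≠ x) (hu2 : u ≠ s₂) (hv2 : v ≠ s₂)
    (hcd : s(u, v) ≠ s(c, d)) : (Rm G x s₁ s₂ c d).Adj u v := by
  refine rm_adj.2 ⟨h, hu, hv, hcd, fun e => ?_⟩
  rcases Sym2.eq_iff.1 e with ⟨_, e⟩ | ⟨e, _⟩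
  · exact hv2 e
  · exact hu2 e

lemma Xc.sc {c d : α} (h : Xc G x y s₁ s₂ s₃ s₄ c d) : (Rm G x s₁ s₂ c d).Adj s₂ c := by
  have ds := ds h.p
  have ho := h.out
  refine rm_adj.2 ⟨(h.n2 c).2 (by tauto), ds.x2.symm, ho.1, fun e => ?_, fun e => ?_⟩
  · rcases Sym2.eq_iff.1 e with ⟨e, _⟩ | ⟨e, _⟩
    · exact ho.2.2.2.1 e.symm
    · exact h.symm.out.2.2.2.1 e.symm
  · rcases Sym2.eq_iff.1 e with ⟨e, _⟩ | ⟨_, e⟩
    · exact ds.s12 e.symm
    · exact ho.2.2.1 e

lemma rm_comm (c d : α) : Rm G x s₁ s₂ c d = Rm G x s₁ s₂ d c := by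
  unfold Rm
  rw [delE_comm (del G {x}) c d]

lemma Xc.sd {c d : α} (h : Xc G x y s₁ s₂ s₃ s₄ c d) : (Rm G x s₁ s₂ c d).Adj s₂ d := by
  rw [rm_comm]
  exact h.symm.sc

lemma rm_VS {c d v : α} (hv : v ∈ VS (Rm G x s₁ s₂ c d)) : v ∈ VS G ∧ v ≠ x := by
  obtain ⟨w, hw⟩ := mem_VS.1 hv
  have := rm_adj.1 hw
  exact ⟨left_mem_VS this.1, this.2.1⟩

lemma reach_lift {R T : SimpleGraph α} (h : ∀ u v, T.Adj u v → R.Reachable u v) {a b : α}
    (hr : T.Reachable a b) : R.Reachable a b :=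
  DL.mem_of_reachable (X := {v | R.Reachable a v}) hr (Reachable.refl _)
    fun u v huv hu => Reachable.trans hu (h u v huv)

/-- connectedness passes to `R⁻`, `s₂` not deleted -/
lemma Xc.pass {c d : α} (h : Xc G x y s₁ s₂ s₃ s₄ c d) {S : Finset α} (hS : S.card ≤ 2)
    (hs : s₂ ∉ S) (hcd : c ∉ S ∨ d ∉ S) : ConnOff (Rm G x s₁ s₂ c d) S := by
  have hC := h.off hS
  have lift : ∀ u v, (del G ({x, s₂} ∪ S)).Adj u v → (del (Rm G x s₁ s₂ c d) S).Reachable u v := by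
    intro u v huv
    have h1 := huv.2.1
    have h2 := huv.2.2
    simp only [mem_union, mem_insert, mem_singleton, not_or] at h1 h2
    by_cases hc : s(u, v) = s(c, d)
    · have e1 : ∀ u v, s(u, v) = s(c, d) → u ∉ S → v ∉ S →
          (del (Rm G x s₁ s₂ c d) S).Reachable u v := by
        intro u v huv hu hv
        rcases Sym2.eq_iff.1 huv with ⟨rfl, rfl⟩ | ⟨rfl, rfl⟩
        · exact (Adj.reachable (dadj.2 ⟨h.sc.symm, hu, hs⟩)).trans
            (Adj.reachable (dadj.2 ⟨h.sd, hs, hv⟩))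
        · exact (Adj.reachable (dadj.2 ⟨h.sd.symm, hu, hs⟩)).trans
            (Adj.reachable (dadj.2 ⟨h.sc, hs, hv⟩))
      exact e1 u v hc h1.2 h2.2
    · exact Adj.reachable (dadj.2 ⟨rm_of huv.1 h1.1.1 h2.1.1 h1.1.2 h2.1.2 hc, h1.2, h2.2⟩)
  -- every vertex reaches a fixed vertex outside
  have key : ∀ a ∈ VS (Rm G x s₁ s₂ c d), a ∉ S → ∃ a' ∈ VS G, a' ∉ ({x, s₂} ∪ S : Finset α) ∧
      (del (Rm G x s₁ s₂ c d) S).Reachable a a' := by
    intro a ha haS
    by_cases ha2 : a = s₂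
    · subst ha2
      rcases hcd with hc | hd
      · have ho := h.out
        refine ⟨c, left_mem_VS h.cd, ?_, Adj.reachable (dadj.2 ⟨h.sc, hs, hc⟩)⟩
        simp only [mem_union, mem_insert, mem_singleton, not_or]
        exact ⟨⟨ho.1, ho.2.2.2.1⟩, hc⟩
      · have ho := h.symm.out
        refine ⟨d, right_mem_VS h.cd, ?_, Adj.reachable (dadj.2 ⟨h.sd, hs, hd⟩)⟩
        simp only [mem_union, mem_insert, mem_singleton, not_or]
        exact ⟨⟨ho.1, ho.2.2.2.1⟩, hd⟩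
    · have h1 := rm_VS ha
      refine ⟨a, h1.1, ?_, Reachable.refl _⟩
      simp only [mem_union, mem_insert, mem_singleton, not_or]
      exact ⟨⟨h1.2, ha2⟩, haS⟩
  intro a ha b hb haS hbS
  obtain ⟨a', ha1, ha2, ha3⟩ := key a ha haS
  obtain ⟨b', hb1, hb2, hb3⟩ := key b hb hbS
  exact ha3.trans ((reach_lift lift (hC a' ha1 b' hb1 ha2 hb2)).trans hb3.symm)

/-- connectedness passes to `R⁻`, `s₂` deleted -/
lemma Xc.pass2 {c d : α} (h : Xc G x y s₁ s₂ s₃ s₄ c d) (q : α) :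
    ConnOff (Rm G x s₁ s₂ c d) {s₂, q} := by
  have h2 : KConn 2 (delE (del G {x, s₂}) c d) := h.k3.delE (by norm_num) c d
  have hVS : VS (delE (del G {x, s₂}) c d) = VS (del G {x, s₂}) :=
    VS_delE fun v hv => le_trans (by norm_num) (h.k3.le_nbs hv)
  have hVS' : VS (del G {x, s₂}) = VS G \ {x, s₂} :=
    h.g.1.VS_del (lt_of_le_of_lt card_le_two (by norm_num))
  intro a ha b hb haS hbS
  have ha1 := rm_VS ha
  have hb1 := rm_VS hb
  have haS' := MP2M.n2.1 haS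
  have hbS' := MP2M.n2.1 hbS
  refine (h2.2 {q} (by simp) a ?_ b ?_ (by simpa using haS'.2) (by simpa using hbS'.2)).mono ?_
  · rw [hVS, hVS', mem_sdiff]
    exact ⟨ha1.1, MP2M.n2.2 ⟨ha1.2, haS'.1⟩⟩
  · rw [hVS, hVS', mem_sdiff]
    exact ⟨hb1.1, MP2M.n2.2 ⟨hb1.2, hbS'.1⟩⟩
  · intro u v huv
    obtain ⟨h3, h4, h5⟩ := dadj.1 huv
    obtain ⟨h6, h7⟩ := eadj.1 h3
    obtain ⟨h8, h9, h10⟩ := dadj.1 h6
    have h9' := MP2M.n2.1 h9
    have h10' := MP2M.n2.1 h10
    exact dadj.2 ⟨rm_of h8 h9'.1 h10'.1 h9'.2 h10'.2 h7,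
      MP2M.n2.2 ⟨h9'.2, by simpa using h4⟩, MP2M.n2.2 ⟨h10'.2, by simpa using h5⟩⟩

lemma Xc.s3 {c d : α} (h : Xc G x y s₁ s₂ s₃ s₄ c d) : S3S (Rm G x s₁ s₂ c d) := by
  have dd := ds h.p
  have hoc := h.out
  have hod := h.symm.out
  have hyadj : ∀ w, G.Adj y w → w ≠ x → (Rm G x s₁ s₂ c d).Adj y w := by
    intro w hw hwx
    refine rm_adj.2 ⟨hw, dd.xy.symm, hwx, fun e => ?_, fun e => ?_⟩
    · rcases Sym2.eq_iff.1 e with ⟨e, _⟩ | ⟨e, _⟩
      · exact hoc.2.1 e.symm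
      · exact hod.2.1 e.symm
    · rcases Sym2.eq_iff.1 e with ⟨e, _⟩ | ⟨e, _⟩
      · exact dd.y1 e
      · exact dd.y2 e
  have a1 := hyadj _ (ay1 h.p) dd.x1.symm
  have a3 := hyadj _ (ay3 h.p) dd.x3.symm
  have a4 := hyadj _ (ay4 h.p) dd.x4.symm
  refine ⟨⟨?_, fun S hS => ?_⟩, ⟨y, s₁, s₃, s₄, dd.s13, dd.s14, dd.s34, a1, a3, a4⟩, ?_⟩
  · have h1 : ({s₁, s₃, s₄} : Finset α) ⊆ VS (Rm G x s₁ s₂ c d) := by
      intro v hv
      simp only [mem_insert, mem_singleton] at hv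
      rcases hv with rfl | rfl | rfl
      · exact right_mem_VS a1
      · exact right_mem_VS a3
      · exact right_mem_VS a4
    have h2 := card_le_card h1
    rw [card_insert_of_notMem (by simp [dd.s13, dd.s14]),
      card_insert_of_notMem (by simp [dd.s34]), card_singleton] at h2
    omega
  · by_cases hs : s₂ ∈ S
    · have h1 : S = {s₂, s₂} := by
        ext v
        rw [pair_eq_singleton, mem_singleton]
        exact ⟨fun hv => card_le_one.1 (by omega) v hv s₂ hs, fun hv => hv ▸ hs⟩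
      rw [h1]
      exact h.pass2 s₂
    · refine h.pass (by omega) hs ?_
      by_contra hc
      push Not at hc
      exact h.cd.ne (card_le_one.1 (by omega) c hc.1 d hc.2)
  · intro p q hpq
    by_cases hs : s₂ ∈ ({p, q} : Finset α)
    · left
      simp only [mem_insert, mem_singleton] at hs
      rcases hs with rfl | rfl
      · exact h.pass2 q
      · rw [pair_comm]
        exact h.pass2 p
    · by_cases hcd : c ∉ ({p, q} : Finset α) ∨ d ∉ ({p, q} : Finset α)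
      · left
        exact h.pass card_le_two hs hcd
      · right
        push Not at hcd
        simp only [mem_insert, mem_singleton] at hcd
        have hpq' : (p = c ∧ q = d) ∨ (p = d ∧ q = c) := by
          rcases hcd with ⟨h1 | h1, h2 | h2⟩
          · exact absurd (h1.trans h2.symm) h.cd.ne
          · exact Or.inl ⟨h1.symm, h2.symm⟩
          · exact Or.inr ⟨h2.symm, h1.symm⟩
          · exact absurd (h1.trans h2.symm) h.cd.ne
        have hspq : s(p, q) = s(c, d) := by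
          rcases hpq' with ⟨rfl, rfl⟩ | ⟨rfl, rfl⟩
          · rfl
          · exact Sym2.eq_swap
        refine ⟨s₂, fun w => ?_, fun h' => (rm_adj.1 h').2.2.2.1 hspq, ?_⟩
        · have e1 : (Rm G x s₁ s₂ c d).Adj s₂ w ↔ w = c ∨ w = d := by
            constructor
            · intro h'
              obtain ⟨h3, h4, h5, h6, h7⟩ := rm_adj.1 h'
              rcases (h.n2 w).1 h3 with h8 | h8 | h8 | h8
              · exact absurd h8 h5
              · exact absurd (by rw [h8, Sym2.eq_swap]) h7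
              · exact Or.inl h8
              · exact Or.inr h8
            · rintro (rfl | rfl)
              · exact h.sc
              · exact h.sd
          rw [e1]
          rcases hpq' with ⟨rfl, rfl⟩ | ⟨rfl, rfl⟩
          · rfl
          · tauto
        · have hC := h.off (S := {p, q}) card_le_two
          intro a ha b hb haS hbS
          have ha1 := rm_VS ha
          have hb1 := rm_VS hb
          simp only [mem_insert, mem_singleton, not_or] at haS hbS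
          refine (hC a ha1.1 b hb1.1 ?_ ?_).mono ?_
          · simp only [mem_union, mem_insert, mem_singleton, not_or]
            tauto
          · simp only [mem_union, mem_insert, mem_singleton, not_or]
            tauto
          · intro u v huv
            obtain ⟨h3, h4, h5⟩ := dadj.1 huv
            simp only [mem_union, mem_insert, mem_singleton, not_or] at h4 h5
            refine dadj.2 ⟨rm_of h3 h4.1.1 h5.1.1 h4.1.2 h5.1.2 fun e => ?_, ?_, ?_⟩
            · rw [← hspq] at e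
              rcases Sym2.eq_iff.1 e with ⟨e, _⟩ | ⟨e, _⟩
              · exact h4.2.1 e
              · exact h4.2.2 e
            · simp only [mem_insert, mem_singleton, not_or]
              tauto
            · simp only [mem_insert, mem_singleton, not_or]
              tauto

/-- all `s₃`-`s₄` paths of `H - s₁ - s₂` use `cd`: impossible -/
lemma Xc.side {c d : α} (h : Xc G x y s₁ s₂ s₃ s₄ c d)
    (hr : ¬ (delE (del G {x, y, s₁, s₂}) c d).Reachable s₃ s₄)
    (hc : (delE (del G {x, y, s₁, s₂}) c d).Reachable s₃ c)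
    (hd : ¬ (delE (del G {x, y, s₁, s₂}) c d).Reachable s₃ d) : False := by
  classical
  have dd := ds h.p
  have hoc := h.out
  have hod := h.symm.out
  set L := delE (del G {x, y, s₁, s₂}) c d with hL
  set A : Finset α := univ.filter fun v => L.Reachable s₃ v with hA
  have hmA : ∀ v, v ∈ A ↔ L.Reachable s₃ v := fun v => by simp [hA]
  have step : ∀ v w, v ∈ A → L.Adj v w → w ∈ A := fun v w hv hvw =>
    (hmA w).2 (((hmA v).1 hv).trans hvw.reachable)
  have hLadj : ∀ u v, L.Adj u v ↔ G.Adj u v ∧ u ∉ ({x, y, s₁, s₂} : Finset α) ∧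
      v ∉ ({x, y, s₁, s₂} : Finset α) ∧ s(u, v) ≠ s(c, d) := by
    intro u v
    rw [hL, eadj, dadj]
    tauto
  have hAv : ∀ v ∈ A, v ∉ ({x, y, s₁, s₂} : Finset α) ∧ v ∈ VS G := by
    intro v hv
    by_cases hv3 : v = s₃
    · subst hv3
      exact ⟨n4.2 ⟨dd.x3.symm, dd.y3.symm, dd.s13.symm, dd.s23.symm⟩, vsub h.p (by simp)⟩
    · obtain ⟨w, hw⟩ := exists_adj_of_reachable ((hmA v).1 hv).symm hv3
      have := (hLadj v w).1 hw
      exact ⟨this.2.1, left_mem_VS this.1⟩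
  -- `A` has only the elements `c`, `s₃`
  have hA2 : ∀ v ∈ A, v = c ∨ v = s₃ := by
    by_contra hcon
    push Not at hcon
    obtain ⟨v, hv, hvc, hv3⟩ := hcon
    have hD : v ∈ (A.erase c).erase s₃ := mem_erase.2 ⟨hv3, mem_erase.2 ⟨hvc, hv⟩⟩
    refine C20M.few (D := (A.erase c).erase s₃) (W := {c, s₃, s₁}) (r := y) h.g.1 ?_ ⟨v, hD⟩ ?_
      card_le_three (vsub h.p (by simp)) ?_ ?_
    · intro w hw
      exact (hAv w (mem_erase.1 (mem_erase.1 hw).2).2).2
    · rintro w hw ⟨a, ha, haw⟩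
      have ha1 := mem_erase.1 ha
      have ha2 := mem_erase.1 ha1.2
      have ha3 := n4.1 (hAv a ha2.2).1
      have ha4 : a ≠ s₄ := by
        rintro rfl
        exact hr ((hmA _).1 ha2.2)
      have had : a ≠ d := by
        rintro rfl
        exact hd ((hmA _).1 ha2.2)
      rw [mem_insert, mem_insert, mem_singleton]
      by_cases hwx : w = x
      · exfalso
        subst hwx
        rcases (h.p.nx a).1 haw.symm with h1 | h1 | h1 | h1
        · exact ha3.2.1 h1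
        · exact ha3.2.2.2 h1
        · exact ha1.1 h1
        · exact ha4 h1
      by_cases hwy : w = y
      · exfalso
        subst hwy
        rcases (h.p.ny a).1 haw.symm with h1 | h1 | h1 | h1
        · exact ha3.1 h1
        · exact ha3.2.2.1 h1
        · exact ha1.1 h1
        · exact ha4 h1
      by_cases hw2 : w = s₂
      · exfalso
        subst hw2
        rcases (h.n2 a).1 haw.symm with h1 | h1 | h1 | h1
        · exact ha3.1 h1
        · exact ha3.2.2.1 h1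
        · exact ha2.1 h1
        · exact had h1
      by_cases hw1 : w = s₁
      · exact Or.inr (Or.inr hw1)
      have hwA : w ∈ A := by
        refine step a w ha2.2 ((hLadj a w).2 ⟨haw, n4.2 ha3, n4.2 ⟨hwx, hwy, hw1, hw2⟩, fun e => ?_⟩)
        rcases Sym2.eq_iff.1 e with ⟨e, _⟩ | ⟨e, _⟩
        · exact ha2.1 e
        · exact had e
      by_contra hcon
      push Not at hcon
      exact hw (mem_erase.2 ⟨hcon.2.1, mem_erase.2 ⟨hcon.1, hwA⟩⟩)
    · intro hy
      exact (n4.1 (hAv y (mem_erase.1 (mem_erase.1 hy).2).2).1).2.1 rfl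
    · simp only [mem_insert, mem_singleton, not_or]
      exact ⟨hoc.2.1.symm, dd.y3, dd.y1⟩
  have h3A : s₃ ∈ A := (hmA _).2 (Reachable.refl _)
  have hsub : nbs G s₃ ⊆ {x, y, c} := by
    intro w hw
    rw [mem_nbs] at hw
    rw [mem_insert, mem_insert, mem_singleton]
    by_contra hcon
    push Not at hcon
    have hw1 : w ≠ s₁ := by
      rintro rfl
      exact h.e.1 hw.symm
    have hw2 : w ≠ s₂ := by
      rintro rfl
      exact h.e.2.2.1 hw.symm
    have hwA := step s₃ w h3A ((hLadj s₃ w).2 ⟨hw, (hAv s₃ h3A).1,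
      n4.2 ⟨hcon.1, hcon.2.1, hw1, hw2⟩, fun e => by
        rcases Sym2.eq_iff.1 e with ⟨e, _⟩ | ⟨e, _⟩
        · exact hoc.2.2.2.2.1 e.symm
        · exact hod.2.2.2.2.1 e.symm⟩)
    rcases hA2 w hwA with h1 | h1
    · exact hcon.2.2 h1
    · exact hw.ne h1.symm
  have h1 := card_le_card hsub
  have h2 := h.g.1.le_nbs (v := s₃) (vsub h.p (by simp))
  have h3 := card_le_three (a := x) (b := y) (c := c)
  omega

lemma Xc.exPath {c d : α} (h : Xc G x y s₁ s₂ s₃ s₄ c d) :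
    ∃ P, IsPth (del G {x, y, s₁, s₂}) s₃ s₄ P ∧ s(c, d) ∉ P := by
  have dd := ds h.p
  by_contra hcon
  push Not at hcon
  have hr : ¬ (delE (del G {x, y, s₁, s₂}) c d).Reachable s₃ s₄ := by
    intro hr
    obtain ⟨P, hP⟩ := exists_isPth hr
    rw [isPth_delE] at hP
    exact hP.2 (hcon P hP.1)
  have hR : (del G {x, y, s₁, s₂}).Reachable s₃ s₄ :=
    two1 h.g h.p s₃ (vsub h.p (by simp)) s₄ (vsub h.p (by simp))
      (n4.2 ⟨dd.x3.symm, dd.y3.symm, dd.s13.symm, dd.s23.symm⟩)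
      (n4.2 ⟨dd.x4.symm, dd.y4.symm, dd.s14.symm, dd.s24.symm⟩)
  have key : ((delE (del G {x, y, s₁, s₂}) c d).Reachable s₃ c ∧
      ¬ (delE (del G {x, y, s₁, s₂}) c d).Reachable s₃ d) ∨
      ((delE (del G {x, y, s₁, s₂}) c d).Reachable s₃ d ∧
      ¬ (delE (del G {x, y, s₁, s₂}) c d).Reachable s₃ c) := by
    by_contra hk
    apply hr
    refine DL.mem_of_reachable (X := {v | (delE (del G {x, y, s₁, s₂}) c d).Reachable s₃ v}) hR
      (Reachable.refl _) fun u v huv hu => ?_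
    by_cases e : s(u, v) = s(c, d)
    · rcases Sym2.eq_iff.1 e with ⟨rfl, rfl⟩ | ⟨rfl, rfl⟩
      · simp only [Set.mem_setOf_eq] at hu ⊢
        tauto
      · simp only [Set.mem_setOf_eq] at hu ⊢
        tauto
    · exact Reachable.trans hu (Adj.reachable (eadj.2 ⟨huv, e⟩))
  rcases key with ⟨h1, h2⟩ | ⟨h1, h2⟩
  · exact h.side hr h1 h2
  · rw [delE_comm] at hr h1 h2
    exact h.symm.side hr h1 h2

/-- a graph `H ≤ G - x` with a 2-cycle whose row at `s₁s₂` is `y s₃ P s₄ y` -/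
lemma fin (hLPE : SpecLPE) (hKUR : SpecKUR) (hp : P33 G x y s₁ s₂ s₃ s₄) (hN : NP G) {m : Chain α}
    (hm : HM G x y s₁ s₂ s₃ s₄ m) {H : SimpleGraph α} (hH : H ≤ del G {x}) (hadj : H.Adj s₁ s₂)
    (hS : S3S (delE H s₁ s₂)) (h1 : s₁ ∈ VS (delE H s₁ s₂)) (h2 : s₂ ∈ VS (delE H s₁ s₂))
    {P : Finset (Sym2 α)} (hP : IsPth (del G {x, y, s₁, s₂}) s₃ s₄ P)
    (hZ : ∀ e ∈ cy s₃ s₄ y P, e ∈ H.edgeSet) : NP (del G {x}) := by
  have hZ' : chi (cy s₃ s₄ y P) ∈ Z1 (del H {s₁, s₂}) := by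
    have h3 := cy_mem hp (Or.inr rfl) hP
    refine ⟨fun e he => ?_, h3.2⟩
    have h4 := h3.1 e he
    have h5 := hZ e (chi_ne_zero.1 he)
    induction e using Sym2.ind with
    | _ a b => exact dadj.2 ⟨h5, (dadj.1 h4).2⟩
  obtain ⟨z, hz, hz'⟩ := hLPE.edge hadj hS h1 h2 _ hZ'
  have hN' := hN
  obtain ⟨r, hr, -, -, -⟩ := hN'
  refine ⟨r, hr, z, hKUR.zmono hH hz, ?_⟩
  rw [hm.vk r hr z (hKUR.zmono (hH.trans (del_le _ _)) hz), funext hz', valy hKUR hp hN hm hP]
  exact one_ne_zero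

lemma cy_edge (hp : P33 G x y s₁ s₂ s₃ s₄) {P : Finset (Sym2 α)}
    (hP : IsPth (del G {x, y, s₁, s₂}) s₃ s₄ P) : ∀ e ∈ cy s₃ s₄ y P, e ∈ (del G {x}).edgeSet := by
  have d := ds hp
  intro e he
  unfold cy at he
  rw [mem_insert, mem_insert] at he
  rcases he with rfl | rfl | he
  · exact dadj.2 ⟨ay3 hp, by simpa using d.xy.symm, by simpa using d.x3.symm⟩
  · exact dadj.2 ⟨ay4 hp, by simpa using d.xy.symm, by simpa using d.x4.symm⟩
  · have h1 := hP.subset e he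
    induction e using Sym2.ind with
    | _ a b =>
      obtain ⟨h2, h3, h4⟩ := dadj.1 h1
      exact dadj.2 ⟨h2, by simpa using (n4.1 h3).1, by simpa using (n4.1 h4).1⟩

lemma apx (hKUR : SpecKUR) (hLPE : SpecLPE) (hG : K48 G)
    (hp : P33 G x y s₁ s₂ s₃ s₄) (hE : E4 G s₁ s₂ s₃ s₄) (hN : NP G) (h12 : G.Adj s₁ s₂)
    {m : Chain α} (hm : HM G x y s₁ s₂ s₃ s₄ m) (hrig : Rig G x) : NP (del G {x}) := by
  have dd := ds hp
  have hadj : (del G {x}).Adj s₁ s₂ :=
    dadj.2 ⟨h12, by simpa using dd.x1.symm, by simpa using dd.x2.symm⟩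
  by_cases hR : S3S (delE (del G {x}) s₁ s₂)
  · obtain ⟨P, hP⟩ := exists_isPth (two1 hG hp s₃ (vsub hp (by simp)) s₄ (vsub hp (by simp))
      (n4.2 ⟨dd.x3.symm, dd.y3.symm, dd.s13.symm, dd.s23.symm⟩)
      (n4.2 ⟨dd.x4.symm, dd.y4.symm, dd.s14.symm, dd.s24.symm⟩))
    have hV : VS (delE (del G {x}) s₁ s₂) = VS (del G {x}) :=
      VS_delE fun v hv => le_trans (by norm_num)
        ((hG.1.del_vertex (k := 3) (by norm_num) x).le_nbs hv)
    exact fin hLPE hKUR hp hN hm le_rfl hadj hR (by rw [hV]; exact left_mem_VS hadj)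
      (by rw [hV]; exact right_mem_VS hadj) hP (cy_edge hp hP)
  · obtain ⟨c, d, hcd, hn⟩ := nots hG hp h12 hrig hR
    have hx : Xc G x y s₁ s₂ s₃ s₄ c d := ⟨hG, hp, hE, hrig, h12, hcd, hn⟩
    obtain ⟨P, hP, hcdP⟩ := hx.exPath
    have hoc := hx.out
    have hod := hx.symm.out
    refine fin hLPE hKUR hp hN hm (H := delE (del G {x}) c d) (delE_le _ _ _)
      (eadj.2 ⟨hadj, fun e => ?_⟩) hx.s3 ?_ (left_mem_VS hx.sc) hP ?_
    · rcases Sym2.eq_iff.1 e with ⟨e, _⟩ | ⟨e, _⟩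
      · exact hoc.2.2.1 e.symm
      · exact hod.2.2.1 e.symm
    · refine right_mem_VS (a := y) (rm_adj.2 ⟨ay1 hp, dd.xy.symm, dd.x1.symm, fun e => ?_, fun e => ?_⟩)
      · rcases Sym2.eq_iff.1 e with ⟨e, _⟩ | ⟨e, _⟩
        · exact hoc.2.1 e.symm
        · exact hod.2.1 e.symm
      · rcases Sym2.eq_iff.1 e with ⟨e, _⟩ | ⟨e, _⟩
        · exact dd.y1 e
        · exact dd.y2 e
    · intro e he
      have h1 := cy_edge hp hP e he
      rw [delE, edgeSet_deleteEdges]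
      refine ⟨h1, ?_⟩
      rintro rfl
      unfold cy at he
      rw [mem_insert, mem_insert] at he
      rcases he with he | he | he
      · rcases Sym2.eq_iff.1 he with ⟨e, _⟩ | ⟨_, e⟩
        · exact hoc.2.1 e
        · exact hod.2.1 e
      · rcases Sym2.eq_iff.1 he with ⟨e, _⟩ | ⟨_, e⟩
        · exact hoc.2.1 e
        · exact hod.2.1 e
      · exact hcdP he

end MP2M

open MP2M in
theorem specMP2 (hVKA : SpecVKA) (hKUR : SpecKUR) (hLPE : SpecLPE) : SpecMP2 where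
  dis := by
    intro α _ _ G x y s₁ s₂ s₃ s₄ m P Q _ hp hN h12 hm hz h3 h4 hP hQ
    exact MP2M.dis hVKA hKUR hp hN h12 ⟨hm, hz, h3, h4⟩ hP hQ
  apx := by
    intro α _ _ G x y s₁ s₂ s₃ s₄ m hG hp hE hN h12 hm hz h3 h4 hrig
    exact MP2M.apx hKUR hLPE hG hp hE hN h12 ⟨hm, hz, h3, h4⟩ hrig

end DL
end
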