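import Pool.Agent.DL.G4.N3A

/-!
# N3B: type B is impossible
-/

open SimpleGraph Finset

namespace DL

namespace N3BM

set_option linter.unusedSectionVars false

variable {α : Type} [Fintype α] [DecidableEq α] {G : SimpleGraph α}

/-- the separation through `x` -/
structure SepX (G : SimpleGraph α) (w x x' s₁ s₂ s₃ s₄ : α) (T U V : Finset α) (q₁ q₂ : α) : Prop where
  sep : Sep G T U V
  hT : T = {x, x', q₁, q₂}
  wU : w ∈ U
  s₁U : s₁ ∈ U
  s₂U : s₂ ∈ U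
  s₃V : s₃ ∈ V
  s₄V : s₄ ∈ V
  cV : 3 ≤ V.card

/-- the separation through `w` -/
structure SepW (G : SimpleGraph α) (w x x' s₁ s₂ s₃ s₄ : α) (T A B : Finset α) (q : α) : Prop where
  sep : Sep G T A B
  hT : T = {w, s₃, s₄, q}
  xA : x ∈ A
  s₁A : s₁ ∈ A
  xB : x' ∈ B
  s₂B : s₂ ∈ B

/-- explicit facts of type B -/
structure TB (G : SimpleGraph α) (w x x' s₁ s₂ s₃ s₄ : α) : Prop where
  ty : TyB G w x x' s₁ s₂ s₃ s₄
  wx : w ≠ x
  wx' : w ≠ x'
  xx' : x ≠ x'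
  w1 : w ≠ s₁
  w2 : w ≠ s₂
  w3 : w ≠ s₃
  w4 : w ≠ s₄
  x1 : x ≠ s₁
  x2 : x ≠ s₂
  x3 : x ≠ s₃
  x4 : x ≠ s₄
  y1 : x' ≠ s₁
  y2 : x' ≠ s₂
  y3 : x' ≠ s₃
  y4 : x' ≠ s₄
  n12 : s₁ ≠ s₂
  n13 : s₁ ≠ s₃
  n14 : s₁ ≠ s₄
  n23 : s₂ ≠ s₃
  n24 : s₂ ≠ s₄
  n34 : s₃ ≠ s₄

theorem tb_of {w x x' s₁ s₂ s₃ s₄ : α} (h : TyB G w x x' s₁ s₂ s₃ s₄) :
    TB G w x x' s₁ s₂ s₃ s₄ := by
  have nd := h.nd
  simp only [List.nodup_cons, List.mem_cons, List.not_mem_nil, or_false, not_or,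
      not_false_eq_true, List.nodup_nil, and_true] at nd
  obtain ⟨⟨n12, n13, n14, n15, n16, n17⟩, ⟨n23, n24, n25, n26, n27⟩, ⟨n34, n35, n36, n37⟩,
    ⟨n45, n46, n47⟩, ⟨n56, n57⟩, n67⟩ := nd
  exact ⟨h, n12, n13, n23, n14, n15, n16, n17, n24, n25, n26, n27, n34, n35, n36, n37, n45, n46, n47,
    n56, n57, n67⟩

theorem TB.not_adj {w x x' s₁ s₂ s₃ s₄ : α} (h : TB G w x x' s₁ s₂ s₃ s₄) : ¬ G.Adj x x' := by
  rw [h.ty.nx]
  rintro (h' | h' | h' | h')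
  · exact h.wx' h'.symm
  · exact h.y1 h'
  · exact h.y3 h'
  · exact h.y4 h'

theorem TB.nb {w x x' s₁ s₂ s₃ s₄ : α} (h : TB G w x x' s₁ s₂ s₃ s₄) :
    s₁ ∈ NB G {w, x, x'} ∧ s₂ ∈ NB G {w, x, x'} ∧ s₃ ∈ NB G {w, x, x'} ∧ s₄ ∈ NB G {w, x, x'} := by
  refine ⟨N3AM.mem_NB.2 ⟨?_, w, ?_, ?_⟩, N3AM.mem_NB.2 ⟨?_, w, ?_, ?_⟩,
    N3AM.mem_NB.2 ⟨?_, x, ?_, ?_⟩, N3AM.mem_NB.2 ⟨?_, x, ?_, ?_⟩⟩
  · simp only [mem_insert, mem_singleton, not_or]
    exact ⟨h.w1.symm, h.x1.symm, h.y1.symm⟩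
  · simp
  · rw [h.ty.nw]; simp
  · simp only [mem_insert, mem_singleton, not_or]
    exact ⟨h.w2.symm, h.x2.symm, h.y2.symm⟩
  · simp
  · rw [h.ty.nw]; simp
  · simp only [mem_insert, mem_singleton, not_or]
    exact ⟨h.w3.symm, h.x3.symm, h.y3.symm⟩
  · simp
  · rw [h.ty.nx]; simp
  · simp only [mem_insert, mem_singleton, not_or]
    exact ⟨h.w4.symm, h.x4.symm, h.y4.symm⟩
  · simp
  · rw [h.ty.nx]; simp

/-- (ga) through `x` -/
theorem sepX_of_ga {w x x' s₁ s₂ s₃ s₄ : α} (h : TB G w x x' s₁ s₂ s₃ s₄) {T X Y : Finset α}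
    (hS : Sep G T X Y) (hc : 3 ≤ Y.card) {x₂ w₂ t₁ t₂ t₃ t₄ q₁ q₂ : α}
    (hg : TGa G {w, x, x'} T X Y x x₂ w₂ t₁ t₂ t₃ t₄ q₁ q₂) :
    SepX G w x x' s₁ s₂ s₃ s₄ T X Y q₁ q₂ ∧ q₁ ≠ q₂ ∧ q₁ ≠ s₃ ∧ q₁ ≠ s₄ ∧ q₂ ≠ s₃ ∧ q₂ ≠ s₄ := by
  obtain ⟨nd, hF, hN, hT, hX, hY, nw, ad⟩ := hg
  simp only [List.nodup_cons, List.mem_cons, List.not_mem_nil, or_false, not_or,
      not_false_eq_true, List.nodup_nil, and_true] at nd
  obtain ⟨⟨m12, m13, m14, m15, m16, m17, m18, m19⟩, ⟨m23, m24, m25, m26, m27, m28, m29⟩,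
    ⟨m34, m35, m36, m37, m38, m39⟩, ⟨m45, m46, m47, m48, m49⟩, ⟨m56, m57, m58, m59⟩,
    ⟨m67, m68, m69⟩, ⟨m78, m79⟩, m89⟩ := nd
  have hF' : ∀ v, (v = w ∨ v = x ∨ v = x') ↔ (v = x ∨ v = x₂ ∨ v = w₂) := by
    intro v
    have : v ∈ ({w, x, x'} : Finset α) ↔ v ∈ ({x, x₂, w₂} : Finset α) := by rw [hF]
    simpa only [mem_insert, mem_singleton] using this
  have hw₂ : w₂ = w := by
    rcases (hF' w₂).2 (Or.inr (Or.inr rfl)) with h1 | h1 | h1
    · exact h1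
    · exact absurd h1.symm m13
    · exact absurd ((nw x).2 (Or.inl rfl)).symm (by rw [h1]; exact h.not_adj)
  have hx₂ : x₂ = x' := by
    rcases (hF' x₂).2 (Or.inr (Or.inl rfl)) with h1 | h1 | h1
    · exact absurd (h1.trans hw₂.symm) m23
    · exact absurd h1.symm m12
    · exact h1
  subst hw₂
  subst hx₂
  have hN' : ∀ v, v ∈ NB G {w₂, x, x₂} ↔ v = t₁ ∨ v = t₂ ∨ v = t₃ ∨ v = t₄ := by
    intro v
    rw [hN]; simp only [mem_insert, mem_singleton]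
  have h1 : ∀ v, v ∈ NB G {w₂, x, x₂} → G.Adj w₂ v → v ∈ X := by
    intro v hv hv'
    rcases (nw v).1 hv' with h1 | h1 | h1 | h1
    · exact absurd (N3AM.mem_NB.1 hv).1 (by rw [h1]; simp)
    · exact absurd (N3AM.mem_NB.1 hv).1 (by rw [h1]; simp)
    · rw [h1]; exact hX.2.1
    · rw [h1]; exact hX.2.2
  have h2 : ∀ v, v ∈ NB G {w₂, x, x₂} → ¬ G.Adj w₂ v → v ∈ Y := by
    intro v hv hv'
    rcases (hN' v).1 hv with h1 | h1 | h1 | h1
    · exact absurd ((nw v).2 (Or.inr (Or.inr (Or.inl h1)))) hv'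
    · exact absurd ((nw v).2 (Or.inr (Or.inr (Or.inr h1)))) hv'
    · rw [h1]; exact hY.1
    · rw [h1]; exact hY.2
  obtain ⟨b1, b2, b3, b4⟩ := h.nb
  have c3 : ¬ G.Adj w₂ s₃ := by
    rw [h.ty.nw]
    rintro (h' | h' | h' | h')
    · exact h.x3 h'.symm
    · exact h.y3 h'.symm
    · exact h.n13 h'.symm
    · exact h.n23 h'.symm
  have c4 : ¬ G.Adj w₂ s₄ := by
    rw [h.ty.nw]
    rintro (h' | h' | h' | h')
    · exact h.x4 h'.symm
    · exact h.y4 h'.symm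
    · exact h.n14 h'.symm
    · exact h.n24 h'.symm
  have hq : ∀ v, v ∈ NB G {w₂, x, x₂} → q₁ ≠ v ∧ q₂ ≠ v := by
    intro v hv
    rcases (hN' v).1 hv with h1 | h1 | h1 | h1 <;> subst h1
    · exact ⟨Ne.symm m48, Ne.symm m49⟩
    · exact ⟨Ne.symm m58, Ne.symm m59⟩
    · exact ⟨Ne.symm m68, Ne.symm m69⟩
    · exact ⟨Ne.symm m78, Ne.symm m79⟩
  refine ⟨⟨hS, hT, hX.1, h1 _ b1 ?_, h1 _ b2 ?_, h2 _ b3 c3, h2 _ b4 c4, hc⟩, m89, (hq _ b3).1,
    (hq _ b4).1, (hq _ b3).2, (hq _ b4).2⟩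
  · rw [h.ty.nw]; simp
  · rw [h.ty.nw]; simp

/-- (be) with middle `w`, `y = x` -/
theorem sepW_aux {w x x' s₁ s₂ s₃ s₄ : α} (h : TB G w x x' s₁ s₂ s₃ s₄) {T X Y : Finset α}
    {sa sc s s' q : α} (hg : TBe G {w, x, x'} T X Y w x x' sa sc s s' q) :
    sa = s₁ ∧ sc = s₂ ∧ T = {w, s₃, s₄, q} := by
  obtain ⟨nd, hF, hN, hT, hX, hY, ny, nz, xa, xc⟩ := hg
  simp only [List.nodup_cons, List.mem_cons, List.not_mem_nil, or_false, not_or,
      not_false_eq_true, List.nodup_nil, and_true] at nd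
  obtain ⟨⟨m12, m13, m14, m15, m16, m17, m18⟩, ⟨m23, m24, m25, m26, m27, m28⟩,
    ⟨m34, m35, m36, m37, m38⟩, ⟨m45, m46, m47, m48⟩, ⟨m56, m57, m58⟩, ⟨m67, m68⟩, m78⟩ := nd
  have ha : sa = s₁ := by
    have e1 := (h.ty.nw sa).1 xa
    have e2 := (h.ty.nx sa).1 ((ny sa).2 (Or.inr (Or.inl rfl)))
    rcases e1 with e1 | e1 | e1 | e1
    · exact absurd e1.symm m24
    · exact absurd e1.symm m34
    · exact e1
    · rcases e2 with e2 | e2 | e2 | e2
      · exact absurd e2.symm m14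
      · exact e2
      · exact absurd (e1.symm.trans e2) h.n23
      · exact absurd (e1.symm.trans e2) h.n24
  have hc : sc = s₂ := by
    have e1 := (h.ty.nw sc).1 xc
    rcases e1 with e1 | e1 | e1 | e1
    · exact absurd e1.symm m25
    · exact absurd e1.symm m35
    · exact absurd (ha.trans e1.symm) m45
    · exact e1
  subst ha
  subst hc
  have hs : ∀ v, (v = s ∨ v = s') ↔ (v = s₃ ∨ v = s₄) := by
    intro v
    have e := (ny v).symm.trans (h.ty.nx v)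
    by_cases h1 : v = w
    · subst h1
      exact ⟨fun h' => h'.elim (fun h' => absurd h' m16) (fun h' => absurd h' m17),
        fun h' => h'.elim (fun h' => absurd h' h.w3) (fun h' => absurd h' h.w4)⟩
    · by_cases h2 : v = sa
      · subst h2
        exact ⟨fun h' => h'.elim (fun h' => absurd h' m46) (fun h' => absurd h' m47),
          fun h' => h'.elim (fun h' => absurd h' h.n13) (fun h' => absurd h' h.n14)⟩
      · simpa only [h1, h2, false_or] using e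
  refine ⟨rfl, rfl, ?_⟩
  rw [hT]
  ext v
  simp only [mem_insert, mem_singleton]
  have := hs v
  constructor
  · rintro (h' | h' | h' | h')
    · exact Or.inl h'
    · exact Or.inr (((hs v).1 (Or.inl h')).elim Or.inl (fun h' => Or.inr (Or.inl h')))
    · exact Or.inr (((hs v).1 (Or.inr h')).elim Or.inl (fun h' => Or.inr (Or.inl h')))
    · exact Or.inr (Or.inr (Or.inr h'))
  · rintro (h' | h' | h' | h')
    · exact Or.inl h'
    · exact Or.inr (((hs v).2 (Or.inl h')).elim Or.inl (fun h' => Or.inr (Or.inl h')))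
    · exact Or.inr (((hs v).2 (Or.inr h')).elim Or.inl (fun h' => Or.inr (Or.inl h')))
    · exact Or.inr (Or.inr (Or.inr h'))

/-- exchange of `x` and `x'` -/
theorem TB.swap {w x x' s₁ s₂ s₃ s₄ : α} (h : TB G w x x' s₁ s₂ s₃ s₄) :
    TB G w x' x s₂ s₁ s₃ s₄ := by
  refine ⟨⟨?_, fun r => ?_, h.ty.nx', h.ty.nx⟩, h.wx', h.wx, h.xx'.symm, h.w2, h.w1, h.w3, h.w4, h.y2,
    h.y1, h.y3, h.y4, h.x2, h.x1, h.x3, h.x4, h.n12.symm, h.n23, h.n24, h.n13, h.n14, h.n34⟩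
  · simp only [List.nodup_cons, List.mem_cons, List.not_mem_nil, or_false, not_or,
      not_false_eq_true, List.nodup_nil, and_true]
    exact ⟨⟨h.wx', h.wx, h.w2, h.w1, h.w3, h.w4⟩, ⟨h.xx'.symm, h.y2, h.y1, h.y3, h.y4⟩,
      ⟨h.x2, h.x1, h.x3, h.x4⟩, ⟨h.n12.symm, h.n23, h.n24⟩, ⟨h.n13, h.n14⟩, h.n34⟩
  · rw [h.ty.nw]
    constructor
    · rintro (h' | h' | h' | h')
      · exact Or.inr (Or.inl h')
      · exact Or.inl h'
      · exact Or.inr (Or.inr (Or.inr h'))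
      · exact Or.inr (Or.inr (Or.inl h'))
    · rintro (h' | h' | h' | h')
      · exact Or.inr (Or.inl h')
      · exact Or.inl h'
      · exact Or.inr (Or.inr (Or.inr h'))
      · exact Or.inr (Or.inr (Or.inl h'))

/-- (be) with middle `w` -/
theorem sepW_of_be {w x x' s₁ s₂ s₃ s₄ : α} (h : TB G w x x' s₁ s₂ s₃ s₄) {T X Y : Finset α}
    (hS : Sep G T X Y) {y z sa sc s s' q : α}
    (hg : TBe G {w, x, x'} T X Y w y z sa sc s s' q) :
    ∃ A B, SepW G w x x' s₁ s₂ s₃ s₄ T A B q := by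
  have hF' : ∀ v, (v = w ∨ v = x ∨ v = x') ↔ (v = w ∨ v = y ∨ v = z) := by
    intro v
    have : v ∈ ({w, x, x'} : Finset α) ↔ v ∈ ({w, y, z} : Finset α) := by rw [← hg.hF]
    simpa only [mem_insert, mem_singleton] using this
  have nd := hg.nd
  simp only [List.nodup_cons, List.mem_cons, List.not_mem_nil, or_false, not_or,
      not_false_eq_true, List.nodup_nil, and_true] at nd
  obtain ⟨⟨m12, m13, -⟩, ⟨m23, -⟩, -⟩ := nd
  have e1 : y = x ∨ y = x' := by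
    rcases (hF' y).2 (Or.inr (Or.inl rfl)) with h1 | h1 | h1
    · exact absurd h1.symm m12
    · exact Or.inl h1
    · exact Or.inr h1
  have e2 : z = x ∨ z = x' := by
    rcases (hF' z).2 (Or.inr (Or.inr rfl)) with h1 | h1 | h1
    · exact absurd h1.symm m13
    · exact Or.inl h1
    · exact Or.inr h1
  rcases N3AM.pair_eq e1 e2 m23 with ⟨rfl, rfl⟩ | ⟨rfl, rfl⟩
  · obtain ⟨r1, r2, r3⟩ := sepW_aux h hg
    refine ⟨X, Y, hS, r3, hg.hX.1, ?_, hg.hY.1, ?_⟩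
    · rw [← r1]; exact hg.hX.2
    · rw [← r2]; exact hg.hY.2
  · have hsw : ({w, z, y} : Finset α) = {w, y, z} := by
      rw [pair_comm]
    have hg' : TBe G {w, y, z} T X Y w y z sa sc s s' q := hsw ▸ hg
    obtain ⟨r1, r2, r3⟩ := sepW_aux h.swap hg'
    refine ⟨Y, X, hS.symm, r3, hg.hY.1, ?_, hg.hX.1, ?_⟩
    · rw [← r2]; exact hg.hY.2
    · rw [← r1]; exact hg.hX.2

/-- no (be) with middle `x` -/
theorem no_be {w x x' s₁ s₂ s₃ s₄ : α} (h : TB G w x x' s₁ s₂ s₃ s₄) {T X Y : Finset α}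
    {y z sa sc s s' q : α} (hg : TBe G {w, x, x'} T X Y x y z sa sc s s' q) : False := by
  obtain ⟨nd, hF, hN, hT, hX, hY, ny, nz, xa, xc⟩ := hg
  simp only [List.nodup_cons, List.mem_cons, List.not_mem_nil, or_false, not_or,
      not_false_eq_true, List.nodup_nil, and_true] at nd
  obtain ⟨⟨m12, m13, m14, m15, m16, m17, m18⟩, ⟨m23, m24, m25, m26, m27, m28⟩,
    ⟨m34, m35, m36, m37, m38⟩, ⟨m45, m46, m47, m48⟩, ⟨m56, m57, m58⟩, ⟨m67, m68⟩, m78⟩ := nd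
  have hF' : ∀ v, (v = w ∨ v = x ∨ v = x') ↔ (v = x ∨ v = y ∨ v = z) := by
    intro v
    have : v ∈ ({w, x, x'} : Finset α) ↔ v ∈ ({x, y, z} : Finset α) := by rw [hF]
    simpa only [mem_insert, mem_singleton] using this
  have hyz : ¬ G.Adj y z := by
    rw [ny]
    rintro (h' | h' | h' | h')
    · exact m13 h'.symm
    · exact m34 h'
    · exact m36 h'
    · exact m37 h'
  have hwx : G.Adj w x' := (h.ty.nw x').2 (Or.inr (Or.inl rfl))
  rcases (hF' w).1 (Or.inl rfl) with h1 | h1 | h1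
  · exact h.wx h1
  · rcases (hF' x').1 (Or.inr (Or.inr rfl)) with h2 | h2 | h2
    · exact h.xx' h2.symm
    · exact h.wx' (h1.trans h2.symm)
    · exact hyz (by rw [← h1, ← h2]; exact hwx)
  · rcases (hF' x').1 (Or.inr (Or.inr rfl)) with h2 | h2 | h2
    · exact h.xx' h2.symm
    · exact hyz (by rw [← h1, ← h2]; exact hwx.symm)
    · exact h.wx' (h1.trans h2.symm)

/-- no (ga) through `w` -/
theorem no_ga {w x x' s₁ s₂ s₃ s₄ : α} (h : TB G w x x' s₁ s₂ s₃ s₄) {T X Y : Finset α}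
    {x₂ w₂ t₁ t₂ t₃ t₄ q₁ q₂ : α}
    (hg : TGa G {w, x, x'} T X Y w x₂ w₂ t₁ t₂ t₃ t₄ q₁ q₂) : False := by
  obtain ⟨nd, hF, hN, hT, hX, hY, nw, ad⟩ := hg
  simp only [List.nodup_cons, List.mem_cons, List.not_mem_nil, or_false, not_or,
      not_false_eq_true, List.nodup_nil, and_true] at nd
  obtain ⟨⟨m12, m13, -⟩, ⟨m23, -⟩, -⟩ := nd
  have hF' : ∀ v, (v = w ∨ v = x ∨ v = x') ↔ (v = w ∨ v = x₂ ∨ v = w₂) := by
    intro v
    have : v ∈ ({w, x, x'} : Finset α) ↔ v ∈ ({w, x₂, w₂} : Finset α) := by rw [← hF]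
    simpa only [mem_insert, mem_singleton] using this
  have hadj : G.Adj w₂ x₂ := (nw x₂).2 (Or.inr (Or.inl rfl))
  have e1 : x₂ = x ∨ x₂ = x' := by
    rcases (hF' x₂).2 (Or.inr (Or.inl rfl)) with h1 | h1 | h1
    · exact absurd h1.symm m12
    · exact Or.inl h1
    · exact Or.inr h1
  have e2 : w₂ = x ∨ w₂ = x' := by
    rcases (hF' w₂).2 (Or.inr (Or.inr rfl)) with h1 | h1 | h1
    · exact absurd h1.symm m13
    · exact Or.inl h1
    · exact Or.inr h1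
  rcases N3AM.pair_eq e1 e2 m23 with ⟨h1, h2⟩ | ⟨h1, h2⟩
  · exact h.not_adj (by rw [← h1, ← h2]; exact hadj.symm)
  · exact h.not_adj (by rw [← h1, ← h2]; exact hadj)

theorem card_F {w x x' s₁ s₂ s₃ s₄ : α} (h : TB G w x x' s₁ s₂ s₃ s₄) :
    ({w, x, x'} : Finset α).card = 3 := by
  rw [card_insert_of_notMem, card_insert_of_notMem, card_singleton]
  · simpa using h.xx'
  · simp only [mem_insert, mem_singleton, not_or]
    exact ⟨h.wx, h.wx'⟩

theorem exists_sepX (hFRG : SpecFRG) (hCLS : SpecCLS) {w x x' s₁ s₂ s₃ s₄ : α}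
    (h : TB G w x x' s₁ s₂ s₃ s₄) (hK : K48 G) (hM : MFrag G {w, x, x'}) (hSD : SD3 G {w, x, x'})
    (hr : ¬ Rig G x) : ∃ T U V q₁ q₂, SepX G w x x' s₁ s₂ s₃ s₄ T U V q₁ q₂ ∧ q₁ ≠ q₂ ∧ q₁ ≠ s₃ ∧
      q₁ ≠ s₄ ∧ q₂ ≠ s₃ ∧ q₂ ≠ s₄ := by
  have hx : x ∈ ({w, x, x'} : Finset α) := by simp
  obtain ⟨S, P, Q, hS, h4, hxS, hP, hQ⟩ := hFRG.nrig.1 hr
  obtain ⟨hP3, hQ3⟩ := hSD x hx S P Q hS h4 hxS hP hQ
  rcases hCLS hK hM (le_of_eq (card_F h).symm) hx hS h4 hxS hP3 hQ3 with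
    ⟨y, z, sa, sc, s, s', q, h'⟩ | ⟨x', w, s₁, s₂, s₃, s₄, q₁, q₂, h'⟩ |
    ⟨x', w, s₁, s₂, s₃, s₄, q₁, q₂, h'⟩ | ⟨x', z, z', s₁, s₂, s₃, s₄, q₁, q₂, h'⟩
  · exact (no_be h h').elim
  · exact ⟨_, _, _, _, _, sepX_of_ga h hS hQ3 h'⟩
  · exact ⟨_, _, _, _, _, sepX_of_ga h hS.symm hP3 h'⟩
  · exact absurd (N3AM.al_card h') (by rw [card_F h]; omega)

theorem exists_sepW (hFRG : SpecFRG) (hCLS : SpecCLS) {w x x' s₁ s₂ s₃ s₄ : α}
    (h : TB G w x x' s₁ s₂ s₃ s₄) (hK : K48 G) (hM : MFrag G {w, x, x'}) (hSD : SD3 G {w, x, x'})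
    (hr : ¬ Rig G w) : ∃ T A B q, SepW G w x x' s₁ s₂ s₃ s₄ T A B q := by
  have hx : w ∈ ({w, x, x'} : Finset α) := by simp
  obtain ⟨S, P, Q, hS, h4, hxS, hP, hQ⟩ := hFRG.nrig.1 hr
  obtain ⟨hP3, hQ3⟩ := hSD w hx S P Q hS h4 hxS hP hQ
  rcases hCLS hK hM (le_of_eq (card_F h).symm) hx hS h4 hxS hP3 hQ3 with
    ⟨y, z, sa, sc, s, s', q, h'⟩ | ⟨x', w, s₁, s₂, s₃, s₄, q₁, q₂, h'⟩ |
    ⟨x', w, s₁, s₂, s₃, s₄, q₁, q₂, h'⟩ | ⟨x', z, z', s₁, s₂, s₃, s₄, q₁, q₂, h'⟩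
  · obtain ⟨A, B, hAB⟩ := sepW_of_be h hS h'
    exact ⟨_, A, B, _, hAB⟩
  · exact (no_ga h h').elim
  · exact (no_ga h h').elim
  · exact absurd (N3AM.al_card h') (by rw [card_F h]; omega)

/-- a corner of `V` is empty -/
theorem corner_empty (hFRG : SpecFRG) (hK : K48 G) {T₁ U V T₂ A B : Finset α}
    (h1 : Sep G T₁ U V) (h2 : Sep G T₂ A B) {x w s₁ s₃ s₄ qA : α}
    (hx : ∀ r, G.Adj x r ↔ r = w ∨ r = s₁ ∨ r = s₃ ∨ r = s₄) (hTA : T₁ ∩ A ⊆ {x, qA})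
    (hTT : T₁ ∩ T₂ = ∅) (hVT : V ∩ T₂ ⊆ {s₃, s₄}) (hw : w ∈ T₂) (hs₁ : s₁ ∈ U) (hs₃ : s₃ ∈ T₂)
    (hs₄ : s₄ ∈ T₂) (hwU : w ∈ U) (hqA : qA ∈ T₁) (hs₃V : s₃ ∈ V) (hs₄V : s₄ ∈ V) : V ∩ A = ∅ := by
  by_contra hne
  have hcor := hFRG.corner h1.symm h2
  refine hFRG.few (W := {qA, s₃, s₄}) (r := w) hK.1 (inter_subset_left.trans h1.subQ)
    (nonempty_iff_ne_empty.2 hne) ?_ (card_le_three) (h1.subP hwU) ?_ ?_
  · intro v hv
    have hvx : v ≠ x := by
      rintro rfl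
      obtain ⟨-, a, ha, hav⟩ := N3AM.mem_NB.1 hv
      rw [mem_inter] at ha
      have hva := (hx a).1 hav.symm
      rcases hva with rfl | rfl | rfl | rfl
      · exact Finset.disjoint_left.1 h2.2.1 hw ha.2
      · exact Finset.disjoint_left.1 h1.2.2.2.1 hs₁ ha.1
      · exact Finset.disjoint_left.1 h2.2.1 hs₃ ha.2
      · exact Finset.disjoint_left.1 h2.2.1 hs₄ ha.2
    have h3 := hcor hv
    rw [mem_union, mem_union] at h3
    rcases h3 with (h3 | h3) | h3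
    · have := hTA h3
      rw [mem_insert, mem_singleton] at this
      rcases this with this | this
      · exact absurd this hvx
      · rw [this]; simp
    · rw [hTT] at h3
      exact absurd h3 (notMem_empty _)
    · have := hVT h3
      rw [mem_insert, mem_singleton] at this
      rcases this with this | this
      · rw [this]; simp
      · rw [this]; simp
  · intro hwV
    rw [mem_inter] at hwV
    exact Finset.disjoint_left.1 h2.2.1 hw hwV.2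
  · simp only [mem_insert, mem_singleton, not_or]
    refine ⟨?_, ?_, ?_⟩
    · rintro rfl
      exact Finset.disjoint_left.1 h1.2.1 hqA hwU
    · rintro rfl
      exact Finset.disjoint_left.1 h1.2.2.2.1 hwU hs₃V
    · rintro rfl
      exact Finset.disjoint_left.1 h1.2.2.2.1 hwU hs₄V

theorem SepX.swap {w x x' s₁ s₂ s₃ s₄ q₁ q₂ : α} {T U V : Finset α}
    (h : SepX G w x x' s₁ s₂ s₃ s₄ T U V q₁ q₂) : SepX G w x x' s₁ s₂ s₃ s₄ T U V q₂ q₁ :=
  ⟨h.sep, by rw [h.hT, pair_comm q₁ q₂], h.wU, h.s₁U, h.s₂U, h.s₃V, h.s₄V, h.cV⟩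

theorem four_corners (hFRG : SpecFRG) (hK : K48 G) {w x x' s₁ s₂ s₃ s₄ q₁ q₂ q : α}
    {T U V T' A B : Finset α} (hX : SepX G w x x' s₁ s₂ s₃ s₄ T U V q₁ q₂)
    (hW : SepW G w x x' s₁ s₂ s₃ s₄ T' A B q) :
    4 ≤ (T ∩ A).card + (T ∩ T').card + (U ∩ T').card ∧
      4 ≤ (T ∩ B).card + (T ∩ T').card + (U ∩ T').card := by
  refine ⟨hFRG.four hK.1 hX.sep hW.sep ⟨s₁, mem_inter.2 ⟨hX.s₁U, hW.s₁A⟩⟩
    ⟨s₃, mem_union_left _ hX.s₃V⟩, hFRG.four hK.1 hX.sep hW.sep.symm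
    ⟨s₂, mem_inter.2 ⟨hX.s₂U, hW.s₂B⟩⟩ ⟨s₃, mem_union_left _ hX.s₃V⟩⟩

theorem final1 (hFRG : SpecFRG) (hK : K48 G) {w x x' s₁ s₂ s₃ s₄ q₁ q₂ q : α}
    {T U V T' A B : Finset α} (hX : SepX G w x x' s₁ s₂ s₃ s₄ T U V q₁ q₂)
    (hW : SepW G w x x' s₁ s₂ s₃ s₄ T' A B q) (_ : q₁ ≠ q₂) (hqT : q₁ ∈ T') : False := by
  obtain ⟨f1, f2⟩ := four_corners hFRG hK hX hW
  have dTU := Finset.disjoint_left.1 hX.sep.2.1
  have dTV := Finset.disjoint_left.1 hX.sep.2.2.1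
  have dUV := Finset.disjoint_left.1 hX.sep.2.2.2.1
  have dTA := Finset.disjoint_left.1 hW.sep.2.1
  have dTB := Finset.disjoint_left.1 hW.sep.2.2.1
  have dAB := Finset.disjoint_left.1 hW.sep.2.2.2.1
  have q₁T : q₁ ∈ T := by rw [hX.hT]; simp
  have q₂T : q₂ ∈ T := by rw [hX.hT]; simp
  have key : ∀ v, v ∈ T → v ∈ T' → v = q := by
    intro v hv hv'
    rw [hW.hT] at hv'
    simp only [mem_insert, mem_singleton] at hv'
    rcases hv' with rfl | rfl | rfl | h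
    · exact absurd hX.wU (dTU hv)
    · exact absurd hX.s₃V (dTV hv)
    · exact absurd hX.s₄V (dTV hv)
    · exact h
  have e1 := key _ q₁T hqT
  have c1 : (T ∩ T').card ≤ 1 := by
    rw [card_le_one]
    intro a ha b hb
    rw [mem_inter] at ha hb
    exact (key a ha.1 ha.2).trans (key b hb.1 hb.2).symm
  have c2 : (U ∩ T').card ≤ 1 := by
    have h1 : U ∩ T' ⊆ {w} := by
      intro v hv
      rw [mem_inter] at hv
      have hv2 := hv.2
      rw [hW.hT] at hv2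
      simp only [mem_insert, mem_singleton] at hv2
      rcases hv2 with h | h | h | h
      · rw [h]; simp
      · exact absurd hX.s₃V (dUV (h ▸ hv.1))
      · exact absurd hX.s₄V (dUV (h ▸ hv.1))
      · rw [← e1] at h
        exact absurd (h ▸ hv.1) (dTU q₁T)
    simpa using card_le_card h1
  by_cases h2 : q₂ ∈ A
  · have c3 : (T ∩ B).card ≤ 1 := by
      have h1 : T ∩ B ⊆ {x'} := by
        intro v hv
        rw [mem_inter, hX.hT] at hv
        simp only [mem_insert, mem_singleton] at hv ⊢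
        rcases hv.1 with h | h | h | h
        · exact absurd (h ▸ hv.2) (dAB hW.xA)
        · exact h
        · exact absurd (h ▸ hv.2) (dTB hqT)
        · exact absurd (h ▸ hv.2) (dAB h2)
      simpa using card_le_card h1
    omega
  · have c3 : (T ∩ A).card ≤ 1 := by
      have h1 : T ∩ A ⊆ {x} := by
        intro v hv
        rw [mem_inter, hX.hT] at hv
        simp only [mem_insert, mem_singleton] at hv ⊢
        rcases hv.1 with h | h | h | h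
        · exact h
        · exact absurd hW.xB (dAB (h ▸ hv.2))
        · exact absurd (h ▸ hv.2) (dTA hqT)
        · exact absurd (h ▸ hv.2) h2
      simpa using card_le_card h1
    omega

theorem final2 (hFRG : SpecFRG) (hK : K48 G) {w x x' s₁ s₂ s₃ s₄ q₁ q₂ q : α}
    {T U V T' A B : Finset α} (hT : TB G w x x' s₁ s₂ s₃ s₄)
    (hX : SepX G w x x' s₁ s₂ s₃ s₄ T U V q₁ q₂)
    (hW : SepW G w x x' s₁ s₂ s₃ s₄ T' A B q) (hqU : q ∈ U) (hTT : T ∩ T' = ∅) (h1 : q₁ ∈ A)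
    (h2 : q₂ ∈ B) : False := by
  have dTU := Finset.disjoint_left.1 hX.sep.2.1
  have dTV := Finset.disjoint_left.1 hX.sep.2.2.1
  have dUV := Finset.disjoint_left.1 hX.sep.2.2.2.1
  have dTA := Finset.disjoint_left.1 hW.sep.2.1
  have dTB := Finset.disjoint_left.1 hW.sep.2.2.1
  have dAB := Finset.disjoint_left.1 hW.sep.2.2.2.1
  have q₁T : q₁ ∈ T := by rw [hX.hT]; simp
  have q₂T : q₂ ∈ T := by rw [hX.hT]; simp
  have wT : w ∈ T' := by rw [hW.hT]; simp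
  have s₃T : s₃ ∈ T' := by rw [hW.hT]; simp
  have s₄T : s₄ ∈ T' := by rw [hW.hT]; simp
  have hVT : V ∩ T' ⊆ {s₃, s₄} := by
    intro v hv
    rw [mem_inter, hW.hT] at hv
    simp only [mem_insert, mem_singleton] at hv ⊢
    rcases hv.2 with h | h | h | h
    · exact absurd (h ▸ hv.1) (dUV hX.wU)
    · exact Or.inl h
    · exact Or.inr h
    · exact absurd (h ▸ hv.1) (dUV hqU)
  have e1 : V ∩ A = ∅ := by
    refine corner_empty hFRG hK hX.sep hW.sep (x := x) (w := w) (s₁ := s₁) (s₃ := s₃) (s₄ := s₄)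
      (qA := q₁) hT.ty.nx ?_ hTT hVT wT hX.s₁U s₃T s₄T hX.wU q₁T hX.s₃V hX.s₄V
    intro v hv
    rw [mem_inter, hX.hT] at hv
    simp only [mem_insert, mem_singleton] at hv ⊢
    rcases hv.1 with h | h | h | h
    · exact Or.inl h
    · exact absurd hW.xB (dAB (h ▸ hv.2))
    · exact Or.inr h
    · exact absurd h2 (dAB (h ▸ hv.2))
  have e2 : V ∩ B = ∅ := by
    refine corner_empty hFRG hK hX.sep hW.sep.symm (x := x') (w := w) (s₁ := s₂) (s₃ := s₃) (s₄ := s₄)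
      (qA := q₂) hT.ty.nx' ?_ hTT hVT wT hX.s₂U s₃T s₄T hX.wU q₂T hX.s₃V hX.s₄V
    intro v hv
    rw [mem_inter, hX.hT] at hv
    simp only [mem_insert, mem_singleton] at hv ⊢
    rcases hv.1 with h | h | h | h
    · exact absurd (h ▸ hv.2) (dAB hW.xA)
    · exact Or.inl h
    · exact absurd (h ▸ hv.2) (dAB h1)
    · exact Or.inr h
  have hV : V ⊆ {s₃, s₄} := by
    intro v hv
    rcases hW.sep.mem_or (hX.sep.subQ hv) with h | h | h
    · exact hVT (mem_inter.2 ⟨hv, h⟩)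
    · exact absurd (mem_inter.2 ⟨hv, h⟩) (by rw [e1]; exact notMem_empty _)
    · exact absurd (mem_inter.2 ⟨hv, h⟩) (by rw [e2]; exact notMem_empty _)
  have := card_le_card hV
  have h3 := hX.cV
  have h4 : ({s₃, s₄} : Finset α).card ≤ 2 := card_le_two
  omega

end N3BM

open N3BM in
/-- **N3B** -/
theorem specN3B (hFRG : SpecFRG) (hCLS : SpecCLS) : SpecN3B := by
  intro α _ _ G w x x' s₁ s₂ s₃ s₄ hK hM hSD hrx hrw hty
  have hT := tb_of hty
  obtain ⟨T, U, V, q₁, q₂, hX, hq, -⟩ := exists_sepX hFRG hCLS hT hK hM hSD hrx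
  obtain ⟨T', A, B, q, hW⟩ := exists_sepW hFRG hCLS hT hK hM hSD hrw
  by_cases h1 : q₁ ∈ T'
  · exact final1 hFRG hK hX hW hq h1
  by_cases h2 : q₂ ∈ T'
  · exact final1 hFRG hK hX.swap hW hq.symm h2
  have dTU := Finset.disjoint_left.1 hX.sep.2.1
  have dTV := Finset.disjoint_left.1 hX.sep.2.2.1
  have dUV := Finset.disjoint_left.1 hX.sep.2.2.2.1
  have dTA := Finset.disjoint_left.1 hW.sep.2.1
  have dTB := Finset.disjoint_left.1 hW.sep.2.2.1
  have dAB := Finset.disjoint_left.1 hW.sep.2.2.2.1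
  have hTT : T ∩ T' = ∅ := by
    rw [← not_nonempty_iff_eq_empty]
    rintro ⟨v, hv⟩
    rw [mem_inter, hX.hT] at hv
    simp only [mem_insert, mem_singleton] at hv
    rcases hv.1 with h | h | h | h
    · exact absurd hW.xA (dTA (h ▸ hv.2))
    · exact absurd hW.xB (dTB (h ▸ hv.2))
    · exact h1 (h ▸ hv.2)
    · exact h2 (h ▸ hv.2)
  obtain ⟨f1, f2⟩ := four_corners hFRG hK hX hW
  rw [hTT, card_empty] at f1 f2
  have hT4 : T.card ≤ 4 := by rw [hX.hT]; exact card_le_four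
  have hsum : (T ∩ A).card + (T ∩ B).card ≤ T.card := by
    rw [← card_union_of_disjoint]
    · exact card_le_card (union_subset inter_subset_left inter_subset_left)
    · rw [Finset.disjoint_left]
      intro v hv hv'
      exact dAB (mem_inter.1 hv).2 (mem_inter.1 hv').2
  by_cases hqU : q ∈ U
  · have hUT : (U ∩ T').card ≤ 2 := by
      have : U ∩ T' ⊆ {w, q} := by
        intro v hv
        rw [mem_inter, hW.hT] at hv
        simp only [mem_insert, mem_singleton] at hv ⊢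
        rcases hv.2 with h | h | h | h
        · exact Or.inl h
        · exact absurd hX.s₃V (dUV (h ▸ hv.1))
        · exact absurd hX.s₄V (dUV (h ▸ hv.1))
        · exact Or.inr h
      exact (card_le_card this).trans card_le_two
    have hA : q₁ ∈ A ∨ q₂ ∈ A := by
      by_contra hc
      rw [not_or] at hc
      have : T ∩ A ⊆ {x} := by
        intro v hv
        rw [mem_inter, hX.hT] at hv
        simp only [mem_insert, mem_singleton] at hv ⊢
        rcases hv.1 with h | h | h | h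
        · exact h
        · exact absurd hW.xB (dAB (h ▸ hv.2))
        · exact absurd (h ▸ hv.2) hc.1
        · exact absurd (h ▸ hv.2) hc.2
      have := card_le_card this
      rw [card_singleton] at this
      omega
    have hB : q₁ ∈ B ∨ q₂ ∈ B := by
      by_contra hc
      rw [not_or] at hc
      have : T ∩ B ⊆ {x'} := by
        intro v hv
        rw [mem_inter, hX.hT] at hv
        simp only [mem_insert, mem_singleton] at hv ⊢
        rcases hv.1 with h | h | h | h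
        · exact absurd (h ▸ hv.2) (dAB hW.xA)
        · exact h
        · exact absurd (h ▸ hv.2) hc.1
        · exact absurd (h ▸ hv.2) hc.2
      have := card_le_card this
      rw [card_singleton] at this
      omega
    rcases hA with hA | hA
    · rcases hB with hB | hB
      · exact dAB hA hB
      · exact final2 hFRG hK hT hX hW hqU hTT hA hB
    · rcases hB with hB | hB
      · exact final2 hFRG hK hT hX.swap hW hqU hTT hA hB
      · exact dAB hA hB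
  · have hUT : (U ∩ T').card ≤ 1 := by
      have : U ∩ T' ⊆ {w} := by
        intro v hv
        rw [mem_inter, hW.hT] at hv
        simp only [mem_insert, mem_singleton] at hv ⊢
        rcases hv.2 with h | h | h | h
        · exact h
        · exact absurd hX.s₃V (dUV (h ▸ hv.1))
        · exact absurd hX.s₄V (dUV (h ▸ hv.1))
        · exact absurd (h ▸ hv.1) hqU
      simpa using card_le_card this
    omega

end DL
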