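import Pool.Agent.DL.G4.Spec
import Pool.Agent.DL.NP.PAI

/-!
# MP_3ff0f8_gt, algebra half, G4 block, module N6B (helper98)
-/

set_option autoImplicit false
set_option linter.unusedSectionVars false
set_option linter.unusedFintypeInType false
set_option linter.unusedDecidableInType false

open SimpleGraph Finset

namespace DL

namespace N6BM

open GALM

variable {α : Type} [Fintype α] [DecidableEq α] {G : SimpleGraph α}

/-! ### Connected sets -/

/-- connected inside `W` -/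
def Rc (G : SimpleGraph α) (W : Finset α) (a b : α) : Prop := (del G (univ \ W)).Reachable a b

theorem Rc.mono {W W' : Finset α} (h : W ⊆ W') {a b : α} (hr : Rc G W a b) : Rc G W' a b :=
  Reachable.mono (del_anti (sdiff_subset_sdiff (Subset.refl _) h)) hr

theorem Rc.adj {W : Finset α} {a b : α} (h : G.Adj a b) (ha : a ∈ W) (hb : b ∈ W) : Rc G W a b :=
  Adj.reachable ⟨h, by simp [ha], by simp [hb]⟩

/-- connected set -/
def Cn (G : SimpleGraph α) (W : Finset α) : Prop := ∀ a ∈ W, ∀ b ∈ W, Rc G W a b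

theorem Cn.of_root {W : Finset α} {r : α} (h : ∀ a ∈ W, Rc G W a r) : Cn G W :=
  fun a ha b hb => (h a ha).trans (h b hb).symm

theorem Cn.insert {W : Finset α} (h : Cn G W) {a q : α} (ha : a ∈ W) (hq : G.Adj q a) :
    Cn G (insert q W) := by
  refine Cn.of_root (r := a) fun b hb => ?_
  rcases mem_insert.1 hb with rfl | hb
  · exact Rc.adj hq (mem_insert_self _ _) (mem_insert_of_mem ha)
  · exact (h b hb a ha).mono (subset_insert _ _)

theorem connOff_of_Cn {W S T : Finset α} (hW : Cn G W)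
    (h1 : ∀ v ∈ VS G, v ∉ S → v ∉ T → v ∈ W) (h2 : ∀ v ∈ W, v ∉ S ∧ v ∉ T) :
    ConnOff (del G S) T := by
  intro a ha b hb haT hbT
  have ha' := mem_sdiff.1 (VS_del_subset _ ha)
  have hb' := mem_sdiff.1 (VS_del_subset _ hb)
  refine Reachable.mono ?_ (hW a (h1 a ha'.1 ha'.2 haT) b (h1 b hb'.1 hb'.2 hbT))
  intro i j hij
  have hi : i ∈ W := by
    have := hij.2.1
    rw [mem_sdiff, not_and, not_not] at this
    exact this (mem_univ _)
  have hj : j ∈ W := by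
    have := hij.2.2
    rw [mem_sdiff, not_and, not_not] at this
    exact this (mem_univ _)
  exact ⟨⟨hij.1, (h2 i hi).1, (h2 j hj).1⟩, (h2 i hi).2, (h2 j hj).2⟩

/-- `a` vanishes on the chains which avoid a path from `k` to `l` -/
def Fn (G : SimpleGraph α) (z k l : α) (a : Chain α) : Prop :=
  ∀ P, IsPth (del G {z}) k l P → ∀ Z ∈ Z1 (del G (insert z (vs P))), pr a Z = 0

theorem vs_sub {P : Finset (Sym2 α)} {W : Finset α} {i j : α}
    (h : IsPth (del G (univ \ W)) i j P) : vs P ⊆ W := by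
  have h1 := vs_of_isPth_del h
  intro v hv
  by_contra hvW
  exact Finset.disjoint_left.1 h1 hv (by simp [hvW])

theorem Fn.region {z k l : α} {a : Chain α} (h : Fn G z k l a) {W S : Finset α} (hz : z ∉ W)
    (hr : Rc G W k l) (hS : insert z W ⊆ S) {Z : Chain α} (hZ : Z ∈ Z1 (del G S)) :
    pr a Z = 0 := by
  obtain ⟨P, hP⟩ := exists_isPth hr
  have hP' : IsPth (del G {z}) k l P := hP.mono (del_anti (by
    intro v hv
    rw [mem_singleton] at hv
    rw [hv]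
    simp [hz]))
  exact h P hP' Z (Z1_mono (del_anti ((insert_subset_insert _ (vs_sub hP)).trans hS)) hZ)

/-- a cycle through `v` -/
theorem exists_cyc {v p q : α} (hp : G.Adj v p) (hq : G.Adj v q) (hpq : p ≠ q) {W : Finset α}
    (hv : v ∉ W) (hr : Rc G W p q) :
    ∃ Z ∈ Z1 G, Z s(v, p) = 1 ∧ ∀ e, Z e ≠ 0 → ∀ u ∈ e, u = v ∨ u ∈ W := by
  obtain ⟨P, hP⟩ := exists_isPth hr
  have hP' : IsPth (del G {v}) p q P := hP.mono (del_anti (by
    intro u hu
    rw [mem_singleton] at hu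
    rw [hu]
    simp [hv]))
  have hC := isCyc_of_isPth_del hp hq hpq hP'
  refine ⟨_, hC.chi_mem, chi_of_mem (mem_insert_self _ _), fun e he u hu => ?_⟩
  have hPW := vs_sub hP
  have he' := chi_ne_zero.1 he
  simp only [mem_insert] at he'
  rcases he' with rfl | rfl | he'
  · rcases Sym2.mem_iff.1 hu with h | h
    · exact Or.inl h
    · exact Or.inr (h ▸ hPW (hP.left_mem hpq))
  · rcases Sym2.mem_iff.1 hu with h | h
    · exact Or.inl h
    · exact Or.inr (h ▸ hPW (hP.right_mem hpq))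
  · exact Or.inr (hPW (mem_vs.2 ⟨e, he', hu⟩))

/-- a chain which misses one of two edges at `v` misses `v` -/
theorem avoid2 {L : SimpleGraph α} {v p q : α} {Z : Chain α} (hZ : Z ∈ Z1 L)
    (hv : ∀ u, L.Adj v u → u = p ∨ u = q) (h0 : Z s(v, p) = 0) : Z ∈ Z1 (del L {v}) := by
  have hother : ∀ e, v ∈ e → e ≠ s(v, q) → Z e = 0 := by
    intro e he hne
    by_contra h
    obtain ⟨u, rfl⟩ := Sym2.mem_iff_exists.1 he
    rcases hv u (hZ.1 _ h) with rfl | rfl
    · exact h h0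
    · exact hne rfl
  have hq : Z s(v, q) = 0 := by
    have h1 := hZ.2 v
    rw [bdy_eq, sum_eq_single s(v, q)] at h1
    · exact h1
    · intro e he hne
      exact hother e (mem_filter.1 he).2 hne
    · intro h
      exact absurd (mem_filter.2 ⟨mem_univ s(v, q), Sym2.mem_mk_left v q⟩ :
        s(v, q) ∈ univ.filter fun e => v ∈ e) h
  refine mem_Z1_del hZ fun e he u hu huv => ?_
  rw [mem_singleton] at huv
  subst huv
  by_cases h : e = s(u, q)
  · exact he (h ▸ hq)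
  · exact he (hother e hu h)

theorem all4 (hk : KConn 4 G) {s a b c d : α} (hs : s ∈ VS G) (h : nbs G s ⊆ {a, b, c, d}) :
    G.Adj s c ∧ G.Adj s d := by
  have h1 : nbs G s = {a, b, c, d} :=
    eq_of_subset_of_card_le h (card_le_four.trans (hk.le_nbs hs))
  constructor
  · rw [← mem_nbs, h1]
    simp
  · rw [← mem_nbs, h1]
    simp

/-! ### The configuration -/

/-- the configuration of N6B -/
structure Cf (G : SimpleGraph α) (x x' z z' s₁ s₂ s₃ s₄ q₁ q₂ : α) (X Y : Finset α) : Prop where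
  k48 : K48 G
  no2 : No2 G
  sep : Sep G {x, x', q₁, q₂} X Y
  nd : [x, x', z, z', s₁, s₂, s₃, s₄, q₁, q₂].Nodup
  zX : z ∈ X
  s1X : s₁ ∈ X
  s2X : s₂ ∈ X
  zY : z' ∈ Y
  s3Y : s₃ ∈ Y
  s4Y : s₄ ∈ Y
  nz : ∀ v, G.Adj z v ↔ v = x ∨ v = x' ∨ v = s₁ ∨ v = s₂
  nz' : ∀ v, G.Adj z' v ↔ v = x ∨ v = x' ∨ v = s₃ ∨ v = s₄
  nx : ∀ v, v ≠ x' → (G.Adj x v ↔ v = z ∨ v = z' ∨ v = s₁ ∨ v = s₃)
  nx' : ∀ v, v ≠ x → (G.Adj x' v ↔ v = z ∨ v = z' ∨ v = s₂ ∨ v = s₄)

variable {x x' z z' s₁ s₂ s₃ s₄ q₁ q₂ : α} {X Y : Finset α}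

theorem Cf.swap (C : Cf G x x' z z' s₁ s₂ s₃ s₄ q₁ q₂ X Y) :
    Cf G x' x z z' s₂ s₁ s₄ s₃ q₁ q₂ X Y where
  k48 := C.k48
  no2 := C.no2
  sep := by
    rw [insert_comm]
    exact C.sep
  nd := by
    have h := C.nd
    simp only [List.nodup_cons, List.mem_cons, List.not_mem_nil, or_false, not_or,
      List.nodup_nil, and_true, not_false_eq_true] at h ⊢
    tauto
  zX := C.zX
  s1X := C.s2X
  s2X := C.s1X
  zY := C.zY
  s3Y := C.s4Y
  s4Y := C.s3Y
  nz := fun v => by rw [C.nz v]; tauto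
  nz' := fun v => by rw [C.nz' v]; tauto
  nx := C.nx'
  nx' := C.nx

theorem Cf.flip (C : Cf G x x' z z' s₁ s₂ s₃ s₄ q₁ q₂ X Y) :
    Cf G x x' z' z s₃ s₄ s₁ s₂ q₁ q₂ Y X where
  k48 := C.k48
  no2 := C.no2
  sep := C.sep.symm
  nd := by
    have h := C.nd
    simp only [List.nodup_cons, List.mem_cons, List.not_mem_nil, or_false, not_or,
      List.nodup_nil, and_true, not_false_eq_true] at h ⊢
    tauto
  zX := C.zY
  s1X := C.s3Y
  s2X := C.s4Y
  zY := C.zX
  s3Y := C.s1X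
  s4Y := C.s2X
  nz := C.nz'
  nz' := C.nz
  nx := fun v hv => by rw [C.nx v hv]; tauto
  nx' := fun v hv => by rw [C.nx' v hv]; tauto

/-- all vertices are different -/
theorem Cf.nes (C : Cf G x x' z z' s₁ s₂ s₃ s₄ q₁ q₂ X Y) :
    x ≠ x' ∧ x' ≠ x ∧ x ≠ z ∧ z ≠ x ∧ x ≠ z' ∧ z' ≠ x ∧ x ≠ s₁ ∧ s₁ ≠ x ∧ x ≠ s₂ ∧ s₂ ≠ x ∧ x
    ≠ s₃ ∧ s₃ ≠ x ∧ x ≠ s₄ ∧ s₄ ≠ x ∧ x ≠ q₁ ∧ q₁ ≠ x ∧ x ≠ q₂ ∧ q₂ ≠ x ∧ x' ≠ z ∧ z ≠ x' ∧ x'
    ≠ z' ∧ z' ≠ x' ∧ x' ≠ s₁ ∧ s₁ ≠ x' ∧ x' ≠ s₂ ∧ s₂ ≠ x' ∧ x' ≠ s₃ ∧ s₃ ≠ x' ∧ x' ≠ s₄ ∧ s₄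
    ≠ x' ∧ x' ≠ q₁ ∧ q₁ ≠ x' ∧ x' ≠ q₂ ∧ q₂ ≠ x' ∧ z ≠ z' ∧ z' ≠ z ∧ z ≠ s₁ ∧ s₁ ≠ z ∧ z ≠ s₂
    ∧ s₂ ≠ z ∧ z ≠ s₃ ∧ s₃ ≠ z ∧ z ≠ s₄ ∧ s₄ ≠ z ∧ z ≠ q₁ ∧ q₁ ≠ z ∧ z ≠ q₂ ∧ q₂ ≠ z ∧ z' ≠ s₁
    ∧ s₁ ≠ z' ∧ z' ≠ s₂ ∧ s₂ ≠ z' ∧ z' ≠ s₃ ∧ s₃ ≠ z' ∧ z' ≠ s₄ ∧ s₄ ≠ z' ∧ z' ≠ q₁ ∧ q₁ ≠ z'
    ∧ z' ≠ q₂ ∧ q₂ ≠ z' ∧ s₁ ≠ s₂ ∧ s₂ ≠ s₁ ∧ s₁ ≠ s₃ ∧ s₃ ≠ s₁ ∧ s₁ ≠ s₄ ∧ s₄ ≠ s₁ ∧ s₁ ≠ q₁
    ∧ q₁ ≠ s₁ ∧ s₁ ≠ q₂ ∧ q₂ ≠ s₁ ∧ s₂ ≠ s₃ ∧ s₃ ≠ s₂ ∧ s₂ ≠ s₄ ∧ s₄ ≠ s₂ ∧ s₂ ≠ q₁ ∧ q₁ ≠ s₂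
    ∧ s₂ ≠ q₂ ∧ q₂ ≠ s₂ ∧ s₃ ≠ s₄ ∧ s₄ ≠ s₃ ∧ s₃ ≠ q₁ ∧ q₁ ≠ s₃ ∧ s₃ ≠ q₂ ∧ q₂ ≠ s₃ ∧ s₄ ≠ q₁
    ∧ q₁ ≠ s₄ ∧ s₄ ≠ q₂ ∧ q₂ ≠ s₄ ∧ q₁ ≠ q₂ ∧ q₂ ≠ q₁ := by
  have hnd := C.nd
  simp only [List.nodup_cons, List.mem_cons, List.not_mem_nil, or_false, not_or,
    List.nodup_nil, and_true, not_false_eq_true] at hnd
  obtain ⟨⟨n01, n02, n03, n04, n05, n06, n07, n08, n09⟩, ⟨n12, n13, n14, n15, n16, n17, n18, n19⟩,
    ⟨n23, n24, n25, n26, n27, n28, n29⟩, ⟨n34, n35, n36, n37, n38, n39⟩, ⟨n45, n46, n47, n48,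
    n49⟩, ⟨n56, n57, n58, n59⟩, ⟨n67, n68, n69⟩, ⟨n78, n79⟩, n89⟩ := hnd
  exact ⟨n01, Ne.symm n01, n02, Ne.symm n02, n03, Ne.symm n03, n04, Ne.symm n04, n05, Ne.symm n05,
    n06, Ne.symm n06, n07, Ne.symm n07, n08, Ne.symm n08, n09, Ne.symm n09, n12, Ne.symm n12,
    n13, Ne.symm n13, n14, Ne.symm n14, n15, Ne.symm n15, n16, Ne.symm n16, n17, Ne.symm n17,
    n18, Ne.symm n18, n19, Ne.symm n19, n23, Ne.symm n23, n24, Ne.symm n24, n25, Ne.symm n25,
    n26, Ne.symm n26, n27, Ne.symm n27, n28, Ne.symm n28, n29, Ne.symm n29, n34, Ne.symm n34,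
    n35, Ne.symm n35, n36, Ne.symm n36, n37, Ne.symm n37, n38, Ne.symm n38, n39, Ne.symm n39,
    n45, Ne.symm n45, n46, Ne.symm n46, n47, Ne.symm n47, n48, Ne.symm n48, n49, Ne.symm n49,
    n56, Ne.symm n56, n57, Ne.symm n57, n58, Ne.symm n58, n59, Ne.symm n59, n67, Ne.symm n67,
    n68, Ne.symm n68, n69, Ne.symm n69, n78, Ne.symm n78, n79, Ne.symm n79, n89, Ne.symm n89⟩

theorem Cf.xy (C : Cf G x x' z z' s₁ s₂ s₃ s₄ q₁ q₂ X Y) {v : α} (hX : v ∈ X) (hY : v ∈ Y) :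
    False := Finset.disjoint_left.1 C.sep.2.2.2.1 hX hY

theorem Cf.tx (C : Cf G x x' z z' s₁ s₂ s₃ s₄ q₁ q₂ X Y) {v : α} (hX : v ∈ X) :
    v ≠ x ∧ v ≠ x' ∧ v ≠ q₁ ∧ v ≠ q₂ := by
  have h := Finset.disjoint_right.1 C.sep.2.1 hX
  simp only [mem_insert, mem_singleton, not_or] at h
  exact h

/-- the neighbours in `X` -/
theorem Cf.adjX (C : Cf G x x' z z' s₁ s₂ s₃ s₄ q₁ q₂ X Y) {v : α} (hv : v ∈ X.erase z) :
    (G.Adj x v → v = s₁) ∧ (G.Adj x' v → v = s₂) ∧ (G.Adj z v → v = s₁ ∨ v = s₂) ∧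
      (G.Adj z' v → False) := by
  obtain ⟨hvz, hvX⟩ := mem_erase.1 hv
  obtain ⟨h1, h2, _, _⟩ := C.tx hvX
  refine ⟨fun h => ?_, fun h => ?_, fun h => ?_, fun h => ?_⟩
  · rcases (C.nx v h2).1 h with e | e | e | e
    · exact absurd e hvz
    · exact (C.xy hvX (e ▸ C.zY)).elim
    · exact e
    · exact (C.xy hvX (e ▸ C.s3Y)).elim
  · rcases (C.nx' v h1).1 h with e | e | e | e
    · exact absurd e hvz
    · exact (C.xy hvX (e ▸ C.zY)).elim
    · exact e
    · exact (C.xy hvX (e ▸ C.s4Y)).elim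
  · rcases (C.nz v).1 h with e | e | e | e
    · exact absurd e h1
    · exact absurd e h2
    · exact Or.inl e
    · exact Or.inr e
  · exact C.sep.2.2.2.2 v hvX z' C.zY h.symm

theorem Cf.s1D (C : Cf G x x' z z' s₁ s₂ s₃ s₄ q₁ q₂ X Y) : s₁ ∈ X.erase z := by
  refine mem_erase.2 ⟨?_, C.s1X⟩
  rintro rfl
  have h := C.nd
  simp at h

theorem Cf.s12 (C : Cf G x x' z z' s₁ s₂ s₃ s₄ q₁ q₂ X Y) : s₁ ≠ s₂ := by
  rintro rfl
  have h := C.nd
  simp at h

/-- a component which misses `s₂` is `s₁` -/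
theorem Cf.claim (hFRG : SpecFRG) (C : Cf G x x' z z' s₁ s₂ s₃ s₄ q₁ q₂ X Y) {a : α}
    (h : ¬ Rc G (X.erase z) a s₂) {v : α} (hv : v ∈ X.erase z)
    (hr : Rc G (X.erase z) a v) : v = s₁ := by
  classical
  by_contra hne
  refine hFRG.few (D := (X.erase z).filter fun v => Rc G (X.erase z) a v ∧ v ≠ s₁)
    (W := {s₁, q₁, q₂}) (r := s₂) C.k48.1 ?_ ⟨v, mem_filter.2 ⟨hv, hr, hne⟩⟩ ?_ card_le_three
    (C.sep.subP C.s2X) ?_ ?_
  · exact (filter_subset _ _).trans ((erase_subset _ _).trans C.sep.subP)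
  · intro w hw
    rw [mem_NB] at hw
    obtain ⟨hw1, b, hb, hbw⟩ := hw
    obtain ⟨hbD, hbr, hb1⟩ := mem_filter.1 hb
    have hb2 : b ≠ s₂ := by
      rintro rfl
      exact h hbr
    have hbX := (mem_erase.1 hbD).2
    obtain ⟨a1, a2, a3, _⟩ := C.adjX hbD
    rcases C.sep.mem_or (right_mem_VS hbw) with hT | hX | hY
    · simp only [mem_insert, mem_singleton] at hT ⊢
      rcases hT with e | e | e | e
      · exact absurd (a1 (e ▸ hbw.symm)) hb1
      · exact absurd (a2 (e ▸ hbw.symm)) hb2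
      · exact Or.inr (Or.inl e)
      · exact Or.inr (Or.inr e)
    · by_cases hwz : w = z
      · rcases a3 (hwz ▸ hbw.symm) with e | e
        · exact absurd e hb1
        · exact absurd e hb2
      · have hwD : w ∈ X.erase z := mem_erase.2 ⟨hwz, hX⟩
        by_cases hw2 : w = s₁
        · rw [hw2]
          exact mem_insert_self _ _
        · exfalso
          exact hw1 (mem_filter.2 ⟨hwD, hbr.trans (Rc.adj hbw hbD hwD), hw2⟩)
    · exact (C.sep.2.2.2.2 b hbX w hY hbw).elim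
  · intro h2
    exact h (mem_filter.1 h2).2.1
  · obtain ⟨_, _, h3, h4⟩ := C.tx C.s2X
    simp only [mem_insert, mem_singleton, not_or]
    exact ⟨C.s12.symm, h3, h4⟩

theorem Cf.adjq (C : Cf G x x' z z' s₁ s₂ s₃ s₄ q₁ q₂ X Y)
    (h : ¬ Rc G (X.erase z) s₁ s₂) (hD : X.erase z = {s₁, s₂}) : G.Adj s₁ q₁ ∧ G.Adj s₁ q₂ := by
  refine all4 C.k48.1 (a := z) (b := x) (C.sep.subP C.s1X) fun w hw => ?_
  rw [mem_nbs] at hw
  obtain ⟨a1, a2, a3, _⟩ := C.adjX C.s1D
  rcases C.sep.mem_or (right_mem_VS hw) with hT | hX | hY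
  · simp only [mem_insert, mem_singleton] at hT ⊢
    rcases hT with e | e | e | e
    · exact Or.inr (Or.inl e)
    · exact absurd (a2 (e ▸ hw.symm)) C.s12
    · exact Or.inr (Or.inr (Or.inl e))
    · exact Or.inr (Or.inr (Or.inr e))
  · by_cases hwz : w = z
    · rw [hwz]
      exact mem_insert_self _ _
    · exfalso
      have hwD : w ∈ X.erase z := mem_erase.2 ⟨hwz, hX⟩
      have hwD' := hwD
      rw [hD] at hwD'
      simp only [mem_insert, mem_singleton] at hwD'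
      rcases hwD' with e | e
      · exact hw.ne e.symm
      · exact h (Rc.adj (e ▸ hw) C.s1D (e ▸ hwD))
  · exact (C.sep.2.2.2.2 s₁ C.s1X w hY hw).elim

/-- `D₁` is disconnected -/
structure Dc (G : SimpleGraph α) (z s₁ s₂ q₁ q₂ : α) (X : Finset α) : Prop where
  eq : X.erase z = {s₁, s₂}
  a11 : G.Adj s₁ q₁
  a12 : G.Adj s₁ q₂
  a21 : G.Adj s₂ q₁
  a22 : G.Adj s₂ q₂

/-- **the alternative** -/
theorem Cf.side (hFRG : SpecFRG) (C : Cf G x x' z z' s₁ s₂ s₃ s₄ q₁ q₂ X Y) :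
    Cn G (X.erase z) ∨ Dc G z s₁ s₂ q₁ q₂ X := by
  by_cases h : Rc G (X.erase z) s₁ s₂
  · left
    refine Cn.of_root (r := s₂) fun a ha => ?_
    by_contra h'
    have e := C.claim hFRG h' ha (Reachable.refl _)
    exact h' (e ▸ h)
  · right
    have h' : ¬ Rc G (X.erase z) s₂ s₁ := fun h' => h h'.symm
    have hD : X.erase z = {s₁, s₂} := by
      apply Finset.Subset.antisymm
      · intro a ha
        rw [mem_insert, mem_singleton]
        by_cases h2 : Rc G (X.erase z) a s₂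
        · right
          have h3 : ¬ Rc G (X.erase z) a s₁ := fun h3 => h (h3.symm.trans h2)
          exact C.swap.claim hFRG h3 ha (Reachable.refl _)
        · left
          exact C.claim hFRG h2 ha (Reachable.refl _)
      · intro a ha
        rw [mem_insert, mem_singleton] at ha
        rcases ha with rfl | rfl
        · exact C.s1D
        · exact C.swap.s1D
    have hD' : X.erase z = {s₂, s₁} := by rw [hD, pair_comm]
    obtain ⟨b1, b2⟩ := C.adjq h hD
    obtain ⟨b3, b4⟩ := C.swap.adjq h' hD'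
    exact ⟨hD, b1, b2, b3, b4⟩

/-- where the vertices are -/
theorem Cf.cases (C : Cf G x x' z z' s₁ s₂ s₃ s₄ q₁ q₂ X Y) {v : α} (hv : v ∈ VS G) :
    v = x ∨ v = x' ∨ v = q₁ ∨ v = q₂ ∨ v = z ∨ v ∈ X.erase z ∨ v = z' ∨ v ∈ Y.erase z' := by
  rcases C.sep.mem_or hv with hT | hX | hY
  · simp only [mem_insert, mem_singleton] at hT
    rcases hT with h | h | h | h
    · exact Or.inl h
    · exact Or.inr (Or.inl h)
    · exact Or.inr (Or.inr (Or.inl h))
    · exact Or.inr (Or.inr (Or.inr (Or.inl h)))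
  · by_cases h : v = z
    · exact Or.inr (Or.inr (Or.inr (Or.inr (Or.inl h))))
    · exact Or.inr (Or.inr (Or.inr (Or.inr (Or.inr (Or.inl (mem_erase.2 ⟨h, hX⟩))))))
  · by_cases h : v = z'
    · exact Or.inr (Or.inr (Or.inr (Or.inr (Or.inr (Or.inr (Or.inl h))))))
    · exact Or.inr (Or.inr (Or.inr (Or.inr (Or.inr (Or.inr (Or.inr (mem_erase.2 ⟨h, hY⟩)))))))

theorem Cf.nd_qq (C : Cf G x x' z z' s₁ s₂ s₃ s₄ q₁ q₂ X Y) : q₁ ≠ q₂ := by
  rintro rfl
  have h := C.nd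
  simp at h

/-- not both sides are disconnected -/
theorem Cf.not_both (C : Cf G x x' z z' s₁ s₂ s₃ s₄ q₁ q₂ X Y)
    (h1 : Dc G z s₁ s₂ q₁ q₂ X) (h2 : Dc G z' s₃ s₄ q₁ q₂ Y) : False := by
  have hn := C.nes
  have hqq : q₁ ≠ q₂ := C.nd_qq
  have hNB : NB G {q₁, q₂} = {s₁, s₂, s₃, s₄} := by
    apply Finset.Subset.antisymm
    · intro w hw
      rw [mem_NB] at hw
      obtain ⟨hw1, b, hb, hbw⟩ := hw
      simp only [mem_insert, mem_singleton, not_or] at hw1 hb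
      have hbx : ¬ G.Adj x b := by
        rcases hb with rfl | rfl
        · rw [C.nx _ (by simp [hn])]
          simp [hn]
        · rw [C.nx _ (by simp [hn])]
          simp [hn]
      have hbx' : ¬ G.Adj x' b := by
        rcases hb with rfl | rfl
        · rw [C.nx' _ (by simp [hn])]
          simp [hn]
        · rw [C.nx' _ (by simp [hn])]
          simp [hn]
      have hbz : ¬ G.Adj z b := by
        rcases hb with rfl | rfl
        · rw [C.nz]
          simp [hn]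
        · rw [C.nz]
          simp [hn]
      have hbz' : ¬ G.Adj z' b := by
        rcases hb with rfl | rfl
        · rw [C.nz']
          simp [hn]
        · rw [C.nz']
          simp [hn]
      rcases C.cases (right_mem_VS hbw) with e | e | e | e | e | h | e | h
      · exact absurd (e ▸ hbw.symm) hbx
      · exact absurd (e ▸ hbw.symm) hbx'
      · exact absurd e hw1.1
      · exact absurd e hw1.2
      · exact absurd (e ▸ hbw.symm) hbz
      · rw [h1.eq] at h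
        simp only [mem_insert, mem_singleton] at h ⊢
        rcases h with h | h
        · exact Or.inl h
        · exact Or.inr (Or.inl h)
      · exact absurd (e ▸ hbw.symm) hbz'
      · rw [h2.eq] at h
        simp only [mem_insert, mem_singleton] at h ⊢
        rcases h with h | h
        · exact Or.inr (Or.inr (Or.inl h))
        · exact Or.inr (Or.inr (Or.inr h))
    · intro w hw
      rw [mem_NB]
      simp only [mem_insert, mem_singleton] at hw
      rcases hw with rfl | rfl | rfl | rfl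
      · exact ⟨by simp [hn], q₁, by simp, h1.a11.symm⟩
      · exact ⟨by simp [hn], q₁, by simp, h1.a21.symm⟩
      · exact ⟨by simp [hn], q₁, by simp, h2.a11.symm⟩
      · exact ⟨by simp [hn], q₁, by simp, h2.a21.symm⟩
  have hF : Frag G {q₁, q₂} := by
    refine ⟨?_, by rw [card_pair hqq], ?_, ?_⟩
    · intro v hv
      apply C.sep.subS
      simp only [mem_insert, mem_singleton] at hv ⊢
      rcases hv with h | h
      · exact Or.inr (Or.inr (Or.inl h))
      · exact Or.inr (Or.inr (Or.inr h))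
    · rw [hNB]
      rw [card_insert_of_notMem, card_insert_of_notMem, card_insert_of_notMem, card_singleton]
      · simp [hn]
      · simp [hn]
      · simp [hn]
    · rw [hNB]
      have h3 : ({z, z'} : Finset α) ⊆ VS G \ ({q₁, q₂} ∪ {s₁, s₂, s₃, s₄}) := by
        intro v hv
        simp only [mem_insert, mem_singleton] at hv
        rw [mem_sdiff]
        rcases hv with rfl | rfl
        · exact ⟨C.sep.subP C.zX, by simp [hn]⟩
        · exact ⟨C.sep.subQ C.zY, by simp [hn]⟩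
      have h4 := card_le_card h3
      rw [card_pair (by simp [hn])] at h4
      exact h4
  have h3 := C.no2 _ hF
  rw [card_pair hqq] at h3
  omega

/-- `q₁`, `q₂` have neighbours in `D₁` -/
theorem Cf.qadj (C : Cf G x x' z z' s₁ s₂ s₃ s₄ q₁ q₂ X Y) {q : α} (hq : q = q₁ ∨ q = q₂) :
    ∃ d ∈ X.erase z, G.Adj q d := by
  have hn := C.nes
  have hqT : q ∈ ({x, x', q₁, q₂} : Finset α) := by
    rcases hq with rfl | rfl
    · simp
    · simp
  have hqz : ¬ G.Adj z q := by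
    rcases hq with rfl | rfl
    · rw [C.nz]
      simp [hn]
    · rw [C.nz]
      simp [hn]
  obtain ⟨d, hd, hqd⟩ := C.k48.1.exists_adj_of_sep C.sep ⟨z, C.zX⟩ card_le_four hqT
  refine ⟨d, mem_erase.2 ⟨?_, hd⟩, hqd⟩
  rintro rfl
  exact hqz hqd.symm

/-- `D₁ ∪ {q₁, q₂}` is connected -/
theorem Cf.cnq (hFRG : SpecFRG) (C : Cf G x x' z z' s₁ s₂ s₃ s₄ q₁ q₂ X Y) :
    Cn G (insert q₁ (insert q₂ (X.erase z))) := by
  rcases C.side hFRG with h | h
  · obtain ⟨d, hd, h1⟩ := C.qadj (Or.inl rfl)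
    obtain ⟨d', hd', h2⟩ := C.qadj (Or.inr rfl)
    exact (h.insert hd' h2).insert (mem_insert_of_mem hd) h1
  · rw [h.eq]
    refine Cn.of_root (r := q₁) fun a ha => ?_
    have m1 : s₁ ∈ insert q₁ (insert q₂ ({s₁, s₂} : Finset α)) := by simp
    have m2 : s₂ ∈ insert q₁ (insert q₂ ({s₁, s₂} : Finset α)) := by simp
    have m3 : q₁ ∈ insert q₁ (insert q₂ ({s₁, s₂} : Finset α)) := by simp
    have m4 : q₂ ∈ insert q₁ (insert q₂ ({s₁, s₂} : Finset α)) := by simp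
    have r1 := Rc.adj h.a11 m1 m3
    simp only [mem_insert, mem_singleton] at ha
    rcases ha with rfl | rfl | rfl | rfl
    · exact Reachable.refl _
    · exact (Rc.adj h.a12.symm m4 m1).trans r1
    · exact r1
    · exact Rc.adj h.a21 m2 m3

/-- vertices of `D₁` -/
theorem Cf.neX (C : Cf G x x' z z' s₁ s₂ s₃ s₄ q₁ q₂ X Y) {v : α} (hv : v ∈ X.erase z) :
    v ≠ x ∧ v ≠ x' ∧ v ≠ q₁ ∧ v ≠ q₂ ∧ v ≠ z ∧ v ≠ z' ∧ v ≠ s₃ ∧ v ≠ s₄ ∧ v ∉ Y.erase z' := by
  obtain ⟨h1, h2⟩ := mem_erase.1 hv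
  obtain ⟨h3, h4, h5, h6⟩ := C.tx h2
  refine ⟨h3, h4, h5, h6, h1, ?_, ?_, ?_, ?_⟩
  · rintro rfl
    exact C.xy h2 C.zY
  · rintro rfl
    exact C.xy h2 C.s3Y
  · rintro rfl
    exact C.xy h2 C.s4Y
  · intro h
    exact C.xy h2 (mem_erase.1 h).2

/-- a cycle through `q₁q₂` in `D₂ ∪ {q₁, q₂}` -/
theorem Cf.cycq (C : Cf G x x' z z' s₁ s₂ s₃ s₄ q₁ q₂ X Y) (h2 : Cn G (Y.erase z'))
    (hq : G.Adj q₁ q₂) : ∃ Z ∈ Z1 G, Z s(q₁, q₂) = 1 ∧
      ∀ e, Z e ≠ 0 → ∀ u ∈ e, u = q₁ ∨ u = q₂ ∨ u ∈ Y.erase z' := by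
  obtain ⟨d, hd, h3⟩ := C.flip.qadj (Or.inl rfl)
  obtain ⟨d', hd', h4⟩ := C.flip.qadj (Or.inr rfl)
  have h5 := h2.insert hd' h4
  have hq1 : q₁ ∉ insert q₂ (Y.erase z') := by
    rw [mem_insert, not_or]
    exact ⟨hq.ne, fun h => (C.flip.neX h).2.2.1 rfl⟩
  have hd2 : q₂ ≠ d := fun e => (C.flip.neX hd).2.2.2.1 e.symm
  obtain ⟨Z, hZ, hZ1, hZ2⟩ := exists_cyc hq h3 hd2 hq1
    (h5 q₂ (mem_insert_self _ _) d (mem_insert_of_mem hd))
  refine ⟨Z, hZ, hZ1, fun e he u hu => ?_⟩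
  rcases hZ2 e he u hu with h | h
  · exact Or.inl h
  · exact Or.inr (mem_insert.1 h)

/-! ### The pairs -/

theorem sub1 {z s₁ s₂ : α} {D : Finset α} : insert z D ⊆ {z, s₁, s₂} ∪ (D \ {s₁, s₂}) := by
  intro v hv
  simp only [mem_insert, mem_singleton, mem_union, mem_sdiff] at hv ⊢
  tauto

theorem sub2 {z x s₂ : α} {D : Finset α} :
    insert z (insert x D) ⊆ {z, x, s₂} ∪ (D \ {s₂}) := by
  intro v hv
  simp only [mem_insert, mem_singleton, mem_union, mem_sdiff] at hv ⊢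
  tauto


/-- adjacencies -/
theorem Cf.ad (C : Cf G x x' z z' s₁ s₂ s₃ s₄ q₁ q₂ X Y) :
    (G.Adj z x ∧ G.Adj z x' ∧ G.Adj z s₁ ∧ G.Adj z s₂) ∧
    (G.Adj z' x ∧ G.Adj z' x' ∧ G.Adj z' s₃ ∧ G.Adj z' s₄) ∧
    (G.Adj x s₁ ∧ G.Adj x s₃) ∧ G.Adj x' s₂ ∧ G.Adj x' s₄ := by
  have hn := C.nes
  refine ⟨⟨(C.nz _).2 (Or.inl rfl), (C.nz _).2 (Or.inr (Or.inl rfl)),
    (C.nz _).2 (Or.inr (Or.inr (Or.inl rfl))), (C.nz _).2 (Or.inr (Or.inr (Or.inr rfl)))⟩,
    ⟨(C.nz' _).2 (Or.inl rfl), (C.nz' _).2 (Or.inr (Or.inl rfl)),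
    (C.nz' _).2 (Or.inr (Or.inr (Or.inl rfl))), (C.nz' _).2 (Or.inr (Or.inr (Or.inr rfl)))⟩,
    ⟨(C.nx _ (by simp [hn])).2 (Or.inr (Or.inr (Or.inl rfl))),
      (C.nx _ (by simp [hn])).2 (Or.inr (Or.inr (Or.inr rfl)))⟩,
    (C.nx' _ (by simp [hn])).2 (Or.inr (Or.inr (Or.inl rfl))),
    (C.nx' _ (by simp [hn])).2 (Or.inr (Or.inr (Or.inr rfl)))⟩

/-- `Y ∪ {x, x'}` is connected -/
theorem Cf.cnY (C : Cf G x x' z z' s₁ s₂ s₃ s₄ q₁ q₂ X Y) (h2 : Cn G (Y.erase z')) :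
    Cn G (insert z' (Y.erase z')) ∧ Cn G (insert x' (insert z' (Y.erase z'))) ∧
      Cn G (insert x (insert x' (insert z' (Y.erase z')))) := by
  obtain ⟨a1, a2, a3, a4⟩ := C.ad
  have g1 := h2.insert C.flip.s1D a2.2.2.1
  have g2 := g1.insert (mem_insert_self _ _) a2.2.1.symm
  exact ⟨g1, g2, g2.insert (mem_insert_of_mem (mem_insert_self _ _)) a2.1.symm⟩

/-- the complement for STB -/
theorem Cf.comp (hFRG : SpecFRG) (C : Cf G x x' z z' s₁ s₂ s₃ s₄ q₁ q₂ X Y) {S T : Finset α}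
    (h1 : x ∈ S ∪ T) (h2 : x' ∈ S ∪ T) (h3 : z ∈ S ∪ T) (h4 : z' ∈ S ∪ T)
    (h5 : X.erase z ⊆ S ∪ T) (h6 : S ∪ T ⊆ {x, x', z, z'} ∪ X.erase z) :
    ConnOff (del G S) T := by
  have hn := C.nes
  have key : ∀ v, v ∈ S ∨ v ∈ T → v ∈ insert q₁ (insert q₂ (Y.erase z')) → False := by
    intro v hv hv'
    have hv2 := h6 (mem_union.2 hv)
    simp only [mem_union, mem_insert, mem_singleton] at hv2 hv'
    rcases hv2 with (e | e | e | e) | hv2
    · subst e
      rcases hv' with h | h | h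
      · exact absurd h (by simp [hn])
      · exact absurd h (by simp [hn])
      · exact (C.flip.neX h).1 rfl
    · subst e
      rcases hv' with h | h | h
      · exact absurd h (by simp [hn])
      · exact absurd h (by simp [hn])
      · exact (C.flip.neX h).2.1 rfl
    · subst e
      rcases hv' with h | h | h
      · exact absurd h (by simp [hn])
      · exact absurd h (by simp [hn])
      · exact (C.flip.neX h).2.2.2.2.2.1 rfl
    · subst e
      rcases hv' with h | h | h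
      · exact absurd h (by simp [hn])
      · exact absurd h (by simp [hn])
      · exact (C.flip.neX h).2.2.2.2.1 rfl
    · have h7 := C.neX hv2
      rcases hv' with h | h | h
      · exact h7.2.2.1 h
      · exact h7.2.2.2.1 h
      · exact h7.2.2.2.2.2.2.2.2 h
  refine connOff_of_Cn (C.flip.cnq hFRG) ?_ ?_
  · intro v hv hv1 hv2
    have hv3 : v ∉ S ∪ T := by
      rw [mem_union, not_or]
      exact ⟨hv1, hv2⟩
    rcases C.cases hv with rfl | rfl | rfl | rfl | rfl | h | rfl | h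
    · exact absurd h1 hv3
    · exact absurd h2 hv3
    · simp
    · simp
    · exact absurd h3 hv3
    · exact absurd (h5 h) hv3
    · exact absurd h4 hv3
    · exact mem_insert_of_mem (mem_insert_of_mem h)
  · intro v hv
    exact ⟨fun h => key v (Or.inl h) hv, fun h => key v (Or.inr h) hv⟩

/-- the cycle through `q₁q₂` decides -/
theorem Cf.kappa (C : Cf G x x' z z' s₁ s₂ s₃ s₄ q₁ q₂ X Y) (h2 : Cn G (Y.erase z'))
    {k l : α} {a : Chain α} (ha : Fn G z k l a) {W S : Finset α} (hW : W ⊆ {s₁, x, z', x', s₂})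
    (hr : Rc G W k l) (hS : S ⊆ {z, s₁, s₂, x, x', z'}) {κ : ZMod 2}
    (hκ : κ ≠ 0 → G.Adj q₁ q₂) (hκZ : ∀ Z ∈ Z1 (del G S), pr a Z = κ * Z s(q₁, q₂)) : κ = 0 := by
  by_contra h
  have hn := C.nes
  obtain ⟨Z₁, g1, g2, g3⟩ := C.cycq h2 (hκ h)
  have hne : ∀ v, v = q₁ ∨ v = q₂ ∨ v ∈ Y.erase z' → v ≠ z ∧ v ≠ s₁ ∧ v ≠ s₂ ∧ v ≠ x ∧
      v ≠ x' ∧ v ≠ z' := by
    intro v hv
    rcases hv with rfl | rfl | hv
    · simp [hn]
    · simp [hn]
    · obtain ⟨e1, e2, e3, e4, e5, e6, e7, e8, e9⟩ := C.flip.neX hv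
      exact ⟨e6, e7, e8, e1, e2, e5⟩
  have hzW : z ∉ W := by
    intro hz
    have := hW hz
    simp [hn] at this
  have h3 : pr a Z₁ = 0 := by
    refine ha.region hzW hr (Subset.refl _) (mem_Z1_del g1 fun e he u hu huS => ?_)
    obtain ⟨e1, e2, e3, e4, e5, e6⟩ := hne u (g3 e he u hu)
    rcases mem_insert.1 huS with h4 | h4
    · exact e1 h4
    · have h5 := hW h4
      simp [e1, e2, e3, e4, e5, e6] at h5
  have h5 := hκZ Z₁ (mem_Z1_del g1 fun e he u hu huS => by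
    obtain ⟨e1, e2, e3, e4, e5, e6⟩ := hne u (g3 e he u hu)
    have h4 := hS huS
    simp [e1, e2, e3, e4, e5, e6] at h4)
  rw [g2, mul_one] at h5
  exact h (h5.symm.trans h3)

/-- **PAIR `s₁ s₂`** -/
theorem Cf.pair12 (hFRG : SpecFRG) (hSTA : SpecSTA) (hSTB : SpecSTB)
    (C : Cf G x x' z z' s₁ s₂ s₃ s₄ q₁ q₂ X Y) {a : Chain α} (ha : Fn G z s₁ s₂ a) {Z : Chain α}
    (hZ : Z ∈ Z1 (del G {z, s₁, s₂})) : pr a Z = 0 := by
  have hn := C.nes
  obtain ⟨a1, a2, a3, a4⟩ := C.ad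
  -- the path `s₁ x z' x' s₂`
  have hr0 : Rc G {s₁, x, z', x', s₂} s₁ s₂ :=
    ((((Rc.adj a3.1.symm (by simp) (by simp)).trans (Rc.adj a2.1.symm (by simp) (by simp))).trans
      (Rc.adj a2.2.1 (by simp) (by simp))).trans (Rc.adj a4.1 (by simp) (by simp)))
  have hz0 : z ∉ ({s₁, x, z', x', s₂} : Finset α) := by
    simp [hn]
  rcases C.side hFRG with h1 | h1
  · refine hSTB (del G {z, s₁, s₂}) {x, x', z'} ((X.erase z) \ {s₁, s₂}) ?_ ?_ ?_ a ?_ ?_ Z hZ
    · intro u hu b hb hub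
      obtain ⟨hb1, hb2⟩ := mem_sdiff.1 hb
      obtain ⟨c1, c2, c3, c4⟩ := C.adjX hb1
      simp only [mem_insert, mem_singleton, not_or] at hu hb2
      rcases hu with rfl | rfl | rfl
      · exact hb2.1 (c1 hub.1)
      · exact hb2.2 (c2 hub.1)
      · exact c4 hub.1
    · rw [Finset.disjoint_left]
      intro u hu hb
      have h3 := C.neX (mem_sdiff.1 hb).1
      simp [h3] at hu
    · refine C.comp hFRG (by simp) (by simp) (by simp) (by simp) ?_ ?_
      · intro v hv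
        simp only [mem_insert, mem_singleton, mem_union, mem_sdiff, hv, true_and]
        by_cases e1 : v = s₁
        · exact Or.inl (Or.inr (Or.inl e1))
        · by_cases e2 : v = s₂
          · exact Or.inl (Or.inr (Or.inr e2))
          · right
            right
            rw [not_or]
            exact ⟨e1, e2⟩
      · intro v hv
        simp only [mem_insert, mem_singleton, mem_union, mem_sdiff] at hv ⊢
        rcases hv with (rfl | rfl | rfl) | (rfl | rfl | rfl) | hv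
        · simp
        · exact Or.inr C.s1D
        · exact Or.inr C.swap.s1D
        · simp
        · simp
        · simp
        · exact Or.inr hv.1
    · intro Z hZ
      rw [del_del] at hZ
      exact ha.region hz0 hr0 (by simp [insert_subset_iff]) hZ
    · intro Z hZ
      rw [del_del] at hZ
      exact ha.region (notMem_erase _ _) (h1 s₁ C.s1D s₂ C.swap.s1D) sub1 hZ
  · have h2 : Cn G (Y.erase z') := by
      rcases C.flip.side hFRG with h2 | h2
      · exact h2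
      · exact (C.not_both h1 h2).elim
    obtain ⟨κ, hκ, hκZ⟩ := hSTA (del G {z, s₁, s₂}) q₁ q₂ C.nd_qq (by
      refine connOff_of_Cn (C.cnY h2).2.2 ?_ ?_
      · intro v hv hv1 hv2
        rcases C.cases hv with rfl | rfl | rfl | rfl | rfl | h | rfl | h
        · simp
        · simp
        · exact absurd (by simp) hv2
        · exact absurd (by simp) hv2
        · exact absurd (by simp) hv1
        · rw [h1.eq] at h
          exact absurd (mem_insert_of_mem h) hv1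
        · simp
        · exact mem_insert_of_mem (mem_insert_of_mem (mem_insert_of_mem h))
      · intro v hv
        simp only [mem_insert, mem_singleton, not_or] at hv ⊢
        rcases hv with rfl | rfl | rfl | hv
        · simp [hn]
        · simp [hn]
        · simp [hn]
        · obtain ⟨e1, e2, e3, e4, e5, e6, e7, e8, e9⟩ := C.flip.neX hv
          exact ⟨⟨e6, e7, e8⟩, e3, e4⟩) a (by
      intro Z hZ
      rw [del_del] at hZ
      exact ha.region (W := {s₁, q₁, s₂}) (by simp [hn])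
        ((Rc.adj h1.a11 (by simp) (by simp)).trans (Rc.adj h1.a21.symm (by simp) (by simp)))
        (by simp [insert_subset_iff]) hZ) (by
      intro Z hZ
      rw [del_del] at hZ
      exact ha.region (W := {s₁, q₂, s₂}) (by simp [hn])
        ((Rc.adj h1.a12 (by simp) (by simp)).trans (Rc.adj h1.a22.symm (by simp) (by simp)))
        (by simp [insert_subset_iff]) hZ)
    have hκ0 : κ = 0 := C.kappa h2 ha (Subset.refl _) hr0 (by simp [insert_subset_iff])
      (fun h => (hκ h).1) hκZ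
    have h3 := hκZ Z hZ
    rw [hκ0, zero_mul] at h3
    exact h3

/-- **PAIR `x x'`** -/
theorem Cf.pairxx (hFRG : SpecFRG) (C : Cf G x x' z z' s₁ s₂ s₃ s₄ q₁ q₂ X Y) {a : Chain α}
    (hadd : ∀ Z Z', pr a (Z + Z') = pr a Z + pr a Z') (ha : Fn G z x x' a) {Z : Chain α}
    (hZ : Z ∈ Z1 (del G {z, x, x'})) : pr a Z = 0 := by
  have hn := C.nes
  obtain ⟨a1, a2, a3, a4⟩ := C.ad
  have hr0 : Rc G {x, z', x'} x x' :=
    (Rc.adj a2.1.symm (by simp) (by simp)).trans (Rc.adj a2.2.1 (by simp) (by simp))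
  have hz0 : z ∉ ({x, z', x'} : Finset α) := by
    simp [hn]
  -- chains which miss `z'`
  have hmiss : ∀ Z ∈ Z1 (del G {z, x, x'}), Z s(z', s₃) = 0 → pr a Z = 0 := by
    intro Z hZ h0
    have h1 : Z ∈ Z1 (del (del G {z, x, x'}) {z'}) := by
      refine avoid2 (q := s₄) hZ ?_ h0
      rintro u ⟨hu1, _, hu3⟩
      simp only [mem_insert, mem_singleton, not_or] at hu3
      rcases (C.nz' u).1 hu1 with h | h | h | h
      · exact absurd h hu3.2.1
      · exact absurd h hu3.2.2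
      · exact Or.inl h
      · exact Or.inr h
    rw [del_del] at h1
    exact ha.region hz0 hr0 (by simp [insert_subset_iff]) h1
  -- one cycle through `z'`
  have hone : ∃ Z₀ ∈ Z1 (del G {z, x, x'}), Z₀ s(z', s₃) = 1 ∧ pr a Z₀ = 0 := by
    -- the cycle in `W'`, the path in `W`
    have key : ∀ W W' : Finset α, z ∉ W → x ∈ W → x' ∈ W → Rc G W x x' → z' ∉ W' →
        Rc G W' s₃ s₄ → Disjoint (insert z' W') (insert z W) →
        ∃ Z₀ ∈ Z1 (del G {z, x, x'}), Z₀ s(z', s₃) = 1 ∧ pr a Z₀ = 0 := by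
      intro W W' hzW hxW hx'W hr hzW' hr' hd
      obtain ⟨Z₀, g1, g2, g3⟩ := exists_cyc a2.2.2.1 a2.2.2.2 (by simp [hn]) hzW' hr'
      have h4 : Z₀ ∈ Z1 (del G (insert z W)) := by
        refine mem_Z1_del g1 fun e he u hu huS => ?_
        exact Finset.disjoint_left.1 hd (mem_insert.2 (g3 e he u hu)) huS
      refine ⟨Z₀, Z1_mono (del_anti ?_) h4, g2, ha.region hzW hr (Subset.refl _) h4⟩
      simp [insert_subset_iff, hxW, hx'W]
    have hW1 : Cn G (X.erase z) → Rc G (insert x (insert x' (X.erase z))) x x' := by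
      intro h1
      exact ((Rc.adj a3.1 (mem_insert_self _ _)
        (mem_insert_of_mem (mem_insert_of_mem C.s1D))).trans
        ((h1 s₁ C.s1D s₂ C.swap.s1D).mono ((subset_insert _ _).trans (subset_insert _ _)))).trans
        (Rc.adj a4.1.symm (mem_insert_of_mem (mem_insert_of_mem C.swap.s1D))
          (mem_insert_of_mem (mem_insert_self _ _)))
    have hzW1 : z ∉ insert x (insert x' (X.erase z)) := by
      simp [hn]
    have hm1 : x ∈ insert x (insert x' (X.erase z)) := mem_insert_self _ _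
    have hm2 : x' ∈ insert x (insert x' (X.erase z)) := mem_insert_of_mem (mem_insert_self _ _)
    have hz'X : z' ∉ X := fun h => C.xy h C.zY
    rcases C.flip.side hFRG with h2 | h2
    · rcases C.side hFRG with h1 | h1
      · refine key (insert x (insert x' (X.erase z))) (Y.erase z') hzW1 hm1 hm2
          (hW1 h1) (notMem_erase _ _) (h2 s₃ C.flip.s1D s₄ C.flip.swap.s1D) ?_
        rw [Finset.disjoint_left]
        intro v hv hv'
        rcases mem_insert.1 hv with rfl | hv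
        · simp [hn, hz'X] at hv'
        · obtain ⟨e1, e2, e3, e4, e5, e6, e7, e8, e9⟩ := C.flip.neX hv
          rcases mem_insert.1 hv' with h | h
          · exact e6 h
          · rcases mem_insert.1 h with h | h
            · exact e1 h
            · rcases mem_insert.1 h with h | h
              · exact e2 h
              · exact e9 h
      · refine key {x, s₁, q₁, s₂, x'} (Y.erase z') (by simp [hn]) (by simp) (by simp)
          ((((Rc.adj a3.1 (by simp) (by simp)).trans (Rc.adj h1.a11 (by simp) (by simp))).trans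
            (Rc.adj h1.a21.symm (by simp) (by simp))).trans
            (Rc.adj a4.1.symm (by simp) (by simp)))
          (notMem_erase _ _) (h2 s₃ C.flip.s1D s₄ C.flip.swap.s1D) ?_
        rw [Finset.disjoint_left]
        intro v hv hv'
        rcases mem_insert.1 hv with rfl | hv
        · simp [hn] at hv'
        · obtain ⟨e1, e2, e3, e4, e5, e6, e7, e8, e9⟩ := C.flip.neX hv
          simp [e1, e2, e3, e6, e7, e8] at hv'
    · have h1 : Cn G (X.erase z) := by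
        rcases C.side hFRG with h1 | h1
        · exact h1
        · exact (C.not_both h1 h2).elim
      refine key (insert x (insert x' (X.erase z))) {s₃, q₂, s₄} hzW1 hm1 hm2
          (hW1 h1) (by simp [hn]) ((Rc.adj h2.a12 (by simp) (by simp)).trans
            (Rc.adj h2.a22.symm (by simp) (by simp))) ?_
      rw [Finset.disjoint_left]
      intro v hv hv'
      simp only [mem_insert, mem_singleton] at hv
      have hs3 : s₃ ∉ X := fun h => C.xy h C.s3Y
      have hs4 : s₄ ∉ X := fun h => C.xy h C.s4Y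
      have hq2 : q₂ ∉ X := fun h => (C.tx h).2.2.2 rfl
      rcases hv with rfl | rfl | rfl | rfl
      · simp [hn, hz'X] at hv'
      · simp [hn, hs3] at hv'
      · simp [hn, hq2] at hv'
      · simp [hn, hs4] at hv'
  obtain ⟨Z₀, g1, g2, g3⟩ := hone
  by_cases h0 : Z s(z', s₃) = 0
  · exact hmiss Z hZ h0
  · have h1 : Z s(z', s₃) = 1 := zmod2_ne_zero.1 h0
    have h2 := hmiss (Z + Z₀) (Submodule.add_mem _ hZ g1) (by
      rw [Pi.add_apply, h1, g2]
      exact zmod2_add_self _)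
    rw [hadd, g3, add_zero] at h2
    exact h2

/-- **PAIR `x s₂`** -/
theorem Cf.pairx2 (hFRG : SpecFRG) (hSTA : SpecSTA) (hSTB : SpecSTB)
    (C : Cf G x x' z z' s₁ s₂ s₃ s₄ q₁ q₂ X Y) {a : Chain α} (ha : Fn G z x s₂ a) {Z : Chain α}
    (hZ : Z ∈ Z1 (del G {z, x, s₂})) : pr a Z = 0 := by
  have hn := C.nes
  obtain ⟨a1, a2, a3, a4⟩ := C.ad
  have hr0 : Rc G {x, z', x', s₂} x s₂ :=
    ((Rc.adj a2.1.symm (by simp) (by simp)).trans (Rc.adj a2.2.1 (by simp) (by simp))).trans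
      (Rc.adj a4.1 (by simp) (by simp))
  have hz0 : z ∉ ({x, z', x', s₂} : Finset α) := by
    simp [hn]
  rcases C.side hFRG with h1 | h1
  · refine hSTB (del G {z, x, s₂}) {x', z'} ((X.erase z) \ {s₂}) ?_ ?_ ?_ a ?_ ?_ Z hZ
    · intro u hu b hb hub
      obtain ⟨hb1, hb2⟩ := mem_sdiff.1 hb
      obtain ⟨c1, c2, c3, c4⟩ := C.adjX hb1
      simp only [mem_insert, mem_singleton] at hu hb2
      rcases hu with rfl | rfl
      · exact hb2 (c2 hub.1)
      · exact c4 hub.1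
    · rw [Finset.disjoint_left]
      intro u hu hb
      have h3 := C.neX (mem_sdiff.1 hb).1
      simp [h3] at hu
    · refine C.comp hFRG (by simp) (by simp) (by simp) (by simp) ?_ ?_
      · intro v hv
        simp only [mem_insert, mem_singleton, mem_union, mem_sdiff, hv, true_and]
        by_cases e2 : v = s₂
        · exact Or.inl (Or.inr (Or.inr e2))
        · exact Or.inr (Or.inr e2)
      · intro v hv
        simp only [mem_insert, mem_singleton, mem_union, mem_sdiff] at hv ⊢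
        rcases hv with (rfl | rfl | rfl) | (rfl | rfl) | hv
        · simp
        · simp
        · exact Or.inr C.swap.s1D
        · simp
        · simp
        · exact Or.inr hv.1
    · intro Z hZ
      rw [del_del] at hZ
      exact ha.region hz0 hr0 (by simp [insert_subset_iff]) hZ
    · intro Z hZ
      rw [del_del] at hZ
      refine ha.region (W := insert x (X.erase z)) (by simp [hn]) ((Rc.adj a3.1 (mem_insert_self _ _)
        (mem_insert_of_mem C.s1D)).trans ((h1 s₁ C.s1D s₂ C.swap.s1D).mono (subset_insert _ _)))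
        sub2 hZ
  · have h2 : Cn G (Y.erase z') := by
      rcases C.flip.side hFRG with h2 | h2
      · exact h2
      · exact (C.not_both h1 h2).elim
    -- on `Z1 (L - s₁)`
    have hs1 : ∀ Z ∈ Z1 (del G {z, x, s₂, s₁}), pr a Z = 0 := by
      obtain ⟨κ, hκ, hκZ⟩ := hSTA (del G {z, x, s₂, s₁}) q₁ q₂ C.nd_qq (by
        refine connOff_of_Cn (C.cnY h2).2.1 ?_ ?_
        · intro v hv hv1 hv2
          rcases C.cases hv with rfl | rfl | rfl | rfl | rfl | h | rfl | h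
          · exact absurd (by simp) hv1
          · simp
          · exact absurd (by simp) hv2
          · exact absurd (by simp) hv2
          · exact absurd (by simp) hv1
          · rw [h1.eq] at h
            simp only [mem_insert, mem_singleton] at h
            rcases h with rfl | rfl
            · exact absurd (by simp) hv1
            · exact absurd (by simp) hv1
          · simp
          · exact mem_insert_of_mem (mem_insert_of_mem h)
        · intro v hv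
          simp only [mem_insert, mem_singleton, not_or] at hv ⊢
          rcases hv with rfl | rfl | hv
          · simp [hn]
          · simp [hn]
          · obtain ⟨e1, e2, e3, e4, e5, e6, e7, e8, e9⟩ := C.flip.neX hv
            exact ⟨⟨e6, e1, e8, e7⟩, e3, e4⟩) a (by
        intro Z hZ
        rw [del_del] at hZ
        exact ha.region (W := {x, s₁, q₁, s₂}) (by simp [hn])
          (((Rc.adj a3.1 (by simp) (by simp)).trans (Rc.adj h1.a11 (by simp) (by simp))).trans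
            (Rc.adj h1.a21.symm (by simp) (by simp))) (by simp [insert_subset_iff]) hZ) (by
        intro Z hZ
        rw [del_del] at hZ
        exact ha.region (W := {x, s₁, q₂, s₂}) (by simp [hn])
          (((Rc.adj a3.1 (by simp) (by simp)).trans (Rc.adj h1.a12 (by simp) (by simp))).trans
            (Rc.adj h1.a22.symm (by simp) (by simp))) (by simp [insert_subset_iff]) hZ)
      have hκ0 : κ = 0 := C.kappa h2 ha (by simp [insert_subset_iff]) hr0
        (by simp [insert_subset_iff]) (fun h => (hκ h).1) hκZ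
      intro Z hZ
      have h3 := hκZ Z hZ
      rw [hκ0, zero_mul] at h3
      exact h3
    refine hSTB (del G {z, x, s₂}) {x', z'} {s₁} ?_ ?_ ?_ a ?_ ?_ Z hZ
    · intro u hu b hb hub
      rw [mem_singleton] at hb
      subst hb
      obtain ⟨c1, c2, c3, c4⟩ := C.adjX C.s1D
      simp only [mem_insert, mem_singleton] at hu
      rcases hu with rfl | rfl
      · exact C.s12 (c2 hub.1)
      · exact c4 hub.1
    · simp [hn]
    · refine C.comp hFRG (by simp) (by simp) (by simp) (by simp) ?_ ?_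
      · rw [h1.eq]
        simp [insert_subset_iff]
      · rw [h1.eq]
        simp [insert_subset_iff]
    · intro Z hZ
      rw [del_del] at hZ
      exact ha.region hz0 hr0 (by simp [insert_subset_iff]) hZ
    · intro Z hZ
      rw [del_del] at hZ
      exact hs1 Z (Z1_mono (del_anti (by simp [insert_subset_iff])) hZ)

theorem pr_addr (a c d : Chain α) : pr a (c + d) = pr a c + pr a d := by
  unfold pr
  rw [← sum_add_distrib]
  exact sum_congr rfl fun e _ => by rw [Pi.add_apply, mul_add]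

theorem gam_symm {u w w' : α} {Z : Chain α} (h : Gam G u w w' Z) : Gam G u w' w Z := by
  obtain ⟨h1, h2, h3, h4, r, z, hr, hz, hv, h5, h6, h7⟩ := h
  refine ⟨h2, h1, h3.symm, ?_, r, z, hr, hz, hv, h6, h5, fun v a b => h7 v b a⟩
  rw [pair_comm w' w]
  exact h4

end N6BM

open N6BM GALM in
/-- **N6B** -/
theorem specN6B (hNCG : SpecNCG) (hGFN : SpecGFN) (hNCN : SpecNCN) (hSTA : SpecSTA)
    (hSTB : SpecSTB) (hFRG : SpecFRG) : SpecN6B := by
  intro α _ _ G x x' z z' s₁ s₂ s₃ s₄ q₁ q₂ T X Y hK hN2 hNP hsep hT hnd hzX h1X h2X hzY h3Y h4Y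
    hnz hnz' hnx hnx' hrig
  by_contra hnp
  subst hT
  have C : Cf G x x' z z' s₁ s₂ s₃ s₄ q₁ q₂ X Y :=
    ⟨hK, hN2, hsep, hnd, hzX, h1X, h2X, hzY, h3Y, h4Y, hnz, hnz', hnx, hnx'⟩
  obtain ⟨a1, a2, a3, a4⟩ := C.ad
  obtain ⟨w, w', Z, hG⟩ := hNCG hK hrig (left_mem_VS a1.1) hNP hnp
  have key : ∀ k l Z, Gam G z k l Z →
      (∀ a : Chain α, Fn G z k l a → ∀ Z ∈ Z1 (del G {z, k, l}), pr a Z = 0) → False := by
    intro k l Z hG h
    obtain ⟨h1, h2, h3, h4, _⟩ := id hG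
    obtain ⟨a, ha1, ha2⟩ := hGFN hK.1 hnp h1 h2 h3
    exact (ha1 Z h4).1 hG (h a ha2 Z h4)
  have k12 : ∀ Z, ¬ Gam G z s₁ s₂ Z := fun Z hG => key _ _ Z hG fun a ha Z hZ =>
    C.pair12 hFRG hSTA hSTB ha hZ
  have kxx : ∀ Z, ¬ Gam G z x x' Z := fun Z hG => key _ _ Z hG fun a ha Z hZ =>
    C.pairxx hFRG (pr_addr a) ha hZ
  have kx2 : ∀ Z, ¬ Gam G z x s₂ Z := fun Z hG => key _ _ Z hG fun a ha Z hZ =>
    C.pairx2 hFRG hSTA hSTB ha hZ
  have kx1 : ∀ Z, ¬ Gam G z x' s₁ Z := fun Z hG => key _ _ Z hG fun a ha Z hZ =>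
    C.swap.pairx2 hFRG hSTA hSTB ha hZ
  have hna : ¬ G.Adj w w' := hNCN.nadj hnp hG
  obtain ⟨hw, hw', hww, _⟩ := id hG
  rcases (hnz w).1 hw with rfl | rfl | rfl | rfl <;>
    rcases (hnz w').1 hw' with rfl | rfl | rfl | rfl
  · exact hww rfl
  · exact kxx Z hG
  · exact hna a3.1
  · exact kx2 Z hG
  · exact kxx Z (gam_symm hG)
  · exact hww rfl
  · exact kx1 Z hG
  · exact hna a4.1
  · exact hna a3.1.symm
  · exact kx1 Z (gam_symm hG)
  · exact hww rfl
  · exact k12 Z hG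
  · exact kx2 Z (gam_symm hG)
  · exact hna a4.1.symm
  · exact k12 Z (gam_symm hG)
  · exact hww rfl

end DL
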