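import Pool.Agent.DL.G4.Spec
import Pool.Agent.DL.G4.C20
import Pool.Agent.DL.KC
import Pool.Agent.DL.NP.TRC
import Pool.Agent.DL.PC
import Pool.Agent.DL.PC2

section
/-!
# MP_3ff0f8_gt, G4 block: N6C (helper57)
-/
open SimpleGraph Finset

namespace DL.N6CM

open DL.FRGM

variable {α : Type} [Fintype α] [DecidableEq α] {G : SimpleGraph α}

theorem nofrag {F D W : Finset α} (hG : KConn 4 G) (hF : MFrag G F) (hD : D ⊂ F) (hD2 : 2 ≤ D.card)
    (hW : NB G D ⊆ W) (hW4 : W.card ≤ 4) : False := by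
  obtain ⟨⟨hFV, hF2, hF4, hFR⟩, hmin⟩ := hF
  have hDF := hD.1
  have hsub : Rst G F ⊆ VS G \ (D ∪ NB G D) := by
    intro r hr
    obtain ⟨h1, h2, h3⟩ := mem_Rst.1 hr
    rw [mem_sdiff, mem_union, not_or]
    refine ⟨h1, fun h => h2 (hDF h), fun h => ?_⟩
    obtain ⟨_, a, ha, har⟩ := mem_NB.1 h
    exact h3 (mem_NB.2 ⟨h2, a, hDF ha, har⟩)
  have hR : 2 ≤ (VS G \ (D ∪ NB G D)).card := le_trans hFR (card_le_card hsub)
  have h4 : 4 ≤ (NB G D).card := by
    apply four_le hG (hDF.trans hFV) (card_pos.1 (by omega))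
    exact card_pos.1 (by unfold Rst; omega)
  exact hmin D hD ⟨hDF.trans hFV, hD2, le_antisymm ((card_le_card hW).trans hW4) h4, hR⟩

theorem tal_z {F T X Y : Finset α} {x x' z z' s₁ s₂ s₃ s₄ q₁ q₂ : α}
    (h : TAl G F T X Y x x' z z' s₁ s₂ s₃ s₄ q₁ q₂) : TAl G F T Y X x x' z' z s₃ s₄ s₁ s₂ q₁ q₂ := by
  obtain ⟨h1, h2, h3, h4, h5, h6, h7, h8⟩ := h
  refine ⟨?_, ?_, ?_, h4, h6, h5, h8, h7⟩
  · simp only [List.nodup_cons, List.mem_cons, List.not_mem_nil, or_false, not_or] at h1 ⊢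
    grind
  · rw [h2]; ext; simp; tauto
  · rw [h3]; ext; simp; tauto

theorem tal_x {F T X Y : Finset α} {x x' z z' s₁ s₂ s₃ s₄ q₁ q₂ : α}
    (h : TAl G F T X Y x x' z z' s₁ s₂ s₃ s₄ q₁ q₂) : TAl G F T X Y x' x z z' s₁ s₂ s₃ s₄ q₁ q₂ := by
  obtain ⟨h1, h2, h3, h4, h5, h6, h7, h8⟩ := h
  refine ⟨?_, ?_, h3, ?_, h5, h6, ?_, ?_⟩
  · simp only [List.nodup_cons, List.mem_cons, List.not_mem_nil, or_false, not_or] at h1 ⊢
    grind
  · rw [h2]; ext; simp; tauto
  · rw [h4]; ext; simp; tauto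
  · intro v; rw [h7]; tauto
  · intro v; rw [h8]; tauto

theorem tal_12 {F T X Y : Finset α} {x x' z z' s₁ s₂ s₃ s₄ q₁ q₂ : α}
    (h : TAl G F T X Y x x' z z' s₁ s₂ s₃ s₄ q₁ q₂) : TAl G F T X Y x x' z z' s₂ s₁ s₃ s₄ q₁ q₂ := by
  obtain ⟨h1, h2, h3, h4, h5, h6, h7, h8⟩ := h
  refine ⟨?_, h2, ?_, h4, ⟨h5.1, h5.2.2, h5.2.1⟩, h6, ?_, h8⟩
  · simp only [List.nodup_cons, List.mem_cons, List.not_mem_nil, or_false, not_or] at h1 ⊢
    grind
  · rw [h3]; ext; simp; tauto
  · intro v; rw [h7]; tauto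

theorem tal_34 {F T X Y : Finset α} {x x' z z' s₁ s₂ s₃ s₄ q₁ q₂ : α}
    (h : TAl G F T X Y x x' z z' s₁ s₂ s₃ s₄ q₁ q₂) : TAl G F T X Y x x' z z' s₁ s₂ s₄ s₃ q₁ q₂ :=
  tal_z (tal_12 (tal_z h))

/-- neighbours of `x` -/
theorem nbx {F T X Y : Finset α} {x x' z z' s₁ s₂ s₃ s₄ q₁ q₂ : α}
    (h : TAl G F T X Y x x' z z' s₁ s₂ s₃ s₄ q₁ q₂) {v : α} (hv : G.Adj x v) :
    v = x' ∨ v = z ∨ v = z' ∨ v = s₁ ∨ v = s₂ ∨ v = s₃ ∨ v = s₄ := by
  by_cases hvF : v ∈ F
  · rw [h.hF] at hvF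
    simp only [mem_insert, mem_singleton] at hvF
    rcases hvF with e | e | e | e
    · exact absurd e.symm hv.ne
    · exact Or.inl e
    · exact Or.inr (Or.inl e)
    · exact Or.inr (Or.inr (Or.inl e))
  · have : v ∈ NB G F := mem_NB.2 ⟨hvF, x, by rw [h.hF]; simp, hv⟩
    rw [h.hN] at this
    simp only [mem_insert, mem_singleton] at this
    tauto

/-- (i): `x` has a neighbour in `{s₁, s₂}` -/
theorem c1 {F T X Y : Finset α} {x x' z z' s₁ s₂ s₃ s₄ q₁ q₂ : α} (hG : KConn 4 G) (hF : MFrag G F)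
    (h : TAl G F T X Y x x' z z' s₁ s₂ s₃ s₄ q₁ q₂) : G.Adj x s₁ ∨ G.Adj x s₂ := by
  by_contra hc
  rw [not_or] at hc
  have hnd := h.nd
  simp only [List.nodup_cons, List.mem_cons, List.not_mem_nil, or_false, not_or] at hnd
  refine nofrag (D := {z', x}) (W := {x', z, s₃, s₄}) hG hF ?_ ?_ ?_ card_le_four
  · rw [Finset.ssubset_iff_of_subset]
    · refine ⟨z, ?_, ?_⟩
      · rw [h.hF]; simp
      · simp only [mem_insert, mem_singleton, not_or]
        exact ⟨hnd.2.2.1.1, fun e => hnd.1.2.1 e.symm⟩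
    · rw [h.hF]
      intro v
      simp only [mem_insert, mem_singleton]
      tauto
  · rw [card_pair (fun e => hnd.1.2.2.1 e.symm)]
  · intro w hw
    obtain ⟨h1, a, ha, haw⟩ := mem_NB.1 hw
    simp only [mem_insert, mem_singleton, not_or] at h1 ha ⊢
    rcases ha with rfl | rfl
    · rcases (h.nz' w).1 haw with e | e | e | e
      · exact absurd e h1.2
      · exact Or.inl e
      · exact Or.inr (Or.inr (Or.inl e))
      · exact Or.inr (Or.inr (Or.inr e))
    · rcases nbx h haw with e | e | e | e | e | e | e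
      · exact Or.inl e
      · exact Or.inr (Or.inl e)
      · exact absurd e h1.1
      · exact absurd (e ▸ haw) hc.1
      · exact absurd (e ▸ haw) hc.2
      · exact Or.inr (Or.inr (Or.inl e))
      · exact Or.inr (Or.inr (Or.inr e))

/-- (v): `s₁` has a neighbour in `{x, x'}` -/
theorem c5 {F T X Y : Finset α} {x x' z z' s₁ s₂ s₃ s₄ q₁ q₂ : α} (hG : KConn 4 G) (hF : MFrag G F)
    (h : TAl G F T X Y x x' z z' s₁ s₂ s₃ s₄ q₁ q₂) : G.Adj x s₁ ∨ G.Adj x' s₁ := by
  by_contra hc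
  rw [not_or] at hc
  have hnd := h.nd
  simp only [List.nodup_cons, List.mem_cons, List.not_mem_nil, or_false, not_or] at hnd
  refine nofrag (D := {z', x, x'}) (W := {z, s₂, s₃, s₄}) hG hF ?_ ?_ ?_ card_le_four
  · rw [Finset.ssubset_iff_of_subset]
    · refine ⟨z, ?_, ?_⟩
      · rw [h.hF]; simp
      · simp only [mem_insert, mem_singleton, not_or]
        exact ⟨hnd.2.2.1.1, fun e => hnd.1.2.1 e.symm, fun e => hnd.2.1.1 e.symm⟩
    · rw [h.hF]
      intro v
      simp only [mem_insert, mem_singleton]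
      tauto
  · have : ({x, x'} : Finset α).card = 2 := card_pair hnd.1.1
    have h2 := card_le_card (subset_insert z' ({x, x'} : Finset α))
    omega
  · intro w hw
    obtain ⟨h1, a, ha, haw⟩ := mem_NB.1 hw
    simp only [mem_insert, mem_singleton, not_or] at h1 ha ⊢
    rcases ha with rfl | rfl | rfl
    · rcases (h.nz' w).1 haw with e | e | e | e
      · exact absurd e h1.2.1
      · exact absurd e h1.2.2
      · exact Or.inr (Or.inr (Or.inl e))
      · exact Or.inr (Or.inr (Or.inr e))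
    · rcases nbx h haw with e | e | e | e | e | e | e
      · exact absurd e h1.2.2
      · exact Or.inl e
      · exact absurd e h1.1
      · exact absurd (e ▸ haw) hc.1
      · exact Or.inr (Or.inl e)
      · exact Or.inr (Or.inr (Or.inl e))
      · exact Or.inr (Or.inr (Or.inr e))
    · rcases nbx (tal_x h) haw with e | e | e | e | e | e | e
      · exact absurd e h1.2.1
      · exact Or.inl e
      · exact absurd e h1.1
      · exact absurd (e ▸ haw) hc.2
      · exact Or.inr (Or.inl e)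
      · exact Or.inr (Or.inr (Or.inl e))
      · exact Or.inr (Or.inr (Or.inr e))

/-- the case of N6B -/
theorem core (hN6B : SpecN6B) {F T X Y : Finset α} {x x' z z' s₁ s₂ s₃ s₄ q₁ q₂ : α} (hK : K48 G) (h2 : No2 G)
    (hNP : NP G) (hap : ∀ u ∈ VS G, Rig G u → ¬ NP (del G {u})) (hS : Sep G T X Y)
    (h : TAl G F T X Y x x' z z' s₁ s₂ s₃ s₄ q₁ q₂) (hz : Rig G z)
    (a1 : G.Adj x s₁) (a2 : ¬ G.Adj x s₂) (a3 : G.Adj x s₃) (a4 : ¬ G.Adj x s₄)
    (b1 : ¬ G.Adj x' s₁) (b2 : G.Adj x' s₂) (b3 : ¬ G.Adj x' s₃) (b4 : G.Adj x' s₄) : False := by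
  have hzx : G.Adj z x := (h.nz x).2 (Or.inl rfl)
  have hzx' : G.Adj z x' := (h.nz x').2 (Or.inr (Or.inl rfl))
  have hwx : G.Adj z' x := (h.nz' x).2 (Or.inl rfl)
  have hwx' : G.Adj z' x' := (h.nz' x').2 (Or.inr (Or.inl rfl))
  refine hap z (left_mem_VS hzx) hz (hN6B hK h2 hNP hS h.hT h.nd h.hX.1 h.hX.2.1 h.hX.2.2 h.hY.1 h.hY.2.1 h.hY.2.2
    h.nz h.nz' ?_ ?_ hz)
  · intro v hv
    constructor
    · intro hxv
      rcases nbx h hxv with e | e | e | e | e | e | e
      · exact absurd e hv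
      · exact Or.inl e
      · exact Or.inr (Or.inl e)
      · exact Or.inr (Or.inr (Or.inl e))
      · exact absurd (e ▸ hxv) a2
      · exact Or.inr (Or.inr (Or.inr e))
      · exact absurd (e ▸ hxv) a4
    · rintro (e | e | e | e)
      · exact e ▸ hzx.symm
      · exact e ▸ hwx.symm
      · exact e ▸ a1
      · exact e ▸ a3
  · intro v hv
    constructor
    · intro hxv
      rcases nbx (tal_x h) hxv with e | e | e | e | e | e | e
      · exact absurd e hv
      · exact Or.inl e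
      · exact Or.inr (Or.inl e)
      · exact absurd (e ▸ hxv) b1
      · exact Or.inr (Or.inr (Or.inl e))
      · exact absurd (e ▸ hxv) b3
      · exact Or.inr (Or.inr (Or.inr e))
    · rintro (e | e | e | e)
      · exact e ▸ hzx'.symm
      · exact e ▸ hwx'.symm
      · exact e ▸ b2
      · exact e ▸ b4

theorem n6a (hN6A : SpecN6A) {F T X Y : Finset α} {x x' z z' s₁ s₂ s₃ s₄ q₁ q₂ : α} (hK : K48 G) (h2 : No2 G)
    (hap : ∀ u ∈ VS G, Rig G u → ¬ NP (del G {u})) (hF : MFrag G F)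
    (h : TAl G F T X Y x x' z z' s₁ s₂ s₃ s₄ q₁ q₂) (a1 : G.Adj x s₁) (a2 : G.Adj x s₂) :
    ∀ r ∈ Rst G F, ¬ Rig G r := by
  refine hN6A hK h2 hap hF h.hF h.hN ?_ h.nz h.nz' a1 a2
  have hnd := h.nd
  simp only [List.nodup_cons, List.mem_cons, List.not_mem_nil, or_false, not_or] at hnd ⊢
  tauto

/-- `z` rigid -/
theorem rigz (hN6A : SpecN6A) (hN6B : SpecN6B) {F T X Y : Finset α} {x x' z z' s₁ s₂ s₃ s₄ q₁ q₂ : α}
    (hK : K48 G) (h2 : No2 G) (hNP : NP G) (hap : ∀ u ∈ VS G, Rig G u → ¬ NP (del G {u})) (hF : MFrag G F)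
    (hS : Sep G T X Y) (h : TAl G F T X Y x x' z z' s₁ s₂ s₃ s₄ q₁ q₂) (hz : Rig G z) :
    ∀ r ∈ Rst G F, ¬ Rig G r := by
  have hG := hK.1
  by_cases n1 : G.Adj x s₁ ∧ G.Adj x s₂
  · exact n6a hN6A hK h2 hap hF h n1.1 n1.2
  by_cases n2 : G.Adj x s₃ ∧ G.Adj x s₄
  · exact n6a hN6A hK h2 hap hF (tal_z h) n2.1 n2.2
  by_cases n3 : G.Adj x' s₁ ∧ G.Adj x' s₂
  · exact n6a hN6A hK h2 hap hF (tal_x h) n3.1 n3.2
  by_cases n4 : G.Adj x' s₃ ∧ G.Adj x' s₄
  · exact n6a hN6A hK h2 hap hF (tal_x (tal_z h)) n4.1 n4.2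
  exfalso
  have k1 := c1 hG hF h
  have k2 := c1 hG hF (tal_z h)
  have k3 := c1 hG hF (tal_x h)
  have k4 := c1 hG hF (tal_z (tal_x h))
  have m1 := c5 hG hF h
  have m2 := c5 hG hF (tal_12 h)
  have m3 := c5 hG hF (tal_z h)
  have m4 := c5 hG hF (tal_12 (tal_z h))
  by_cases p1 : G.Adj x s₁
  · have p2 : ¬ G.Adj x s₂ := fun h => n1 ⟨p1, h⟩
    have q2 : G.Adj x' s₂ := m2.resolve_left p2
    have q1 : ¬ G.Adj x' s₁ := fun h => n3 ⟨h, q2⟩
    by_cases p3 : G.Adj x s₃
    · have p4 : ¬ G.Adj x s₄ := fun h => n2 ⟨p3, h⟩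
      have q4 : G.Adj x' s₄ := m4.resolve_left p4
      have q3 : ¬ G.Adj x' s₃ := fun h => n4 ⟨h, q4⟩
      exact core hN6B hK h2 hNP hap hS h hz p1 p2 p3 p4 q1 q2 q3 q4
    · have p4 : G.Adj x s₄ := k2.resolve_left p3
      have q3 : G.Adj x' s₃ := m3.resolve_left p3
      have q4 : ¬ G.Adj x' s₄ := fun h => n4 ⟨q3, h⟩
      exact core hN6B hK h2 hNP hap hS (tal_34 h) hz p1 p2 p4 p3 q1 q2 q4 q3
  · have p2 : G.Adj x s₂ := k1.resolve_left p1
    have q1 : G.Adj x' s₁ := m1.resolve_left p1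
    have q2 : ¬ G.Adj x' s₂ := fun h => n3 ⟨q1, h⟩
    by_cases p3 : G.Adj x s₃
    · have p4 : ¬ G.Adj x s₄ := fun h => n2 ⟨p3, h⟩
      have q4 : G.Adj x' s₄ := m4.resolve_left p4
      have q3 : ¬ G.Adj x' s₃ := fun h => n4 ⟨h, q4⟩
      exact core hN6B hK h2 hNP hap hS (tal_12 h) hz p2 p1 p3 p4 q2 q1 q3 q4
    · have p4 : G.Adj x s₄ := k2.resolve_left p3
      have q3 : G.Adj x' s₃ := m3.resolve_left p3
      have q4 : ¬ G.Adj x' s₄ := fun h => n4 ⟨q3, h⟩
      exact core hN6B hK h2 hNP hap hS (tal_12 (tal_34 h)) hz p2 p1 p4 p3 q2 q1 q4 q3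

/-- Gr10 is impossible -/
theorem gr10 {x x' z z' s₁ s₂ s₃ s₄ q₁ q₂ : α} (h2 : No2 G)
    (h : Gr10 G x x' z z' s₁ s₂ s₃ s₄ q₁ q₂) : False := by
  have hnd := h.nd
  simp only [List.nodup_cons, List.mem_cons, List.not_mem_nil, or_false, not_or] at hnd
  obtain ⟨⟨x1, x2, x3, x4, x5, x6, x7, x8, x9⟩, ⟨y1, y2, y3, y4, y5, y6, y7, y8⟩, ⟨z1, z2, z3, z4, z5, z6, z7⟩,
    ⟨w1, w2, w3, w4, w5, w6⟩, ⟨s1, s2, s3, s4, s5⟩, ⟨t1, t2, t3, t4⟩, ⟨u1, u2, u3⟩, ⟨v1, v2⟩, q12, -⟩ := hnd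
  have hNB : NB G {q₁, q₂} = {s₁, s₂, s₃, s₄} := by
    ext w
    rw [mem_NB]
    simp only [mem_insert, mem_singleton]
    constructor
    · rintro ⟨hw1, a, ha, haw⟩
      rw [not_or] at hw1
      have hwV := right_mem_VS haw
      rw [h.vs] at hwV
      simp only [mem_insert, mem_singleton] at hwV
      have hwa := haw.symm
      rcases hwV with e | e | e | e | e | e | e | e | e | e
      · exfalso
        subst e
        rcases (h.ty.nx a).1 hwa with e' | e' | e' | e' <;> subst e' <;> rcases ha with e'' | e'' <;> subst e'' <;> simp_all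
      · exfalso
        subst e
        rcases (h.ty.nx' a).1 hwa with e' | e' | e' | e' <;> subst e' <;> rcases ha with e'' | e'' <;> subst e'' <;> simp_all
      · exfalso
        subst e
        rcases (h.ty.nz a).1 hwa with e' | e' | e' | e' <;> subst e' <;> rcases ha with e'' | e'' <;> subst e'' <;> simp_all
      · exfalso
        subst e
        rcases (h.ty.nz' a).1 hwa with e' | e' | e' | e' <;> subst e' <;> rcases ha with e'' | e'' <;> subst e'' <;> simp_all
      · exact Or.inl e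
      · exact Or.inr (Or.inl e)
      · exact Or.inr (Or.inr (Or.inl e))
      · exact Or.inr (Or.inr (Or.inr e))
      · exact absurd e hw1.1
      · exact absurd e hw1.2
    · rintro (rfl | rfl | rfl | rfl)
      · exact ⟨by rw [not_or]; exact ⟨s4, s5⟩, q₁, Or.inl rfl, ((h.n1 q₁).2 (by simp)).symm⟩
      · exact ⟨by rw [not_or]; exact ⟨t3, t4⟩, q₁, Or.inl rfl, ((h.n2 q₁).2 (by simp)).symm⟩
      · exact ⟨by rw [not_or]; exact ⟨u2, u3⟩, q₁, Or.inl rfl, ((h.n3 q₁).2 (by simp)).symm⟩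
      · exact ⟨by rw [not_or]; exact ⟨v1, v2⟩, q₁, Or.inl rfl, ((h.n4 q₁).2 (by simp)).symm⟩
  have hfr : Frag G {q₁, q₂} := by
    refine ⟨?_, ?_, ?_, ?_⟩
    · rw [h.vs]
      intro v
      simp only [mem_insert, mem_singleton]
      tauto
    · rw [card_pair q12]
    · rw [hNB]
      rw [card_insert_of_notMem, card_insert_of_notMem, card_insert_of_notMem, card_singleton]
      · simpa using u1
      · simp only [mem_insert, mem_singleton, not_or]; exact ⟨t1, t2⟩
      · simp only [mem_insert, mem_singleton, not_or]; exact ⟨s1, s2, s3⟩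
    · rw [hNB]
      have hsub : ({x, x'} : Finset α) ⊆ VS G \ ({q₁, q₂} ∪ {s₁, s₂, s₃, s₄}) := by
        intro v hv
        rw [h.vs]
        simp only [mem_insert, mem_singleton, mem_sdiff, mem_union, not_or] at hv ⊢
        rcases hv with rfl | rfl
        · exact ⟨by simp, ⟨x8, x9⟩, x4, x5, x6, x7⟩
        · exact ⟨by simp, ⟨y7, y8⟩, y3, y4, y5, y6⟩
      have := card_le_card hsub
      rw [card_pair x1] at this
      exact this
  have := h2 _ hfr
  rw [card_pair q12] at this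
  omega

end DL.N6CM

namespace DL

open DL.N6CM DL.FRGM

theorem specN6C (hN4A : SpecN4A) (hN4B : SpecN4B) (hN6A : SpecN6A) (hN6B : SpecN6B) : SpecN6C := by
  intro α _ _ G F T X Y x x' z z' s₁ s₂ s₃ s₄ q₁ q₂ hK h2 hNP hap hF hS h
  by_cases hz : Rig G z
  · exact Or.inr (rigz hN6A hN6B hK h2 hNP hap hF hS h hz)
  by_cases hz' : Rig G z'
  · exact Or.inr (rigz hN6A hN6B hK h2 hNP hap hF hS.symm (tal_z h) hz')
  left
  have hG := hK.1
  have hnd := h.nd
  simp only [List.nodup_cons, List.mem_cons, List.not_mem_nil, or_false, not_or] at hnd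
  have hT4 : T.card = 4 := by
    rw [h.hT, card_insert_of_notMem, card_insert_of_notMem, card_insert_of_notMem, card_singleton]
    · simp only [mem_singleton]; tauto
    · simp only [mem_insert, mem_singleton, not_or]; tauto
    · simp only [mem_insert, mem_singleton, not_or]; tauto
  have hX2 : 2 ≤ X.card := one_lt_card.2 ⟨z, h.hX.1, s₁, h.hX.2.1, by tauto⟩
  have hY2 : 2 ≤ Y.card := one_lt_card.2 ⟨z', h.hY.1, s₃, h.hY.2.1, by tauto⟩
  have hx : ¬ Rig G x := nrig.2 ⟨T, X, Y, hS, hT4, by rw [h.hT]; simp, hX2, hY2⟩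
  have hx' : ¬ Rig G x' := nrig.2 ⟨T, X, Y, hS, hT4, by rw [h.hT]; simp, hX2, hY2⟩
  have hall : ∀ v ∈ F, ¬ Rig G v := by
    intro v hv
    rw [h.hF] at hv
    simp only [mem_insert, mem_singleton] at hv
    rcases hv with rfl | rfl | rfl | rfl <;> assumption
  have hF4 : F.card = 4 := by
    rw [h.hF, card_insert_of_notMem, card_insert_of_notMem, card_insert_of_notMem, card_singleton]
    · simp only [mem_singleton]; tauto
    · simp only [mem_insert, mem_singleton, not_or]; tauto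
    · simp only [mem_insert, mem_singleton, not_or]; tauto
  have hSD : SD3 G F := by
    intro v _ S P Q hs hs4 _ hP hQ
    obtain ⟨k1, -, -, k2, -, -⟩ := DL.FRGM.sep hG hs hs4 hP hQ
    exact ⟨h2 P k1, h2 Q k2⟩
  obtain ⟨y, y', w, w', t₁, t₂, t₃, t₄, r₁, r₂, r₃, r₄, T1, X1, Y1, T2, X2, Y2, g1, g2, g3, g4, g5, g6, g7, g8, g9,
    g10, g11, g12, g13, g14, g15, g16, g17, g18, g19, g20, g21, g22, g23, g24, g25⟩ := hN4A hK hF hF4 hSD hall
  rcases hN4B hK hF g1 g2 g3 g4 g5 g6 g7 g8 g9 g10 g11 g12 g13 g14 g15 g16 g17 g18 g19 g20 g21 g22 g23 g24 g25 with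
    ⟨q₁, q₂, q₃, q₄, hg⟩ | ⟨q₁, q₂, hg⟩
  · exact ⟨_, _, _, _, _, _, _, _, _, _, _, _, hg⟩
  · exact (gr10 h2 hg).elim

end DL
end

section
/-! MP_3ff0f8_gt, algebra half, module N6D (helper14): the E-theorem. -/
open SimpleGraph Finset

namespace DL

namespace N6DM

variable {α : Type} [Fintype α] [DecidableEq α] {G : SimpleGraph α}

omit [Fintype α] in
theorem card3 {a b c : α} (h1 : a ≠ b) (h2 : a ≠ c) (h3 : b ≠ c) : ({a, b, c} : Finset α).card = 3 :=
  Finset.card_eq_three.2 ⟨a, b, c, h1, h2, h3, rfl⟩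

omit [Fintype α] in
theorem card4 {a b c d : α} (h1 : a ≠ b) (h2 : a ≠ c) (h3 : a ≠ d) (h4 : b ≠ c) (h5 : b ≠ d) (h6 : c ≠ d) :
    ({a, b, c, d} : Finset α).card = 4 := by
  rw [card_insert_of_notMem (by simp [h1, h2, h3]), card3 h4 h5 h6]

theorem sd3 (hF : SpecFRG) (hK : K48 G) (h2 : No2 G) (F : Finset α) : SD3 G F := by
  intro x _ S P Q hs hc _ hP hQ
  obtain ⟨h3, -, -, h4, -, -⟩ := hF.sep hK.1 hs hc hP hQ
  exact ⟨h2 P h3, h2 Q h4⟩

/-- every minimal fragment with a nonrigid vertex has three elements or is of type (al) -/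
theorem cls (hF : SpecFRG) (hC : SpecCLS) (hK : K48 G) (h2 : No2 G) {F : Finset α} (hM : MFrag G F) {x : α}
    (hx : x ∈ F) (hr : ¬ Rig G x) : F.card = 3 ∨ ∃ T X Y x' z z' s₁ s₂ s₃ s₄ q₁ q₂, Sep G T X Y ∧
      TAl G F T X Y x x' z z' s₁ s₂ s₃ s₄ q₁ q₂ := by
  obtain ⟨T, X, Y, hs, hc, hxT, hX, hY⟩ := hF.nrig.1 hr
  obtain ⟨hX3, hY3⟩ := sd3 hF hK h2 F x hx T X Y hs hc hxT hX hY
  rcases hC hK hM (h2 F hM.1) hx hs hc hxT hX3 hY3 with ⟨y, z, sa, sc, s, s', q, h⟩ |
    ⟨x', w, s₁, s₂, s₃, s₄, q₁, q₂, h⟩ | ⟨x', w, s₁, s₂, s₃, s₄, q₁, q₂, h⟩ | ⟨x', z, z', s₁, s₂, s₃, s₄, q₁, q₂, h⟩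
  · left
    have hn := h.nd
    simp only [List.nodup_cons, List.mem_cons, not_or] at hn
    rw [h.hF]
    exact card3 hn.1.1 hn.1.2.1 hn.2.1.1
  · left
    have hn := h.nd
    simp only [List.nodup_cons, List.mem_cons, not_or] at hn
    rw [h.hF]
    exact card3 hn.1.1 hn.1.2.1 hn.2.1.1
  · left
    have hn := h.nd
    simp only [List.nodup_cons, List.mem_cons, not_or] at hn
    rw [h.hF]
    exact card3 hn.1.1 hn.1.2.1 hn.2.1.1
  · right
    exact ⟨T, X, Y, x', z, z', s₁, s₂, s₃, s₄, q₁, q₂, hs, h⟩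

omit [DecidableEq α] in
theorem mem_NB {A : Finset α} {w : α} : w ∈ NB G A ↔ w ∉ A ∧ ∃ a ∈ A, G.Adj a w := by simp [NB]

omit [Fintype α] [DecidableEq α] in
theorem nadj {a q b₁ b₂ b₃ b₄ : α} (h : ∀ r, G.Adj a r ↔ r = b₁ ∨ r = b₂ ∨ r = b₃ ∨ r = b₄) (h1 : b₁ ≠ q)
    (h2 : b₂ ≠ q) (h3 : b₃ ≠ q) (h4 : b₄ ≠ q) : ¬ G.Adj a q := by
  rw [h q]
  rintro (e | e | e | e)
  · exact h1 e.symm
  · exact h2 e.symm
  · exact h3 e.symm
  · exact h4 e.symm

theorem gr10_nb {x x' z z' s₁ s₂ s₃ s₄ q₁ q₂ q w : α}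
    (vs : VS G = {x, x', z, z', s₁, s₂, s₃, s₄, q₁, q₂}) (hx : ¬ G.Adj x q) (hx' : ¬ G.Adj x' q)
    (hz : ¬ G.Adj z q) (hz' : ¬ G.Adj z' q) (hw : G.Adj q w) (h1 : w ≠ q₁) (h2 : w ≠ q₂) :
    w ∈ ({s₁, s₂, s₃, s₄} : Finset α) := by
  have hwV : w ∈ VS G := right_mem_VS hw
  rw [vs] at hwV
  simp only [mem_insert, mem_singleton] at hwV ⊢
  rcases hwV with e | e | e | e | e | e | e | e | e | e
  · rw [e] at hw; exact (hx hw.symm).elim
  · rw [e] at hw; exact (hx' hw.symm).elim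
  · rw [e] at hw; exact (hz hw.symm).elim
  · rw [e] at hw; exact (hz' hw.symm).elim
  · exact Or.inl e
  · exact Or.inr (Or.inl e)
  · exact Or.inr (Or.inr (Or.inl e))
  · exact Or.inr (Or.inr (Or.inr e))
  · exact (h1 e).elim
  · exact (h2 e).elim

theorem gr10 (h2 : No2 G) {x x' z z' s₁ s₂ s₃ s₄ q₁ q₂ : α} (h : Gr10 G x x' z z' s₁ s₂ s₃ s₄ q₁ q₂) : False := by
  have hn := h.nd
  simp only [List.nodup_cons, List.mem_cons, List.not_mem_nil, or_false, not_or, List.nodup_nil, and_true,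
    not_false_eq_true] at hn
  obtain ⟨⟨x1, x2, x3, x4, x5, x6, x7, x8, x9⟩, ⟨y2, y3, y4, y5, y6, y7, y8, y9⟩, ⟨z3, z4, z5, z6, z7, z8, z9⟩,
    ⟨w4, w5, w6, w7, w8, w9⟩, ⟨a5, a6, a7, a8, a9⟩, ⟨b6, b7, b8, b9⟩, ⟨c7, c8, c9⟩, ⟨d8, d9⟩, e9⟩ := hn
  have hv1 : ∀ w, G.Adj q₁ w → w ≠ q₁ → w ≠ q₂ → w ∈ ({s₁, s₂, s₃, s₄} : Finset α) := fun w hw h3 h4 =>
    gr10_nb h.vs (nadj h.ty.nx z8 w8 a8 c8) (nadj h.ty.nx' z8 w8 b8 d8) (nadj h.ty.nz x8 y8 a8 b8)
      (nadj h.ty.nz' x8 y8 c8 d8) hw h3 h4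
  have hv2 : ∀ w, G.Adj q₂ w → w ≠ q₁ → w ≠ q₂ → w ∈ ({s₁, s₂, s₃, s₄} : Finset α) := fun w hw h3 h4 =>
    gr10_nb h.vs (nadj h.ty.nx z9 w9 a9 c9) (nadj h.ty.nx' z9 w9 b9 d9) (nadj h.ty.nz x9 y9 a9 b9)
      (nadj h.ty.nz' x9 y9 c9 d9) hw h3 h4
  have hNB : NB G {q₁, q₂} = {s₁, s₂, s₃, s₄} := by
    ext w
    constructor
    · intro hw
      obtain ⟨hw1, a, ha, haw⟩ := mem_NB.1 hw
      rw [mem_insert, mem_singleton] at ha
      rw [mem_insert, mem_singleton, not_or] at hw1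
      rcases ha with rfl | rfl
      · exact hv1 w haw hw1.1 hw1.2
      · exact hv2 w haw hw1.1 hw1.2
    · intro hw
      rw [mem_NB]
      simp only [mem_insert, mem_singleton] at hw
      refine ⟨?_, q₁, mem_insert_self _ _, ?_⟩
      · rw [mem_insert, mem_singleton, not_or]
        rcases hw with e | e | e | e
        · rw [e]; exact ⟨a8, a9⟩
        · rw [e]; exact ⟨b8, b9⟩
        · rw [e]; exact ⟨c8, c9⟩
        · rw [e]; exact ⟨d8, d9⟩
      · rcases hw with e | e | e | e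
        · rw [e]; exact ((h.n1 q₁).2 (Or.inr (Or.inr (Or.inl rfl)))).symm
        · rw [e]; exact ((h.n2 q₁).2 (Or.inr (Or.inr (Or.inl rfl)))).symm
        · rw [e]; exact ((h.n3 q₁).2 (Or.inr (Or.inr (Or.inl rfl)))).symm
        · rw [e]; exact ((h.n4 q₁).2 (Or.inr (Or.inr (Or.inl rfl)))).symm
  have hq : q₁ ≠ q₂ := e9
  have hVq : ({q₁, q₂} : Finset α) ⊆ VS G := by
    rw [h.vs]
    intro w hw
    rw [mem_insert, mem_singleton] at hw
    rcases hw with e | e <;> rw [e] <;> simp only [mem_insert, mem_singleton, true_or, or_true]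
  have hfr : Frag G {q₁, q₂} := by
    refine ⟨hVq, ?_, ?_, ?_⟩
    · rw [card_pair hq]
    · rw [hNB]
      exact card4 a5 a6 a7 b6 b7 c7
    · have hsub : ({x, x'} : Finset α) ⊆ VS G \ ({q₁, q₂} ∪ NB G {q₁, q₂}) := by
        intro w hw
        rw [mem_insert, mem_singleton] at hw
        rw [hNB, mem_sdiff, h.vs, mem_union]
        rcases hw with e | e
        · rw [e]
          refine ⟨by simp only [mem_insert, true_or], ?_⟩
          simp only [mem_insert, mem_singleton, not_or]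
          exact ⟨⟨x8, x9⟩, x4, x5, x6, x7⟩
        · rw [e]
          refine ⟨by simp only [mem_insert, true_or, or_true], ?_⟩
          simp only [mem_insert, mem_singleton, not_or]
          exact ⟨⟨y8, y9⟩, y4, y5, y6, y7⟩
      have := card_le_card hsub
      rwa [card_pair x1] at this
  have := h2 _ hfr
  rw [card_pair hq] at this
  exact absurd this (by norm_num)

end N6DM

open N6DM in
theorem specN6D (hFRG : SpecFRG) (hCLS : SpecCLS) (hN3A : SpecN3A) (hN3B : SpecN3B) (hN4A : SpecN4A)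
    (hN4B : SpecN4B) (hTFL : SpecTFL) (hN62 : SpecN62) (hN6C : SpecN6C) (hR5A : SpecR5A) (hR5B : SpecR5B) :
    SpecN6D := by
  intro α _ _ G hK h2 hNP hrig
  by_cases hfr : ∃ F, Frag G F
  swap
  · left
    have hr : ∀ v ∈ VS G, Rig G v := by
      intro v _
      by_contra hv
      obtain ⟨S, P, Q, hs, hc, -, hP, hQ⟩ := hFRG.nrig.1 hv
      exact hfr ⟨P, (hFRG.sep hK.1 hs hc hP hQ).1⟩
    have hA : AR4 G := ⟨hK, hNP, hr, fun v hv => (hrig v hv (hr v hv)).1, fun v hv => (hrig v hv (hr v hv)).2⟩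
    obtain ⟨u, w, w', v, v', p, q, q', C, hC⟩ := hR5A hA
    exact hR5B hA hC
  obtain ⟨F₀, hF₀⟩ := hfr
  have hap : ∀ u ∈ VS G, Rig G u → ¬ NP (del G {u}) := fun u hu h => (hrig u hu h).2
  have h4 : Frag G F₀ := hF₀
  by_cases hM : ∃ F, MFrag G F ∧ ∃ x ∈ F, ¬ Rig G x
  · obtain ⟨F, hF, x, hx, hxr⟩ := hM
    have key : (∃ x x' z z' s₁ s₂ s₃ s₄ q₁ q₂ q₃ q₄, Gr12 G x x' z z' s₁ s₂ s₃ s₄ q₁ q₂ q₃ q₄) ∨
        ∀ r ∈ Rst G F, ¬ Rig G r := by
      rcases cls hFRG hCLS hK h2 hF hx hxr with h3 | ⟨T, X, Y, x', z, z', s₁, s₂, s₃, s₄, q₁, q₂, hs, h⟩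
      · right
        exact hN62 hK h2 hap hF.1 h3 ⟨x, hx, hxr⟩
      · exact hN6C hK h2 hNP hap hF hs h
    rcases key with h | h
    · exact Or.inr (Or.inl h)
    · obtain ⟨F₂, hsub, hF₂⟩ := hFRG.min (hFRG.rst hK.1 hF.1).1
      have hnr : ∀ x ∈ F₂, ¬ Rig G x := fun x hx => h x (hsub hx)
      have hne : F₂.Nonempty := by
        rw [← card_pos]
        have := hF₂.1.2.1
        omega
      obtain ⟨y, hy⟩ := hne
      have hsd := sd3 hFRG hK h2 F₂
      rcases cls hFRG hCLS hK h2 hF₂ hy (hnr y hy) with h3 | ⟨T, X, Y, x', z, z', s₁, s₂, s₃, s₄, q₁, q₂, hs, hal⟩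
      · rcases hN3A hK hF₂ h3 hsd hnr with ⟨u, v, w, s₁, s₂, s₃, s₄, hFe, hA⟩ | ⟨w, x, x', s₁, s₂, s₃, s₄, hFe, hB⟩
        · right; right
          subst hFe
          exact ⟨u, v, w, s₁, s₂, s₃, s₄, hA, hF₂⟩
        · subst hFe
          exact (hN3B hK hF₂ hsd (hnr x (by simp)) (hnr w (by simp)) hB).elim
      · have hc4 : F₂.card = 4 := by
          have hn := hal.nd
          simp only [List.nodup_cons, List.mem_cons, not_or] at hn
          rw [hal.hF]
          exact card4 hn.1.1 hn.1.2.1 hn.1.2.2.1 hn.2.1.1 hn.2.1.2.1 hn.2.2.1.1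
        obtain ⟨x, x', z, z', s₁, s₂, s₃, s₄, q₁, q₂, q₃, q₄, T, X, Y, T', X', Y', e1, e2, e3, e4, e5, e6, e7, e8, e9,
          e10, e11, e12, e13, e14, e15, e16, e17, e18, e19, e20, e21, e22, e23, e24, e25⟩ := hN4A hK hF₂ hc4 hsd hnr
        rcases hN4B hK hF₂ e1 e2 e3 e4 e5 e6 e7 e8 e9 e10 e11 e12 e13 e14 e15 e16 e17 e18 e19 e20 e21 e22 e23 e24 e25
          with ⟨r₁, r₂, r₃, r₄, hg⟩ | ⟨r₁, r₂, hg⟩
        · exact Or.inr (Or.inl ⟨_, _, _, _, _, _, _, _, _, _, _, _, hg⟩)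
        · exact (gr10 h2 hg).elim
  · have hall : ∀ F, MFrag G F → ∀ v ∈ F, Rig G v ∧ ¬ NP (del G {v}) := by
      intro F hF v hv
      have hr : Rig G v := by
        by_contra hr
        exact hM ⟨F, hF, v, hv, hr⟩
      exact ⟨hr, hap v (hF.1.1 hv) hr⟩
    obtain ⟨X, -, hX⟩ := hFRG.min hF₀
    obtain ⟨F, hsub, hF⟩ := hFRG.min (hFRG.rst hK.1 hX.1).1
    have hne : X.Nonempty := by
      rw [← card_pos]
      have := hX.1.2.1
      omega
    obtain ⟨u, hu⟩ := hne
    obtain ⟨h5, h6⟩ := hall X hX u hu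
    exact (hTFL hK h2 hNP hX.1 hF.1 hsub hu h5 h6 (hall F hF)).elim

end DL
end

section
/-!
# MP_3ff0f8_gt, G4 block: NO2 (helper72): no fragment with two vertices
-/
open SimpleGraph Finset

namespace DL

theorem specNO2 (hF2C : SpecF2C) : SpecNO2 := by
  intro α _ _ G hG h33 h34 h44 hTW F hF
  by_contra hc
  have h2 : F.card = 2 := by
    have := hF.2.1
    omega
  obtain ⟨x, y, hxy, rfl⟩ := card_eq_two.1 h2
  have hx : x ∈ VS G := hF.1 (by simp)
  have hy : y ∈ VS G := hF.1 (by simp)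
  rcases hF2C hG hx hy hxy hF.2.2.1.le with ⟨s₁, s₂, s₃, s₄, h⟩ | ⟨s₁, s₂, s₃, s₄, h⟩ |
    ⟨s₁, s₂, s₃, s₄, h⟩ | ⟨s, h⟩ | ⟨s, h⟩
  · exact h33 _ _ _ _ _ _ h
  · exact h34 _ _ _ _ _ _ h
  · exact h34 _ _ _ _ _ _ h
  · exact h44 _ _ _ h
  · exact hTW _ _ _ h

end DL
end

section
/-!
# MP_3ff0f8_gt, G4 block, module R5A (helper23): all vertices are rigid apices of degree 4
-/
open SimpleGraph Finset

namespace DL.R5AM

set_option linter.unusedSectionVars false

variable {α : Type} [Fintype α] [DecidableEq α] {G : SimpleGraph α}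

theorem mem_NB {A : Finset α} {w : α} : w ∈ NB G A ↔ w ∉ A ∧ ∃ a ∈ A, G.Adj a w := by
  simp [NB]

theorem NB_single (v : α) : NB G {v} = nbs G v := by
  ext w
  rw [mem_NB, mem_nbs]
  simp only [mem_singleton, exists_eq_left]
  exact ⟨fun h => h.2, fun h => ⟨h.ne', h⟩⟩

theorem deg (h : AR4 G) {v : α} (hv : v ∈ VS G) : (nbs G v).card = 4 := by
  have := h.deg v hv
  unfold dg at this
  rwa [NB_single] at this

/-- (F1') adjacent vertices have at most one common neighbour -/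
theorem f1 (hNBF : SpecNBF) (h : AR4 G) {x y c d : α} (hxy : G.Adj x y) (hxc : G.Adj x c)
    (hyc : G.Adj y c) (hxd : G.Adj x d) (hyd : G.Adj y d) : c = d := by
  by_contra hcd
  have hxV := left_mem_VS hxy
  have hyV := right_mem_VS hxy
  have hdx := deg h hxV
  have hdy := deg h hyV
  obtain ⟨A, hA⟩ : ∃ A : Finset α, A = {x, y} := ⟨_, rfl⟩
  have hAc : A.card = 2 := by rw [hA]; exact card_pair hxy.ne
  have hN : NB G A ⊆ (nbs G x).erase y ∪ (((nbs G y).erase x).erase c).erase d := by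
    intro w hw
    rw [mem_NB, hA] at hw
    simp only [mem_insert, mem_singleton, not_or] at hw
    obtain ⟨⟨hwx, hwy⟩, a, ha, haw⟩ := hw
    by_cases h1 : G.Adj x w
    · exact mem_union_left _ (mem_erase.2 ⟨hwy, mem_nbs.2 h1⟩)
    · rcases ha with rfl | rfl
      · exact absurd haw h1
      · refine mem_union_right _ (mem_erase.2 ⟨?_, mem_erase.2 ⟨?_, mem_erase.2 ⟨hwx, mem_nbs.2 haw⟩⟩⟩)
        · rintro rfl
          exact h1 hxd
        · rintro rfl
          exact h1 hxc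
  have hNc : (NB G A).card ≤ 4 := by
    refine (card_le_card hN).trans ((card_union_le _ _).trans ?_)
    rw [card_erase_of_mem (mem_nbs.2 hxy), card_erase_of_mem, card_erase_of_mem,
      card_erase_of_mem (mem_nbs.2 hxy.symm)]
    · omega
    · exact mem_erase.2 ⟨hxc.ne', mem_nbs.2 hyc⟩
    · exact mem_erase.2 ⟨Ne.symm hcd, mem_erase.2 ⟨hxd.ne', mem_nbs.2 hyd⟩⟩
  have hAV : A ⊆ VS G := by
    rw [hA]
    intro v hv
    simp only [mem_insert, mem_singleton] at hv
    rcases hv with rfl | rfl <;> assumption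
  have h8 := h.k48.2
  have hne : A.Nonempty := card_pos.1 (by omega)
  by_cases h4 : (NB G A).card = 4
  · have hcN : c ∈ NB G A := by
      rw [mem_NB, hA]
      refine ⟨?_, x, by simp, hxc⟩
      simp only [mem_insert, mem_singleton, not_or]
      exact ⟨hxc.ne', hyc.ne'⟩
    have h1 := hNBF.rig (h.rig c (right_mem_VS hxc)) hAV hcN h4 (by omega)
    have h2 := card_le_card (show VS G ⊆ (VS G \ (A ∪ NB G A)) ∪ (A ∪ NB G A) by
      intro v hv
      rw [mem_union, mem_sdiff]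
      by_cases h : v ∈ A ∪ NB G A
      · exact Or.inr h
      · exact Or.inl ⟨hv, h⟩)
    have h3 := card_union_le (VS G \ (A ∪ NB G A)) (A ∪ NB G A)
    have h5 := card_union_le A (NB G A)
    omega
  · have h1 := hNBF.nb h.k48.1 hAV hne (lt_of_le_of_ne hNc h4)
    have h2 := card_le_card h1
    have h3 := card_union_le A (NB G A)
    omega

/-- the setting -/
structure St (G : SimpleGraph α) (u w w' : α) (C : Finset (Sym2 α)) : Prop where
  ar : AR4 G
  uV : u ∈ VS G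
  cyc : IsCyc G C
  gam : Gam G u w w' (chi C)
  ch : ∀ a b, a ∈ vs C → b ∈ vs C → G.Adj a b → s(a, b) ∈ C

variable {u w w' : α} {C : Finset (Sym2 α)}

theorem gam_symm {Z : Chain α} (h : Gam G u w w' Z) : Gam G u w' w Z := by
  obtain ⟨h1, h2, h3, h4, r, z, hr, hz, hv, h5, h6, h7⟩ := h
  refine ⟨h2, h1, h3.symm, ?_, r, z, hr, hz, hv, h6, h5, fun v hv hv' => h7 v hv' hv⟩
  have : ({u, w', w} : Finset α) = {u, w, w'} := by
    ext a
    simp only [mem_insert, mem_singleton]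
    tauto
  rw [this]
  exact h4

theorem St.symm (h : St G u w w' C) : St G u w' w C :=
  ⟨h.ar, h.uV, h.cyc, gam_symm h.gam, h.ch⟩

theorem St.off (h : St G u w w' C) {a : α} (ha : a = u ∨ a = w ∨ a = w') : a ∉ vs C := by
  intro hv
  obtain ⟨e, he, hae⟩ := mem_vs.1 hv
  have h1 := (mem_Z1.1 h.gam.2.2.2.1).1 e (chi_ne_zero.2 he)
  exact F1NM.notMem_of_mem_del h1 hae (by simpa using ha)

theorem St.vsV (h : St G u w w' C) : vs C ⊆ VS G := h.cyc.vs_subset

/-- the neighbours outside the cycle -/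
theorem St.out (h : St G u w w' C) {z : α} (hz : z ∈ vs C) : (nbs G z \ vs C).card = 2 := by
  classical
  obtain ⟨i, j, hij, hi, hj, hk⟩ := h.cyc.two_edges hz
  have h1 : nbs G z ∩ vs C = {i, j} := by
    ext r
    rw [mem_inter, mem_nbs, mem_insert, mem_singleton]
    constructor
    · rintro ⟨h1, h2⟩
      exact hk r (h.ch z r hz h2 h1)
    · rintro (rfl | rfl)
      · exact ⟨h.cyc.adj_of_mem hi, right_mem_vs hi⟩
      · exact ⟨h.cyc.adj_of_mem hj, right_mem_vs hj⟩
  have h2 := card_sdiff_add_card_inter (nbs G z) (vs C)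
  rw [h1, card_pair hij, deg h.ar (h.vsV hz)] at h2
  omega

/-- the second neighbour outside the cycle -/
theorem St.out' (h : St G u w w' C) {z a : α} (hz : z ∈ vs C) (ha : a ∉ vs C) (hza : G.Adj z a) :
    ∃ b, b ∉ vs C ∧ G.Adj z b ∧ b ≠ a ∧ ∀ r, r ∉ vs C → G.Adj z r → r = a ∨ r = b := by
  classical
  have h1 : a ∈ nbs G z \ vs C := mem_sdiff.2 ⟨mem_nbs.2 hza, ha⟩
  have h2 : ((nbs G z \ vs C).erase a).card = 1 := by
    rw [card_erase_of_mem h1, h.out hz]
  obtain ⟨b, hb⟩ := card_eq_one.1 h2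
  have hb' : b ∈ (nbs G z \ vs C).erase a := by rw [hb]; exact mem_singleton_self b
  rw [mem_erase, mem_sdiff, mem_nbs] at hb'
  refine ⟨b, hb'.2.2, hb'.2.1, hb'.1, fun r hr hzr => ?_⟩
  by_cases hra : r = a
  · exact Or.inl hra
  · right
    have : r ∈ (nbs G z \ vs C).erase a := mem_erase.2 ⟨hra, mem_sdiff.2 ⟨mem_nbs.2 hzr, hr⟩⟩
    rw [hb] at this
    exact mem_singleton.1 this

/-- `y` has the neighbours `u, v, p, q`, `pq` an edge of the cycle -/
def Yp (G : SimpleGraph α) (C : Finset (Sym2 α)) (u y v p q : α) : Prop :=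
  p ≠ q ∧ s(p, q) ∈ C ∧ ∀ x, G.Adj y x ↔ x = u ∨ x = v ∨ x = p ∨ x = q

theorem Yp.symm {y v p q : α} (h : Yp G C u y v p q) : Yp G C u y v q p := by
  refine ⟨h.1.symm, ?_, fun x => ?_⟩
  · rw [Sym2.eq_swap]; exact h.2.1
  · rw [h.2.2]; tauto

/-- a vertex different from `u, w, w'` outside the cycle -/
structure Jv (G : SimpleGraph α) (C : Finset (Sym2 α)) (u w w' v : α) : Prop where
  V : v ∈ VS G
  C : v ∉ vs C
  u : v ≠ u
  w : v ≠ w
  w' : v ≠ w'

theorem Jv.symm {v : α} (h : Jv G C u w w' v) : Jv G C u w' w v := ⟨h.V, h.C, h.u, h.w', h.w⟩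

theorem St.gal (hGAL : SpecGAL) (h : St G u w w' C) {v : α} (hv : Jv G C u w w' v) :
    (∃ p q, Yp G C u w v p q) ∨ ∃ p q, Yp G C u w' v p q := by
  obtain ⟨y, p, q, hy, hpq, hC, hN⟩ := hGAL h.ar.k48 (h.ar.rig u h.uV) (h.ar.apx u h.uV)
    (h.ar.apx v hv.V) hv.V hv.u hv.w hv.w' h.cyc hv.C h.gam
  rcases hy with rfl | rfl
  · exact Or.inl ⟨p, q, hpq, hC, hN⟩
  · exact Or.inr ⟨p, q, hpq, hC, hN⟩

/-- `u`, `v` are not adjacent to `p` -/
theorem St.nad (hNBF : SpecNBF) (h : St G u w w' C) {v p q : α} (hv : Jv G C u w w' v)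
    (hY : Yp G C u w v p q) : ¬ G.Adj u p ∧ ¬ G.Adj v p := by
  obtain ⟨hpq, hC, hN⟩ := hY
  have hwp : G.Adj w p := (hN p).2 (by tauto)
  have hwq : G.Adj w q := (hN q).2 (by tauto)
  have hpq' : G.Adj p q := h.cyc.adj_of_mem hC
  constructor
  · intro hup
    have := f1 hNBF h.ar hwp hwq hpq' ((hN u).2 (by tauto)) hup.symm
    exact h.off (Or.inl rfl) (this ▸ right_mem_vs hC)
  · intro hvp
    have := f1 hNBF h.ar hwp hwq hpq' ((hN v).2 (by tauto)) hvp.symm
    exact hv.C (this ▸ right_mem_vs hC)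

/-- the final configuration -/
theorem core2 (hNBF : SpecNBF) (hGAL : SpecGAL) (h : St G u w w' C) (hww : ¬ G.Adj w w')
    {v v' p q q' : α} (hv : Jv G C u w w' v) (hv' : Jv G C u w w' v') (hvv : v ≠ v')
    (hY : Yp G C u w v p q) (hY' : Yp G C u w' v' q q') (hpv : G.Adj p v') :
    ∃ v' p q q', Cf5 G u w w' v v' p q q' C := by
  obtain ⟨hpq, hC, hN⟩ := id hY
  obtain ⟨hqq, hC', hN'⟩ := id hY'
  have awu : G.Adj w u := (hN u).2 (by tauto)
  have awv : G.Adj w v := (hN v).2 (by tauto)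
  have awp : G.Adj w p := (hN p).2 (by tauto)
  have awq : G.Adj w q := (hN q).2 (by tauto)
  have awu' : G.Adj w' u := (hN' u).2 (by tauto)
  have awq' : G.Adj w' q := (hN' q).2 (by tauto)
  have awqq' : G.Adj w' q' := (hN' q').2 (by tauto)
  have apq : G.Adj p q := h.cyc.adj_of_mem hC
  have aqq' : G.Adj q q' := h.cyc.adj_of_mem hC'
  have hpC : p ∈ vs C := left_mem_vs hC
  have hqC : q ∈ vs C := right_mem_vs hC
  have hq'C : q' ∈ vs C := right_mem_vs hC'
  have huC : u ∉ vs C := h.off (Or.inl rfl)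
  have hwC : w ∉ vs C := h.off (Or.inr (Or.inl rfl))
  have hw'C : w' ∉ vs C := h.off (Or.inr (Or.inr rfl))
  have hwne : w ≠ w' := h.gam.2.2.1
  -- `q'` is not adjacent to `w`
  have nwq' : ¬ G.Adj w q' := by
    intro h1
    exact hwne (f1 hNBF h.ar aqq' awq.symm h1.symm awq'.symm awqq'.symm)
  have hpq' : p ≠ q' := by
    rintro rfl
    exact nwq' awp
  have n1 := h.nad hNBF hv hY
  have n2 := h.nad hNBF hv hY.symm
  have n3 := h.symm.nad hNBF hv'.symm hY'
  have n4 := h.symm.nad hNBF hv'.symm hY'.symm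
  -- all vertices
  have hJ : ∀ r ∈ VS G, r ∉ vs C → r = u ∨ r = w ∨ r = w' ∨ r = v ∨ r = v' := by
    intro r hr hrC
    by_contra hcon
    simp only [not_or] at hcon
    obtain ⟨hru, hrw, hrw', hrv, hrv'⟩ := hcon
    have jr : Jv G C u w w' r := ⟨hr, hrC, hru, hrw, hrw'⟩
    rcases h.gal hGAL jr with ⟨p1, q1, h1⟩ | ⟨p1, q1, h1⟩
    · have : G.Adj w r := (h1.2.2 r).2 (by tauto)
      rcases (hN r).1 this with h2 | h2 | h2 | h2
      · exact hru h2
      · exact hrv h2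
      · exact hrC (h2 ▸ hpC)
      · exact hrC (h2 ▸ hqC)
    · have : G.Adj w' r := (h1.2.2 r).2 (by tauto)
      rcases (hN' r).1 this with h2 | h2 | h2 | h2
      · exact hru h2
      · exact hrv' h2
      · exact hrC (h2 ▸ hqC)
      · exact hrC (h2 ▸ hq'C)
  -- `q'` is adjacent to `v`
  have aq'v : G.Adj q' v := by
    obtain ⟨b, hb, hqb, hbne, -⟩ := h.out' hq'C hw'C awqq'.symm
    rcases hJ b (right_mem_VS hqb) hb with rfl | rfl | rfl | rfl | rfl
    · exact absurd hqb.symm n4.1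
    · exact absurd hqb.symm nwq'
    · exact absurd rfl hbne
    · exact hqb
    · exact absurd hqb.symm n4.2
  have npq' : ¬ G.Adj p q' := by
    intro h1
    have := f1 hNBF h.ar apq awp.symm awq.symm h1 aqq'
    exact hwC (this ▸ hq'C)
  refine ⟨v', p, q, q', ?_, h.cyc, h.gam, h.ch, ?_, ?_, hN, hN', ?_, hC, hC', hpv, aq'v, npq', ⟨n1.1, n2.1, n4.1⟩,
    n1.2, n4.2⟩
  · have e1 : ∀ {a b : α}, a ∉ vs C → b ∈ vs C → a ≠ b := fun ha hb hab => ha (hab ▸ hb)
    simp only [List.nodup_cons, List.mem_cons, List.not_mem_nil, or_false, not_or, List.nodup_nil,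
      and_true, not_false_eq_true]
    exact ⟨⟨awu.ne', awu'.ne', hv.u.symm, hv'.u.symm, e1 huC hpC, e1 huC hqC, e1 huC hq'C⟩,
      ⟨hwne, hv.w.symm, hv'.w.symm, e1 hwC hpC, e1 hwC hqC, e1 hwC hq'C⟩,
      ⟨hv.w'.symm, hv'.w'.symm, e1 hw'C hpC, e1 hw'C hqC, e1 hw'C hq'C⟩,
      ⟨hvv, e1 hv.C hpC, e1 hv.C hqC, e1 hv.C hq'C⟩,
      ⟨e1 hv'.C hpC, e1 hv'.C hqC, e1 hv'.C hq'C⟩, ⟨hpq, hpq'⟩, hqq⟩
  · ext r
    simp only [mem_union, mem_insert, mem_singleton]
    constructor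
    · intro hr
      by_cases hrC : r ∈ vs C
      · exact Or.inl hrC
      · exact Or.inr (hJ r hr hrC)
    · rintro (hr | rfl | rfl | rfl | rfl | rfl)
      · exact h.vsV hr
      · exact h.uV
      · exact left_mem_VS awu
      · exact left_mem_VS awu'
      · exact hv.V
      · exact hv'.V
  · intro r hr
    simp only [mem_insert, mem_singleton] at hr
    rcases hr with rfl | rfl | rfl | rfl | rfl
    · exact huC
    · exact hwC
    · exact hw'C
    · exact hv.C
    · exact hv'.C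
  · have hcard := deg h.ar (right_mem_VS apq)
    have hsub : ({p, q', w, w'} : Finset α) ⊆ nbs G q := by
      intro r hr
      simp only [mem_insert, mem_singleton] at hr
      rw [mem_nbs]
      rcases hr with rfl | rfl | rfl | rfl
      · exact apq.symm
      · exact aqq'
      · exact awq.symm
      · exact awq'.symm
    have hc4 : ({p, q', w, w'} : Finset α).card = 4 := by
      rw [card_insert_of_notMem, card_insert_of_notMem, card_insert_of_notMem, card_singleton]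
      · simpa using hwne
      · simp only [mem_insert, mem_singleton, not_or]
        exact ⟨fun h1 => hwC (h1 ▸ hq'C), fun h1 => hw'C (h1 ▸ hq'C)⟩
      · simp only [mem_insert, mem_singleton, not_or]
        exact ⟨hpq', fun h1 => hwC (h1 ▸ hpC), fun h1 => hw'C (h1 ▸ hpC)⟩
    have heq := eq_of_subset_of_card_le hsub (by rw [hcard, hc4])
    intro r
    rw [← mem_nbs, ← heq]
    simp only [mem_insert, mem_singleton]

/-- one vertex `v` outside -/
theorem core1 (hNBF : SpecNBF) (hGAL : SpecGAL) (h : St G u w w' C) (hww : ¬ G.Adj w w')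
    {v p q b c : α} (hv : Jv G C u w w' v) (hY : Yp G C u w v p q)
    (hb : b ∉ vs C) (hpb : G.Adj p b) (hbw : b ≠ w) (hbw' : b ≠ w')
    (hc : c ∉ vs C) (hqc : G.Adj q c) (hcw : c ≠ w) (hbc : b ≠ c) :
    ∃ v' p q q', Cf5 G u w w' v v' p q q' C := by
  obtain ⟨hpq, hC, hN⟩ := id hY
  have n1 := h.nad hNBF hv hY
  have n2 := h.nad hNBF hv hY.symm
  have hqC : q ∈ vs C := right_mem_vs hC
  have hpC : p ∈ vs C := left_mem_vs hC
  have jb : Jv G C u w w' b := by
    refine ⟨right_mem_VS hpb, hb, ?_, hbw, hbw'⟩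
    rintro rfl
    exact n1.1 hpb.symm
  have hbv : b ≠ v := by
    rintro rfl
    exact n1.2 hpb.symm
  have nw : ∀ t, Jv G C u w w' t → t ≠ v → ∃ p1 q1, Yp G C u w' t p1 q1 := by
    intro t ht htv
    rcases h.gal hGAL ht with ⟨p1, q1, h1⟩ | h1
    · have : G.Adj w t := (h1.2.2 t).2 (by tauto)
      rcases (hN t).1 this with h2 | h2 | h2 | h2
      · exact absurd h2 ht.u
      · exact absurd h2 htv
      · exact absurd (h2 ▸ hpC) ht.C
      · exact absurd (h2 ▸ hqC) ht.C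
    · exact h1
  obtain ⟨p', q', hY'⟩ := nw b jb hbv
  have hcw' : c = w' := by
    by_contra hcw'
    have jc : Jv G C u w w' c := by
      refine ⟨right_mem_VS hqc, hc, ?_, hcw, hcw'⟩
      rintro rfl
      exact n2.1 hqc.symm
    have hcv : c ≠ v := by
      rintro rfl
      exact n2.2 hqc.symm
    obtain ⟨p2, q2, h2⟩ := nw c jc hcv
    have : G.Adj w' c := (h2.2.2 c).2 (by tauto)
    rcases (hY'.2.2 c).1 this with h3 | h3 | h3 | h3
    · exact jc.u h3
    · exact hbc h3.symm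
    · exact hc (h3 ▸ left_mem_vs hY'.2.1)
    · exact hc (h3 ▸ right_mem_vs hY'.2.1)
  rw [hcw'] at hqc
  rcases (hY'.2.2 q).1 hqc.symm with h3 | h3 | h3 | h3
  · exact absurd (h3 ▸ hqC) (h.off (Or.inl rfl))
  · exact absurd (h3 ▸ hqC) jb.C
  · rw [← h3] at hY'
    exact core2 hNBF hGAL h hww hv jb hbv.symm hY hY' hpb
  · rw [← h3] at hY'
    exact core2 hNBF hGAL h hww hv jb hbv.symm hY hY'.symm hpb

theorem core (hNBF : SpecNBF) (hGAL : SpecGAL) (h : St G u w w' C) (hww : ¬ G.Adj w w')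
    {v p q : α} (hv : Jv G C u w w' v) (hY : Yp G C u w v p q) :
    ∃ v' p q q', Cf5 G u w w' v v' p q q' C := by
  obtain ⟨hpq, hC, hN⟩ := id hY
  have hwC : w ∉ vs C := h.off (Or.inr (Or.inl rfl))
  have awp : G.Adj w p := (hN p).2 (by tauto)
  have awq : G.Adj w q := (hN q).2 (by tauto)
  obtain ⟨b, hb, hpb, hbw, -⟩ := h.out' (left_mem_vs hC) hwC awp.symm
  obtain ⟨c, hc, hqc, hcw, -⟩ := h.out' (right_mem_vs hC) hwC awq.symm
  have apq : G.Adj p q := h.cyc.adj_of_mem hC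
  have hbc : b ≠ c := by
    rintro rfl
    exact hbw (f1 hNBF h.ar apq hpb hqc awp.symm awq.symm)
  by_cases hbw' : b = w'
  · have hcw' : c ≠ w' := by
      rintro rfl
      exact hbc hbw'
    exact core1 hNBF hGAL h hww hv hY.symm hc hqc hcw hcw' hb hpb hbw hbc.symm
  · exact core1 hNBF hGAL h hww hv hY hb hpb hbw hbw' hc hqc hcw hbc

/-- there is a further vertex -/
theorem exJ (h : St G u w w' C) : ∃ v, Jv G C u w w' v := by
  classical
  by_contra hcon
  have hall : ∀ r ∈ VS G, r ∉ vs C → r = u ∨ r = w ∨ r = w' := by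
    intro r hr hrC
    by_contra h1
    simp only [not_or] at h1
    exact hcon ⟨r, hr, hrC, h1.1, h1.2.1, h1.2.2⟩
  have auw : G.Adj u w := h.gam.1
  have auw' : G.Adj u w' := h.gam.2.1
  have hww : w ≠ w' := h.gam.2.2.1
  obtain ⟨T, hT⟩ : ∃ T : Finset α, T = {u, w, w'} := ⟨_, rfl⟩
  have hTc : T.card = 3 := by
    rw [hT, card_insert_of_notMem, card_pair hww]
    simp only [mem_insert, mem_singleton, not_or]
    exact ⟨auw.ne, auw'.ne⟩
  have hV : VS G ⊆ vs C ∪ T := by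
    intro r hr
    by_cases hrC : r ∈ vs C
    · exact mem_union_left _ hrC
    · refine mem_union_right _ ?_
      rw [hT]
      simpa using hall r hr hrC
  have hc5 : 5 ≤ (vs C).card := by
    have h1 := card_le_card hV
    have h2 := card_union_le (vs C) T
    have h3 := h.ar.k48.2
    omega
  -- double counting
  have hdc : ∑ z ∈ vs C, (T.filter fun t => G.Adj z t).card =
      ∑ t ∈ T, ((vs C).filter fun z => G.Adj z t).card :=
    sum_card_bipartiteAbove_eq_sum_card_bipartiteBelow _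
  have h1 : ∀ z ∈ vs C, (T.filter fun t => G.Adj z t).card = 2 := by
    intro z hz
    rw [← h.out hz]
    congr 1
    ext t
    rw [mem_filter, mem_sdiff, mem_nbs]
    constructor
    · rintro ⟨h1, h2⟩
      refine ⟨h2, h.off ?_⟩
      rw [hT] at h1
      simpa using h1
    · rintro ⟨h1, h2⟩
      refine ⟨?_, h1⟩
      rw [hT]
      simpa using hall t (right_mem_VS h1) h2
  rw [sum_congr rfl h1, sum_const, smul_eq_mul] at hdc
  have h2 : ∀ t a, a ∉ vs C → G.Adj t a → t ∈ VS G →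
      ((vs C).filter fun z => G.Adj z t).card ≤ 3 := by
    intro t a ha hta ht
    have h3 : ((vs C).filter fun z => G.Adj z t) ⊆ (nbs G t).erase a := by
      intro z hz
      rw [mem_filter] at hz
      rw [mem_erase, mem_nbs]
      refine ⟨?_, hz.2.symm⟩
      rintro rfl
      exact ha hz.1
    refine (card_le_card h3).trans ?_
    rw [card_erase_of_mem (mem_nbs.2 hta), deg h.ar ht]
  have h3 : ((vs C).filter fun z => G.Adj z u).card ≤ 2 := by
    have h3 : ((vs C).filter fun z => G.Adj z u) ⊆ ((nbs G u).erase w).erase w' := by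
      intro z hz
      rw [mem_filter] at hz
      rw [mem_erase, mem_erase, mem_nbs]
      refine ⟨?_, ?_, hz.2.symm⟩
      · rintro rfl
        exact h.off (Or.inr (Or.inr rfl)) hz.1
      · rintro rfl
        exact h.off (Or.inr (Or.inl rfl)) hz.1
    refine (card_le_card h3).trans ?_
    rw [card_erase_of_mem (mem_erase.2 ⟨hww.symm, mem_nbs.2 auw'⟩), card_erase_of_mem (mem_nbs.2 auw),
      deg h.ar h.uV]
  have h4 := h2 w u (h.off (Or.inl rfl)) auw.symm (right_mem_VS auw)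
  have h5 := h2 w' u (h.off (Or.inl rfl)) auw'.symm (right_mem_VS auw')
  rw [hT, sum_insert, sum_pair hww] at hdc
  · omega
  · simp only [mem_insert, mem_singleton, not_or]
    exact ⟨auw.ne, auw'.ne⟩

end DL.R5AM

namespace DL

open R5AM in
theorem specR5A (hMNZ : SpecMNZ) (hGAL : SpecGAL) (hNCN : SpecNCN) (hNBF : SpecNBF) : SpecR5A := by
  intro α _ _ G h
  have h8 := h.k48.2
  obtain ⟨u, hu⟩ : (VS G).Nonempty := card_pos.1 (by omega)
  obtain ⟨w, w', C, hC, hg, hch⟩ := hMNZ h.k48 (h.rig u hu) hu h.np (h.apx u hu)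
  have st : St G u w w' C := ⟨h, hu, hC, hg, hch⟩
  have hww : ¬ G.Adj w w' := hNCN.nadj (h.apx u hu) hg
  obtain ⟨v, hv⟩ := exJ st
  rcases st.gal hGAL hv with ⟨p, q, hY⟩ | ⟨p, q, hY⟩
  · obtain ⟨v', p, q, q', hc⟩ := core hNBF hGAL st hww hv hY
    exact ⟨u, w, w', v, v', p, q, q', C, hc⟩
  · obtain ⟨v', p, q, q', hc⟩ := core hNBF hGAL st.symm (fun h1 => hww h1.symm) hv.symm hY
    exact ⟨u, w', w, v, v', p, q, q', C, hc⟩

end DL
end

section
/-!
MP_3ff0f8_gt, ALGEBRA HALF, G4 block, module **R5B**: `K₃ □ K₃` from the configuration `Cf5`.  (helper42)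
-/
open SimpleGraph Finset

namespace DL

namespace R5BM

variable {α : Type} [Fintype α] [DecidableEq α] {G : SimpleGraph α}

theorem mem_NB1 {x r : α} : r ∈ NB G {x} ↔ G.Adj x r := by
  classical
  unfold NB
  simp only [mem_filter, mem_univ, true_and, mem_singleton]
  constructor
  · rintro ⟨_, a, rfl, h⟩
    exact h
  · intro h
    exact ⟨h.ne', x, rfl, h⟩

/-- a vertex of degree 4 with four known neighbours -/
theorem nb_of_adj {x a b c d : α} (h4 : dg G x = 4) (hnd : [a, b, c, d].Nodup) (ha : G.Adj x a)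
    (hb : G.Adj x b) (hc : G.Adj x c) (hd : G.Adj x d) (r : α) :
    G.Adj x r ↔ r = a ∨ r = b ∨ r = c ∨ r = d := by
  have hsub : ({a, b, c, d} : Finset α) ⊆ NB G {x} := by
    intro y hy
    rw [mem_NB1]
    simp only [mem_insert, mem_singleton] at hy
    rcases hy with rfl | rfl | rfl | rfl <;> assumption
  have hcard : ({a, b, c, d} : Finset α).card = 4 := by
    have : ({a, b, c, d} : Finset α) = [a, b, c, d].toFinset := by
      ext y
      simp
    rw [this, List.toFinset_card_of_nodup hnd]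
    rfl
  have heq : ({a, b, c, d} : Finset α) = NB G {x} := by
    apply Finset.eq_of_subset_of_card_le hsub
    rw [hcard]
    exact le_of_eq h4
  rw [← mem_NB1, ← heq]
  simp only [mem_insert, mem_singleton]

/-- a vertex of degree 4 whose neighbours are among four vertices -/
theorem adj_of_nb {x a b c d : α} (h4 : dg G x = 4)
    (h : ∀ r, G.Adj x r → r = a ∨ r = b ∨ r = c ∨ r = d) :
    G.Adj x a ∧ G.Adj x b ∧ G.Adj x c ∧ G.Adj x d := by
  have hsub : NB G {x} ⊆ ({a, b, c, d} : Finset α) := by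
    intro y hy
    rw [mem_NB1] at hy
    simp only [mem_insert, mem_singleton]
    exact h y hy
  have heq : NB G {x} = ({a, b, c, d} : Finset α) := by
    apply Finset.eq_of_subset_of_card_le hsub
    have : dg G x = (NB G {x}).card := rfl
    rw [← this, h4]
    exact Finset.card_le_four
  refine ⟨?_, ?_, ?_, ?_⟩ <;> rw [← mem_NB1, heq] <;> simp

/-- a path with all vertices among its two ends is an edge -/
theorem adj_of_pth {a b : α} {Q : Finset (Sym2 α)} (hQ : IsPth G a b Q) (hab : a ≠ b)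
    (h : vs Q ⊆ {a, b}) : G.Adj a b := by
  obtain ⟨c, hac, hc, _, _⟩ := hQ.uncons hab
  have := h (right_mem_vs hc)
  rw [mem_insert, mem_singleton] at this
  rcases this with rfl | rfl
  · exact absurd rfl hac.ne
  · exact hac

theorem prm1 {a b c d : Prop} : (a ∨ b ∨ c ∨ d) ↔ (b ∨ a ∨ d ∨ c) := by tauto
theorem prm2 {a b c d : Prop} : (a ∨ b ∨ c ∨ d) ↔ (b ∨ a ∨ c ∨ d) := by tauto
theorem prm3 {a b c d : Prop} : (a ∨ b ∨ c ∨ d) ↔ (c ∨ d ∨ b ∨ a) := by tauto
theorem prm4 {a b c d : Prop} : (a ∨ b ∨ c ∨ d) ↔ (b ∨ d ∨ a ∨ c) := by tauto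
theorem prm5 {a b c d : Prop} : (a ∨ b ∨ c ∨ d) ↔ (a ∨ b ∨ d ∨ c) := by tauto
theorem prm6 {a b c d : Prop} : (a ∨ b ∨ c ∨ d) ↔ (c ∨ d ∨ b ∨ a) := by tauto
theorem prm7 {a b c d : Prop} : (a ∨ b ∨ c ∨ d) ↔ (d ∨ c ∨ a ∨ b) := by tauto
theorem prm8 {a b c d : Prop} : (a ∨ b ∨ c ∨ d) ↔ (b ∨ d ∨ a ∨ c) := by tauto

/-- nine vertices with the adjacencies of the 3 × 3 grid -/
theorem grid {u w v w' q q' v' p z : α} (hL : [u, w, v, w', q, q', v', p, z].Nodup)
    (hVS : ∀ x ∈ VS G, x = u ∨ x = w ∨ x = v ∨ x = w' ∨ x = q ∨ x = q' ∨ x = v' ∨ x = p ∨ x = z)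
    (Nu : ∀ r, G.Adj u r ↔ r = w ∨ r = v ∨ r = w' ∨ r = v')
    (Nw : ∀ r, G.Adj w r ↔ r = v ∨ r = u ∨ r = q ∨ r = p)
    (Nv : ∀ r, G.Adj v r ↔ r = u ∨ r = w ∨ r = q' ∨ r = z)
    (Nw' : ∀ r, G.Adj w' r ↔ r = q ∨ r = q' ∨ r = v' ∨ r = u)
    (Nq : ∀ r, G.Adj q r ↔ r = q' ∨ r = w' ∨ r = p ∨ r = w)
    (Nq' : ∀ r, G.Adj q' r ↔ r = w' ∨ r = q ∨ r = z ∨ r = v)
    (Nv' : ∀ r, G.Adj v' r ↔ r = p ∨ r = z ∨ r = u ∨ r = w')
    (Np : ∀ r, G.Adj p r ↔ r = z ∨ r = v' ∨ r = w ∨ r = q)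
    (Nz : ∀ r, G.Adj z r ↔ r = v' ∨ r = p ∨ r = v ∨ r = q') : K3K3 G := by
  let f : Fin 3 → Fin 3 → α := ![![u, w, v], ![w', q, q'], ![v', p, z]]
  have hfL : ∀ i j : Fin 3, f i j = [u, w, v, w', q, q', v', p, z].get
      ⟨3 * i.val + j.val, by simp only [List.length_cons, List.length_nil]; omega⟩ := by
    intro i j
    fin_cases i <;> fin_cases j <;> rfl
  have hf : ∀ i j k l, f i j = f k l → i = k ∧ j = l := by
    intro i j k l h
    rw [hfL, hfL, hL.get_inj_iff, Fin.mk.injEq] at h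
    constructor <;> apply Fin.ext <;> omega
  refine ⟨f, hf, ?_, ?_⟩
  · intro x hx
    rcases hVS x hx with rfl | rfl | rfl | rfl | rfl | rfl | rfl | rfl | rfl
    · exact ⟨0, 0, rfl⟩
    · exact ⟨0, 1, rfl⟩
    · exact ⟨0, 2, rfl⟩
    · exact ⟨1, 0, rfl⟩
    · exact ⟨1, 1, rfl⟩
    · exact ⟨1, 2, rfl⟩
    · exact ⟨2, 0, rfl⟩
    · exact ⟨2, 1, rfl⟩
    · exact ⟨2, 2, rfl⟩
  · have hnb : ∀ i j, ∀ r, G.Adj (f i j) r ↔ r = f i (j + 1) ∨ r = f i (j + 2) ∨
        r = f (i + 1) j ∨ r = f (i + 2) j := by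
      intro i j r
      fin_cases i <;> fin_cases j
      · exact Nu r
      · exact Nw r
      · exact Nv r
      · exact Nw' r
      · exact Nq r
      · exact Nq' r
      · exact Nv' r
      · exact Np r
      · exact Nz r
    intro i j k l
    have hff : ∀ i j k l, f k l = f i j ↔ k = i ∧ l = j := by
      intro i j k l
      constructor
      · exact hf k l i j
      · rintro ⟨rfl, rfl⟩
        rfl
    rw [hnb, hff, hff, hff, hff]
    clear hnb hff hf hfL
    clear_value f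
    clear f
    revert i j k l
    decide

end R5BM

open R5BM in
/-- **R5B** -/
theorem specR5B (hGAL : SpecGAL) (hNCN : SpecNCN) : SpecR5B := by
  intro α _ _ G u w w' v v' p q q' C hG hC
  have hnd := hC.nd
  simp only [List.nodup_cons, List.mem_cons, List.not_mem_nil, or_false, not_or, List.nodup_nil,
    and_true, not_false_eq_true] at hnd
  obtain ⟨⟨huw, huw', huv, huv', hup, huq, huq'⟩, ⟨hww', hwv, hwv', hwp, hwq, hwq'⟩,
    ⟨hw'v, hw'v', hw'p, hw'q, hw'q'⟩, ⟨hvv', hvp, hvq, hvq'⟩, ⟨hv'p, hv'q, hv'q'⟩,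
    ⟨hpq, hpq'⟩, hqq'⟩ := hnd
  have hk4 : KConn 4 G := hG.k48.1
  have hVS : ∀ x, x ∈ vs C ∨ x = u ∨ x = w ∨ x = w' ∨ x = v ∨ x = v' → x ∈ VS G := by
    intro x hx
    rw [hC.vs, mem_union]
    simpa only [mem_insert, mem_singleton] using hx
  have hVS' : ∀ x, x ∈ VS G → x ∈ vs C ∨ x = u ∨ x = w ∨ x = w' ∨ x = v ∨ x = v' := by
    intro x hx
    rw [hC.vs, mem_union] at hx
    simpa only [mem_insert, mem_singleton] using hx
  have hoff : u ∉ vs C ∧ w ∉ vs C ∧ w' ∉ vs C ∧ v ∉ vs C ∧ v' ∉ vs C :=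
    ⟨hC.off u (by simp), hC.off w (by simp), hC.off w' (by simp), hC.off v (by simp),
      hC.off v' (by simp)⟩
  obtain ⟨ou, ow, ow', ov, ov'⟩ := hoff
  have huV : u ∈ VS G := hVS u (Or.inr (Or.inl rfl))
  have hrig : Rig G u := hG.rig u huV
  have hnpu : ¬ NP (del G {u}) := hG.apx u huV
  have hadjV : ∀ {x y : α}, G.Adj x y → y ∈ VS G := by
    intro x y h
    rw [mem_VS]
    exact ⟨x, h.symm⟩
  -- (1)
  have h1 : ¬ G.Adj v v' := by
    intro h
    apply hNCN.sep hnpu hC.cyc hC.gam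
    have a1 : (del G (insert u (vs C))).Adj w v := by
      refine ⟨(hC.nw v).2 (by simp), ?_, ?_⟩
      · rw [mem_insert, not_or]
        constructor <;> first | assumption | (apply Ne.symm; assumption)
      · rw [mem_insert, not_or]
        constructor <;> first | assumption | (apply Ne.symm; assumption)
    have a2 : (del G (insert u (vs C))).Adj v v' := by
      refine ⟨h, ?_, ?_⟩
      · rw [mem_insert, not_or]
        constructor <;> first | assumption | (apply Ne.symm; assumption)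
      · rw [mem_insert, not_or]
        constructor <;> first | assumption | (apply Ne.symm; assumption)
    have a3 : (del G (insert u (vs C))).Adj v' w' := by
      refine ⟨((hC.nw' v').2 (by simp)).symm, ?_, ?_⟩
      · rw [mem_insert, not_or]
        constructor <;> first | assumption | (apply Ne.symm; assumption)
      · rw [mem_insert, not_or]
        constructor <;> first | assumption | (apply Ne.symm; assumption)
    exact (a1.reachable.trans a2.reachable).trans a3.reachable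
  have hvq0 : ¬ G.Adj v q := by
    intro h
    rcases (hC.nq v).1 h.symm with h' | h' | h' | h'
    all_goals first | exact absurd h' (by assumption) | exact absurd h'.symm (by assumption)
  have hv'q0 : ¬ G.Adj v' q := by
    intro h
    rcases (hC.nq v').1 h.symm with h' | h' | h' | h'
    all_goals first | exact absurd h' (by assumption) | exact absurd h'.symm (by assumption)
  -- (2)
  have h2 : ∀ D : Finset (Sym2 α), IsCyc G D → Gam G u w w' (chi D) → vs C ⊆ vs D := by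
    intro D hD hgam t ht
    by_contra htD
    have htu : t ≠ u := fun e => ou (e ▸ ht)
    have htw : t ≠ w := fun e => ow (e ▸ ht)
    have htw' : t ≠ w' := fun e => ow' (e ▸ ht)
    have htv : t ≠ v := fun e => ov (e ▸ ht)
    have htv' : t ≠ v' := fun e => ov' (e ▸ ht)
    have htV : t ∈ VS G := hVS t (Or.inl ht)
    obtain ⟨y, p₂, q₂, hy, hp₂q₂, hmem, hyN⟩ := hGAL hG.k48 hrig hnpu (hG.apx t htV) htV htu htw htw'
      hD htD hgam
    have hadj : G.Adj p₂ q₂ := hD.adj_of_mem hmem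
    have hupD : u ∉ vs D := by
      have h0 := hgam.2.2.2.1
      intro hu
      obtain ⟨e, he, hue⟩ := mem_vs.1 hu
      have h3 := mem_Z1.1 h0
      have h4 := h3.1 e (by rw [chi_of_mem he]; exact one_ne_zero)
      induction e using Sym2.ind with
      | _ a b =>
        have h5 : (del G {u, w, w'}).Adj a b := h4
        rw [Sym2.mem_iff] at hue
        rcases hue with rfl | rfl
        · exact h5.2.1 (by simp)
        · exact h5.2.2 (by simp)
    have hp₂u : p₂ ≠ u := fun e => hupD (e ▸ left_mem_vs hmem)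
    have hq₂u : q₂ ≠ u := fun e => hupD (e ▸ right_mem_vs hmem)
    have hp₂t : p₂ ≠ t := fun e => htD (e ▸ left_mem_vs hmem)
    have hq₂t : q₂ ≠ t := fun e => htD (e ▸ right_mem_vs hmem)
    rcases hy with rfl | rfl
    · have ht1 := (hC.nw t).1 ((hyN t).2 (by simp))
      have hp1 := (hC.nw p₂).1 ((hyN p₂).2 (by simp))
      have hq1 := (hC.nw q₂).1 ((hyN q₂).2 (by simp))
      have hnvp := hC.nvp.1
      have key : (p₂ = v ∧ (q₂ = p ∨ q₂ = q)) ∨ (q₂ = v ∧ (p₂ = p ∨ p₂ = q)) := by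
        rcases ht1 with h | h | h | h
        · exact absurd h htu
        · exact absurd h htv
        · subst h
          rcases hp1 with h | h | h | h
          · exact absurd h hp₂u
          · rcases hq1 with h' | h' | h' | h'
            · exact absurd h' hq₂u
            · exact absurd (h.trans h'.symm) hp₂q₂
            · exact absurd h' hq₂t
            · exact Or.inl ⟨h, Or.inr h'⟩
          · exact absurd h hp₂t
          · rcases hq1 with h' | h' | h' | h'
            · exact absurd h' hq₂u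
            · exact Or.inr ⟨h', Or.inr h⟩
            · exact absurd h' hq₂t
            · exact absurd (h.trans h'.symm) hp₂q₂
        · subst h
          rcases hp1 with h | h | h | h
          · exact absurd h hp₂u
          · rcases hq1 with h' | h' | h' | h'
            · exact absurd h' hq₂u
            · exact absurd (h.trans h'.symm) hp₂q₂
            · exact Or.inl ⟨h, Or.inl h'⟩
            · exact absurd h' hq₂t
          · rcases hq1 with h' | h' | h' | h'
            · exact absurd h' hq₂u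
            · exact Or.inr ⟨h', Or.inl h⟩
            · exact absurd (h.trans h'.symm) hp₂q₂
            · exact absurd h' hq₂t
          · exact absurd h hp₂t
      rcases key with ⟨rfl, rfl | rfl⟩ | ⟨rfl, rfl | rfl⟩
      · exact hnvp hadj
      · exact hvq0 hadj
      · exact hnvp hadj.symm
      · exact hvq0 hadj.symm
    · have ht1 := (hC.nw' t).1 ((hyN t).2 (by simp))
      have hp1 := (hC.nw' p₂).1 ((hyN p₂).2 (by simp))
      have hq1 := (hC.nw' q₂).1 ((hyN q₂).2 (by simp))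
      have hnvp := hC.nvp.2
      have key : (p₂ = v' ∧ (q₂ = q' ∨ q₂ = q)) ∨ (q₂ = v' ∧ (p₂ = q' ∨ p₂ = q)) := by
        rcases ht1 with h | h | h | h
        · exact absurd h htu
        · exact absurd h htv'
        · subst h
          rcases hp1 with h | h | h | h
          · exact absurd h hp₂u
          · rcases hq1 with h' | h' | h' | h'
            · exact absurd h' hq₂u
            · exact absurd (h.trans h'.symm) hp₂q₂
            · exact absurd h' hq₂t
            · exact Or.inl ⟨h, Or.inl h'⟩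
          · exact absurd h hp₂t
          · rcases hq1 with h' | h' | h' | h'
            · exact absurd h' hq₂u
            · exact Or.inr ⟨h', Or.inl h⟩
            · exact absurd h' hq₂t
            · exact absurd (h.trans h'.symm) hp₂q₂
        · subst h
          rcases hp1 with h | h | h | h
          · exact absurd h hp₂u
          · rcases hq1 with h' | h' | h' | h'
            · exact absurd h' hq₂u
            · exact absurd (h.trans h'.symm) hp₂q₂
            · exact Or.inl ⟨h, Or.inr h'⟩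
            · exact absurd h' hq₂t
          · rcases hq1 with h' | h' | h' | h'
            · exact absurd h' hq₂u
            · exact Or.inr ⟨h', Or.inr h⟩
            · exact absurd (h.trans h'.symm) hp₂q₂
            · exact absurd h' hq₂t
          · exact absurd h hp₂t
      rcases key with ⟨rfl, rfl | rfl⟩ | ⟨rfl, rfl | rfl⟩
      · exact hnvp hadj
      · exact hv'q0 hadj
      · exact hnvp hadj.symm
      · exact hv'q0 hadj.symm
  -- (3)
  have h3 : ∀ x a b, x ∉ vs C → x ≠ u → x ≠ w → x ≠ w' → G.Adj x a → G.Adj x b → a ∈ vs C →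
      b ∈ vs C → a ≠ b → s(a, b) ∈ C := by
    intro x a b hx hxu hxw hxw' hxa hxb ha hb hab
    apply hC.ch a b ha hb
    obtain ⟨P, Q, hP, hQ, hPQ, hdis, hvs⟩ := hC.cyc.split ha hb hab
    have hR : IsPth G a b {s(a, x), s(x, b)} := by
      have := (IsPth.edge hxb).cons hxa.symm (by
        rw [vs_singleton]
        simp only [mem_insert, mem_singleton, not_or]
        exact ⟨fun e => hx (e ▸ ha), hab⟩)
      exact this
    have hvR : vs ({s(a, x), s(x, b)} : Finset (Sym2 α)) = {a, x, b} := by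
      have : ({s(a, x), s(x, b)} : Finset (Sym2 α)) = insert s(a, x) {s(x, b)} := rfl
      rw [this, vs_insert, vs_singleton]
      ext y
      simp only [mem_union, mem_insert, mem_singleton]
      clear * -
      tauto
    have hPC : vs P ⊆ vs C := vs_mono (hPQ ▸ subset_union_left)
    have hQC : vs Q ⊆ vs C := vs_mono (hPQ ▸ subset_union_right)
    have hin : ∀ {P' : Finset (Sym2 α)}, vs P' ⊆ vs C →
        vs P' ∩ vs ({s(a, x), s(x, b)} : Finset (Sym2 α)) ⊆ {a, b} := by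
      intro P' hP' y hy
      rw [mem_inter, hvR] at hy
      simp only [mem_insert, mem_singleton] at hy ⊢
      rcases hy with ⟨h, rfl | rfl | rfl⟩
      · exact Or.inl rfl
      · exact absurd (hP' h) hx
      · exact Or.inr rfl
    have hneR : ∀ {P' : Finset (Sym2 α)}, vs P' ⊆ vs C → P' ≠ {s(a, x), s(x, b)} := by
      intro P' hP' e
      apply hx
      apply hP'
      rw [e, hvR]
      simp
    have hc1 : IsCyc G (P ∪ {s(a, x), s(x, b)}) := hP.isCyc_union hR hab (hin hPC) (hneR hPC)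
    have hc2 : IsCyc G (Q ∪ {s(a, x), s(x, b)}) := hQ.isCyc_union hR hab (hin hQC) (hneR hQC)
    have hd1 : Disjoint P {s(a, x), s(x, b)} := hP.disjoint_of_inter hR (hin hPC) (hneR hPC)
    have hd2 : Disjoint Q {s(a, x), s(x, b)} := hQ.disjoint_of_inter hR (hin hQC) (hneR hQC)
    have hsum : chi C + chi (P ∪ {s(a, x), s(x, b)}) = chi (Q ∪ {s(a, x), s(x, b)}) := by
      rw [← hPQ, chi_union hdis, chi_union hd1, chi_union hd2]
      have : chi P + chi Q + (chi P + chi {s(a, x), s(x, b)}) =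
        (chi P + chi P) + (chi Q + chi {s(a, x), s(x, b)}) := by abel
      rw [this, chain_add_self, zero_add]
    have hvdis : ∀ {P' : Finset (Sym2 α)}, vs P' ⊆ vs C →
        Disjoint (vs (P' ∪ {s(a, x), s(x, b)})) {u, w, w'} := by
      intro P' hP'
      rw [Finset.disjoint_left]
      intro y hy hy'
      rw [mem_vs_union, hvR] at hy
      simp only [mem_insert, mem_singleton] at hy hy'
      rcases hy with hy | rfl | rfl | rfl
      · rcases hy' with rfl | rfl | rfl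
        · exact ou (hP' hy)
        · exact ow (hP' hy)
        · exact ow' (hP' hy)
      · rcases hy' with rfl | rfl | rfl
        · exact ou ha
        · exact ow ha
        · exact ow' ha
      · rcases hy' with h' | h' | h'
        · exact hxu h'
        · exact hxw h'
        · exact hxw' h'
      · rcases hy' with rfl | rfl | rfl
        · exact ou hb
        · exact ow hb
        · exact ow' hb
    have hz1 : chi (P ∪ {s(a, x), s(x, b)}) ∈ Z1 (del G {u, w, w'}) :=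
      (isCyc_del.2 ⟨hc1, hvdis hPC⟩).chi_mem
    have hfin : ∀ {P' Q' : Finset (Sym2 α)}, vs P' ∩ vs Q' = {a, b} → vs Q' ⊆ vs C →
        IsPth G a b Q' → vs C ⊆ vs (P' ∪ {s(a, x), s(x, b)}) → G.Adj a b := by
      intro P' Q' hint hQ' hQp hsub
      apply adj_of_pth hQp hab
      intro y hy
      have h4 := hsub (hQ' hy)
      rw [mem_vs_union, hvR] at h4
      simp only [mem_insert, mem_singleton] at h4 ⊢
      rcases h4 with h4 | rfl | rfl | rfl
      · have h5 : y ∈ vs P' ∩ vs Q' := mem_inter.2 ⟨h4, hy⟩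
        rw [hint] at h5
        simpa using h5
      · exact Or.inl rfl
      · exact absurd (hQ' hy) hx
      · exact Or.inr rfl
    rcases hNCN.lin hk4 hnpu hC.gam hz1 with hg | hg
    · exact hfin hvs hQC hQ (h2 _ hc1 hg)
    · rw [hsum] at hg
      exact hfin (by rw [inter_comm]; exact hvs) hPC hP (h2 _ hc2 hg)
  -- the vertices `v`, `v'`
  have hpC : p ∈ vs C := left_mem_vs hC.pq
  have hqC : q ∈ vs C := right_mem_vs hC.pq
  have hq'C : q' ∈ vs C := right_mem_vs hC.qq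
  have hq'q : s(q', q) ∈ C := by
    rw [Sym2.eq_swap]
    exact hC.qq
  obtain ⟨z, hzq, hz⟩ := hC.cyc.exists_other hq'q
  obtain ⟨z₂, hz₂q, hz₂⟩ := hC.cyc.exists_other hC.pq
  have hwv1 : G.Adj w v := (hC.nw v).2 (by simp)
  have hw'v'1 : G.Adj w' v' := (hC.nw' v').2 (by simp)
  have hvN : ∀ r, G.Adj v r → r = w ∨ r = u ∨ r = q' ∨ r = z := by
    intro r hr
    rcases hVS' r (hadjV hr) with h | h | h | h | h | h
    · by_cases hrq' : r = q'
      · exact Or.inr (Or.inr (Or.inl hrq'))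
      · have h4 := h3 v q' r ov (Ne.symm huv) (Ne.symm hwv) (Ne.symm hw'v) hC.qv.symm hr hq'C h (Ne.symm hrq')
        rcases hC.cyc.eq_or_eq hq'q hz hzq.symm h4 with e | e
        · exact absurd (e ▸ hr) hvq0
        · exact Or.inr (Or.inr (Or.inr e))
    · exact Or.inr (Or.inl h)
    · exact Or.inl h
    · subst h
      rcases (hC.nw' v).1 hr.symm with h' | h' | h' | h'
      all_goals first | exact absurd h' (by assumption) | exact absurd h'.symm (by assumption)
    · exact absurd h hr.ne'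
    · exact absurd (h ▸ hr) h1
  have hv'N : ∀ r, G.Adj v' r → r = w' ∨ r = u ∨ r = p ∨ r = z₂ := by
    intro r hr
    rcases hVS' r (hadjV hr) with h | h | h | h | h | h
    · by_cases hrp : r = p
      · exact Or.inr (Or.inr (Or.inl hrp))
      · have h4 := h3 v' p r ov' (Ne.symm huv') (Ne.symm hwv') (Ne.symm hw'v') hC.pv.symm hr hpC h (Ne.symm hrp)
        rcases hC.cyc.eq_or_eq hC.pq hz₂ hz₂q.symm h4 with e | e
        · exact absurd (e ▸ hr) hv'q0
        · exact Or.inr (Or.inr (Or.inr e))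
    · exact Or.inr (Or.inl h)
    · subst h
      rcases (hC.nw v').1 hr.symm with h' | h' | h' | h'
      all_goals first | exact absurd h' (by assumption) | exact absurd h'.symm (by assumption)
    · exact Or.inl h
    · exact absurd (h ▸ hr.symm) h1
    · exact absurd h hr.ne'
  have hdg : ∀ x, x ∈ vs C ∨ x = u ∨ x = w ∨ x = w' ∨ x = v ∨ x = v' → dg G x = 4 :=
    fun x hx => hG.deg x (hVS x hx)
  obtain ⟨_, hvu1, hvq'1, hvz⟩ := adj_of_nb (hdg v (by simp)) hvN
  obtain ⟨_, hv'u1, hv'p1, hv'z₂⟩ := adj_of_nb (hdg v' (by simp)) hv'N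
  have huN : ∀ r, G.Adj u r ↔ r = w ∨ r = v ∨ r = w' ∨ r = v' := by
    apply nb_of_adj (hdg u (by simp)) _ hC.gam.1 hvu1.symm hC.gam.2.1 hv'u1.symm
    simp only [List.nodup_cons, List.mem_cons, List.not_mem_nil, or_false, not_or, List.nodup_nil,
      and_true, not_false_eq_true]
    refine ⟨⟨?_, ?_, ?_⟩, ⟨?_, ?_⟩, ?_⟩ <;> first | assumption | (apply Ne.symm; assumption)
  -- (4)
  have h4 : ∀ y, y ∈ vs C → y ≠ p → y ≠ q → y ≠ q' → G.Adj y v ∧ G.Adj y v' := by
    intro y hy hyp hyq hyq'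
    obtain ⟨i, j, hij, hi, hj, hk⟩ := hC.cyc.two_edges hy
    have hyu : y ≠ u := fun e => ou (e ▸ hy)
    have hyv : y ≠ v := fun e => ov (e ▸ hy)
    have hyv' : y ≠ v' := fun e => ov' (e ▸ hy)
    have hyw : y ≠ w := fun e => ow (e ▸ hy)
    have hyw' : y ≠ w' := fun e => ow' (e ▸ hy)
    have hyN : ∀ r, G.Adj y r → r = i ∨ r = j ∨ r = v ∨ r = v' := by
      intro r hr
      rcases hVS' r (hadjV hr) with h | h | h | h | h | h
      · rcases hk r (hC.ch y r hy h hr) with e | e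
        · exact Or.inl e
        · exact Or.inr (Or.inl e)
      · subst h
        rcases (huN y).1 hr.symm with h' | h' | h' | h'
        all_goals first | exact absurd h' (by assumption) | exact absurd h'.symm (by assumption)
      · subst h
        rcases (hC.nw y).1 hr.symm with h' | h' | h' | h'
        all_goals first | exact absurd h' (by assumption) | exact absurd h'.symm (by assumption)
      · subst h
        rcases (hC.nw' y).1 hr.symm with h' | h' | h' | h'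
        all_goals first | exact absurd h' (by assumption) | exact absurd h'.symm (by assumption)
      · exact Or.inr (Or.inr (Or.inl h))
      · exact Or.inr (Or.inr (Or.inr h))
    obtain ⟨_, _, a, b⟩ := adj_of_nb (hdg y (Or.inl hy)) hyN
    exact ⟨a, b⟩
  have hzC : z ∈ vs C := right_mem_vs hz
  have hz₂C : z₂ ∈ vs C := right_mem_vs hz₂
  have hzq' : z ≠ q' := (hC.cyc.adj_of_mem hz).ne'
  have hzp : z ≠ p := by
    rintro rfl
    exact hC.npq (hC.cyc.adj_of_mem hz).symm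
  have hz1 := h4 z hzC hzp hzq hzq'
  have hzu : z ≠ u := fun e => ou (e ▸ hzC)
  have hzv : z ≠ v := fun e => ov (e ▸ hzC)
  have hzv' : z ≠ v' := fun e => ov' (e ▸ hzC)
  have hzw : z ≠ w := fun e => ow (e ▸ hzC)
  have hzw' : z ≠ w' := fun e => ow' (e ▸ hzC)
  have hzz₂ : z = z₂ := by
    rcases hv'N z hz1.2.symm with h' | h' | h' | h'
    · exact absurd h' hzw'
    · exact absurd h' hzu
    · exact absurd h' hzp
    · exact h'
  subst hzz₂
  have hall : ∀ y, y ∈ vs C → y = p ∨ y = q ∨ y = q' ∨ y = z := by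
    intro y hy
    by_cases hyp : y = p
    · exact Or.inl hyp
    by_cases hyq : y = q
    · exact Or.inr (Or.inl hyq)
    by_cases hyq' : y = q'
    · exact Or.inr (Or.inr (Or.inl hyq'))
    have hy1 := h4 y hy hyp hyq hyq'
    have hyu : y ≠ u := fun e => ou (e ▸ hy)
    have hyw : y ≠ w := fun e => ow (e ▸ hy)
    rcases hvN y hy1.1.symm with h' | h' | h' | h'
    · exact absurd h' hyw
    · exact absurd h' hyu
    · exact absurd h' hyq'
    · exact Or.inr (Or.inr (Or.inr h'))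
  have hNv : ∀ r, G.Adj v r ↔ r = w ∨ r = u ∨ r = q' ∨ r = z := by
    apply nb_of_adj (hdg v (by simp)) _ hwv1.symm hvu1 hvq'1 hvz
    simp only [List.nodup_cons, List.mem_cons, List.not_mem_nil, or_false, not_or, List.nodup_nil,
      and_true, not_false_eq_true]
    refine ⟨⟨?_, ?_, ?_⟩, ⟨?_, ?_⟩, ?_⟩ <;> first | assumption | (apply Ne.symm; assumption)
  have hNv' : ∀ r, G.Adj v' r ↔ r = w' ∨ r = u ∨ r = p ∨ r = z := by
    apply nb_of_adj (hdg v' (by simp)) _ hw'v'1.symm hv'u1 hv'p1 hv'z₂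
    simp only [List.nodup_cons, List.mem_cons, List.not_mem_nil, or_false, not_or, List.nodup_nil,
      and_true, not_false_eq_true]
    refine ⟨⟨?_, ?_, ?_⟩, ⟨?_, ?_⟩, ?_⟩ <;> first | assumption | (apply Ne.symm; assumption)
  have hNq' : ∀ r, G.Adj q' r ↔ r = w' ∨ r = q ∨ r = v ∨ r = z := by
    apply nb_of_adj (hdg q' (Or.inl hq'C)) _ ((hC.nw' q').2 (by simp)).symm
      (hC.cyc.adj_of_mem hC.qq).symm hvq'1.symm (hC.cyc.adj_of_mem hz)
    simp only [List.nodup_cons, List.mem_cons, List.not_mem_nil, or_false, not_or, List.nodup_nil,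
      and_true, not_false_eq_true]
    refine ⟨⟨?_, ?_, ?_⟩, ⟨?_, ?_⟩, ?_⟩ <;> first | assumption | (apply Ne.symm; assumption)
  have hNp : ∀ r, G.Adj p r ↔ r = w ∨ r = q ∨ r = v' ∨ r = z := by
    apply nb_of_adj (hdg p (Or.inl hpC)) _ ((hC.nw p).2 (by simp)).symm
      (hC.cyc.adj_of_mem hC.pq) hv'p1.symm (hC.cyc.adj_of_mem hz₂)
    simp only [List.nodup_cons, List.mem_cons, List.not_mem_nil, or_false, not_or, List.nodup_nil,
      and_true, not_false_eq_true]
    refine ⟨⟨?_, ?_, ?_⟩, ⟨?_, ?_⟩, ?_⟩ <;> first | assumption | (apply Ne.symm; assumption)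
  have hNz : ∀ r, G.Adj z r ↔ r = v ∨ r = v' ∨ r = q' ∨ r = p := by
    apply nb_of_adj (hdg z (Or.inl hzC)) _ hz1.1 hz1.2 (hC.cyc.adj_of_mem hz).symm
      (hC.cyc.adj_of_mem hz₂).symm
    simp only [List.nodup_cons, List.mem_cons, List.not_mem_nil, or_false, not_or, List.nodup_nil,
      and_true, not_false_eq_true]
    refine ⟨⟨?_, ?_, ?_⟩, ⟨?_, ?_⟩, ?_⟩ <;> first | assumption | (apply Ne.symm; assumption)
  refine grid (u := u) (w := w) (v := v) (w' := w') (q := q) (q' := q') (v' := v') (p := p) (z := z)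
    ?_ ?_ huN ?_ ?_ ?_ ?_ ?_ ?_ ?_ ?_
  · simp only [List.nodup_cons, List.mem_cons, List.not_mem_nil, or_false, not_or, List.nodup_nil,
      and_true, not_false_eq_true]
    refine ⟨⟨?_, ?_, ?_, ?_, ?_, ?_, ?_, ?_⟩, ⟨?_, ?_, ?_, ?_, ?_, ?_, ?_⟩, ⟨?_, ?_, ?_, ?_, ?_, ?_⟩,
      ⟨?_, ?_, ?_, ?_, ?_⟩, ⟨?_, ?_, ?_, ?_⟩, ⟨?_, ?_, ?_⟩, ⟨?_, ?_⟩, ?_⟩ <;>
      first
      | assumption
      | (apply Ne.symm; assumption)
  · intro x hx
    rcases hVS' x hx with h | rfl | rfl | rfl | rfl | rfl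
    · rcases hall x h with rfl | rfl | rfl | rfl <;> simp
    all_goals simp
  · intro r
    rw [hC.nw r]
    exact prm1
  · intro r
    rw [hNv r]
    exact prm2
  · intro r
    rw [hC.nw' r]
    exact prm3
  · intro r
    rw [hC.nq r]
    exact prm4
  · intro r
    rw [hNq' r]
    exact prm5
  · intro r
    rw [hNv' r]
    exact prm6
  · intro r
    rw [hNp r]
    exact prm7
  · intro r
    rw [hNz r]
    exact prm8

end DL
end
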