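import Pool.Agent.DL.G4.Spec2
import Pool.Agent.DL.BASE.PLC

section
/-!
# MP_3ff0f8_gt, ALGEBRA HALF, G4 block: module K33 (helper41)
-/
open SimpleGraph Finset

namespace DL

namespace K33M

theorem mem_VS_of_adj {α : Type} [Fintype α] [DecidableEq α] {G : SimpleGraph α} {x y : α} (h : G.Adj x y) :
    x ∈ VS G := by
  classical
  simp only [VS, mem_filter, mem_univ, true_and]
  exact (SimpleGraph.mem_support G).2 ⟨y, h⟩

end K33M

theorem specK33 : SpecK33 := by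
  intro α _ _ G h
  obtain ⟨f, hinj, hcov, hadj⟩ := h
  refine ⟨f, hinj, fun x y => ⟨fun h => ?_, ?_⟩⟩
  · obtain ⟨i, j, rfl⟩ := hcov x (K33M.mem_VS_of_adj h)
    obtain ⟨k, l, rfl⟩ := hcov y (K33M.mem_VS_of_adj h.symm)
    exact ⟨i, j, k, l, rfl, rfl, (hadj i j k l).1 h⟩
  · rintro ⟨i, j, k, l, rfl, rfl, h⟩
    exact (hadj i j k l).2 h

end DL
end

section
/-!
# MP_3ff0f8_gt, ALGEBRA HALF, G4 block: module G12 (helper41)
-/
open SimpleGraph Finset

namespace DL

theorem specG12 : SpecG12 := by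
  intro α _ _ G x x' z z' s₁ s₂ s₃ s₄ q₁ q₂ q₃ q₄ h
  refine PLCM.plan12 (z := z) (x := x) (z' := z') (x' := x') (s1 := s₁) (s2 := s₂) (s3 := s₃) (s4 := s₄)
    (q1 := q₁) (q2 := q₂) (q3 := q₃) (q4 := q₄) ?_ ?_
  · have hnd := h.nd
    have hp : [z, x, z', x', s₁, s₂, s₃, s₄, q₁, q₂, q₃, q₄].Perm
        [x, x', z, z', s₁, s₂, s₃, s₄, q₁, q₂, q₃, q₄] := by
      have h1 : [z, x, z', x'].Perm [x, x', z, z'] := by
        have a1 : [z, x, z', x'].Perm [x, z, z', x'] := List.Perm.swap _ _ _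
        have a2 : [z, z', x'].Perm [z, x', z'] := List.Perm.cons _ (List.Perm.swap _ _ _)
        have a3 : [z, x', z'].Perm [x', z, z'] := List.Perm.swap _ _ _
        exact a1.trans (List.Perm.cons _ (a2.trans a3))
      exact h1.append_right [s₁, s₂, s₃, s₄, q₁, q₂, q₃, q₄]
    exact hp.nodup_iff.2 hnd
  · intro a b hab
    have ha : a ∈ VS G := K33M.mem_VS_of_adj hab
    rw [h.vs] at ha
    simp only [mem_insert, mem_singleton] at ha
    simp only [List.mem_cons, List.not_mem_nil, or_false]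
    rcases ha with ha | ha | ha | ha | ha | ha | ha | ha | ha | ha | ha | ha
    · rw [ha] at hab ⊢
      rcases (h.ty.nx b).1 hab with hb | hb | hb | hb <;> rw [hb] <;> simp [Sym2.eq_swap]
    · rw [ha] at hab ⊢
      rcases (h.ty.nx' b).1 hab with hb | hb | hb | hb <;> rw [hb] <;> simp [Sym2.eq_swap]
    · rw [ha] at hab ⊢
      rcases (h.ty.nz b).1 hab with hb | hb | hb | hb <;> rw [hb] <;> simp [Sym2.eq_swap]
    · rw [ha] at hab ⊢
      rcases (h.ty.nz' b).1 hab with hb | hb | hb | hb <;> rw [hb] <;> simp [Sym2.eq_swap]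
    · rw [ha] at hab ⊢
      rcases (h.n1 b).1 hab with hb | hb | hb | hb <;> rw [hb] <;> simp [Sym2.eq_swap]
    · rw [ha] at hab ⊢
      rcases (h.n2 b).1 hab with hb | hb | hb | hb <;> rw [hb] <;> simp [Sym2.eq_swap]
    · rw [ha] at hab ⊢
      rcases (h.n3 b).1 hab with hb | hb | hb | hb <;> rw [hb] <;> simp [Sym2.eq_swap]
    · rw [ha] at hab ⊢
      rcases (h.n4 b).1 hab with hb | hb | hb | hb <;> rw [hb] <;> simp [Sym2.eq_swap]
    · rw [ha] at hab ⊢
      rcases (h.m1 b).1 hab with hb | hb | hb | hb <;> rw [hb] <;> simp [Sym2.eq_swap]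
    · rw [ha] at hab ⊢
      rcases (h.m2 b).1 hab with hb | hb | hb | hb <;> rw [hb] <;> simp [Sym2.eq_swap]
    · rw [ha] at hab ⊢
      rcases (h.m3 b).1 hab with hb | hb | hb | hb <;> rw [hb] <;> simp [Sym2.eq_swap]
    · rw [ha] at hab ⊢
      rcases (h.m4 b).1 hab with hb | hb | hb | hb <;> rw [hb] <;> simp [Sym2.eq_swap]

end DL
end

section
/-!
# MP_3ff0f8_gt, ALGEBRA HALF, G4 block: module SX6 (helper41)
-/
open SimpleGraph Finset

namespace DL

theorem specSX6 (hNO2 : SpecNO2) (hN6D : SpecN6D) (hK33 : SpecK33) (hI33 : SpecI33) (hG12 : SpecG12)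
    (hFRG : SpecFRG) (hA6C : SpecA6C) (hA6N : SpecA6N) (hDL5 : SpecDL5) (hDST : SpecDST) : SpecSX6 := by
  intro α _ _ G hSH h33 h34 h44 hTW
  have hn2 : No2 G := hNO2 hSH.k48 h33 h34 h44 hTW
  have h4 : KConn 4 G := hSH.k48.1
  rcases hN6D hSH.k48 hn2 hSH.np hSH.rig with h | ⟨x, x', z, z', s₁, s₂, s₃, s₄, q₁, q₂, q₃, q₄, h⟩ |
    ⟨u, v, w, s₁, s₂, s₃, s₄, hA, hM⟩
  · exact hI33 (hK33 h)
  · exact absurd hSH.np (hG12 h)
  · have hsd : SD3 G {u, v, w} := by
      intro x _ S P Q hS hc _ hP hQ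
      obtain ⟨f1, _, _, f2, _, _⟩ := hFRG.sep h4 hS hc hP hQ
      exact ⟨hn2 P f1, hn2 Q f2⟩
    have hnd := hA.nd
    simp only [List.nodup_cons, List.mem_cons, List.not_mem_nil, or_false, not_or, not_false_eq_true,
      List.nodup_nil, and_true] at hnd
    obtain ⟨⟨huv, huw, hu1, hu2, hu3, hu4⟩, ⟨hvw, hv1, hv2, hv3, hv4⟩, ⟨hw1, hw2, hw3, hw4⟩,
      ⟨h12, h13, h14⟩, ⟨h23, h24⟩, h34'⟩ := hnd
    have hc1 : ∀ P ⊆ ({v, w, s₁} : Finset α), P.card ≤ 2 → C1 (dst G u P) := fun P hP hc =>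
      hA6C.c1 hSH.k48 hA hM hsd (Or.inl rfl) P hP hc
    have hnp : ∀ P ⊆ ({v, w, s₁} : Finset α), NP (dst G u P) := fun P hP =>
      hA6N hSH.k48 hA hM.1 (Or.inl rfl) P hP
    have huw' : G.Adj u w := (hA.nu w).2 (Or.inr (Or.inl rfl))
    have hkz : KZ (dst G u {w, s₁}) := by
      have hs : ({w, s₁} : Finset α) ⊆ {v, w, s₁} := by
        intro t ht
        simp only [mem_insert, mem_singleton] at ht ⊢
        tauto
      have hc : ({w, s₁} : Finset α).card ≤ 2 := card_le_two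
      exact (hSH.ih _ (hDST.sz4 huw' (by simp)) (hc1 _ hs hc) (hnp _ hs)).2
    refine hDL5 (a := v) (b := w) (c := s₁) (r := s₂) (s := s₃) (u := u) hSH.k48 hSH.ih ?_ ?_ ?_ ?_ hkz
    · simp only [List.nodup_cons, List.mem_cons, List.not_mem_nil, or_false, not_or, not_false_eq_true,
        List.nodup_nil, and_true]
      exact ⟨⟨hvw, hv1, hv2, hv3⟩, ⟨hw1, hw2, hw3⟩, ⟨h12, h13⟩, h23⟩
    · intro x hx
      simp only [mem_insert, mem_singleton] at hx
      rw [hA.nu]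
      tauto
    · refine Or.inr ⟨s₄, (hA.nu s₄).2 (by tauto), ?_⟩
      simp only [mem_insert, mem_singleton, not_or]
      exact ⟨Ne.symm hv4, Ne.symm hw4, Ne.symm h14, Ne.symm h24, Ne.symm h34'⟩
    · intro P hP
      have hs : P ⊆ ({v, w, s₁} : Finset α) := by
        rcases hP with rfl | rfl | rfl | rfl | rfl <;> intro t ht <;>
          simp only [mem_insert, mem_singleton] at ht ⊢ <;> tauto
      have hc : P.card ≤ 2 := by
        rcases hP with rfl | rfl | rfl | rfl | rfl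
        · simp
        · simp
        · simp
        · exact card_le_two
        · exact card_le_two
      exact ⟨hc1 P hs hc, hnp P hs⟩

end DL
end
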