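import Pool.Agent.DL.G4.N3A
import Pool.Agent.DL.G4.Spec
import Pool.Agent.DL.KC
import Pool.Agent.DL.PC
import Pool.Agent.DL.PC2

section
/-!
# N4A: minimal fragments with four vertices
-/
open SimpleGraph Finset

namespace DL

namespace N4AM

set_option linter.unusedSectionVars false

variable {α : Type} [Fintype α] [DecidableEq α] {G : SimpleGraph α}

theorem swap12 {F T X Y : Finset α} {x x' z z' s₁ s₂ s₃ s₄ q₁ q₂ : α}
    (h : TAl G F T X Y x x' z z' s₁ s₂ s₃ s₄ q₁ q₂) :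
    TAl G F T X Y x x' z z' s₂ s₁ s₃ s₄ q₁ q₂ := by
  refine ⟨?_, h.hF, ?_, h.hT, ⟨h.hX.1, h.hX.2.2, h.hX.2.1⟩, h.hY, fun v => ?_, h.nz'⟩
  · have hp : [x, x', z, z', s₁, s₂, s₃, s₄, q₁, q₂].Perm [x, x', z, z', s₂, s₁, s₃, s₄, q₁, q₂] :=
      ((((List.Perm.swap _ _ _).cons _).cons _).cons _).cons _
    exact hp.nodup_iff.1 h.nd
  · rw [h.hN, insert_comm]
  · rw [h.nz]
    constructor
    · rintro (h' | h' | h' | h')
      · exact Or.inl h'
      · exact Or.inr (Or.inl h')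
      · exact Or.inr (Or.inr (Or.inr h'))
      · exact Or.inr (Or.inr (Or.inl h'))
    · rintro (h' | h' | h' | h')
      · exact Or.inl h'
      · exact Or.inr (Or.inl h')
      · exact Or.inr (Or.inr (Or.inr h'))
      · exact Or.inr (Or.inr (Or.inl h'))

theorem swapx {F T X Y : Finset α} {x x' z z' s₁ s₂ s₃ s₄ q₁ q₂ : α}
    (h : TAl G F T X Y x x' z z' s₁ s₂ s₃ s₄ q₁ q₂) :
    TAl G F T X Y x' x z z' s₁ s₂ s₃ s₄ q₁ q₂ := by
  refine ⟨?_, ?_, h.hN, ?_, h.hX, h.hY, fun v => ?_, fun v => ?_⟩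
  · have hp : [x, x', z, z', s₁, s₂, s₃, s₄, q₁, q₂].Perm [x', x, z, z', s₁, s₂, s₃, s₄, q₁, q₂] :=
      List.Perm.swap _ _ _
    exact hp.nodup_iff.1 h.nd
  · rw [h.hF, insert_comm]
  · rw [h.hT, insert_comm]
  · rw [h.nz, or_left_comm]
  · rw [h.nz', or_left_comm]

theorem swapXY {F T X Y : Finset α} {x x' z z' s₁ s₂ s₃ s₄ q₁ q₂ : α}
    (h : TAl G F T X Y x x' z z' s₁ s₂ s₃ s₄ q₁ q₂) :
    TAl G F T Y X x x' z' z s₃ s₄ s₁ s₂ q₁ q₂ := by
  refine ⟨?_, ?_, ?_, h.hT, h.hY, h.hX, h.nz', h.nz⟩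
  · have hp1 : [s₁, s₂, s₃, s₄, q₁, q₂].Perm [s₃, s₄, s₁, s₂, q₁, q₂] :=
      (List.perm_append_comm (l₁ := [s₁, s₂]) (l₂ := [s₃, s₄])).append_right [q₁, q₂]
    have hp : [x, x', z, z', s₁, s₂, s₃, s₄, q₁, q₂].Perm [x, x', z', z, s₃, s₄, s₁, s₂, q₁, q₂] :=
      (((List.Perm.swap _ _ _).trans ((hp1.cons _).cons _)).cons _).cons _
    exact hp.nodup_iff.1 h.nd
  · rw [h.hF, pair_comm z z']
  · rw [h.hN]
    ext v
    simp only [mem_insert, mem_singleton]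
    tauto

theorem swap34 {F T X Y : Finset α} {x x' z z' s₁ s₂ s₃ s₄ q₁ q₂ : α}
    (h : TAl G F T X Y x x' z z' s₁ s₂ s₃ s₄ q₁ q₂) :
    TAl G F T X Y x x' z z' s₁ s₂ s₄ s₃ q₁ q₂ := swapXY (swap12 (swapXY h))

/-- the two corner vertices exchange roles -/
theorem swapqq {F T X Y : Finset α} {x x' z z' s₁ s₂ s₃ s₄ q₁ q₂ : α}
    (h : TAl G F T X Y x x' z z' s₁ s₂ s₃ s₄ q₁ q₂) : z' ≠ z ∧ z' ≠ x ∧ z' ≠ x' ∧ ¬ G.Adj z z' := by
  have nd := h.nd
  simp only [List.nodup_cons, List.mem_cons, List.not_mem_nil, or_false, not_or,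
      not_false_eq_true, List.nodup_nil, and_true] at nd
  obtain ⟨⟨n12, n13, n14, -⟩, ⟨n23, n24, -⟩, ⟨n34, n35, n36, n37, n38, -, -⟩,
    ⟨n45, n46, n47, n48, -, -⟩, -⟩ := nd
  refine ⟨Ne.symm n34, Ne.symm n14, Ne.symm n24, ?_⟩
  rw [h.nz]
  rintro (h' | h' | h' | h')
  · exact n14 h'.symm
  · exact n24 h'.symm
  · exact n45 h'
  · exact n46 h'

/-- `x` and `z` with the same two outer neighbours -/
theorem no_same {F T X Y T' X' Y' : Finset α} {x x' z z' s₁ s₂ s₃ s₄ q₁ q₂ t₃ t₄ p₁ p₂ : α}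
    (hK : K48 G) (hM : MFrag G F) (h : TAl G F T X Y x x' z z' s₁ s₂ s₃ s₄ q₁ q₂)
    (h' : TAl G F T' X' Y' z z' x x' s₁ s₂ t₃ t₄ p₁ p₂) : False := by
  have nd := h.nd
  simp only [List.nodup_cons, List.mem_cons, List.not_mem_nil, or_false, not_or,
      not_false_eq_true, List.nodup_nil, and_true] at nd
  obtain ⟨⟨n12, n13, n14, n15, n16, -⟩, ⟨n23, n24, n25, n26, -⟩, ⟨n34, n35, n36, -⟩,
    ⟨n45, n46, -⟩, ⟨n56, -⟩, -⟩ := nd
  have hNB : NB G {z, x} = {x', z', s₁, s₂} := by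
    ext v
    rw [N3AM.mem_NB]
    simp only [mem_insert, mem_singleton, not_or]
    constructor
    · rintro ⟨⟨hz, hx⟩, a, rfl | rfl, hav⟩
      · rcases (h.nz v).1 hav with e | e | e | e
        · exact absurd e hx
        · exact Or.inl e
        · exact Or.inr (Or.inr (Or.inl e))
        · exact Or.inr (Or.inr (Or.inr e))
      · rcases (h'.nz v).1 hav with e | e | e | e
        · exact absurd e hz
        · exact Or.inr (Or.inl e)
        · exact Or.inr (Or.inr (Or.inl e))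
        · exact Or.inr (Or.inr (Or.inr e))
    · rintro (e | e | e | e)
      · rw [e]
        exact ⟨⟨n23, Ne.symm n12⟩, z, Or.inl rfl, (h.nz x').2 (Or.inr (Or.inl rfl))⟩
      · rw [e]
        exact ⟨⟨Ne.symm n34, Ne.symm n14⟩, x, Or.inr rfl, (h'.nz z').2 (Or.inr (Or.inl rfl))⟩
      · rw [e]
        exact ⟨⟨Ne.symm n35, Ne.symm n15⟩, z, Or.inl rfl, (h.nz s₁).2 (Or.inr (Or.inr (Or.inl rfl)))⟩
      · rw [e]
        exact ⟨⟨Ne.symm n36, Ne.symm n16⟩, z, Or.inl rfl, (h.nz s₂).2 (Or.inr (Or.inr (Or.inr rfl)))⟩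
  have c4 : ({x', z', s₁, s₂} : Finset α).card = 4 := by
    rw [card_insert_of_notMem, card_insert_of_notMem, card_insert_of_notMem, card_singleton]
    · simpa using n56
    · simp only [mem_insert, mem_singleton, not_or]
      exact ⟨n45, n46⟩
    · simp only [mem_insert, mem_singleton, not_or]
      exact ⟨n24, n25, n26⟩
  have c2 : ({z, x} : Finset α).card = 2 := card_pair (Ne.symm n13)
  have hFV : ({z, x} : Finset α) ⊆ VS G := by
    have := hM.1.1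
    rw [h.hF] at this
    intro v hv
    apply this
    simp only [mem_insert, mem_singleton] at hv ⊢
    rcases hv with e | e
    · exact Or.inr (Or.inr (Or.inl e))
    · exact Or.inl e
  apply hM.2 {z, x}
  · rw [ssubset_iff_subset_ne]
    constructor
    · rw [h.hF]
      intro v hv
      simp only [mem_insert, mem_singleton] at hv ⊢
      rcases hv with e | e
      · exact Or.inr (Or.inr (Or.inl e))
      · exact Or.inl e
    · intro e
      have := N3AM.al_card h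
      rw [← e, c2] at this
      omega
  · refine ⟨hFV, by rw [c2], by rw [hNB, c4], ?_⟩
    have h1 : (({z, x} : Finset α) ∪ NB G {z, x}).card ≤ 6 := by
      refine (card_union_le _ _).trans ?_
      rw [c2, hNB, c4]
    have h2 := hK.2
    have h3 := le_card_sdiff (({z, x} : Finset α) ∪ NB G {z, x}) (VS G)
    omega

/-- the conclusion -/
def Concl (G : SimpleGraph α) (F : Finset α) : Prop :=
  ∃ x x' z z' s₁ s₂ s₃ s₄ q₁ q₂ q₃ q₄ T X Y T' X' Y', Ty4 G x x' z z' s₁ s₂ s₃ s₄ ∧ F = {x, x', z, z'} ∧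
    NB G F = {s₁, s₂, s₃, s₄} ∧ Sep G T X Y ∧ Sep G T' X' Y' ∧ T = {x, x', q₁, q₂} ∧ T' = {z, z', q₃, q₄} ∧
    q₁ ≠ q₂ ∧ q₃ ≠ q₄ ∧ q₁ ∈ Rst G F ∧ q₂ ∈ Rst G F ∧ q₃ ∈ Rst G F ∧ q₄ ∈ Rst G F ∧
    z ∈ X ∧ s₁ ∈ X ∧ s₂ ∈ X ∧ z' ∈ Y ∧ s₃ ∈ Y ∧ s₄ ∈ Y ∧ x ∈ X' ∧ s₁ ∈ X' ∧ s₃ ∈ X' ∧ x' ∈ Y' ∧ s₂ ∈ Y' ∧ s₄ ∈ Y'

theorem q_facts {F T X Y : Finset α} {x x' z z' s₁ s₂ s₃ s₄ q₁ q₂ : α} (hS : Sep G T X Y)
    (h : TAl G F T X Y x x' z z' s₁ s₂ s₃ s₄ q₁ q₂) : q₁ ≠ q₂ ∧ q₁ ∈ Rst G F ∧ q₂ ∈ Rst G F := by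
  have nd := h.nd
  simp only [List.nodup_cons, List.mem_cons, List.not_mem_nil, or_false, not_or,
      not_false_eq_true, List.nodup_nil, and_true] at nd
  obtain ⟨⟨-, -, -, -, -, -, -, a1, a2⟩, ⟨-, -, -, -, -, -, b1, b2⟩, ⟨-, -, -, -, -, c1, c2⟩,
    ⟨-, -, -, -, d1, d2⟩, ⟨-, -, -, e1, e2⟩, ⟨-, -, f1, f2⟩, ⟨-, g1, g2⟩, ⟨h1, h2⟩, i1⟩ := nd
  have hq₁ : q₁ ∈ VS G := hS.subS (by rw [h.hT]; simp)
  have hq₂ : q₂ ∈ VS G := hS.subS (by rw [h.hT]; simp)
  refine ⟨i1, ?_, ?_⟩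
  · unfold Rst
    rw [mem_sdiff, mem_union, not_or, h.hN, h.hF]
    simp only [mem_insert, mem_singleton, not_or]
    exact ⟨hq₁, ⟨Ne.symm a1, Ne.symm b1, Ne.symm c1, Ne.symm d1⟩, Ne.symm e1, Ne.symm f1, Ne.symm g1,
      Ne.symm h1⟩
  · unfold Rst
    rw [mem_sdiff, mem_union, not_or, h.hN, h.hF]
    simp only [mem_insert, mem_singleton, not_or]
    exact ⟨hq₂, ⟨Ne.symm a2, Ne.symm b2, Ne.symm c2, Ne.symm d2⟩, Ne.symm e2, Ne.symm f2, Ne.symm g2,
      Ne.symm h2⟩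

theorem fin {F T X Y T' X' Y' : Finset α} {x x' z z' s₁ s₂ s₃ s₄ q₁ q₂ p₁ p₂ : α}
    (hS : Sep G T X Y) (hS' : Sep G T' X' Y') (h : TAl G F T X Y x x' z z' s₁ s₂ s₃ s₄ q₁ q₂)
    (h' : TAl G F T' X' Y' z z' x x' s₁ s₃ s₂ s₄ p₁ p₂) : Concl G F := by
  obtain ⟨a1, a2, a3⟩ := q_facts hS h
  obtain ⟨b1, b2, b3⟩ := q_facts hS' h'
  have nd : [x, x', z, z', s₁, s₂, s₃, s₄].Nodup :=
    h.nd.sublist ((List.prefix_append [x, x', z, z', s₁, s₂, s₃, s₄] [q₁, q₂]).sublist)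
  exact ⟨x, x', z, z', s₁, s₂, s₃, s₄, q₁, q₂, p₁, p₂, T, X, Y, T', X', Y',
    ⟨nd, h.nz, h.nz', h'.nz, h'.nz'⟩, h.hF, h.hN, hS, hS', h.hT, h'.hT, a1, b1, a2, a3, b2, b3,
    h.hX.1, h.hX.2.1, h.hX.2.2, h.hY.1, h.hY.2.1, h.hY.2.2, h'.hX.1, h'.hX.2.1, h'.hX.2.2,
    h'.hY.1, h'.hY.2.1, h'.hY.2.2⟩

theorem finA {F T X Y T' X' Y' : Finset α} {x x' z z' s₁ s₂ s₃ s₄ q₁ q₂ t₃ t₄ p₁ p₂ : α}
    (hS : Sep G T X Y) (hS' : Sep G T' X' Y') (h : TAl G F T X Y x x' z z' s₁ s₂ s₃ s₄ q₁ q₂)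
    (h' : TAl G F T' X' Y' z z' x x' s₁ s₃ t₃ t₄ p₁ p₂) : Concl G F := by
  have nd := h'.nd
  simp only [List.nodup_cons, List.mem_cons, List.not_mem_nil, or_false, not_or,
      not_false_eq_true, List.nodup_nil, and_true] at nd
  obtain ⟨-, -, -, -, ⟨-, c2, c3, -, -⟩, ⟨d1, d2, -, -⟩, ⟨e1, -, -⟩, -⟩ := nd
  have hN : ∀ v, v ∈ NB G F ↔ v = s₁ ∨ v = s₂ ∨ v = s₃ ∨ v = s₄ := by
    intro v
    rw [h.hN]
    simp only [mem_insert, mem_singleton]
  have key : ∀ v, v ∈ NB G F → v ≠ s₁ → v ≠ s₃ → v = s₂ ∨ v = s₄ := by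
    intro v hv h1 h3
    rcases (hN v).1 hv with e | e | e | e
    · exact absurd e h1
    · exact Or.inl e
    · exact absurd e h3
    · exact Or.inr e
  have m3 : t₃ ∈ NB G F := by rw [h'.hN]; simp
  have m4 : t₄ ∈ NB G F := by rw [h'.hN]; simp
  rcases N3AM.pair_eq (key _ m3 (Ne.symm c2) (Ne.symm d1)) (key _ m4 (Ne.symm c3) (Ne.symm d2)) e1
    with ⟨rfl, rfl⟩ | ⟨rfl, rfl⟩
  · exact fin hS hS' h h'
  · exact fin hS hS' h (swap34 h')

theorem finB {F T X Y T' X' Y' : Finset α} {x x' z z' s₁ s₂ s₃ s₄ q₁ q₂ t₁ t₂ t₃ t₄ p₁ p₂ : α}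
    (hS : Sep G T X Y) (hS' : Sep G T' X' Y') (h : TAl G F T X Y x x' z z' s₁ s₂ s₃ s₄ q₁ q₂)
    (h' : TAl G F T' X' Y' z z' x x' t₁ t₂ t₃ t₄ p₁ p₂) (h1 : t₁ = s₁ ∨ t₁ = s₂)
    (h2 : t₂ = s₃ ∨ t₂ = s₄) : Concl G F := by
  rcases h1 with rfl | rfl <;> rcases h2 with rfl | rfl
  · exact finA hS hS' h h'
  · exact finA hS hS' (swap34 h) h'
  · exact finA hS hS' (swap12 h) h'
  · exact finA hS hS' (swap12 (swap34 h)) h'

theorem finC {F T X Y T' X' Y' : Finset α} {x x' z z' s₁ s₂ s₃ s₄ q₁ q₂ t₁ t₂ t₃ t₄ p₁ p₂ : α}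
    (hK : K48 G) (hM : MFrag G F)
    (hS : Sep G T X Y) (hS' : Sep G T' X' Y') (h : TAl G F T X Y x x' z z' s₁ s₂ s₃ s₄ q₁ q₂)
    (h' : TAl G F T' X' Y' z z' x x' t₁ t₂ t₃ t₄ p₁ p₂) : Concl G F := by
  have nd := h'.nd
  simp only [List.nodup_cons, List.mem_cons, List.not_mem_nil, or_false, not_or,
      not_false_eq_true, List.nodup_nil, and_true] at nd
  obtain ⟨-, -, -, -, ⟨c1, -, -, -, -⟩, -⟩ := nd
  have hN : ∀ v, v ∈ NB G F ↔ (v = s₁ ∨ v = s₂) ∨ (v = s₃ ∨ v = s₄) := by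
    intro v
    rw [h.hN]
    simp only [mem_insert, mem_singleton]
    tauto
  have m1 : t₁ ∈ NB G F := by rw [h'.hN]; simp
  have m2 : t₂ ∈ NB G F := by rw [h'.hN]; simp
  rcases (hN t₁).1 m1 with h1 | h1
  · rcases (hN t₂).1 m2 with h2 | h2
    · rcases N3AM.pair_eq h1 h2 c1 with ⟨rfl, rfl⟩ | ⟨rfl, rfl⟩
      · exact (no_same hK hM h h').elim
      · exact (no_same hK hM (swap12 h) h').elim
    · exact finB hS hS' h h' h1 h2
  · rcases (hN t₂).1 m2 with h2 | h2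
    · exact finB hS hS' h (swap12 h') h2 h1
    · rcases N3AM.pair_eq h1 h2 c1 with ⟨rfl, rfl⟩ | ⟨rfl, rfl⟩
      · exact (no_same hK hM (swapXY h) (swapx h')).elim
      · exact (no_same hK hM (swap12 (swapXY h)) (swapx h')).elim

theorem finD {F T X Y T' X' Y' : Finset α} {x x' z z' s₁ s₂ s₃ s₄ q₁ q₂ r a b t₁ t₂ t₃ t₄ p₁ p₂ : α}
    (hK : K48 G) (hM : MFrag G F)
    (hS : Sep G T X Y) (hS' : Sep G T' X' Y') (h : TAl G F T X Y x x' z z' s₁ s₂ s₃ s₄ q₁ q₂)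
    (h' : TAl G F T' X' Y' z r a b t₁ t₂ t₃ t₄ p₁ p₂) : Concl G F := by
  have nd := h'.nd
  simp only [List.nodup_cons, List.mem_cons, List.not_mem_nil, or_false, not_or,
      not_false_eq_true, List.nodup_nil, and_true] at nd
  obtain ⟨⟨a1, a2, a3, -⟩, ⟨b1, b2, -⟩, ⟨c1, -⟩, -⟩ := nd
  obtain ⟨g1, g2, g3, g4⟩ := swapqq h
  have hF : ∀ v, (v = x ∨ v = x' ∨ v = z ∨ v = z') ↔ (v = z ∨ v = r ∨ v = a ∨ v = b) := by
    intro v
    have : v ∈ ({x, x', z, z'} : Finset α) ↔ v ∈ ({z, r, a, b} : Finset α) := by rw [← h.hF, ← h'.hF]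
    simpa only [mem_insert, mem_singleton] using this
  have hr : r = z' := by
    rcases (hF z').1 (Or.inr (Or.inr (Or.inr rfl))) with e | e | e | e
    · exact absurd e g1
    · exact e.symm
    · exact absurd ((h'.nz z).2 (Or.inl rfl)).symm (by rw [← e]; exact g4)
    · exact absurd ((h'.nz' z).2 (Or.inl rfl)).symm (by rw [← e]; exact g4)
  subst hr
  have ha : a = x ∨ a = x' := by
    rcases (hF a).2 (Or.inr (Or.inr (Or.inl rfl))) with e | e | e | e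
    · exact Or.inl e
    · exact Or.inr e
    · exact absurd e.symm a2
    · exact absurd e.symm b1
  have hb : b = x ∨ b = x' := by
    rcases (hF b).2 (Or.inr (Or.inr (Or.inr rfl))) with e | e | e | e
    · exact Or.inl e
    · exact Or.inr e
    · exact absurd e.symm a3
    · exact absurd e.symm b2
  rcases N3AM.pair_eq ha hb c1 with ⟨rfl, rfl⟩ | ⟨rfl, rfl⟩
  · exact finC hK hM hS hS' h h'
  · exact finC hK hM hS hS'.symm h (swapXY h')

theorem card3_be {F T X Y : Finset α} {x y z sa sc s s' q : α} (h : TBe G F T X Y x y z sa sc s s' q) :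
    F.card ≤ 3 := by
  rw [h.hF]; exact card_le_three

theorem card3_ga {F T X Y : Finset α} {x x' w s₁ s₂ s₃ s₄ q₁ q₂ : α}
    (h : TGa G F T X Y x x' w s₁ s₂ s₃ s₄ q₁ q₂) : F.card ≤ 3 := by
  rw [h.hF]; exact card_le_three

theorem exists_al (hFRG : SpecFRG) (hCLS : SpecCLS) {F : Finset α} (hK : K48 G) (hM : MFrag G F)
    (h4 : F.card = 4) (hSD : SD3 G F) {x : α} (hx : x ∈ F) (hr : ¬ Rig G x) :
    ∃ T X Y x' z z' s₁ s₂ s₃ s₄ q₁ q₂, Sep G T X Y ∧ TAl G F T X Y x x' z z' s₁ s₂ s₃ s₄ q₁ q₂ := by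
  obtain ⟨S, P, Q, hS, hc, hxS, hP, hQ⟩ := hFRG.nrig.1 hr
  obtain ⟨hP3, hQ3⟩ := hSD x hx S P Q hS hc hxS hP hQ
  rcases hCLS hK hM (by omega) hx hS hc hxS hP3 hQ3 with
    ⟨y, z, sa, sc, s, s', q, h⟩ | ⟨x', w, s₁, s₂, s₃, s₄, q₁, q₂, h⟩ |
    ⟨x', w, s₁, s₂, s₃, s₄, q₁, q₂, h⟩ | ⟨x', z, z', s₁, s₂, s₃, s₄, q₁, q₂, h⟩
  · exact absurd (card3_be h) (by omega)
  · exact absurd (card3_ga h) (by omega)
  · exact absurd (card3_ga h) (by omega)
  · exact ⟨S, P, Q, x', z, z', s₁, s₂, s₃, s₄, q₁, q₂, hS, h⟩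

end N4AM

open N4AM in
/-- **N4A** -/
theorem specN4A (hFRG : SpecFRG) (hCLS : SpecCLS) : SpecN4A := by
  intro α _ _ G F hK hM h4 hSD hr
  obtain ⟨x, hx⟩ : F.Nonempty := card_pos.1 (by omega)
  obtain ⟨T, X, Y, x', z, z', s₁, s₂, s₃, s₄, q₁, q₂, hS, h⟩ :=
    exists_al hFRG hCLS hK hM h4 hSD hx (hr x hx)
  have hz : z ∈ F := by rw [h.hF]; simp
  obtain ⟨T', X', Y', r, a, b, t₁, t₂, t₃, t₄, p₁, p₂, hS', h'⟩ :=
    exists_al hFRG hCLS hK hM h4 hSD hz (hr z hz)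
  exact finD hK hM hS hS' h h'

end DL
end

section
/-!
# MP_3ff0f8_gt, ALGEBRA HALF, G4 block: N4B (helper93)
-/
open SimpleGraph Finset

namespace DL.N4BM

set_option linter.unusedSectionVars false
set_option linter.unusedVariables false
set_option linter.unusedFintypeInType false
set_option linter.unusedDecidableInType false

open DL.CLSM

variable {α : Type} [Fintype α] [DecidableEq α] {G : SimpleGraph α}

theorem corner_single (hFRG : SpecFRG) (hG : K48 G) {S P Q S' P' Q' : Finset α} (h : Sep G S P Q) (h' : Sep G S' P' Q')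
    (hc : (S ∩ P').card + (S ∩ S').card + (P ∩ S').card = 4) {s x z : α} (hs : s ∈ P ∩ P') (hx : x ∈ S ∩ P')
    (hz : z ∈ P ∩ S') (nx : ∀ v ∈ P ∩ P', G.Adj x v → v = s)
    (nz : ∀ v ∈ P ∩ P', G.Adj z v → v = s) : P ∩ P' = {s} := by
  have hxz : x ≠ z := fun e => disjoint_left.1 h.2.1 (mem_inter.1 hx).1 (e ▸ (mem_inter.1 hz).1)
  by_contra hne
  have hK : ((P ∩ P').erase s).Nonempty := by
    rw [nonempty_iff_ne_empty]
    intro he
    apply hne
    rw [← insert_erase hs, he]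
    rfl
  have hxU : x ∈ (S ∩ P') ∪ (S ∩ S') ∪ (P ∩ S') := by
    rw [mem_union, mem_union]; exact Or.inl (Or.inl hx)
  have hzU : z ∈ (S ∩ P') ∪ (S ∩ S') ∪ (P ∩ S') := by
    rw [mem_union]; exact Or.inr hz
  have hxS := (mem_inter.1 hx).1
  have hsP := (mem_inter.1 hs).1
  refine hFRG.few hG.1 (D := (P ∩ P').erase s) (W := insert s (((S ∩ P') ∪ (S ∩ S') ∪ (P ∩ S')) \ {x, z})) (r := x)
    ?_ hK ?_ ?_ (h.subS hxS) ?_ ?_
  · exact (erase_subset _ _).trans (inter_subset_left.trans h.subP)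
  · intro v hv
    obtain ⟨h1, a, ha, hav⟩ := mem_NB.1 hv
    have haK := mem_erase.1 ha
    rw [mem_insert]
    by_cases hvs : v = s
    · exact Or.inl hvs
    right
    have hvK : v ∉ P ∩ P' := fun hc => h1 (mem_erase.2 ⟨hvs, hc⟩)
    rw [mem_sdiff, mem_insert, mem_singleton, not_or]
    refine ⟨hFRG.corner h h' (mem_NB.2 ⟨hvK, a, haK.2, hav⟩), ?_, ?_⟩
    · rintro rfl
      exact haK.1 (nx a haK.2 hav.symm)
    · rintro rfl
      exact haK.1 (nz a haK.2 hav.symm)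
  · have e1 := card_insert_le s (((S ∩ P') ∪ (S ∩ S') ∪ (P ∩ S')) \ {x, z})
    have hsub : ({x, z} : Finset α) ⊆ (S ∩ P') ∪ (S ∩ S') ∪ (P ∩ S') := by
      intro v hv
      rw [mem_insert, mem_singleton] at hv
      rcases hv with rfl | rfl <;> assumption
    have e2 := card_sdiff_of_subset hsub
    rw [card_pair hxz] at e2
    have e3 := card_union_le ((S ∩ P') ∪ (S ∩ S')) (P ∩ S')
    have e4 := card_union_le (S ∩ P') (S ∩ S')
    omega
  · intro hc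
    exact disjoint_left.1 h.2.1 hxS (mem_inter.1 (mem_of_mem_erase hc)).1
  · rw [mem_insert, not_or]
    refine ⟨fun e => disjoint_left.1 h.2.1 hxS (e ▸ hsP), ?_⟩
    rw [mem_sdiff, not_and, not_not]
    intro _
    rw [mem_insert]
    exact Or.inl rfl

theorem ndA {T X Y T' X' Y' : Finset α} (d4 : ∀ v ∈ T, v ∉ X) (d5 : ∀ v ∈ T, v ∉ Y) (d6 : ∀ v ∈ X, v ∉ Y)
    (c4 : ∀ v ∈ T', v ∉ X') (c5 : ∀ v ∈ T', v ∉ Y') (c6 : ∀ v ∈ X', v ∉ Y')
    {x x' z z' s₁ s₂ s₃ s₄ a b c d : α} (hxa : x ≠ a) (hxb : x' ≠ b) (hzc : z ≠ c) (hzd : z' ≠ d)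
    (hx : x ∈ T ∧ x ∈ X') (hx' : x' ∈ T ∧ x' ∈ Y') (hz : z ∈ X ∧ z ∈ T') (hz' : z' ∈ Y ∧ z' ∈ T')
    (h1 : s₁ ∈ X ∧ s₁ ∈ X') (h2 : s₂ ∈ X ∧ s₂ ∈ Y') (h3 : s₃ ∈ Y ∧ s₃ ∈ X') (h4 : s₄ ∈ Y ∧ s₄ ∈ Y')
    (ha : a ∈ T ∧ a ∈ X') (hb : b ∈ T ∧ b ∈ Y') (hc : c ∈ X ∧ c ∈ T') (hd : d ∈ Y ∧ d ∈ T') :
    [x, x', z, z', s₁, s₂, s₃, s₄, a, b, c, d].Nodup := by
  simp only [List.nodup_cons, List.mem_cons, List.not_mem_nil, or_false, not_or, List.nodup_nil, and_true,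
    not_false_eq_true]
  exact ⟨⟨fun e => c6 _ hx.2 (e ▸ hx'.2), fun e => d4 _ hx.1 (e ▸ hz.1), fun e => d5 _ hx.1 (e ▸ hz'.1), fun e => d4 _ hx.1 (e ▸ h1.1), fun e => d4 _ hx.1 (e ▸ h2.1), fun e => d5 _ hx.1 (e ▸ h3.1), fun e => d5 _ hx.1 (e ▸ h4.1), hxa, fun e => c6 _ hx.2 (e ▸ hb.2), fun e => d4 _ hx.1 (e ▸ hc.1), fun e => d5 _ hx.1 (e ▸ hd.1)⟩,
    ⟨fun e => d4 _ hx'.1 (e ▸ hz.1), fun e => d5 _ hx'.1 (e ▸ hz'.1), fun e => d4 _ hx'.1 (e ▸ h1.1), fun e => d4 _ hx'.1 (e ▸ h2.1), fun e => d5 _ hx'.1 (e ▸ h3.1), fun e => d5 _ hx'.1 (e ▸ h4.1), fun e => c6 _ ha.2 (e ▸ hx'.2), hxb, fun e => d4 _ hx'.1 (e ▸ hc.1), fun e => d5 _ hx'.1 (e ▸ hd.1)⟩,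
    ⟨fun e => d6 _ hz.1 (e ▸ hz'.1), fun e => c4 _ hz.2 (e ▸ h1.2), fun e => c5 _ hz.2 (e ▸ h2.2), fun e => d6 _ hz.1 (e ▸ h3.1), fun e => d6 _ hz.1 (e ▸ h4.1), fun e => d4 _ ha.1 (e ▸ hz.1), fun e => d4 _ hb.1 (e ▸ hz.1), hzc, fun e => d6 _ hz.1 (e ▸ hd.1)⟩,
    ⟨fun e => d6 _ h1.1 (e ▸ hz'.1), fun e => d6 _ h2.1 (e ▸ hz'.1), fun e => c4 _ hz'.2 (e ▸ h3.2), fun e => c5 _ hz'.2 (e ▸ h4.2), fun e => d5 _ ha.1 (e ▸ hz'.1), fun e => d5 _ hb.1 (e ▸ hz'.1), fun e => d6 _ hc.1 (e ▸ hz'.1), hzd⟩,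
    ⟨fun e => c6 _ h1.2 (e ▸ h2.2), fun e => d6 _ h1.1 (e ▸ h3.1), fun e => d6 _ h1.1 (e ▸ h4.1), fun e => d4 _ ha.1 (e ▸ h1.1), fun e => d4 _ hb.1 (e ▸ h1.1), fun e => c4 _ hc.2 (e ▸ h1.2), fun e => d6 _ h1.1 (e ▸ hd.1)⟩,
    ⟨fun e => d6 _ h2.1 (e ▸ h3.1), fun e => d6 _ h2.1 (e ▸ h4.1), fun e => d4 _ ha.1 (e ▸ h2.1), fun e => d4 _ hb.1 (e ▸ h2.1), fun e => c5 _ hc.2 (e ▸ h2.2), fun e => d6 _ h2.1 (e ▸ hd.1)⟩,
    ⟨fun e => c6 _ h3.2 (e ▸ h4.2), fun e => d5 _ ha.1 (e ▸ h3.1), fun e => d5 _ hb.1 (e ▸ h3.1), fun e => d6 _ hc.1 (e ▸ h3.1), fun e => c4 _ hd.2 (e ▸ h3.2)⟩,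
    ⟨fun e => d5 _ ha.1 (e ▸ h4.1), fun e => d5 _ hb.1 (e ▸ h4.1), fun e => d6 _ hc.1 (e ▸ h4.1), fun e => c5 _ hd.2 (e ▸ h4.2)⟩,
    ⟨fun e => c6 _ ha.2 (e ▸ hb.2), fun e => d4 _ ha.1 (e ▸ hc.1), fun e => d5 _ ha.1 (e ▸ hd.1)⟩,
    ⟨fun e => d4 _ hb.1 (e ▸ hc.1), fun e => d5 _ hb.1 (e ▸ hd.1)⟩,
    fun e => d6 _ hc.1 (e ▸ hd.1)⟩

theorem ndB {T X Y T' X' Y' : Finset α} (d4 : ∀ v ∈ T, v ∉ X) (d5 : ∀ v ∈ T, v ∉ Y) (d6 : ∀ v ∈ X, v ∉ Y)
    (c4 : ∀ v ∈ T', v ∉ X') (c5 : ∀ v ∈ T', v ∉ Y') (c6 : ∀ v ∈ X', v ∉ Y')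
    {x x' z z' s₁ s₂ s₃ s₄ a b : α} (hab : a ≠ b)
    (hx : x ∈ T ∧ x ∈ X') (hx' : x' ∈ T ∧ x' ∈ Y') (hz : z ∈ X ∧ z ∈ T') (hz' : z' ∈ Y ∧ z' ∈ T')
    (h1 : s₁ ∈ X ∧ s₁ ∈ X') (h2 : s₂ ∈ X ∧ s₂ ∈ Y') (h3 : s₃ ∈ Y ∧ s₃ ∈ X') (h4 : s₄ ∈ Y ∧ s₄ ∈ Y')
    (ha : a ∈ T ∧ a ∈ T') (hb : b ∈ T ∧ b ∈ T') :
    [x, x', z, z', s₁, s₂, s₃, s₄, a, b].Nodup := by
  simp only [List.nodup_cons, List.mem_cons, List.not_mem_nil, or_false, not_or, List.nodup_nil, and_true,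
    not_false_eq_true]
  exact ⟨⟨fun e => c6 _ hx.2 (e ▸ hx'.2), fun e => d4 _ hx.1 (e ▸ hz.1), fun e => d5 _ hx.1 (e ▸ hz'.1), fun e => d4 _ hx.1 (e ▸ h1.1), fun e => d4 _ hx.1 (e ▸ h2.1), fun e => d5 _ hx.1 (e ▸ h3.1), fun e => d5 _ hx.1 (e ▸ h4.1), fun e => c4 _ ha.2 (e ▸ hx.2), fun e => c4 _ hb.2 (e ▸ hx.2)⟩,
    ⟨fun e => d4 _ hx'.1 (e ▸ hz.1), fun e => d5 _ hx'.1 (e ▸ hz'.1), fun e => d4 _ hx'.1 (e ▸ h1.1), fun e => d4 _ hx'.1 (e ▸ h2.1), fun e => d5 _ hx'.1 (e ▸ h3.1), fun e => d5 _ hx'.1 (e ▸ h4.1), fun e => c5 _ ha.2 (e ▸ hx'.2), fun e => c5 _ hb.2 (e ▸ hx'.2)⟩,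
    ⟨fun e => d6 _ hz.1 (e ▸ hz'.1), fun e => c4 _ hz.2 (e ▸ h1.2), fun e => c5 _ hz.2 (e ▸ h2.2), fun e => d6 _ hz.1 (e ▸ h3.1), fun e => d6 _ hz.1 (e ▸ h4.1), fun e => d4 _ ha.1 (e ▸ hz.1), fun e => d4 _ hb.1 (e ▸ hz.1)⟩,
    ⟨fun e => d6 _ h1.1 (e ▸ hz'.1), fun e => d6 _ h2.1 (e ▸ hz'.1), fun e => c4 _ hz'.2 (e ▸ h3.2), fun e => c5 _ hz'.2 (e ▸ h4.2), fun e => d5 _ ha.1 (e ▸ hz'.1), fun e => d5 _ hb.1 (e ▸ hz'.1)⟩,
    ⟨fun e => c6 _ h1.2 (e ▸ h2.2), fun e => d6 _ h1.1 (e ▸ h3.1), fun e => d6 _ h1.1 (e ▸ h4.1), fun e => d4 _ ha.1 (e ▸ h1.1), fun e => d4 _ hb.1 (e ▸ h1.1)⟩,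
    ⟨fun e => d6 _ h2.1 (e ▸ h3.1), fun e => d6 _ h2.1 (e ▸ h4.1), fun e => d4 _ ha.1 (e ▸ h2.1), fun e => d4 _ hb.1 (e ▸ h2.1)⟩,
    ⟨fun e => c6 _ h3.2 (e ▸ h4.2), fun e => d5 _ ha.1 (e ▸ h3.1), fun e => d5 _ hb.1 (e ▸ h3.1)⟩,
    ⟨fun e => d5 _ ha.1 (e ▸ h4.1), fun e => d5 _ hb.1 (e ▸ h4.1)⟩,
    hab⟩

/-- a set with at least 4 elements in a set with 4 elements -/
theorem nb_eq (hG : K48 G) {v a b c d : α} (hv : v ∈ VS G)
    (h : ∀ r, G.Adj v r → r = a ∨ r = b ∨ r = c ∨ r = d) (r : α) :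
    G.Adj v r ↔ r = a ∨ r = b ∨ r = c ∨ r = d := by
  have hsub : nbs G v ⊆ {a, b, c, d} := by
    intro w hw
    simpa using h w (mem_nbs.1 hw)
  have h4 := hG.1.le_nbs hv
  have heq := eq_of_subset_of_card_le hsub (card_le_four.trans h4)
  rw [← mem_nbs, heq]
  simp

theorem sh12 {p q r s : Prop} : ((p ∨ q) ∨ r ∨ s) ↔ (p ∨ r ∨ q ∨ s) := by tauto

theorem sh10 {p q r s : Prop} : ((p ∨ q ∨ r) ∨ s) ↔ (p ∨ s ∨ q ∨ r) := by tauto

theorem num {t1 t0 t2 u1 u2 : ℕ} (e1 : 4 = t0 + t1 + t2) (e2 : 4 = t0 + u1 + u2) (k1 : 4 ≤ t1 + t0 + u1)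
    (k2 : 4 ≤ t2 + t0 + u1) (k3 : 4 ≤ t1 + t0 + u2) (k4 : 4 ≤ t2 + t0 + u2) :
    t1 + t0 + u1 = 4 ∧ t2 + t0 + u1 = 4 ∧ t1 + t0 + u2 = 4 ∧ t2 + t0 + u2 = 4 := by
  refine ⟨?_, ?_, ?_, ?_⟩ <;> omega

theorem num0 {t1 t0 t2 u1 u2 : ℕ} (e1 : 4 = t0 + t1 + t2) (s1 : t1 + t0 + u1 = 4) (s2 : t2 + t0 + u1 = 4)
    (s3 : t1 + t0 + u2 = 4) (h : t0 = 0) : t1 = 2 ∧ t2 = 2 ∧ u1 = 2 ∧ u2 = 2 := by
  refine ⟨?_, ?_, ?_, ?_⟩ <;> omega

theorem num1 {t1 t0 t2 u1 u2 : ℕ} (e1 : 4 = t0 + t1 + t2) (s1 : t1 + t0 + u1 = 4) (s2 : t2 + t0 + u1 = 4)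
    (s3 : t1 + t0 + u2 = 4) (p1 : 1 ≤ t1) (h : ¬ t0 = 0) : t1 = 1 ∧ t2 = 1 ∧ u1 = 1 ∧ u2 = 1 ∧ t0 = 2 := by
  refine ⟨?_, ?_, ?_, ?_, ?_⟩ <;> omega

end DL.N4BM

open DL.CLSM DL.N4BM in
/-- N4B -/
theorem DL.specN4B (hFRG : DL.SpecFRG) : DL.SpecN4B := by
  intro α _ _ G x x' z z' s₁ s₂ s₃ s₄ q₁ q₂ q₃ q₄ F T X Y T' X' Y' hG hF hty hFe hNe hT hT' hTe hTe' hqq hqq' hq₁ hq₂
    hq₃ hq₄ hzX h1X h2X hzY h3Y h4Y hxX h1X' h3X' hxY h2Y' h4Y'
  have d4 : ∀ v ∈ T, v ∉ X := fun v h h' => (disjoint_left.1 hT.2.1) h h'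
  have d5 : ∀ v ∈ T, v ∉ Y := fun v h h' => (disjoint_left.1 hT.2.2.1) h h'
  have d6 : ∀ v ∈ X, v ∉ Y := fun v h h' => (disjoint_left.1 hT.2.2.2.1) h h'
  have c4 : ∀ v ∈ T', v ∉ X' := fun v h h' => (disjoint_left.1 hT'.2.1) h h'
  have c5 : ∀ v ∈ T', v ∉ Y' := fun v h h' => (disjoint_left.1 hT'.2.2.1) h h'
  have c6 : ∀ v ∈ X', v ∉ Y' := fun v h h' => (disjoint_left.1 hT'.2.2.2.1) h h'
  have hxT : x ∈ T := by rw [hTe]; simp
  have hxT2 : x' ∈ T := by rw [hTe]; simp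
  have hzT : z ∈ T' := by rw [hTe']; simp
  have hzT2 : z' ∈ T' := by rw [hTe']; simp
  have hnd := hty.nd
  simp only [List.nodup_cons, List.mem_cons, List.not_mem_nil, or_false, not_or, List.nodup_nil, and_true,
    not_false_eq_true] at hnd
  obtain ⟨⟨nxx, nxz, nxz', nx1, nx2, nx3, nx4⟩, ⟨nyz, nyz', ny1, ny2, ny3, ny4⟩, ⟨nzz, nz1, nz2, nz3, nz4⟩,
    ⟨nw1, nw2, nw3, nw4⟩, ⟨n12, n13, n14⟩, ⟨n23, n24⟩, n34⟩ := hnd
  have rst : ∀ v, v ∈ Rst G F → v ∉ F ∧ v ∉ NB G F := fun v hv => by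
    have := (mem_sdiff.1 hv).2
    rw [mem_union, not_or] at this
    exact this
  have hT4 : T.card = 4 := by
    rw [hTe, card_insert_of_notMem, card_insert_of_notMem, card_pair hqq]
    · have h1 := (rst q₁ hq₁).1
      have h2 := (rst q₂ hq₂).1
      rw [hFe] at h1 h2
      simp only [mem_insert, mem_singleton, not_or] at h1 h2 ⊢
      exact ⟨fun e => h1.2.1 e.symm, fun e => h2.2.1 e.symm⟩
    · have h1 := (rst q₁ hq₁).1
      have h2 := (rst q₂ hq₂).1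
      rw [hFe] at h1 h2
      simp only [mem_insert, mem_singleton, not_or] at h1 h2 ⊢
      exact ⟨nxx, fun e => h1.1 e.symm, fun e => h2.1 e.symm⟩
  have hT4' : T'.card = 4 := by
    rw [hTe', card_insert_of_notMem, card_insert_of_notMem, card_pair hqq']
    · have h1 := (rst q₃ hq₃).1
      have h2 := (rst q₄ hq₄).1
      rw [hFe] at h1 h2
      simp only [mem_insert, mem_singleton, not_or] at h1 h2 ⊢
      exact ⟨fun e => h1.2.2.2 e.symm, fun e => h2.2.2.2 e.symm⟩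
    · have h1 := (rst q₃ hq₃).1
      have h2 := (rst q₄ hq₄).1
      rw [hFe] at h1 h2
      simp only [mem_insert, mem_singleton, not_or] at h1 h2 ⊢
      exact ⟨nzz, fun e => h1.2.2.1 e.symm, fun e => h2.2.2.1 e.symm⟩
  -- numbers
  have e1 := part hT' hT.subS
  have e2 := part hT hT'.subS
  rw [inter_comm T', inter_comm T', inter_comm T'] at e2
  have k1 := hFRG.four hG.1 hT hT' ⟨s₁, mem_inter.2 ⟨h1X, h1X'⟩⟩ ⟨z', mem_union.2 (Or.inl hzY)⟩
  have k2 := hFRG.four hG.1 hT hT'.symm ⟨s₂, mem_inter.2 ⟨h2X, h2Y'⟩⟩ ⟨z', mem_union.2 (Or.inl hzY)⟩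
  have k3 := hFRG.four hG.1 hT.symm hT' ⟨s₃, mem_inter.2 ⟨h3Y, h3X'⟩⟩ ⟨z, mem_union.2 (Or.inl hzX)⟩
  have k4 := hFRG.four hG.1 hT.symm hT'.symm ⟨s₄, mem_inter.2 ⟨h4Y, h4Y'⟩⟩ ⟨z, mem_union.2 (Or.inl hzX)⟩
  have p1 : 1 ≤ (T ∩ X').card := card_pos.2 ⟨x, mem_inter.2 ⟨hxT, hxX⟩⟩
  have p2 : 1 ≤ (X ∩ T').card := card_pos.2 ⟨z, mem_inter.2 ⟨hzX, hzT⟩⟩
  rw [hT4] at e1
  rw [hT4'] at e2
  obtain ⟨s1, s2, s3, s4⟩ := num e1 e2 k1 k2 k3 k4
  -- the corners
  have K1 : X ∩ X' = {s₁} := by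
    refine corner_single hFRG hG hT hT' s1 (mem_inter.2 ⟨h1X, h1X'⟩) (mem_inter.2 ⟨hxT, hxX⟩)
      (mem_inter.2 ⟨hzX, hzT⟩) ?_ ?_
    · intro v hv hav
      rw [mem_inter] at hv
      rcases (hty.nx v).1 hav with rfl | rfl | rfl | rfl
      · exact absurd hv.2 (c4 _ hzT)
      · exact absurd hv.2 (c4 _ hzT2)
      · rfl
      · exact absurd h3Y (d6 _ hv.1)
    · intro v hv hav
      rw [mem_inter] at hv
      rcases (hty.nz v).1 hav with rfl | rfl | rfl | rfl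
      · exact absurd hv.1 (d4 _ hxT)
      · exact absurd hv.1 (d4 _ hxT2)
      · rfl
      · exact absurd h2Y' (c6 _ hv.2)
  have K2 : X ∩ Y' = {s₂} := by
    refine corner_single hFRG hG hT hT'.symm s2 (mem_inter.2 ⟨h2X, h2Y'⟩) (mem_inter.2 ⟨hxT2, hxY⟩)
      (mem_inter.2 ⟨hzX, hzT⟩) ?_ ?_
    · intro v hv hav
      rw [mem_inter] at hv
      rcases (hty.nx' v).1 hav with rfl | rfl | rfl | rfl
      · exact absurd hv.2 (c5 _ hzT)
      · exact absurd hv.2 (c5 _ hzT2)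
      · rfl
      · exact absurd h4Y (d6 _ hv.1)
    · intro v hv hav
      rw [mem_inter] at hv
      rcases (hty.nz v).1 hav with rfl | rfl | rfl | rfl
      · exact absurd hv.1 (d4 _ hxT)
      · exact absurd hv.1 (d4 _ hxT2)
      · exact absurd hv.2 (c6 _ h1X')
      · rfl
  have K3 : Y ∩ X' = {s₃} := by
    refine corner_single hFRG hG hT.symm hT' s3 (mem_inter.2 ⟨h3Y, h3X'⟩) (mem_inter.2 ⟨hxT, hxX⟩)
      (mem_inter.2 ⟨hzY, hzT2⟩) ?_ ?_
    · intro v hv hav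
      rw [mem_inter] at hv
      rcases (hty.nx v).1 hav with rfl | rfl | rfl | rfl
      · exact absurd hv.2 (c4 _ hzT)
      · exact absurd hv.2 (c4 _ hzT2)
      · exact absurd hv.1 (d6 _ h1X)
      · rfl
    · intro v hv hav
      rw [mem_inter] at hv
      rcases (hty.nz' v).1 hav with rfl | rfl | rfl | rfl
      · exact absurd hv.1 (d5 _ hxT)
      · exact absurd hv.1 (d5 _ hxT2)
      · rfl
      · exact absurd h4Y' (c6 _ hv.2)
  have K4 : Y ∩ Y' = {s₄} := by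
    refine corner_single hFRG hG hT.symm hT'.symm s4 (mem_inter.2 ⟨h4Y, h4Y'⟩) (mem_inter.2 ⟨hxT2, hxY⟩)
      (mem_inter.2 ⟨hzY, hzT2⟩) ?_ ?_
    · intro v hv hav
      rw [mem_inter] at hv
      rcases (hty.nx' v).1 hav with rfl | rfl | rfl | rfl
      · exact absurd hv.2 (c5 _ hzT)
      · exact absurd hv.2 (c5 _ hzT2)
      · exact absurd hv.1 (d6 _ h2X)
      · rfl
    · intro v hv hav
      rw [mem_inter] at hv
      rcases (hty.nz' v).1 hav with rfl | rfl | rfl | rfl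
      · exact absurd hv.1 (d5 _ hxT)
      · exact absurd hv.1 (d5 _ hxT2)
      · exact absurd hv.2 (c6 _ h3X')
      · rfl
  have A1 := corner1 hFRG hG hT hT' K1 s1
  have A2 := corner1 hFRG hG hT hT'.symm K2 s2
  have A3 := corner1 hFRG hG hT.symm hT' K3 s3
  have A4 := corner1 hFRG hG hT.symm hT'.symm K4 s4
  have m1 : s₁ ∈ X ∧ s₁ ∈ X' := ⟨h1X, h1X'⟩
  have m2 : s₂ ∈ X ∧ s₂ ∈ Y' := ⟨h2X, h2Y'⟩
  have m3 : s₃ ∈ Y ∧ s₃ ∈ X' := ⟨h3Y, h3X'⟩
  have m4 : s₄ ∈ Y ∧ s₄ ∈ Y' := ⟨h4Y, h4Y'⟩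
  have l1 : ∀ v, v ∈ X → v ∈ X' → v = s₁ := fun v h h' => by
    have : v ∈ X ∩ X' := mem_inter.2 ⟨h, h'⟩
    rw [K1] at this; exact mem_singleton.1 this
  have l2 : ∀ v, v ∈ X → v ∈ Y' → v = s₂ := fun v h h' => by
    have : v ∈ X ∩ Y' := mem_inter.2 ⟨h, h'⟩
    rw [K2] at this; exact mem_singleton.1 this
  have l3 : ∀ v, v ∈ Y → v ∈ X' → v = s₃ := fun v h h' => by
    have : v ∈ Y ∩ X' := mem_inter.2 ⟨h, h'⟩
    rw [K3] at this; exact mem_singleton.1 this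
  have l4 : ∀ v, v ∈ Y → v ∈ Y' → v = s₄ := fun v h h' => by
    have : v ∈ Y ∩ Y' := mem_inter.2 ⟨h, h'⟩
    rw [K4] at this; exact mem_singleton.1 this
  have oT : ∀ v ∈ VS G, v ∈ T ∨ v ∈ X ∨ v ∈ Y := fun v h => hT.mem_or h
  have oT' : ∀ v ∈ VS G, v ∈ T' ∨ v ∈ X' ∨ v ∈ Y' := fun v h => hT'.mem_or h
  by_cases h0 : (T ∩ T').card = 0
  · -- twelve vertices
    left
    obtain ⟨g1, g2, g3, g4⟩ := num0 e1 s1 s2 s3 h0
    obtain ⟨a, hxa, hTX⟩ : ∃ a, x ≠ a ∧ T ∩ X' = {x, a} := by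
      obtain ⟨u, v, huv, e⟩ := card_eq_two.1 g1
      have : x ∈ T ∩ X' := mem_inter.2 ⟨hxT, hxX⟩
      rw [e, mem_insert, mem_singleton] at this
      rcases this with rfl | rfl
      · exact ⟨v, huv, e⟩
      · exact ⟨u, huv.symm, by rw [e, pair_comm]⟩
    obtain ⟨b, hxb, hTY⟩ : ∃ b, x' ≠ b ∧ T ∩ Y' = {x', b} := by
      obtain ⟨u, v, huv, e⟩ := card_eq_two.1 g2
      have : x' ∈ T ∩ Y' := mem_inter.2 ⟨hxT2, hxY⟩
      rw [e, mem_insert, mem_singleton] at this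
      rcases this with rfl | rfl
      · exact ⟨v, huv, e⟩
      · exact ⟨u, huv.symm, by rw [e, pair_comm]⟩
    obtain ⟨c, hzc, hXT⟩ : ∃ c, z ≠ c ∧ X ∩ T' = {z, c} := by
      obtain ⟨u, v, huv, e⟩ := card_eq_two.1 g3
      have : z ∈ X ∩ T' := mem_inter.2 ⟨hzX, hzT⟩
      rw [e, mem_insert, mem_singleton] at this
      rcases this with rfl | rfl
      · exact ⟨v, huv, e⟩
      · exact ⟨u, huv.symm, by rw [e, pair_comm]⟩
    obtain ⟨d, hzd, hYT⟩ : ∃ d, z' ≠ d ∧ Y ∩ T' = {z', d} := by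
      obtain ⟨u, v, huv, e⟩ := card_eq_two.1 g4
      have : z' ∈ Y ∩ T' := mem_inter.2 ⟨hzY, hzT2⟩
      rw [e, mem_insert, mem_singleton] at this
      rcases this with rfl | rfl
      · exact ⟨v, huv, e⟩
      · exact ⟨u, huv.symm, by rw [e, pair_comm]⟩
    rw [card_eq_zero] at h0
    rw [hTX, h0, hXT] at A1
    rw [hTY, h0, hXT] at A2
    rw [hTX, h0, hYT] at A3
    rw [hTY, h0, hYT] at A4
    simp only [mem_union, mem_insert, mem_singleton, notMem_empty, or_false] at A1 A2 A3 A4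
    have ma : a ∈ T ∧ a ∈ X' := by rw [← mem_inter, hTX]; simp
    have mb : b ∈ T ∧ b ∈ Y' := by rw [← mem_inter, hTY]; simp
    have mc : c ∈ X ∧ c ∈ T' := by rw [← mem_inter, hXT]; simp
    have md : d ∈ Y ∧ d ∈ T' := by rw [← mem_inter, hYT]; simp
    have nd := ndA d4 d5 d6 c4 c5 c6 hxa hxb hzc hzd ⟨hxT, hxX⟩ ⟨hxT2, hxY⟩ ⟨hzX, hzT⟩ ⟨hzY, hzT2⟩ m1 m2 m3 m4 ma mb
      mc md
    have tX : ∀ v, v ∈ T → v ∈ X' → v = x ∨ v = a := fun v h h' => by
      have : v ∈ T ∩ X' := mem_inter.2 ⟨h, h'⟩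
      rw [hTX, mem_insert, mem_singleton] at this
      exact this
    have tY : ∀ v, v ∈ T → v ∈ Y' → v = x' ∨ v = b := fun v h h' => by
      have : v ∈ T ∩ Y' := mem_inter.2 ⟨h, h'⟩
      rw [hTY, mem_insert, mem_singleton] at this
      exact this
    have xT : ∀ v, v ∈ X → v ∈ T' → v = z ∨ v = c := fun v h h' => by
      have : v ∈ X ∩ T' := mem_inter.2 ⟨h, h'⟩
      rw [hXT, mem_insert, mem_singleton] at this
      exact this
    have yT : ∀ v, v ∈ Y → v ∈ T' → v = z' ∨ v = d := fun v h h' => by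
      have : v ∈ Y ∩ T' := mem_inter.2 ⟨h, h'⟩
      rw [hYT, mem_insert, mem_singleton] at this
      exact this
    have tT : ∀ v, v ∈ T → v ∈ T' → False := fun v h h' => by
      have : v ∈ T ∩ T' := mem_inter.2 ⟨h, h'⟩
      rw [h0] at this
      exact notMem_empty v this
    have all : ∀ v ∈ VS G, v = x ∨ v = x' ∨ v = z ∨ v = z' ∨ v = s₁ ∨ v = s₂ ∨ v = s₃ ∨ v = s₄ ∨ v = a ∨ v = b ∨
        v = c ∨ v = d := by
      intro v hv
      rcases oT v hv with h | h | h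
      · rcases oT' v hv with h' | h' | h'
        · exact (tT v h h').elim
        · rcases tX v h h' with e | e <;> simp [e]
        · rcases tY v h h' with e | e <;> simp [e]
      · rcases oT' v hv with h' | h' | h'
        · rcases xT v h h' with e | e <;> simp [e]
        · have e := l1 v h h'; simp [e]
        · have e := l2 v h h'; simp [e]
      · rcases oT' v hv with h' | h' | h'
        · rcases yT v h h' with e | e <;> simp [e]
        · have e := l3 v h h'; simp [e]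
        · have e := l4 v h h'; simp [e]
    have nd' := nd
    simp only [List.nodup_cons, List.mem_cons, List.not_mem_nil, or_false, not_or, List.nodup_nil, and_true,
      not_false_eq_true] at nd'
    obtain ⟨⟨-, -, -, -, -, -, -, xa, xb, xc, xd⟩, ⟨-, -, -, -, -, -, ya, yb, yc, yd⟩,
      ⟨-, -, -, -, -, za, zb, zc, zd⟩, ⟨-, -, -, -, wa, wb, wc, wd⟩, ⟨-, -, -, a1, b1, c1, d1⟩,
      ⟨-, -, a2, b2, c2, d2⟩, ⟨-, a3, b3, c3, d3⟩, ⟨a4, b4, c4', d4'⟩, ⟨ab, ac, ad⟩, ⟨bc, bd⟩, cd⟩ := nd'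
    have aV : a ∈ VS G := hT.subS ma.1
    have bV : b ∈ VS G := hT.subS mb.1
    have cV : c ∈ VS G := hT'.subS mc.2
    have dV : d ∈ VS G := hT'.subS md.2
    have nxa : ¬ G.Adj x a := fun h => by
      rcases (hty.nx a).1 h with e | e | e | e
      exacts [za e.symm, wa e.symm, a1 e.symm, a3 e.symm]
    have nx'a : ¬ G.Adj x' a := fun h => by
      rcases (hty.nx' a).1 h with e | e | e | e
      exacts [za e.symm, wa e.symm, a2 e.symm, a4 e.symm]
    have nza : ¬ G.Adj z a := fun h => by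
      rcases (hty.nz a).1 h with e | e | e | e
      exacts [xa e.symm, ya e.symm, a1 e.symm, a2 e.symm]
    have nz'a : ¬ G.Adj z' a := fun h => by
      rcases (hty.nz' a).1 h with e | e | e | e
      exacts [xa e.symm, ya e.symm, a3 e.symm, a4 e.symm]
    have nxb : ¬ G.Adj x b := fun h => by
      rcases (hty.nx b).1 h with e | e | e | e
      exacts [zb e.symm, wb e.symm, b1 e.symm, b3 e.symm]
    have nx'b : ¬ G.Adj x' b := fun h => by
      rcases (hty.nx' b).1 h with e | e | e | e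
      exacts [zb e.symm, wb e.symm, b2 e.symm, b4 e.symm]
    have nzb : ¬ G.Adj z b := fun h => by
      rcases (hty.nz b).1 h with e | e | e | e
      exacts [xb e.symm, yb e.symm, b1 e.symm, b2 e.symm]
    have nz'b : ¬ G.Adj z' b := fun h => by
      rcases (hty.nz' b).1 h with e | e | e | e
      exacts [xb e.symm, yb e.symm, b3 e.symm, b4 e.symm]
    have nxc : ¬ G.Adj x c := fun h => by
      rcases (hty.nx c).1 h with e | e | e | e
      exacts [zc e.symm, wc e.symm, c1 e.symm, c3 e.symm]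
    have nx'c : ¬ G.Adj x' c := fun h => by
      rcases (hty.nx' c).1 h with e | e | e | e
      exacts [zc e.symm, wc e.symm, c2 e.symm, c4' e.symm]
    have nzc : ¬ G.Adj z c := fun h => by
      rcases (hty.nz c).1 h with e | e | e | e
      exacts [xc e.symm, yc e.symm, c1 e.symm, c2 e.symm]
    have nz'c : ¬ G.Adj z' c := fun h => by
      rcases (hty.nz' c).1 h with e | e | e | e
      exacts [xc e.symm, yc e.symm, c3 e.symm, c4' e.symm]
    have nxd : ¬ G.Adj x d := fun h => by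
      rcases (hty.nx d).1 h with e | e | e | e
      exacts [zd e.symm, wd e.symm, d1 e.symm, d3 e.symm]
    have nx'd : ¬ G.Adj x' d := fun h => by
      rcases (hty.nx' d).1 h with e | e | e | e
      exacts [zd e.symm, wd e.symm, d2 e.symm, d4' e.symm]
    have nzd : ¬ G.Adj z d := fun h => by
      rcases (hty.nz d).1 h with e | e | e | e
      exacts [xd e.symm, yd e.symm, d1 e.symm, d2 e.symm]
    have nz'd : ¬ G.Adj z' d := fun h => by
      rcases (hty.nz' d).1 h with e | e | e | e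
      exacts [xd e.symm, yd e.symm, d3 e.symm, d4' e.symm]
    have n2a : ¬ G.Adj s₂ a := fun h => by
      rcases (A2 a).1 h with (e | e) | e | e
      exacts [ya e.symm, ab e, za e.symm, ac e]
    have n4a : ¬ G.Adj s₄ a := fun h => by
      rcases (A4 a).1 h with (e | e) | e | e
      exacts [ya e.symm, ab e, wa e.symm, ad e]
    have n1b : ¬ G.Adj s₁ b := fun h => by
      rcases (A1 b).1 h with (e | e) | e | e
      exacts [xb e.symm, ab e.symm, zb e.symm, bc e]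
    have n3b : ¬ G.Adj s₃ b := fun h => by
      rcases (A3 b).1 h with (e | e) | e | e
      exacts [xb e.symm, ab e.symm, wb e.symm, bd e]
    have n3c : ¬ G.Adj s₃ c := fun h => by
      rcases (A3 c).1 h with (e | e) | e | e
      exacts [xc e.symm, ac e.symm, wc e.symm, cd e]
    have n4c : ¬ G.Adj s₄ c := fun h => by
      rcases (A4 c).1 h with (e | e) | e | e
      exacts [yc e.symm, bc e.symm, wc e.symm, cd e]
    have n1d : ¬ G.Adj s₁ d := fun h => by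
      rcases (A1 d).1 h with (e | e) | e | e
      exacts [xd e.symm, ad e.symm, zd e.symm, cd e.symm]
    have n2d : ¬ G.Adj s₂ d := fun h => by
      rcases (A2 d).1 h with (e | e) | e | e
      exacts [yd e.symm, bd e.symm, zd e.symm, cd e.symm]
    have nab : ¬ G.Adj a b := fun h => hT'.2.2.2.2 a ma.2 b mb.2 h
    have nba : ¬ G.Adj b a := fun h => nab h.symm
    have ncd : ¬ G.Adj c d := fun h => hT.2.2.2.2 c mc.1 d md.1 h
    have ndc : ¬ G.Adj d c := fun h => ncd h.symm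
    refine ⟨a, b, c, d, hty, nd, ?_, ?_, ?_, ?_, ?_, nb_eq hG aV ?_, nb_eq hG bV ?_, nb_eq hG cV ?_, nb_eq hG dV ?_⟩
    · ext v
      simp only [mem_insert, mem_singleton]
      refine ⟨all v, ?_⟩
      rintro (rfl | rfl | rfl | rfl | rfl | rfl | rfl | rfl | rfl | rfl | rfl | rfl)
      exacts [hT.subS hxT, hT.subS hxT2, hT'.subS hzT, hT'.subS hzT2, hT.subP h1X, hT.subP h2X, hT.subQ h3Y,
        hT.subQ h4Y, aV, bV, cV, dV]
    · intro r; rw [A1 r]; exact sh12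
    · intro r; rw [A2 r]; exact sh12
    · intro r; rw [A3 r]; exact sh12
    · intro r; rw [A4 r]; exact sh12
    · intro r hr
      rcases all r (right_mem_VS hr) with e | e | e | e | e | e | e | e | e | e | e | e
      · exact (nxa (e ▸ hr.symm)).elim
      · exact (nx'a (e ▸ hr.symm)).elim
      · exact (nza (e ▸ hr.symm)).elim
      · exact (nz'a (e ▸ hr.symm)).elim
      · exact Or.inl e
      · exact (n2a (e ▸ hr.symm)).elim
      · exact Or.inr (Or.inl e)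
      · exact (n4a (e ▸ hr.symm)).elim
      · exact (hr.ne e.symm).elim
      · exact (nab (e ▸ hr)).elim
      · exact Or.inr (Or.inr (Or.inl e))
      · exact Or.inr (Or.inr (Or.inr e))
    · intro r hr
      rcases all r (right_mem_VS hr) with e | e | e | e | e | e | e | e | e | e | e | e
      · exact (nxb (e ▸ hr.symm)).elim
      · exact (nx'b (e ▸ hr.symm)).elim
      · exact (nzb (e ▸ hr.symm)).elim
      · exact (nz'b (e ▸ hr.symm)).elim
      · exact (n1b (e ▸ hr.symm)).elim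
      · exact Or.inl e
      · exact (n3b (e ▸ hr.symm)).elim
      · exact Or.inr (Or.inl e)
      · exact (nba (e ▸ hr)).elim
      · exact (hr.ne e.symm).elim
      · exact Or.inr (Or.inr (Or.inl e))
      · exact Or.inr (Or.inr (Or.inr e))
    · intro r hr
      rcases all r (right_mem_VS hr) with e | e | e | e | e | e | e | e | e | e | e | e
      · exact (nxc (e ▸ hr.symm)).elim
      · exact (nx'c (e ▸ hr.symm)).elim
      · exact (nzc (e ▸ hr.symm)).elim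
      · exact (nz'c (e ▸ hr.symm)).elim
      · exact Or.inl e
      · exact Or.inr (Or.inl e)
      · exact (n3c (e ▸ hr.symm)).elim
      · exact (n4c (e ▸ hr.symm)).elim
      · exact Or.inr (Or.inr (Or.inl e))
      · exact Or.inr (Or.inr (Or.inr e))
      · exact (hr.ne e.symm).elim
      · exact (ncd (e ▸ hr)).elim
    · intro r hr
      rcases all r (right_mem_VS hr) with e | e | e | e | e | e | e | e | e | e | e | e
      · exact (nxd (e ▸ hr.symm)).elim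
      · exact (nx'd (e ▸ hr.symm)).elim
      · exact (nzd (e ▸ hr.symm)).elim
      · exact (nz'd (e ▸ hr.symm)).elim
      · exact (n1d (e ▸ hr.symm)).elim
      · exact (n2d (e ▸ hr.symm)).elim
      · exact Or.inl e
      · exact Or.inr (Or.inl e)
      · exact Or.inr (Or.inr (Or.inl e))
      · exact Or.inr (Or.inr (Or.inr e))
      · exact (ndc (e ▸ hr)).elim
      · exact (hr.ne e.symm).elim
  · -- ten vertices
    right
    obtain ⟨t1, t2, u1, u2, t0⟩ := num1 e1 s1 s2 s3 p1 h0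
    have hTX : T ∩ X' = {x} := by
      obtain ⟨u, e⟩ := card_eq_one.1 t1
      have : x ∈ T ∩ X' := mem_inter.2 ⟨hxT, hxX⟩
      rw [e, mem_singleton] at this
      rw [e, this]
    have hTY : T ∩ Y' = {x'} := by
      obtain ⟨u, e⟩ := card_eq_one.1 t2
      have : x' ∈ T ∩ Y' := mem_inter.2 ⟨hxT2, hxY⟩
      rw [e, mem_singleton] at this
      rw [e, this]
    have hXT : X ∩ T' = {z} := by
      obtain ⟨u, e⟩ := card_eq_one.1 u1
      have : z ∈ X ∩ T' := mem_inter.2 ⟨hzX, hzT⟩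
      rw [e, mem_singleton] at this
      rw [e, this]
    have hYT : Y ∩ T' = {z'} := by
      obtain ⟨u, e⟩ := card_eq_one.1 u2
      have : z' ∈ Y ∩ T' := mem_inter.2 ⟨hzY, hzT2⟩
      rw [e, mem_singleton] at this
      rw [e, this]
    obtain ⟨a, b, hab, hTT⟩ := card_eq_two.1 t0
    rw [hTX, hTT, hXT] at A1
    rw [hTY, hTT, hXT] at A2
    rw [hTX, hTT, hYT] at A3
    rw [hTY, hTT, hYT] at A4
    simp only [mem_union, mem_insert, mem_singleton] at A1 A2 A3 A4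
    have ma : a ∈ T ∧ a ∈ T' := by rw [← mem_inter, hTT]; simp
    have mb : b ∈ T ∧ b ∈ T' := by rw [← mem_inter, hTT]; simp
    have nd := ndB d4 d5 d6 c4 c5 c6 hab ⟨hxT, hxX⟩ ⟨hxT2, hxY⟩ ⟨hzX, hzT⟩ ⟨hzY, hzT2⟩ m1 m2 m3 m4 ma mb
    have tX : ∀ v, v ∈ T → v ∈ X' → v = x := fun v h h' => by
      have : v ∈ T ∩ X' := mem_inter.2 ⟨h, h'⟩
      rw [hTX, mem_singleton] at this
      exact this
    have tY : ∀ v, v ∈ T → v ∈ Y' → v = x' := fun v h h' => by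
      have : v ∈ T ∩ Y' := mem_inter.2 ⟨h, h'⟩
      rw [hTY, mem_singleton] at this
      exact this
    have xT : ∀ v, v ∈ X → v ∈ T' → v = z := fun v h h' => by
      have : v ∈ X ∩ T' := mem_inter.2 ⟨h, h'⟩
      rw [hXT, mem_singleton] at this
      exact this
    have yT : ∀ v, v ∈ Y → v ∈ T' → v = z' := fun v h h' => by
      have : v ∈ Y ∩ T' := mem_inter.2 ⟨h, h'⟩
      rw [hYT, mem_singleton] at this
      exact this
    have tT : ∀ v, v ∈ T → v ∈ T' → v = a ∨ v = b := fun v h h' => by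
      have : v ∈ T ∩ T' := mem_inter.2 ⟨h, h'⟩
      rw [hTT, mem_insert, mem_singleton] at this
      exact this
    have all : ∀ v ∈ VS G, v = x ∨ v = x' ∨ v = z ∨ v = z' ∨ v = s₁ ∨ v = s₂ ∨ v = s₃ ∨ v = s₄ ∨ v = a ∨
        v = b := by
      intro v hv
      rcases oT v hv with h | h | h
      · rcases oT' v hv with h' | h' | h'
        · rcases tT v h h' with e | e <;> simp [e]
        · have e := tX v h h'; simp [e]
        · have e := tY v h h'; simp [e]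
      · rcases oT' v hv with h' | h' | h'
        · have e := xT v h h'; simp [e]
        · have e := l1 v h h'; simp [e]
        · have e := l2 v h h'; simp [e]
      · rcases oT' v hv with h' | h' | h'
        · have e := yT v h h'; simp [e]
        · have e := l3 v h h'; simp [e]
        · have e := l4 v h h'; simp [e]
    refine ⟨a, b, hty, nd, ?_, ?_, ?_, ?_, ?_⟩
    · ext v
      simp only [mem_insert, mem_singleton]
      refine ⟨all v, ?_⟩
      rintro (rfl | rfl | rfl | rfl | rfl | rfl | rfl | rfl | rfl | rfl)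
      exacts [hT.subS hxT, hT.subS hxT2, hT'.subS hzT, hT'.subS hzT2, hT.subP h1X, hT.subP h2X, hT.subQ h3Y,
        hT.subQ h4Y, hT.subS ma.1, hT.subS mb.1]
    · intro r; rw [A1 r]; exact sh10
    · intro r; rw [A2 r]; exact sh10
    · intro r; rw [A3 r]; exact sh10
    · intro r; rw [A4 r]; exact sh10
end

section
/-! MP_3ff0f8_gt, algebra half, module STB (helper14). -/
open SimpleGraph Finset

namespace DL

theorem specSTB : SpecSTB := by
  intro α _ _ L A B hAB hdis hconn a hA hB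
  obtain ⟨s, hs⟩ := cut (G := del L A) hA
  obtain ⟨t, ht⟩ := cut (G := del L B) hB
  obtain ⟨c, hc⟩ : ∃ c, ∀ v ∈ VS L, v ∉ A → v ∉ B → s v + t v = c := by
    by_cases h : ∃ v ∈ VS L, v ∉ A ∧ v ∉ B
    · obtain ⟨v0, h0, h1, h2⟩ := h
      refine ⟨s v0 + t v0, fun v hv hvA hvB => ?_⟩
      refine cut_unique (G := del L (A ∪ B)) (s := s) (s' := t) (fun u w huw => ?_)
        (hconn v hv v0 h0 (by simp [hvA, hvB]) (by simp [h1, h2]))
      obtain ⟨h3, h4, h5⟩ := huw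
      rw [mem_union, not_or] at h4 h5
      rw [← hs u w ⟨h3, h4.1, h5.1⟩, ← ht u w ⟨h3, h4.2, h5.2⟩]
    · exact ⟨0, fun v hv h1 h2 => (h ⟨v, hv, h1, h2⟩).elim⟩
  have key : ∀ u v, L.Adj u v → a s(u, v) =
      (if u ∈ A then t u + c else s u) + (if v ∈ A then t v + c else s v) := by
    have aux : ∀ u v, L.Adj u v → u ∈ A → a s(u, v) =
        (if u ∈ A then t u + c else s u) + (if v ∈ A then t v + c else s v) := by
      intro u v huv hu
      have hvB : v ∉ B := fun hv => hAB u hu v hv huv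
      have huB : u ∉ B := fun h => (Finset.disjoint_left.1 hdis hu h)
      rw [ht u v ⟨huv, huB, hvB⟩, if_pos hu]
      by_cases hv : v ∈ A
      · rw [if_pos hv]
        have h4 : ∀ x y c : ZMod 2, x + y = x + c + (y + c) := by decide
        exact h4 _ _ _
      · rw [if_neg hv, ← hc v (right_mem_VS huv) hv hvB]
        generalize t u = x; generalize t v = y; generalize s v = z
        revert x y z; decide
    intro u v huv
    by_cases hu : u ∈ A
    · exact aux u v huv hu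
    · by_cases hv : v ∈ A
      · rw [Sym2.eq_swap, aux v u huv.symm hv, add_comm]
      · rw [if_neg hu, if_neg hv]
        exact hs u v ⟨huv, hu, hv⟩
  intro Z hZ
  unfold pr
  rw [← cob_orth hZ (fun v => if v ∈ A then t v + c else s v)]
  refine sum_congr rfl fun e _ => ?_
  by_cases he : Z e = 0
  · simp [he]
  · have h := hZ.1 e he
    induction e using Sym2.ind with
    | _ u v => rw [key u v h, cob_mk]

end DL
end

section
/-!
# G4 block, module TFA (helper68): the fragment `F` is contained in `C`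
-/
open SimpleGraph Finset

namespace DL

namespace TFAM

variable {α : Type} [Fintype α] [DecidableEq α] {G : SimpleGraph α}

theorem mem_NB {A : Finset α} {w : α} : w ∈ NB G A ↔ w ∉ A ∧ ∃ a ∈ A, G.Adj a w := by
  simp [NB]

theorem mem_Rst {F : Finset α} {w : α} : w ∈ Rst G F ↔ w ∈ VS G ∧ w ∉ F ∧ w ∉ NB G F := by
  simp [Rst]

theorem notMem_Rst_of_adj {X : Finset α} {a w : α} (ha : a ∈ X) (h : G.Adj a w) : w ∉ Rst G X := by
  intro hw
  rw [mem_Rst] at hw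
  exact hw.2.2 (mem_NB.2 ⟨hw.2.1, a, ha, h⟩)

/-- a vertex of `NB G F` adjacent to the rigid vertex `x ∈ F` has a second neighbour in `F` -/
theorem second (hFRG : SpecFRG) {F : Finset α} {t x : α} (hG : KConn 4 G) (hF : Frag G F) (h3 : 3 ≤ F.card)
    (ht : t ∈ NB G F) (hx : x ∈ F) (hr : Rig G x) : ∃ a ∈ F, a ≠ x ∧ G.Adj t a := by
  by_contra hcon
  push Not at hcon
  exact hFRG.one hG hF h3 ht hx (fun w hw htw => by
    by_contra hne
    exact hcon w hw hne htw) hr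

end TFAM

open TFAM in
theorem specTFA (hFRG : SpecFRG) (hGAL : SpecGAL) : SpecTFA := by
  intro α _ _ G X F u w w' C h v hvF
  by_contra hvC
  have hG4 : KConn 4 G := h.k48.1
  have hvR : v ∈ Rst G X := h.sub hvF
  have hvR' := mem_Rst.1 hvR
  have hvu : v ≠ u := fun he => hvR'.2.1 (he ▸ h.uX)
  have huw : G.Adj u w := h.gam.1
  have huw' : G.Adj u w' := h.gam.2.1
  have hvw : v ≠ w := fun he => notMem_Rst_of_adj h.uX huw (he ▸ hvR)
  have hvw' : v ≠ w' := fun he => notMem_Rst_of_adj h.uX huw' (he ▸ hvR)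
  obtain ⟨y, p, q, hy, hpq, hpqC, hN⟩ :=
    hGAL h.k48 h.ru h.pu (h.rF v hvF).2 hvR'.1 hvu hvw hvw' h.cyc hvC h.gam
  have hyu : G.Adj u y := by
    rcases hy with rfl | rfl
    · exact huw
    · exact huw'
  have hyv : G.Adj y v := (hN v).2 (Or.inr (Or.inl rfl))
  have hyX : y ∉ X := fun hyX => notMem_Rst_of_adj hyX hyv hvR
  have hyNX : y ∈ NB G X := mem_NB.2 ⟨hyX, u, h.uX, hyu⟩
  have hyF : y ∉ F := fun hyF => (mem_Rst.1 (h.sub hyF)).2.2 hyNX
  have hyNF : y ∈ NB G F := mem_NB.2 ⟨hyF, v, hvF, hyv.symm⟩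
  obtain ⟨a, haX, hau, hya⟩ := second hFRG hG4 h.frX (h.no2 X h.frX) hyNX h.uX h.ru
  obtain ⟨b, hbF, hbv, hyb⟩ := second hFRG hG4 h.frF (h.no2 F h.frF) hyNF hvF (h.rF v hvF).1
  have hbR := mem_Rst.1 (h.sub hbF)
  have hav : a ≠ v := fun he => hvR'.2.1 (he ▸ haX)
  have hbu : b ≠ u := fun he => hbR.2.1 (he ▸ h.uX)
  have hab : a ≠ b := fun he => hbR.2.1 (he ▸ haX)
  have ha : a = p ∨ a = q := by
    rcases (hN a).1 hya with h1 | h1 | h1 | h1
    · exact absurd h1 hau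
    · exact absurd h1 hav
    · exact Or.inl h1
    · exact Or.inr h1
  have hb : b = p ∨ b = q := by
    rcases (hN b).1 hyb with h1 | h1 | h1 | h1
    · exact absurd h1 hbu
    · exact absurd h1 hbv
    · exact Or.inl h1
    · exact Or.inr h1
  have hadj : G.Adj p q := h.cyc.adj_of_mem hpqC
  have hab' : G.Adj a b := by
    rcases ha with rfl | rfl <;> rcases hb with rfl | rfl
    · exact absurd rfl hab
    · exact hadj
    · exact hadj.symm
    · exact absurd rfl hab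
  exact notMem_Rst_of_adj haX hab' (h.sub hbF)

end DL
end

section
/-!
MP_3ff0f8_gt, ALGEBRA HALF, G4 block, module **TFB**: the two-fragment lemma, second part.  (helper42)
-/
open SimpleGraph Finset

namespace DL

namespace TFBM

variable {α : Type} [Fintype α] [DecidableEq α] {G : SimpleGraph α}

theorem mem_NB' {A : Finset α} {w : α} : w ∈ NB G A ↔ w ∉ A ∧ ∃ a ∈ A, G.Adj a w := by
  classical
  unfold NB
  simp only [mem_filter, mem_univ, true_and]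

/-- a path from `F` to a vertex outside of `F` meets the neighbourhood of `F` -/
theorem exit {f x : α} {P : Finset (Sym2 α)} {F : Finset α} (hP : IsPth G f x P) (hx : x ∉ F)
    (hf : f ∈ F) : ∃ y ∈ vs P, y ∈ NB G F := by
  revert hf
  refine IsPth.rec_left (motive := fun s P => s ∈ F → ∃ y ∈ vs P, y ∈ NB G F) ?_ ?_ hP
  · intro h
    exact absurd h hx
  · intro u s P hus _ _ _ ih huF
    by_cases hs : s ∈ F
    · obtain ⟨y, hy, hyN⟩ := ih hs
      exact ⟨y, vs_mono (subset_insert _ _) hy, hyN⟩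
    · refine ⟨s, ?_, mem_NB'.2 ⟨hs, u, huF, hus⟩⟩
      rw [vs_insert]
      simp

variable {X F : Finset α} {u w w' : α} {C : Finset (Sym2 α)}

theorem nadj (h : TFS G X F u w w' C) {x f : α} (hx : x ∈ X) (hf : f ∈ F) : ¬ G.Adj x f := by
  intro hxf
  have h1 := h.sub hf
  unfold Rst at h1
  rw [mem_sdiff, mem_union, not_or] at h1
  exact h1.2.2 (mem_NB'.2 ⟨h1.2.1, x, hx, hxf⟩)

theorem notF (h : TFS G X F u w w' C) {x : α} (hx : x ∈ X) : x ∉ F := by
  intro hf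
  have h1 := h.sub hf
  unfold Rst at h1
  rw [mem_sdiff, mem_union, not_or] at h1
  exact h1.2.1 hx

theorem notN (h : TFS G X F u w w' C) {x : α} (hx : x ∈ X) : x ∉ NB G F := by
  intro hN
  obtain ⟨_, f, hf, hfx⟩ := mem_NB'.1 hN
  exact nadj h hx hf hfx.symm

theorem reach_VS {S : Finset α} {a x : α} (ha : a ∈ VS G) (h : (del G S).Reachable a x) :
    x ∈ VS G := by
  by_cases hax : a = x
  · exact hax ▸ ha
  · obtain ⟨P, hP⟩ := exists_isPth h
    have h1 := hP.vs_subset (hP.right_mem hax)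
    exact VS_mono (del_le G S) h1

/-- the end of the argument: the component of `a` in `G - u - C` has too few neighbours -/
theorem fin (hFRG : SpecFRG) (h : TFS G X F u w w' C) (hVC : vs C ⊆ F ∪ NB G F) (hFC : F ⊆ vs C)
    {a : α} (hua : G.Adj u a) (haC : a ∉ vs C) {S : Finset α} (hSN : S ⊆ NB G F)
    (hS : ∀ x, x ∈ NB G F → (del G (insert u (vs C))).Reachable a x → x ∈ S)
    (hcard : S.card + (NB G F ∩ vs C).card ≤ 2) : False := by
  classical
  have haJ : a ∉ insert u (vs C) := by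
    rw [mem_insert, not_or]
    exact ⟨hua.ne', haC⟩
  obtain ⟨f, hf⟩ : F.Nonempty := by
    rw [← card_pos]
    have := h.frF.2.1
    omega
  have huF : u ∉ F := notF h h.uX
  have huN : u ∉ NB G F := notN h h.uX
  have hPN : ∀ x, (del G (insert u (vs C))).Reachable a x → x ∈ NB G F := by
    by_contra hne
    push Not at hne
    obtain ⟨x₀, hx₀, hx₀N⟩ := hne
    set D : Finset α := univ.filter fun x => (del G (insert u (vs C))).Reachable a x ∧ x ∉ NB G F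
      with hD
    have hmD : ∀ x, x ∈ D ↔ (del G (insert u (vs C))).Reachable a x ∧ x ∉ NB G F := by
      intro x
      rw [hD, mem_filter]
      simp only [mem_univ, true_and]
    apply hFRG.few h.k48.1 (D := D) (W := insert u (S ∪ (NB G F ∩ vs C))) (r := f)
    · intro x hx
      exact reach_VS (right_mem_VS hua) ((hmD x).1 hx).1
    · exact ⟨x₀, (hmD x₀).2 ⟨hx₀, hx₀N⟩⟩
    · intro y hy
      obtain ⟨hyD, x, hx, hxy⟩ := mem_NB'.1 hy
      obtain ⟨hx1, hx2⟩ := (hmD x).1 hx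
      have hxJ := reachable_del_notMem_right hx1 haJ
      rw [mem_insert, not_or] at hxJ
      rw [mem_insert, mem_union, mem_inter]
      by_cases hyu : y = u
      · exact Or.inl hyu
      by_cases hyC : y ∈ vs C
      · rcases mem_union.1 (hVC hyC) with hyF | hyN
        · exfalso
          apply hx2
          exact mem_NB'.2 ⟨fun hxF => hxJ.2 (hFC hxF), y, hyF, hxy.symm⟩
        · exact Or.inr (Or.inr ⟨hyN, hyC⟩)
      · have hyJ : y ∉ insert u (vs C) := by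
          rw [mem_insert, not_or]
          exact ⟨hyu, hyC⟩
        have hadj : (del G (insert u (vs C))).Adj x y :=
          ⟨hxy, by rw [mem_insert, not_or]; exact hxJ, hyJ⟩
        have hy1 := hx1.trans hadj.reachable
        have hyN : y ∈ NB G F := by
          by_contra hyN
          exact hyD ((hmD y).2 ⟨hy1, hyN⟩)
        exact Or.inr (Or.inl (hS y hyN hy1))
    · calc (insert u (S ∪ (NB G F ∩ vs C))).card ≤ (S ∪ (NB G F ∩ vs C)).card + 1 :=
          card_insert_le _ _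
        _ ≤ S.card + (NB G F ∩ vs C).card + 1 := by
          have := card_union_le S (NB G F ∩ vs C)
          omega
        _ ≤ 3 := by omega
    · exact h.frF.1 hf
    · intro hfD
      have := reachable_del_notMem_right ((hmD f).1 hfD).1 haJ
      exact this (mem_insert_of_mem (hFC hf))
    · intro hfW
      rw [mem_insert, mem_union, mem_inter] at hfW
      rcases hfW with hfu | hfS | hfN
      · exact huF (hfu ▸ hf)
      · exact (mem_NB'.1 (hSN hfS)).1 hf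
      · exact (mem_NB'.1 hfN.1).1 hf
  have haN : a ∈ NB G F := hPN a (Reachable.refl a)
  have haX : a ∉ X := fun hX => notN h hX haN
  have haNX : a ∈ NB G X := mem_NB'.2 ⟨haX, u, h.uX, hua⟩
  by_cases hall : ∀ y ∈ X, G.Adj a y → y = u
  · exact hFRG.one h.k48.1 h.frX (h.no2 X h.frX) haNX h.uX hall h.ru
  · push Not at hall
    obtain ⟨y, hyX, hay, hyu⟩ := hall
    have hyC : y ∉ vs C := by
      intro hyC
      rcases mem_union.1 (hVC hyC) with h1 | h1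
      · exact notF h hyX h1
      · exact notN h hyX h1
    have hadj : (del G (insert u (vs C))).Adj a y :=
      ⟨hay, haJ, by rw [mem_insert, not_or]; exact ⟨hyu, hyC⟩⟩
    exact notN h hyX (hPN y hadj.reachable)

end TFBM

open TFBM in
/-- **TFB** -/
theorem specTFB (hFRG : SpecFRG) (hNCN : SpecNCN) : SpecTFB := by
  intro α _ _ G X F u w w' C h hFC
  classical
  have hk4 : KConn 4 G := h.k48.1
  have hF3 : 3 ≤ F.card := h.no2 F h.frF
  have hN4 : (NB G F).card = 4 := h.frF.2.2.1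
  have huC : u ∉ vs C ∧ w ∉ vs C ∧ w' ∉ vs C := by
    have h1 := isCyc_del (G := G) (C := C) (S := {u, w, w'})
    have h2 : ∀ e ∈ C, e ∈ (del G {u, w, w'}).edgeSet := by
      intro e he
      exact (mem_Z1.1 h.gam.2.2.2.1).1 e (by rw [chi_of_mem he]; exact one_ne_zero)
    have h3 := (h1.1 (h.cyc.transfer h2)).2
    rw [Finset.disjoint_right] at h3
    exact ⟨h3 (by simp), h3 (by simp), h3 (by simp)⟩
  -- the neighbours of a vertex of `F`
  have hnb : ∀ v ∈ F, ∀ i j, i ≠ j → s(v, i) ∈ C → s(v, j) ∈ C →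
      nbs G v ⊆ {i, j} ∪ (NB G F \ vs C) := by
    intro v hv i j hij hi hj y hy
    rw [mem_nbs] at hy
    rw [mem_union, mem_insert, mem_singleton, mem_sdiff]
    by_cases hyC : y ∈ vs C
    · exact Or.inl (h.cyc.eq_or_eq hi hj hij (h.ch v y (hFC hv) hyC hy))
    · exact Or.inr ⟨mem_NB'.2 ⟨fun hyF => hyC (hFC hyF), v, hv, hy⟩, hyC⟩
  have hsum : (NB G F \ vs C).card + (NB G F ∩ vs C).card = 4 := by
    rw [card_sdiff_add_card_inter, hN4]
  by_cases h2 : 2 ≤ (NB G F ∩ vs C).card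
  · -- (1)
    have hT2 : (NB G F \ vs C).card ≤ 2 := by omega
    have hTn : ∀ v ∈ F, ∀ i j, i ≠ j → s(v, i) ∈ C → s(v, j) ∈ C →
        (NB G F \ vs C).card = 2 ∧ nbs G v = {i, j} ∪ (NB G F \ vs C) := by
      intro v hv i j hij hi hj
      have h3 := hnb v hv i j hij hi hj
      have h4 : 4 ≤ (nbs G v).card := hk4.le_nbs (h.frF.1 hv)
      have h5 : ({i, j} ∪ (NB G F \ vs C)).card ≤ 2 + (NB G F \ vs C).card :=
        (card_union_le _ _).trans (Nat.add_le_add_right card_le_two _)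
      have h6 := card_le_card h3
      refine ⟨by omega, eq_of_subset_of_card_le h3 (by omega)⟩
    by_cases hA : ∃ v ∈ F, ∃ v' ∈ F, s(v, v') ∈ C
    · obtain ⟨v, hv, v', hv', hvv'⟩ := hA
      have hne : v ≠ v' := (h.cyc.adj_of_mem hvv').ne
      obtain ⟨i, hi, hvi⟩ := h.cyc.exists_other hvv'
      have hv'v : s(v', v) ∈ C := by rw [Sym2.eq_swap]; exact hvv'
      obtain ⟨i', hi', hvi'⟩ := h.cyc.exists_other hv'v
      have e1 := (hTn v hv v' i hi.symm hvv' hvi)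
      have e2 := (hTn v' hv' v i' hi'.symm hv'v hvi')
      have hsub : NB G {v, v'} ⊆ {i, i'} ∪ (NB G F \ vs C) := by
        intro y hy
        obtain ⟨hyv, a, ha, hay⟩ := mem_NB'.1 hy
        rw [mem_insert, mem_singleton, not_or] at hyv
        rw [mem_insert, mem_singleton] at ha
        rw [mem_union, mem_insert, mem_singleton]
        rcases ha with rfl | rfl
        · have h3 := mem_nbs.2 hay
          rw [e1.2, mem_union, mem_insert, mem_singleton] at h3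
          rcases h3 with (h3 | h3) | h3
          · exact absurd h3 hyv.2
          · exact Or.inl (Or.inl h3)
          · exact Or.inr h3
        · have h3 := mem_nbs.2 hay
          rw [e2.2, mem_union, mem_insert, mem_singleton] at h3
          rcases h3 with (h3 | h3) | h3
          · exact absurd h3 hyv.1
          · exact Or.inl (Or.inr h3)
          · exact Or.inr h3
      have hle4 : (NB G {v, v'}).card ≤ 4 := by
        calc (NB G {v, v'}).card ≤ ({i, i'} ∪ (NB G F \ vs C)).card := card_le_card hsub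
          _ ≤ 2 + (NB G F \ vs C).card :=
            (card_union_le _ _).trans (Nat.add_le_add_right card_le_two _)
          _ ≤ 4 := by omega
      have hvV : ({v, v'} : Finset α) ⊆ VS G := by
        intro y hy
        rw [mem_insert, mem_singleton] at hy
        rcases hy with rfl | rfl
        · exact h.frF.1 hv
        · exact h.frF.1 hv'
      have hcv : ({v, v'} : Finset α).card = 2 := card_pair hne
      have hrest : (VS G).card ≤ (VS G \ ({v, v'} ∪ NB G {v, v'})).card + 2 +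
          (NB G {v, v'}).card := by
        have h7 := le_card_sdiff ({v, v'} ∪ NB G {v, v'}) (VS G)
        have h8 := card_union_le ({v, v'} : Finset α) (NB G {v, v'})
        omega
      have h8 := h.k48.2
      have hge4 : 4 ≤ (NB G {v, v'}).card := by
        by_contra hlt
        push Not at hlt
        obtain ⟨r, hr⟩ : (VS G \ ({v, v'} ∪ NB G {v, v'})).Nonempty := by
          rw [← card_pos]
          omega
        rw [mem_sdiff, mem_union, not_or] at hr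
        exact hFRG.few hk4 hvV ⟨v, by simp⟩ (Subset.refl _) (by omega) hr.1 hr.2.1 hr.2.2
      have hfr : Frag G {v, v'} := ⟨hvV, by omega, by omega, by omega⟩
      have := h.no2 _ hfr
      omega
    · push Not at hA
      obtain ⟨f₁, hf₁, f₂, hf₂, f₃, hf₃, h12, h13, h23⟩ := two_lt_card.1 hF3
      -- all C-neighbours of elements of `F` are in `N ∩ vs C`
      have hNC2 : (NB G F ∩ vs C).card = 2 := by
        obtain ⟨i, j, hij, hi, hj, _⟩ := h.cyc.two_edges (hFC hf₁)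
        have := (hTn f₁ hf₁ i j hij hi hj).1
        omega
      have hcn : ∀ v ∈ F, ∀ i, s(v, i) ∈ C → i ∈ NB G F ∩ vs C := by
        intro v hv i hi
        rw [mem_inter]
        exact ⟨mem_NB'.2 ⟨fun hiF => hA v hv i hiF hi, v, hv, h.cyc.adj_of_mem hi⟩,
          right_mem_vs hi⟩
      obtain ⟨a, b, hab, hNab⟩ := card_eq_two.1 hNC2
      have hva : ∀ v ∈ F, s(a, v) ∈ C := by
        intro v hv
        obtain ⟨i, j, hij, hi, hj, _⟩ := h.cyc.two_edges (hFC hv)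
        have h3 := hcn v hv i hi
        have h4 := hcn v hv j hj
        rw [hNab, mem_insert, mem_singleton] at h3 h4
        rcases h3 with rfl | rfl
        · rw [Sym2.eq_swap]; exact hi
        · rcases h4 with rfl | rfl
          · rw [Sym2.eq_swap]; exact hj
          · exact absurd rfl hij
      rcases h.cyc.eq_or_eq (hva f₁ hf₁) (hva f₂ hf₂) h12 (hva f₃ hf₃) with e | e
      · exact h13 e.symm
      · exact h23 e.symm
  · -- (2)
    push Not at h2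
    have hVC : vs C ⊆ F ∪ NB G F := by
      intro x hx
      by_contra hxn
      rw [mem_union, not_or] at hxn
      obtain ⟨f, hf⟩ : F.Nonempty := by
        rw [← card_pos]
        omega
      have hfx : f ≠ x := fun e => hxn.1 (e ▸ hf)
      obtain ⟨P, Q, hP, hQ, hPQ, _, hint⟩ := h.cyc.split (hFC hf) hx hfx
      obtain ⟨y, hy, hyN⟩ := exit hP hxn.1 hf
      obtain ⟨y', hy', hyN'⟩ := exit hQ hxn.1 hf
      have hyy' : y ≠ y' := by
        rintro rfl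
        have h3 : y ∈ vs P ∩ vs Q := mem_inter.2 ⟨hy, hy'⟩
        rw [hint, mem_insert, mem_singleton] at h3
        rcases h3 with rfl | rfl
        · exact (mem_NB'.1 hyN).1 hf
        · exact hxn.2 hyN
      have h3 : 1 < (NB G F ∩ vs C).card := by
        rw [one_lt_card]
        exact ⟨y, mem_inter.2 ⟨hyN, vs_mono (hPQ ▸ subset_union_left) hy⟩, y',
          mem_inter.2 ⟨hyN', vs_mono (hPQ ▸ subset_union_right) hy'⟩, hyy'⟩
      omega
    have hsep := hNCN.sep h.pu h.cyc h.gam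
    set A : Finset α := (NB G F).filter fun x => (del G (insert u (vs C))).Reachable w x with hA
    set B : Finset α := (NB G F).filter fun x => (del G (insert u (vs C))).Reachable w' x with hB
    have hAB : Disjoint A B := by
      rw [Finset.disjoint_left]
      intro x hx hx'
      rw [hA, mem_filter] at hx
      rw [hB, mem_filter] at hx'
      exact hsep (hx.2.trans hx'.2.symm)
    have hwJ : w ∉ insert u (vs C) := by
      rw [mem_insert, not_or]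
      exact ⟨h.gam.1.ne', huC.2.1⟩
    have hw'J : w' ∉ insert u (vs C) := by
      rw [mem_insert, not_or]
      exact ⟨h.gam.2.1.ne', huC.2.2⟩
    have hABC : Disjoint (A ∪ B) (NB G F ∩ vs C) := by
      rw [Finset.disjoint_left]
      intro x hx hx'
      rw [mem_inter] at hx'
      rw [mem_union] at hx
      rcases hx with hx | hx
      · rw [hA, mem_filter] at hx
        exact reachable_del_notMem_right hx.2 hwJ (mem_insert_of_mem hx'.2)
      · rw [hB, mem_filter] at hx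
        exact reachable_del_notMem_right hx.2 hw'J (mem_insert_of_mem hx'.2)
    have htot : A.card + B.card + (NB G F ∩ vs C).card ≤ 4 := by
      rw [← card_union_of_disjoint hAB, ← card_union_of_disjoint hABC, ← hN4]
      apply card_le_card
      intro x hx
      rw [mem_union, mem_union] at hx
      rcases hx with (hx | hx) | hx
      · rw [hA, mem_filter] at hx
        exact hx.1
      · rw [hB, mem_filter] at hx
        exact hx.1
      · exact (mem_inter.1 hx).1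
    by_cases hcase : A.card + (NB G F ∩ vs C).card ≤ 2
    · exact fin hFRG h hVC hFC h.gam.1 huC.2.1 (S := A) (filter_subset _ _)
        (fun x hx hr => by rw [hA, mem_filter]; exact ⟨hx, hr⟩) hcase
    · exact fin hFRG h hVC hFC h.gam.2.1 huC.2.2 (S := B) (filter_subset _ _)
        (fun x hx hr => by rw [hB, mem_filter]; exact ⟨hx, hr⟩) (by omega)

end DL
end

section
/-!
# G4 block, module TFL (helper68): the two-fragment lemma
-/
open SimpleGraph Finset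

namespace DL

theorem specTFL (hMNZ : SpecMNZ) (hTFA : SpecTFA) (hTFB : SpecTFB) : SpecTFL := by
  intro α _ _ G X F u hK hN hP hX hF hsub hu hr hp hall
  obtain ⟨w, w', C, hC, hg, hch⟩ := hMNZ hK hr (hX.1 hu) hP hp
  have hT : TFS G X F u w w' C := ⟨hK, hN, hX, hF, hsub, hu, hr, hp, hall, hC, hg, hch⟩
  exact hTFB hT (hTFA hT)

end DL
end
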